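import Mathlib

set_option autoImplicit false

/-! Positive Hausdorff dimension from separated binary codings; separated subsets modulo one. -/

namespace Pool.Agent.X119.ExpDim

open Filter Topology
open scoped NNReal ENNReal

/-! ### Dimension -/

lemma dim_lower (φ : (ℕ → Fin 2) → ℝ) (C α : ℝ) (hC : 0 < C) (hα : 0 < α)
    (h : ∀ d d' : ℕ → Fin 2, ∀ n, (∀ i < n, d i = d' i) → d n ≠ d' n →
      (1 / 2 : ℝ) ^ n ≤ C * |φ d - φ d'| ^ α) : 0 < dimH (Set.range φ) := by
  classical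
  -- first difference
  have hfirst : ∀ d d' : ℕ → Fin 2, d ≠ d' → ∃ n, (∀ i < n, d i = d' i) ∧ d n ≠ d' n := by
    intro d d' hne
    obtain ⟨m, hm⟩ := Function.ne_iff.mp hne
    have hex : ∃ m, d m ≠ d' m := ⟨m, hm⟩
    refine ⟨Nat.find hex, fun i hi => ?_, Nat.find_spec hex⟩
    by_contra hcon
    exact Nat.find_min hex hi hcon
  have hinj : Function.Injective φ := by
    intro d d' hdd
    by_contra hne
    obtain ⟨n, h1, h2⟩ := hfirst d d' hne
    have h3 := h d d' n h1 h2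
    rw [hdd, sub_self, abs_zero, Real.zero_rpow hα.ne', mul_zero] at h3
    have : (0:ℝ) < (1/2) ^ n := by positivity
    linarith
  set g : ℝ → ℝ := fun x => if hx : ∃ d, φ d = x then Real.ofDigits (Classical.choose hx) else 0 with hg
  have hgφ : ∀ d, g (φ d) = Real.ofDigits d := by
    intro d
    have hx : ∃ d', φ d' = φ d := ⟨d, rfl⟩
    simp only [hg]
    rw [dif_pos hx, hinj (Classical.choose_spec hx)]
  have hholder : HolderOnWith (Real.toNNReal C) (Real.toNNReal α) g (Set.range φ) := by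
    rintro _ ⟨d, rfl⟩ _ ⟨d', rfl⟩
    rw [hgφ, hgφ]
    rw [Real.coe_toNNReal α hα.le, edist_dist, edist_dist, Real.dist_eq, Real.dist_eq]
    have hreal : |Real.ofDigits d - Real.ofDigits d'| ≤ C * |φ d - φ d'| ^ α := by
      by_cases hdd : d = d'
      · subst hdd
        rw [sub_self, abs_zero]
        positivity
      · obtain ⟨n, h1, h2⟩ := hfirst d d' hdd
        refine le_trans ?_ (h d d' n h1 h2)
        have := Real.abs_ofDigits_sub_ofDigits_le (b := 2) (x := d) (y := d') (n := n) h1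
        simpa using this
    rw [show (↑(Real.toNNReal C) : ℝ≥0∞) = ENNReal.ofReal C from rfl,
      ENNReal.ofReal_rpow_of_nonneg (abs_nonneg _) hα.le, ← ENNReal.ofReal_mul hC.le]
    exact ENNReal.ofReal_le_ofReal hreal
  have hdim := hholder.dimH_image_le (by rw [Real.toNNReal_pos]; exact hα)
  have himg : Set.Ioo (0:ℝ) 1 ⊆ g '' (Set.range φ) := by
    intro x hx
    refine ⟨φ (Real.digits x 2), ⟨_, rfl⟩, ?_⟩
    rw [hgφ]
    exact Real.ofDigits_digits (by norm_num) ⟨hx.1.le, hx.2⟩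
  have h1 : (1:ℝ≥0∞) ≤ dimH (g '' (Set.range φ)) := by
    refine le_trans ?_ (dimH_mono himg)
    have := Real.dimH_of_nonempty_interior (E := ℝ) (s := Set.Ioo (0:ℝ) 1)
      ⟨1/2, by rw [interior_Ioo]; constructor <;> norm_num⟩
    rw [this]; simp
  rw [pos_iff_ne_zero]
  intro h0
  rw [h0, ENNReal.zero_div] at hdim
  exact absurd (h1.trans hdim) (by simp)

/-! ### Separated subsets -/

/-- cell of the fractional part -/
noncomputable def cell (θ : ℕ → ℝ) (H : ℕ) (i : ℕ) : ℤ := ⌊(H:ℝ) * Int.fract (θ i)⌋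

lemma cell_bounds (θ : ℕ → ℝ) (H : ℕ) (hH : 0 < H) (i : ℕ) : 0 ≤ cell θ H i ∧ cell θ H i < H := by
  have hH' : (0:ℝ) < H := by exact_mod_cast hH
  constructor
  · exact Int.floor_nonneg.mpr (mul_nonneg hH'.le (Int.fract_nonneg _))
  · unfold cell
    rw [Int.floor_lt]
    push_cast
    have := Int.fract_lt_one (θ i)
    nlinarith

lemma sep_of_cells (θ : ℕ → ℝ) (H : ℕ) (hH : 0 < H) (he : Even H) {i i' : ℕ}
    (hne : cell θ H i ≠ cell θ H i') (hpar : (cell θ H i) % 2 = (cell θ H i') % 2) (m : ℤ) :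
    1 / (H:ℝ) ≤ |θ i' - θ i - m| := by
  have hH' : (0:ℝ) < H := by exact_mod_cast hH
  obtain ⟨a0, a1⟩ := cell_bounds θ H hH i
  obtain ⟨b0, b1⟩ := cell_bounds θ H hH i'
  obtain ⟨t, ht⟩ := he
  set y := cell θ H i with hy
  set y' := cell θ H i' with hy'
  have hH2 : (H:ℤ) = t + t := by exact_mod_cast ht
  have f1 : (y:ℝ) ≤ H * Int.fract (θ i) := Int.floor_le _
  have f2 : (H:ℝ) * Int.fract (θ i) < y + 1 := Int.lt_floor_add_one _
  have f3 : (y':ℝ) ≤ H * Int.fract (θ i') := Int.floor_le _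
  have f4 : (H:ℝ) * Int.fract (θ i') < y' + 1 := Int.lt_floor_add_one _
  set D := Int.fract (θ i') - Int.fract (θ i) with hD
  obtain ⟨m', hm'⟩ : ∃ m' : ℤ, θ i' - θ i - m = D - m' := by
    refine ⟨m - ⌊θ i'⌋ + ⌊θ i⌋, ?_⟩
    rw [hD]
    have e1 := Int.floor_add_fract (θ i')
    have e2 := Int.floor_add_fract (θ i)
    push_cast
    linarith
  rw [hm', div_le_iff₀ hH', show |D - (m':ℝ)| * (H:ℝ) = |(D - m') * H| from by rw [abs_mul, abs_of_pos hH']]
  have hHD : (D - m') * H = (H * Int.fract (θ i') - H * Int.fract (θ i)) - m' * H := by rw [hD]; ring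
  rw [hHD]
  set X := (H:ℝ) * Int.fract (θ i') - H * Int.fract (θ i) with hX
  have hX1 : (y':ℝ) - y - 1 < X := by linarith
  have hX2 : X < (y':ℝ) - y + 1 := by linarith
  rcases lt_trichotomy m' 0 with hm | hm | hm
  · have hm1 : m' ≤ -1 := by omega
    have h1 : (m':ℝ) * H ≤ -H := by
      have : (m':ℝ) ≤ -1 := by exact_mod_cast hm1
      nlinarith
    have h2 : 2 - (H:ℤ) ≤ y' - y := by omega
    have h2' : 2 - (H:ℝ) ≤ y' - y := by exact_mod_cast h2
    rw [le_abs]; left; linarith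
  · rw [hm]
    simp only [Int.cast_zero, zero_mul, sub_zero]
    have h2 : 2 ≤ y' - y ∨ y' - y ≤ -2 := by omega
    rcases h2 with h2 | h2
    · have h2' : (2:ℝ) ≤ y' - y := by exact_mod_cast h2
      rw [le_abs]; left; linarith
    · have h2' : (y':ℝ) - y ≤ -2 := by exact_mod_cast h2
      rw [le_abs]; right; linarith
  · have hm1 : 1 ≤ m' := by omega
    have h1 : (H:ℝ) ≤ (m':ℝ) * H := by
      have : (1:ℝ) ≤ m' := by exact_mod_cast hm1
      nlinarith
    have h2 : y' - y ≤ (H:ℤ) - 2 := by omega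
    have h2' : (y':ℝ) - y ≤ H - 2 := by exact_mod_cast h2
    rw [le_abs]; right; linarith

lemma sep_subset (θ : ℕ → ℝ) (H : ℕ) (hH : 0 < H) (he : Even H) (a v : ℕ)
    (hone : ∀ d, 1 ≤ d → ∀ i i', a ≤ i → i < i' → i' + d < a + v →
      cell θ H i = cell θ H (i + d) → cell θ H i' ≠ cell θ H (i' + d)) :
    ∃ U ⊆ Finset.Ico a (a + v), v ≤ 6 * U.card ∧ ∀ i ∈ U, ∀ i' ∈ U, i ≠ i' → ∀ m : ℤ,
      1 / (H:ℝ) ≤ |θ i' - θ i - m| := by
  classical
  set Vs := Finset.Ico a (a + v) with hV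
  have hVcard : Vs.card = v := by rw [hV, Nat.card_Ico]; omega
  set P := (Vs ×ˢ Vs).filter (fun p => cell θ H p.1 = cell θ H p.2) with hP
  set P1 := P.filter (fun p => p.1 < p.2) with hP1
  set P2 := P.filter (fun p => p.2 < p.1) with hP2
  set P0 := P.filter (fun p => p.1 = p.2) with hP0
  have hPsub : P ⊆ (P1 ∪ P2) ∪ P0 := by
    intro p hp
    rcases lt_trichotomy p.1 p.2 with h | h | h
    · exact Finset.mem_union_left _ (Finset.mem_union_left _ (Finset.mem_filter.mpr ⟨hp, h⟩))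
    · exact Finset.mem_union_right _ (Finset.mem_filter.mpr ⟨hp, h⟩)
    · exact Finset.mem_union_left _ (Finset.mem_union_right _ (Finset.mem_filter.mpr ⟨hp, h⟩))
  have hmemP : ∀ p, p ∈ P ↔ (a ≤ p.1 ∧ p.1 < a + v) ∧ (a ≤ p.2 ∧ p.2 < a + v) ∧
      cell θ H p.1 = cell θ H p.2 := by
    intro p
    rw [hP, Finset.mem_filter, Finset.mem_product, hV, Finset.mem_Ico, Finset.mem_Ico]
    tauto
  have c1 : P1.card ≤ v := by
    rw [← Finset.card_range v]
    apply Finset.card_le_card_of_injOn (fun p => p.2 - p.1)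
    · intro p hp
      rw [Finset.mem_coe, hP1, Finset.mem_filter, hmemP] at hp
      rw [Finset.mem_coe, Finset.mem_range]
      simp only
      omega
    · intro p hp q hq hpq
      rw [Finset.mem_coe, hP1, Finset.mem_filter, hmemP] at hp hq
      simp only at hpq
      obtain ⟨⟨⟨hp1, hp2⟩, ⟨hp3, hp4⟩, hp5⟩, hp6⟩ := hp
      obtain ⟨⟨⟨hq1, hq2⟩, ⟨hq3, hq4⟩, hq5⟩, hq6⟩ := hq
      have e1 : p.2 = p.1 + (p.2 - p.1) := by omega
      have e2 : q.2 = q.1 + (p.2 - p.1) := by omega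
      have h1 : p.1 = q.1 := by
        rcases lt_trichotomy p.1 q.1 with h | h | h
        · exfalso
          apply hone (p.2 - p.1) (by omega) p.1 q.1 hp1 h (by omega)
          · rw [← e1]; exact hp5
          · rw [← e2]; exact hq5
        · exact h
        · exfalso
          apply hone (p.2 - p.1) (by omega) q.1 p.1 hq1 h (by omega)
          · rw [← e2]; exact hq5
          · rw [← e1]; exact hp5
      exact Prod.ext h1 (by omega)
  have c2 : P2.card ≤ v := by
    refine le_trans ?_ c1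
    apply Finset.card_le_card_of_injOn (fun p => (p.2, p.1))
    · intro p hp
      rw [Finset.mem_coe, hP2, Finset.mem_filter, hmemP] at hp
      rw [Finset.mem_coe, hP1, Finset.mem_filter, hmemP]
      exact ⟨⟨hp.1.2.1, hp.1.1, hp.1.2.2.symm⟩, hp.2⟩
    · intro p _ q _ hpq
      simp only [Prod.mk.injEq] at hpq
      exact Prod.ext hpq.2 hpq.1
  have c0 : P0.card ≤ v := by
    rw [← hVcard]
    apply Finset.card_le_card_of_injOn (fun p => p.1)
    · intro p hp
      rw [Finset.mem_coe, hP0, Finset.mem_filter, hmemP] at hp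
      rw [Finset.mem_coe, hV, Finset.mem_Ico]
      exact hp.1.1
    · intro p hp q hq hpq
      rw [Finset.mem_coe, hP0, Finset.mem_filter] at hp hq
      simp only at hpq
      exact Prod.ext hpq (by rw [← hp.2, ← hq.2]; exact hpq)
  have hPcard : P.card ≤ 3 * v := by
    have h1 := Finset.card_le_card hPsub
    have h2 := Finset.card_union_le (P1 ∪ P2) P0
    have h3 := Finset.card_union_le P1 P2
    omega
  set I := Vs.image (cell θ H) with hI
  have hsum : ∑ y ∈ I, (Vs.filter (fun i => cell θ H i = y)).card = v := by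
    rw [← hVcard]
    exact (Finset.card_eq_sum_card_image (cell θ H) Vs).symm
  have hsq : ∑ y ∈ I, (Vs.filter (fun i => cell θ H i = y)).card ^ 2 = P.card := by
    have h1 : P.card = ∑ i ∈ Vs, (Vs.filter (fun j => cell θ H i = cell θ H j)).card := by
      rw [hP, Finset.card_filter, Finset.sum_product]
      refine Finset.sum_congr rfl fun i _ => ?_
      rw [Finset.card_filter]
    rw [h1, ← Finset.sum_fiberwise_of_maps_to (s := Vs) (t := I) (g := cell θ H)
      (fun i hi => Finset.mem_image_of_mem _ hi)]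
    refine Finset.sum_congr rfl fun y _ => ?_
    have h2 : ∀ i ∈ Vs.filter (fun i => cell θ H i = y),
        (Vs.filter (fun j => cell θ H i = cell θ H j)).card =
          (Vs.filter (fun i => cell θ H i = y)).card := by
      intro i hi
      rw [Finset.mem_filter] at hi
      rw [hi.2]
      congr 1
      ext j
      simp only [Finset.mem_filter, eq_comm]
    rw [Finset.sum_congr rfl h2, Finset.sum_const, smul_eq_mul, sq]
  have hCS := sq_sum_le_card_mul_sum_sq (s := I)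
    (f := fun y => (Vs.filter (fun i => cell θ H i = y)).card)
  rw [hsum, hsq] at hCS
  have hIcard : v ≤ 3 * I.card := by
    rcases Nat.eq_zero_or_pos v with h0 | h0
    · omega
    · have : v ^ 2 ≤ I.card * (3 * v) := hCS.trans (Nat.mul_le_mul_left _ hPcard)
      nlinarith
  set I0 := I.filter (fun y => y % 2 = 0) with hI0
  set I1 := I.filter (fun y => y % 2 = 1) with hI1
  have hIsub : I ⊆ I0 ∪ I1 := by
    intro y hy
    rw [Finset.mem_union, hI0, hI1, Finset.mem_filter, Finset.mem_filter]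
    rcases Int.emod_two_eq_zero_or_one y with h | h
    · exact Or.inl ⟨hy, h⟩
    · exact Or.inr ⟨hy, h⟩
  have hIc : I.card ≤ I0.card + I1.card := (Finset.card_le_card hIsub).trans (Finset.card_union_le _ _)
  obtain ⟨Y, r, hYI, hYr, hYc⟩ : ∃ (Y : Finset ℤ) (r : ℤ), Y ⊆ I ∧ (∀ y ∈ Y, y % 2 = r) ∧
      v ≤ 6 * Y.card := by
    rcases le_total I0.card I1.card with h | h
    · exact ⟨I1, 1, Finset.filter_subset _ _, fun y hy => (Finset.mem_filter.mp hy).2, by omega⟩
    · exact ⟨I0, 0, Finset.filter_subset _ _, fun y hy => (Finset.mem_filter.mp hy).2, by omega⟩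
  have hch : ∀ y ∈ Y, ∃ i ∈ Vs, cell θ H i = y := fun y hy => Finset.mem_image.mp (hYI hy)
  choose! ch hch1 hch2 using hch
  have hinj : Set.InjOn ch Y := by
    intro y hy y' hy' hyy
    rw [← hch2 y hy, ← hch2 y' hy', hyy]
  refine ⟨Y.image ch, ?_, ?_, ?_⟩
  · intro i hi
    obtain ⟨y, hy, rfl⟩ := Finset.mem_image.mp hi
    exact hch1 y hy
  · rw [Finset.card_image_of_injOn hinj]; exact hYc
  · intro i hi i' hi' hne m
    obtain ⟨y, hy, rfl⟩ := Finset.mem_image.mp hi
    obtain ⟨y', hy', rfl⟩ := Finset.mem_image.mp hi'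
    apply sep_of_cells θ H hH he
    · rw [hch2 y hy, hch2 y' hy']
      rintro rfl
      exact hne rfl
    · rw [hch2 y hy, hch2 y' hy', hYr y hy, hYr y' hy']

/-! ### Window lemma -/

lemma window_diff {X : Type*} (q : ℝ) (hq0 : 0 < q) (hq : q ≤ 1 / 2) :
    ∀ (u : ℕ) (E : ℝ), 0 < E → ∀ (val : Fin u → X → ℝ),
      (∀ (j : Fin u) (m : X), 0 < val j m ∧ val j m ≤ E * q ^ (j:ℕ)) →
      (∀ (j : Fin u) (m m' : X), m ≠ m' → 4 * E * q ^ ((j:ℕ) + 1) ≤ |val j m - val j m'|) →
      ∀ (π π' : Fin u → X), π ≠ π' →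
      2 * E * q ^ u ≤ |∑ j, val j (π j) - ∑ j, val j (π' j)| := by
  intro u
  induction u with
  | zero =>
    intro E hE val h1 h2 π π' hne
    exact absurd (Subsingleton.elim π π') hne
  | succ u ih =>
    intro E hE val h1 h2 π π' hne
    rw [Fin.sum_univ_succ, Fin.sum_univ_succ]
    by_cases h0 : π 0 = π' 0
    · have hne' : (fun j : Fin u => π j.succ) ≠ (fun j => π' j.succ) := by
        intro h
        apply hne
        funext j
        exact Fin.cases h0 (fun i => congrFun h i) j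
      have key := ih (E * q) (by positivity) (fun j m => val j.succ m)
        (fun j m => by
          refine ⟨(h1 j.succ m).1, (h1 j.succ m).2.trans (le_of_eq ?_)⟩
          rw [Fin.val_succ]; ring)
        (fun j m m' hm => by
          refine (le_of_eq ?_).trans (h2 j.succ m m' hm)
          rw [Fin.val_succ]; ring) _ _ hne'
      rw [h0]
      refine (le_of_eq ?_).trans (key.trans (le_of_eq ?_))
      · ring
      · congr 1; ring
    · have hmain := h2 0 _ _ h0
      rw [Fin.val_zero, zero_add, pow_one] at hmain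
      have hrest : |∑ j : Fin u, val j.succ (π j.succ) - ∑ j : Fin u, val j.succ (π' j.succ)|
          ≤ 2 * E * q := by
        rw [← Finset.sum_sub_distrib]
        refine (Finset.abs_sum_le_sum_abs _ _).trans ?_
        calc ∑ j : Fin u, |val j.succ (π j.succ) - val j.succ (π' j.succ)|
            ≤ ∑ j : Fin u, E * q * (1 / 2) ^ (j:ℕ) := by
              refine Finset.sum_le_sum fun j _ => ?_
              have a1 := h1 j.succ (π j.succ)
              have a2 := h1 j.succ (π' j.succ)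
              rw [Fin.val_succ] at a1 a2
              have a3 : E * q ^ ((j:ℕ) + 1) ≤ E * q * (1 / 2) ^ (j:ℕ) := by
                rw [pow_succ]
                have : q ^ (j:ℕ) ≤ (1 / 2) ^ (j:ℕ) := pow_le_pow_left₀ hq0.le hq _
                have hEq : 0 < E * q := by positivity
                nlinarith
              rw [abs_le]
              constructor <;> linarith
          _ = E * q * ∑ j ∈ Finset.range u, (1 / 2 : ℝ) ^ j := by
              rw [← Finset.mul_sum, Fin.sum_univ_eq_sum_range (fun j => (1 / 2 : ℝ) ^ j)]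
          _ ≤ E * q * 2 := by
              have := sum_geometric_two_le u
              have hEq : 0 < E * q := by positivity
              nlinarith
          _ = 2 * E * q := by ring
      have hpow : q ^ (u + 1) ≤ q := by
        calc q ^ (u + 1) ≤ q ^ 1 := pow_le_pow_of_le_one hq0.le (by linarith) (by omega)
          _ = q := pow_one q
      have h5 : |(val 0 (π 0) + ∑ j : Fin u, val j.succ (π j.succ)) -
          (val 0 (π' 0) + ∑ j : Fin u, val j.succ (π' j.succ))| ≥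
          |val 0 (π 0) - val 0 (π' 0)| -
          |∑ j : Fin u, val j.succ (π j.succ) - ∑ j : Fin u, val j.succ (π' j.succ)| := by
        have := abs_sub_abs_le_abs_sub (val 0 (π 0) - val 0 (π' 0))
          (-(∑ j : Fin u, val j.succ (π j.succ) - ∑ j : Fin u, val j.succ (π' j.succ)))
        rw [abs_neg] at this
        refine ge_iff_le.mpr (this.trans (le_of_eq ?_))
        congr 1; ring
      have h6 : 2 * E * q ^ (u + 1) ≤ 2 * E * q := by nlinarith
      linarith

lemma abs_sub_ge_log (a b m : ℝ) (hm : 0 < m) (ha : m ≤ a) (hb : m ≤ b) :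
    m * |Real.log a - Real.log b| ≤ |a - b| := by
  wlog hab : a ≤ b generalizing a b
  · rw [abs_sub_comm, abs_sub_comm a b]
    exact this b a hb ha (le_of_not_ge hab)
  have ha0 : 0 < a := hm.trans_le ha
  have hb0 : 0 < b := hm.trans_le hb
  have h1 : Real.log a ≤ Real.log b := Real.log_le_log ha0 hab
  rw [abs_of_nonpos (by linarith), abs_of_nonpos (by linarith)]
  have h2 : Real.log (b / a) ≤ b / a - 1 := Real.log_le_sub_one_of_pos (by positivity)
  rw [Real.log_div hb0.ne' ha0.ne'] at h2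
  have h3 : a * (Real.log b - Real.log a) ≤ b - a := by
    have h4 : a * (b / a - 1) = b - a := by field_simp
    rw [← h4]
    exact mul_le_mul_of_nonneg_left h2 ha0.le
  have h5 : m * (Real.log b - Real.log a) ≤ a * (Real.log b - Real.log a) :=
    mul_le_mul_of_nonneg_right ha (by linarith)
  linarith

/-! ### The sequence of logarithms -/

/-- `log i! + i L` -/
noncomputable def lam (L : ℝ) (i : ℕ) : ℝ := Real.log (i.factorial : ℝ) + i * L

lemma lam_add (L : ℝ) (i d : ℕ) :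
    lam L (i + d) - lam L i = (∑ s ∈ Finset.range d, Real.log ((i:ℝ) + s + 1)) + d * L := by
  induction d with
  | zero => simp
  | succ d ih =>
    rw [Finset.sum_range_succ]
    have h1 : lam L (i + (d + 1)) = lam L (i + d) + Real.log ((i:ℝ) + d + 1) + L := by
      unfold lam
      rw [← add_assoc, Nat.factorial_succ]
      push_cast
      rw [Real.log_mul (by positivity) (by positivity)]
      ring
    rw [h1]
    push_cast
    linarith

lemma log_diff_ge (x y : ℝ) (hx : 0 < x) (hxy : x < y) : (y - x) / y ≤ Real.log y - Real.log x := by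
  have hy : 0 < y := hx.trans hxy
  have h := Real.log_le_sub_one_of_pos (show (0:ℝ) < x / y by positivity)
  rw [Real.log_div hx.ne' hy.ne'] at h
  have h2 : (y - x) / y = 1 - x / y := by field_simp
  linarith

lemma log_diff_le (x y : ℝ) (hx : 0 < x) (hxy : x < y) : Real.log y - Real.log x ≤ (y - x) / x := by
  have hy : 0 < y := hx.trans hxy
  have h := Real.log_le_sub_one_of_pos (show (0:ℝ) < y / x by positivity)
  rw [Real.log_div hy.ne' hx.ne'] at h
  have h2 : (y - x) / x = y / x - 1 := by field_simp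
  linarith

lemma hone_lam (c L : ℝ) (hc : 0 < c) (H : ℕ) (a v : ℕ) (ha : 0 < a)
    (hH1 : 2 * c * (a + v) ≤ H) (hH2 : 4 ≤ H) (hv : 2 * (v:ℝ) ^ 2 ≤ a * c)
    (d : ℕ) (hd : 1 ≤ d) (i i' : ℕ) (hai : a ≤ i) (hii : i < i') (hi' : i' + d < a + v)
    (h1 : cell (fun i => lam L i / c) H i = cell (fun i => lam L i / c) H (i + d)) :
    cell (fun i => lam L i / c) H i' ≠ cell (fun i => lam L i / c) H (i' + d) := by
  intro h2
  have hH' : (0:ℝ) < H := by
    have : (4:ℝ) ≤ H := by exact_mod_cast hH2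
    linarith
  have key : ∀ i j : ℕ, cell (fun i => lam L i / c) H i = cell (fun i => lam L i / c) H j →
      ∃ m : ℤ, |lam L j / c - lam L i / c - m| < 1 / H := by
    intro i j hij
    refine ⟨⌊lam L j / c⌋ - ⌊lam L i / c⌋, ?_⟩
    have e1 := Int.floor_add_fract (lam L j / c)
    have e2 := Int.floor_add_fract (lam L i / c)
    have e3 : lam L j / c - lam L i / c - ((⌊lam L j / c⌋ - ⌊lam L i / c⌋ : ℤ) : ℝ) =
        Int.fract (lam L j / c) - Int.fract (lam L i / c) := by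
      push_cast; linarith
    rw [e3]
    unfold cell at hij
    simp only at hij
    have f1 : ((⌊(H:ℝ) * Int.fract (lam L i / c)⌋ : ℤ) : ℝ) ≤ H * Int.fract (lam L i / c) := Int.floor_le _
    have f2 : (H:ℝ) * Int.fract (lam L i / c) < ⌊(H:ℝ) * Int.fract (lam L i / c)⌋ + 1 :=
      Int.lt_floor_add_one _
    have f3 : ((⌊(H:ℝ) * Int.fract (lam L j / c)⌋ : ℤ) : ℝ) ≤ H * Int.fract (lam L j / c) := Int.floor_le _
    have f4 : (H:ℝ) * Int.fract (lam L j / c) < ⌊(H:ℝ) * Int.fract (lam L j / c)⌋ + 1 :=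
      Int.lt_floor_add_one _
    rw [hij] at f1 f2
    rw [abs_lt, ← neg_div, div_lt_iff₀ hH', lt_div_iff₀ hH']
    constructor <;> linarith
  obtain ⟨m, hm⟩ := key _ _ h1
  obtain ⟨m', hm'⟩ := key _ _ h2
  set G := ∑ s ∈ Finset.range d, (Real.log ((i':ℝ) + s + 1) - Real.log ((i:ℝ) + s + 1)) with hG
  have hGe : G / c = (lam L (i' + d) / c - lam L i' / c) - (lam L (i + d) / c - lam L i / c) := by
    rw [← sub_div, ← sub_div, ← sub_div, lam_add, lam_add, hG, Finset.sum_sub_distrib]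
    congr 1; ring
  have hii' : (i:ℝ) < i' := by exact_mod_cast hii
  have hi0 : (0:ℝ) ≤ i := Nat.cast_nonneg i
  have hGlow : 1 / ((i':ℝ) + 1) ≤ G := by
    have h3 : ∀ s ∈ Finset.range d, 0 ≤ Real.log ((i':ℝ) + s + 1) - Real.log ((i:ℝ) + s + 1) := by
      intro s _
      have hs : (0:ℝ) ≤ s := Nat.cast_nonneg s
      rw [sub_nonneg]
      exact Real.log_le_log (by positivity) (by linarith)
    have h4 := Finset.single_le_sum h3 (show 0 ∈ Finset.range d from Finset.mem_range.mpr hd)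
    refine le_trans ?_ h4
    have h5 := log_diff_ge ((i:ℝ) + (0:ℕ) + 1) ((i':ℝ) + (0:ℕ) + 1) (by push_cast; linarith)
      (by push_cast; linarith)
    refine le_trans ?_ h5
    push_cast
    have h6 : (1:ℝ) ≤ i' - i := by
      have : (i:ℝ) + 1 ≤ i' := by exact_mod_cast hii
      linarith
    rw [add_zero]
    apply div_le_div_of_nonneg_right _ (by linarith)
    linarith
  have ha0 : (0:ℝ) < a := by exact_mod_cast ha
  have hai' : (a:ℝ) ≤ i := by exact_mod_cast hai
  have hi'v : (i':ℝ) + d + 1 ≤ a + v := by exact_mod_cast hi'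
  have hd1 : (1:ℝ) ≤ d := by exact_mod_cast hd
  have hGup : G ≤ v ^ 2 / a := by
    have h3 : ∀ s ∈ Finset.range d, Real.log ((i':ℝ) + s + 1) - Real.log ((i:ℝ) + s + 1) ≤ v / a := by
      intro s _
      have hs : (0:ℝ) ≤ s := Nat.cast_nonneg s
      refine (log_diff_le ((i:ℝ) + s + 1) ((i':ℝ) + s + 1) (by linarith) (by linarith)).trans ?_
      apply div_le_div₀ (Nat.cast_nonneg v) _ ha0 (by linarith)
      linarith
    refine (Finset.sum_le_sum h3).trans ?_
    rw [Finset.sum_const, Finset.card_range, nsmul_eq_mul, sq, mul_div_assoc]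
    apply mul_le_mul_of_nonneg_right _ (by positivity)
    linarith
  -- bounds for G / c
  have b1 : 2 / (H:ℝ) ≤ G / c := by
    rw [div_le_div_iff₀ hH' hc]
    have h3 : (1:ℝ) ≤ G * (i' + 1) := by
      have hp : (0:ℝ) < (i':ℝ) + 1 := by linarith
      rwa [div_le_iff₀ hp] at hGlow
    have hGpos : 0 < G := lt_of_lt_of_le (by positivity) hGlow
    have h4 : 2 * c * ((i':ℝ) + 1) ≤ H := by
      refine le_trans ?_ hH1
      apply mul_le_mul_of_nonneg_left _ (by positivity)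
      linarith
    calc 2 * c = 2 * c * 1 := by ring
      _ ≤ 2 * c * (G * (i' + 1)) := by apply mul_le_mul_of_nonneg_left h3 (by positivity)
      _ = G * (2 * c * (i' + 1)) := by ring
      _ ≤ G * H := mul_le_mul_of_nonneg_left h4 hGpos.le
  have b2 : G / c ≤ 1 - 2 / (H:ℝ) := by
    have h3 : G / c ≤ 1 / 2 := by
      rw [div_le_iff₀ hc]
      refine hGup.trans ?_
      rw [div_le_iff₀ ha0]
      linarith
    have h4 : 2 / (H:ℝ) ≤ 1 / 2 := by
      rw [div_le_iff₀ hH']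
      have : (4:ℝ) ≤ H := by exact_mod_cast hH2
      linarith
    linarith
  have b3 : |G / c - ((m' - m : ℤ) : ℝ)| < 2 / H := by
    have h3 : G / c - ((m' - m : ℤ) : ℝ) = (lam L (i' + d) / c - lam L i' / c - m') -
        (lam L (i + d) / c - lam L i / c - m) := by
      rw [hGe]; push_cast; ring
    rw [h3]
    refine (abs_sub _ _).trans_lt ?_
    have : 2 / (H:ℝ) = 1 / H + 1 / H := by ring
    linarith
  rw [abs_lt] at b3
  rcases le_or_gt (m' - m) 0 with h | h
  · have : ((m' - m : ℤ) : ℝ) ≤ 0 := by exact_mod_cast h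
    linarith
  · have : (1:ℝ) ≤ ((m' - m : ℤ) : ℝ) := by exact_mod_cast h
    linarith

/-! ### Window systems -/

/-- data of a system of windows -/
structure Sys where
  ρ : ℕ → ℝ
  r : ℝ
  U : ℕ → Finset ℕ
  q : ℕ → ℝ
  hρ : ∀ i, 0 < ρ i
  hρ2 : ∀ i, 1 ≤ i → ρ (i + 1) ≤ ρ i / 2
  hsum : Summable ρ
  hr0 : 0 < r
  hr1 : r < 1
  hU : ∀ k, ∀ i ∈ U k, k ^ 2 ≤ i ∧ i < (k + 1) ^ 2 ∧ 1 ≤ i
  hq0 : ∀ k, 0 < q k
  hq : ∀ k, q k ≤ 1 / 2
  hsep : ∀ k, ∀ i ∈ U k, ∀ i' ∈ U k, i ≠ i' → ∀ (l l' : ℕ) (E : ℝ), 0 < E →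
    r * E ≤ ρ i * r ^ l → r * E ≤ ρ i' * r ^ l' →
    4 * E * q k ≤ |ρ i * r ^ l - ρ i' * r ^ l'|
  hW : ∀ k, (U k).Nonempty → ρ ((k + 2) ^ 2) * 2 ^ (2 * k + 3) ≤ ρ ((k + 1) ^ 2) * q k ^ (U k).card
  hL : ∀ k, (U k).Nonempty → ρ (k ^ 2) * r ^ (k ^ 2) ≤ ρ ((k + 2) ^ 2)

namespace Sys

variable (S : Sys)

lemma ρ_pow {m n : ℕ} (hm : 1 ≤ m) (hmn : m ≤ n) : S.ρ n ≤ S.ρ m * (1 / 2) ^ (n - m) := by
  induction n, hmn using Nat.le_induction with
  | base => simp
  | succ n hn ih =>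
    rw [Nat.succ_sub hn, pow_succ]
    have := S.hρ2 n (by omega)
    linarith

lemma ρ_anti {m n : ℕ} (hm : 1 ≤ m) (hmn : m ≤ n) : S.ρ n ≤ S.ρ m := by
  refine (S.ρ_pow hm hmn).trans ?_
  have h1 : (1 / 2 : ℝ) ^ (n - m) ≤ 1 := pow_le_one₀ (by norm_num) (by norm_num)
  have := S.hρ m
  nlinarith

lemma ρ_lt {m n : ℕ} (hm : 1 ≤ m) (hmn : m < n) : S.ρ n < S.ρ m := by
  have h1 := S.ρ_anti (show 1 ≤ m + 1 by omega) (show m + 1 ≤ n from hmn)
  have h2 := S.hρ2 m hm
  have := S.hρ m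
  linarith

/-- number of binary digits used in a window -/
noncomputable def b (k : ℕ) : ℕ := Nat.log 2 ((S.U k).card.factorial)

/-- number of binary digits used before a window -/
noncomputable def B (k : ℕ) : ℕ := ∑ j ∈ Finset.range k, S.b j

lemma exists_emb (k : ℕ) : Nonempty ((Fin (S.b k) → Fin 2) ↪ Equiv.Perm (Fin (S.U k).card)) := by
  rw [Function.Embedding.nonempty_iff_card_le, Fintype.card_perm]
  simp only [Fintype.card_pi, Fintype.card_fin, Finset.prod_const, Finset.card_univ]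
  exact Nat.pow_log_le_self 2 (Nat.factorial_ne_zero _)

/-- the permutation coded by digits -/
noncomputable def σ (k : ℕ) : (Fin (S.b k) → Fin 2) ↪ Equiv.Perm (Fin (S.U k).card) :=
  (S.exists_emb k).some

/-- the block of digits of a window -/
noncomputable def block (d : ℕ → Fin 2) (k : ℕ) : Fin (S.b k) → Fin 2 := fun t => d (S.B k + t)

lemma exists_lev (i : ℕ) (E : ℝ) (hE : 0 < E) : ∃ l : ℕ, S.ρ i * S.r ^ l ≤ E := by
  obtain ⟨l, hl⟩ := exists_pow_lt_of_lt_one (show 0 < E / S.ρ i from div_pos hE (S.hρ i)) S.hr1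
  refine ⟨l, ?_⟩
  rw [lt_div_iff₀ (S.hρ i)] at hl
  linarith

lemma E_pos (k j : ℕ) : 0 < S.ρ ((k + 1) ^ 2) * S.q k ^ j :=
  mul_pos (S.hρ _) (pow_pos (S.hq0 k) _)

open Classical in
/-- the exponent placing an index at a given level -/
noncomputable def lev (k i j : ℕ) : ℕ := Nat.find (S.exists_lev i _ (S.E_pos k j))

lemma lev_le (k i j : ℕ) : S.ρ i * S.r ^ (S.lev k i j) ≤ S.ρ ((k + 1) ^ 2) * S.q k ^ j := by
  classical
  exact Nat.find_spec (S.exists_lev i _ (S.E_pos k j))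

lemma qpow_le_one (k j : ℕ) : S.q k ^ j ≤ 1 :=
  pow_le_one₀ (S.hq0 k).le (by have := S.hq k; linarith)

lemma lev_ge (k i j : ℕ) (hi : i ∈ S.U k) :
    S.r * (S.ρ ((k + 1) ^ 2) * S.q k ^ j) ≤ S.ρ i * S.r ^ (S.lev k i j) := by
  classical
  obtain ⟨h1, h2, h3⟩ := S.hU k i hi
  have hE : S.ρ ((k + 1) ^ 2) * S.q k ^ j ≤ S.ρ ((k + 1) ^ 2) := by
    have := S.qpow_le_one k j
    have := S.hρ ((k + 1) ^ 2)
    nlinarith
  have hlt := S.ρ_lt h3 h2
  have hne : S.lev k i j ≠ 0 := by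
    intro h0
    have := S.lev_le k i j
    rw [h0, pow_zero, mul_one] at this
    linarith
  obtain ⟨l, hl⟩ := Nat.exists_eq_succ_of_ne_zero hne
  have hmin : ¬ (S.ρ i * S.r ^ l ≤ S.ρ ((k + 1) ^ 2) * S.q k ^ j) := by
    apply Nat.find_min (S.exists_lev i _ (S.E_pos k j))
    change l < S.lev k i j
    omega
  rw [hl, Nat.succ_eq_add_one, pow_succ S.r l]
  push Not at hmin
  have h4 := mul_le_mul_of_nonneg_left hmin.le S.hr0.le
  refine h4.trans (le_of_eq ?_)
  ring

lemma lev_le_self (k i j : ℕ) (hi : i ∈ S.U k) (hj : j < (S.U k).card) : S.lev k i j ≤ i := by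
  classical
  apply Nat.find_min' (S.exists_lev i _ (S.E_pos k j))
  obtain ⟨h1, h2, h3⟩ := S.hU k i hi
  have hk : 1 ≤ k := by
    rcases Nat.eq_zero_or_pos k with h | h
    · subst h; simp at h2; omega
    · exact h
  have hW := S.hW k ⟨i, hi⟩
  have hL := S.hL k ⟨i, hi⟩
  have a1 : S.ρ i ≤ S.ρ (k ^ 2) := S.ρ_anti (by nlinarith) h1
  have a2 : S.r ^ i ≤ S.r ^ (k ^ 2) := pow_le_pow_of_le_one S.hr0.le S.hr1.le h1
  have a3 : S.ρ i * S.r ^ i ≤ S.ρ (k ^ 2) * S.r ^ (k ^ 2) :=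
    mul_le_mul a1 a2 (pow_nonneg S.hr0.le _) (S.hρ _).le
  have a4 : S.ρ ((k + 2) ^ 2) ≤ S.ρ ((k + 2) ^ 2) * 2 ^ (2 * k + 3) := by
    have : (1:ℝ) ≤ 2 ^ (2 * k + 3) := one_le_pow₀ (by norm_num)
    have := S.hρ ((k + 2) ^ 2)
    nlinarith
  have a5 : S.q k ^ (S.U k).card ≤ S.q k ^ j :=
    pow_le_pow_of_le_one (S.hq0 k).le (by have := S.hq k; linarith) hj.le
  have a6 : S.ρ ((k + 1) ^ 2) * S.q k ^ (S.U k).card ≤ S.ρ ((k + 1) ^ 2) * S.q k ^ j :=
    mul_le_mul_of_nonneg_left a5 (S.hρ _).le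
  linarith

open Classical in
/-- the exponents coded by digits -/
noncomputable def lv (d : ℕ → Fin 2) (i : ℕ) : ℕ :=
  if h : i ∈ S.U (Nat.sqrt i) then
    S.lev (Nat.sqrt i) i ((S.σ _ (S.block d (Nat.sqrt i))).symm ((S.U (Nat.sqrt i)).equivFin ⟨i, h⟩))
  else i

lemma sqrt_eq {k i : ℕ} (hi : i ∈ S.U k) : Nat.sqrt i = k := by
  obtain ⟨h1, h2, h3⟩ := S.hU k i hi
  rw [Nat.eq_sqrt' |>.mpr ⟨h1, h2⟩]

lemma lv_of_mem (d : ℕ → Fin 2) (k i : ℕ) (hi : i ∈ S.U k) :
    S.lv d i = S.lev k i ((S.σ _ (S.block d k)).symm ((S.U k).equivFin ⟨i, hi⟩)) := by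
  have hk := S.sqrt_eq hi
  subst hk
  unfold lv
  rw [dif_pos hi]

lemma lv_of_not_mem (d : ℕ → Fin 2) (i : ℕ) (hi : i ∉ S.U (Nat.sqrt i)) : S.lv d i = i := by
  unfold lv
  rw [dif_neg hi]

lemma lv_le (d : ℕ → Fin 2) (i : ℕ) : S.lv d i ≤ i := by
  by_cases h : i ∈ S.U (Nat.sqrt i)
  · rw [S.lv_of_mem d _ i h]
    exact S.lev_le_self _ _ _ h (Fin.is_lt _)
  · rw [S.lv_of_not_mem d i h]

/-- terms -/
noncomputable def F (d : ℕ → Fin 2) (i : ℕ) : ℝ := S.ρ i * S.r ^ (S.lv d i)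

lemma F_pos (d : ℕ → Fin 2) (i : ℕ) : 0 < S.F d i := mul_pos (S.hρ _) (pow_pos S.hr0 _)

lemma F_le (d : ℕ → Fin 2) (i : ℕ) : S.F d i ≤ S.ρ i := by
  unfold F
  have : S.r ^ (S.lv d i) ≤ 1 := pow_le_one₀ S.hr0.le S.hr1.le
  have := S.hρ i
  nlinarith

lemma F_summable (d : ℕ → Fin 2) : Summable (S.F d) :=
  Summable.of_nonneg_of_le (fun i => (S.F_pos d i).le) (S.F_le d) S.hsum

/-- coded point -/
noncomputable def φ (d : ℕ → Fin 2) : ℝ := ∑' i, S.F d i

lemma F_diff_le (d d' : ℕ → Fin 2) (i : ℕ) : |S.F d i - S.F d' i| ≤ S.ρ ((Nat.sqrt i + 1) ^ 2) := by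
  by_cases h : i ∈ S.U (Nat.sqrt i)
  · have key : ∀ d, S.F d i ≤ S.ρ ((Nat.sqrt i + 1) ^ 2) := by
      intro d
      unfold F
      rw [S.lv_of_mem d _ i h]
      refine (S.lev_le _ _ _).trans ?_
      have := S.qpow_le_one (Nat.sqrt i)
        ((S.σ _ (S.block d (Nat.sqrt i))).symm ((S.U (Nat.sqrt i)).equivFin ⟨i, h⟩))
      have := S.hρ ((Nat.sqrt i + 1) ^ 2)
      nlinarith
    have h1 := key d
    have h2 := key d'
    have h3 := S.F_pos d i
    have h4 := S.F_pos d' i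
    rw [abs_le]; constructor <;> linarith
  · unfold F
    rw [S.lv_of_not_mem d i h, S.lv_of_not_mem d' i h, sub_self, abs_zero]
    exact (S.hρ _).le

lemma tail_le (d d' : ℕ → Fin 2) (k : ℕ) :
    |∑' i, (S.F d (i + (k + 1) ^ 2) - S.F d' (i + (k + 1) ^ 2))| ≤
      S.ρ ((k + 2) ^ 2) * 2 ^ (2 * k + 3) := by
  have hg : HasSum (fun i : ℕ => S.ρ ((k + 2) ^ 2) * 2 ^ (2 * k + 3) * (1 / 2 / 2 ^ i : ℝ))
      (S.ρ ((k + 2) ^ 2) * 2 ^ (2 * k + 3) * 1) := (hasSum_geometric_two' 1).mul_left _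
  rw [mul_one] at hg
  have hb : ∀ i, ‖S.F d (i + (k + 1) ^ 2) - S.F d' (i + (k + 1) ^ 2)‖ ≤
      S.ρ ((k + 2) ^ 2) * 2 ^ (2 * k + 3) * (1 / 2 / 2 ^ i : ℝ) := by
    intro i
    rw [Real.norm_eq_abs]
    refine (S.F_diff_le d d' _).trans ?_
    set s := Nat.sqrt (i + (k + 1) ^ 2) with hs
    have h1 : i + (k + 1) ^ 2 < (s + 1) ^ 2 := Nat.lt_succ_sqrt' _
    have h2 : k + 1 ≤ s := by rw [hs]; exact Nat.le_sqrt'.mpr (by omega)
    have h3 : (k + 2) ^ 2 ≤ (s + 1) ^ 2 := Nat.pow_le_pow_left (by omega) 2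
    refine (S.ρ_pow (by nlinarith) h3).trans ?_
    rw [mul_assoc]
    apply mul_le_mul_of_nonneg_left _ (S.hρ _).le
    have h4 : i + 1 ≤ (s + 1) ^ 2 - (k + 2) ^ 2 + (2 * k + 3) := by
      have : (k + 2) ^ 2 = (k + 1) ^ 2 + (2 * k + 3) := by ring
      omega
    have h5 : (1 / 2 : ℝ) ^ ((s + 1) ^ 2 - (k + 2) ^ 2 + (2 * k + 3)) ≤ (1 / 2) ^ (i + 1) :=
      pow_le_pow_of_le_one (by norm_num) (by norm_num) h4
    have h6 : (1 / 2 : ℝ) ^ ((s + 1) ^ 2 - (k + 2) ^ 2) =
        2 ^ (2 * k + 3) * (1 / 2 : ℝ) ^ ((s + 1) ^ 2 - (k + 2) ^ 2 + (2 * k + 3)) := by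
      rw [pow_add (1 / 2 : ℝ) _ (2 * k + 3)]
      have h7 : (2 : ℝ) ^ (2 * k + 3) * (1 / 2) ^ (2 * k + 3) = 1 := by
        rw [← mul_pow]; norm_num
      calc (1 / 2 : ℝ) ^ ((s + 1) ^ 2 - (k + 2) ^ 2)
          = (1 / 2 : ℝ) ^ ((s + 1) ^ 2 - (k + 2) ^ 2) * 1 := by rw [mul_one]
        _ = (1 / 2 : ℝ) ^ ((s + 1) ^ 2 - (k + 2) ^ 2) * (2 ^ (2 * k + 3) * (1 / 2) ^ (2 * k + 3)) := by
            rw [h7]
        _ = _ := by ring
    rw [h6]
    apply mul_le_mul_of_nonneg_left _ (by positivity)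
    refine h5.trans (le_of_eq ?_)
    rw [pow_succ, one_div, inv_pow]
    field_simp
  have := tsum_of_norm_bounded hg hb
  rwa [Real.norm_eq_abs] at this

lemma sum_window (d : ℕ → Fin 2) (k : ℕ) :
    ∑ i ∈ S.U k, S.F d i = ∑ j : Fin (S.U k).card,
      (fun (j : Fin (S.U k).card) (m : Fin (S.U k).card) =>
        S.ρ ((S.U k).equivFin.symm m) * S.r ^ (S.lev k ((S.U k).equivFin.symm m) j)) j
        ((S.σ k (S.block d k)) j) := by
  rw [← Finset.sum_coe_sort]
  rw [← Equiv.sum_comp ((S.σ k (S.block d k)).trans (S.U k).equivFin.symm)]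
  refine Finset.sum_congr rfl fun j _ => ?_
  simp only [Equiv.trans_apply]
  unfold F
  rw [S.lv_of_mem d k _ (Subtype.prop _)]
  simp

lemma window_lower (d d' : ℕ → Fin 2) (k : ℕ) (hne : S.block d k ≠ S.block d' k) :
    2 * S.ρ ((k + 1) ^ 2) * S.q k ^ (S.U k).card ≤ |∑ i ∈ S.U k, S.F d i - ∑ i ∈ S.U k, S.F d' i| := by
  rw [S.sum_window, S.sum_window]
  refine window_diff (X := Fin (S.U k).card) (S.q k) (S.hq0 k) (S.hq k) (S.U k).card
    (S.ρ ((k + 1) ^ 2)) (S.hρ _) (fun (j : Fin (S.U k).card) (m : Fin (S.U k).card) =>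
        S.ρ ((S.U k).equivFin.symm m) * S.r ^ (S.lev k ((S.U k).equivFin.symm m) j)) ?_ ?_
    (fun j => S.σ k (S.block d k) j) (fun j => S.σ k (S.block d' k) j) ?_
  · intro j m
    refine ⟨mul_pos (S.hρ _) (pow_pos S.hr0 _), S.lev_le _ _ _⟩
  · intro j m m' hm
    have hmem : ∀ m, (((S.U k).equivFin.symm m : S.U k) : ℕ) ∈ S.U k := fun m => Subtype.prop _
    have := S.hsep k _ (hmem m) _ (hmem m') (fun h => hm (by
      have h2 := Subtype.ext h
      exact (S.U k).equivFin.symm.injective h2)) _ _ _ (S.E_pos k j) (S.lev_ge k _ j (hmem m))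
      (S.lev_ge k _ j (hmem m'))
    refine (le_of_eq ?_).trans this
    rw [pow_succ]; ring
  · intro h
    apply hne
    apply (S.σ k).injective
    exact Equiv.coe_fn_injective h

lemma B_succ (k : ℕ) : S.B (k + 1) = S.B k + S.b k := Finset.sum_range_succ _ _

lemma B_mono {j k : ℕ} (h : j ≤ k) : S.B j ≤ S.B k := by
  unfold B
  exact Finset.sum_le_sum_of_subset (Finset.range_subset_range.mpr h)

lemma φ_diff (d d' : ℕ → Fin 2) (k : ℕ) (heq : ∀ j < k, S.block d j = S.block d' j)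
    (hne : S.block d k ≠ S.block d' k) : S.ρ ((k + 2) ^ 2) ≤ |S.φ d - S.φ d'| := by
  have hsd := (S.F_summable d).sub (S.F_summable d')
  have h1 : S.φ d - S.φ d' = ∑' i, (S.F d i - S.F d' i) := by
    unfold φ
    rw [(S.F_summable d).tsum_sub (S.F_summable d')]
  have h2 := hsd.sum_add_tsum_nat_add ((k + 1) ^ 2)
  have h3 : ∑ i ∈ Finset.range ((k + 1) ^ 2), (S.F d i - S.F d' i) =
      ∑ i ∈ S.U k, (S.F d i - S.F d' i) := by
    symm
    apply Finset.sum_subset
    · intro i hi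
      exact Finset.mem_range.mpr (S.hU k i hi).2.1
    · intro i hi hiU
      rw [Finset.mem_range] at hi
      have hs : Nat.sqrt i < k + 1 := Nat.sqrt_lt'.mpr hi
      have hlv : S.lv d i = S.lv d' i := by
        by_cases h : i ∈ S.U (Nat.sqrt i)
        · have hsk : Nat.sqrt i < k := by
            rcases Nat.lt_or_ge (Nat.sqrt i) k with h' | h'
            · exact h'
            · exfalso
              have : Nat.sqrt i = k := by omega
              rw [this] at h
              exact hiU h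
          rw [S.lv_of_mem d _ i h, S.lv_of_mem d' _ i h, heq _ hsk]
        · rw [S.lv_of_not_mem d i h, S.lv_of_not_mem d' i h]
      unfold F
      rw [hlv, sub_self]
  have h4 := S.window_lower d d' k hne
  have h5 := S.tail_le d d' k
  have hnon : (S.U k).Nonempty := by
    rw [Finset.nonempty_iff_ne_empty]
    intro h0
    apply hne
    have hb : S.b k = 0 := by unfold b; rw [h0]; simp
    funext t
    exact absurd t.2 (by omega)
  have h6 := S.hW k hnon
  have h7 : S.ρ ((k + 2) ^ 2) ≤ S.ρ ((k + 2) ^ 2) * 2 ^ (2 * k + 3) := by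
    have : (1:ℝ) ≤ 2 ^ (2 * k + 3) := one_le_pow₀ (by norm_num)
    have := S.hρ ((k + 2) ^ 2)
    nlinarith
  rw [h1, ← h2, h3, Finset.sum_sub_distrib]
  set A := ∑ i ∈ S.U k, S.F d i - ∑ i ∈ S.U k, S.F d' i with hA
  set T := ∑' i, (S.F d (i + (k + 1) ^ 2) - S.F d' (i + (k + 1) ^ 2)) with hT
  have h8 : |A| - |T| ≤ |A + T| := by
    have := abs_sub_abs_le_abs_sub A (-T)
    rw [abs_neg, sub_neg_eq_add] at this
    exact this
  linarith

theorem dim_pos (C α : ℝ) (hC : 0 < C) (hα : 0 < α)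
    (hent : ∀ k, (1 / 2 : ℝ) ^ (S.B k) ≤ C * (S.ρ ((k + 2) ^ 2)) ^ α) :
    0 < dimH (Set.range S.φ) := by
  apply dim_lower S.φ C α hC hα
  intro d d' n h1 h2
  -- find the window containing n
  have hunb : ∃ k, n < S.B (k + 1) := by
    by_contra hcon
    push Not at hcon
    have ht : Tendsto (fun k : ℕ => C * (S.ρ ((k + 1 + 2) ^ 2)) ^ α) atTop (𝓝 (C * 0 ^ α)) := by
      apply Tendsto.const_mul
      apply Tendsto.rpow_const _ (Or.inr hα.le)
      have h3 := S.hsum.tendsto_atTop_zero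
      apply h3.comp
      apply tendsto_atTop_mono (fun k : ℕ => show k ≤ (k + 1 + 2) ^ 2 by nlinarith) tendsto_id
    rw [Real.zero_rpow hα.ne', mul_zero] at ht
    have hpos : (0:ℝ) < (1 / 2) ^ n := by positivity
    obtain ⟨k, hk⟩ := (ht.eventually_lt_const hpos).exists
    have h3 := hent (k + 1)
    have h4 : (1 / 2 : ℝ) ^ n ≤ (1 / 2) ^ (S.B (k + 1)) :=
      pow_le_pow_of_le_one (by norm_num) (by norm_num) (hcon k)
    linarith
  classical
  set k := Nat.find hunb with hk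
  have hk1 : n < S.B (k + 1) := Nat.find_spec hunb
  have hk2 : S.B k ≤ n := by
    rcases Nat.eq_zero_or_pos k with h0 | h0
    · rw [h0]; simp [B]
    · have := Nat.find_min hunb (show k - 1 < Nat.find hunb by omega)
      rw [show k - 1 + 1 = k by omega] at this
      omega
  have heq : ∀ j < k, S.block d j = S.block d' j := by
    intro j hj
    funext t
    unfold block
    apply h1
    have h3 := S.B_mono (show j + 1 ≤ k from hj)
    rw [S.B_succ] at h3
    have := t.2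
    omega
  have hne : S.block d k ≠ S.block d' k := by
    intro h
    rw [S.B_succ] at hk1
    have h3 := congrFun h ⟨n - S.B k, by omega⟩
    unfold block at h3
    simp only at h3
    rw [show S.B k + (n - S.B k) = n by omega] at h3
    exact h2 h3
  have h3 := S.φ_diff d d' k heq hne
  calc (1 / 2 : ℝ) ^ n ≤ (1 / 2) ^ (S.B k) := pow_le_pow_of_le_one (by norm_num) (by norm_num) hk2
    _ ≤ C * (S.ρ ((k + 2) ^ 2)) ^ α := hent k
    _ ≤ C * |S.φ d - S.φ d'| ^ α := by
        apply mul_le_mul_of_nonneg_left _ hC.le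
        exact Real.rpow_le_rpow (S.hρ _).le h3 hα.le

end Sys

end Pool.Agent.X119.ExpDim
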