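import Mathlib
import Pool.Agent.X119.ExpDim

set_option autoImplicit false

/-! The window system for the exponential series evaluated on a two point set. -/

namespace Pool.Agent.X119.ExpDim

open Filter Topology
open scoped NNReal ENNReal

/-- `x^i / i!` -/
noncomputable def rho (x : ℝ) (i : ℕ) : ℝ := x ^ i / (i.factorial : ℝ)

lemma rho_pos (x : ℝ) (hx : 0 < x) (i : ℕ) : 0 < rho x i := by unfold rho; positivity

lemma log_rho (x : ℝ) (hx : 0 < x) (i : ℕ) : Real.log (rho x i) = - lam (-Real.log x) i := by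
  unfold rho lam
  rw [Real.log_div (by positivity) (by positivity), Real.log_pow]
  ring

lemma rho_half (x : ℝ) (hx : 0 < x) (hx1 : x ≤ 1) (i : ℕ) (hi : 1 ≤ i) :
    rho x (i + 1) ≤ rho x i / 2 := by
  have h1 : rho x (i + 1) = rho x i * (x / ((i:ℝ) + 1)) := by
    unfold rho
    rw [Nat.factorial_succ, pow_succ]
    push_cast
    field_simp
  rw [h1]
  have h2 : x / ((i:ℝ) + 1) ≤ 1 / 2 := by
    have : (1:ℝ) ≤ i := by exact_mod_cast hi
    rw [div_le_div_iff₀ (by positivity) (by norm_num)]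
    linarith
  have := rho_pos x hx i
  nlinarith

lemma lam_diff_le (L : ℝ) (m d : ℕ) :
    lam L (m + d) - lam L m ≤ d * (Real.log ((m:ℝ) + d) + L) := by
  rw [lam_add, mul_add]
  have h1 : ∀ s ∈ Finset.range d, Real.log ((m:ℝ) + s + 1) ≤ Real.log ((m:ℝ) + d) := by
    intro s hs
    rw [Finset.mem_range] at hs
    apply Real.log_le_log (by positivity)
    have : (s:ℝ) + 1 ≤ d := by exact_mod_cast hs
    linarith
  have h2 := Finset.sum_le_sum h1
  rw [Finset.sum_const, Finset.card_range, nsmul_eq_mul] at h2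
  linarith

lemma lam_diff_ge (L : ℝ) (m d : ℕ) (hm : 1 ≤ m) :
    d * (Real.log (m:ℝ) + L) ≤ lam L (m + d) - lam L m := by
  rw [lam_add, mul_add]
  have h1 : ∀ s ∈ Finset.range d, Real.log (m:ℝ) ≤ Real.log ((m:ℝ) + s + 1) := by
    intro s _
    have : (1:ℝ) ≤ m := by exact_mod_cast hm
    have : (0:ℝ) ≤ s := Nat.cast_nonneg s
    apply Real.log_le_log (by positivity)
    linarith
  have h2 := Finset.sum_le_sum h1
  rw [Finset.sum_const, Finset.card_range, nsmul_eq_mul] at h2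
  linarith

lemma log_factorial_ge (u : ℕ) : ((u / 2 : ℕ) : ℝ) * Real.log (((u / 2 : ℕ) : ℝ) + 1) ≤
    Real.log (u.factorial : ℝ) := by
  have h1 : (u / 2).factorial * (u / 2 + 1) ^ (u - u / 2) ≤ u.factorial := by
    have := Nat.factorial_mul_pow_le_factorial (m := u / 2) (n := u - u / 2)
    rwa [show u / 2 + (u - u / 2) = u by omega] at this
  have h2 : (u / 2 + 1) ^ (u / 2) ≤ u.factorial := by
    refine le_trans ?_ h1
    calc (u / 2 + 1) ^ (u / 2) ≤ (u / 2 + 1) ^ (u - u / 2) := Nat.pow_le_pow_right (by omega) (by omega)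
      _ ≤ _ := Nat.le_mul_of_pos_left _ (Nat.factorial_pos _)
  rw [← Real.log_pow]
  apply Real.log_le_log (by positivity)
  exact_mod_cast h2

lemma ev_conditions (c L ε M : ℝ) (hc : 0 < c) (hε : 0 < ε) :
    ∃ k0 : ℕ, 1 ≤ k0 ∧ ∀ k : ℕ, k0 ≤ k → M ≤ Real.log ((k:ℝ) + 1) ∧
      8 * (2 * Real.log ((k:ℝ) + 2) + L) ≤ c * k ∧ 192 ≤ ε * k ∧ (24 / ε) ^ 2 ≤ k ∧
      L ≤ Real.log k := by
  have hk : Tendsto (fun k : ℕ => (k:ℝ)) atTop atTop := tendsto_natCast_atTop_atTop
  have e1 : ∀ᶠ k : ℕ in atTop, M ≤ Real.log ((k:ℝ) + 1) :=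
    (Real.tendsto_log_atTop.comp (tendsto_atTop_add_const_right _ 1 hk)).eventually_ge_atTop M
  have e2 : ∀ᶠ k : ℕ in atTop, 8 * (2 * Real.log ((k:ℝ) + 2) + L) ≤ c * k := by
    have h1 := (Real.isLittleO_log_id_atTop.bound (show (0:ℝ) < c / 64 by positivity))
    have h2 := (tendsto_atTop_add_const_right _ (2:ℝ) hk).eventually h1
    have h3 := hk.eventually_ge_atTop (2:ℝ)
    have h4 := hk.eventually_ge_atTop (16 * L / c)
    filter_upwards [h2, h3, h4] with k h2 h3 h4
    rw [id, Real.norm_eq_abs, Real.norm_eq_abs, abs_of_pos (show (0:ℝ) < k + 2 by linarith)] at h2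
    have h5 := (le_abs_self _).trans h2
    rw [div_le_iff₀ hc] at h4
    nlinarith
  have e3 : ∀ᶠ k : ℕ in atTop, 192 ≤ ε * k := by
    filter_upwards [hk.eventually_ge_atTop (192 / ε)] with k h
    rw [div_le_iff₀ hε] at h
    linarith
  have e4 : ∀ᶠ k : ℕ in atTop, (24 / ε) ^ 2 ≤ k := hk.eventually_ge_atTop _
  have e5 : ∀ᶠ k : ℕ in atTop, L ≤ Real.log k := (Real.tendsto_log_atTop.comp hk).eventually_ge_atTop L
  obtain ⟨k0, h0⟩ := eventually_atTop.mp (e1.and (e2.and (e3.and (e4.and e5))))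
  refine ⟨max k0 1, le_max_right _ _, fun k hk => ?_⟩
  obtain ⟨a1, a2, a3, a4, a5⟩ := h0 k (le_trans (le_max_left _ _) hk)
  exact ⟨a1, a2, a3, a4, a5⟩

/-- the entropy estimate for one window -/
lemma entropy_step (L ε : ℝ) (hL : 0 ≤ L) (hε : 0 < ε) (hε1 : ε ≤ 1) (k u v : ℕ)
    (hv : ε * k < v + 1) (hu : v ≤ 6 * u) (h1 : 192 ≤ ε * k) (h2 : (24 / ε) ^ 2 ≤ k)
    (h3 : L ≤ Real.log k) :
    (ε / 6720) * (lam L ((k + 3) ^ 2) - lam L ((k + 2) ^ 2)) ≤
      (Nat.log 2 u.factorial : ℝ) * Real.log 2 := by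
  have hk0 : (0:ℝ) ≤ k := Nat.cast_nonneg k
  have hk192 : (192:ℝ) ≤ k := by nlinarith
  have hkpos : (0:ℝ) < k := by linarith
  have hlogk : 1 ≤ Real.log k := by
    rw [Real.le_log_iff_exp_le hkpos]
    have := Real.exp_one_lt_d9
    linarith
  have hu' : (v:ℝ) ≤ 6 * u := by exact_mod_cast hu
  have hu2 : ε * k / 12 ≤ u := by linarith
  have hw1 : ((u:ℝ) - 1) / 2 ≤ ((u / 2 : ℕ) : ℝ) := by
    have : u ≤ 2 * (u / 2) + 1 := by omega
    have : (u:ℝ) ≤ 2 * ((u / 2 : ℕ) : ℝ) + 1 := by exact_mod_cast this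
    linarith
  have hw2 : ε * k / 48 ≤ ((u / 2 : ℕ) : ℝ) := by linarith
  have hw3 : Real.sqrt k ≤ ((u / 2 : ℕ) : ℝ) + 1 := by
    have h4 : ε * k / 24 ≤ ((u / 2 : ℕ) : ℝ) + 1 := by linarith
    refine le_trans ?_ h4
    have h5 : 24 / ε ≤ Real.sqrt k := Real.le_sqrt_of_sq_le h2
    rw [div_le_iff₀ hε] at h5
    have h6 : Real.sqrt k * Real.sqrt k = k := Real.mul_self_sqrt hk0
    have h7 : 0 ≤ Real.sqrt k := Real.sqrt_nonneg _
    rw [le_div_iff₀ (by norm_num)]
    calc Real.sqrt k * 24 ≤ Real.sqrt k * (Real.sqrt k * ε) := mul_le_mul_of_nonneg_left h5 h7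
      _ = ε * k := by rw [← mul_assoc, h6]; ring
  have hw4 : Real.log k / 2 ≤ Real.log (((u / 2 : ℕ) : ℝ) + 1) := by
    rw [← Real.log_sqrt hk0]
    exact Real.log_le_log (Real.sqrt_pos.mpr hkpos) hw3
  have hfac : ε * k / 96 * Real.log k ≤ Real.log (u.factorial : ℝ) := by
    refine le_trans ?_ (log_factorial_ge u)
    calc ε * k / 96 * Real.log k = (ε * k / 48) * (Real.log k / 2) := by ring
      _ ≤ _ := mul_le_mul hw2 hw4 (by linarith) (Nat.cast_nonneg _)
  have hlog2 : Real.log (u.factorial : ℝ) ≤ (Nat.log 2 u.factorial : ℝ) * Real.log 2 + Real.log 2 := by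
    have h4 := (Nat.lt_pow_succ_log_self (b := 2) (by norm_num) u.factorial).le
    have h5 : (u.factorial : ℝ) ≤ 2 ^ (Nat.log 2 u.factorial + 1) := by exact_mod_cast h4
    have h6 := Real.log_le_log (by positivity) h5
    rw [Real.log_pow] at h6
    push_cast at h6
    linarith
  have hl2 : Real.log 2 ≤ 1 := by
    have := Real.log_two_lt_d9
    linarith
  have hbig : 192 ≤ ε * k * Real.log k := by nlinarith
  have hT : lam L ((k + 3) ^ 2) - lam L ((k + 2) ^ 2) ≤ 35 * (k * Real.log k) := by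
    have h4 := lam_diff_le L ((k + 2) ^ 2) (2 * k + 5)
    rw [show (k + 2) ^ 2 + (2 * k + 5) = (k + 3) ^ 2 by ring] at h4
    refine h4.trans ?_
    push_cast
    have h5 : Real.log (((k:ℝ) + 2) ^ 2 + (2 * k + 5)) ≤ 4 * Real.log k := by
      rw [← Real.log_rpow hkpos] 
      apply Real.log_le_log (by positivity)
      rw [show ((k:ℝ) ^ (4:ℝ)) = k ^ 4 by norm_cast]
      nlinarith [mul_pos hkpos hkpos, mul_pos (mul_pos hkpos hkpos) hkpos]
    calc (2 * (k:ℝ) + 5) * (Real.log (((k:ℝ) + 2) ^ 2 + (2 * k + 5)) + L)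
        ≤ (2 * (k:ℝ) + 5) * (4 * Real.log k + Real.log k) := by
          apply mul_le_mul_of_nonneg_left _ (by positivity)
          linarith
      _ ≤ (7 * k) * (5 * Real.log k) := by
          have : (4 * Real.log k + Real.log k) = 5 * Real.log k := by ring
          rw [this]
          apply mul_le_mul_of_nonneg_right _ (by positivity)
          linarith
      _ = 35 * (k * Real.log k) := by ring
  have h5 : (ε / 6720) * (lam L ((k + 3) ^ 2) - lam L ((k + 2) ^ 2)) ≤ (ε / 6720) * (35 * (k * Real.log k)) :=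
    mul_le_mul_of_nonneg_left hT (by positivity)
  have h6 : (ε / 6720) * (35 * (k * Real.log k)) = ε * k * Real.log k / 192 := by ring
  nlinarith

/-! ### Construction of the window system -/

theorem exists_sys (x1 x2 : ℝ) (h2 : 0 < x2) (h12 : x2 < x1) (h1 : x1 ≤ 1) :
    ∃ S : Sys, S.ρ = rho x1 ∧ S.r = x2 / x1 ∧ 0 < dimH (Set.range S.φ) := by
  classical
  have hx1 : 0 < x1 := h2.trans h12
  set L := -Real.log x1 with hL
  have hL0 : 0 ≤ L := by
    have := Real.log_nonpos hx1.le h1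
    linarith
  set c := Real.log x1 - Real.log x2 with hc
  have hc0 : 0 < c := by
    have := Real.log_lt_log h2 h12
    linarith
  set r := x2 / x1 with hr
  have hr0 : 0 < r := by positivity
  have hr1 : r < 1 := by rw [hr, div_lt_one hx1]; exact h12
  have hlogr : Real.log r = -c := by
    rw [hr, Real.log_div h2.ne' hx1.ne', hc]; ring
  set ε := min 1 (c / 2) with hε
  have hε0 : 0 < ε := lt_min one_pos (by positivity)
  have hε1 : ε ≤ 1 := min_le_left _ _
  have hε2 : ε ^ 2 ≤ c / 2 := by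
    have : ε ≤ c / 2 := min_le_right _ _
    nlinarith
  set N := 2 * (⌈c⌉₊ + 2) with hN
  have hNc : 2 * c ≤ (N:ℝ) := by
    rw [hN]; push_cast
    have := Nat.le_ceil c
    linarith
  have hN4 : 4 ≤ N := by omega
  have hN0 : (0:ℝ) < N := by
    have : (4:ℝ) ≤ N := by exact_mod_cast hN4
    linarith
  set v : ℕ → ℕ := fun k => ⌊ε * k⌋₊ with hv
  have hvle : ∀ k, (v k : ℝ) ≤ ε * k := fun k => Nat.floor_le (by positivity)
  have hvk : ∀ k, v k ≤ k := by
    intro k
    have h3 : (v k : ℝ) ≤ k := by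
      have := hvle k
      have : (0:ℝ) ≤ k := Nat.cast_nonneg k
      nlinarith
    exact_mod_cast h3
  -- separated subsets
  have hsub : ∀ k : ℕ, 1 ≤ k → ∃ U ⊆ Finset.Ico (k ^ 2) (k ^ 2 + v k), v k ≤ 6 * U.card ∧
      ∀ i ∈ U, ∀ i' ∈ U, i ≠ i' → ∀ m : ℤ,
      1 / ((N * (k + 1) ^ 2 : ℕ) : ℝ) ≤ |lam L i' / c - lam L i / c - m| := by
    intro k hk
    have hH : 0 < N * (k + 1) ^ 2 := by positivity
    have he : Even (N * (k + 1) ^ 2) := by
      rw [hN, mul_assoc]; exact even_two_mul _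
    apply sep_subset (fun i => lam L i / c) (N * (k + 1) ^ 2) hH he
    intro d hd i i' hi hii hi' hcell
    refine hone_lam c L hc0 (N * (k + 1) ^ 2) (k ^ 2) (v k) (by positivity) ?_ ?_ ?_ d hd i i' hi hii hi' hcell
    · have h3 : ((k ^ 2 : ℕ) : ℝ) + (v k : ℝ) ≤ ((k:ℝ) + 1) ^ 2 := by
        have h4 : (v k : ℝ) ≤ k := by exact_mod_cast hvk k
        push_cast
        nlinarith [(Nat.cast_nonneg k : (0:ℝ) ≤ k)]
      push_cast at h3 ⊢
      exact mul_le_mul hNc h3 (by positivity) hN0.le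
    · have : 1 ≤ (k + 1) ^ 2 := Nat.one_le_pow _ _ (by omega)
      nlinarith
    · have h3 := hvle k
      have h4 : (v k : ℝ) ^ 2 ≤ (ε * k) ^ 2 := pow_le_pow_left₀ (Nat.cast_nonneg _) h3 2
      push_cast
      nlinarith [sq_nonneg (k:ℝ)]
  choose! U0 hU0 hU0c hU0s using hsub
  -- constants
  set Q := r * c / (4 * N) with hQ
  have hQ0 : 0 < Q := by positivity
  obtain ⟨k0, hk0, hev⟩ := ev_conditions c L ε (max (-Real.log Q) 2) hc0 hε0
  set U : ℕ → Finset ℕ := fun k => if k0 ≤ k then U0 k else ∅ with hUdef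
  have hUmem : ∀ k, ∀ i ∈ U k, k0 ≤ k ∧ i ∈ U0 k := by
    intro k i hi
    simp only [hUdef] at hi
    split_ifs at hi with h
    · exact ⟨h, hi⟩
    · simp at hi
  have hUge : ∀ k, k0 ≤ k → U k = U0 k := fun k hk => by simp only [hUdef]; rw [if_pos hk]
  have hUlt : ∀ k, k < k0 → U k = ∅ := fun k hk => by simp only [hUdef]; rw [if_neg (by omega)]
  have hUcard : ∀ k, (U k).card ≤ k := by
    intro k
    rcases Nat.lt_or_ge k k0 with h | h
    · rw [hUlt k h]; simp
    · rw [hUge k h]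
      have := Finset.card_le_card (hU0 k (hk0.trans h))
      rw [Nat.card_Ico] at this
      have := hvk k
      omega
  set q : ℕ → ℝ := fun k => Q / ((k:ℝ) + 1) ^ 2 with hq
  have hq0 : ∀ k, 0 < q k := fun k => by simp only [hq]; positivity
  have hqle : ∀ k, q k ≤ 1 / 2 := by
    intro k
    have h3 : Q ≤ 1 / 8 := by
      rw [hQ, div_le_iff₀ (by positivity)]
      nlinarith
    have h4 : q k ≤ Q := by
      simp only [hq]
      apply div_le_self hQ0.le
      nlinarith [(Nat.cast_nonneg k : (0:ℝ) ≤ k)]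
    linarith
  have hlogq : ∀ k, Real.log (q k) = Real.log Q - 2 * Real.log ((k:ℝ) + 1) := by
    intro k
    simp only [hq]
    rw [Real.log_div hQ0.ne' (by positivity), Real.log_pow]
    push_cast; ring
  have hlogρ := log_rho x1 hx1
  have hρpos := rho_pos x1 hx1
  have hne_k0 : ∀ k, (U k).Nonempty → k0 ≤ k := by
    rintro k ⟨i, hi⟩
    exact (hUmem k i hi).1
  let S : Sys :=
    { ρ := rho x1
      r := r
      U := U
      q := q
      hρ := hρpos
      hρ2 := rho_half x1 hx1 h1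
      hsum := Real.summable_pow_div_factorial x1
      hr0 := hr0
      hr1 := hr1
      hU := by
        intro k i hi
        obtain ⟨hk, hi0⟩ := hUmem k i hi
        have h3 := Finset.mem_Ico.mp (hU0 k (hk0.trans hk) hi0)
        have h4 := hvk k
        have hk1 : 1 ≤ k := hk0.trans hk
        refine ⟨h3.1, ?_, ?_⟩
        · nlinarith [h3.2]
        · nlinarith [h3.1]
      hq0 := hq0
      hq := hqle
      hsep := by
        intro k i hi i' hi' hne l l' E hE hl hl'
        obtain ⟨hk, hi0⟩ := hUmem k i hi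
        obtain ⟨_, hi0'⟩ := hUmem k i' hi'
        have h3 := hU0s k (hk0.trans hk) i hi0 i' hi0' hne ((l:ℤ) - l')
        have h4 := abs_sub_ge_log _ _ _ (mul_pos hr0 hE) hl hl'
        refine le_trans ?_ h4
        rw [Real.log_mul (hρpos i).ne' (pow_pos hr0 _).ne',
          Real.log_mul (hρpos i').ne' (pow_pos hr0 _).ne', Real.log_pow, Real.log_pow, hlogρ, hlogρ,
          hlogr]
        have h5 : -lam (-Real.log x1) i + (l:ℝ) * -c - (-lam (-Real.log x1) i' + (l':ℝ) * -c) =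
            c * (lam L i' / c - lam L i / c - (((l:ℤ) - l' : ℤ) : ℝ)) := by
          rw [← hL]
          push_cast
          field_simp
          ring
        rw [h5, abs_mul, abs_of_pos hc0]
        have h6 : 4 * E * q k = r * E * (c * (1 / ((N * (k + 1) ^ 2 : ℕ) : ℝ))) := by
          simp only [hq, hQ]
          push_cast
          field_simp
        rw [h6]
        apply mul_le_mul_of_nonneg_left _ (by positivity)
        exact mul_le_mul_of_nonneg_left h3 hc0.le
      hW := by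
        intro k hk
        have hk' := hne_k0 k hk
        obtain ⟨a1, a2, a3, a4, a5⟩ := hev k hk'
        rw [← Real.log_le_log_iff (mul_pos (hρpos _) (by positivity))
          (mul_pos (hρpos _) (pow_pos (hq0 k) _)), Real.log_mul (hρpos _).ne' (by positivity),
          Real.log_mul (hρpos _).ne' (pow_pos (hq0 k) _).ne', Real.log_pow, Real.log_pow, hlogρ, hlogρ,
          hlogq, ← hL]
        have b1 : -Real.log Q ≤ Real.log ((k:ℝ) + 1) := (le_max_left _ _).trans a1
        have b2 : 2 ≤ Real.log ((k:ℝ) + 1) := (le_max_right _ _).trans a1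
        have b3 : ((U k).card : ℝ) ≤ k := by exact_mod_cast hUcard k
        have b4 := lam_diff_ge L ((k + 1) ^ 2) (2 * k + 3) (Nat.one_le_pow _ _ (by omega))
        rw [show (k + 1) ^ 2 + (2 * k + 3) = (k + 2) ^ 2 by ring] at b4
        push_cast at b4 ⊢
        rw [Real.log_pow] at b4
        push_cast at b4
        have b5 : Real.log 2 ≤ 1 := by
          have := Real.log_two_lt_d9
          linarith
        have b6 : (0:ℝ) ≤ k := Nat.cast_nonneg k
        have b7 : ((U k).card : ℝ) * (-Real.log Q + 2 * Real.log ((k:ℝ) + 1)) ≤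
            k * (3 * Real.log ((k:ℝ) + 1)) := by
          have hpos : 0 ≤ -Real.log Q + 2 * Real.log ((k:ℝ) + 1) := by
            have h3 : Real.log (q k) ≤ 0 := Real.log_nonpos (hq0 k).le (by have := hqle k; linarith)
            rw [hlogq] at h3
            linarith
          exact mul_le_mul b3 (by linarith) hpos b6
        have b8 : (2 * (k:ℝ) + 3) * Real.log 2 ≤ 2 * (k:ℝ) + 3 := by nlinarith
        have b9 : (2 * (k:ℝ) + 3) * (2 * Real.log ((k:ℝ) + 1)) ≤
            (2 * (k:ℝ) + 3) * (2 * Real.log ((k:ℝ) + 1) + L) := by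
          apply mul_le_mul_of_nonneg_left _ (by positivity)
          linarith
        nlinarith
      hL := by
        intro k hk
        have hk' := hne_k0 k hk
        obtain ⟨a1, a2, a3, a4, a5⟩ := hev k hk'
        rw [← Real.log_le_log_iff (mul_pos (hρpos _) (pow_pos hr0 _)) (hρpos _),
          Real.log_mul (hρpos _).ne' (pow_pos hr0 _).ne', Real.log_pow, hlogρ, hlogρ, hlogr, ← hL]
        have b4 := lam_diff_le L (k ^ 2) (4 * k + 4)
        rw [show k ^ 2 + (4 * k + 4) = (k + 2) ^ 2 by ring] at b4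
        push_cast at b4 ⊢
        rw [show (k:ℝ) ^ 2 + (4 * k + 4) = (k + 2) ^ 2 by ring, Real.log_pow] at b4
        push_cast at b4
        have b5 : (1:ℝ) ≤ k := by exact_mod_cast hk0.trans hk'
        have b6 : 0 ≤ Real.log ((k:ℝ) + 2) := Real.log_nonneg (by linarith)
        have b7 : (4 * (k:ℝ) + 4) * (2 * Real.log ((k:ℝ) + 2) + L) ≤
            (8 * k) * (2 * Real.log ((k:ℝ) + 2) + L) := by
          apply mul_le_mul_of_nonneg_right _ (by positivity)
          linarith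
        have b8 : (8 * (k:ℝ)) * (2 * Real.log ((k:ℝ) + 2) + L) ≤ k * (c * k) := by
          nlinarith
        nlinarith }
  refine ⟨S, rfl, rfl, ?_⟩
  have hα : 0 < ε / 6720 := by positivity
  have hC : 0 < (rho x1 ((k0 + 2) ^ 2)) ^ (-(ε / 6720)) := Real.rpow_pos_of_pos (hρpos _) _
  apply S.dim_pos _ _ hC hα
  -- entropy
  have hbase : ∀ k, k ≤ k0 → 1 ≤ (rho x1 ((k0 + 2) ^ 2)) ^ (-(ε / 6720)) * (rho x1 ((k + 2) ^ 2)) ^ (ε / 6720) := by
    intro k hk
    have h3 : rho x1 ((k0 + 2) ^ 2) ≤ rho x1 ((k + 2) ^ 2) :=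
      S.ρ_anti (Nat.one_le_pow _ _ (by omega)) (Nat.pow_le_pow_left (by omega) 2)
    have h4 := Real.rpow_le_rpow (hρpos _).le h3 hα.le
    calc (1:ℝ) = (rho x1 ((k0 + 2) ^ 2)) ^ (-(ε / 6720)) * (rho x1 ((k0 + 2) ^ 2)) ^ (ε / 6720) := by
          rw [← Real.rpow_add (hρpos _), neg_add_cancel, Real.rpow_zero]
      _ ≤ _ := mul_le_mul_of_nonneg_left h4 hC.le
  have hB0 : ∀ k, k ≤ k0 → S.B k = 0 := by
    intro k hk
    unfold Sys.B
    apply Finset.sum_eq_zero
    intro j hj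
    rw [Finset.mem_range] at hj
    unfold Sys.b
    change Nat.log 2 (U j).card.factorial = 0
    rw [hUlt j (by omega)]
    simp
  intro k
  change (1 / 2 : ℝ) ^ (S.B k) ≤ _ * (rho x1 ((k + 2) ^ 2)) ^ (ε / 6720)
  induction k with
  | zero =>
    rw [hB0 0 (by omega), pow_zero]
    exact hbase 0 (by omega)
  | succ k ih =>
    rcases Nat.lt_or_ge k k0 with h | h
    · rw [hB0 (k + 1) h, pow_zero]
      exact hbase (k + 1) h
    · rw [S.B_succ, pow_add]
      obtain ⟨a1, a2, a3, a4, a5⟩ := hev k h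
      have h3 := entropy_step L ε hL0 hε0 hε1 k (U k).card (v k)
        (Nat.lt_floor_add_one _) (by rw [hUge k h]; exact hU0c k (hk0.trans h)) a3 a4 a5
      have h4 : (1 / 2 : ℝ) ^ (S.b k) ≤ (rho x1 ((k + 3) ^ 2) / rho x1 ((k + 2) ^ 2)) ^ (ε / 6720) := by
        have hpos : 0 < rho x1 ((k + 3) ^ 2) / rho x1 ((k + 2) ^ 2) := div_pos (hρpos _) (hρpos _)
        rw [← Real.log_le_log_iff (by positivity) (Real.rpow_pos_of_pos hpos _), Real.log_pow,
          Real.log_rpow hpos, Real.log_div (hρpos _).ne' (hρpos _).ne', hlogρ, hlogρ, ← hL,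
          one_div, Real.log_inv]
        change (Nat.log 2 (U k).card.factorial : ℝ) * -Real.log 2 ≤ _
        linarith
      have h5 : (rho x1 ((k + 1 + 2) ^ 2)) ^ (ε / 6720) = (rho x1 ((k + 2) ^ 2)) ^ (ε / 6720) *
          (rho x1 ((k + 3) ^ 2) / rho x1 ((k + 2) ^ 2)) ^ (ε / 6720) := by
        rw [← Real.mul_rpow (hρpos _).le (div_pos (hρpos _) (hρpos _)).le,
          mul_div_cancel₀ _ (hρpos _).ne']
      rw [h5, ← mul_assoc]
      apply mul_le_mul ih h4 (by positivity)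
      exact mul_nonneg hC.le (Real.rpow_nonneg (hρpos _).le _)

theorem two_point (x1 x2 : ℝ) (h2 : 0 < x2) (h12 : x2 < x1) (h1 : x1 ≤ 1) :
    0 < dimH {x : ℝ | ∃ l : ℕ → ℕ, (∀ i, l i ≤ i) ∧
      HasSum (fun i => x1 ^ (i - l i) * x2 ^ (l i) / (i.factorial : ℝ)) x} := by
  obtain ⟨S, hρ, hr, hdim⟩ := exists_sys x1 x2 h2 h12 h1
  have hx1 : 0 < x1 := h2.trans h12
  refine hdim.trans_le (dimH_mono ?_)
  rintro _ ⟨d, rfl⟩
  refine ⟨S.lv d, S.lv_le d, ?_⟩
  have h3 : HasSum (S.F d) (S.φ d) := (S.F_summable d).hasSum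
  convert h3 using 1
  funext i
  unfold Sys.F
  rw [hρ, hr]
  unfold rho
  rw [div_pow]
  have h4 : x1 ^ i = x1 ^ (i - S.lv d i) * x1 ^ (S.lv d i) := by
    rw [← pow_add, Nat.sub_add_cancel (S.lv_le d i)]
  rw [h4]
  field_simp

end Pool.Agent.X119.ExpDim
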