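import Pool.Agent.X119.Steps

set_option autoImplicit false

/-!
# The number of the primes in the intervals with a nice endpoint
-/

namespace Pool.Agent.X119.Cnt

open Finset Filter
open Pool.Agent.X119.PWin

/-- the number of the primes in the intervals with the endpoint `p` -/
lemma count_bounds {C : ℝ} (hC : 1 ≤ C) {X Y p : ℕ} (hX : 1 ≤ Real.log X) (h : Nice C X Y p) {H : ℕ}
    (hH : 2 * C * Real.log X ≤ H) (hHY : H ≤ Y) (S : Finset ℕ)
    (hS : S = (Ioc p (p + H)).filter Nat.Prime ∨ S = (Ico (p - H) p).filter Nat.Prime) :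
    (H : ℝ) / (2 * C * Real.log X) ≤ S.card ∧ (S.card : ℝ) ≤ C * H / Real.log X := by
  have hL0 : 0 < Real.log X := by linarith
  have hC0 : 0 < C := by linarith
  constructor
  · obtain ⟨k, hk⟩ : ∃ k : ℕ, k = ⌊(H : ℝ) / (C * Real.log X)⌋₊ := ⟨_, rfl⟩
    have h2 : (2 : ℝ) ≤ (H : ℝ) / (C * Real.log X) := by
      rw [le_div_iff₀ (by positivity)]
      linarith
    have hk1 : (k : ℝ) ≤ (H : ℝ) / (C * Real.log X) := by
      rw [hk]; exact Nat.floor_le (by positivity)
    have hk2 : (H : ℝ) / (C * Real.log X) < k + 1 := by rw [hk]; exact Nat.lt_floor_add_one _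
    have hk3 : 1 ≤ k := by
      have : (0 : ℝ) < k := by linarith
      exact_mod_cast this
    have h3 : C * k * Real.log X ≤ H := by
      rw [le_div_iff₀ (by positivity)] at hk1
      linarith
    have h4 := (h k H hk3 hHY).1 h3
    have h5 : (k : ℝ) ≤ S.card := by
      rcases hS with rfl | rfl
      · exact_mod_cast h4.1
      · exact_mod_cast h4.2
    refine le_trans ?_ h5
    have h6 : (H : ℝ) / (2 * C * Real.log X) = (H : ℝ) / (C * Real.log X) / 2 := by
      field_simp
    rw [h6]
    linarith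
  · obtain ⟨k, hk⟩ : ∃ k : ℕ, k = ⌊C * H / Real.log X⌋₊ + 1 := ⟨_, rfl⟩
    have hk2 : C * H / Real.log X < k := by
      rw [hk]
      push_cast
      exact Nat.lt_floor_add_one _
    have h3 : C * H < k * Real.log X := by
      rw [div_lt_iff₀ hL0] at hk2
      exact hk2
    have h4 := (h k H (by omega) hHY).2 h3
    have h5 : S.card < k := by
      rcases hS with rfl | rfl
      · exact h4.1
      · exact h4.2
    have h6 : S.card ≤ ⌊C * H / Real.log X⌋₊ := by omega
    have h7 : (S.card : ℝ) ≤ ⌊C * H / Real.log X⌋₊ := by exact_mod_cast h6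
    exact h7.trans (Nat.floor_le (by positivity))

/-- `π(p + h) - π(p)` -/
lemma pi_sub (p H : ℕ) : (Nat.primeCounting (p + H) : ℝ) - Nat.primeCounting p =
    ((Ioc p (p + H)).filter Nat.Prime).card := by
  have h1 : Nat.primeCounting (p + H) = Nat.primeCounting p + ((Ioc p (p + H)).filter Nat.Prime).card := by
    unfold Nat.primeCounting Nat.primeCounting'
    rw [show p + H + 1 = (p + 1) + H by ring, Pool.Agent.X119.Steps.count_add, Pool.Agent.X119.Steps.Ioc_eq]
  rw [h1]
  push_cast
  ring

end Pool.Agent.X119.Cnt
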