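import Pool.Agent.X119.Steps

set_option autoImplicit false

/-!
# Differences of square roots
-/

namespace Pool.Agent.X119.Sq

/-- The difference of two square roots. -/
lemma sqrt_sub_bounds {a b D : ℝ} (ha : 0 < a) (hab : b ≤ 9 * a) (h0 : a ≤ b) (hD : b - a = D) :
    D / (4 * √a) ≤ √b - √a ∧ √b - √a ≤ D / √a := by
  have hb : 0 < b := by linarith
  have hsa : 0 < √a := Real.sqrt_pos.2 ha
  have hsb : √a ≤ √b := Real.sqrt_le_sqrt h0
  have hsb3 : √b ≤ 3 * √a := by
    rw [show 3 * √a = √(9 * a) by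
      rw [Real.sqrt_mul (by norm_num : (0 : ℝ) ≤ 9), show (9 : ℝ) = 3 ^ 2 by norm_num,
        Real.sqrt_sq (by norm_num)]]
    exact Real.sqrt_le_sqrt hab
  have e : D = (√b - √a) * (√b + √a) := by
    have h1 := Real.mul_self_sqrt hb.le
    have h2 := Real.mul_self_sqrt ha.le
    nlinarith
  constructor
  · rw [div_le_iff₀ (by positivity), e]
    apply mul_le_mul_of_nonneg_left _ (by linarith)
    linarith
  · rw [le_div_iff₀ hsa, e]
    apply mul_le_mul_of_nonneg_left _ (by linarith)
    linarith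

/-- The difference of two square roots, from above. -/
lemma sqrt_sub_bounds' {a b D : ℝ} (ha : 0 ≤ a) (hb : 0 < b) (h0 : a ≤ b) (hD : b - a = D) :
    D / (2 * √b) ≤ √b - √a ∧ √b - √a ≤ D / √b := by
  have hsb : 0 < √b := Real.sqrt_pos.2 hb
  have hsa : 0 ≤ √a := Real.sqrt_nonneg a
  have hsab : √a ≤ √b := Real.sqrt_le_sqrt h0
  have e : D = (√b - √a) * (√b + √a) := by
    have h1 := Real.mul_self_sqrt hb.le
    have h2 := Real.mul_self_sqrt ha
    nlinarith
  constructor
  · rw [div_le_iff₀ (by positivity), e]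
    apply mul_le_mul_of_nonneg_left _ (by linarith)
    linarith
  · rw [le_div_iff₀ hsb, e]
    apply mul_le_mul_of_nonneg_left _ (by linarith)
    linarith

end Pool.Agent.X119.Sq
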