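import Mathlib

set_option autoImplicit false

/-! Bernstein coefficients of a rational polynomial positive on a segment. -/

namespace Pool.Agent.X119.Bern

open Polynomial Finset

lemma choose_succ_real (n j : ℕ) :
    (n.choose (j + 1) : ℝ) * (j + 1) = n.choose j * ((n : ℝ) - j) := by
  rcases le_or_gt j n with h | h
  · have := Nat.choose_succ_right_eq n j
    rw [← Nat.cast_sub h]
    exact_mod_cast this
  · rw [Nat.choose_eq_zero_of_lt h, Nat.choose_eq_zero_of_lt (by omega)]; simp

/-- ratio of binomials versus a power -/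
lemma ratio_est (N d k : ℕ) (hd : d < N) (hk : k ≤ N) (j : ℕ) (hj : j ≤ d) :
    0 ≤ (k.choose j : ℝ) / N.choose j ∧
    |(k.choose j : ℝ) / N.choose j - ((k : ℝ) / N) ^ j| ≤ j * ((d : ℝ) / (N - d)) := by
  have hN0 : (0:ℝ) < N := by exact_mod_cast (by omega : 0 < N)
  have hNd : (0:ℝ) < (N:ℝ) - d := by
    have : (d:ℝ) < N := by exact_mod_cast hd
    linarith
  have hkN : (k:ℝ) / N ≤ 1 := by rw [div_le_one hN0]; exact_mod_cast hk
  have hkN0 : 0 ≤ (k:ℝ) / N := by positivity
  induction j with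
  | zero => simp
  | succ j ih =>
    obtain ⟨ih0, ih1⟩ := ih (by omega)
    refine ⟨by positivity, ?_⟩
    have hjd : (j:ℝ) + 1 ≤ d := by exact_mod_cast hj
    have hNj : (0:ℝ) < (N:ℝ) - j := by linarith
    have hc0 : (0:ℝ) < N.choose j := by
      exact_mod_cast Nat.choose_pos (by omega)
    have hc1 : (0:ℝ) < N.choose (j + 1) := by
      exact_mod_cast Nat.choose_pos (by omega)
    have e1 := choose_succ_real N j
    have e2 := choose_succ_real k j
    have hj1 : (0:ℝ) < (j:ℝ) + 1 := by positivity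
    have hr : (k.choose (j + 1) : ℝ) / N.choose (j + 1) =
        (k.choose j : ℝ) / N.choose j * (((k:ℝ) - j) / (N - j)) := by
      have e3 : (N.choose (j + 1) : ℝ) = N.choose j * ((N:ℝ) - j) / (j + 1) := by
        rw [← e1]; field_simp
      have e4 : (k.choose (j + 1) : ℝ) = k.choose j * ((k:ℝ) - j) / (j + 1) := by
        rw [← e2]; field_simp
      rw [e3, e4]; field_simp
    have hstep : (d:ℝ) / (N - d) ≥ 0 := by positivity
    rw [hr, pow_succ]
    set r : ℝ := (k.choose j : ℝ) / N.choose j with hrdef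
    set p : ℝ := ((k:ℝ) / N) ^ j with hp
    have hp0 : 0 ≤ p := by positivity
    have hp1 : p ≤ 1 := pow_le_one₀ hkN0 hkN
    rcases le_or_gt j k with hjk | hjk
    · have hjk' : (j:ℝ) ≤ k := by exact_mod_cast hjk
      have hkN' : (k:ℝ) ≤ N := by exact_mod_cast hk
      set ρ : ℝ := ((k:ℝ) - j) / (N - j) with hρ
      have hρ0 : 0 ≤ ρ := by rw [hρ]; apply div_nonneg <;> linarith
      have hρ1 : ρ ≤ 1 := by rw [hρ, div_le_one hNj]; linarith
      have hρ2 : |ρ - (k:ℝ) / N| ≤ (d:ℝ) / (N - d) := by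
        have e : ρ - (k:ℝ) / N = -(j * (N - k) / (N * (N - j))) := by
          rw [hρ]; field_simp; ring
        have hj0 : (0:ℝ) ≤ j := by positivity
        rw [e, abs_neg, abs_of_nonneg (by apply div_nonneg; apply mul_nonneg hj0; linarith; positivity),
          div_le_div_iff₀ (by positivity) hNd]
        have a1 : (j:ℝ) * (N - k) ≤ j * N := by nlinarith
        have a2 : (j:ℝ) ≤ d := by linarith
        have a3 : (N:ℝ) - d ≤ N - j := by linarith
        calc (j:ℝ) * (N - k) * (N - d) ≤ j * N * (N - d) := by nlinarith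
          _ ≤ d * N * (N - d) := by nlinarith [mul_pos hN0 hNd]
          _ ≤ d * N * (N - j) := by
              apply mul_le_mul_of_nonneg_left a3; positivity
          _ = d * (N * (N - j)) := by ring
      have e : r * ρ - p * ((k:ℝ) / N) = (r - p) * ρ + p * (ρ - (k:ℝ) / N) := by ring
      rw [e]
      calc |(r - p) * ρ + p * (ρ - (k:ℝ) / N)| ≤ |(r - p) * ρ| + |p * (ρ - (k:ℝ) / N)| :=
            abs_add_le _ _
        _ = |r - p| * ρ + p * |ρ - (k:ℝ) / N| := by
            rw [abs_mul, abs_mul, abs_of_nonneg hρ0, abs_of_nonneg hp0]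
        _ ≤ |r - p| * 1 + 1 * ((d:ℝ) / (N - d)) := by
            apply add_le_add
            · exact mul_le_mul_of_nonneg_left hρ1 (abs_nonneg _)
            · exact mul_le_mul hp1 hρ2 (abs_nonneg _) (by norm_num)
        _ ≤ j * ((d : ℝ) / (N - d)) + (d:ℝ) / (N - d) := by linarith
        _ = ((j + 1 : ℕ) : ℝ) * ((d : ℝ) / (N - d)) := by push_cast; ring
    · have hr0 : r = 0 := by rw [hrdef, Nat.choose_eq_zero_of_lt hjk]; simp
      rw [hr0] at ih1 ⊢
      rw [zero_sub, abs_neg, abs_of_nonneg hp0] at ih1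
      rw [zero_mul, zero_sub, abs_neg, abs_of_nonneg (by positivity)]
      push_cast
      calc p * ((k:ℝ) / N) ≤ p * 1 := mul_le_mul_of_nonneg_left hkN hp0
        _ ≤ ((j:ℝ) + 1) * ((d : ℝ) / (N - d)) := by nlinarith

/-- Bernstein coefficients become nonnegative. -/
lemma bern_nonneg (F : ℚ[X]) (hF : ∀ t ∈ Set.Icc (0:ℝ) 1, 0 < aeval t F) :
    ∃ N : ℕ, F.natDegree < N ∧ ∀ k ≤ N,
      0 ≤ ∑ j ∈ range (F.natDegree + 1), F.coeff j * ((k.choose j : ℚ) / N.choose j) := by
  set d := F.natDegree with hd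
  obtain ⟨t0, ht0, hmin⟩ := (isCompact_Icc (a := (0:ℝ)) (b := 1)).exists_isMinOn
    ⟨0, by simp⟩ (f := fun t : ℝ => aeval t F) (by
      have : Continuous fun t : ℝ => aeval t F := Polynomial.continuous_aeval F
      exact this.continuousOn)
  set μ : ℝ := aeval t0 F with hμ
  have hμ0 : 0 < μ := hF t0 ht0
  set A : ℝ := ∑ j ∈ range (d + 1), |(F.coeff j : ℝ)| with hA
  have hA0 : 0 ≤ A := sum_nonneg fun _ _ => abs_nonneg _
  obtain ⟨N1, hN1⟩ := exists_nat_gt (d + A * d * d / μ : ℝ)
  have hAd : 0 ≤ A * d * d / μ := by positivity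
  have hdN : d < N1 := by
    have : (d:ℝ) < N1 := by linarith
    exact_mod_cast this
  refine ⟨N1, hdN, fun k hk => ?_⟩
  have hNd : (0:ℝ) < (N1:ℝ) - d := by
    have : (d:ℝ) < N1 := by exact_mod_cast hdN
    linarith
  have hN0 : (0:ℝ) < N1 := by
    have : (0:ℝ) ≤ d := by positivity
    linarith
  have hval : aeval ((k:ℝ) / N1) F = ∑ j ∈ range (d + 1), (F.coeff j : ℝ) * ((k:ℝ) / N1) ^ j := by
    rw [aeval_eq_sum_range]
    refine sum_congr rfl fun j _ => ?_
    rw [Rat.smul_def]
  have hge : μ ≤ aeval ((k:ℝ) / N1) F := by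
    apply hmin
    constructor
    · positivity
    · rw [div_le_one hN0]; exact_mod_cast hk
  have hdiff : |∑ j ∈ range (d + 1), (F.coeff j : ℝ) * ((k.choose j : ℝ) / N1.choose j) -
      ∑ j ∈ range (d + 1), (F.coeff j : ℝ) * ((k:ℝ) / N1) ^ j| ≤ A * (d * ((d : ℝ) / (N1 - d))) := by
    rw [← sum_sub_distrib, hA, sum_mul]
    refine (abs_sum_le_sum_abs _ _).trans (sum_le_sum fun j hj => ?_)
    rw [← mul_sub, abs_mul]
    apply mul_le_mul_of_nonneg_left _ (abs_nonneg _)
    have hjd : j ≤ d := by have := mem_range.mp hj; omega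
    refine ((ratio_est N1 d k hdN hk j hjd).2).trans ?_
    apply mul_le_mul_of_nonneg_right _ (by positivity)
    exact_mod_cast hjd
  have hsmall : A * (d * ((d : ℝ) / (N1 - d))) < μ := by
    have h1 : A * d * d / μ < N1 - d := by linarith
    rw [div_lt_iff₀ hμ0] at h1
    have : A * (d * ((d : ℝ) / (N1 - d))) = A * d * d / (N1 - d) := by ring
    rw [this, div_lt_iff₀ hNd]
    linarith
  have hfin : (0:ℝ) ≤ ∑ j ∈ range (d + 1), (F.coeff j : ℝ) * ((k.choose j : ℝ) / N1.choose j) := by
    have := neg_abs_le (∑ j ∈ range (d + 1), (F.coeff j : ℝ) * ((k.choose j : ℝ) / N1.choose j) -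
      ∑ j ∈ range (d + 1), (F.coeff j : ℝ) * ((k:ℝ) / N1) ^ j)
    rw [hval] at hge
    linarith
  have e : ((∑ j ∈ range (d + 1), F.coeff j * ((k.choose j : ℚ) / N1.choose j) : ℚ) : ℝ) =
      ∑ j ∈ range (d + 1), (F.coeff j : ℝ) * ((k.choose j : ℝ) / N1.choose j) := by
    push_cast; rfl
  rw [← e] at hfin
  exact Rat.cast_nonneg.mp hfin

/-- expansion in the Bernstein basis -/
lemma bern_expand {R : Type*} [CommRing R] [Algebra ℚ R] (F : ℚ[X]) (N : ℕ) (hN : F.natDegree < N)
    (u w : R) (huw : u + w = 1) :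
    aeval u F = ∑ k ∈ range (N + 1), ((N.choose k : ℚ) *
      ∑ j ∈ range (F.natDegree + 1), F.coeff j * ((k.choose j : ℚ) / N.choose j)) •
        (u ^ k * w ^ (N - k)) := by
  have hpow : ∀ j ≤ N, u ^ j = ∑ k ∈ range (N + 1),
      ((N.choose k : ℚ) * ((k.choose j : ℚ) / N.choose j)) • (u ^ k * w ^ (N - k)) := by
    intro j hj
    have h1 : u ^ j = u ^ j * (u + w) ^ (N - j) := by rw [huw, one_pow, mul_one]
    rw [h1, add_pow, mul_sum]
    have h2 : range (N + 1) = range j ∪ (Finset.Ico j (N + 1)) := by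
      ext a; simp only [mem_range, mem_union, Finset.mem_Ico]; omega
    rw [h2, sum_union]
    · have h3 : ∑ k ∈ range j, ((N.choose k : ℚ) * ((k.choose j : ℚ) / N.choose j)) •
          (u ^ k * w ^ (N - k)) = 0 := by
        apply sum_eq_zero
        intro k hk
        rw [Nat.choose_eq_zero_of_lt (mem_range.mp hk)]
        simp
      rw [h3, zero_add, sum_Ico_eq_sum_range]
      have h4 : N + 1 - j = N - j + 1 := by omega
      rw [h4]
      refine sum_congr rfl fun i hi => ?_
      have hi' : i ≤ N - j := by have := mem_range.mp hi; omega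
      have e1 : N - j - i = N - (j + i) := by omega
      have hc : N.choose (j + i) * (j + i).choose j = N.choose j * (N - j).choose (j + i - j) :=
        Nat.choose_mul (by omega)
      rw [Nat.add_sub_cancel_left] at hc
      have hcj : (N.choose j : ℚ) ≠ 0 := by
        have := Nat.choose_pos hj
        positivity
      have e2 : ((N.choose (j + i) : ℚ) * (((j + i).choose j : ℚ) / N.choose j)) =
          ((N - j).choose i : ℚ) := by
        rw [← mul_div_assoc, div_eq_iff hcj]
        have : ((N.choose (j + i) * (j + i).choose j : ℕ) : ℚ) =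
          ((N.choose j * (N - j).choose i : ℕ) : ℚ) := by rw [hc]
        push_cast at this
        linarith
      rw [e2, e1, pow_add, Algebra.smul_def]
      have e3 : (algebraMap ℚ R) ((N - j).choose i : ℚ) = (((N - j).choose i : ℕ) : R) := by
        simp
      rw [e3]; ring
    · rw [Finset.disjoint_left]
      intro a ha hb
      rw [mem_range] at ha
      rw [Finset.mem_Ico] at hb
      omega
  rw [aeval_eq_sum_range]
  have : ∀ j ∈ range (F.natDegree + 1), F.coeff j • u ^ j = ∑ k ∈ range (N + 1),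
      (F.coeff j * ((N.choose k : ℚ) * ((k.choose j : ℚ) / N.choose j))) • (u ^ k * w ^ (N - k)) := by
    intro j hj
    rw [hpow j (by have := mem_range.mp hj; omega), smul_sum]
    refine sum_congr rfl fun k _ => ?_
    rw [smul_smul]
  rw [sum_congr rfl this, sum_comm]
  refine sum_congr rfl fun k _ => ?_
  rw [← sum_smul, mul_sum]
  congr 1
  refine sum_congr rfl fun j _ => ?_
  ring

/-- A rational polynomial positive on `[r,s]` lies in every semiring of polynomials that contains
the nonnegative rationals, `x - r` and `s - x`. -/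
theorem mem_of_pos (M : Subsemiring ℚ[X]) (hM : ∀ a : ℚ, 0 ≤ a → C a ∈ M) (r s : ℚ) (hrs : r < s)
    (h1 : X - C r ∈ M) (h2 : C s - X ∈ M) (f : ℚ[X])
    (hf : ∀ t : ℝ, (r:ℝ) ≤ t → t ≤ s → 0 < aeval t f) : f ∈ M := by
  set F : ℚ[X] := f.comp (C (s - r) * X + C r) with hF
  have hFpos : ∀ t ∈ Set.Icc (0:ℝ) 1, 0 < aeval t F := by
    intro t ht
    rw [hF, aeval_comp]
    have hrs' : (r:ℝ) < s := by exact_mod_cast hrs
    have e : aeval t (C (s - r) * X + C r : ℚ[X]) = ((s:ℝ) - r) * t + r := by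
      simp [aeval_C]
    rw [e]
    apply hf
    · nlinarith [ht.1, ht.2]
    · nlinarith [ht.1, ht.2]
  obtain ⟨N, hN, hk⟩ := bern_nonneg F hFpos
  set U : ℚ[X] := C (1 / (s - r)) * (X - C r) with hU
  set W : ℚ[X] := C (1 / (s - r)) * (C s - X) with hW
  have hsr : s - r ≠ 0 := by
    intro h; linarith
  have hUW : U + W = 1 := by
    rw [hU, hW, ← mul_add]
    have : (X - C r + (C s - X) : ℚ[X]) = C (s - r) := by rw [C_sub]; ring
    rw [this, ← C_mul, one_div, inv_mul_cancel₀ hsr, C_1]
  have hfU : aeval U F = f := by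
    rw [hF, aeval_comp]
    have e : aeval U (C (s - r) * X + C r : ℚ[X]) = X := by
      rw [map_add, map_mul, aeval_C, aeval_C, aeval_X, hU]
      change C (s - r) * (C (1 / (s - r)) * (X - C r)) + C r = X
      rw [← mul_assoc, ← C_mul, one_div, mul_inv_cancel₀ hsr, C_1]
      ring
    rw [e, aeval_X_left_apply]
  have hUM : U ∈ M := M.mul_mem (hM _ (by
    have : 0 < s - r := by linarith
    positivity)) h1
  have hWM : W ∈ M := M.mul_mem (hM _ (by
    have : 0 < s - r := by linarith
    positivity)) h2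
  rw [← hfU, bern_expand F N hN U W hUW]
  apply M.sum_mem
  intro k hk'
  rw [smul_eq_C_mul]
  apply M.mul_mem
  · apply hM
    apply mul_nonneg (by positivity)
    exact hk k (by have := mem_range.mp hk'; omega)
  · exact M.mul_mem (M.pow_mem hUM _) (M.pow_mem hWM _)

end Pool.Agent.X119.Bern
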