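import Mathlib

set_option autoImplicit false

/-! Cumulants of bounded functions on `[0,1]`: they depend only on moments, and they add up when
mixed moments factor. -/

namespace Pool.Agent.X119.Cumul

open MeasureTheory ProbabilityTheory Filter Topology Finset

lemma log_rec (F : ℝ → ℝ) (hF : AnalyticAt ℝ F 0) (hF0 : 0 < F 0) (r : ℕ) :
    iteratedDeriv (r + 1) F 0 = ∑ i ∈ range (r + 1), (r.choose i : ℝ) *
      iteratedDeriv (i + 1) (fun t => Real.log (F t)) 0 * iteratedDeriv (r - i) F 0 := by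
  have hlog : AnalyticAt ℝ (fun t => Real.log (F t)) 0 := hF.log hF0
  have heq : deriv F =ᶠ[𝓝 0] (deriv (fun t => Real.log (F t))) * F := by
    have h1 : ∀ᶠ t in 𝓝 (0:ℝ), 0 < F t := hF.continuousAt.eventually (lt_mem_nhds hF0)
    have h2 : ∀ᶠ t in 𝓝 (0:ℝ), AnalyticAt ℝ F t := hF.eventually_analyticAt
    filter_upwards [h1, h2] with t ht1 ht2
    rw [Pi.mul_apply, deriv.log ht2.differentiableAt ht1.ne']
    field_simp
  rw [iteratedDeriv_succ', heq.iteratedDeriv_eq,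
    iteratedDeriv_mul hlog.deriv.contDiffAt hF.contDiffAt]
  refine sum_congr rfl fun i _ => ?_
  rw [iteratedDeriv_succ']

lemma log_jet (F G : ℝ → ℝ) (hF : AnalyticAt ℝ F 0) (hG : AnalyticAt ℝ G 0) (hF0 : 0 < F 0) (m : ℕ)
    (h : ∀ r ≤ m, iteratedDeriv r F 0 = iteratedDeriv r G 0) :
    ∀ r ≤ m, iteratedDeriv r (fun t => Real.log (F t)) 0 =
      iteratedDeriv r (fun t => Real.log (G t)) 0 := by
  have h0 : F 0 = G 0 := by simpa using h 0 (Nat.zero_le _)
  have hG0 : 0 < G 0 := h0 ▸ hF0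
  intro r
  induction r using Nat.strong_induction_on with
  | _ r ih =>
    intro hr
    rcases r with _ | r
    · simp [h0]
    · have eF := log_rec F hF hF0 r
      have eG := log_rec G hG hG0 r
      rw [sum_range_succ] at eF eG
      have hs : ∑ i ∈ range r, (r.choose i : ℝ) *
          iteratedDeriv (i + 1) (fun t => Real.log (F t)) 0 * iteratedDeriv (r - i) F 0 =
        ∑ i ∈ range r, (r.choose i : ℝ) *
          iteratedDeriv (i + 1) (fun t => Real.log (G t)) 0 * iteratedDeriv (r - i) G 0 := by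
        refine sum_congr rfl fun i hi => ?_
        rw [mem_range] at hi
        rw [ih (i + 1) (by omega) (by omega), h (r - i) (by omega)]
      rw [hs] at eF
      simp only [Nat.choose_self, Nat.cast_one, one_mul, Nat.sub_self, iteratedDeriv_zero] at eF eG
      rw [h (r + 1) hr, eG, h0] at eF
      have := add_left_cancel eF
      exact (mul_right_cancel₀ hG0.ne' this).symm

/-- Lebesgue measure on `[0,1]`. -/
noncomputable def nu : Measure ℝ := volume.restrict (Set.Icc (0:ℝ) 1)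

instance : IsProbabilityMeasure nu := ⟨by simp [nu]⟩

/-- The `m`-th cumulant of a function on `[0,1]`. -/
noncomputable def kap (X : ℝ → ℝ) (m : ℕ) : ℝ :=
  iteratedDeriv m (fun t : ℝ => Real.log (∫ ω in Set.Icc (0:ℝ) 1, Real.exp (t * X ω))) 0

lemma kap_eq (X : ℝ → ℝ) (m : ℕ) :
    kap X m = iteratedDeriv m (fun t : ℝ => Real.log (mgf X nu t)) 0 := rfl

/-- bounded measurable functions -/
structure Bdd (X : ℝ → ℝ) : Prop where
  cont : Continuous X
  bdd : ∃ B : ℝ, ∀ ω, |X ω| ≤ B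

lemma Bdd.mem {X : ℝ → ℝ} (hX : Bdd X) : (0:ℝ) ∈ interior (integrableExpSet X nu) := by
  obtain ⟨B, hB⟩ := hX.bdd
  have : integrableExpSet X nu = Set.univ := by
    ext t
    simp only [Set.mem_univ, iff_true]
    apply integrable_exp_mul_of_mem_Icc (a := -B) (b := B) hX.cont.aemeasurable
    exact Eventually.of_forall fun ω => ⟨by have := (abs_le.mp (hB ω)).1; linarith,
      (abs_le.mp (hB ω)).2⟩
  rw [this, interior_univ]
  trivial

lemma mgf_pos' (X : ℝ → ℝ) : 0 < mgf X nu 0 := by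
  rw [mgf_zero]; norm_num

lemma Bdd.add {X Y : ℝ → ℝ} (hX : Bdd X) (hY : Bdd Y) : Bdd (fun ω => X ω + Y ω) := by
  obtain ⟨B, hB⟩ := hX.bdd
  obtain ⟨B', hB'⟩ := hY.bdd
  refine ⟨hX.cont.add hY.cont, B + B', fun ω => ?_⟩
  exact (abs_add_le _ _).trans (add_le_add (hB ω) (hB' ω))

lemma Bdd.integrable_mul {X Y : ℝ → ℝ} (hX : Bdd X) (hY : Bdd Y) (i j : ℕ) :
    Integrable (fun ω => X ω ^ i * Y ω ^ j) nu := by
  have hc : Continuous (fun ω => X ω ^ i * Y ω ^ j) := (hX.cont.pow i).mul (hY.cont.pow j)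
  exact hc.integrableOn_Icc

/-- cumulants depend only on moments -/
theorem kap_congr {X Y : ℝ → ℝ} (hX : Bdd X) (hY : Bdd Y) (m : ℕ)
    (h : ∀ i ≤ m, ∫ ω, X ω ^ i ∂nu = ∫ ω, Y ω ^ i ∂nu) : kap X m = kap Y m := by
  rw [kap_eq, kap_eq]
  refine log_jet _ _ (analyticAt_mgf hX.mem) (analyticAt_mgf hY.mem) (mgf_pos' X) m ?_ m le_rfl
  intro r hr
  rw [iteratedDeriv_mgf_zero hX.mem, iteratedDeriv_mgf_zero hY.mem]
  exact h r hr

/-- cumulants add up when mixed moments factor -/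
theorem kap_add {X Y : ℝ → ℝ} (hX : Bdd X) (hY : Bdd Y) (m : ℕ)
    (h : ∀ i j, i + j ≤ m → ∫ ω, X ω ^ i * Y ω ^ j ∂nu =
      (∫ ω, X ω ^ i ∂nu) * ∫ ω, Y ω ^ j ∂nu) :
    kap (fun ω => X ω + Y ω) m = kap X m + kap Y m := by
  have hXY := hX.add hY
  have aX := analyticAt_mgf hX.mem
  have aY := analyticAt_mgf hY.mem
  have h1 : iteratedDeriv m (fun t : ℝ => Real.log (mgf (fun ω => X ω + Y ω) nu t)) 0 =
      iteratedDeriv m (fun t : ℝ => Real.log ((mgf X nu * mgf Y nu) t)) 0 := by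
    refine log_jet _ _ (analyticAt_mgf hXY.mem) (aX.mul aY) (mgf_pos' _) m ?_ m le_rfl
    intro r hr
    rw [iteratedDeriv_mgf_zero hXY.mem, iteratedDeriv_mul aX.contDiffAt aY.contDiffAt]
    have e1 : ∫ ω, ((fun ω => X ω + Y ω) ^ r) ω ∂nu =
        ∫ ω, ∑ i ∈ range (r + 1), X ω ^ i * Y ω ^ (r - i) * (r.choose i : ℝ) ∂nu := by
      congr 1
      ext ω
      rw [Pi.pow_apply, add_pow]
    rw [e1, integral_finsetSum _ (fun i _ => (hX.integrable_mul hY _ _).mul_const _)]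
    refine sum_congr rfl fun i hi => ?_
    rw [mem_range] at hi
    rw [integral_mul_const, h i (r - i) (by omega), iteratedDeriv_mgf_zero hX.mem,
      iteratedDeriv_mgf_zero hY.mem]
    simp only [Pi.pow_apply]
    ring
  rw [kap_eq, h1]
  have h2 : (fun t : ℝ => Real.log ((mgf X nu * mgf Y nu) t)) =ᶠ[𝓝 0]
      (fun t : ℝ => Real.log (mgf X nu t)) + (fun t : ℝ => Real.log (mgf Y nu t)) := by
    have p1 : ∀ᶠ t in 𝓝 (0:ℝ), 0 < mgf X nu t := aX.continuousAt.eventually (lt_mem_nhds (mgf_pos' X))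
    have p2 : ∀ᶠ t in 𝓝 (0:ℝ), 0 < mgf Y nu t := aY.continuousAt.eventually (lt_mem_nhds (mgf_pos' Y))
    filter_upwards [p1, p2] with t ht1 ht2
    rw [Pi.mul_apply, Pi.add_apply, Real.log_mul ht1.ne' ht2.ne']
  rw [h2.iteratedDeriv_eq, iteratedDeriv_add (aX.log (mgf_pos' X)).contDiffAt
    (aY.log (mgf_pos' Y)).contDiffAt]
  rfl

end Pool.Agent.X119.Cumul
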