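import Mathlib
import Pool.Agent.X119.Cumul

set_option autoImplicit false

/-! Integrals of products of cosines with integer frequencies over `[0,1]`. -/

namespace Pool.Agent.X119.TrigInt

open MeasureTheory Filter Topology Finset Pool.Agent.X119.Cumul
open scoped Real

/-- `e(Nω)` -/
noncomputable def e (N : ℤ) (ω : ℝ) : ℂ := Complex.exp (2 * π * Complex.I * N * ω)

lemma e_cont (N : ℤ) : Continuous (e N) := by unfold e; fun_prop

lemma e_zero (ω : ℝ) : e 0 ω = 1 := by simp [e]

lemma e_add (M N : ℤ) (ω : ℝ) : e (M + N) ω = e M ω * e N ω := by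
  unfold e
  rw [← Complex.exp_add]
  congr 1
  push_cast; ring

lemma cos_eq (a : ℕ) (ω : ℝ) :
    ((Real.cos (2 * π * a * ω) : ℝ) : ℂ) = (1/2) * (e a ω + e (-a) ω) := by
  unfold e
  rw [Complex.ofReal_cos, Complex.cos]
  push_cast
  rw [div_eq_mul_one_div, mul_comm]
  congr 1
  congr 1 <;> congr 1 <;> ring

lemma integ {f : ℝ → ℂ} (hf : Continuous f) : Integrable f nu := hf.integrableOn_Icc

lemma integR {f : ℝ → ℝ} (hf : Continuous f) : Integrable f nu := hf.integrableOn_Icc

lemma int_e (N : ℤ) : ∫ ω, e N ω ∂nu = if N = 0 then 1 else 0 := by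
  have h : ∫ ω, e N ω ∂nu = ∫ ω in (0:ℝ)..1, e N ω := by
    rw [intervalIntegral.integral_of_le zero_le_one, ← integral_Icc_eq_integral_Ioc]; rfl
  rw [h]
  unfold e
  split_ifs with h0
  · subst h0; simp
  · have hc : (2 * π * Complex.I * N : ℂ) ≠ 0 := by
      simp [Real.pi_ne_zero, h0]
    rw [integral_exp_mul_complex hc]
    have h1 : Complex.exp (2 * π * Complex.I * N * (1:ℝ)) = 1 := by
      rw [Complex.exp_eq_one_iff]
      exact ⟨N, by push_cast; ring⟩
    rw [h1]; simp

/-- sum of cosines over a finite set of frequencies -/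
noncomputable def SA (A : Finset ℕ) (ω : ℝ) : ℝ := ∑ a ∈ A, Real.cos (2 * π * a * ω)

lemma SA_cont (A : Finset ℕ) : Continuous (SA A) := by unfold SA; fun_prop

lemma SA_bdd (A : Finset ℕ) : Bdd (SA A) := by
  refine ⟨SA_cont A, A.card, fun ω => ?_⟩
  unfold SA
  refine (abs_sum_le_sum_abs _ _).trans ?_
  calc ∑ a ∈ A, |Real.cos (2 * π * a * ω)| ≤ ∑ a ∈ A, (1:ℝ) :=
        sum_le_sum fun a _ => Real.abs_cos_le_one _
    _ = A.card := by simp

lemma cos_bdd (b : ℕ) : Bdd (fun ω => Real.cos (2 * π * b * ω)) :=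
  ⟨by fun_prop, 1, fun ω => Real.abs_cos_le_one _⟩

/-- integers representable as signed sums of `i` elements of `A` -/
def Lam (A : Finset ℕ) : ℕ → Finset ℤ
  | 0 => {0}
  | (i + 1) => A.biUnion fun a => ((Lam A i).image (fun x => x + a)) ∪ ((Lam A i).image (fun x => x - a))

lemma Lam_card (A : Finset ℕ) (i : ℕ) : (Lam A i).card ≤ (2 * A.card) ^ i := by
  induction i with
  | zero => simp [Lam]
  | succ i ih =>
    rw [Lam]
    refine (card_biUnion_le_card_mul _ _ (2 * (2 * A.card) ^ i) ?_).trans ?_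
    · intro a _
      refine (card_union_le _ _).trans ?_
      have h1 := (card_image_le (s := Lam A i) (f := fun x => x + (a:ℤ))).trans ih
      have h2 := (card_image_le (s := Lam A i) (f := fun x => x - (a:ℤ))).trans ih
      omega
    · rw [pow_succ]; apply le_of_eq; ring

lemma int_pow_e (A : Finset ℕ) (i : ℕ) : ∀ N : ℤ, -N ∉ Lam A i →
    ∫ ω, (SA A ω : ℂ) ^ i * e N ω ∂nu = 0 := by
  induction i with
  | zero =>
    intro N hN
    simp only [pow_zero, one_mul]
    rw [int_e, if_neg]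
    intro h
    apply hN
    simp [Lam, h]
  | succ i ih =>
    intro N hN
    have h1 : ∀ ω, (SA A ω : ℂ) ^ (i + 1) * e N ω =
        ∑ a ∈ A, ((1/2) * ((SA A ω : ℂ) ^ i * e (N + a) ω) + (1/2) * ((SA A ω : ℂ) ^ i * e (N - a) ω)) := by
      intro ω
      have h2 : (SA A ω : ℂ) = ∑ a ∈ A, (1/2) * (e a ω + e (-a) ω) := by
        unfold SA
        rw [Complex.ofReal_sum]
        exact sum_congr rfl fun a _ => cos_eq a ω
      have h3 : (SA A ω : ℂ) ^ (i + 1) * e N ω = ((SA A ω : ℂ) ^ i * e N ω) * (SA A ω : ℂ) := by ring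
      rw [h3]
      generalize (SA A ω : ℂ) ^ i = y
      rw [h2, mul_sum]
      refine sum_congr rfl fun a _ => ?_
      rw [sub_eq_add_neg, e_add, e_add]; ring
    have hc : ∀ M : ℤ, Continuous fun ω => (SA A ω : ℂ) ^ i * e M ω := by
      intro M
      have := SA_cont A
      have := e_cont M
      fun_prop
    simp_rw [h1]
    have hc2 : ∀ a ∈ A, Integrable (fun ω => (1/2) * ((SA A ω : ℂ) ^ i * e (N + (a:ℤ)) ω) +
        (1/2) * ((SA A ω : ℂ) ^ i * e (N - (a:ℤ)) ω)) nu := by
      intro a _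
      apply integ
      have c1 := hc (N + (a:ℤ))
      have c2 := hc (N - (a:ℤ))
      fun_prop
    rw [integral_finsetSum _ hc2]
    apply sum_eq_zero
    intro a ha
    rw [integral_add ((integ (hc _)).const_mul _) ((integ (hc _)).const_mul _),
      integral_const_mul, integral_const_mul, ih, ih]
    · simp
    · intro hmem
      apply hN
      rw [Lam, mem_biUnion]
      refine ⟨a, ha, ?_⟩
      rw [mem_union, mem_image, mem_image]
      right
      exact ⟨_, hmem, by ring⟩
    · intro hmem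
      apply hN
      rw [Lam, mem_biUnion]
      refine ⟨a, ha, ?_⟩
      rw [mem_union, mem_image, mem_image]
      left
      exact ⟨_, hmem, by ring⟩

/-- `b` is independent of `A` up to order `M` -/
def Good (A : Finset ℕ) (M b : ℕ) : Prop :=
  ∀ c : ℤ, c ≠ 0 → |c| ≤ M → ∀ i ≤ M, c * b ∉ Lam A i

lemma factor_aux (A : Finset ℕ) (M b : ℕ) (hb : 0 < b) (hG : Good A M b) (i : ℕ) (hi : i ≤ M) (j : ℕ) :
    ∀ c : ℤ, |c| + j ≤ M →
    ∫ ω, (SA A ω : ℂ) ^ i * ((Real.cos (2 * π * b * ω) : ℝ) : ℂ) ^ j * e (c * b) ω ∂nu =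
      (∫ ω, (SA A ω : ℂ) ^ i ∂nu) *
        ∫ ω, ((Real.cos (2 * π * b * ω) : ℝ) : ℂ) ^ j * e (c * b) ω ∂nu := by
  induction j with
  | zero =>
    intro c hc
    simp only [pow_zero, mul_one, one_mul]
    by_cases h0 : c = 0
    · subst h0
      simp [e_zero]
    · have h1 : c * b ≠ 0 := by
        apply mul_ne_zero h0
        exact_mod_cast hb.ne'
      rw [int_e, if_neg h1, mul_zero]
      apply int_pow_e
      have := hG (-c) (by simpa using h0) (by rw [abs_neg]; push_cast at hc; linarith) i hi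
      rwa [neg_mul] at this
  | succ j ih =>
    intro c hc
    push_cast at hc
    have hcp : |c + 1| + (j:ℤ) ≤ M := by
      have := abs_add_le c 1
      simp only [abs_one] at this
      linarith
    have hcm : |c - 1| + (j:ℤ) ≤ M := by
      have := abs_sub c 1
      simp only [abs_one] at this
      linarith
    have hcS := SA_cont A
    have h1 : ∀ (g : ℝ → ℂ) (ω : ℝ), g ω * ((Real.cos (2 * π * b * ω) : ℝ) : ℂ) ^ (j + 1) * e (c * b) ω =
        (1/2) * (g ω * ((Real.cos (2 * π * b * ω) : ℝ) : ℂ) ^ j * e ((c + 1) * b) ω) +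
        (1/2) * (g ω * ((Real.cos (2 * π * b * ω) : ℝ) : ℂ) ^ j * e ((c - 1) * b) ω) := by
      intro g ω
      have h2 := cos_eq b ω
      rw [pow_succ]
      have h3 : (c + 1) * (b:ℤ) = c * b + b := by ring
      have h4 : (c - 1) * (b:ℤ) = c * b + -b := by ring
      rw [h3, h4, e_add, e_add]
      generalize ((Real.cos (2 * π * b * ω) : ℝ) : ℂ) ^ j = y
      rw [h2]; ring
    have hint : ∀ d : ℤ, Integrable (fun ω => (SA A ω : ℂ) ^ i *
        ((Real.cos (2 * π * b * ω) : ℝ) : ℂ) ^ j * e d ω) nu := by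
      intro d
      apply integ
      have := e_cont d
      fun_prop
    have hint' : ∀ d : ℤ, Integrable (fun ω =>
        ((Real.cos (2 * π * b * ω) : ℝ) : ℂ) ^ j * e d ω) nu := by
      intro d
      apply integ
      have := e_cont d
      fun_prop
    have e1 : ∫ ω, (SA A ω : ℂ) ^ i * ((Real.cos (2 * π * b * ω) : ℝ) : ℂ) ^ (j + 1) * e (c * b) ω ∂nu =
        (1/2) * ∫ ω, (SA A ω : ℂ) ^ i * ((Real.cos (2 * π * b * ω) : ℝ) : ℂ) ^ j * e ((c + 1) * b) ω ∂nu +
        (1/2) * ∫ ω, (SA A ω : ℂ) ^ i * ((Real.cos (2 * π * b * ω) : ℝ) : ℂ) ^ j * e ((c - 1) * b) ω ∂nu := by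
      rw [← integral_const_mul, ← integral_const_mul, ← integral_add ((hint _).const_mul _)
        ((hint _).const_mul _)]
      exact integral_congr_ae (Eventually.of_forall fun ω => h1 (fun ω => (SA A ω : ℂ) ^ i) ω)
    have e2 : ∫ ω, ((Real.cos (2 * π * b * ω) : ℝ) : ℂ) ^ (j + 1) * e (c * b) ω ∂nu =
        (1/2) * ∫ ω, ((Real.cos (2 * π * b * ω) : ℝ) : ℂ) ^ j * e ((c + 1) * b) ω ∂nu +
        (1/2) * ∫ ω, ((Real.cos (2 * π * b * ω) : ℝ) : ℂ) ^ j * e ((c - 1) * b) ω ∂nu := by
      rw [← integral_const_mul, ← integral_const_mul, ← integral_add ((hint' _).const_mul _)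
        ((hint' _).const_mul _)]
      refine integral_congr_ae (Eventually.of_forall fun ω => ?_)
      have := h1 (fun _ => 1) ω
      simp only [one_mul] at this
      exact this
    rw [e1, e2, ih (c + 1) hcp, ih (c - 1) hcm]
    ring

/-- mixed moments factor -/
lemma factor (A : Finset ℕ) (M b : ℕ) (hb : 0 < b) (hG : Good A M b) (i j : ℕ) (hij : i + j ≤ M) :
    ∫ ω, SA A ω ^ i * Real.cos (2 * π * b * ω) ^ j ∂nu =
      (∫ ω, SA A ω ^ i ∂nu) * ∫ ω, Real.cos (2 * π * b * ω) ^ j ∂nu := by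
  have h := factor_aux A M b hb hG i (by omega) j 0 (by rw [abs_zero, zero_add]; exact_mod_cast (by omega))
  simp only [zero_mul, e_zero, mul_one] at h
  have e1 : ∫ ω, (SA A ω : ℂ) ^ i * ((Real.cos (2 * π * b * ω) : ℝ) : ℂ) ^ j ∂nu =
      ((∫ ω, SA A ω ^ i * Real.cos (2 * π * b * ω) ^ j ∂nu : ℝ) : ℂ) := by
    rw [← integral_complex_ofReal]
    congr 1; ext ω; push_cast; rfl
  have e2 : ∫ ω, (SA A ω : ℂ) ^ i ∂nu = ((∫ ω, SA A ω ^ i ∂nu : ℝ) : ℂ) := by
    rw [← integral_complex_ofReal]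
    congr 1; ext ω; push_cast; rfl
  have e3 : ∫ ω, ((Real.cos (2 * π * b * ω) : ℝ) : ℂ) ^ j ∂nu =
      ((∫ ω, Real.cos (2 * π * b * ω) ^ j ∂nu : ℝ) : ℂ) := by
    rw [← integral_complex_ofReal]
    congr 1; ext ω; push_cast; rfl
  rw [e1, e2, e3] at h
  exact_mod_cast h

/-! ### The arcsine law -/

/-- moments of the cosine -/
lemma cos_moment (b : ℕ) (hb : 0 < b) (r : ℕ) :
    ∫ ω, Real.cos (2 * π * b * ω) ^ r ∂nu =
      ∑ s ∈ range (r + 1), if 2 * s = r then (r.choose s : ℝ) / 2 ^ r else 0 := by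
  have h1 : ∀ ω, ((Real.cos (2 * π * b * ω) : ℝ) : ℂ) ^ r =
      ∑ s ∈ range (r + 1), ((r.choose s : ℂ) / 2 ^ r) * e ((2 * s - r) * b) ω := by
    intro ω
    rw [cos_eq, mul_pow, add_pow, mul_sum]
    refine sum_congr rfl fun s hs => ?_
    have hs' : s ≤ r := by have := mem_range.mp hs; omega
    have h2 : ∀ (N : ℤ) (k : ℕ), e N ω ^ k = e (k * N) ω := by
      intro N k
      induction k with
      | zero => simp [e_zero]
      | succ k ih =>
        rw [pow_succ, ih, ← e_add]; congr 1; push_cast; ring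
    rw [h2, h2, ← e_add]
    have h3 : (s:ℤ) * b + ((r - s : ℕ) : ℤ) * -b = (2 * s - r) * b := by
      rw [Nat.cast_sub hs']; ring
    rw [h3, one_div, inv_pow]
    field_simp
  have h4 : ((∫ ω, Real.cos (2 * π * b * ω) ^ r ∂nu : ℝ) : ℂ) =
      ((∑ s ∈ range (r + 1), if 2 * s = r then (r.choose s : ℝ) / 2 ^ r else 0 : ℝ) : ℂ) := by
    rw [← integral_complex_ofReal]
    have h5 : ∀ ω : ℝ, ((Real.cos (2 * π * b * ω) ^ r : ℝ) : ℂ) =
        ∑ s ∈ range (r + 1), ((r.choose s : ℂ) / 2 ^ r) * e ((2 * s - r) * b) ω := by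
      intro ω
      rw [← h1]; push_cast; rfl
    have h6 : ∫ ω, ((Real.cos (2 * π * b * ω) ^ r : ℝ) : ℂ) ∂nu =
        ∫ ω, ∑ s ∈ range (r + 1), ((r.choose s : ℂ) / 2 ^ r) * e ((2 * s - r) * b) ω ∂nu :=
      integral_congr_ae (Eventually.of_forall h5)
    refine h6.trans ?_
    rw [integral_finsetSum _ (fun s _ => (integ (e_cont _)).const_mul _), Complex.ofReal_sum]
    refine sum_congr rfl fun s _ => ?_
    rw [integral_const_mul, int_e]
    have h7 : ((2 * (s:ℤ) - r) * b = 0) ↔ (2 * s = r) := by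
      have hb' : (b:ℤ) ≠ 0 := by exact_mod_cast hb.ne'
      rw [mul_eq_zero, or_iff_left hb', sub_eq_zero]
      constructor
      · intro h; exact_mod_cast h
      · intro h; exact_mod_cast h
    simp only [h7]
    split_ifs
    · push_cast; ring
    · simp
  exact_mod_cast h4

/-- The function `I_0(t) = ∑ (t/2)^{2j} / (j!)²`. -/
noncomputable def I0 (t : ℝ) : ℝ := ∑' j : ℕ, (t / 2) ^ (2 * j) / ((j.factorial : ℝ)) ^ 2

lemma mgf_cos (b : ℕ) (hb : 0 < b) (t : ℝ) :
    ∫ ω in Set.Icc (0:ℝ) 1, Real.exp (t * Real.cos (2 * π * b * ω)) = I0 t := by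
  change ∫ ω, Real.exp (t * Real.cos (2 * π * b * ω)) ∂nu = I0 t
  have h := hasSum_integral_of_dominated_convergence (μ := nu)
    (F := fun (r : ℕ) (ω : ℝ) => (t * Real.cos (2 * π * b * ω)) ^ r / r.factorial)
    (f := fun ω => Real.exp (t * Real.cos (2 * π * b * ω)))
    (fun (r : ℕ) _ => |t| ^ r / r.factorial) ?_ ?_ ?_ ?_ ?_
  · -- evaluate the sum
    have h1 : ∀ r : ℕ, ∫ ω, (t * Real.cos (2 * π * b * ω)) ^ r / r.factorial ∂nu =
        t ^ r / r.factorial * ∑ s ∈ range (r + 1), (if 2 * s = r then (r.choose s : ℝ) / 2 ^ r else 0) := by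
      intro r
      rw [← cos_moment b hb r, ← integral_const_mul]
      congr 1; ext ω
      rw [mul_pow]; ring
    simp_rw [h1] at h
    have hinj : Function.Injective (fun j : ℕ => 2 * j) := fun a b hab => by
      simp only at hab; omega
    rw [← hinj.hasSum_iff] at h
    · have h2 : ((fun r : ℕ => t ^ r / r.factorial *
          ∑ s ∈ range (r + 1), (if 2 * s = r then (r.choose s : ℝ) / 2 ^ r else 0)) ∘ fun j => 2 * j) =
          fun j : ℕ => (t / 2) ^ (2 * j) / ((j.factorial : ℝ)) ^ 2 := by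
        ext j
        simp only [Function.comp]
        rw [sum_eq_single j]
        · rw [if_pos rfl]
          have h3 : ((2 * j).choose j : ℝ) = ((2 * j).factorial : ℝ) / ((j.factorial : ℝ) ^ 2) := by
            rw [Nat.cast_choose ℝ (by omega : j ≤ 2 * j)]
            have : 2 * j - j = j := by omega
            rw [this, sq]
          rw [h3, div_pow]
          have h4 : ((2 * j).factorial : ℝ) ≠ 0 := by positivity
          have h5 : (j.factorial : ℝ) ≠ 0 := by positivity
          field_simp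
        · intro s _ hs
          rw [if_neg (by omega)]
        · intro hs
          rw [mem_range] at hs
          omega
      rw [h2] at h
      exact h.tsum_eq.symm
    · intro r hr
      rw [sum_eq_zero, mul_zero]
      intro s _
      rw [if_neg]
      intro h3
      exact hr ⟨s, h3⟩
  · intro r
    apply Continuous.aestronglyMeasurable
    fun_prop
  · intro r
    refine Eventually.of_forall fun ω => ?_
    rw [norm_div, norm_pow, norm_mul, Real.norm_eq_abs, Real.norm_eq_abs, Real.norm_natCast]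
    apply div_le_div_of_nonneg_right _ (by positivity)
    apply pow_le_pow_left₀ (by positivity)
    calc |t| * |Real.cos (2 * π * b * ω)| ≤ |t| * 1 :=
          mul_le_mul_of_nonneg_left (Real.abs_cos_le_one _) (abs_nonneg _)
      _ = |t| := mul_one _
  · exact Eventually.of_forall fun _ => Real.summable_pow_div_factorial |t|
  · exact integrable_const _
  · refine Eventually.of_forall fun ω => ?_
    have := NormedSpace.expSeries_div_hasSum_exp (𝔸 := ℝ) (t * Real.cos (2 * π * b * ω))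
    rw [← Real.exp_eq_exp_ℝ] at this
    exact this

/-- The cumulants of the arcsine law. -/
noncomputable def kt (m : ℕ) : ℝ := iteratedDeriv m (fun t => Real.log (I0 t)) 0

lemma kap_cos (b : ℕ) (hb : 0 < b) (m : ℕ) : kap (fun ω => Real.cos (2 * π * b * ω)) m = kt m := by
  unfold kap kt
  simp_rw [mgf_cos b hb]

end Pool.Agent.X119.TrigInt
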