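import Pool.Agent.X119.MilTrD
import Pool.Agent.Y921.FE.Mat

set_option autoImplicit false

/-!
# The four exponentials property from the absence of relations of degree `2`
-/

namespace Pool.Agent.X119.MilTr

open Module MvPolynomial

/-- the sequence `1, w 0, w 1, …` -/
def wone (w : ℕ → ℂ) (n : ℕ) : ℂ := if n = 0 then 1 else w (n - 1)

/-- all the products of two terms of the sequence `1, w 0, w 1, …` -/
def wprod (w : ℕ → ℂ) (n : ℕ) : ℂ := wone w n.unpair.1 * wone w n.unpair.2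

lemma wone_image (w : ℕ → ℂ) (m : ℕ) : wone w '' Set.Iio (m + 1) = insert 1 (w '' Set.Iio m) := by
  ext x
  simp only [Set.mem_image, Set.mem_Iio, Set.mem_insert_iff]
  constructor
  · rintro ⟨n, hn, rfl⟩
    rcases n with _ | n
    · left; simp [wone]
    · right; exact ⟨n, by omega, by simp [wone]⟩
  · rintro (rfl | ⟨n, hn, rfl⟩)
    · exact ⟨0, by omega, by simp [wone]⟩
    · exact ⟨n + 1, by omega, by simp [wone]⟩

lemma mul_mem (w : ℕ → ℂ) (m : ℕ) (K : IntermediateField ℚ ℂ) :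
    (Submodule.span K (insert 1 (w '' Set.Iio m))) * (Submodule.span K (insert 1 (w '' Set.Iio m))) ≤
      Submodule.span K (wprod w '' Set.Iio ((m + 1) ^ 2)) := by
  rw [Submodule.span_mul_span, Submodule.span_le]
  rintro _ ⟨a, ha, b, hb, rfl⟩
  rw [← wone_image] at ha hb
  obtain ⟨i, hi, rfl⟩ := ha
  obtain ⟨j, hj, rfl⟩ := hb
  rw [Set.mem_Iio] at hi hj
  refine Submodule.subset_span ⟨Nat.pair i j, ?_, ?_⟩
  · rw [Set.mem_Iio]
    refine (Nat.pair_lt_max_add_one_sq i j).trans_le ?_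
    exact Nat.pow_le_pow_left (by omega) 2
  · simp [wprod]

/-- the linear form as a polynomial -/
noncomputable def lin {K : IntermediateField ℚ ℂ} {m : ℕ} (a : ℂ) (c : Fin m → K) : MvPolynomial (Fin m) ℂ :=
  C a + ∑ p, C (c p : ℂ) * X p

lemma lin_eval {K : IntermediateField ℚ ℂ} {m : ℕ} (a : ℂ) (c : Fin m → K) (x : Fin m → ℂ) :
    eval x (lin a c) = a + ∑ p, c p • x p := by
  simp [lin, Algebra.smul_def]

lemma lin_deg {K : IntermediateField ℚ ℂ} {m : ℕ} (a : ℂ) (c : Fin m → K) : (lin a c).totalDegree ≤ 1 := by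
  refine (totalDegree_add _ _).trans (max_le ?_ ?_)
  · rw [totalDegree_C]; omega
  · refine totalDegree_finsetSum_le fun p _ => ?_
    refine (totalDegree_mul _ _).trans ?_
    rw [totalDegree_C, totalDegree_X]

lemma lin_coeff {K : IntermediateField ℚ ℂ} {m : ℕ} {V : Submodule K ℂ} (h1 : (1 : ℂ) ∈ V) {a : ℂ} (ha : a ∈ V)
    (c : Fin m → K) (s : Fin m →₀ ℕ) : (lin a c).coeff s ∈ V := by
  classical
  rw [lin, coeff_add, coeff_C, coeff_sum]
  refine V.add_mem ?_ (V.sum_mem fun p _ => ?_)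
  · split_ifs
    · exact ha
    · exact V.zero_mem
  · rw [coeff_C_mul, coeff_X']
    split_ifs
    · have := V.smul_mem (c p) h1
      rwa [Algebra.smul_def] at this
    · rw [mul_zero]; exact V.zero_mem

lemma good_of_free {w : ℕ → ℂ} {l : ℕ → ℂ} (h : Free (wprod w) l) (q m D : ℕ) : ∃ N : ℕ,
    ∀ K : IntermediateField ℚ ℂ, FiniteDimensional ℚ K → finrank ℚ K ≤ D →
    ∀ k : Fin m → ℕ, Function.Injective k → (∀ i, N ≤ k i) →
    Pool.Agent.Y921.FE.Good (Submodule.span K (insert 1 (w '' Set.Iio q))) (fun i => l (k i)) := by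
  classical
  obtain ⟨N, hN⟩ := h ((q + 1) ^ 2) m (D + 2)
  refine ⟨N, fun K hK hKD k hk hkN => ?_⟩
  have hfin : Module.Finite K (Submodule.span K (insert 1 (w '' Set.Iio q))) :=
    Module.Finite.span_of_finite K (((Set.finite_Iio q).image w).insert 1)
  have h1 : (1 : ℂ) ∈ Submodule.span K (insert 1 (w '' Set.Iio q)) := Submodule.subset_span (Set.mem_insert _ _)
  refine Pool.Agent.Y921.FE.good_of _ _ fun v c hv h0 X => ?_
  set P : MvPolynomial (Fin m) ℂ := lin (v 0 0) (c 0 0) * lin (v 1 1) (c 1 1) -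
    lin (v 0 1) (c 0 1) * lin (v 1 0) (c 1 0) with hP
  have hev : ∀ x : Fin m → ℂ, eval x P = Pool.Agent.Y921.FE.D v c x := by
    intro x
    rw [hP, map_sub, map_mul, map_mul, lin_eval, lin_eval, lin_eval, lin_eval]
    rfl
  by_cases hP0 : P = 0
  · rw [← hev, hP0, map_zero]
  · exfalso
    refine hN K hK (by omega) k hk hkN P hP0 ?_ ?_ ((hev _).trans h0)
    · rw [hP]
      refine (totalDegree_sub _ _).trans (max_le ?_ ?_)
      · refine (totalDegree_mul _ _).trans ?_
        have e1 := lin_deg (v 0 0) (c 0 0)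
        have e2 := lin_deg (v 1 1) (c 1 1)
        omega
      · refine (totalDegree_mul _ _).trans ?_
        have e1 := lin_deg (v 0 1) (c 0 1)
        have e2 := lin_deg (v 1 0) (c 1 0)
        omega
    · intro s
      refine mul_mem w q K ?_
      rw [hP, coeff_sub]
      refine Submodule.sub_mem _ ?_ ?_
      · rw [coeff_mul]
        exact Submodule.sum_mem _ fun x _ => Submodule.mul_mem_mul (lin_coeff h1 (hv 0 0) _ _) (lin_coeff h1 (hv 1 1) _ _)
      · rw [coeff_mul]
        exact Submodule.sum_mem _ fun x _ => Submodule.mul_mem_mul (lin_coeff h1 (hv 0 1) _ _) (lin_coeff h1 (hv 1 0) _ _)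

/-- **The strong four exponentials property.** -/
theorem fourexp_of_free {w : ℕ → ℂ} {l : ℕ → ℂ} (h : Free (wprod w) l) (q m D : ℕ) : ∃ N : ℕ,
    ∀ K : IntermediateField ℚ ℂ, FiniteDimensional ℚ K → finrank ℚ K ≤ D →
    ∀ k : Fin m → ℕ, Function.Injective k → (∀ i, N ≤ k i) →
    ∀ M : Matrix (Fin 2) (Fin 2) ℂ, (∀ i j, M i j ∈ Submodule.span K (insert 1 (w '' Set.Iio q)) ⊔
        Submodule.span K (Set.range fun i => l (k i))) →
      (∃ i j, M i j ∉ Submodule.span K (insert 1 (w '' Set.Iio q))) →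
      LinearIndependent K (fun i : Fin 2 => fun j : Fin 2 => M i j) →
      LinearIndependent K (fun j : Fin 2 => fun i : Fin 2 => M i j) → M.det ≠ 0 := by
  obtain ⟨N, hN⟩ := good_of_free h q m D
  exact ⟨N, fun K hK hKD k hk hkN M hM hne hrow hcol => (hN K hK hKD k hk hkN).det_ne_zero M hM hne hrow hcol⟩

end Pool.Agent.X119.MilTr
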