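import Mathlib

set_option autoImplicit false

/-! The polynomials `Q_k = X^{k+1} + ∑_{i=2}^{k-1} X^i - 3X + 1`, `k = 3^a`, and `Q_k(X²)`. -/

namespace Pool.Agent.X119.SqSize

open Polynomial

variable {R : Type*} [CommRing R]

/-- the polynomial -/
noncomputable def Q (R : Type*) [CommRing R] (k : ℕ) : R[X] :=
  X ^ (k + 1) + ∑ i ∈ Finset.Ico 2 k, X ^ i - 3 * X + 1

lemma key (k : ℕ) (hk : 2 ≤ k) :
    (X - 1) * Q R k = X ^ k * (X ^ 2 - X + 1) - (2 * X - 1) ^ 2 := by
  unfold Q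
  have h : (∑ i ∈ Finset.Ico 2 k, (X : R[X]) ^ i) * (X - 1) = X ^ k - X ^ 2 :=
    geom_sum_Ico_mul X hk
  linear_combination h

lemma key_eval {S : Type*} [CommRing S] (k : ℕ) (hk : 2 ≤ k) (u : S) :
    (u - 1) * (Q S k).eval u = u ^ k * (u ^ 2 - u + 1) - (2 * u - 1) ^ 2 := by
  have := congrArg (eval u) (key (R := S) k hk)
  simpa using this

lemma Q_map {S : Type*} [CommRing S] (f : R →+* S) (k : ℕ) : (Q R k).map f = Q S k := by
  unfold Q
  simp [Polynomial.map_sum]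

lemma Q_tail_degree [Nontrivial R] (k : ℕ) (hk : 2 ≤ k) :
    (∑ i ∈ Finset.Ico 2 k, (X : R[X]) ^ i - 3 * X + 1).natDegree < k + 1 := by
  have h1 : (∑ i ∈ Finset.Ico 2 k, (X : R[X]) ^ i).natDegree ≤ k := by
    apply natDegree_sum_le_of_forall_le
    intro i hi
    rw [natDegree_X_pow]
    exact (Finset.mem_Ico.mp hi).2.le
  have h2 : (3 * X : R[X]).natDegree ≤ k := by
    have : (3 * X : R[X]) = C 3 * X := by rw [map_ofNat]
    rw [this]
    exact (natDegree_C_mul_le 3 X).trans (natDegree_X_le.trans (by omega))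
  have h3 : (1 : R[X]).natDegree ≤ k := by simp
  have h4 := natDegree_sub_le_of_le h1 h2
  rw [max_self] at h4
  have := natDegree_add_le_of_degree_le h4 h3
  omega

lemma Q_eq (k : ℕ) : Q R k = X ^ (k + 1) + (∑ i ∈ Finset.Ico 2 k, (X : R[X]) ^ i - 3 * X + 1) := by
  unfold Q; ring

lemma Q_tail_degree' [Nontrivial R] (k : ℕ) (hk : 2 ≤ k) :
    (∑ i ∈ Finset.Ico 2 k, (X : R[X]) ^ i - 3 * X + 1).degree < ((k + 1 : ℕ) : WithBot ℕ) :=
  lt_of_le_of_lt degree_le_natDegree (by exact_mod_cast Q_tail_degree (R := R) k hk)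

lemma Q_monic [Nontrivial R] (k : ℕ) (hk : 2 ≤ k) : (Q R k).Monic := by
  rw [Q_eq]
  exact monic_X_pow_add (Q_tail_degree' k hk)

lemma Q_natDegree [Nontrivial R] (k : ℕ) (hk : 2 ≤ k) : (Q R k).natDegree = k + 1 := by
  rw [Q_eq, natDegree_add_eq_left_of_degree_lt, natDegree_X_pow]
  rw [degree_X_pow]
  exact Q_tail_degree' k hk

lemma Q_eval_zero (k : ℕ) : (Q R k).eval 0 = 1 := by
  unfold Q
  simp only [eval_add, eval_sub, eval_mul, eval_X, eval_one, eval_pow, eval_finsetSum]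
  have : ∑ i ∈ Finset.Ico 2 k, (0:R) ^ i = 0 := by
    apply Finset.sum_eq_zero
    intro i hi
    rw [zero_pow]
    have := (Finset.mem_Ico.mp hi).1
    omega
  rw [this]; simp

lemma Q_eval_one (k : ℕ) (hk : 2 ≤ k) : (Q ℤ k).eval 1 = k - 3 := by
  unfold Q
  simp only [eval_add, eval_sub, eval_mul, eval_X, eval_one, eval_pow, eval_finsetSum, one_pow]
  have : (eval 1 (3 : ℤ[X])) = 3 := by simp
  rw [this]
  simp only [Finset.sum_const, Nat.card_Ico, nsmul_eq_mul, mul_one]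
  rw [Nat.cast_sub hk]; push_cast; ring

lemma Q_eval_neg_one (k : ℕ) (hk : 2 ≤ k) (hodd : Odd k) : (Q ℤ k).eval (-1) = 6 := by
  have h := key_eval (S := ℤ) k hk (-1)
  rw [hodd.neg_one_pow] at h
  norm_num at h
  linarith

/-- positivity of the real polynomial outside `(0,1)` -/
lemma Q_pos_of_neg (k : ℕ) (hk : 2 ≤ k) (hodd : Odd k) (u : ℝ) (h0 : u < 0) :
    0 < (Q ℝ k).eval u := by
  have h := key_eval (S := ℝ) k hk u
  have h2 : u ^ k < 0 := hodd.pow_neg h0
  have h3 : (0:ℝ) < u ^ 2 - u + 1 := by nlinarith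
  have h4 : u ^ k * (u ^ 2 - u + 1) < 0 := mul_neg_of_neg_of_pos h2 h3
  have h5 : 0 ≤ (2 * u - 1) ^ 2 := sq_nonneg _
  have h6 : (u - 1) * (Q ℝ k).eval u < 0 := by rw [h]; linarith
  by_contra hcon
  push Not at hcon
  nlinarith

lemma Q_pos_of_gt (k : ℕ) (hk : 5 ≤ k) (u : ℝ) (h1 : 1 < u) : 0 < (Q ℝ k).eval u := by
  have h := key_eval (S := ℝ) k (by omega) u
  have h2 : u ^ 4 ≤ u ^ k := pow_le_pow_right₀ h1.le (by omega)
  have h3 : (1:ℝ) < u ^ 2 - u + 1 := by nlinarith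
  have h4 : 0 < u ^ 4 := by positivity
  have h5 : (2 * u - 1) ^ 2 ≤ u ^ 4 := by
    have : 2 * u - 1 ≤ u ^ 2 := by nlinarith [sq_nonneg (u - 1)]
    calc (2 * u - 1) ^ 2 ≤ (u ^ 2) ^ 2 := pow_le_pow_left₀ (by linarith) this 2
      _ = u ^ 4 := by ring
  have h6 : u ^ 4 * 1 < u ^ k * (u ^ 2 - u + 1) := by
    calc u ^ 4 * 1 < u ^ 4 * (u ^ 2 - u + 1) := mul_lt_mul_of_pos_left h3 h4
      _ ≤ u ^ k * (u ^ 2 - u + 1) := mul_le_mul_of_nonneg_right h2 (by linarith)
  have h7 : 0 < (u - 1) * (Q ℝ k).eval u := by rw [h]; linarith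
  exact (mul_pos_iff_of_pos_left (by linarith : 0 < u - 1)).mp h7

lemma Q_mod3 (a : ℕ) (ha : 1 ≤ a) :
    Q (ZMod 3) (3 ^ a) = (X + 1) ^ 2 * (X - 1) ^ (3 ^ a - 1) := by
  have : Fact (Nat.Prime 3) := ⟨Nat.prime_three⟩
  have h3 : (3 : (ZMod 3)[X]) = 0 := by
    have : ((3 : ℕ) : (ZMod 3)[X]) = 0 := CharP.cast_eq_zero _ 3
    exact_mod_cast this
  have hk : 2 ≤ 3 ^ a := by
    calc 2 ≤ 3 ^ 1 := by norm_num
      _ ≤ 3 ^ a := Nat.pow_le_pow_right (by norm_num) ha
  have hX1 : (X - 1 : (ZMod 3)[X]) ≠ 0 := by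
    have := X_sub_C_ne_zero (1 : ZMod 3)
    simpa using this
  apply mul_left_cancel₀ hX1
  rw [key (3 ^ a) hk]
  have hfrob : (X - 1 : (ZMod 3)[X]) ^ (3 ^ a) = X ^ (3 ^ a) - 1 := by
    rw [sub_pow_char_pow, one_pow]
  have e1 : (X - 1 : (ZMod 3)[X]) * ((X + 1) ^ 2 * (X - 1) ^ (3 ^ a - 1)) =
      (X + 1) ^ 2 * (X - 1) ^ (3 ^ a) := by
    have : 3 ^ a = (3 ^ a - 1) + 1 := by omega
    conv_rhs => rw [this, pow_succ]
    ring
  rw [e1, hfrob]
  linear_combination (-(X : (ZMod 3)[X]) ^ (3 ^ a) * X - X ^ 2 + 2 * X) * h3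

/-- no quadratic factor -/
lemma no_quad (k : ℕ) (hk : 5 ≤ k) (hodd : Odd k) (p : ℤ) (hp : p % 3 = 2)
    (h : (X ^ 2 + C p * X + 1 : ℤ[X]) ∣ Q ℤ k) : False := by
  obtain ⟨f, hf⟩ := h
  have hroot : ∀ r : ℝ, r ^ 2 + p * r + 1 = 0 → (Q ℝ k).eval r = 0 := by
    intro r hr
    have h1 : Q ℝ k = (Q ℤ k).map (Int.castRingHom ℝ) := (Q_map _ _).symm
    rw [h1, hf, Polynomial.map_mul, eval_mul]
    have : eval r (map (Int.castRingHom ℝ) (X ^ 2 + C p * X + 1 : ℤ[X])) = 0 := by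
      simp [hr]
    rw [this, zero_mul]
  rcases lt_trichotomy p (-1) with hlt | heq | hgt
  · -- p ≤ -2: a root > 1
    have hp2 : p ≤ -3 := by omega
    have hp2' : (p:ℝ) ≤ -3 := by exact_mod_cast hp2
    have hc : ContinuousOn (fun r : ℝ => r ^ 2 + p * r + 1) (Set.Icc 1 (-p)) := by fun_prop
    have hmem : (0:ℝ) ∈ Set.Icc ((fun r : ℝ => r ^ 2 + p * r + 1) 1)
        ((fun r : ℝ => r ^ 2 + p * r + 1) (-p)) := by
      constructor
      · simp only; linarith
      · simp only; nlinarith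
    obtain ⟨r, hr1, hr2⟩ := intermediate_value_Icc (by linarith) hc hmem
    have hr3 : 1 < r := by
      rcases eq_or_lt_of_le hr1.1 with h | h
      · simp only at hr2; rw [← h] at hr2; linarith
      · exact h
    have := Q_pos_of_gt k hk r hr3
    rw [hroot r hr2] at this
    exact lt_irrefl _ this
  · subst heq
    -- X^2 - X + 1 divides 3
    have h1 : (X ^ 2 + C (-1) * X + 1 : ℤ[X]) ∣ 3 := by
      refine ⟨(X - 1) * f - X ^ k + 4, ?_⟩
      have h2 := key (R := ℤ) k (by omega)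
      rw [hf] at h2
      have e : (C (-1) : ℤ[X]) = -1 := by simp
      rw [e] at h2 ⊢
      linear_combination -h2
    have hm : (X ^ 2 + C (-1) * X + 1 : ℤ[X]).Monic := by
      monicity!
    have hd : (X ^ 2 + C (-1) * X + 1 : ℤ[X]).natDegree = 2 := by
      compute_degree!
    have h3 : (3 : ℤ[X]) ≠ 0 := by norm_num
    have h4 : (3 : ℤ[X]).natDegree = 0 := by simp
    exact hm.not_dvd_of_natDegree_lt h3 (by rw [h4, hd]; norm_num) h1
  · have hp2 : 2 ≤ p := by omega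
    have hp2' : (2:ℝ) ≤ p := by exact_mod_cast hp2
    have hc : ContinuousOn (fun r : ℝ => r ^ 2 + p * r + 1) (Set.Icc (-1) 0) := by fun_prop
    have hmem : (0:ℝ) ∈ Set.Icc ((fun r : ℝ => r ^ 2 + p * r + 1) (-1))
        ((fun r : ℝ => r ^ 2 + p * r + 1) 0) := by
      constructor
      · simp only; linarith
      · simp only; norm_num
    obtain ⟨r, hr1, hr2⟩ := intermediate_value_Icc (by norm_num) hc hmem
    have hr3 : r < 0 := by
      rcases eq_or_lt_of_le hr1.2 with h | h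
      · simp only at hr2; rw [h] at hr2; norm_num at hr2
      · exact h
    have := Q_pos_of_neg k (by omega) hodd r hr3
    rw [hroot r hr2] at this
    exact lt_irrefl _ this

lemma pow3_facts (a : ℕ) (ha : 2 ≤ a) : 9 ∣ 3 ^ a ∧ 9 ≤ 3 ^ a ∧ Odd (3 ^ a) := by
  obtain ⟨b, rfl⟩ := Nat.exists_eq_add_of_le ha
  refine ⟨⟨3 ^ b, by rw [pow_add]; norm_num⟩, ?_, Odd.pow (by decide)⟩
  calc 9 = 3 ^ 2 := by norm_num
    _ ≤ 3 ^ (2 + b) := Nat.pow_le_pow_right (by norm_num) (by omega)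

lemma neg_one_ne : ((-1 : ℤ) : ZMod 3) ≠ 1 := by decide

/-- a monic factor not vanishing at `1` mod `3` is constant -/
lemma small_factor (a : ℕ) (ha : 2 ≤ a) (f g : ℤ[X]) (hg : g.Monic)
    (hfg : f * g = Q ℤ (3 ^ a)) (h1 : ¬ (3:ℤ) ∣ g.eval 1) : g.natDegree = 0 := by
  have : Fact (Nat.Prime 3) := ⟨Nat.prime_three⟩
  obtain ⟨h9, h9', hodd⟩ := pow3_facts a ha
  set k := 3 ^ a with hk
  have hmod := Q_mod3 a (by omega)
  rw [← hk] at hmod
  set gb : (ZMod 3)[X] := g.map (Int.castRingHom (ZMod 3)) with hgb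
  have hgbm : gb.Monic := hg.map _
  have hdvd : gb ∣ (X + 1) ^ 2 * (X - 1) ^ (k - 1) := by
    rw [← hmod, ← Q_map (Int.castRingHom (ZMod 3)), ← hfg, Polynomial.map_mul]
    exact dvd_mul_left _ _
  have hirr1 : Irreducible (X - 1 : (ZMod 3)[X]) := by
    have := irreducible_X_sub_C (1 : ZMod 3)
    simpa using this
  have hirr2 : Irreducible (X + 1 : (ZMod 3)[X]) := by
    have := irreducible_X_sub_C (-1 : ZMod 3)
    simpa using this
  have hnd : ¬ (X - 1 : (ZMod 3)[X]) ∣ gb := by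
    intro hd
    have h2 : (X - C (1 : ZMod 3)) ∣ gb := by simpa using hd
    rw [dvd_iff_isRoot, IsRoot.def, hgb, eval_map, eval₂_at_one, eq_intCast] at h2
    apply h1
    exact (ZMod.intCast_zmod_eq_zero_iff_dvd (g.eval 1) 3).mp h2
  have hcop : IsCoprime gb ((X - 1) ^ (k - 1)) := by
    apply IsCoprime.pow_right
    exact ((hirr1.coprime_iff_not_dvd).mpr hnd).symm
  have hdvd2 : gb ∣ (X + 1) ^ 2 := hcop.dvd_of_dvd_mul_right hdvd
  obtain ⟨i, hi, hassoc⟩ := (dvd_prime_pow hirr2.prime 2).mp hdvd2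
  have hX1m : ((X + 1 : (ZMod 3)[X]) ^ i).Monic := by
    apply Monic.pow
    have := monic_X_add_C (1 : ZMod 3)
    simpa using this
  have hgbeq : gb = (X + 1) ^ i := eq_of_monic_of_associated hgbm hX1m hassoc
  have hdeg : g.natDegree = i := by
    have h2 : gb.natDegree = g.natDegree := hg.natDegree_map _
    have h3 : ((X + 1 : (ZMod 3)[X]) ^ i).natDegree = i := by
      have : (X + 1 : (ZMod 3)[X]) = X + C 1 := by simp
      rw [this, natDegree_pow, natDegree_X_add_C, mul_one]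
    rw [← h2, hgbeq, h3]
  have hQ0 : f.eval 0 * g.eval 0 = 1 := by
    have := congrArg (eval 0) hfg
    rwa [eval_mul, Q_eval_zero] at this
  have hg0 : g.eval 0 = 1 ∨ g.eval 0 = -1 := by
    have : IsUnit (g.eval 0) := IsUnit.of_mul_eq_one (f.eval 0) (by rw [mul_comm]; exact hQ0)
    exact Int.isUnit_iff.mp this
  have hcoef : ∀ j, ((g.coeff j : ℤ) : ZMod 3) = ((X + 1 : (ZMod 3)[X]) ^ i).coeff j := by
    intro j
    rw [← hgbeq, hgb, coeff_map, eq_intCast]
  interval_cases i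
  · exact hdeg
  · exfalso
    -- degree one
    have hgX : g = X + C (g.coeff 0) := hg.eq_X_add_C hdeg
    have hc0 := hcoef 0
    have hval : g.eval 0 = g.coeff 0 := (coeff_zero_eq_eval_zero g).symm
    rw [pow_one] at hc0
    simp only [coeff_add, coeff_X_zero, coeff_one_zero, zero_add] at hc0
    have hc1 : g.coeff 0 = 1 := by
      rw [← hval]
      rcases hg0 with h | h
      · exact h
      · rw [← hval, h] at hc0
        exact absurd hc0 neg_one_ne
    have h6 := Q_eval_neg_one k (by omega) hodd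
    rw [← hfg, eval_mul] at h6
    have : g.eval (-1) = 0 := by rw [hgX, hc1]; simp
    rw [this, mul_zero] at h6
    norm_num at h6
  · exfalso
    have hval : g.eval 0 = g.coeff 0 := (coeff_zero_eq_eval_zero g).symm
    have hc0 := hcoef 0
    have hc1 := hcoef 1
    have e2 : ((X + 1 : (ZMod 3)[X]) ^ 2) = X ^ 2 + C 2 * X + 1 := by
      have : (C (2 : ZMod 3) : (ZMod 3)[X]) = 2 := map_ofNat C 2
      rw [this]; ring
    rw [e2] at hc0 hc1
    simp only [coeff_add, coeff_X_pow, coeff_C_mul, coeff_X, coeff_one] at hc0 hc1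
    norm_num at hc0 hc1
    have hg1 : g.coeff 0 = 1 := by
      rw [← hval]
      rcases hg0 with h | h
      · exact h
      · rw [← hval, h] at hc0
        exact absurd hc0 neg_one_ne
    have hgX : g = X ^ 2 + C (g.coeff 1) * X + 1 := by
      ext j
      rw [coeff_add, coeff_add, coeff_X_pow, coeff_C_mul, coeff_X, coeff_one]
      rcases j with _ | _ | _ | j
      · simp [hg1]
      · simp
      · have : g.coeff 2 = 1 := by rw [← hdeg]; exact hg.coeff_natDegree
        simp [this]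
      · have : g.coeff (j + 3) = 0 := coeff_eq_zero_of_natDegree_lt (by omega)
        rw [show j + 1 + 1 + 1 = j + 3 from rfl, this]
        simp
    have hmod : g.coeff 1 % 3 = 2 := by
      have h2 : ((g.coeff 1 : ℤ) : ZMod 3) = ((2 : ℤ) : ZMod 3) := by
        rw [hc1]; rfl
      rw [ZMod.intCast_eq_intCast_iff] at h2
      exact h2
    apply no_quad k (by omega) hodd (g.coeff 1) hmod
    rw [← hgX, ← hfg]
    exact dvd_mul_left _ _

theorem Q_irreducible (a : ℕ) (ha : 2 ≤ a) : Irreducible (Q ℤ (3 ^ a)) := by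
  obtain ⟨h9, h9', hodd⟩ := pow3_facts a ha
  have hm := Q_monic (R := ℤ) (3 ^ a) (by omega)
  rw [hm.irreducible_iff_natDegree]
  refine ⟨?_, ?_⟩
  · intro h
    have := Q_natDegree (R := ℤ) (3 ^ a) (by omega)
    rw [h, natDegree_one] at this
    omega
  · intro f g hf hg hfg
    by_cases h1 : (3:ℤ) ∣ g.eval 1
    · left
      have h2 : ¬ (3:ℤ) ∣ f.eval 1 := by
        intro h3
        have h4 : (9:ℤ) ∣ (Q ℤ (3 ^ a)).eval 1 := by
          rw [← hfg, eval_mul]
          have : (9:ℤ) = 3 * 3 := by norm_num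
          rw [this]
          exact mul_dvd_mul h3 h1
        rw [Q_eval_one _ (by omega)] at h4
        have h5 : (9:ℤ) ∣ ((3 ^ a : ℕ) : ℤ) := by exact_mod_cast h9
        omega
      exact small_factor a ha g f hf (by rw [mul_comm]; exact hfg) h2
    · right
      exact small_factor a ha f g hg hfg h1

/-- even/odd decomposition -/
lemma decomp (m : ℤ[X]) : ∃ A B : ℤ[X], m = expand ℤ 2 A + X * expand ℤ 2 B := by
  induction m using Polynomial.induction_on' with
  | add p q hp hq =>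
    obtain ⟨A, B, h1⟩ := hp
    obtain ⟨A', B', h2⟩ := hq
    refine ⟨A + A', B + B', ?_⟩
    rw [h1, h2, map_add, map_add]; ring
  | monomial n c =>
    rcases Nat.even_or_odd' n with ⟨j, rfl | rfl⟩
    · refine ⟨monomial j c, 0, ?_⟩
      rw [expand_monomial, map_zero, mul_zero, add_zero, mul_comm]
    · refine ⟨0, monomial j c, ?_⟩
      rw [expand_monomial, map_zero, zero_add, X_mul_monomial, mul_comm j 2]

lemma no_two_squares (x y : ℤ) (h : x ^ 2 + y ^ 2 = 6) : False := by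
  have hx : x ^ 2 ≤ 6 := by nlinarith [sq_nonneg y]
  have hy : y ^ 2 ≤ 6 := by nlinarith [sq_nonneg x]
  have hx1 : -3 < x ∧ x < 3 := by constructor <;> nlinarith
  have hy1 : -3 < y ∧ y < 3 := by constructor <;> nlinarith
  obtain ⟨a1, a2⟩ := hx1
  obtain ⟨b1, b2⟩ := hy1
  interval_cases x <;> interval_cases y <;> simp at h

/-- the minimal polynomial of a square root of a root of `Q` -/
theorem minpoly_eq (a : ℕ) (ha : 2 ≤ a) (α : ℂ) (hα : aeval α (expand ℤ 2 (Q ℤ (3 ^ a))) = 0) :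
    minpoly ℤ α = expand ℤ 2 (Q ℤ (3 ^ a)) := by
  obtain ⟨h9, h9', hodd⟩ := pow3_facts a ha
  set q := Q ℤ (3 ^ a) with hq
  have hqm : q.Monic := Q_monic _ (by omega)
  have hqirr : Irreducible q := Q_irreducible a ha
  have hPm : (expand ℤ 2 q).Monic := hqm.expand (by norm_num)
  have hint : IsIntegral ℤ α := ⟨expand ℤ 2 q, hPm, hα⟩
  set m := minpoly ℤ α with hm
  have hmm : m.Monic := minpoly.monic hint
  have hmirr : Irreducible m := minpoly.irreducible hint
  obtain ⟨h, hh⟩ := minpoly.isIntegrallyClosed_dvd hint hα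
  obtain ⟨A, B, hAB⟩ := decomp m
  -- the other factor
  set mn : ℤ[X] := expand ℤ 2 A - X * expand ℤ 2 B with hmn
  have hexp : ∀ F : ℤ[X], algEquivAevalNegX (expand ℤ 2 F) = expand ℤ 2 F := by
    intro F
    rw [algEquivAevalNegX_apply, expand_aeval, neg_sq, expand_eq_comp_X_pow, comp_eq_aeval]
  have hX : algEquivAevalNegX (X : ℤ[X]) = -X := by
    rw [algEquivAevalNegX_apply, aeval_X]
  have hmn' : mn = algEquivAevalNegX m := by
    rw [hAB, map_add, map_mul, hexp, hexp, hX]; ring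
  have hmnirr : Irreducible mn := by
    rw [hmn']
    exact (MulEquiv.irreducible_iff (algEquivAevalNegX (R := ℤ)).toMulEquiv).mpr hmirr
  set D : ℤ[X] := A ^ 2 - X * B ^ 2 with hD
  have hprod : m * mn = expand ℤ 2 D := by
    rw [hD, map_sub, map_mul, map_pow, map_pow, expand_X, hmn]
    conv_lhs => rw [hAB]
    ring
  have hθq : aeval (α ^ 2) q = 0 := by rw [← expand_aeval]; exact hα
  have hθD : aeval (α ^ 2) D = 0 := by
    rw [← expand_aeval, ← hprod, map_mul, hm, minpoly.aeval, zero_mul]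
  have hθint : IsIntegral ℤ (α ^ 2) := hint.pow 2
  have hqD : q ∣ D := by
    obtain ⟨c, hc⟩ := minpoly.isIntegrallyClosed_dvd hθint hθq
    obtain ⟨d, hd⟩ := minpoly.isIntegrallyClosed_dvd hθint hθD
    have hcu : IsUnit c := by
      rcases hqirr.isUnit_or_isUnit hc with h1 | h1
      · exact absurd h1 (minpoly.irreducible hθint).not_isUnit
      · exact h1
    obtain ⟨c', hc'⟩ := hcu.exists_right_inv
    refine ⟨c' * d, ?_⟩
    rw [hd, hc]
    calc minpoly ℤ (α ^ 2) * d = minpoly ℤ (α ^ 2) * (c * c') * d := by rw [hc', mul_one]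
      _ = minpoly ℤ (α ^ 2) * c * (c' * d) := by ring
  obtain ⟨w, hw⟩ := hqD
  have h1 : mn = h * expand ℤ 2 w := by
    apply mul_left_cancel₀ hmirr.ne_zero
    rw [hprod, hw, map_mul, hh]; ring
  rcases hmnirr.isUnit_or_isUnit h1 with hu | hu
  · apply eq_of_monic_of_associated hmm hPm
    rw [hh]
    exact (associated_mul_unit_right _ _ hu)
  · exfalso
    obtain ⟨r, hr, hr2⟩ := Polynomial.isUnit_iff.mp hu
    have h2 : expand ℤ 2 (q * C r) = expand ℤ 2 D := by
      rw [hw, map_mul, map_mul, ← hr2, expand_C]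
    have h3 : q * C r = D := expand_injective (by norm_num) h2
    have h4 := congrArg (eval (-1)) h3
    rw [hD, eval_mul, eval_C, hq, Q_eval_neg_one _ (by omega) hodd] at h4
    simp only [eval_sub, eval_pow, eval_mul, eval_X] at h4
    rcases Int.isUnit_iff.mp hr with rfl | rfl
    · exact no_two_squares (eval (-1) A) (eval (-1) B) (by linarith)
    · nlinarith [sq_nonneg (eval (-1) A), sq_nonneg (eval (-1) B)]

end Pool.Agent.X119.SqSize
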