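import Mathlib
import Pool.Agent.X119.SqSize
import Pool.Agent.X119.Rouche

set_option autoImplicit false

/-! Location of the roots of `Q_k`. -/

namespace Pool.Agent.X119.SqSize

open Polynomial Finset
open Pool.Agent.X119.Rouche (nz rouche)

/-- complex roots -/
noncomputable def RQ (k : ℕ) : Finset ℂ := (Q ℂ k).roots.toFinset

lemma mem_RQ (k : ℕ) (hk : 2 ≤ k) (z : ℂ) : z ∈ RQ k ↔ (Q ℂ k).eval z = 0 := by
  unfold RQ
  rw [Multiset.mem_toFinset, mem_roots (Q_monic k hk).ne_zero, IsRoot.def]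

lemma real_root (k : ℕ) (u : ℝ) : (Q ℂ k).eval (u : ℂ) = (((Q ℝ k).eval u : ℝ) : ℂ) := by
  have h : Q ℂ k = (Q ℝ k).map (algebraMap ℝ ℂ) := (Q_map _ _).symm
  rw [h, eval_map_algebraMap]
  exact aeval_ofReal _ _ |> fun h => h

lemma roots_nodup (a : ℕ) (ha : 2 ≤ a) : (Q ℂ (3 ^ a)).roots.Nodup := by
  have hk : 2 ≤ 3 ^ a := by have := (pow3_facts a ha).2.1; omega
  have h1 := (IsPrimitive.Int.irreducible_iff_irreducible_map_cast
    (Q_monic (R := ℤ) (3 ^ a) hk).isPrimitive).mp (Q_irreducible a ha)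
  rw [Q_map] at h1
  have h2 := h1.separable.map (f := algebraMap ℚ ℂ)
  rw [Q_map] at h2
  exact nodup_roots h2

lemma RQ_card (a : ℕ) (ha : 2 ≤ a) : (RQ (3 ^ a)).card = 3 ^ a + 1 := by
  have hk : 2 ≤ 3 ^ a := by have := (pow3_facts a ha).2.1; omega
  unfold RQ
  rw [Multiset.toFinset_card_of_nodup (roots_nodup a ha)]
  rw [← (IsAlgClosed.splits (Q ℂ (3 ^ a))).natDegree_eq_card_roots, Q_natDegree _ hk]

lemma RQ_prod (a : ℕ) (ha : 2 ≤ a) : ∏ z ∈ RQ (3 ^ a), ‖z‖ = 1 := by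
  have hk : 2 ≤ 3 ^ a := by have := (pow3_facts a ha).2.1; omega
  have h := (IsAlgClosed.splits (Q ℂ (3 ^ a))).coeff_zero_eq_prod_roots_of_monic (Q_monic _ hk)
  have h0 : (Q ℂ (3 ^ a)).coeff 0 = 1 := by rw [coeff_zero_eq_eval_zero, Q_eval_zero]
  have h1 := congrArg norm h
  rw [h0, norm_one, norm_mul, norm_pow, norm_neg, norm_one, one_pow, one_mul] at h1
  unfold RQ
  rw [h1]
  have h2 : ∏ z ∈ (Q ℂ (3 ^ a)).roots.toFinset, ‖z‖ = ((Q ℂ (3 ^ a)).roots.map (fun z => ‖z‖)).prod := by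
    rw [prod_multiset_map_count]
    refine prod_congr rfl fun z hz => ?_
    rw [Multiset.count_eq_one_of_mem (roots_nodup a ha) (Multiset.mem_toFinset.mp hz), pow_one]
  rw [h2]
  generalize (Q ℂ (3 ^ a)).roots = s
  induction s using Multiset.induction_on with
  | empty => simp
  | cons a s ih => simp [ih]

/-- the two positive roots -/
lemma exists_two (k : ℕ) (hk : 9 ≤ k) : ∃ u1 u2 : ℝ, 0 < u1 ∧ u1 < 1/2 ∧ 1/2 < u2 ∧ u2 < 3/4 ∧
    (Q ℝ k).eval u1 = 0 ∧ (Q ℝ k).eval u2 = 0 := by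
  have hc : Continuous fun u : ℝ => (Q ℝ k).eval u := (Q ℝ k).continuous
  have h0 : (Q ℝ k).eval 0 = 1 := Q_eval_zero k
  have h1 : (Q ℝ k).eval (1/2) < 0 := by
    have h := key_eval (S := ℝ) k (by omega) (1/2)
    have : (0:ℝ) < (1/2) ^ k := by positivity
    norm_num at h ⊢
    nlinarith
  have h2 : 0 < (Q ℝ k).eval (3/4) := by
    have h := key_eval (S := ℝ) k (by omega) (3/4)
    have h3 : (3/4 : ℝ) ^ k ≤ (3/4) ^ 9 := pow_le_pow_of_le_one (by norm_num) (by norm_num) hk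
    norm_num at h h3 ⊢
    nlinarith
  obtain ⟨u1, hu1, hu1'⟩ := intermediate_value_Ioo' (by norm_num : (0:ℝ) ≤ 1/2) hc.continuousOn
    (show (0:ℝ) ∈ Set.Ioo ((Q ℝ k).eval (1/2)) ((Q ℝ k).eval 0) from ⟨h1, by rw [h0]; norm_num⟩)
  obtain ⟨u2, hu2, hu2'⟩ := intermediate_value_Ioo (by norm_num : (1/2:ℝ) ≤ 3/4) hc.continuousOn
    (show (0:ℝ) ∈ Set.Ioo ((Q ℝ k).eval (1/2)) ((Q ℝ k).eval (3/4)) from ⟨h1, h2⟩)
  exact ⟨u1, u2, hu1.1, hu1.2, hu2.1, hu2.2, hu1', hu2'⟩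

/-- no real roots in `[3/4, ∞)` -/
lemma no_root_ge (k : ℕ) (hk : 9 ≤ k) (u : ℝ) (hu : 3/4 ≤ u) : (Q ℝ k).eval u ≠ 0 := by
  rcases lt_trichotomy u 1 with h | h | h
  · intro h0
    have hkey := key_eval (S := ℝ) k (by omega) u
    rw [h0, mul_zero] at hkey
    have h1 : u ^ 3 ≤ 2 * u - 1 := by nlinarith [mul_nonneg (sub_nonneg.mpr h.le) (by nlinarith : 0 ≤ u ^ 2 + u - 1)]
    have hu0 : 0 < u := by linarith
    have h2 : u ^ 6 ≤ (2 * u - 1) ^ 2 := by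
      calc u ^ 6 = (u ^ 3) ^ 2 := by ring
        _ ≤ (2 * u - 1) ^ 2 := pow_le_pow_left₀ (by positivity) h1 2
    have h3 : u ^ k < u ^ 6 := pow_lt_pow_right_of_lt_one₀ hu0 h (by omega)
    have h4 : u ^ 2 - u + 1 ≤ 1 := by nlinarith
    have h5 : 0 < u ^ 2 - u + 1 := by nlinarith
    have h6 : 0 < u ^ k := by positivity
    nlinarith
  · subst h
    have h1 : Q ℝ k = (Q ℤ k).map (Int.castRingHom ℝ) := (Q_map _ _).symm
    rw [h1, eval_one_map, Q_eval_one k (by omega)]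
    have : (9:ℝ) ≤ k := by exact_mod_cast hk
    simp only [map_sub, map_natCast, map_ofNat]
    intro h; linarith
  · exact (Q_pos_of_gt k (by omega) u h).ne'

/-- Rouche: the roots in the disc of radius `r` are the two positive ones -/
lemma small_roots (a : ℕ) (ha : 2 ≤ a) (r : ℝ) (hr : 3/4 < r) (hr1 : r < 1)
    (hrk : 3 * r ^ (3 ^ a) < (2 * r - 1) ^ 2) (u1 u2 : ℝ) (h1 : 0 < u1) (h1' : u1 < 1/2) (h2 : 1/2 < u2)
    (h2' : u2 < 3/4) (hu1 : (Q ℝ (3 ^ a)).eval u1 = 0) (hu2 : (Q ℝ (3 ^ a)).eval u2 = 0)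
    (z : ℂ) (hz : z ∈ RQ (3 ^ a)) (hzr : ‖z‖ < r) : z = u1 ∨ z = u2 := by
  classical
  have hk9 := (pow3_facts a ha).2.1
  set k := 3 ^ a with hk
  have hr0 : 0 < r := by linarith
  set f : ℂ[X] := (2 * X - 1) ^ 2 with hf
  have hg : (1 - X) * Q ℂ k = (2 * X - 1) ^ 2 - X ^ k * (X ^ 2 - X + 1) := by
    have := key (R := ℂ) k (by omega)
    linear_combination -this
  have hR := rouche (f := f) (g := (1 - X) * Q ℂ k) hr0 (by
    intro w hw
    rw [hg, hf]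
    have e : eval w ((2 * X - 1) ^ 2 : ℂ[X]) - eval w ((2 * X - 1) ^ 2 - X ^ k * (X ^ 2 - X + 1) : ℂ[X])
        = w ^ k * (w ^ 2 - w + 1) := by simp
    have e2 : eval w ((2 * X - 1) ^ 2 : ℂ[X]) = (2 * w - 1) ^ 2 := by simp
    rw [e, e2, norm_mul, norm_pow, norm_pow, hw]
    have e3 : ‖w ^ 2 - w + 1‖ ≤ 3 := by
      calc ‖w ^ 2 - w + 1‖ ≤ ‖w ^ 2 - w‖ + ‖(1:ℂ)‖ := norm_add_le _ _
        _ ≤ ‖w ^ 2‖ + ‖w‖ + ‖(1:ℂ)‖ := by gcongr; exact norm_sub_le _ _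
        _ ≤ 3 := by rw [norm_pow, hw, norm_one]; nlinarith
    have e4 : 2 * r - 1 ≤ ‖2 * w - 1‖ := by
      have := norm_sub_norm_le (2 * w) 1
      rw [norm_mul, hw, norm_one] at this
      simpa using this
    have e5 : (2 * r - 1) ^ 2 ≤ ‖2 * w - 1‖ ^ 2 := pow_le_pow_left₀ (by linarith) e4 2
    have e6 : r ^ k * ‖w ^ 2 - w + 1‖ ≤ r ^ k * 3 := mul_le_mul_of_nonneg_left e3 (by positivity)
    linarith)
  have hnf : nz r f = 2 := by
    have : f = C 4 * (X - C (1/2)) ^ 2 := by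
      rw [hf]
      have e : (2 * X - 1 : ℂ[X]) = C 2 * (X - C (1/2)) := by
        rw [mul_sub, ← C_mul, map_ofNat]; norm_num
      rw [e, mul_pow, ← C_pow]; norm_num
    unfold nz
    rw [this, roots_C_mul _ (by norm_num), roots_pow, roots_X_sub_C]
    have h5 : ‖(1/2 : ℂ)‖ < r := by
      have : ‖(1/2 : ℂ)‖ = 1/2 := by norm_num
      rw [this]; linarith
    rw [two_nsmul, Multiset.filter_add, Multiset.filter_singleton, if_pos h5]
    rfl
  have hng : nz r ((1 - X) * Q ℂ k) = (Multiset.filter (fun z : ℂ => ‖z‖ < r) (Q ℂ k).roots).card := by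
    have e : (1 - X : ℂ[X]) = C (-1) * (X - C 1) := by simp
    have hne : (C (-1) * (X - C 1) * Q ℂ k : ℂ[X]) ≠ 0 := by
      apply mul_ne_zero
      · apply mul_ne_zero
        · simp
        · exact X_sub_C_ne_zero _
      · exact (Q_monic k (by omega)).ne_zero
    unfold nz
    rw [e, roots_mul hne, roots_C_mul _ (by norm_num), roots_X_sub_C, Multiset.filter_add,
      Multiset.filter_singleton, if_neg (by rw [norm_one]; linarith)]
    simp
  rw [hnf, hng] at hR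
  by_contra hcon
  push Not at hcon
  have hmem : ∀ u : ℝ, 0 < u → u < 3/4 → (Q ℝ k).eval u = 0 →
      (u : ℂ) ∈ Multiset.filter (fun z : ℂ => ‖z‖ < r) (Q ℂ k).roots := by
    intro u hu0 hu1 hu2
    rw [Multiset.mem_filter, mem_roots (Q_monic k (by omega)).ne_zero, IsRoot.def, real_root, hu2]
    refine ⟨by simp, ?_⟩
    rw [Complex.norm_real, Real.norm_of_nonneg hu0.le]; linarith
  have hz' : z ∈ Multiset.filter (fun z : ℂ => ‖z‖ < r) (Q ℂ k).roots := by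
    rw [Multiset.mem_filter]
    exact ⟨Multiset.mem_toFinset.mp hz, hzr⟩
  have hsub : ({(u1 : ℂ), (u2 : ℂ), z} : Finset ℂ) ⊆
      (Multiset.filter (fun z : ℂ => ‖z‖ < r) (Q ℂ k).roots).toFinset := by
    intro w hw
    rw [Multiset.mem_toFinset]
    simp only [mem_insert, mem_singleton] at hw
    rcases hw with rfl | rfl | rfl
    · exact hmem u1 h1 (by linarith) hu1
    · exact hmem u2 (by linarith) h2' hu2
    · exact hz'
  have hc := (card_le_card hsub).trans (Multiset.toFinset_card_le _)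
  have hne12 : (u1 : ℂ) ≠ u2 := by
    intro h; have : u1 = u2 := by exact_mod_cast h
    linarith
  rw [card_insert_of_notMem, card_insert_of_notMem, card_singleton, ← hR] at hc
  · omega
  · rw [mem_singleton]; exact fun h => hcon.2 h.symm
  · simp only [mem_insert, mem_singleton, not_or]
    exact ⟨hne12, fun h => hcon.1 h.symm⟩

/-- roots are not far outside the unit circle -/
lemma large_roots (k : ℕ) (hk : 2 ≤ k) (c : ℝ) (hc : 0 < c) (hck : 4 + 4 / c ≤ (1 + c) ^ k)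
    (z : ℂ) (hz : z ∈ RQ k) : ‖z‖ ≤ 1 + c := by
  by_contra hcon
  push Not at hcon
  set ρ : ℝ := ‖z‖ - 1 with hρ
  have hρc : c < ρ := by linarith
  have hρ0 : 0 < ρ := by linarith
  have hz0 := (mem_RQ k hk z).mp hz
  have hkey := key_eval (S := ℂ) k hk z
  rw [hz0, mul_zero] at hkey
  set w : ℂ := z ^ 2 - z + 1 with hw
  -- factorisation
  set ω : ℂ := ⟨1/2, Real.sqrt 3 / 2⟩ with hω
  set ω' : ℂ := ⟨1/2, -(Real.sqrt 3 / 2)⟩ with hω'
  have hs3 : Real.sqrt 3 ^ 2 = 3 := Real.sq_sqrt (by norm_num)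
  have hsum : ω + ω' = 1 := by apply Complex.ext <;> simp [hω, hω']; norm_num
  have hprod : ω * ω' = 1 := by
    apply Complex.ext
    · simp only [hω, hω', Complex.mul_re, Complex.one_re]; nlinarith
    · simp only [hω, hω', Complex.mul_im, Complex.one_im]; ring
  have hwf : w = (z - ω) * (z - ω') := by
    rw [hw]; linear_combination z * hsum - hprod
  have hnω : ‖ω‖ = 1 := by
    have : ‖ω‖ ^ 2 = 1 := by
      rw [← Complex.normSq_eq_norm_sq, hω, Complex.normSq_mk]; nlinarith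
    nlinarith [norm_nonneg ω]
  have hnω' : ‖ω'‖ = 1 := by
    have : ‖ω'‖ ^ 2 = 1 := by
      rw [← Complex.normSq_eq_norm_sq, hω', Complex.normSq_mk]; nlinarith
    nlinarith [norm_nonneg ω']
  have h1 : ρ ≤ ‖z - ω‖ := by
    have := norm_sub_norm_le z ω
    rw [hnω] at this; exact this
  have h2 : ρ ≤ ‖z - ω'‖ := by
    have := norm_sub_norm_le z ω'
    rw [hnω'] at this; exact this
  have h3 : 3/2 ≤ ‖z - ω‖ + ‖z - ω'‖ := by
    have h4 : ‖ω - ω'‖ ≤ ‖z - ω'‖ + ‖z - ω‖ := by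
      have : ω - ω' = (z - ω') - (z - ω) := by ring
      rw [this]; exact norm_sub_le _ _
    have h5 : Real.sqrt 3 ≤ ‖ω - ω'‖ := by
      have h6 := Complex.abs_im_le_norm (ω - ω')
      have h7 : (ω - ω').im = Real.sqrt 3 := by simp [hω, hω']
      rw [h7] at h6
      exact (le_abs_self _).trans h6
    have h8 : (3/2 : ℝ) ≤ Real.sqrt 3 := by
      by_contra hlt
      push Not at hlt
      nlinarith [Real.sqrt_nonneg 3]
    linarith
  have hwn : 3/4 * ρ ≤ ‖w‖ := by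
    rw [hwf, norm_mul]
    rcases le_total ‖z - ω‖ ‖z - ω'‖ with h | h
    · have : 3/4 ≤ ‖z - ω'‖ := by linarith
      nlinarith
    · have : 3/4 ≤ ‖z - ω‖ := by linarith
      nlinarith
  have hw0 : 0 < ‖w‖ := by nlinarith
  have h9 : ‖z‖ ^ k * ‖w‖ ≤ 4 * ‖w‖ + 3 := by
    have e1 : z ^ k * w = 4 * w - 3 := by
      rw [hw]; linear_combination -hkey
    have e2 := congrArg norm e1
    rw [norm_mul, norm_pow] at e2
    rw [e2]
    calc ‖4 * w - 3‖ ≤ ‖4 * w‖ + ‖(3:ℂ)‖ := norm_sub_le _ _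
      _ = 4 * ‖w‖ + 3 := by rw [norm_mul]; norm_num
  have h10 : ‖z‖ ^ k ≤ 4 + 3 / ‖w‖ := by
    have : ‖z‖ ^ k * ‖w‖ ≤ (4 + 3 / ‖w‖) * ‖w‖ := by
      have e : (4 + 3 / ‖w‖) * ‖w‖ = 4 * ‖w‖ + 3 := by field_simp
      rw [e]; exact h9
    exact le_of_mul_le_mul_right this hw0
  have h11 : 3 / ‖w‖ ≤ 4 / ρ := by
    rw [div_le_div_iff₀ hw0 hρ0]; linarith
  have h12 : 4 / ρ < 4 / c := by
    apply div_lt_div_of_pos_left (by norm_num) hc hρc
  have h13 : (1 + c) ^ k ≤ ‖z‖ ^ k := pow_le_pow_left₀ (by linarith) hcon.le k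
  linarith

end Pool.Agent.X119.SqSize
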