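import Mathlib

set_option autoImplicit false

/-! Functions with values `±1` close to a sum of independent functions: OR and AND structure. -/

namespace Pool.Agent.X119.BlockOr

open MeasureTheory ProbabilityTheory
open scoped ENNReal

/-! ### Two independent integer variables with sum in `{0,1}` -/

lemma two_val {Ω : Type*} [MeasurableSpace Ω] (P : Measure Ω) [IsProbabilityMeasure P]
    (V U : Ω → ℤ) (hV : Measurable V) (hU : Measurable U) (hind : IndepFun V U P) (η : ℝ)
    (h : P.real {ω | ¬ (V ω + U ω = 0 ∨ V ω + U ω = 1)} ≤ η)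
    (hmax : ∀ u, P.real {ω | U ω = u} < 9 / 10) : ∃ v, P.real {ω | V ω ≠ v} ≤ 20 * η := by
  classical
  set r : ℤ → ℝ := fun v => P.real {ω | ¬ (v + U ω = 0 ∨ v + U ω = 1)} with hr
  have hms : ∀ v : ℤ, MeasurableSet {ω | ¬ (v + U ω = 0 ∨ v + U ω = 1)} := by
    intro v
    exact hU (MeasurableSet.of_discrete (s := {u : ℤ | ¬ (v + u = 0 ∨ v + u = 1)}))
  -- two good values are impossible
  have htwo : ∀ v v' : ℤ, v ≠ v' → r v ≤ 1 / 20 → 1 / 20 < r v' := by
    intro v v' hne h1
    by_contra h2
    push Not at h2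
    have hsub : (Set.univ : Set Ω) ⊆ ({ω | ¬ (v + U ω = 0 ∨ v + U ω = 1)} ∪
        {ω | ¬ (v' + U ω = 0 ∨ v' + U ω = 1)}) ∪ {ω | U ω = - min v v'} := by
      intro ω _
      simp only [Set.mem_union, Set.mem_setOf_eq]
      by_cases c1 : v + U ω = 0 ∨ v + U ω = 1
      · by_cases c2 : v' + U ω = 0 ∨ v' + U ω = 1
        · right
          rcases le_total v v' with h | h
          · rw [min_eq_left h]; omega
          · rw [min_eq_right h]; omega
        · left; right; exact c2
      · left; left; exact c1
    have h3 : P.real (Set.univ : Set Ω) ≤ P.real {ω | ¬ (v + U ω = 0 ∨ v + U ω = 1)} +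
        P.real {ω | ¬ (v' + U ω = 0 ∨ v' + U ω = 1)} + P.real {ω | U ω = - min v v'} := by
      refine (measureReal_mono hsub).trans ?_
      refine (measureReal_union_le _ _).trans ?_
      gcongr
      exact measureReal_union_le _ _
    rw [probReal_univ] at h3
    have h4 := hmax (- min v v')
    simp only [hr] at h1 h2
    linarith
  obtain ⟨v0, hv0⟩ : ∃ v0 : ℤ, ∀ v, v ≠ v0 → 1 / 20 < r v := by
    by_cases hex : ∃ v0, r v0 ≤ 1 / 20
    · obtain ⟨v0, h0⟩ := hex
      exact ⟨v0, fun v hv => htwo v0 v hv.symm h0⟩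
    · push Not at hex
      exact ⟨0, fun v _ => hex v⟩
  refine ⟨v0, ?_⟩
  set S : Set (ℤ × ℤ) := {p | ¬ (p.1 + p.2 = 0 ∨ p.1 + p.2 = 1)} with hS
  have hSm : MeasurableSet S := MeasurableSet.of_discrete
  have hmap : P.map (fun ω => (V ω, U ω)) = (P.map V).prod (P.map U) :=
    (indepFun_iff_map_prod_eq_prod_map_map hV.aemeasurable hU.aemeasurable).mp hind
  have hPV : IsProbabilityMeasure (P.map V) := Measure.isProbabilityMeasure_map hV.aemeasurable
  have hPU : IsProbabilityMeasure (P.map U) := Measure.isProbabilityMeasure_map hU.aemeasurable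
  have h1 : P {ω | ¬ (V ω + U ω = 0 ∨ V ω + U ω = 1)} = ∫⁻ v, (P.map U) (Prod.mk v ⁻¹' S) ∂(P.map V) := by
    rw [← Measure.prod_apply hSm, ← hmap, Measure.map_apply (hV.prodMk hU) hSm]
    rfl
  have h2 : ENNReal.ofReal (1 / 20) * P {ω | V ω ≠ v0} ≤
      ∫⁻ v, (P.map U) (Prod.mk v ⁻¹' S) ∂(P.map V) := by
    have hset : MeasurableSet {v : ℤ | v ≠ v0} := MeasurableSet.of_discrete
    have h3 : P {ω | V ω ≠ v0} = (P.map V) {v : ℤ | v ≠ v0} := by
      rw [Measure.map_apply hV hset]; rfl
    rw [h3, ← setLIntegral_const]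
    refine (setLIntegral_mono' hset ?_).trans (setLIntegral_le_lintegral _ _)
    intro v hv
    have h4 := (hv0 v hv).le
    rw [Measure.map_apply hU MeasurableSet.of_discrete]
    refine (ENNReal.ofReal_le_ofReal h4).trans (le_of_eq ?_)
    simp only [hr]
    rw [ofReal_measureReal]
    rfl
  rw [← h1] at h2
  have h5 := ENNReal.toReal_mono (measure_ne_top _ _) h2
  rw [ENNReal.toReal_mul, ENNReal.toReal_ofReal (by norm_num)] at h5
  change 1 / 20 * P.real _ ≤ P.real _ at h5
  linarith

/-! ### Products of probability spaces -/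

variable {ι : Type*} [Fintype ι] {Ω : ι → Type*} [∀ i, MeasurableSpace (Ω i)]
  [∀ i, Finite (Ω i)] [∀ i, MeasurableSingletonClass (Ω i)] (μ : ∀ i, Measure (Ω i))
  [∀ i, IsProbabilityMeasure (μ i)]

omit [Fintype ι] in
lemma prod_ge (w : ι → ℝ) (s : Finset ι) (h0 : ∀ i, 0 ≤ w i) (h1 : ∀ i, w i ≤ 1) :
    1 - ∑ i ∈ s, (1 - w i) ≤ ∏ i ∈ s, w i := by
  classical
  induction s using Finset.induction_on with
  | empty => simp
  | insert a s ha ih =>
    rw [Finset.sum_insert ha, Finset.prod_insert ha]
    have hp1 : ∏ i ∈ s, w i ≤ 1 := Finset.prod_le_one (fun i _ => h0 i) (fun i _ => h1 i)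
    have hp0 : 0 ≤ ∏ i ∈ s, w i := Finset.prod_nonneg (fun i _ => h0 i)
    nlinarith [h0 a, h1 a]

/-- the case of small deviations and base point zero -/
lemma caseII (k : ∀ i, Ω i → ℤ) (b : ι → ℤ) (t : ℤ) (η : ℝ) (hB : t + ∑ i, b i = 0)
    (h : (Measure.pi μ).real {y | ¬ (t + ∑ i, k i (y i) = 0 ∨ t + ∑ i, k i (y i) = 1)} ≤ η)
    (hp : ∑ i, (1 - (μ i).real {y | k i y = b i}) ≤ 61 / 100) :
    ∃ h : ∀ i, Ω i → Bool, (Measure.pi μ).real
      {y | ¬ ((t + ∑ i, k i (y i) = 1) ↔ ∃ i, h i (y i) = true)} ≤ 4 * η := by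
  classical
  refine ⟨fun i y => decide (k i y = b i + 1), ?_⟩
  set P := Measure.pi μ with hP
  have hPprob : IsProbabilityMeasure P := by rw [hP]; infer_instance
  set s : ∀ i, Set (Ω i) := fun i => {y | ¬ (k i y = b i ∨ k i y = b i + 1)} with hs
  set bad : Set (∀ i, Ω i) := {y | ¬ (t + ∑ i, k i (y i) = 0 ∨ t + ∑ i, k i (y i) = 1)} with hbad
  have hη : 0 ≤ η := measureReal_nonneg.trans h
  -- boxes
  set box : ι → Set (∀ i, Ω i) := fun j => Set.univ.pi (fun i => if i = j then s i else {y | k i y = b i}) with hbox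
  have hboxbad : ∀ j, box j ⊆ bad := by
    intro j y hy
    simp only [hbox, Set.mem_univ_pi] at hy
    have hj := hy j
    rw [if_pos rfl] at hj
    simp only [hs, Set.mem_setOf_eq] at hj
    have hsum : t + ∑ i, k i (y i) = k j (y j) - b j := by
      have h1 : ∑ i, k i (y i) = k j (y j) + ∑ i ∈ Finset.univ.erase j, k i (y i) :=
        (Finset.add_sum_erase _ _ (Finset.mem_univ j)).symm
      have h2 : ∑ i, b i = b j + ∑ i ∈ Finset.univ.erase j, b i :=
        (Finset.add_sum_erase _ _ (Finset.mem_univ j)).symm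
      have h3 : ∑ i ∈ Finset.univ.erase j, k i (y i) = ∑ i ∈ Finset.univ.erase j, b i := by
        refine Finset.sum_congr rfl fun i hi => ?_
        have := hy i
        rw [if_neg (Finset.ne_of_mem_erase hi)] at this
        exact this
      rw [h1, h3]
      rw [h2] at hB
      linarith
    simp only [hbad, Set.mem_setOf_eq]
    rw [hsum]
    omega
  have hdisj : Pairwise (Function.onFun Disjoint box) := by
    intro j j' hne
    rw [Function.onFun, Set.disjoint_left]
    intro y hy hy'
    simp only [hbox, Set.mem_univ_pi] at hy hy'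
    have h1 := hy j
    have h2 := hy' j
    rw [if_pos rfl] at h1
    rw [if_neg hne] at h2
    simp only [hs, Set.mem_setOf_eq] at h1 h2
    exact h1 (Or.inl h2)
  have hmeas : ∀ A : Set (∀ i, Ω i), MeasurableSet A := fun A => MeasurableSet.of_discrete
  have hboxP : ∀ j, 39 / 100 * (μ j).real (s j) ≤ P.real (box j) := by
    intro j
    have h1 : P.real (box j) = (μ j).real (s j) * ∏ i ∈ Finset.univ.erase j, (μ i).real {y | k i y = b i} := by
      rw [hP, measureReal_def, hbox]
      simp only
      rw [Measure.pi_pi, ENNReal.toReal_prod, ← Finset.mul_prod_erase _ _ (Finset.mem_univ j), if_pos rfl]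
      congr 1
      refine Finset.prod_congr rfl fun i hi => ?_
      rw [if_neg (Finset.ne_of_mem_erase hi)]
      rfl
    have h2 := prod_ge (fun i => (μ i).real {y | k i y = b i}) (Finset.univ.erase j)
      (fun i => measureReal_nonneg) (fun i => measureReal_le_one)
    have h3 : ∑ i ∈ Finset.univ.erase j, (1 - (μ i).real {y | k i y = b i}) ≤
        ∑ i, (1 - (μ i).real {y | k i y = b i}) :=
      Finset.sum_le_sum_of_subset_of_nonneg (Finset.erase_subset _ _)
        (fun i _ _ => sub_nonneg.mpr measureReal_le_one)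
    have h4 : (39 / 100 : ℝ) ≤ ∏ i ∈ Finset.univ.erase j, (μ i).real {y | k i y = b i} := by linarith
    rw [h1, mul_comm]
    exact mul_le_mul_of_nonneg_left h4 measureReal_nonneg
  have hsum : ∑ j, P.real (box j) ≤ η := by
    refine le_trans ?_ h
    have h1 : P.real (⋃ j ∈ (Finset.univ : Finset ι), box j) = ∑ j, P.real (box j) := by
      rw [measureReal_biUnion_finset (fun i _ j _ hij => hdisj hij) (fun j _ => hmeas _)]
    rw [← h1]
    refine measureReal_mono ?_
    intro y hy
    simp only [Set.mem_iUnion] at hy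
    obtain ⟨j, _, hj⟩ := hy
    exact hboxbad j hj
  have hssum : ∑ j, (μ j).real (s j) ≤ 100 / 39 * η := by
    have h1 : 39 / 100 * ∑ j, (μ j).real (s j) ≤ ∑ j, P.real (box j) := by
      rw [Finset.mul_sum]
      exact Finset.sum_le_sum fun j _ => hboxP j
    linarith
  have hsub : {y : ∀ i, Ω i | ¬ ((t + ∑ i, k i (y i) = 1) ↔ ∃ i, decide (k i (y i) = b i + 1) = true)} ⊆
      bad ∪ ⋃ j ∈ (Finset.univ : Finset ι), (fun y : ∀ i, Ω i => y j) ⁻¹' (s j) := by
    intro y hy
    simp only [Set.mem_setOf_eq] at hy
    by_contra hcon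
    have hc1 : t + ∑ i, k i (y i) = 0 ∨ t + ∑ i, k i (y i) = 1 := by
      by_contra h
      exact hcon (Or.inl h)
    have hc2' : ∀ j, k j (y j) = b j ∨ k j (y j) = b j + 1 := by
      intro j
      by_contra h
      exact hcon (Or.inr (Set.mem_biUnion (Finset.mem_univ j) h))
    apply hy
    have hK : t + ∑ i, k i (y i) = ∑ i, (k i (y i) - b i) := by
      rw [Finset.sum_sub_distrib]; linarith
    constructor
    · intro h1
      by_contra hno
      push Not at hno
      have : ∑ i, (k i (y i) - b i) = 0 := by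
        apply Finset.sum_eq_zero
        intro i _
        have h2 := hno i
        rw [ne_eq, decide_eq_true_eq] at h2
        rcases hc2' i with h3 | h3
        · omega
        · exact absurd h3 h2
      omega
    · rintro ⟨i, hi⟩
      rw [decide_eq_true_eq] at hi
      have h1 : k i (y i) - b i ≤ ∑ i, (k i (y i) - b i) :=
        Finset.single_le_sum (f := fun i => k i (y i) - b i)
          (fun j _ => by
            change (0:ℤ) ≤ k j (y j) - b j
            have := hc2' j
            omega) (Finset.mem_univ i)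
      rcases hc1 with h | h
      · omega
      · exact h
  refine (measureReal_mono hsub).trans ?_
  refine (measureReal_union_le _ _).trans ?_
  have h1 : P.real (⋃ j ∈ (Finset.univ : Finset ι), (fun y : ∀ i, Ω i => y j) ⁻¹' (s j)) ≤
      ∑ j, (μ j).real (s j) := by
    refine (measureReal_biUnion_finset_le _ _).trans (le_of_eq ?_)
    refine Finset.sum_congr rfl fun j _ => ?_
    rw [measureReal_def, measureReal_def]
    congr 1
    exact (measurePreserving_eval μ j).measure_preimage MeasurableSet.of_discrete.nullMeasurableSet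
  linarith

omit [Fintype ι] in
/-- an integer variable which is nearly constant has variance comparable with the deviation -/
lemma var_ge {Ω' : Type*} [MeasurableSpace Ω'] [Finite Ω'] [MeasurableSingletonClass Ω']
    (ν : Measure Ω') [IsProbabilityMeasure ν] (k : Ω' → ℤ) (b : ℤ)
    (hb : 9 / 10 ≤ ν.real {y | k y = b}) :
    4 / 9 * (1 - ν.real {y | k y = b}) ≤ Var[fun y => (k y : ℝ); ν] := by
  classical
  set m := ∫ y, (k y : ℝ) ∂ν with hm
  have hint : ∀ g : Ω' → ℝ, Integrable g ν := fun g => Integrable.of_finite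
  rw [variance_eq_integral Measurable.of_discrete.aemeasurable, ← hm]
  set A : Set Ω' := {y | k y = b} with hA
  have hAm : MeasurableSet A := MeasurableSet.of_discrete
  have hcompl : ν.real Aᶜ = 1 - ν.real A := by
    rw [measureReal_compl hAm, probReal_univ]
  rcases le_or_gt |m - b| (1 / 3) with h | h
  · have h1 : ∀ y, 4 / 9 * Set.indicator Aᶜ (fun _ => (1:ℝ)) y ≤ ((k y : ℝ) - m) ^ 2 := by
      intro y
      by_cases hy : y ∈ A
      · rw [Set.indicator_of_notMem (by simpa using hy)]
        nlinarith [sq_nonneg ((k y : ℝ) - m)]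
      · rw [Set.indicator_of_mem (by simpa using hy)]
        have h2 : (1:ℝ) ≤ |(k y : ℝ) - b| := by
          have : k y ≠ b := hy
          have h3 : 1 ≤ |k y - b| := Int.one_le_abs (sub_ne_zero.mpr this)
          have h4 : ((1:ℤ):ℝ) ≤ ((|k y - b| : ℤ) : ℝ) := by exact_mod_cast h3
          push_cast at h4
          exact h4
        have h3 : 2 / 3 ≤ |(k y : ℝ) - m| := by
          have := abs_sub_le (k y : ℝ) m b
          linarith
        rw [← sq_abs]
        nlinarith [abs_nonneg ((k y : ℝ) - m)]
    have h2 := integral_mono (hint _) (hint _) h1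
    rw [integral_const_mul, integral_indicator_const _ hAm.compl, smul_eq_mul, mul_one, hcompl] at h2
    exact h2
  · have h1 : ∀ y, 1 / 9 * Set.indicator A (fun _ => (1:ℝ)) y ≤ ((k y : ℝ) - m) ^ 2 := by
      intro y
      by_cases hy : y ∈ A
      · rw [Set.indicator_of_mem hy]
        have hk : k y = b := hy
        rw [hk, ← sq_abs, abs_sub_comm]
        nlinarith [abs_nonneg (m - (b:ℝ))]
      · rw [Set.indicator_of_notMem hy]
        nlinarith [sq_nonneg ((k y : ℝ) - m)]
    have h2 := integral_mono (hint _) (hint _) h1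
    rw [integral_const_mul, integral_indicator_const _ hAm, smul_eq_mul, mul_one] at h2
    linarith

/-- independent integer variables with a sum mostly in `{0,1}` -/
theorem int_part (k : ∀ i, Ω i → ℤ) (t : ℤ) (η : ℝ) (hη : η ≤ 1 / 1000)
    (h : (Measure.pi μ).real {y | ¬ (t + ∑ i, k i (y i) = 0 ∨ t + ∑ i, k i (y i) = 1)} ≤ η)
    (hvar : ∑ i, Var[fun y => (k i y : ℝ); μ i] ≤ 27 / 100) :
    ∃ h : ∀ i, Ω i → Bool, (Measure.pi μ).real
      {y | ¬ ((t + ∑ i, k i (y i) = 1) ↔ ∃ i, h i (y i) = true)} ≤ 20 * η ∨
      (Measure.pi μ).real {y | ¬ ((t + ∑ i, k i (y i) = 1) ↔ ∀ i, h i (y i) = true)} ≤ 20 * η := by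
  classical
  set P := Measure.pi μ with hP
  have hPprob : IsProbabilityMeasure P := by rw [hP]; infer_instance
  have hη0 : 0 ≤ η := measureReal_nonneg.trans h
  by_cases hc : ∃ j, ∀ u, (μ j).real {y | k j y = u} < 9 / 10
  · -- one spread out variable
    obtain ⟨j, hj⟩ := hc
    set U : (∀ i, Ω i) → ℤ := fun y => k j (y j) with hU
    set V : (∀ i, Ω i) → ℤ := fun y => t + ∑ i ∈ Finset.univ.erase j, k i (y i) with hV
    have hUV : ∀ y, V y + U y = t + ∑ i, k i (y i) := by
      intro y
      simp only [hU, hV]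
      rw [← Finset.add_sum_erase _ (fun i => k i (y i)) (Finset.mem_univ j)]
      ring
    have hindep : iIndepFun (fun (i : ι) (y : ∀ i, Ω i) => k i (y i)) P :=
      iIndepFun_pi (fun i => Measurable.of_discrete.aemeasurable)
    have h1 := hindep.indepFun_finsetSum_of_notMem (fun i => Measurable.of_discrete)
      (s := Finset.univ.erase j) (i := j) (Finset.notMem_erase j _)
    have h2 : IndepFun V U P := by
      have h3 := h1.comp (φ := fun x : ℤ => t + x) (ψ := id) Measurable.of_discrete measurable_id
      convert h3 using 1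
      · funext y
        simp [hV, Finset.sum_apply]
      · rfl
    obtain ⟨v, hv⟩ := two_val P V U Measurable.of_discrete Measurable.of_discrete h2 η
      (by simp only [hUV]; exact h) (by
        intro u
        have h3 : P.real {y | U y = u} = (μ j).real {y | k j y = u} := by
          rw [measureReal_def, measureReal_def]
          congr 1
          exact (measurePreserving_eval μ j).measure_preimage
            (MeasurableSet.of_discrete (s := {y | k j y = u})).nullMeasurableSet
        rw [h3]
        exact hj u)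
    refine ⟨fun i y => if i = j then decide (k i y + v = 1) else false, Or.inl ?_⟩
    refine (measureReal_mono ?_).trans hv
    intro y hy hVv
    apply hy
    rw [← hUV y, hVv]
    constructor
    · intro h3
      refine ⟨j, ?_⟩
      change (if j = j then decide (k j (y j) + v = 1) else false) = true
      rw [if_pos rfl, decide_eq_true_eq]
      simp only [hU] at h3
      omega
    · rintro ⟨i, hi⟩
      change (if i = j then decide (k i (y i) + v = 1) else false) = true at hi
      by_cases hij : i = j
      · subst hij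
        rw [if_pos rfl, decide_eq_true_eq] at hi
        simp only [hU]
        omega
      · rw [if_neg hij] at hi
        exact absurd hi (by simp)
  · push Not at hc
    choose b hb using hc
    have hp : ∑ i, (1 - (μ i).real {y | k i y = b i}) ≤ 61 / 100 := by
      have h1 : ∑ i, 4 / 9 * (1 - (μ i).real {y | k i y = b i}) ≤
          ∑ i, Var[fun y => (k i y : ℝ); μ i] :=
        Finset.sum_le_sum fun i _ => var_ge (μ i) (k i) (b i) (hb i)
      rw [← Finset.mul_sum] at h1
      linarith
    -- the base point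
    have hbase : t + ∑ i, b i = 0 ∨ t + ∑ i, b i = 1 := by
      by_contra hcon
      have hsub : (Set.univ.pi (fun i => {y | k i y = b i}) : Set (∀ i, Ω i)) ⊆
          {y | ¬ (t + ∑ i, k i (y i) = 0 ∨ t + ∑ i, k i (y i) = 1)} := by
        intro y hy
        rw [Set.mem_univ_pi] at hy
        have h3 : ∑ i, k i (y i) = ∑ i, b i := Finset.sum_congr rfl fun i _ => hy i
        rw [Set.mem_setOf_eq, h3]
        exact hcon
      have h1 := (measureReal_mono (μ := P) hsub).trans h
      have h2 : P.real (Set.univ.pi (fun i => {y | k i y = b i})) = ∏ i, (μ i).real {y | k i y = b i} := by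
        rw [hP, measureReal_def, Measure.pi_pi, ENNReal.toReal_prod]
        rfl
      have h3 := prod_ge (fun i => (μ i).real {y | k i y = b i}) Finset.univ
        (fun i => measureReal_nonneg) (fun i => measureReal_le_one)
      rw [h2] at h1
      linarith
    rcases hbase with hB | hB
    · obtain ⟨g, hg⟩ := caseII μ k b t η hB h hp
      exact ⟨g, Or.inl (by linarith)⟩
    · obtain ⟨g, hg⟩ := caseII μ (fun i y => - k i y) (fun i => - b i) (1 - t) η
        (by rw [Finset.sum_neg_distrib]; linarith)
        (by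
          convert h using 4 with y
          rw [Finset.sum_neg_distrib]
          omega)
        (by
          convert hp using 6
          rw [neg_inj])
      refine ⟨fun i y => ! g i y, Or.inr ?_⟩
      have hsub : {y : ∀ i, Ω i | ¬ ((t + ∑ i, k i (y i) = 1) ↔ ∀ i, (! g i (y i)) = true)} ⊆
          {y | ¬ (t + ∑ i, k i (y i) = 0 ∨ t + ∑ i, k i (y i) = 1)} ∪
          {y | ¬ ((1 - t + ∑ i, - k i (y i) = 1) ↔ ∃ i, g i (y i) = true)} := by
        intro y hy
        by_contra hcon
        rw [Set.mem_union, not_or, Set.mem_setOf_eq, Set.mem_setOf_eq, not_not, not_not] at hcon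
        obtain ⟨hc1, hc2⟩ := hcon
        apply hy
        rw [Finset.sum_neg_distrib] at hc2
        have h3 : (t + ∑ i, k i (y i) = 1) ↔ ¬ (1 - t + -∑ i, k i (y i) = 1) := by omega
        rw [h3, hc2]
        push Not
        refine forall_congr' fun i => ?_
        cases g i (y i) <;> simp
      refine (measureReal_mono hsub).trans ((measureReal_union_le _ _).trans ?_)
      linarith

end Pool.Agent.X119.BlockOr
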