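import Mathlib
import Pool.Agent.X119.BlockOr

set_option autoImplicit false

/-! Functions with values `±1` close to a sum of independent functions: the main theorem. -/

namespace Pool.Agent.X119.BlockOr

open MeasureTheory ProbabilityTheory
open scoped ENNReal

/-- rounding of one function -/
lemma one_fun {Ω' : Type*} [MeasurableSpace Ω'] [Finite Ω'] [MeasurableSingletonClass Ω']
    (ν : Measure Ω') [IsProbabilityMeasure ν] (F : Ω' → ℝ) :
    ∃ (a : ℝ) (k : Ω' → ℤ), ∫ y, (F y - a - 2 * k y) ^ 2 ∂ν ≤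
      (1 - ‖∫ y, Complex.exp ((Real.pi * F y : ℝ) * Complex.I) ∂ν‖) / 2 := by
  have hint : ∀ g : Ω' → ℂ, Integrable g ν := fun g => Integrable.of_finite
  have hintr : ∀ g : Ω' → ℝ, Integrable g ν := fun g => Integrable.of_finite
  set z := ∫ y, Complex.exp ((Real.pi * F y : ℝ) * Complex.I) ∂ν with hz
  set a := Complex.arg z / Real.pi with ha
  have hpa : Real.pi * a = Complex.arg z := by rw [ha]; field_simp
  set k : Ω' → ℤ := fun y => round ((F y - a) / 2) with hk
  refine ⟨a, k, ?_⟩
  -- the norm is an integral of a cosine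
  have h1 : ∫ y, Real.cos (Real.pi * (F y - a)) ∂ν = ‖z‖ := by
    have h2 : ∫ y, Complex.exp ((Real.pi * (F y - a) : ℝ) * Complex.I) ∂ν = ‖z‖ := by
      have h3 : ∀ y, Complex.exp ((Real.pi * (F y - a) : ℝ) * Complex.I) =
          Complex.exp (-(Complex.arg z * Complex.I)) * Complex.exp ((Real.pi * F y : ℝ) * Complex.I) := by
        intro y
        rw [← Complex.exp_add]
        congr 1
        rw [mul_sub, hpa]
        push_cast
        ring
      rw [integral_congr_ae (Filter.Eventually.of_forall h3), integral_const_mul, ← hz]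
      have h4 := Complex.norm_mul_exp_arg_mul_I z
      calc Complex.exp (-(Complex.arg z * Complex.I)) * z
          = Complex.exp (-(Complex.arg z * Complex.I)) * (‖z‖ * Complex.exp (Complex.arg z * Complex.I)) := by rw [h4]
        _ = ‖z‖ * (Complex.exp (-(Complex.arg z * Complex.I)) * Complex.exp (Complex.arg z * Complex.I)) := by ring
        _ = ‖z‖ := by rw [← Complex.exp_add, neg_add_cancel, Complex.exp_zero, mul_one]
    have h5 := integral_re (𝕜 := ℂ) (hint (fun y => Complex.exp ((Real.pi * (F y - a) : ℝ) * Complex.I)))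
    have h6 : ∫ y, Real.cos (Real.pi * (F y - a)) ∂ν =
        ∫ y, RCLike.re (Complex.exp ((Real.pi * (F y - a) : ℝ) * Complex.I)) ∂ν := by
      refine integral_congr_ae (Filter.Eventually.of_forall fun y => ?_)
      exact (Complex.exp_ofReal_mul_I_re _).symm
    rw [h6, h5, h2]
    exact Complex.ofReal_re _
  have h2 : ∀ y, Real.cos (Real.pi * (F y - a)) ≤ 1 - 2 * (F y - a - 2 * k y) ^ 2 := by
    intro y
    set e := F y - a - 2 * k y with he
    have h3 : Real.cos (Real.pi * (F y - a)) = Real.cos (Real.pi * e) := by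
      rw [show Real.pi * (F y - a) = Real.pi * e + k y * (2 * Real.pi) by rw [he]; ring,
        Real.cos_add_int_mul_two_pi]
    have h4 : |e| ≤ 1 := by
      have := abs_sub_round ((F y - a) / 2)
      rw [show e = 2 * ((F y - a) / 2 - round ((F y - a) / 2)) by rw [he, hk]; ring, abs_mul, abs_two]
      linarith
    have h5 := Real.cos_le_one_sub_mul_cos_sq (x := Real.pi * e) (by
      rw [abs_mul, abs_of_pos Real.pi_pos]
      nlinarith [Real.pi_pos, abs_nonneg e])
    rw [h3]
    refine h5.trans (le_of_eq ?_)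
    rw [mul_pow]
    field_simp
  have h3 := integral_mono (hintr _) (hintr _) h2
  rw [h1, integral_sub (hintr _) (hintr _), integral_const_mul, integral_const, probReal_univ,
    one_smul] at h3
  linarith

lemma sum_le_of_prod {ι : Type*} (s : Finset ι) (w : ι → ℝ) (h0 : ∀ i ∈ s, 0 ≤ w i) (δ : ℝ)
    (hδ0 : 0 ≤ δ) (hδ : δ ≤ 1 / 2) (h : 1 - δ ≤ ∏ i ∈ s, w i) : ∑ i ∈ s, (1 - w i) ≤ 2 * δ := by
  set S := ∑ i ∈ s, (1 - w i) with hS
  have h1 : ∏ i ∈ s, w i ≤ Real.exp (-S) := by
    rw [hS, ← Finset.sum_neg_distrib, Real.exp_sum]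
    refine Finset.prod_le_prod h0 fun i _ => ?_
    have := Real.add_one_le_exp (-(1 - w i))
    linarith
  have h2 : 1 - δ ≤ Real.exp (-S) := h.trans h1
  have h3 : Real.exp S ≤ 1 + 2 * δ := by
    have h4 : Real.exp S * Real.exp (-S) = 1 := by rw [← Real.exp_add]; simp
    have h5 : 0 < Real.exp S := Real.exp_pos S
    have h6 : Real.exp S * (1 - δ) ≤ 1 :=
      (mul_le_mul_of_nonneg_left h2 h5.le).trans (le_of_eq h4)
    have h7 : (1:ℝ) ≤ (1 + 2 * δ) * (1 - δ) := by nlinarith
    have h8 : 0 < 1 - δ := by linarith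
    exact le_of_mul_le_mul_right (h6.trans h7) h8
  have := Real.add_one_le_exp S
  linarith

variable {ι : Type*} [Fintype ι] {Ω : ι → Type*} [∀ i, MeasurableSpace (Ω i)]
  [∀ i, Finite (Ω i)] [∀ i, MeasurableSingletonClass (Ω i)] (μ : ∀ i, Measure (Ω i))
  [∀ i, IsProbabilityMeasure (μ i)]

theorem abstract_or (f : (∀ i, Ω i) → ℝ) (hf : ∀ y, f y = 1 ∨ f y = -1) (c : ℝ)
    (F : ∀ i, Ω i → ℝ) (ε : ℝ) (hε0 : 0 ≤ ε) (hε : ε ≤ 1 / 100000)
    (h : ∫ y, (f y - (c + ∑ i, F i (y i))) ^ 2 ∂(Measure.pi μ) ≤ ε) :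
    ∃ h : ∀ i, Ω i → Bool,
      (Measure.pi μ).real {y | ¬ (f y = 1 ↔ ∃ i, h i (y i) = true)} ≤ 300 * ε ∨
      (Measure.pi μ).real {y | ¬ (f y = 1 ↔ ∀ i, h i (y i) = true)} ≤ 300 * ε := by
  classical
  set P := Measure.pi μ with hP
  have hPprob : IsProbabilityMeasure P := by rw [hP]; infer_instance
  have hint : ∀ g : (∀ i, Ω i) → ℝ, Integrable g P := fun g => Integrable.of_finite
  have hintc : ∀ g : (∀ i, Ω i) → ℂ, Integrable g P := fun g => Integrable.of_finite
  set A : (∀ i, Ω i) → ℝ := fun y => c + ∑ i, F i (y i) with hA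
  have hpi : Real.pi ^ 2 ≤ 10 := by
    have h1 := Real.pi_lt_d2
    have h2 := Real.pi_pos
    nlinarith
  -- the characteristic function at π
  have hcos : ∀ y, Real.cos (Real.pi * A y) ≤ -1 + 5 * (f y - A y) ^ 2 := by
    intro y
    have h1 : Real.cos (Real.pi * (f y - A y)) = - Real.cos (Real.pi * A y) := by
      rcases hf y with h2 | h2
      · rw [h2, mul_sub, mul_one, Real.cos_pi_sub]
      · rw [h2, show Real.pi * (-1 - A y) = -(Real.pi + Real.pi * A y) by ring, Real.cos_neg,
          add_comm, Real.cos_add_pi]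
    have h2 := Real.one_sub_sq_div_two_le_cos (x := Real.pi * (f y - A y))
    rw [h1, mul_pow] at h2
    nlinarith [sq_nonneg (f y - A y)]
  set w : ι → ℝ := fun i => ‖∫ y, Complex.exp ((Real.pi * F i y : ℝ) * Complex.I) ∂(μ i)‖ with hw
  have hprod : 1 - 5 * ε ≤ ∏ i, w i := by
    set Z := ∫ y, Complex.exp ((Real.pi * A y : ℝ) * Complex.I) ∂P with hZ
    have h1 : ∫ y, Real.cos (Real.pi * A y) ∂P ≤ -1 + 5 * ε := by
      refine (integral_mono (hint _) (hint _) hcos).trans ?_
      rw [integral_add (hint _) (hint _), integral_const, probReal_univ, one_smul, integral_const_mul]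
      linarith
    have h2 : Z.re = ∫ y, Real.cos (Real.pi * A y) ∂P := by
      have h5 := integral_re (𝕜 := ℂ) (hintc (fun y => Complex.exp ((Real.pi * A y : ℝ) * Complex.I)))
      rw [← hZ] at h5
      rw [show Z.re = RCLike.re Z from rfl, ← h5]
      refine integral_congr_ae (Filter.Eventually.of_forall fun y => ?_)
      exact Complex.exp_ofReal_mul_I_re _
    have h3 : 1 - 5 * ε ≤ ‖Z‖ := by
      have := Complex.abs_re_le_norm Z
      have h4 := neg_abs_le Z.re
      rw [h2] at h4 this
      linarith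
    have h4 : Z = Complex.exp ((Real.pi * c : ℝ) * Complex.I) *
        ∏ i, ∫ y, Complex.exp ((Real.pi * F i y : ℝ) * Complex.I) ∂(μ i) := by
      rw [← integral_fintype_prod_eq_prod, ← integral_const_mul, hZ]
      refine integral_congr_ae (Filter.Eventually.of_forall fun y => ?_)
      simp only [hA]
      rw [← Complex.exp_sum, ← Complex.exp_add]
      congr 1
      rw [← Finset.sum_mul, ← add_mul]
      congr 1
      push_cast
      rw [mul_add, Finset.mul_sum]
    rw [h4, norm_mul, Complex.norm_exp_ofReal_mul_I, one_mul, norm_prod] at h3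
    exact h3
  have hw0 : ∀ i, 0 ≤ w i := fun i => norm_nonneg _
  have hwsum : ∑ i, (1 - w i) ≤ 10 * ε := by
    have := sum_le_of_prod Finset.univ w (fun i _ => hw0 i) (5 * ε) (by linarith) (by linarith) hprod
    linarith
  -- rounding
  have hround : ∀ i, ∃ (a : ℝ) (k : Ω i → ℤ), ∫ y, (F i y - a - 2 * k y) ^ 2 ∂(μ i) ≤ (1 - w i) / 2 :=
    fun i => one_fun (μ i) (F i)
  choose a k hak using hround
  set e : ∀ i, Ω i → ℝ := fun i y => F i y - a i - 2 * k i y with he
  set K : (∀ i, Ω i) → ℤ := fun y => ∑ i, k i (y i) with hK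
  set m : ℝ := c + ∑ i, a i + ∑ i, ∫ y, e i y ∂(μ i) with hm
  set D : (∀ i, Ω i) → ℝ := fun y => ∑ i, e i (y i) - ∑ i, ∫ y, e i y ∂(μ i) with hD
  have hAD : ∀ y, A y = m + 2 * K y + D y := by
    intro y
    simp only [hA, hm, hK, hD, he]
    push_cast
    rw [Finset.sum_sub_distrib, Finset.sum_sub_distrib, ← Finset.mul_sum]
    ring
  have hlp : ∀ i (g : Ω i → ℝ), MemLp g 2 (μ i) := fun i g => by
    rw [memLp_two_iff_integrable_sq Measurable.of_discrete.aestronglyMeasurable]
    exact Integrable.of_finite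
  have hDvar : ∫ y, (D y) ^ 2 ∂P ≤ 5 * ε := by
    have h1 : Var[∑ i, fun y : (∀ i, Ω i) => e i (y i); Measure.pi μ] = ∑ i, Var[e i; μ i] :=
      variance_sum_pi fun i => hlp i (e i)
    have h2 : Var[∑ i, fun y : (∀ i, Ω i) => e i (y i); Measure.pi μ] = ∫ y, (D y) ^ 2 ∂P := by
      rw [variance_eq_integral Measurable.of_discrete.aemeasurable, ← hP]
      have h3 : ∫ y, (∑ i, fun y : (∀ i, Ω i) => e i (y i)) y ∂P = ∑ i, ∫ y, e i y ∂(μ i) := by
        simp only [Finset.sum_apply]
        rw [integral_finsetSum _ (fun i _ => hint _)]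
        refine Finset.sum_congr rfl fun i _ => ?_
        exact integral_comp_eval Measurable.of_discrete.aestronglyMeasurable
      rw [h3]
      refine integral_congr_ae (Filter.Eventually.of_forall fun y => ?_)
      simp only [hD, Finset.sum_apply]
    rw [← h2, h1]
    calc ∑ i, Var[e i; μ i] ≤ ∑ i, (1 - w i) / 2 := by
          refine Finset.sum_le_sum fun i _ => ?_
          exact (variance_le_expectation_sq Measurable.of_discrete.aestronglyMeasurable).trans (hak i)
      _ = (∑ i, (1 - w i)) / 2 := by rw [Finset.sum_div]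
      _ ≤ 5 * ε := by linarith
  have hfm : ∫ y, (f y - m - 2 * K y) ^ 2 ∂P ≤ 12 * ε := by
    have h1 : ∀ y, (f y - m - 2 * K y) ^ 2 ≤ 2 * (f y - A y) ^ 2 + 2 * (D y) ^ 2 := by
      intro y
      have h2 : f y - m - 2 * K y = (f y - A y) + D y := by rw [hAD y]; ring
      rw [h2]
      nlinarith [sq_nonneg ((f y - A y) - D y)]
    refine (integral_mono (hint _) (hint _) h1).trans ?_
    rw [integral_add (hint _) (hint _), integral_const_mul, integral_const_mul]
    linarith
  obtain ⟨ω, hω⟩ := exists_le_integral (hint (fun y => (f y - m - 2 * K y) ^ 2))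
  have hω' : (f ω - m - 2 * K ω) ^ 2 ≤ 12 * ε := hω.trans hfm
  -- integer valued version of f
  set f' : (∀ i, Ω i) → ℤ := fun y => if f y = 1 then 1 else 0 with hf'
  have hff' : ∀ y, f y = 2 * (f' y : ℝ) - 1 := by
    intro y
    simp only [hf']
    rcases hf y with h1 | h1
    · rw [if_pos h1, h1]; norm_num
    · rw [if_neg (by rw [h1]; norm_num), h1]; norm_num
  set t : ℤ := f' ω - K ω with ht
  set g : (∀ i, Ω i) → ℤ := fun y => f' y - (t + K y) with hg
  have hgsq : ∫ y, ((g y : ℝ)) ^ 2 ∂P ≤ 12 * ε := by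
    have h1 : ∀ y, ((g y : ℝ)) ^ 2 ≤ (f y - m - 2 * K y) ^ 2 / 2 + 6 * ε := by
      intro y
      have h2 : (g y : ℝ) = ((f y - m - 2 * K y) - (f ω - m - 2 * K ω)) / 2 := by
        simp only [hg, ht]
        rw [hff' y, hff' ω]
        push_cast
        ring
      rw [h2]
      nlinarith [sq_nonneg ((f y - m - 2 * K y) + (f ω - m - 2 * K ω))]
    refine (integral_mono (hint _) (hint _) h1).trans ?_
    rw [integral_add (hint _) (hint _), integral_const, probReal_univ, one_smul, integral_div]
    linarith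
  have hgne : P.real {y | g y ≠ 0} ≤ 12 * ε := by
    refine le_trans ?_ hgsq
    have h1 : ∀ y, Set.indicator {y | g y ≠ 0} (fun _ => (1:ℝ)) y ≤ ((g y : ℝ)) ^ 2 := by
      intro y
      by_cases hy : g y ≠ 0
      · rw [Set.indicator_of_mem hy]
        have h2 : 1 ≤ |g y| := Int.one_le_abs hy
        have h3 : (1:ℝ) ≤ |(g y : ℝ)| := by exact_mod_cast h2
        rw [← sq_abs]
        nlinarith
      · rw [Set.indicator_of_notMem hy]
        positivity
    have h2 := integral_mono (hint _) (hint _) h1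
    rwa [integral_indicator_const _ MeasurableSet.of_discrete, smul_eq_mul, mul_one] at h2
  -- variance of the integer variables
  have hvar : ∑ i, Var[fun y => (k i y : ℝ); μ i] ≤ 27 / 100 := by
    have h1 : Var[∑ i, fun y : (∀ i, Ω i) => (k i (y i) : ℝ); Measure.pi μ] =
        ∑ i, Var[fun y => (k i y : ℝ); μ i] :=
      variance_sum_pi (X := fun i y => (k i y : ℝ)) fun i => hlp i _
    rw [← h1, ← hP, ← variance_sub_const Measurable.of_discrete.aestronglyMeasurable (1 / 2 - (t:ℝ))]
    refine (variance_le_expectation_sq Measurable.of_discrete.aestronglyMeasurable).trans ?_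
    have h2 : ∀ y, ((fun y => (∑ i, fun y : (∀ i, Ω i) => (k i (y i) : ℝ)) y - (1 / 2 - (t:ℝ))) ^ 2) y ≤
        26 / 100 + 26 * ((g y : ℝ)) ^ 2 := by
      intro y
      simp only [Pi.pow_apply, Finset.sum_apply]
      have h3 : (∑ i, (k i (y i) : ℝ)) - (1 / 2 - (t:ℝ)) = f y / 2 - g y := by
        rw [hff' y]
        simp only [hg, hK]
        push_cast
        ring
      rw [h3]
      have h4 : f y ^ 2 = 1 := by rcases hf y with h | h <;> rw [h] <;> norm_num
      nlinarith [sq_nonneg (f y / 2 + 25 * g y)]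
    refine (integral_mono (hint _) (hint _) h2).trans ?_
    rw [integral_add (hint _) (hint _), integral_const, probReal_univ, one_smul, integral_const_mul]
    linarith
  have hbad : P.real {y | ¬ (t + ∑ i, k i (y i) = 0 ∨ t + ∑ i, k i (y i) = 1)} ≤ 12 * ε := by
    refine (measureReal_mono ?_).trans hgne
    intro y hy hgy
    apply hy
    have h1 : t + ∑ i, k i (y i) = f' y := by
      simp only [hg, hK] at hgy
      linarith
    rw [h1]
    simp only [hf']
    split_ifs <;> simp
  have hkey : ∀ (Q : (∀ i, Ω i) → Prop), P.real {y | ¬ ((t + ∑ i, k i (y i) = 1) ↔ Q y)} ≤ 20 * (12 * ε) →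
      P.real {y | ¬ (f y = 1 ↔ Q y)} ≤ 300 * ε := by
    intro Q hQ
    have hsub : {y | ¬ (f y = 1 ↔ Q y)} ⊆ {y | g y ≠ 0} ∪
        {y | ¬ ((t + ∑ i, k i (y i) = 1) ↔ Q y)} := by
      intro y hy
      by_cases hgy : g y = 0
      · right
        have h1 : t + ∑ i, k i (y i) = f' y := by
          simp only [hg, hK] at hgy
          linarith
        rw [Set.mem_setOf_eq, h1]
        have h2 : f' y = 1 ↔ f y = 1 := by
          simp only [hf']
          split_ifs with h3
          · simp [h3]
          · simp [h3]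
        rw [h2]
        exact hy
      · left; exact hgy
    refine (measureReal_mono hsub).trans ((measureReal_union_le _ _).trans ?_)
    linarith
  obtain ⟨G, hG⟩ := int_part μ k t (12 * ε) (by linarith) hbad hvar
  exact ⟨G, hG.imp (hkey _) (hkey _)⟩

end Pool.Agent.X119.BlockOr
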