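import Mathlib

set_option autoImplicit false

/-! The Gray Takagi function: local structure on dyadic intervals. -/

namespace Pool.Agent.X119.Gray

open MeasureTheory Filter Topology Set

/-- distance to the nearest integer -/
noncomputable def phi (x : ℝ) : ℝ := |x - round x|

lemma phi_eq (x : ℝ) : phi x = min (Int.fract x) (1 - Int.fract x) := abs_sub_round_eq_min x

lemma phi_cont : Continuous phi := by
  have : phi = fun x : ℝ => ‖(x : UnitAddCircle)‖ := by
    ext x; rw [UnitAddCircle.norm_eq]; rfl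
  rw [this]
  exact continuous_norm.comp (AddCircle.continuous_mk' 1)

lemma phi_nonneg (x : ℝ) : 0 ≤ phi x := abs_nonneg _

lemma phi_le (x : ℝ) : phi x ≤ 1 / 2 := by
  rw [phi_eq]
  rcases le_total (Int.fract x) (1/2) with h | h
  · exact (min_le_left _ _).trans h
  · exact (min_le_right _ _).trans (by linarith)

lemma phi_int_add (j : ℤ) (t : ℝ) : phi (j + t) = phi t := by
  rw [phi_eq, phi_eq, Int.fract_intCast_add]

lemma phi_int (j : ℤ) : phi j = 0 := by
  rw [phi_eq, Int.fract_intCast]; simp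

/-- on `[0,1]` -/
lemma phi_unit {t : ℝ} (h0 : 0 ≤ t) (h1 : t ≤ 1) : phi t = min t (1 - t) := by
  rcases h1.lt_or_eq with h | h
  · rw [phi_eq, Int.fract_eq_self.mpr ⟨h0, h⟩]
  · subst h
    have := phi_int 1
    rw [Int.cast_one] at this
    rw [this]; simp

/-- sign of an integer by parity -/
def sg (i : ℤ) : ℤ := if Even i then 1 else -1

lemma sg_cases (i : ℤ) : sg i = 1 ∨ sg i = -1 := by unfold sg; split_ifs <;> simp

lemma sg_even {i : ℤ} (h : Even i) : sg i = 1 := if_pos h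

lemma sg_odd {i : ℤ} (h : ¬ Even i) : sg i = -1 := if_neg h

lemma sg_two_mul_add (a b : ℤ) : sg (2 * a + b) = sg b := by
  unfold sg
  have : Even (2 * a + b) ↔ Even b := by
    rw [Int.even_add]
    simp
  simp only [this]

lemma sg_zpow (i : ℤ) : ((-1 : ℝ)) ^ i = (sg i : ℝ) := by
  unfold sg
  split_ifs with h
  · rw [h.neg_one_zpow]; norm_num
  · rw [Int.not_even_iff_odd] at h
    rw [h.neg_one_zpow]; norm_num

/-- the basic wave `(-1)^⌊x⌋ φ(x)` -/
noncomputable def g (x : ℝ) : ℝ := (sg ⌊x⌋ : ℝ) * phi x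

lemma g_abs (x : ℝ) : |g x| ≤ 1 / 2 := by
  unfold g
  rw [abs_mul]
  have : |((sg ⌊x⌋ : ℤ) : ℝ)| = 1 := by
    rcases sg_cases ⌊x⌋ with h | h <;> rw [h] <;> simp
  rw [this, one_mul, abs_of_nonneg (phi_nonneg x)]
  exact phi_le x

lemma g_int_add (j : ℤ) {u : ℝ} (h0 : 0 ≤ u) (h1 : u ≤ 1) : g (j + u) = (sg j : ℝ) * phi u := by
  rcases h1.lt_or_eq with h | h
  · unfold g
    rw [phi_int_add]
    have : ⌊(j:ℝ) + u⌋ = j := by
      rw [Int.floor_eq_iff]
      constructor <;> linarith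
    rw [this]
  · subst h
    unfold g
    rw [phi_int_add]
    have := phi_int 1
    rw [Int.cast_one] at this
    rw [this]; simp

lemma g_formula (x : ℝ) : g x = 2 * phi ((x + 1/2) / 2) - 1/2 := by
  obtain ⟨m, r, hr0, hr1, rfl⟩ : ∃ (m : ℤ) (r : ℝ), 0 ≤ r ∧ r < 1 ∧ (m:ℝ) + r = x :=
    ⟨⌊x⌋, Int.fract x, Int.fract_nonneg x, Int.fract_lt_one x, Int.floor_add_fract x⟩
  rw [g_int_add m hr0 hr1.le, phi_unit hr0 hr1.le]
  rcases Int.even_or_odd' m with ⟨k, hk | hk⟩
  · have h1 : sg m = 1 := sg_even (by rw [hk]; exact even_two_mul k)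
    have h2 : ((m:ℝ) + r + 1/2) / 2 = (k:ℤ) + (r + 1/2) / 2 := by
      rw [hk]; push_cast; ring
    rw [h1, h2, phi_int_add, phi_unit (by linarith) (by linarith)]
    push_cast
    rcases le_total r (1/2) with h | h
    · rw [min_eq_left (by linarith), min_eq_left (by linarith)]; ring
    · rw [min_eq_right (by linarith), min_eq_right (by linarith)]; ring
  · have h1 : sg m = -1 := sg_odd (by rw [hk]; simp)
    rcases le_total r (1/2) with h | h
    · have h2 : ((m:ℝ) + r + 1/2) / 2 = (k:ℤ) + (r + 3/2) / 2 := by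
        rw [hk]; push_cast; ring
      rw [h1, h2, phi_int_add, phi_unit (by linarith) (by linarith), min_eq_left (by linarith),
        min_eq_right (by linarith)]
      push_cast; ring
    · have h2 : ((m:ℝ) + r + 1/2) / 2 = ((k + 1 : ℤ) : ℝ) + (r - 1/2) / 2 := by
        rw [hk]; push_cast; ring
      rw [h1, h2, phi_int_add, phi_unit (by linarith) (by linarith), min_eq_right (by linarith),
        min_eq_left (by linarith)]
      push_cast; ring

lemma g_cont : Continuous g := by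
  have : g = fun x => 2 * phi ((x + 1/2) / 2) - 1/2 := funext g_formula
  rw [this]
  have := phi_cont
  fun_prop

/-- The Gray Takagi function (defined on all of `ℝ`). -/
noncomputable def f (x : ℝ) : ℝ := ∑' n : ℕ, (2:ℝ)⁻¹ ^ n * g (2 ^ n * x)

lemma summable_geom : Summable (fun n : ℕ => (2:ℝ)⁻¹ ^ n * (1/2)) :=
  (summable_geometric_of_lt_one (by norm_num) (by norm_num)).mul_right _

lemma term_bound (n : ℕ) (x : ℝ) : ‖(2:ℝ)⁻¹ ^ n * g (2 ^ n * x)‖ ≤ (2:ℝ)⁻¹ ^ n * (1/2) := by
  rw [norm_mul, Real.norm_eq_abs, Real.norm_eq_abs, abs_of_pos (by positivity)]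
  exact mul_le_mul_of_nonneg_left (g_abs _) (by positivity)

lemma f_summable (x : ℝ) : Summable (fun n : ℕ => (2:ℝ)⁻¹ ^ n * g (2 ^ n * x)) :=
  Summable.of_norm_bounded summable_geom (fun n => term_bound n x)

lemma f_cont : Continuous f := by
  unfold f
  refine continuous_tsum (fun n => ?_) summable_geom (fun n x => term_bound n x)
  have := g_cont
  fun_prop

lemma f_abs (x : ℝ) : |f x| ≤ 1 := by
  have h := tsum_of_norm_bounded (hasSum_geometric_of_lt_one (r := (2:ℝ)⁻¹) (by norm_num)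
    (by norm_num) |>.mul_right (1/2)) (fun n => term_bound n x)
  rw [Real.norm_eq_abs] at h
  unfold f
  refine h.trans ?_
  norm_num

lemma f_rec (x : ℝ) : f x = g x + 2⁻¹ * f (2 * x) := by
  unfold f
  rw [(f_summable x).tsum_eq_zero_add, ← tsum_mul_left]
  congr 1
  · simp
  · congr 1; ext n
    rw [pow_succ, pow_succ]
    have : (2:ℝ) ^ n * 2 * x = 2 ^ n * (2 * x) := by ring
    rw [this]; ring

lemma f_int (j : ℤ) : f j = 0 := by
  unfold f
  have : ∀ n : ℕ, (2:ℝ)⁻¹ ^ n * g (2 ^ n * (j:ℝ)) = 0 := by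
    intro n
    have h : (2:ℝ) ^ n * (j:ℝ) = ((2 ^ n * j : ℤ) : ℝ) := by push_cast; ring
    unfold g
    rw [h, phi_int]; simp
  simp only [this, tsum_zero]

lemma f_int_add (j : ℤ) {u : ℝ} (h0 : 0 ≤ u) (h1 : u ≤ 1) :
    f (j + u) = f u - phi u + (sg j : ℝ) * phi u := by
  rcases h1.lt_or_eq with h | h
  · have hg : ∀ n : ℕ, g (2 ^ (n + 1) * ((j:ℝ) + u)) = g (2 ^ (n + 1) * u) := by
      intro n
      obtain ⟨m, r, hr0, hr1, hmr⟩ : ∃ (m : ℤ) (r : ℝ), 0 ≤ r ∧ r < 1 ∧ (m:ℝ) + r = 2 ^ (n + 1) * u :=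
        ⟨⌊_⌋, Int.fract _, Int.fract_nonneg _, Int.fract_lt_one _, Int.floor_add_fract _⟩
      rw [mul_add, ← hmr]
      have e : (2:ℝ) ^ (n + 1) * j + (m + r) = ((2 * (2 ^ n * j) + m : ℤ) : ℝ) + r := by
        push_cast; ring
      rw [e, g_int_add _ hr0 hr1.le, g_int_add _ hr0 hr1.le, sg_two_mul_add]
    unfold f
    rw [(f_summable _).tsum_eq_zero_add, (f_summable u).tsum_eq_zero_add]
    simp_rw [hg]
    rw [pow_zero, pow_zero, one_mul, one_mul, one_mul, one_mul, g_int_add j h0 h1]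
    have : g u = phi u := by
      have := g_int_add 0 h0 h1
      rw [Int.cast_zero, zero_add] at this
      rw [this, sg_even (by simp)]; simp
    rw [this]; ring
  · subst h
    have h2 := f_int (j + 1)
    have h3 := f_int 1
    have h4 := phi_int 1
    push_cast at h2 h3 h4
    rw [h2, h3, h4]; ring

/-- the slope of the partial sum on the dyadic interval number `i` of generation `n` -/
def sl : ℕ → ℤ → ℤ
  | 0, _ => 0
  | n + 1, i => sl n (i / 2) + sg (i / 2 + i)

lemma piece (n : ℕ) : ∀ (j : ℤ) (u : ℝ), 0 ≤ u → u ≤ 1 →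
    f ((j + u) / 2 ^ n) = f (j / 2 ^ n) + (2:ℝ)⁻¹ ^ n * ((sl n j : ℝ) * u + f (j + u)) := by
  induction n with
  | zero =>
    intro j u _ _
    simp only [pow_zero, div_one, one_mul, sl, Int.cast_zero, zero_mul, zero_add, f_int]
  | succ n ih =>
    intro i u h0 h1
    set j := i / 2 with hj
    obtain ⟨δ, hδ, hi⟩ : ∃ δ : ℤ, (δ = 0 ∨ δ = 1) ∧ i = 2 * j + δ :=
      ⟨i % 2, Int.emod_two_eq_zero_or_one i, by omega⟩
    have hδR : 0 ≤ (δ:ℝ) ∧ (δ:ℝ) ≤ 1 := by
      rcases hδ with h | h <;> rw [h] <;> norm_num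
    set v : ℝ := ((δ:ℝ) + u) / 2 with hv
    have hv0 : 0 ≤ v := by rw [hv]; linarith [hδR.1]
    have hv1 : v ≤ 1 := by rw [hv]; linarith [hδR.2]
    have e1 : ((i:ℝ) + u) / 2 ^ (n + 1) = ((j:ℝ) + v) / 2 ^ n := by
      rw [hi, hv, pow_succ]; push_cast; field_simp; ring
    have e2 : (i:ℝ) / 2 ^ (n + 1) = ((j:ℝ) + (δ:ℝ) / 2) / 2 ^ n := by
      rw [hi, pow_succ]; push_cast; field_simp
    rw [e1, e2, ih j v hv0 hv1, ih j ((δ:ℝ)/2) (by linarith [hδR.1]) (by linarith [hδR.2])]
    -- values of `f` at `j + v`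
    have hfv : ∀ w : ℝ, 0 ≤ w → w ≤ 1 → f (j + ((δ:ℝ) + w) / 2) =
        (sg j : ℝ) * phi (((δ:ℝ) + w) / 2) + 2⁻¹ * f (i + w) := by
      intro w hw0 hw1
      have hz0 : 0 ≤ ((δ:ℝ) + w) / 2 := by linarith [hδR.1]
      have hz1 : ((δ:ℝ) + w) / 2 ≤ 1 := by linarith [hδR.2]
      rw [f_rec, g_int_add j hz0 hz1]
      congr 3
      rw [hi]; push_cast; ring
    have hv' := hfv u h0 h1
    rw [← hv] at hv'
    have h00 := hfv 0 le_rfl zero_le_one
    rw [add_zero, add_zero, f_int, mul_zero, add_zero] at h00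
    rw [hv', h00]
    have hsl : sl (n + 1) i = sl n j + sg (j + i) := rfl
    have hsg : sg (j + i) = sg j * (if δ = 0 then 1 else -1) := by
      have h3 : j + i = 2 * j + (j + δ) := by rw [hi]; ring
      rw [h3, sg_two_mul_add]
      rcases hδ with h | h
      · rw [h]; simp
      · rw [h]
        unfold sg
        have : Even (j + 1) ↔ ¬ Even j := by rw [Int.even_add_one]
        simp only [this]
        by_cases hje : Even j <;> simp [hje]
    rw [hsl, hsg]
    rcases hδ with h | h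
    · have p1 : phi v = v := by
        rw [phi_unit hv0 hv1, min_eq_left]
        rw [hv, h]; push_cast; linarith
      have p2 : phi ((δ:ℝ) / 2) = 0 := by rw [h]; have := phi_int 0; simpa using this
      rw [p1, p2, hv, h]
      push_cast
      rw [pow_succ]
      ring
    · have p1 : phi v = 1 - v := by
        rw [phi_unit hv0 hv1, min_eq_right]
        rw [hv, h]; push_cast; linarith
      have p2 : phi ((δ:ℝ) / 2) = 1 / 2 := by
        rw [h, phi_unit (by norm_num) (by norm_num)]; norm_num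
      rw [p1, p2, hv, h]
      push_cast
      rw [pow_succ]
      ring

end Pool.Agent.X119.Gray
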