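import Mathlib
import Pool.Agent.X119.Gray

set_option autoImplicit false

/-! The Gray Takagi function: infinite level sets force positive upper density of the occupation
measure. -/

namespace Pool.Agent.X119.Gray

open MeasureTheory Filter Topology Set

/-- number of the dyadic interval of generation `n` containing `x` -/
noncomputable def idx (n : ℕ) (x : ℝ) : ℤ := ⌊(2:ℝ) ^ n * x⌋

lemma floor_two_mul (y : ℝ) : ⌊2 * y⌋ / 2 = ⌊y⌋ := by
  have h1 := Int.floor_le y
  have h2 := Int.lt_floor_add_one y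
  have h3 : 2 * ⌊y⌋ ≤ ⌊2 * y⌋ := by
    rw [Int.le_floor]; push_cast; linarith
  have h4 : ⌊2 * y⌋ < 2 * ⌊y⌋ + 2 := by
    rw [Int.floor_lt]; push_cast; linarith
  omega

lemma idx_succ_div (n : ℕ) (x : ℝ) : idx (n + 1) x / 2 = idx n x := by
  unfold idx
  rw [pow_succ, mul_comm ((2:ℝ) ^ n) 2, mul_assoc]
  exact floor_two_mul _

lemma idx_le (n : ℕ) (x : ℝ) : (idx n x : ℝ) / 2 ^ n ≤ x := by
  rw [div_le_iff₀ (by positivity), mul_comm]
  exact Int.floor_le _

lemma lt_idx (n : ℕ) (x : ℝ) : x < ((idx n x : ℝ) + 1) / 2 ^ n := by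
  rw [lt_div_iff₀ (by positivity), mul_comm]
  exact Int.lt_floor_add_one _

/-- slope at `x` -/
noncomputable def sig (n : ℕ) (x : ℝ) : ℤ := sl n (idx n x)

lemma sig_succ (n : ℕ) (x : ℝ) : sig (n + 1) x = sig n x + sg (idx n x + idx (n + 1) x) := by
  unfold sig
  rw [sl, idx_succ_div]

lemma sig_step (n : ℕ) (x : ℝ) : sig (n + 1) x = sig n x + 1 ∨ sig (n + 1) x = sig n x - 1 := by
  rw [sig_succ]
  rcases sg_cases (idx n x + idx (n + 1) x) with h | h <;> rw [h]
  · exact Or.inl rfl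
  · exact Or.inr rfl

lemma sg_succ (i : ℤ) : sg (i + 1) = - sg i := by
  unfold sg
  have : Even (i + 1) ↔ ¬ Even i := by rw [Int.even_add_one]
  simp only [this]
  by_cases h : Even i <;> simp [h]

lemma sl_left (n : ℕ) (j : ℤ) : sl (n + 1) (2 * j) = sl n j + sg j := by
  have h1 : 2 * j / 2 = j := by omega
  rw [sl, h1, show j + 2 * j = 2 * j + j by ring, sg_two_mul_add]

lemma sl_right (n : ℕ) (j : ℤ) : sl (n + 1) (2 * j + 1) = sl n j - sg j := by
  have h1 : (2 * j + 1) / 2 = j := by omega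
  rw [sl, h1, show j + (2 * j + 1) = 2 * j + (j + 1) by ring, sg_two_mul_add, sg_succ]
  ring

lemma f_diff (n : ℕ) (i : ℤ) : f (((i:ℝ) + 1) / 2 ^ n) - f ((i:ℝ) / 2 ^ n) =
    (2:ℝ)⁻¹ ^ n * (sl n i : ℝ) := by
  rw [piece n i 1 zero_le_one le_rfl]
  have := f_int (i + 1)
  push_cast at this
  rw [this]; ring

/-- left and right end points -/
noncomputable def Lp (n : ℕ) (x : ℝ) : ℝ := (idx n x : ℝ) / 2 ^ n
noncomputable def Rp (n : ℕ) (x : ℝ) : ℝ := ((idx n x : ℝ) + 1) / 2 ^ n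

lemma Rp_sub_Lp (n : ℕ) (x : ℝ) : Rp n x - Lp n x = (2:ℝ)⁻¹ ^ n := by
  unfold Rp Lp
  rw [← sub_div, add_sub_cancel_left, one_div, inv_pow]

lemma tendsto_inv_pow : Tendsto (fun n : ℕ => (2:ℝ)⁻¹ ^ n) atTop (𝓝 0) :=
  tendsto_pow_atTop_nhds_zero_of_lt_one (by norm_num) (by norm_num)

lemma tendsto_Rp (x : ℝ) : Tendsto (fun n => Rp n x) atTop (𝓝 x) := by
  have h1 : ∀ n, |Rp n x - x| ≤ (2:ℝ)⁻¹ ^ n := by
    intro n
    have h2 := idx_le n x
    have h3 := lt_idx n x
    have h4 := Rp_sub_Lp n x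
    unfold Rp Lp at *
    rw [abs_of_nonneg (by linarith)]
    linarith
  rw [tendsto_iff_dist_tendsto_zero]
  exact squeeze_zero (fun n => dist_nonneg) (fun n => by rw [Real.dist_eq]; exact h1 n) tendsto_inv_pow

lemma tendsto_Lp (x : ℝ) : Tendsto (fun n => Lp n x) atTop (𝓝 x) := by
  have h1 : ∀ n, |Lp n x - x| ≤ (2:ℝ)⁻¹ ^ n := by
    intro n
    have h2 := idx_le n x
    have h3 := lt_idx n x
    have h4 := Rp_sub_Lp n x
    unfold Rp Lp at *
    rw [abs_sub_comm, abs_of_nonneg (by linarith)]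
    linarith
  rw [tendsto_iff_dist_tendsto_zero]
  exact squeeze_zero (fun n => dist_nonneg) (fun n => by rw [Real.dist_eq]; exact h1 n) tendsto_inv_pow

lemma idx_cases (n : ℕ) (x : ℝ) : idx (n + 1) x = 2 * idx n x ∨ idx (n + 1) x = 2 * idx n x + 1 := by
  have := idx_succ_div n x
  omega

lemma Rp_right {n : ℕ} {x : ℝ} (h : idx (n + 1) x = 2 * idx n x + 1) : Rp (n + 1) x = Rp n x := by
  unfold Rp
  rw [h, pow_succ]
  push_cast
  field_simp
  ring

lemma Lp_left {n : ℕ} {x : ℝ} (h : idx (n + 1) x = 2 * idx n x) : Lp (n + 1) x = Lp n x := by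
  unfold Lp
  rw [h, pow_succ]
  push_cast
  field_simp

section mono
variable {c : ℤ} (hc : c = 1 ∨ c = -1) {x : ℝ} {k : ℕ} (h : ∀ m, k ≤ m → 2 ≤ c * sig m x)
include hc h

lemma Rp_step (m : ℕ) (hm : k ≤ m) : (c:ℝ) * f (Rp (m + 1) x) ≤ c * f (Rp m x) ∧
    (idx (m + 1) x = 2 * idx m x → (c:ℝ) * f (Rp (m + 1) x) < c * f (Rp m x)) := by
  have h1 : idx (m + 1) x = 2 * idx m x → (c:ℝ) * f (Rp (m + 1) x) < c * f (Rp m x) := by
    intro hl
    have h2 := f_diff (m + 1) (2 * idx m x + 1)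
    have e1 : (((2 * idx m x + 1 : ℤ) : ℝ) + 1) / 2 ^ (m + 1) = Rp m x := by
      unfold Rp; rw [pow_succ]; push_cast; field_simp; ring
    have e2 : ((2 * idx m x + 1 : ℤ) : ℝ) / 2 ^ (m + 1) = Rp (m + 1) x := by
      unfold Rp; rw [hl]; push_cast; ring
    rw [e1, e2, sl_right] at h2
    have h3 : 1 ≤ c * (sl m (idx m x) - sg (idx m x)) := by
      have h4 := h m hm
      unfold sig at h4
      rcases hc with rfl | rfl <;> rcases sg_cases (idx m x) with h5 | h5 <;> rw [h5] <;> omega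
    have h4 : (1:ℝ) ≤ c * ((sl m (idx m x) - sg (idx m x) : ℤ) : ℝ) := by exact_mod_cast h3
    have h5 : (0:ℝ) < (2:ℝ)⁻¹ ^ (m + 1) := by positivity
    have h6 : (c:ℝ) * (f (Rp m x) - f (Rp (m + 1) x)) =
        (2:ℝ)⁻¹ ^ (m + 1) * (c * ((sl m (idx m x) - sg (idx m x) : ℤ) : ℝ)) := by rw [h2]; ring
    have h7 := mul_le_mul_of_nonneg_left h4 h5.le
    rw [← h6] at h7
    linarith
  refine ⟨?_, h1⟩
  rcases idx_cases m x with hl | hr
  · exact (h1 hl).le
  · rw [Rp_right hr]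

lemma Lp_step (m : ℕ) (hm : k ≤ m) : (c:ℝ) * f (Lp m x) ≤ c * f (Lp (m + 1) x) := by
  rcases idx_cases m x with hl | hr
  · rw [Lp_left hl]
  · have h2 := f_diff (m + 1) (2 * idx m x)
    have e1 : ((2 * idx m x : ℤ) : ℝ) / 2 ^ (m + 1) = Lp m x := by
      unfold Lp; rw [pow_succ]; push_cast; field_simp
    have e2 : (((2 * idx m x : ℤ) : ℝ) + 1) / 2 ^ (m + 1) = Lp (m + 1) x := by
      unfold Lp; rw [hr]; push_cast; ring
    rw [e1, e2, sl_left] at h2
    have h3 : 1 ≤ c * (sl m (idx m x) + sg (idx m x)) := by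
      have h4 := h m hm
      unfold sig at h4
      rcases hc with rfl | rfl <;> rcases sg_cases (idx m x) with h5 | h5 <;> rw [h5] <;> omega
    have h4 : (1:ℝ) ≤ c * ((sl m (idx m x) + sg (idx m x) : ℤ) : ℝ) := by exact_mod_cast h3
    have h5 : (0:ℝ) < (2:ℝ)⁻¹ ^ (m + 1) := by positivity
    have h6 : (c:ℝ) * (f (Lp (m + 1) x) - f (Lp m x)) =
        (2:ℝ)⁻¹ ^ (m + 1) * (c * ((sl m (idx m x) + sg (idx m x) : ℤ) : ℝ)) := by rw [h2]; ring
    have h7 := mul_le_mul_of_nonneg_left h4 h5.le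
    rw [← h6] at h7
    linarith

lemma le_Rp (m : ℕ) (hm : k ≤ m) : (c:ℝ) * f x ≤ c * f (Rp m x) := by
  have h1 : ∀ j, (c:ℝ) * f (Rp (m + j) x) ≤ c * f (Rp m x) := by
    intro j
    induction j with
    | zero => exact le_rfl
    | succ j ih => exact ((Rp_step hc h (m + j) (by omega)).1).trans ih
  have h2 : Tendsto (fun j => (c:ℝ) * f (Rp (m + j) x)) atTop (𝓝 (c * f x)) := by
    apply Tendsto.const_mul
    have h3 := (f_cont.tendsto x).comp (tendsto_Rp x)
    have h4 : Tendsto (fun j : ℕ => m + j) atTop atTop := tendsto_add_atTop_nat m |>.congr (fun j => by ring)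
    exact h3.comp h4
  exact le_of_tendsto' h2 h1

lemma lt_Rp : (c:ℝ) * f x < c * f (Rp k x) := by
  by_cases hex : ∃ m, k ≤ m ∧ idx (m + 1) x = 2 * idx m x
  · obtain ⟨m, hm, hl⟩ := hex
    have h1 := (Rp_step hc h m hm).2 hl
    have h2 := le_Rp hc h (m + 1) (by omega)
    have h3 : ∀ j, k + j ≤ m → (c:ℝ) * f (Rp (k + j) x) ≤ c * f (Rp k x) := by
      intro j
      induction j with
      | zero => intro _; exact le_rfl
      | succ j ih =>
        intro hj
        exact ((Rp_step hc h (k + j) (by omega)).1).trans (ih (by omega))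
    have h4 := h3 (m - k) (by omega)
    rw [show k + (m - k) = m by omega] at h4
    linarith
  · exfalso
    push Not at hex
    have h1 : ∀ j, Rp (k + j) x = Rp k x := by
      intro j
      induction j with
      | zero => rfl
      | succ j ih =>
        rw [← ih]
        apply Rp_right
        rcases idx_cases (k + j) x with hl | hr
        · exact absurd hl (hex _ (by omega))
        · exact hr
    have h4 : Tendsto (fun j : ℕ => k + j) atTop atTop := tendsto_add_atTop_nat k |>.congr (fun j => by ring)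
    have h2 := (tendsto_Rp x).comp h4
    have h3 : Tendsto ((fun n => Rp n x) ∘ fun j => k + j) atTop (𝓝 (Rp k x)) := by
      refine tendsto_const_nhds.congr (fun j => ?_)
      exact (h1 j).symm
    have h5 := tendsto_nhds_unique h2 h3
    have h6 := lt_idx k x
    change x < Rp k x at h6
    linarith

lemma Lp_le : (c:ℝ) * f (Lp k x) ≤ c * f x := by
  have h1 : ∀ j, (c:ℝ) * f (Lp k x) ≤ c * f (Lp (k + j) x) := by
    intro j
    induction j with
    | zero => exact le_rfl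
    | succ j ih => exact ih.trans (Lp_step hc h (k + j) (by omega))
  have h2 : Tendsto (fun j => (c:ℝ) * f (Lp (k + j) x)) atTop (𝓝 (c * f x)) := by
    apply Tendsto.const_mul
    have h3 := (f_cont.tendsto x).comp (tendsto_Lp x)
    have h4 : Tendsto (fun j : ℕ => k + j) atTop atTop := tendsto_add_atTop_nat k |>.congr (fun j => by ring)
    exact h3.comp h4
  exact ge_of_tendsto' h2 h1

end mono

lemma const_sign {c : ℤ} (hc : c = 1 ∨ c = -1) {x : ℝ} {k : ℕ} (h0 : 0 ≤ c * sig k x)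
    (h : ∀ m, k ≤ m → 2 ≤ |sig m x|) : ∀ m, k ≤ m → 2 ≤ c * sig m x := by
  have key : ∀ s : ℤ, 2 ≤ |s| → -1 ≤ c * s → 2 ≤ c * s := by
    intro s hs h1
    rcases hc with rfl | rfl
    · rcases le_abs.mp hs with h2 | h2 <;> omega
    · rcases le_abs.mp hs with h2 | h2 <;> omega
  intro m hm
  induction m, hm using Nat.le_induction with
  | base => exact key _ (h k le_rfl) (by omega)
  | succ m hm ih =>
    apply key _ (h _ (by omega))
    rcases hc with rfl | rfl <;> rcases sig_step m x with h1 | h1 <;> rw [h1] <;> omega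

/-- two points of a level set in one dyadic interval force a small slope -/
lemma small_slope {x x' : ℝ} (hlt : x < x') (hf : f x = f x') {N : ℕ} (hN : idx N x = idx N x') :
    ∃ k, N ≤ k ∧ ∃ z, (z = x ∨ z = x') ∧ |sig k z| ≤ 1 := by
  classical
  have hex : ∃ m, N < m ∧ idx m x ≠ idx m x' := by
    by_contra hcon
    push Not at hcon
    have h1 : ∀ m, N < m → x' - x ≤ (2:ℝ)⁻¹ ^ m := by
      intro m hm
      have h2 := idx_le m x
      have h3 := lt_idx m x'
      rw [← hcon m hm] at h3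
      have h4 := Rp_sub_Lp m x
      unfold Rp Lp at h4
      linarith
    have h2 : x' - x ≤ 0 := by
      apply ge_of_tendsto tendsto_inv_pow
      filter_upwards [eventually_gt_atTop N] with m hm using h1 m hm
    linarith
  set M := Nat.find hex with hM
  obtain ⟨hM1, hM2⟩ := Nat.find_spec hex
  rw [← hM] at hM1 hM2
  obtain ⟨n, hn⟩ : ∃ n, M = n + 1 := ⟨M - 1, by omega⟩
  have hn1 : idx n x = idx n x' := by
    rcases Nat.lt_or_ge N n with h | h
    · by_contra hne
      exact Nat.find_min hex (m := n) (by omega) ⟨h, hne⟩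
    · have : n = N := by omega
      rw [this]; exact hN
  rw [hn] at hM2
  have hmono : idx (n + 1) x ≤ idx (n + 1) x' := by
    unfold idx
    apply Int.floor_le_floor
    exact mul_le_mul_of_nonneg_left hlt.le (by positivity)
  have hx : idx (n + 1) x = 2 * idx n x ∧ idx (n + 1) x' = 2 * idx n x + 1 := by
    have h1 := idx_cases n x
    have h2 := idx_cases n x'
    omega
  by_contra hcon
  push Not at hcon
  have hb : ∀ z, (z = x ∨ z = x') → ∀ k, n + 1 ≤ k → 2 ≤ |sig k z| := by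
    intro z hz k hk
    have := hcon k (by omega) z hz
    omega
  obtain ⟨c, hc, hc0⟩ : ∃ c : ℤ, (c = 1 ∨ c = -1) ∧ 0 ≤ c * sig (n + 1) x := by
    rcases le_total 0 (sig (n + 1) x) with h | h
    · exact ⟨1, Or.inl rfl, by omega⟩
    · exact ⟨-1, Or.inr rfl, by omega⟩
  have h1 := const_sign hc hc0 (hb x (Or.inl rfl))
  have hc0' : 0 ≤ c * sig (n + 1) x' := by
    have h2 := h1 (n + 1) le_rfl
    unfold sig at h2 ⊢
    rw [hx.1, sl_left] at h2
    rw [hx.2, sl_right]
    rcases hc with rfl | rfl <;> rcases sg_cases (idx n x) with h5 | h5 <;> rw [h5] at h2 ⊢ <;> omega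
  have h2 := const_sign hc hc0' (hb x' (Or.inr rfl))
  have h3 := lt_Rp hc h1
  have h4 := Lp_le hc h2
  have h5 : Rp (n + 1) x = Lp (n + 1) x' := by
    unfold Rp Lp
    rw [hx.1, hx.2]
    push_cast; ring
  rw [h5] at h3
  rw [hf] at h3
  linarith

/-- the occupation measure -/
noncomputable def mu : Measure ℝ := Measure.map f (volume.restrict (Icc 0 1))

instance : IsFiniteMeasure mu := by unfold mu; infer_instance

lemma mu_apply {s : Set ℝ} (hs : MeasurableSet s) : mu s = volume (f ⁻¹' s ∩ Icc 0 1) := by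
  unfold mu
  rw [Measure.map_apply f_cont.measurable hs, Measure.restrict_apply (f_cont.measurable hs)]

lemma level_mass {z : ℝ} (hz0 : 0 ≤ z) (hz1 : z < 1) {k : ℕ} (hk : |sig k z| ≤ 1) :
    ENNReal.ofReal ((2:ℝ)⁻¹ ^ k) ≤ mu (Metric.closedBall (f z) (3 * (2:ℝ)⁻¹ ^ k)) := by
  rw [mu_apply Metric.isClosed_closedBall.measurableSet]
  have hvol : volume (Icc (Lp k z) (Rp k z)) = ENNReal.ofReal ((2:ℝ)⁻¹ ^ k) := by
    rw [Real.volume_Icc, Rp_sub_Lp]
  rw [← hvol]
  apply measure_mono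
  intro t ht
  have h2k : (0:ℝ) < 2 ^ k := by positivity
  have hi0 : 0 ≤ idx k z := by
    unfold idx
    apply Int.floor_nonneg.mpr; positivity
  have hi1 : idx k z + 1 ≤ 2 ^ k := by
    have : idx k z < 2 ^ k := by
      unfold idx
      rw [Int.floor_lt]
      push_cast
      nlinarith
    omega
  have hi0' : (0:ℝ) ≤ idx k z := by exact_mod_cast hi0
  have hi1' : (idx k z : ℝ) + 1 ≤ 2 ^ k := by exact_mod_cast hi1
  constructor
  · -- closeness
    set u : ℝ := 2 ^ k * t - idx k z with hu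
    set w : ℝ := 2 ^ k * z - idx k z with hw
    have hu0 : 0 ≤ u := by
      have := ht.1; unfold Lp at this
      rw [div_le_iff₀ h2k] at this; rw [hu]; linarith
    have hu1 : u ≤ 1 := by
      have := ht.2; unfold Rp at this
      rw [le_div_iff₀ h2k] at this; rw [hu]; linarith
    have hw0 : 0 ≤ w := by
      have := idx_le k z
      rw [div_le_iff₀ h2k] at this; rw [hw]; linarith
    have hw1 : w ≤ 1 := by
      have := lt_idx k z
      rw [lt_div_iff₀ h2k] at this; rw [hw]; linarith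
    have et : t = ((idx k z : ℝ) + u) / 2 ^ k := by rw [hu]; field_simp; ring
    have ez : z = ((idx k z : ℝ) + w) / 2 ^ k := by rw [hw]; field_simp; ring
    rw [mem_preimage, Metric.mem_closedBall, Real.dist_eq]
    have p1 := piece k (idx k z) u hu0 hu1
    have p2 := piece k (idx k z) w hw0 hw1
    rw [← et] at p1
    rw [← ez] at p2
    have p3 : f t - f z = (2:ℝ)⁻¹ ^ k * ((sl k (idx k z) : ℝ) * (u - w) +
        (f ((idx k z : ℝ) + u) - f ((idx k z : ℝ) + w))) := by rw [p1, p2]; ring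
    rw [p3, abs_mul, abs_of_pos (show (0:ℝ) < (2:ℝ)⁻¹ ^ k by positivity), mul_comm 3]
    apply mul_le_mul_of_nonneg_left _ (by positivity)
    have q1 := f_abs ((idx k z : ℝ) + u)
    have q2 := f_abs ((idx k z : ℝ) + w)
    have q3 : |((sl k (idx k z) : ℤ) : ℝ)| ≤ 1 := by
      have : |sl k (idx k z)| ≤ 1 := hk
      exact_mod_cast this
    have q4 : |u - w| ≤ 1 := by rw [abs_le]; constructor <;> linarith
    calc _ ≤ |((sl k (idx k z) : ℤ) : ℝ) * (u - w)| +
          |f ((idx k z : ℝ) + u) - f ((idx k z : ℝ) + w)| := abs_add_le _ _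
      _ ≤ 1 * 1 + (1 + 1) := by
          apply add_le_add
          · rw [abs_mul]
            exact mul_le_mul q3 q4 (abs_nonneg _) zero_le_one
          · exact (abs_sub _ _).trans (add_le_add q1 q2)
      _ = 3 := by norm_num
  · constructor
    · refine le_trans ?_ ht.1
      unfold Lp; positivity
    · refine ht.2.trans ?_
      unfold Rp
      rw [div_le_one h2k]; exact hi1'

/-- infinite level sets -/
theorem crit {y : ℝ} (hinf : {x | x ∈ Icc (0:ℝ) 1 ∧ f x = y}.Infinite) (N : ℕ) :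
    ∃ k, N ≤ k ∧ ENNReal.ofReal ((2:ℝ)⁻¹ ^ k) ≤ mu (Metric.closedBall y (3 * (2:ℝ)⁻¹ ^ k)) := by
  have hinf2 : ({x | x ∈ Icc (0:ℝ) 1 ∧ f x = y} \ {1}).Infinite := hinf.diff (Set.finite_singleton _)
  have hmaps : MapsTo (idx N) ({x | x ∈ Icc (0:ℝ) 1 ∧ f x = y} \ {1}) (Set.Icc 0 (2 ^ N)) := by
    rintro x ⟨⟨⟨h0, h1⟩, _⟩, _⟩
    unfold idx
    constructor
    · apply Int.floor_nonneg.mpr; positivity
    · have : ⌊(2:ℝ) ^ N * x⌋ ≤ ⌊((2 ^ N : ℤ) : ℝ)⌋ := by
        apply Int.floor_le_floor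
        push_cast
        have : (0:ℝ) < 2 ^ N := by positivity
        nlinarith
      rwa [Int.floor_intCast] at this
  obtain ⟨x, hx, x', hx', hne, heq⟩ := hinf2.exists_ne_map_eq_of_mapsTo hmaps (Set.finite_Icc _ _)
  have hlt1 : ∀ w ∈ ({x | x ∈ Icc (0:ℝ) 1 ∧ f x = y} \ {1}), 0 ≤ w ∧ w < 1 ∧ f w = y := by
    rintro w ⟨⟨⟨h0, h1⟩, h2⟩, h3⟩
    exact ⟨h0, lt_of_le_of_ne h1 h3, h2⟩
  have main : ∀ a b : ℝ, a < b → 0 ≤ a → b < 1 → f a = y → f b = y → idx N a = idx N b →
      ∃ k, N ≤ k ∧ ENNReal.ofReal ((2:ℝ)⁻¹ ^ k) ≤ mu (Metric.closedBall y (3 * (2:ℝ)⁻¹ ^ k)) := by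
    intro a b hab ha hb hfa hfb hidx
    obtain ⟨k, hk, z, hz, hs⟩ := small_slope hab (hfa.trans hfb.symm) hidx
    refine ⟨k, hk, ?_⟩
    rcases hz with rfl | rfl
    · have := level_mass ha (by linarith) hs
      rwa [hfa] at this
    · have := level_mass (by linarith) hb hs
      rwa [hfb] at this
  obtain ⟨a0, a1, a2⟩ := hlt1 x hx
  obtain ⟨b0, b1, b2⟩ := hlt1 x' hx'
  rcases lt_or_gt_of_ne hne with h | h
  · exact main x x' h a0 b1 a2 b2 heq
  · exact main x' x h b0 a1 b2 a2 heq.symm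

end Pool.Agent.X119.Gray
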