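import Mathlib
import Pool.Agent.X119.GrayB

set_option autoImplicit false

/-! The Gray Takagi function: the slopes vanish infinitely often. -/

namespace Pool.Agent.X119.Gray

open MeasureTheory Filter Topology Set
open scoped ENNReal

lemma idx_shift (n m : ℕ) (x : ℝ) : idx (n + m) x = idx m (2 ^ n * x) := by
  unfold idx
  congr 1
  rw [pow_add]; ring

lemma sig_zero (x : ℝ) : sig 0 x = 0 := rfl

lemma sig_add (n m : ℕ) (x : ℝ) : sig (n + m) x = sig n x + sig m (2 ^ n * x) := by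
  induction m with
  | zero => rw [add_zero, sig_zero, add_zero]
  | succ m ih =>
    rw [← add_assoc, sig_succ, ih, sig_succ m, idx_shift n m, show n + m + 1 = n + (m + 1) by ring,
      idx_shift n (m + 1)]
    ring

/-- the points above `j` which never reach the state slope zero and even -/
def Av (j s : ℤ) : Set ℝ := {x | ⌊x⌋ = j ∧ ∀ m, ¬ (s + sig m x = 0 ∧ Even (idx m x))}

noncomputable def V (j s : ℤ) : ℝ≥0∞ := volume (Av j s)

lemma V_le_one (j s : ℤ) : V j s ≤ 1 := by
  have : Av j s ⊆ Ico (j:ℝ) (j + 1) := by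
    rintro x ⟨h, _⟩
    rw [Int.floor_eq_iff] at h
    exact h
  refine (measure_mono this).trans ?_
  rw [Real.volume_Ico]
  simp

lemma V_rec (j s : ℤ) : V j s ≤ ENNReal.ofReal (1/2) * (V (2 * j) (s + sg j) + V (2 * j + 1) (s - sg j)) := by
  have hsub : Av j s ⊆ ((fun x : ℝ => 2 * x) ⁻¹' Av (2 * j) (s + sg j)) ∪
      ((fun x : ℝ => 2 * x) ⁻¹' Av (2 * j + 1) (s - sg j)) := by
    rintro x ⟨hx, hm⟩
    have h1 : ∀ m, sig (m + 1) x = sig 1 x + sig m (2 * x) := by
      intro m
      have := sig_add 1 m x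
      rwa [pow_one, add_comm 1 m] at this
    have h2 : ∀ m, idx (m + 1) x = idx m (2 * x) := by
      intro m
      have := idx_shift 1 m x
      rwa [pow_one, add_comm 1 m] at this
    have h0 : idx 0 x = j := by unfold idx; rw [pow_zero, one_mul]; exact hx
    have h3 : sig 1 x = sg (j + idx 1 x) := by
      have := sig_succ 0 x
      rw [sig_zero, h0] at this
      rw [this]; ring
    have h4 : idx 1 x = ⌊2 * x⌋ := by unfold idx; rw [pow_one]
    rcases idx_cases 0 x with hc | hc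
    · left
      rw [h0, zero_add] at hc
      refine ⟨by rw [← h4]; exact hc, fun m => ?_⟩
      have := hm (m + 1)
      rw [h1, h2, h3, hc, show j + 2 * j = 2 * j + j by ring, sg_two_mul_add] at this
      rwa [← add_assoc] at this
    · right
      rw [h0, zero_add] at hc
      refine ⟨by rw [← h4]; exact hc, fun m => ?_⟩
      have := hm (m + 1)
      rw [h1, h2, h3, hc, show j + (2 * j + 1) = 2 * j + (j + 1) by ring, sg_two_mul_add,
        sg_succ] at this
      rwa [← add_assoc, ← sub_eq_add_neg] at this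
  refine (measure_mono hsub).trans ((measure_union_le _ _).trans ?_)
  rw [Real.volume_preimage_mul_left (by norm_num), Real.volume_preimage_mul_left (by norm_num)]
  unfold V
  have : |(2:ℝ)⁻¹| = 1/2 := by norm_num
  rw [this, mul_add]

lemma V_even_zero (j : ℤ) : V (2 * j) 0 = 0 := by
  have : Av (2 * j) 0 = ∅ := by
    ext x
    simp only [mem_empty_iff_false, iff_false]
    rintro ⟨h1, h2⟩
    apply h2 0
    refine ⟨by rw [sig_zero]; rfl, ?_⟩
    unfold idx
    rw [pow_zero, one_mul, h1]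
    exact even_two_mul j
  unfold V
  rw [this, measure_empty]

/-- real-valued suprema -/
noncomputable def v (j s : ℤ) : ℝ := (V j s).toReal

lemma v_nonneg (j s : ℤ) : 0 ≤ v j s := ENNReal.toReal_nonneg

lemma v_le_one (j s : ℤ) : v j s ≤ 1 := by
  unfold v
  have := ENNReal.toReal_mono ENNReal.one_ne_top (V_le_one j s)
  simpa using this

lemma V_ne_top (j s : ℤ) : V j s ≠ ⊤ := ne_top_of_le_ne_top ENNReal.one_ne_top (V_le_one j s)

lemma v_rec (j s : ℤ) : v j s ≤ (v (2 * j) (s + sg j) + v (2 * j + 1) (s - sg j)) / 2 := by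
  unfold v
  have h := V_rec j s
  have hne : V (2 * j) (s + sg j) + V (2 * j + 1) (s - sg j) ≠ ⊤ :=
    ENNReal.add_ne_top.mpr ⟨V_ne_top _ _, V_ne_top _ _⟩
  have h2 := ENNReal.toReal_mono (ENNReal.mul_ne_top ENNReal.ofReal_ne_top hne) h
  rw [ENNReal.toReal_mul, ENNReal.toReal_ofReal (by norm_num),
    ENNReal.toReal_add (V_ne_top _ _) (V_ne_top _ _)] at h2
  linarith

noncomputable def M0 (s : ℤ) : ℝ := ⨆ j : ℤ, v (2 * j) s
noncomputable def M1 (s : ℤ) : ℝ := ⨆ j : ℤ, v (2 * j + 1) s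
noncomputable def MM (s : ℤ) : ℝ := max (M0 s) (M1 s)

lemma le_M0 (j s : ℤ) : v (2 * j) s ≤ M0 s :=
  le_ciSup (f := fun j : ℤ => v (2 * j) s) ⟨1, by rintro _ ⟨i, rfl⟩; exact v_le_one _ _⟩ j

lemma le_M1 (j s : ℤ) : v (2 * j + 1) s ≤ M1 s :=
  le_ciSup (f := fun j : ℤ => v (2 * j + 1) s) ⟨1, by rintro _ ⟨i, rfl⟩; exact v_le_one _ _⟩ j

lemma M0_le (s : ℤ) {a : ℝ} (h : ∀ j, v (2 * j) s ≤ a) : M0 s ≤ a := ciSup_le h
lemma M1_le (s : ℤ) {a : ℝ} (h : ∀ j, v (2 * j + 1) s ≤ a) : M1 s ≤ a := ciSup_le h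

lemma MM_nonneg (s : ℤ) : 0 ≤ MM s := le_max_of_le_left ((v_nonneg _ _).trans (le_M0 0 s))
lemma MM_le_one (s : ℤ) : MM s ≤ 1 := max_le (M0_le s fun j => v_le_one _ _) (M1_le s fun j => v_le_one _ _)

lemma v_le_MM (j s : ℤ) : v j s ≤ MM s := by
  rcases Int.even_or_odd' j with ⟨k, hk | hk⟩
  · rw [hk]; exact (le_M0 k s).trans (le_max_left _ _)
  · rw [hk]; exact (le_M1 k s).trans (le_max_right _ _)

lemma v_conv (j s : ℤ) : v j s ≤ (MM (s + 1) + MM (s - 1)) / 2 := by
  have h := v_rec j s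
  have h1 := v_le_MM (2 * j) (s + sg j)
  have h2 := v_le_MM (2 * j + 1) (s - sg j)
  rcases sg_cases j with h3 | h3 <;> rw [h3] at h h1 h2
  · linarith
  · rw [sub_neg_eq_add] at h h2
    rw [← sub_eq_add_neg] at h h1
    linarith

lemma MM_conv (s : ℤ) : MM s ≤ (MM (s + 1) + MM (s - 1)) / 2 :=
  max_le (M0_le s fun j => v_conv _ _) (M1_le s fun j => v_conv _ _)

lemma const_of_convex (m : ℤ → ℝ) (h0 : ∀ s, 0 ≤ m s) (h1 : ∀ s, m s ≤ 1)
    (hc : ∀ s, m s ≤ (m (s + 1) + m (s - 1)) / 2) : ∀ s, m (s + 1) = m s := by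
  have hd : ∀ s, m s - m (s - 1) ≤ m (s + 1) - m s := fun s => by linarith [hc s]
  have hup : ∀ (s : ℤ) (k : ℕ), m (s + 1) - m s ≤ m (s + k + 1) - m (s + k) := by
    intro s k
    induction k with
    | zero => simp
    | succ k ih =>
      have := hd (s + k + 1)
      rw [add_sub_cancel_right] at this
      push_cast
      rw [show s + ((k:ℤ) + 1) + 1 = s + k + 1 + 1 by ring, show s + ((k:ℤ) + 1) = s + k + 1 by ring]
      linarith
  have hup2 : ∀ (s : ℤ) (k : ℕ), m s + k * (m (s + 1) - m s) ≤ m (s + k) := by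
    intro s k
    induction k with
    | zero => simp
    | succ k ih =>
      have := hup s k
      push_cast
      rw [show s + ((k:ℤ) + 1) = s + k + 1 by ring]
      linarith
  have hdown : ∀ (s : ℤ) (k : ℕ), m (s - k + 1) - m (s - k) ≤ m (s + 1) - m s := by
    intro s k
    have := hup (s - k) k
    rw [show s - (k:ℤ) + k = s by ring] at this
    exact this
  have hdown2 : ∀ (s : ℤ) (k : ℕ), m (s + 1) - k * (m (s + 1) - m s) ≤ m (s + 1 - k) := by
    intro s k
    induction k with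
    | zero => simp
    | succ k ih =>
      have := hdown s k
      push_cast
      rw [show s + 1 - ((k:ℤ) + 1) = s - k by ring]
      rw [show s + 1 - (k:ℤ) = s - k + 1 by ring] at ih
      linarith
  intro s
  apply le_antisymm
  · by_contra hcon
    push Not at hcon
    obtain ⟨k, hk⟩ := exists_nat_gt (1 / (m (s + 1) - m s))
    have hpos : 0 < m (s + 1) - m s := by linarith
    rw [div_lt_iff₀ hpos] at hk
    have := hup2 s k
    linarith [h0 s, h1 (s + k)]
  · by_contra hcon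
    push Not at hcon
    obtain ⟨k, hk⟩ := exists_nat_gt (1 / (m s - m (s + 1)))
    have hpos : 0 < m s - m (s + 1) := by linarith
    rw [div_lt_iff₀ hpos] at hk
    have := hdown2 s k
    linarith [h0 (s + 1), h1 (s + 1 - k)]

lemma v_zero (j s : ℤ) : v j s = 0 := by
  have hst := const_of_convex MM MM_nonneg MM_le_one MM_conv
  have e1 : MM (-1 + 1) = MM (-1) := hst (-1)
  have e2 : MM (-2 + 1) = MM (-2) := hst (-2)
  have e3 : MM (0 + 1) = MM 0 := hst 0
  norm_num at e1 e2 e3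
  have hcst : ∀ s, MM s = MM 0 := by
    intro s
    induction s using Int.induction_on with
    | zero => rfl
    | succ i ih => rw [hst, ih]
    | pred i ih =>
      have := hst (-(i:ℤ) - 1)
      rw [sub_add_cancel] at this
      rw [← this, ih]
  have hM00 : M0 0 ≤ 0 := M0_le 0 fun j => by
    unfold v
    rw [V_even_zero]; simp
  have hM0n : M0 (-1) ≤ MM 0 / 2 := by
    apply M0_le
    intro j
    have h := v_rec (2 * j) (-1)
    rw [sg_even (even_two_mul j)] at h
    have h1 : v (2 * (2 * j)) (-1 + 1) ≤ 0 := (le_M0 (2 * j) (-1 + 1)).trans hM00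
    have h2 : v (2 * (2 * j) + 1) (-1 - 1) ≤ MM 0 := by
      rw [← hcst (-1 - 1)]; exact v_le_MM _ _
    refine h.trans ((div_le_div_of_nonneg_right (add_le_add h1 h2) zero_le_two).trans ?_)
    linarith
  have hM10 : M1 0 ≤ 3 / 4 * MM 0 := by
    apply M1_le
    intro j
    have h := v_rec (2 * j + 1) 0
    rw [sg_odd (by simp)] at h
    have h1 : v (2 * (2 * j + 1)) (0 + -1) ≤ MM 0 / 2 := by
      exact (le_M0 (2 * j + 1) (0 + -1)).trans hM0n
    have h2 : v (2 * (2 * j + 1) + 1) (0 - -1) ≤ MM 0 := by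
      rw [← hcst (0 - -1)]; exact v_le_MM _ _
    refine h.trans ((div_le_div_of_nonneg_right (add_le_add h1 h2) zero_le_two).trans ?_)
    linarith
  have h0 : MM 0 ≤ 0 := by
    have : MM 0 ≤ max 0 (3 / 4 * MM 0) := max_le_max hM00 hM10
    rcases le_max_iff.mp this with h | h <;> linarith [MM_nonneg 0]
  have h1 := v_le_MM j s
  rw [hcst s] at h1
  linarith [v_nonneg j s]

lemma V_zero (j s : ℤ) : volume (Av j s) = 0 := by
  have h := v_zero j s
  unfold v at h
  rcases (ENNReal.toReal_eq_zero_iff _).mp h with h1 | h1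
  · exact h1
  · exact absurd h1 (V_ne_top j s)

/-- the recurrent points -/
def Rec : Set ℝ := {x | ∃ᶠ n in atTop, sig n x = 0 ∧ Even (idx n x)}

lemma ae_rec : ∀ᵐ x : ℝ, x ∈ Rec := by
  have hsub : Recᶜ ⊆ ⋃ n : ℕ, ⋃ j : ℤ, ⋃ s : ℤ, (fun x : ℝ => 2 ^ n * x) ⁻¹' Av j s := by
    intro x hx
    unfold Rec at hx
    rw [mem_compl_iff, mem_setOf_eq, not_frequently, eventually_atTop] at hx
    obtain ⟨n, hn⟩ := hx
    rw [mem_iUnion]
    refine ⟨n, ?_⟩
    rw [mem_iUnion]
    refine ⟨idx n x, ?_⟩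
    rw [mem_iUnion]
    refine ⟨sig n x, rfl, fun m => ?_⟩
    have := hn (n + m) (by omega)
    rwa [sig_add, idx_shift] at this
  rw [ae_iff]
  have : {a | ¬ a ∈ Rec} = Recᶜ := rfl
  rw [this]
  apply measure_mono_null hsub
  rw [measure_iUnion_null_iff]
  intro n
  rw [measure_iUnion_null_iff]
  intro j
  rw [measure_iUnion_null_iff]
  intro s
  rw [Real.volume_preimage_mul_left (by positivity), V_zero, mul_zero]

end Pool.Agent.X119.Gray
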