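import Mathlib
import Pool.Agent.X119.GrayC

set_option autoImplicit false

/-! The occupation measure of the Gray Takagi function is singular. -/

namespace Pool.Agent.X119.Gray

open MeasureTheory Filter Topology Set Metric
open scoped ENNReal

/-- density of the occupation measure -/
noncomputable def h : ℝ → ℝ≥0∞ := mu.rnDeriv volume

lemma h_meas : Measurable h := Measure.measurable_rnDeriv _ _

/-- good points of differentiation -/
def D : Set ℝ := {y | ∀ K : ℕ, Tendsto (fun a => mu a / volume a)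
  ((IsUnifLocDoublingMeasure.vitaliFamily volume (K:ℝ)).filterAt y) (𝓝 (h y))}

lemma ae_D : ∀ᵐ y : ℝ, y ∈ D := by
  have : ∀ᵐ y : ℝ, ∀ K : ℕ, Tendsto (fun a => mu a / volume a)
      ((IsUnifLocDoublingMeasure.vitaliFamily volume (K:ℝ)).filterAt y) (𝓝 (h y)) := by
    rw [ae_all_iff]
    intro K
    exact VitaliFamily.ae_tendsto_rnDeriv _ mu
  exact this

/-- differentiation along eccentric balls -/
lemma D_tendsto {y : ℝ} (hy : y ∈ D) (K : ℕ) (w δ : ℕ → ℝ) (hδ0 : ∀ n, 0 < δ n)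
    (hδ : Tendsto δ atTop (𝓝 0)) (hw : ∀ n, |y - w n| ≤ K * δ n) :
    Tendsto (fun n => mu (closedBall (w n) (δ n)) / volume (closedBall (w n) (δ n))) atTop (𝓝 (h y)) := by
  have h1 : Tendsto δ atTop (𝓝[>] 0) := by
    rw [tendsto_nhdsWithin_iff]
    exact ⟨hδ, Eventually.of_forall fun n => hδ0 n⟩
  have h2 := IsUnifLocDoublingMeasure.tendsto_closedBall_filterAt (μ := (volume : Measure ℝ))
    (K := (K:ℝ)) (x := y) w δ h1 (Eventually.of_forall fun n => by
      rw [mem_closedBall, Real.dist_eq]; exact hw n)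
  exact (hy K).comp h2

lemma vol_ball (w δ : ℝ) : volume (closedBall w δ) = ENNReal.ofReal (2 * δ) := Real.volume_closedBall w δ

/-- a copy of the occupation measure sits above an interval with slope zero -/
lemma copy {n : ℕ} {i : ℤ} (hi0 : 0 ≤ i) (hi1 : i + 1 ≤ 2 ^ n) (hs : sl n i = 0) (he : Even i)
    (w δ : ℝ) : ENNReal.ofReal ((2:ℝ)⁻¹ ^ n) * mu (closedBall w δ) ≤
      volume (f ⁻¹' closedBall (f ((i:ℝ) / 2 ^ n) + (2:ℝ)⁻¹ ^ n * w) ((2:ℝ)⁻¹ ^ n * δ) ∩
        Icc ((i:ℝ) / 2 ^ n) (((i:ℝ) + 1) / 2 ^ n)) := by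
  have h2n : (0:ℝ) < 2 ^ n := by positivity
  rw [mu_apply isClosed_closedBall.measurableSet]
  set S : Set ℝ := f ⁻¹' closedBall w δ ∩ Icc 0 1 with hS
  have hvol : volume ((fun t : ℝ => 2 ^ n * t) ⁻¹' ((fun t : ℝ => t + (-(i:ℝ))) ⁻¹' S)) =
      ENNReal.ofReal ((2:ℝ)⁻¹ ^ n) * volume S := by
    rw [Real.volume_preimage_mul_left h2n.ne', measure_preimage_add_right]
    congr 2
    rw [abs_of_pos (by positivity), inv_pow]
  rw [← hvol]
  apply measure_mono
  intro t ht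
  have ht1 : f (2 ^ n * t + -(i:ℝ)) ∈ closedBall w δ := ht.1
  have ht2 : 2 ^ n * t + -(i:ℝ) ∈ Icc (0:ℝ) 1 := ht.2
  set u : ℝ := 2 ^ n * t + -(i:ℝ) with hu
  have et : t = ((i:ℝ) + u) / 2 ^ n := by rw [hu]; field_simp; ring
  constructor
  · rw [mem_preimage, mem_closedBall, Real.dist_eq, et, piece n i u ht2.1 ht2.2, hs,
      f_int_add i ht2.1 ht2.2, sg_even he]
    rw [mem_closedBall, Real.dist_eq] at ht1
    have e : f ((i:ℝ) / 2 ^ n) + (2:ℝ)⁻¹ ^ n * (((0:ℤ):ℝ) * u + (f u - phi u + ((1:ℤ):ℝ) * phi u)) -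
        (f ((i:ℝ) / 2 ^ n) + (2:ℝ)⁻¹ ^ n * w) = (2:ℝ)⁻¹ ^ n * (f u - w) := by push_cast; ring
    rw [e, abs_mul, abs_of_pos (by positivity)]
    exact mul_le_mul_of_nonneg_left ht1 (by positivity)
  · rw [et]
    constructor
    · apply div_le_div_of_nonneg_right _ h2n.le
      linarith [ht2.1]
    · apply div_le_div_of_nonneg_right _ h2n.le
      linarith [ht2.2]

lemma Icc_sub {n : ℕ} {i : ℤ} (hi0 : 0 ≤ i) (hi1 : i + 1 ≤ 2 ^ n) :
    Icc ((i:ℝ) / 2 ^ n) (((i:ℝ) + 1) / 2 ^ n) ⊆ Icc (0:ℝ) 1 := by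
  have h2n : (0:ℝ) < 2 ^ n := by positivity
  have hi0' : (0:ℝ) ≤ i := by exact_mod_cast hi0
  have hi1' : (i:ℝ) + 1 ≤ 2 ^ n := by exact_mod_cast hi1
  apply Icc_subset_Icc
  · positivity
  · rw [div_le_one h2n]; exact hi1'

lemma ratio_scale (A : ℝ≥0∞) {c δ : ℝ} (hc : 0 < c) (hδ : 0 < δ) :
    ENNReal.ofReal c * A / ENNReal.ofReal (2 * (c * δ)) = A / ENNReal.ofReal (2 * δ) := by
  have e : ENNReal.ofReal (2 * (c * δ)) = ENNReal.ofReal c * ENNReal.ofReal (2 * δ) := by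
    rw [← ENNReal.ofReal_mul hc.le]; congr 1; ring
  rw [e]
  exact ENNReal.mul_div_mul_left _ _ (by simpa using hc) ENNReal.ofReal_ne_top

/-- domination at a good point -/
lemma dom {x : ℝ} (hx0 : 0 ≤ x) (hx1 : x < 1) (hxR : x ∈ Rec) (hD : f x ∈ D) (w δ : ℝ) (hδ : 0 < δ) :
    mu (closedBall w δ) / volume (closedBall w δ) ≤ h (f x) := by
  classical
  set P : ℕ → Prop := fun n => sig n x = 0 ∧ Even (idx n x) with hP
  set wn : ℕ → ℝ := fun n => if P n then f ((idx n x : ℝ) / 2 ^ n) + (2:ℝ)⁻¹ ^ n * w else f x with hwn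
  obtain ⟨K, hK⟩ := exists_nat_ge ((1 + |w|) / δ)
  have hK' : 1 + |w| ≤ K * δ := by rwa [div_le_iff₀ hδ] at hK
  have hlim : Tendsto (fun n : ℕ => (2:ℝ)⁻¹ ^ n * δ) atTop (𝓝 0) := by
    have := tendsto_inv_pow.mul_const δ
    rwa [zero_mul] at this
  have hpos : ∀ n : ℕ, (0:ℝ) < (2:ℝ)⁻¹ ^ n * δ := fun n => by positivity
  have hint : ∀ n, 0 ≤ idx n x ∧ idx n x + 1 ≤ 2 ^ n := by
    intro n
    constructor
    · unfold idx; apply Int.floor_nonneg.mpr; positivity
    · have : idx n x < 2 ^ n := by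
        unfold idx
        rw [Int.floor_lt]
        push_cast
        have : (0:ℝ) < 2 ^ n := by positivity
        nlinarith
      omega
  have hclose : ∀ n, |f x - wn n| ≤ K * ((2:ℝ)⁻¹ ^ n * δ) := by
    intro n
    by_cases hn : P n
    · simp only [hwn, if_pos hn]
      set u : ℝ := 2 ^ n * x - idx n x with hu
      have h2n : (0:ℝ) < 2 ^ n := by positivity
      have hu0 : 0 ≤ u := by
        have := idx_le n x
        rw [div_le_iff₀ h2n] at this; rw [hu]; linarith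
      have hu1 : u ≤ 1 := by
        have := lt_idx n x
        rw [lt_div_iff₀ h2n] at this; rw [hu]; linarith
      have ex : x = ((idx n x : ℝ) + u) / 2 ^ n := by rw [hu]; field_simp; ring
      have p := piece n (idx n x) u hu0 hu1
      rw [← ex] at p
      have hs : sl n (idx n x) = 0 := hn.1
      rw [hs, f_int_add _ hu0 hu1, sg_even hn.2] at p
      have e : f x - (f ((idx n x : ℝ) / 2 ^ n) + (2:ℝ)⁻¹ ^ n * w) = (2:ℝ)⁻¹ ^ n * (f u - w) := by
        rw [p]; push_cast; ring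
      rw [e, abs_mul, abs_of_pos (show (0:ℝ) < (2:ℝ)⁻¹ ^ n by positivity)]
      have q : |f u - w| ≤ 1 + |w| := (abs_sub _ _).trans (add_le_add (f_abs u) le_rfl)
      calc (2:ℝ)⁻¹ ^ n * |f u - w| ≤ (2:ℝ)⁻¹ ^ n * (K * δ) :=
            mul_le_mul_of_nonneg_left (q.trans hK') (by positivity)
        _ = _ := by ring
    · simp only [hwn, if_neg hn, sub_self, abs_zero]
      have := hpos n
      positivity
  have ht := D_tendsto hD K wn (fun n => (2:ℝ)⁻¹ ^ n * δ) hpos hlim hclose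
  apply ge_of_tendsto_of_frequently ht
  refine hxR.mono ?_
  intro n hn
  have hn' : P n := hn
  simp only [hwn, if_pos hn']
  rw [vol_ball, vol_ball, ← ratio_scale (mu (closedBall w δ)) (show (0:ℝ) < (2:ℝ)⁻¹ ^ n by positivity) hδ]
  apply ENNReal.div_le_div_right
  have hc := copy (hint n).1 (hint n).2 hn.1 hn.2 w δ
  refine hc.trans ?_
  rw [mu_apply isClosed_closedBall.measurableSet]
  exact measure_mono (inter_subset_inter_right _ (Icc_sub (hint n).1 (hint n).2))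

lemma D_le {z : ℝ} (hz : z ∈ D) {c : ℝ≥0∞} (hc : ∀ w δ : ℝ, 0 < δ →
    mu (closedBall w δ) / volume (closedBall w δ) ≤ c) : h z ≤ c := by
  have ht := D_tendsto hz 0 (fun _ => z) (fun n => (2:ℝ)⁻¹ ^ n) (fun n => by positivity)
    tendsto_inv_pow (fun n => by simp)
  exact le_of_tendsto' ht fun n => hc _ _ (by positivity)

lemma sl_42 : sl 4 2 = 0 := by decide
lemma sl_46 : sl 4 6 = 0 := by decide

lemma f_val (i : ℤ) (n : ℕ) : f ((i:ℝ) / 2 ^ (n + 1)) =
    f (((i / 2 : ℤ) : ℝ) / 2 ^ n) + (2:ℝ)⁻¹ ^ (n + 1) * (if i % 2 = 0 then 0 else (sl (n + 1) (2 * (i / 2)) : ℝ)) := by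
  obtain ⟨j, hj⟩ : ∃ j, i / 2 = j := ⟨_, rfl⟩
  rw [hj]
  rcases Int.emod_two_eq_zero_or_one i with h0 | h0
  · rw [if_pos h0]
    have : i = 2 * j := by omega
    rw [this, pow_succ]
    push_cast
    rw [mul_zero, add_zero]
    congr 1
    field_simp
  · rw [if_neg (by omega)]
    have hi : i = 2 * j + 1 := by omega
    have h1 := f_diff (n + 1) (2 * j)
    have e1 : (((2 * j : ℤ) : ℝ) + 1) / 2 ^ (n + 1) = (i:ℝ) / 2 ^ (n + 1) := by rw [hi]; push_cast; ring
    have e2 : ((2 * j : ℤ) : ℝ) / 2 ^ (n + 1) = (j:ℝ) / 2 ^ n := by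
      rw [pow_succ]; push_cast; field_simp
    rw [e1, e2] at h1
    linarith

lemma f_18 : f ((2:ℤ) / 2 ^ 4) = 3 / 8 := by
  rw [f_val 2 3, f_val _ 2, f_val _ 1, f_val _ 0]
  have h0 : f 0 = 0 := by have := f_int 0; simpa using this
  norm_num [sl, sg, h0]

lemma f_38 : f ((6:ℤ) / 2 ^ 4) = 3 / 8 := by
  rw [f_val 6 3, f_val _ 2, f_val _ 1, f_val _ 0]
  have h0 : f 0 = 0 := by have := f_int 0; simpa using this
  norm_num [sl, sg, h0]

/-- two copies at the same height -/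
lemma two_copies (w δ : ℝ) : 2 * (ENNReal.ofReal (1/16) * mu (closedBall w δ)) ≤
    mu (closedBall (3 / 8 + w / 16) (δ / 16)) := by
  have c1 := copy (n := 4) (i := 2) (by norm_num) (by norm_num) sl_42 (by decide) w δ
  have c2 := copy (n := 4) (i := 6) (by norm_num) (by norm_num) sl_46 (by decide) w δ
  rw [f_18] at c1
  rw [f_38] at c2
  have e1 : (3:ℝ) / 8 + 2⁻¹ ^ 4 * w = 3 / 8 + w / 16 := by ring
  have e2 : (2:ℝ)⁻¹ ^ 4 * δ = δ / 16 := by ring
  have e3 : (2:ℝ)⁻¹ ^ 4 = 1 / 16 := by norm_num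
  rw [e1, e2, e3] at c1 c2
  rw [mu_apply (s := closedBall (3 / 8 + w / 16) (δ / 16)) isClosed_closedBall.measurableSet, two_mul]
  refine (add_le_add c1 c2).trans ?_
  rw [← measure_union]
  · apply measure_mono
    rw [← inter_union_distrib_left]
    apply inter_subset_inter_right
    apply union_subset
    · exact Icc_sub (by norm_num) (by norm_num)
    · exact Icc_sub (by norm_num) (by norm_num)
  · rw [disjoint_iff_inter_eq_empty]
    ext t
    simp only [mem_inter_iff, mem_Icc, mem_empty_iff_false, iff_false]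
    rintro ⟨⟨_, _, h1⟩, _, h2, _⟩
    norm_num at h1 h2
    linarith
  · exact (f_cont.measurable isClosed_closedBall.measurableSet).inter measurableSet_Icc

lemma h_double {z : ℝ} (hz : z ∈ D) (hz' : 3 / 8 + z / 16 ∈ D) : 2 * h z ≤ h (3 / 8 + z / 16) := by
  have t1 := D_tendsto hz 0 (fun _ => z) (fun n => (2:ℝ)⁻¹ ^ n) (fun n => by positivity)
    tendsto_inv_pow (fun n => by simp)
  have hlim : Tendsto (fun n : ℕ => (2:ℝ)⁻¹ ^ n / 16) atTop (𝓝 0) := by
    have := tendsto_inv_pow.div_const 16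
    rwa [zero_div] at this
  have t2 := D_tendsto hz' 0 (fun _ => 3 / 8 + z / 16) (fun n => (2:ℝ)⁻¹ ^ n / 16)
    (fun n => by positivity) hlim (fun n => by simp)
  have t3 := ENNReal.Tendsto.const_mul t1 (a := 2) (Or.inr (by norm_num))
  refine le_of_tendsto_of_tendsto' t3 t2 fun n => ?_
  have h1 := two_copies z ((2:ℝ)⁻¹ ^ n)
  have h2 := ENNReal.div_le_div_right h1 (volume (closedBall (3 / 8 + z / 16) ((2:ℝ)⁻¹ ^ n / 16)))
  refine le_trans (le_of_eq ?_) h2
  rw [vol_ball, vol_ball]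
  have e : (2:ℝ) * ((2:ℝ)⁻¹ ^ n / 16) = 2 * (1/16 * (2:ℝ)⁻¹ ^ n) := by ring
  rw [e, mul_div_assoc, ratio_scale (mu (closedBall z ((2:ℝ)⁻¹ ^ n))) (show (0:ℝ) < 1/16 by norm_num)
    (show (0:ℝ) < (2:ℝ)⁻¹ ^ n by positivity)]

lemma ae_affine {p : ℝ → Prop} (hp : ∀ᵐ y : ℝ, p y) : ∀ᵐ z : ℝ, p (3 / 8 + z / 16) := by
  rw [ae_iff] at hp ⊢
  have : {a : ℝ | ¬ p (3 / 8 + a / 16)} =
      (fun t : ℝ => (1/16) * t) ⁻¹' ((fun t : ℝ => 3 / 8 + t) ⁻¹' {a | ¬ p a}) := by
    ext a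
    simp only [mem_setOf_eq, mem_preimage]
    rw [show (1:ℝ)/16 * a = a / 16 by ring]
  rw [this, Real.volume_preimage_mul_left (by norm_num), measure_preimage_add, hp, mul_zero]

/-- existence of good points in sets of positive mass of the density -/
lemma exists_good {S : Set ℝ} (hS : MeasurableSet S) (hpos : ∫⁻ y in S, h y ≠ 0) :
    ∃ y ∈ S, h y < ⊤ ∧ ∀ z ∈ D, h z ≤ h y := by
  set N := toMeasurable volume (Dᶜ ∪ {y | ¬ h y < ⊤}) with hN
  have hN0 : volume N = 0 := by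
    rw [hN, measure_toMeasurable, measure_union_null_iff]
    refine ⟨ae_D, ?_⟩
    have := Measure.rnDeriv_lt_top mu volume
    rw [ae_iff] at this
    exact this
  have hint : ∫⁻ y in S \ N, h y ≠ 0 := by
    rw [setLIntegral_congr (diff_null_ae_eq_self hN0)]
    exact hpos
  have hmu : mu (S \ N) ≠ 0 := by
    have h1 := Measure.withDensity_rnDeriv_le mu (volume : Measure ℝ) (S \ N)
    rw [withDensity_apply _ (hS.diff (measurableSet_toMeasurable _ _))] at h1
    intro h2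
    rw [h2] at h1
    exact hint (nonpos_iff_eq_zero.mp h1)
  rw [mu_apply (hS.diff (measurableSet_toMeasurable _ _))] at hmu
  have hnull : volume (Recᶜ ∪ {(1:ℝ)}) = 0 := by
    rw [measure_union_null_iff]
    refine ⟨?_, by simp⟩
    have := ae_rec
    rw [ae_iff] at this
    exact this
  have hne : ((f ⁻¹' (S \ N) ∩ Icc 0 1) \ (Recᶜ ∪ {(1:ℝ)})).Nonempty := by
    rw [nonempty_iff_ne_empty]
    intro h1
    apply hmu
    rw [diff_eq_empty] at h1
    exact measure_mono_null h1 hnull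
  obtain ⟨x, ⟨hx1, hx23⟩, hx4⟩ := hne
  have hx2 : 0 ≤ x := hx23.1
  have hx3 : x ≤ 1 := hx23.2
  rw [mem_union, not_or] at hx4
  have hxR : x ∈ Rec := by
    by_contra hcon
    exact hx4.1 hcon
  have hx1' : x < 1 := lt_of_le_of_ne hx3 hx4.2
  have hfx : f x ∉ Dᶜ ∪ {y | ¬ h y < ⊤} := fun hh => hx1.2 (subset_toMeasurable _ _ hh)
  rw [mem_union, not_or] at hfx
  have hD : f x ∈ D := by
    by_contra hcon
    exact hfx.1 hcon
  refine ⟨f x, hx1.1, ?_, fun z hz => D_le hz fun w δ hδ => dom hx2 hx1' hxR hD w δ hδ⟩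
  by_contra hcon
  exact hfx.2 hcon

theorem h_zero : ∀ᵐ y : ℝ, h y = 0 := by
  by_contra hcon
  set c := essSup h volume with hc
  have hpos : ∫⁻ y in univ, h y ≠ 0 := by
    rw [setLIntegral_univ]
    intro h0
    apply hcon
    rw [lintegral_eq_zero_iff h_meas] at h0
    exact h0
  have hle : ∀ y, (∀ z ∈ D, h z ≤ h y) → c ≤ h y := by
    intro y hy
    exact essSup_le_of_ae_le _ (by filter_upwards [ae_D] with z hz using hy z hz)
  have hcfin : c < ⊤ := by
    obtain ⟨y, _, hy1, hy2⟩ := exists_good MeasurableSet.univ hpos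
    exact (hle y hy2).trans_lt hy1
  have hmid : ∀ᵐ y : ℝ, ¬ (0 < h y ∧ h y < c) := by
    set S : Set ℝ := {y | 0 < h y ∧ h y < c} with hS
    have hSm : MeasurableSet S := (measurableSet_lt measurable_const h_meas).inter
      (measurableSet_lt h_meas measurable_const)
    have hS0 : ∫⁻ y in S, h y = 0 := by
      by_contra hne
      obtain ⟨y, hy, _, hy2⟩ := exists_good hSm hne
      exact absurd (hle y hy2) (not_le.mpr hy.2)
    rw [setLIntegral_eq_zero_iff hSm h_meas] at hS0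
    filter_upwards [hS0] with y hy hyS
    exact hyS.1.ne' (hy hyS)
  have hup : ∀ᵐ y : ℝ, h y ≤ c := ae_le_essSup
  apply hcon
  filter_upwards [ae_D, ae_affine ae_D, hmid, ae_affine hup] with z hz hz' hz1 hz2
  by_contra hne
  have h0 : 0 < h z := pos_iff_ne_zero.mpr hne
  have h1 : c ≤ h z := by
    by_contra hlt
    exact hz1 ⟨h0, not_le.mp hlt⟩
  have h2 := (h_double hz hz').trans hz2
  have h3 : 2 * c ≤ c := (mul_le_mul_right h1 2).trans h2
  have h4 : c = 0 := by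
    by_contra hc0
    have h5 : c + c ≤ c + 0 := by rw [add_zero, ← two_mul]; exact h3
    exact hc0 (nonpos_iff_eq_zero.mp ((ENNReal.add_le_add_iff_left hcfin.ne).mp h5))
  have h5 : h z < ⊤ := by
    have : 2 * h z ≤ 0 := by rw [← h4]; exact h2
    have h6 : h z ≤ 2 * h z := by
      calc h z = 1 * h z := (one_mul _).symm
        _ ≤ 2 * h z := mul_le_mul_left one_le_two _
    exact (h6.trans this).trans_lt (by simp)
  have h6 : 2 * h z ≤ 0 := by rw [← h4]; exact h2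
  exact hne (by simpa using h6)

/-- almost every level set of the Gray Takagi function is finite -/
theorem finite_level : ∀ᵐ y : ℝ, {x | x ∈ Icc (0:ℝ) 1 ∧ f x = y}.Finite := by
  filter_upwards [ae_D, h_zero] with y hy h0
  by_contra hinf
  have hinf' : {x | x ∈ Icc (0:ℝ) 1 ∧ f x = y}.Infinite := hinf
  have hlim : Tendsto (fun n : ℕ => 3 * (2:ℝ)⁻¹ ^ n) atTop (𝓝 0) := by
    have := tendsto_inv_pow.const_mul 3
    rwa [mul_zero] at this
  have t1 := D_tendsto hy 0 (fun _ => y) (fun n => 3 * (2:ℝ)⁻¹ ^ n) (fun n => by positivity)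
    hlim (fun n => by simp)
  rw [h0] at t1
  have hfreq : ∃ᶠ n : ℕ in atTop, ENNReal.ofReal (1/6) ≤
      mu (closedBall y (3 * (2:ℝ)⁻¹ ^ n)) / volume (closedBall y (3 * (2:ℝ)⁻¹ ^ n)) := by
    rw [frequently_atTop]
    intro N
    obtain ⟨k, hk, hm⟩ := crit hinf' N
    refine ⟨k, hk, ?_⟩
    refine le_trans (le_of_eq ?_) (ENNReal.div_le_div_right hm _)
    rw [vol_ball, ← ENNReal.ofReal_div_of_pos (by positivity)]
    congr 1
    have : (0:ℝ) < (2:ℝ)⁻¹ ^ k := by positivity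
    field_simp
    norm_num
  have := ge_of_tendsto_of_frequently t1 hfreq
  simp at this

end Pool.Agent.X119.Gray
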