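import Pool.Agent.H295R3.Hoheisel

set_option autoImplicit false

/-!
# Primes in the intervals `[x ^ c, x ^ c + x ^ (c - 1)]`
-/

namespace Pool.Agent.X119.Mil

open Finset Filter

theorem primes_mills : ∃ c₀ : ℝ, 2 ≤ c₀ ∧ ∀ c : ℝ, c₀ ≤ c → ∀ η : ℝ, 0 < η → ∃ x₀ : ℝ, ∀ x : ℕ, x₀ ≤ x →
    ∃ T : Finset ℕ, (∀ y ∈ T, y.Prime ∧ (x : ℝ) ^ c ≤ y ∧ (y : ℝ) ≤ (x : ℝ) ^ c + (x : ℝ) ^ (c - 1)) ∧
    (x : ℝ) ^ (c - 1 - η) ≤ T.card := by
  classical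
  obtain ⟨δ, η₁, hδ, hδ1, hη₁, X₀, -, hH⟩ := Pool.Agent.H295R3.D.hoheisel
  refine ⟨2 / δ, by rw [le_div_iff₀ hδ]; linarith, fun c hc η hη => ?_⟩
  have hcδ : 2 ≤ c * δ := by rw [div_le_iff₀ hδ] at hc; exact hc
  have hc1 : 2 < c := by nlinarith
  -- large `x`
  have tl : Tendsto (fun x : ℝ => Real.log x / x ^ (η / 2)) atTop (nhds 0) :=
    (isLittleO_log_rpow_atTop (by positivity : 0 < η / 2)).tendsto_div_nhds_zero
  have ev : ∀ᶠ x : ℝ in atTop, 2 ≤ x ∧ 8 ≤ x ^ (1 : ℝ) ∧ X₀ ≤ x ^ c ∧ 8 ≤ x ^ (c - 1) ∧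
      Real.log x / x ^ (η / 2) ≤ 1 ∧ 8 * c / η₁ ≤ x ^ (η / 2) := by
    filter_upwards [eventually_ge_atTop 2, (tendsto_rpow_atTop one_pos).eventually_ge_atTop 8,
      (tendsto_rpow_atTop (by linarith : 0 < c)).eventually_ge_atTop X₀,
      (tendsto_rpow_atTop (by linarith : 0 < c - 1)).eventually_ge_atTop 8,
      tl.eventually_le_const one_pos,
      (tendsto_rpow_atTop (by positivity : 0 < η / 2)).eventually_ge_atTop (8 * c / η₁)] with x b1 b2 b3 b4 b5 b6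
    exact ⟨b1, b2, b3, b4, b5, b6⟩
  obtain ⟨x₁, hx₁⟩ := eventually_atTop.1 ev
  refine ⟨x₁, fun x hx => ?_⟩
  obtain ⟨b1, b2, b3, b4, b5, b6⟩ := hx₁ x hx
  have hx0 : (0 : ℝ) < x := lt_of_lt_of_le two_pos b1
  rw [Real.rpow_one] at b2
  obtain ⟨X, hX⟩ : ∃ X : ℝ, X = (x : ℝ) ^ c := ⟨_, rfl⟩
  obtain ⟨Y, hY⟩ : ∃ Y : ℝ, Y = (x : ℝ) ^ (c - 1) := ⟨_, rfl⟩
  rw [← hX] at b3 ⊢
  rw [← hY] at b4 ⊢
  have hXY : X = x * Y := by
    rw [hX, hY]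
    have := Real.rpow_add hx0 1 (c - 1)
    rw [Real.rpow_one] at this
    rw [← this]
    congr 1
    ring
  have hX0 : 0 < X := by rw [hXY]; nlinarith
  have hYX : 8 * Y ≤ X := by rw [hXY]; nlinarith
  obtain ⟨X', hX'⟩ : ∃ X' : ℕ, X' = ⌈X⌉₊ := ⟨_, rfl⟩
  have k1 : X ≤ X' := by rw [hX']; exact Nat.le_ceil _
  have k2 : (X' : ℝ) < X + 1 := by rw [hX']; exact Nat.ceil_lt_add_one hX0.le
  obtain ⟨M, hM⟩ : ∃ M : ℕ, M = ⌊Y / 2⌋₊ := ⟨_, rfl⟩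
  have k5 : (M : ℝ) ≤ Y / 2 := by rw [hM]; exact Nat.floor_le (by linarith)
  have k6 : Y / 4 ≤ (M : ℝ) := by
    have : Y / 2 < M + 1 := by rw [hM]; exact Nat.lt_floor_add_one _
    linarith
  have hXbig : 8 ≤ X := by linarith
  have hlogX : Real.log X = c * Real.log x := by rw [hX, Real.log_rpow hx0]
  have hlogx : 0 < Real.log x := Real.log_pos (by linarith)
  have hlogX' : Real.log X' ≤ 2 * (c * Real.log x) := by
    have e1 : Real.log X' ≤ Real.log (X * X) := Real.log_le_log (by linarith) (by nlinarith)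
    rw [Real.log_mul hX0.ne' hX0.ne', hlogX] at e1
    linarith
  have hlogX'0 : 0 < Real.log X' := Real.log_pos (by linarith)
  have hK : η₁ * M / Real.log X' ≤ (((Ioc X' (X' + M)).filter Nat.Prime).card : ℝ) := by
    apply hH X' M (by exact_mod_cast b3.trans k1)
    · refine le_trans ?_ k6
      have e1 : (X' : ℝ) ^ (1 - δ) ≤ (2 * X) ^ (1 - δ) :=
        Real.rpow_le_rpow (by positivity) (by linarith) (by linarith)
      have e2 : (2 * X) ^ (1 - δ) = 2 ^ (1 - δ) * X ^ (1 - δ) := Real.mul_rpow (by norm_num) hX0.le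
      have e3 : (2 : ℝ) ^ (1 - δ) ≤ 2 := by
        have := Real.rpow_le_rpow_of_exponent_le (by norm_num : (1 : ℝ) ≤ 2) (by linarith : 1 - δ ≤ 1)
        simpa using this
      have e4 : 0 < X ^ (1 - δ) := by positivity
      have e5 : X ^ (1 - δ) ≤ (x : ℝ) ^ (c - 2) := by
        rw [hX, ← Real.rpow_mul hx0.le]
        exact Real.rpow_le_rpow_of_exponent_le (by linarith) (by nlinarith)
      have e6 : Y = x * (x : ℝ) ^ (c - 2) := by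
        rw [hY]
        have := Real.rpow_add hx0 1 (c - 2)
        rw [Real.rpow_one] at this
        rw [← this]
        congr 1
        ring
      have e7 : 0 < (x : ℝ) ^ (c - 2) := by positivity
      rw [e6]
      nlinarith
    · have : (M : ℝ) ≤ X' := by linarith
      exact_mod_cast this
  refine ⟨(Ioc X' (X' + M)).filter Nat.Prime, fun y hy => ?_, ?_⟩
  · rw [mem_filter, mem_Ioc] at hy
    obtain ⟨⟨h1, h2⟩, h3⟩ := hy
    have h1' : (X' : ℝ) < y := by exact_mod_cast h1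
    have h2' : (y : ℝ) ≤ X' + M := by exact_mod_cast h2
    exact ⟨h3, by linarith, by linarith⟩
  · refine le_trans ?_ hK
    rw [le_div_iff₀ hlogX'0]
    have e1 : (x : ℝ) ^ (c - 1 - η) * (x : ℝ) ^ (η / 2) * (x : ℝ) ^ (η / 2) = Y := by
      rw [hY, ← Real.rpow_add hx0, ← Real.rpow_add hx0]
      congr 1
      ring
    have hp : 0 < (x : ℝ) ^ (η / 2) := by positivity
    have hp' : 0 < (x : ℝ) ^ (c - 1 - η) := by positivity
    rw [div_le_one hp] at b5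
    rw [div_le_iff₀ hη₁] at b6
    have e2 : (x : ℝ) ^ (c - 1 - η) * Real.log X' ≤ (x : ℝ) ^ (c - 1 - η) * (2 * c * (x : ℝ) ^ (η / 2)) := by
      refine mul_le_mul_of_nonneg_left (hlogX'.trans ?_) hp'.le
      nlinarith
    have e3 : (x : ℝ) ^ (c - 1 - η) * (x : ℝ) ^ (η / 2) * (8 * c) ≤
        (x : ℝ) ^ (c - 1 - η) * (x : ℝ) ^ (η / 2) * ((x : ℝ) ^ (η / 2) * η₁) :=
      mul_le_mul_of_nonneg_left b6 (by positivity)
    have e4 : η₁ * (Y / 4) ≤ η₁ * M := mul_le_mul_of_nonneg_left k6 hη₁.le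
    rw [← e1] at e4
    calc (x : ℝ) ^ (c - 1 - η) * Real.log X' ≤ (x : ℝ) ^ (c - 1 - η) * (2 * c * (x : ℝ) ^ (η / 2)) := e2
      _ = 1 / 4 * ((x : ℝ) ^ (c - 1 - η) * (x : ℝ) ^ (η / 2) * (8 * c)) := by ring
      _ ≤ 1 / 4 * ((x : ℝ) ^ (c - 1 - η) * (x : ℝ) ^ (η / 2) * ((x : ℝ) ^ (η / 2) * η₁)) := by linarith
      _ = η₁ * ((x : ℝ) ^ (c - 1 - η) * (x : ℝ) ^ (η / 2) * (x : ℝ) ^ (η / 2) / 4) := by ring
      _ ≤ η₁ * M := e4

end Pool.Agent.X119.Mil
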