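import Pool.Agent.X119.MilHist

set_option autoImplicit false

/-!
# Mills-type sequences avoiding relations with a bounded number of the earlier numbers
-/

namespace Pool.Agent.X119.Mil

open Finset Filter

lemma subsets_card (S : Finset ℕ) (j : ℕ) :
    (((range (j + 1)).biUnion fun i => S.powersetCard i).card : ℝ) ≤ ((j : ℝ) + 1) * ((S.card : ℝ) + 1) ^ j := by
  have h1 : ((range (j + 1)).biUnion fun i => S.powersetCard i).card ≤ ∑ i ∈ range (j + 1), (S.powersetCard i).card :=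
    card_biUnion_le
  have h2 : ∑ i ∈ range (j + 1), (S.powersetCard i).card ≤ ∑ i ∈ range (j + 1), (S.card + 1) ^ j := by
    refine sum_le_sum fun i hi => ?_
    rw [mem_range] at hi
    rw [card_powersetCard]
    calc S.card.choose i ≤ S.card ^ i := Nat.choose_le_pow _ _
      _ ≤ (S.card + 1) ^ i := Nat.pow_le_pow_left (by omega) i
      _ ≤ (S.card + 1) ^ j := Nat.pow_le_pow_right (by omega) (by omega)
  rw [sum_const, card_range, smul_eq_mul] at h2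
  have h3 := h1.trans h2
  calc (((range (j + 1)).biUnion fun i => S.powersetCard i).card : ℝ) ≤ (((j + 1) * (S.card + 1) ^ j : ℕ) : ℝ) := by
        exact_mod_cast h3
    _ = _ := by push_cast; ring

/-- few numbers of a Mills interval are in a bad relation to at most `j` numbers of `S` -/
lemma bad_hist (c : ℝ) (hc : 1 < c) (R : ℕ → Finset ℕ → ℕ → Prop) (j : ℕ)
    (hR : ∃ E B : ℕ, ∀ H t : ℕ, (H + 2) ^ E ≤ t → ∀ S' : Finset ℕ, S'.card ≤ j → ∃ Bd : Finset ℕ,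
      Bd.card ≤ B ∧ ∀ y : ℕ, t < y → y ≤ t + H → y ∉ Bd → ¬ R j S' y) :
    ∃ γ : ℝ, 0 < γ ∧ ∃ x₀ : ℝ, ∀ x : ℕ, x₀ ≤ x → ∀ S : Finset ℕ, (S.card : ℝ) ≤ Real.log x → ∃ Bd : Finset ℕ,
      (Bd.card : ℝ) ≤ 1 / 2 * (x : ℝ) ^ (c - 1 - γ) ∧
      ∀ y : ℕ, (x : ℝ) ^ c ≤ y → (y : ℝ) ≤ (x : ℝ) ^ c + (x : ℝ) ^ (c - 1) → y ∉ Bd →
        ∀ S' : Finset ℕ, S' ⊆ S → S'.card ≤ j → ¬ R j S' y := by
  classical
  obtain ⟨E, B, hEB⟩ := hR
  have hc0 : 0 < c := by linarith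
  have hE1 : (0 : ℝ) < (E : ℝ) + 1 := by positivity
  have hj1 : (0 : ℝ) < (j : ℝ) + 1 := by positivity
  set γ : ℝ := min ((c - 1) / 2) (c / (2 * ((E : ℝ) + 1))) with hγ
  have hγ0 : 0 < γ := by rw [hγ]; exact lt_min (by linarith) (by positivity)
  have hγ1 : γ ≤ (c - 1) / 2 := min_le_left _ _
  have hγ2 : γ * ((E : ℝ) + 1) ≤ c / 2 := by
    have : γ ≤ c / (2 * ((E : ℝ) + 1)) := min_le_right _ _
    rw [le_div_iff₀ (by positivity)] at this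
    linarith
  set ε : ℝ := γ / (4 * ((j : ℝ) + 1)) with hε
  have hε0 : 0 < ε := by positivity
  have hεj : ε * j ≤ γ / 4 := by
    rw [hε]
    have : γ / (4 * ((j : ℝ) + 1)) * j = γ / 4 * (j / ((j : ℝ) + 1)) := by field_simp
    rw [this]
    have h1 : (j : ℝ) / ((j : ℝ) + 1) ≤ 1 := (div_le_one hj1).2 (by linarith)
    have h2 : 0 ≤ γ / 4 := by positivity
    nlinarith
  set C : ℝ := ((j : ℝ) + 1) * (1 / ε + 1) ^ j * (3 * ((B : ℝ) + 1)) with hC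
  have hC0 : 0 < C := by positivity
  refine ⟨γ / 2, by positivity, ?_⟩
  -- large `x`
  have ev1 : ∀ᶠ X : ℝ in atTop, 2 * C ≤ X ^ (γ / 4) :=
    (tendsto_rpow_atTop (by positivity)).eventually_ge_atTop _
  have ev2 : ∀ᶠ X : ℝ in atTop, 2 * (3 : ℝ) ^ E + 1 ≤ X ^ (c / 2) :=
    (tendsto_rpow_atTop (by positivity)).eventually_ge_atTop _
  have ev3 : ∀ᶠ X : ℝ in atTop, 2 ≤ X ^ γ :=
    (tendsto_rpow_atTop (by positivity)).eventually_ge_atTop _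
  obtain ⟨x₀, hx₀⟩ := eventually_atTop.1 ((ev1.and ev2).and (ev3.and (eventually_ge_atTop (1 : ℝ))))
  refine ⟨x₀, fun x hx S hS => ?_⟩
  obtain ⟨⟨h1, h2⟩, h3, hx1⟩ := hx₀ x hx
  have hxp : (0 : ℝ) < x := by linarith
  set H : ℕ := ⌊(x : ℝ) ^ γ⌋₊ with hH
  have hHle : (H : ℝ) ≤ (x : ℝ) ^ γ := Nat.floor_le (by positivity)
  have hHge : (x : ℝ) ^ γ / 2 ≤ H := by
    have := Nat.lt_floor_add_one ((x : ℝ) ^ γ)
    rw [← hH] at this
    linarith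
  have hH1 : 1 ≤ H := by
    have : (1 : ℝ) ≤ H := by linarith
    exact_mod_cast this
  have hHp : (0 : ℝ) < H := by exact_mod_cast hH1
  set t₀ : ℕ := ⌈(x : ℝ) ^ c⌉₊ - 1 with ht₀
  have hceil1 : 1 ≤ ⌈(x : ℝ) ^ c⌉₊ := Nat.one_le_ceil_iff.2 (by positivity)
  have hceil : (x : ℝ) ^ c ≤ (t₀ : ℝ) + 1 := by
    have e : ((t₀ + 1 : ℕ) : ℝ) = (⌈(x : ℝ) ^ c⌉₊ : ℝ) := by
      rw [ht₀, Nat.sub_add_cancel hceil1]
    have := Nat.le_ceil ((x : ℝ) ^ c)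
    rw [← e] at this
    exact_mod_cast this
  have hHt : (H + 2) ^ E ≤ t₀ := by
    have e1 : ((H : ℝ) + 2) ^ E ≤ (3 : ℝ) ^ E * (x : ℝ) ^ (c / 2) := by
      have e2 : (H : ℝ) + 2 ≤ 3 * (x : ℝ) ^ γ := by linarith
      calc ((H : ℝ) + 2) ^ E ≤ (3 * (x : ℝ) ^ γ) ^ E := pow_le_pow_left₀ (by positivity) e2 E
        _ = (3 : ℝ) ^ E * (x : ℝ) ^ (γ * E) := by rw [mul_pow, ← Real.rpow_mul_natCast hxp.le]
        _ ≤ (3 : ℝ) ^ E * (x : ℝ) ^ (c / 2) := by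
          refine mul_le_mul_of_nonneg_left (Real.rpow_le_rpow_of_exponent_le hx1 ?_) (by positivity)
          have : γ * (E : ℝ) ≤ γ * ((E : ℝ) + 1) := mul_le_mul_of_nonneg_left (by linarith) hγ0.le
          linarith
    have e3 : (x : ℝ) ^ c = (x : ℝ) ^ (c / 2) * (x : ℝ) ^ (c / 2) := by
      rw [← Real.rpow_add hxp]; congr 1; ring
    have e4 : (3 : ℝ) ^ E * (x : ℝ) ^ (c / 2) + 1 ≤ (x : ℝ) ^ c := by
      rw [e3]
      have p3 : (1 : ℝ) ≤ (3 : ℝ) ^ E := one_le_pow₀ (by norm_num)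
      nlinarith
    have e5 : (((H + 2) ^ E : ℕ) : ℝ) ≤ t₀ := by
      push_cast
      linarith
    exact_mod_cast e5
  set M : ℕ := ⌊(x : ℝ) ^ (c - 1) / H⌋₊ + 1 with hM
  choose! bd hbd using fun (t : ℕ) (ht : (H + 2) ^ E ≤ t) => hEB H t ht
  set F : Finset (Finset ℕ) := (range (j + 1)).biUnion fun i => S.powersetCard i with hF
  refine ⟨F.biUnion fun S' => (range M).biUnion fun i => bd (t₀ + i * H) S', ?_, ?_⟩
  · have c1 : ((F.biUnion fun S' => (range M).biUnion fun i => bd (t₀ + i * H) S').card : ℝ) ≤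
        (F.card : ℝ) * ((M : ℝ) * B) := by
      have : (F.biUnion fun S' => (range M).biUnion fun i => bd (t₀ + i * H) S').card ≤ F.card * (M * B) := by
        refine card_biUnion_le_card_mul _ _ _ fun S' hS' => ?_
        refine (card_biUnion_le_card_mul _ _ B fun i _ => ?_).trans (by rw [card_range])
        rw [hF, mem_biUnion] at hS'
        obtain ⟨i', hi', hS'⟩ := hS'
        rw [mem_range] at hi'
        rw [mem_powersetCard] at hS'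
        exact (hbd (t₀ + i * H) (hHt.trans (by omega)) S' (by omega)).1
      exact_mod_cast this
    have c2 := subsets_card S j
    rw [← hF] at c2
    have c3 : (M : ℝ) ≤ 3 * (x : ℝ) ^ (c - 1 - γ) := by
      have d1 : (M : ℝ) ≤ (x : ℝ) ^ (c - 1) / H + 1 := by
        rw [hM]; push_cast
        linarith [Nat.floor_le (show 0 ≤ (x : ℝ) ^ (c - 1) / H by positivity)]
      have d2 : (x : ℝ) ^ (c - 1) / H ≤ 2 * (x : ℝ) ^ (c - 1 - γ) := by
        rw [div_le_iff₀ hHp, Real.rpow_sub hxp _ γ]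
        have hg : (0 : ℝ) < (x : ℝ) ^ γ := by positivity
        have hg' : (0 : ℝ) < (x : ℝ) ^ (c - 1) := by positivity
        have : 2 * ((x : ℝ) ^ (c - 1) / (x : ℝ) ^ γ) * ((x : ℝ) ^ γ / 2) = (x : ℝ) ^ (c - 1) := by field_simp
        calc (x : ℝ) ^ (c - 1) = 2 * ((x : ℝ) ^ (c - 1) / (x : ℝ) ^ γ) * ((x : ℝ) ^ γ / 2) := this.symm
          _ ≤ _ := mul_le_mul_of_nonneg_left hHge (by positivity)
      have d3 : (1 : ℝ) ≤ (x : ℝ) ^ (c - 1 - γ) := Real.one_le_rpow hx1 (by linarith)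
      linarith
    have c4 : ((S.card : ℝ) + 1) ^ j ≤ (1 / ε + 1) ^ j * (x : ℝ) ^ (γ / 4) := by
      have d1 : (S.card : ℝ) + 1 ≤ (1 / ε + 1) * (x : ℝ) ^ ε := by
        have e1 := Real.log_le_rpow_div hxp.le hε0
        have e2 : (1 : ℝ) ≤ (x : ℝ) ^ ε := Real.one_le_rpow hx1 hε0.le
        have e3 : (x : ℝ) ^ ε / ε = 1 / ε * (x : ℝ) ^ ε := by ring
        rw [e3] at e1
        linarith
      calc ((S.card : ℝ) + 1) ^ j ≤ ((1 / ε + 1) * (x : ℝ) ^ ε) ^ j := pow_le_pow_left₀ (by positivity) d1 j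
        _ = (1 / ε + 1) ^ j * (x : ℝ) ^ (ε * j) := by rw [mul_pow, ← Real.rpow_mul_natCast hxp.le]
        _ ≤ _ := mul_le_mul_of_nonneg_left (Real.rpow_le_rpow_of_exponent_le hx1 hεj) (by positivity)
    have c5 : (x : ℝ) ^ (c - 1 - γ / 2) = (x : ℝ) ^ (γ / 4) * (x : ℝ) ^ (γ / 4) * (x : ℝ) ^ (c - 1 - γ) := by
      rw [← Real.rpow_add hxp, ← Real.rpow_add hxp]; congr 1; ring
    calc ((F.biUnion fun S' => (range M).biUnion fun i => bd (t₀ + i * H) S').card : ℝ)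
        ≤ (F.card : ℝ) * ((M : ℝ) * B) := c1
      _ ≤ (((j : ℝ) + 1) * ((1 / ε + 1) ^ j * (x : ℝ) ^ (γ / 4))) * ((3 * (x : ℝ) ^ (c - 1 - γ)) * (B + 1)) := by
        refine mul_le_mul (c2.trans (mul_le_mul_of_nonneg_left c4 (by positivity))) ?_ (by positivity) (by positivity)
        exact mul_le_mul c3 (by linarith) (by positivity) (by positivity)
      _ = C * (x : ℝ) ^ (γ / 4) * (x : ℝ) ^ (c - 1 - γ) := by rw [hC]; ring
      _ ≤ (1 / 2 * (x : ℝ) ^ (γ / 4)) * (x : ℝ) ^ (γ / 4) * (x : ℝ) ^ (c - 1 - γ) := by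
        gcongr
        linarith
      _ = 1 / 2 * (x : ℝ) ^ (c - 1 - γ / 2) := by rw [c5]; ring
  · intro y hy1 hy2 hyB S' hS' hS'j hRy
    have hy0 : t₀ < y := by
      have : ⌈(x : ℝ) ^ c⌉₊ ≤ y := Nat.ceil_le.2 hy1
      omega
    set i : ℕ := (y - t₀ - 1) / H with hi
    have hi1 : i * H ≤ y - t₀ - 1 := Nat.div_mul_le_self _ _
    have hi2 : y - t₀ - 1 < i * H + H := by
      have := Nat.lt_div_mul_add (a := y - t₀ - 1) (b := H) (by omega)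
      rw [← hi] at this
      exact this
    have hiM : i < M := by
      have e1 : (i : ℝ) ≤ (x : ℝ) ^ (c - 1) / H := by
        rw [le_div_iff₀ hHp]
        have e2 : ((i * H : ℕ) : ℝ) ≤ ((y - t₀ - 1 : ℕ) : ℝ) := by exact_mod_cast hi1
        have e3 : ((y - t₀ - 1 : ℕ) : ℝ) = (y : ℝ) - t₀ - 1 := by
          rw [Nat.cast_sub (by omega), Nat.cast_sub (by omega)]; push_cast; ring
        push_cast at e2
        rw [e3] at e2
        linarith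
      have e4 : i ≤ ⌊(x : ℝ) ^ (c - 1) / H⌋₊ := Nat.le_floor e1
      omega
    refine (hbd (t₀ + i * H) (hHt.trans (by omega)) S' hS'j).2 y (by omega) (by omega) (fun hmem => hyB ?_) hRy
    rw [mem_biUnion]
    refine ⟨S', ?_, mem_biUnion.2 ⟨i, mem_range.2 hiM, hmem⟩⟩
    rw [hF, mem_biUnion]
    exact ⟨S'.card, mem_range.2 (by omega), mem_powersetCard.2 ⟨hS', rfl⟩⟩

/-- **Mills-type sequences without bad relations.** If in every window of length `H` at `t ≥ (H + 2)^E` at most `B` numbers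
are in a bad relation to any given `j` numbers, the sequences `⌊θ ^ (c ^ n)⌋` with values in `A` and without bad relations
are given by a set of numbers `θ` of dimension `1`. -/
theorem mills_indep (c : ℝ) (hc : 1 < c) (A : ℕ → Prop) (R : ℕ → Finset ℕ → ℕ → Prop)
    (hA : ∀ η : ℝ, 0 < η → ∃ x₀ : ℝ, ∀ x : ℕ, x₀ ≤ x → ∃ T : Finset ℕ,
      (∀ y ∈ T, A y ∧ (x : ℝ) ^ c ≤ y ∧ (y : ℝ) ≤ (x : ℝ) ^ c + (x : ℝ) ^ (c - 1)) ∧
      (x : ℝ) ^ (c - 1 - η) ≤ T.card)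
    (hmono : ∀ j S' y, R j S' y → R (j + 1) S' y)
    (hR : ∀ j : ℕ, ∃ E B : ℕ, ∀ H t : ℕ, (H + 2) ^ E ≤ t → ∀ S' : Finset ℕ, S'.card ≤ j → ∃ Bd : Finset ℕ,
      Bd.card ≤ B ∧ ∀ y : ℕ, t < y → y ≤ t + H → y ∉ Bd → ¬ R j S' y)
    (U : Set ℝ) (hU : IsOpen U) (hne : (U ∩ Set.Ioi 1).Nonempty) :
    dimH {θ : ℝ | θ ∈ U ∧ 1 < θ ∧ ∃ N₀ : ℕ, (∀ n : ℕ, N₀ ≤ n → A ⌊θ ^ (c ^ n)⌋₊) ∧ ∀ j : ℕ, ∃ N : ℕ, N₀ ≤ N ∧
      ∀ n : ℕ, N ≤ n → ∀ S' : Finset ℕ, S' ⊆ ((Finset.Ico N₀ n).image fun k => ⌊θ ^ (c ^ k)⌋₊) → S'.card ≤ j →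
      ¬ R j S' ⌊θ ^ (c ^ n)⌋₊} = 1 := by
  classical
  have key := mills_hist c hc (fun j S y => A y ∧ ∀ S' : Finset ℕ, S' ⊆ S → S'.card ≤ j → ¬ R j S' y)
    (fun j S y h => ⟨h.1, fun S' h1 h2 h3 => h.2 S' h1 (by omega) (hmono j S' y h3)⟩)
    (fun j S S' y hSS h => ⟨h.1, fun S'' h1 h2 => h.2 S'' (h1.trans hSS) h2⟩) (by
      intro j η hη
      obtain ⟨γ, hγ, x₁, h1⟩ := bad_hist c hc R j (hR j)
      obtain ⟨x₂, h2⟩ := hA (min (η / 2) γ) (lt_min (by positivity) hγ)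
      have ev : ∀ᶠ X : ℝ in atTop, 2 ≤ X ^ (η / 2) := (tendsto_rpow_atTop (by positivity)).eventually_ge_atTop _
      obtain ⟨x₃, h3⟩ := eventually_atTop.1 (ev.and (eventually_ge_atTop (1 : ℝ)))
      refine ⟨max x₁ (max x₂ x₃), fun x hx S hS => ?_⟩
      obtain ⟨Bd, hB1, hB2⟩ := h1 x ((le_max_left _ _).trans hx) S hS
      obtain ⟨T, hT1, hT2⟩ := h2 x (((le_max_left _ _).trans (le_max_right _ _)).trans hx)
      obtain ⟨h4, hx1⟩ := h3 x (((le_max_right _ _).trans (le_max_right _ _)).trans hx)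
      have hxp : (0 : ℝ) < x := by linarith
      refine ⟨T \ Bd, fun y hy => ?_, ?_⟩
      · rw [Finset.mem_sdiff] at hy
        obtain ⟨a1, a2, a3⟩ := hT1 y hy.1
        exact ⟨⟨a1, fun S' h5 h6 => hB2 y a2 a3 hy.2 S' h5 h6⟩, a2, a3⟩
      · have e1 : (T.card : ℝ) - Bd.card ≤ (T \ Bd).card := by
          have := Finset.le_card_sdiff Bd T
          have e : T.card ≤ (T \ Bd).card + Bd.card := by omega
          have e' : (T.card : ℝ) ≤ (T \ Bd).card + Bd.card := by exact_mod_cast e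
          linarith
        have e2 : (x : ℝ) ^ (c - 1 - γ) ≤ (x : ℝ) ^ (c - 1 - min (η / 2) γ) :=
          Real.rpow_le_rpow_of_exponent_le hx1 (by linarith [min_le_right (η / 2) γ])
        have e3 : (x : ℝ) ^ (c - 1 - η / 2) ≤ (x : ℝ) ^ (c - 1 - min (η / 2) γ) :=
          Real.rpow_le_rpow_of_exponent_le hx1 (by linarith [min_le_left (η / 2) γ])
        have e4 : (x : ℝ) ^ (c - 1 - η / 2) = (x : ℝ) ^ (η / 2) * (x : ℝ) ^ (c - 1 - η) := by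
          rw [← Real.rpow_add hxp]; congr 1; ring
        have e5 : 0 < (x : ℝ) ^ (c - 1 - η) := by positivity
        nlinarith) U hU hne
  rw [← key]
  congr 1
  ext θ
  simp only [Set.mem_ofPred_eq]
  constructor
  · rintro ⟨h1, h2, N₀, h3, h4⟩
    refine ⟨h1, h2, N₀, fun j => ?_⟩
    obtain ⟨N, hN, h5⟩ := h4 j
    exact ⟨N, hN, fun n hn => ⟨h3 n (by omega), h5 n hn⟩⟩
  · rintro ⟨h1, h2, N₀, h3⟩
    obtain ⟨N₁, hN₁, h4⟩ := h3 0
    refine ⟨h1, h2, N₁, fun n hn => (h4 n hn).1, fun j => ?_⟩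
    obtain ⟨N, hN, h5⟩ := h3 j
    refine ⟨max N N₁, le_max_right _ _, fun n hn S' h6 h7 => (h5 n (by omega)).2 S' (h6.trans ?_) h7⟩
    exact image_subset_image (Ico_subset_Ico hN₁ le_rfl)

end Pool.Agent.X119.Mil
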