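import Pool.Agent.X119.MilTrA
import Pool.Agent.X119.MilTrC

set_option autoImplicit false

/-!
# Logarithms of the numbers of Mills-type sequences
-/

namespace Pool.Agent.X119.MilTr

open Module Pool.Agent.X119.Mil

/-- the bad relation of `y` to the numbers of `S'` -/
def Rel (w : ℕ → ℂ) (j : ℕ) (S' : Finset ℕ) (y : ℕ) : Prop :=
  Root j ((Finset.range j).image w ∪ S'.image fun s : ℕ => ((Real.log s : ℝ) : ℂ)) ((Real.log y : ℝ) : ℂ)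

lemma Rel.mono (w : ℕ → ℂ) (j : ℕ) (S' : Finset ℕ) (y : ℕ) (h : Rel w j S' y) : Rel w (j + 1) S' y :=
  Root.mono (by omega) (Finset.union_subset_union_left (Finset.image_subset_image
    (Finset.range_subset_range.2 (by omega)))) h

lemma Rel.win (hW : Win) (w : ℕ → ℂ) (j : ℕ) : ∃ E B : ℕ, ∀ H t : ℕ, (H + 2) ^ E ≤ t → ∀ S' : Finset ℕ,
    S'.card ≤ j → ∃ Bd : Finset ℕ, Bd.card ≤ B ∧ ∀ y : ℕ, t < y → y ≤ t + H → y ∉ Bd → ¬ Rel w j S' y := by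
  obtain ⟨E, hE⟩ := hW (2 * j)
  refine ⟨E, 2 * j + 1, fun H t ht S' hS' => ?_⟩
  obtain ⟨Bd, h1, h2⟩ := hE H t ht ((Finset.range j).image w ∪ S'.image fun s : ℕ => ((Real.log s : ℝ) : ℂ)) (by
    have e1 := Finset.card_union_le ((Finset.range j).image w) (S'.image fun s : ℕ => ((Real.log s : ℝ) : ℂ))
    have e2 := Finset.card_image_le (s := Finset.range j) (f := w)
    have e3 := Finset.card_image_le (s := S') (f := fun s : ℕ => ((Real.log s : ℝ) : ℂ))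
    rw [Finset.card_range] at e2
    omega)
  exact ⟨Bd, h1, fun y hy1 hy2 hy3 h => h2 y hy1 hy2 hy3 (Root.mono (by omega) (Finset.Subset.refl _) h)⟩

/-- no relations of bounded degree between a bounded number of the numbers `l k`, `k` large -/
def Free (w : ℕ → ℂ) (l : ℕ → ℂ) : Prop :=
  ∀ q m D : ℕ, ∃ N : ℕ, ∀ K : IntermediateField ℚ ℂ, FiniteDimensional ℚ K → finrank ℚ K ≤ D →
    ∀ k : Fin m → ℕ, Function.Injective k → (∀ i, N ≤ k i) →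
    ∀ P : MvPolynomial (Fin m) ℂ, P ≠ 0 → P.totalDegree ≤ D →
      (∀ s, P.coeff s ∈ Submodule.span K (w '' Set.Iio q)) → MvPolynomial.eval (fun i => l (k i)) P ≠ 0

/-- the numbers with small index do not matter -/
lemma free_of (w : ℕ → ℂ) (a : ℕ → ℕ) (N₀ : ℕ)
    (h : ∀ j : ℕ, ∃ N : ℕ, N₀ ≤ N ∧ ∀ n : ℕ, N ≤ n → ∀ S' : Finset ℕ,
      S' ⊆ ((Finset.Ico N₀ n).image a) → S'.card ≤ j → ¬ Rel w j S' (a n)) :
    Free w fun n => ((Real.log (a n) : ℝ) : ℂ) := by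
  classical
  intro q m D
  obtain ⟨N, hN, h1⟩ := h (q + m + D + 1)
  refine ⟨N, fun K hK hKD k hk hkN P hP hPD hPc => ?_⟩
  set σ : Equiv.Perm (Fin m) := Tuple.sort (fun i => OrderDual.toDual (k i)) with hσ
  have hσm : Monotone ((fun i => OrderDual.toDual (k i)) ∘ σ) := Tuple.monotone_sort _
  have hanti : StrictAnti fun i => k (σ i) := by
    intro a b hab
    have h2 : k (σ b) ≤ k (σ a) := hσm hab.le
    refine lt_of_le_of_ne h2 fun h3 => ?_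
    exact hab.ne' (σ.injective (hk h3))
  set P' : MvPolynomial (Fin m) ℂ := MvPolynomial.rename σ.symm P with hP'
  have key := all_together q D m w (fun n => ((Real.log (a n) : ℝ) : ℂ)) N (by
    intro n hn Z hZ hZm hroot
    have hex : ∀ z : ℂ, ∃ s : ℕ, (z ∈ Z ∧ ¬ ∃ i, i < q + m + D + 1 ∧ z = w i) →
        (s ∈ (Finset.Ico N₀ n).image a ∧ z = ((Real.log s : ℝ) : ℂ)) := by
      intro z
      by_cases hz : z ∈ Z ∧ ¬ ∃ i, i < q + m + D + 1 ∧ z = w i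
      · rcases hZm z hz.1 with h3 | ⟨p, hp1, hp2, hp3⟩
        · exact absurd h3 hz.2
        · exact ⟨a p, fun _ => ⟨Finset.mem_image_of_mem a (Finset.mem_Ico.2 ⟨hN.trans hp1, hp2⟩), hp3⟩⟩
      · exact ⟨0, fun h => absurd h hz⟩
    choose g hg using hex
    set S' : Finset ℕ := (Z.filter fun z => ¬ ∃ i, i < q + m + D + 1 ∧ z = w i).image g with hS'
    refine h1 n hn S' ?_ ?_ (Root.mono le_rfl ?_ hroot)
    · intro s hs
      rw [hS', Finset.mem_image] at hs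
      obtain ⟨z, hz, rfl⟩ := hs
      rw [Finset.mem_filter] at hz
      exact (hg z hz).1
    · exact (Finset.card_image_le.trans (Finset.card_filter_le _ _)).trans hZ
    · intro z hz
      rw [Finset.mem_union]
      by_cases h3 : ∃ i, i < q + m + D + 1 ∧ z = w i
      · obtain ⟨i, hi, rfl⟩ := h3
        exact Or.inl (Finset.mem_image_of_mem w (Finset.mem_range.2 hi))
      · right
        rw [Finset.mem_image]
        exact ⟨g z, Finset.mem_image_of_mem g (Finset.mem_filter.2 ⟨hz, h3⟩), (hg z ⟨hz, h3⟩).2.symm⟩)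
    K hK hKD m le_rfl (fun i => k (σ i)) hanti (fun i => hkN _) P' (by
      intro h0
      exact hP ((MvPolynomial.rename_injective _ σ.symm.injective) (by rw [map_zero]; exact h0)))
    ((MvPolynomial.totalDegree_rename_le _ _).trans hPD) (by
      intro s
      have e : s = Finsupp.mapDomain σ.symm (Finsupp.mapDomain σ s) := by
        rw [← Finsupp.mapDomain_comp]
        simp
      rw [e, hP', MvPolynomial.coeff_rename_mapDomain _ σ.symm.injective]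
      exact hPc _)
  rw [hP', MvPolynomial.eval_rename] at key
  have e : (fun i => ((Real.log (a (k (σ i))) : ℝ) : ℂ)) ∘ σ.symm = fun i => ((Real.log (a (k i)) : ℝ) : ℂ) := by
    funext i
    simp
  rw [e] at key
  exact key

theorem mills_logs (hW : Win) (c : ℝ) (hc : 1 < c) (A : ℕ → Prop)
    (hA : ∀ η : ℝ, 0 < η → ∃ x₀ : ℝ, ∀ x : ℕ, x₀ ≤ x → ∃ T : Finset ℕ,
      (∀ y ∈ T, A y ∧ (x : ℝ) ^ c ≤ y ∧ (y : ℝ) ≤ (x : ℝ) ^ c + (x : ℝ) ^ (c - 1)) ∧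
      (x : ℝ) ^ (c - 1 - η) ≤ T.card) (w : ℕ → ℂ)
    (U : Set ℝ) (hU : IsOpen U) (hne : (U ∩ Set.Ioi 1).Nonempty) :
    dimH {θ : ℝ | θ ∈ U ∧ 1 < θ ∧ (∃ N₀ : ℕ, ∀ n : ℕ, N₀ ≤ n → A ⌊θ ^ (c ^ n)⌋₊) ∧
      Free w fun n => ((Real.log (⌊θ ^ (c ^ n)⌋₊ : ℕ) : ℝ) : ℂ)} = 1 := by
  have key := mills_indep c hc A (Rel w) hA (Rel.mono w) (Rel.win hW w) U hU hne
  apply le_antisymm
  · refine (dimH_mono (Set.subset_univ _)).trans ?_
    rw [Real.dimH_univ]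
  · rw [← key]
    apply dimH_mono
    rintro θ ⟨h1, h2, N₀, h3, h4⟩
    exact ⟨h1, h2, ⟨N₀, h3⟩, free_of w (fun n => ⌊θ ^ (c ^ n)⌋₊) N₀ h4⟩

/-- all the integers -/
lemma int_mills (c : ℝ) (hc : 1 < c) (η : ℝ) (hη : 0 < η) : ∃ x₀ : ℝ, ∀ x : ℕ, x₀ ≤ x → ∃ T : Finset ℕ,
    (∀ y ∈ T, True ∧ (x : ℝ) ^ c ≤ y ∧ (y : ℝ) ≤ (x : ℝ) ^ c + (x : ℝ) ^ (c - 1)) ∧
    (x : ℝ) ^ (c - 1 - η) ≤ T.card := by
  have ev : ∀ᶠ X : ℝ in Filter.atTop, 2 ≤ X ^ η ∧ 4 ≤ X ^ (c - 1) := by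
    filter_upwards [(tendsto_rpow_atTop hη).eventually_ge_atTop 2,
      (tendsto_rpow_atTop (by linarith : 0 < c - 1)).eventually_ge_atTop 4] with X h1 h2
    exact ⟨h1, h2⟩
  obtain ⟨x₀, hx₀⟩ := Filter.eventually_atTop.1 (ev.and (Filter.eventually_ge_atTop (1 : ℝ)))
  refine ⟨x₀, fun x hx => ?_⟩
  obtain ⟨⟨h1, h2⟩, hx1⟩ := hx₀ x hx
  have hxp : (0 : ℝ) < x := by linarith
  set M : ℕ := ⌊(x : ℝ) ^ (c - 1)⌋₊ - 1 with hM
  have hfl1 : ((⌊(x : ℝ) ^ (c - 1)⌋₊ : ℕ) : ℝ) ≤ (x : ℝ) ^ (c - 1) := Nat.floor_le (by positivity)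
  have hfl2 : (x : ℝ) ^ (c - 1) < ((⌊(x : ℝ) ^ (c - 1)⌋₊ : ℕ) : ℝ) + 1 := Nat.lt_floor_add_one _
  have hfl3 : 1 ≤ ⌊(x : ℝ) ^ (c - 1)⌋₊ := Nat.le_floor (by push_cast; linarith)
  have hMc : (M : ℝ) = (⌊(x : ℝ) ^ (c - 1)⌋₊ : ℕ) - 1 := by
    rw [hM, Nat.cast_sub hfl3, Nat.cast_one]
  have hc1 : (x : ℝ) ^ c ≤ ⌈(x : ℝ) ^ c⌉₊ := Nat.le_ceil _
  have hc2 : (⌈(x : ℝ) ^ c⌉₊ : ℝ) < (x : ℝ) ^ c + 1 := Nat.ceil_lt_add_one (by positivity)
  refine ⟨Finset.Icc ⌈(x : ℝ) ^ c⌉₊ (⌈(x : ℝ) ^ c⌉₊ + M), fun y hy => ?_, ?_⟩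
  · rw [Finset.mem_Icc] at hy
    have g1 : (⌈(x : ℝ) ^ c⌉₊ : ℝ) ≤ y := by exact_mod_cast hy.1
    have g2 : (y : ℝ) ≤ ⌈(x : ℝ) ^ c⌉₊ + M := by exact_mod_cast hy.2
    exact ⟨trivial, by linarith, by linarith⟩
  · rw [Nat.card_Icc, show ⌈(x : ℝ) ^ c⌉₊ + M + 1 - ⌈(x : ℝ) ^ c⌉₊ = M + 1 by omega]
    push_cast
    have e : (x : ℝ) ^ (c - 1) = (x : ℝ) ^ η * (x : ℝ) ^ (c - 1 - η) := by
      rw [← Real.rpow_add hxp]; congr 1; ring
    have e0 : 0 < (x : ℝ) ^ (c - 1 - η) := by positivity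
    have e1 : (x : ℝ) ^ (c - 1) / 2 ≤ (x : ℝ) ^ (c - 1) - 1 := by linarith
    nlinarith

end Pool.Agent.X119.MilTr
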