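import Pool.Agent.Y921.FE.Mat

set_option autoImplicit false

/-!
# The four exponentials property for numbers which are added one after the other
-/

namespace Pool.Agent.X119.MilTr

open Module Pool.Agent.Y921.FE

variable {K A : Type*} [Field K] [Field A] [CharZero A] [Algebra K A]

omit [CharZero A] in
lemma good_empty {σ : Type*} [Fintype σ] [IsEmpty σ] (V : Submodule K A) (l : σ → A) : Good V l := by
  have e : V ⊔ Submodule.span K (Set.range l) = V := by
    rw [Set.range_eq_empty, Submodule.span_empty, sup_bot_eq]
  refine ⟨?_, fun u v _ _ h => ?_⟩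
  · rw [e, Fintype.card_eq_zero, add_zero]
  · rw [e] at h
    exact h

omit [CharZero A] in
lemma good_equiv {σ τ : Type*} [Fintype σ] [Fintype τ] (e : σ ≃ τ) {V : Submodule K A} {l : τ → A} (h : Good V l) :
    Good V (l ∘ e) := by
  have h1 : Set.range (l ∘ e) = Set.range l := e.surjective.range_comp l
  unfold Good
  rw [h1, Fintype.card_congr e]
  exact h

omit [CharZero A] in
lemma good_insert {σ τ : Type*} [Fintype σ] [Fintype τ] {V : Submodule K A} {l : σ → A} {l' : τ → A} {x : A}
    (h : Good V l) (h1 : Good (V ⊔ Submodule.span K (Set.range l)) (fun _ : Fin 1 => x))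
    (hr : Set.range l' = insert x (Set.range l)) (hc : Fintype.card τ = Fintype.card σ + 1) : Good V l' := by
  have e : V ⊔ Submodule.span K (Set.range l') =
      (V ⊔ Submodule.span K (Set.range l)) ⊔ Submodule.span K (Set.range fun _ : Fin 1 => x) := by
    rw [hr, Set.range_const, Set.insert_eq, Submodule.span_union, sup_assoc,
      sup_comm (Submodule.span K {x})]
  refine ⟨?_, fun u v hu hv huv => ?_⟩
  · rw [e, h1.1, h.1, hc, Fintype.card_fin, add_assoc]
  · rw [e] at huv
    exact h.2 u v hu hv (h1.2 u v hu hv huv)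

omit [CharZero A] in
lemma good_finset (V : Submodule K A) (l : ℕ → A) (N m : ℕ)
    (h : ∀ n, N ≤ n → ∀ s : Finset ℕ, (∀ k ∈ s, N ≤ k ∧ k < n) → s.card ≤ m →
      Good (V ⊔ Submodule.span K (l '' (s : Set ℕ))) (fun _ : Fin 1 => l n)) :
    ∀ s : Finset ℕ, (∀ k ∈ s, N ≤ k) → s.card ≤ m → Good V (fun i : s => l i) := by
  classical
  intro s
  induction s using Finset.induction_on_max with
  | empty => exact fun _ _ => good_empty V _
  | insert n s hns ih =>
    intro hsN hsm
    have hn : n ∉ s := fun hmem => lt_irrefl _ (hns n hmem)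
    have hcard : (insert n s).card = s.card + 1 := Finset.card_insert_of_notMem hn
    have h1 := ih (fun k hk => hsN k (Finset.mem_insert_of_mem hk)) (by omega)
    have h2 := h n (hsN n (Finset.mem_insert_self _ _)) s
      (fun k hk => ⟨hsN k (Finset.mem_insert_of_mem hk), hns k hk⟩) (by omega)
    have hr : Set.range (fun i : s => l i) = l '' (s : Set ℕ) := by
      ext z
      simp
    rw [← hr] at h2
    refine good_insert h1 h2 ?_ ?_
    · rw [hr]
      ext z
      simp
      tauto
    · rw [Fintype.card_coe, Fintype.card_coe, hcard]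

end Pool.Agent.X119.MilTr
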