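import Mathlib
import Pool.Agent.X119.TrigInt

set_option autoImplicit false

/-! The sixth cumulant of a sum of cosines as a sum over six-term relations. -/

namespace Pool.Agent.X119.Kap6

open MeasureTheory ProbabilityTheory Filter Topology Finset
open Pool.Agent.X119.Cumul Pool.Agent.X119.TrigInt
open scoped Real

/-- The sixth cumulant of a centred function in terms of moments. -/
lemma kap_six {X : ℝ → ℝ} (hX : Bdd X) (h1 : ∫ ω, X ω ∂nu = 0) :
    kap X 6 = (∫ ω, X ω ^ 6 ∂nu) - 15 * (∫ ω, X ω ^ 4 ∂nu) * (∫ ω, X ω ^ 2 ∂nu)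
      - 10 * (∫ ω, X ω ^ 3 ∂nu) ^ 2 + 30 * (∫ ω, X ω ^ 2 ∂nu) ^ 3 := by
  have aX := analyticAt_mgf hX.mem
  have hm : ∀ r, iteratedDeriv r (mgf X nu) 0 = ∫ ω, X ω ^ r ∂nu := by
    intro r
    rw [iteratedDeriv_mgf_zero hX.mem]; rfl
  have hr := fun r => log_rec (mgf X nu) aX (mgf_pos' X) r
  have e0 := hr 0
  have e1 := hr 1
  have e2 := hr 2
  have e3 := hr 3
  have e4 := hr 4
  have e5 := hr 5
  rw [kap_eq]
  set K : ℕ → ℝ := fun m => iteratedDeriv m (fun t : ℝ => Real.log (mgf X nu t)) 0 with hK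
  have hK' : ∀ m, iteratedDeriv m (fun t : ℝ => Real.log (mgf X nu t)) 0 = K m := fun m => rfl
  simp only [hK', hm] at e0 e1 e2 e3 e4 e5 ⊢
  simp only [sum_range_succ, range_zero, sum_empty, Nat.choose, Nat.sub_zero, Nat.sub_self,
    pow_zero, pow_one, h1, integral_const] at e0 e1 e2 e3 e4 e5
  norm_num at e0 e1 e2 e3 e4 e5
  have k1 : K 1 = 0 := by linarith
  have k2 : K 2 = ∫ ω, X ω ^ 2 ∂nu := e1.symm
  simp only [k1, h1, k2] at e2 e3 e4 e5
  have k3 : K 3 = ∫ ω, X ω ^ 3 ∂nu := by linarith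
  simp only [k3] at e3 e4 e5
  have k4 : K 4 = (∫ ω, X ω ^ 4 ∂nu) - 3 * (∫ ω, X ω ^ 2 ∂nu) ^ 2 := by linarith
  simp only [k4] at e4 e5
  linarith

/-! ### Moments as numbers of relations -/

section moments
variable {ι : Type*} [Fintype ι] (b : ι → ℕ)

/-- signed frequencies -/
def val (x : ι × Bool) : ℤ := if x.2 then (b x.1 : ℤ) else -(b x.1 : ℤ)

/-- the sum of cosines -/
noncomputable def SS (ω : ℝ) : ℝ := ∑ k, Real.cos (2 * π * b k * ω)

/-- the set of relations of length `m` -/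
def Rel (m : ℕ) : Finset (Fin m → ι × Bool) := univ.filter fun x => ∑ i, val b (x i) = 0

lemma SS_bdd : Bdd (SS b) := by
  refine ⟨by unfold SS; fun_prop, Fintype.card ι, fun ω => ?_⟩
  unfold SS
  refine (abs_sum_le_sum_abs _ _).trans ?_
  calc ∑ k, |Real.cos (2 * π * b k * ω)| ≤ ∑ _k : ι, (1:ℝ) :=
        sum_le_sum fun k _ => Real.abs_cos_le_one _
    _ = Fintype.card ι := by simp

lemma SS_eq (ω : ℝ) : ((SS b ω : ℝ) : ℂ) = (1/2) * ∑ x : ι × Bool, e (val b x) ω := by
  unfold SS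
  rw [Complex.ofReal_sum, Fintype.sum_prod_type, mul_sum]
  refine sum_congr rfl fun k _ => ?_
  rw [cos_eq, Fintype.sum_bool]
  simp [val]

lemma prod_e (m : ℕ) (f : Fin m → ℤ) (ω : ℝ) : ∏ i, e (f i) ω = e (∑ i, f i) ω := by
  induction m with
  | zero => simp [e_zero]
  | succ m ih => rw [Fin.prod_univ_succ, Fin.sum_univ_succ, ih, ← e_add]

lemma moment (m : ℕ) : ∫ ω, SS b ω ^ m ∂nu = ((Rel b m).card : ℝ) / 2 ^ m := by
  have h1 : ∀ ω, ((SS b ω ^ m : ℝ) : ℂ) =
      (1/2) ^ m * ∑ x : Fin m → ι × Bool, e (∑ i, val b (x i)) ω := by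
    intro ω
    rw [Complex.ofReal_pow, SS_eq, mul_pow, Fintype.sum_pow]
    congr 1
    exact sum_congr rfl fun x _ => prod_e m _ ω
  have h2 : ((∫ ω, SS b ω ^ m ∂nu : ℝ) : ℂ) = (((Rel b m).card : ℝ) / 2 ^ m : ℝ) := by
    rw [← integral_complex_ofReal]
    have h3 : ∫ ω, ((SS b ω ^ m : ℝ) : ℂ) ∂nu =
        ∫ ω, (1/2) ^ m * ∑ x : Fin m → ι × Bool, e (∑ i, val b (x i)) ω ∂nu :=
      integral_congr_ae (Eventually.of_forall h1)
    refine h3.trans ?_
    rw [integral_const_mul, integral_finsetSum _ (fun x _ => integ (e_cont _))]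
    simp_rw [int_e]
    rw [← sum_filter, sum_const, nsmul_eq_mul, mul_one]
    unfold Rel
    push_cast
    rw [one_div, inv_pow]
    field_simp
  exact_mod_cast h2

end moments

/-! ### The symmetric function -/

/-- indicator of a cancelling pair -/
def z (a b : ℤ) : ℤ := if a + b = 0 then 1 else 0

/-- indicator of a cancelling triple -/
def t (a b c : ℤ) : ℤ := if a + b + c = 0 then 1 else 0

lemma z_comm (a b : ℤ) : z a b = z b a := by unfold z; rw [add_comm]

lemma t_comm1 (a b c : ℤ) : t a b c = t b a c := by unfold t; rw [add_comm a b]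

lemma t_comm2 (a b c : ℤ) : t a b c = t a c b := by unfold t; rw [add_right_comm]

/-- twice the joint cumulant of six characters -/
def F (a b c d e f : ℤ) : ℤ :=
  2 - 2 * (z a b + z a c + z a d + z a e + z a f + z b c + z b d + z b e + z b f + z c d + z c e + z c f + z d e + z d f + z e f)
    - (t a b c + t a b d + t a b e + t a b f + t a c d + t a c e + t a c f + t a d e + t a d f + t a e f + t b c d + t b c e + t b c f + t b d e + t b d f + t b e f + t c d e + t c d f + t c e f + t d e f)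
    + 4 * (z a b * z c d * z e f + z a b * z c e * z d f + z a b * z c f * z d e + z a c * z b d * z e f + z a c * z b e * z d f + z a c * z b f * z d e + z a d * z b c * z e f + z a d * z b e * z c f + z a d * z b f * z c e + z a e * z b c * z d f + z a e * z b d * z c f + z a e * z b f * z c d + z a f * z b c * z d e + z a f * z b d * z c e + z a f * z b e * z c d)

lemma F_swap0 (a b c d e f : ℤ) : F b a c d e f = F a b c d e f := by
  unfold F
  rw [z_comm b a, t_comm1 b a c, t_comm1 b a d, t_comm1 b a e, t_comm1 b a f]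
  ring

lemma F_swap1 (a b c d e f : ℤ) : F a c b d e f = F a b c d e f := by
  unfold F
  rw [z_comm c b, t_comm2 a c b, t_comm1 c b d, t_comm1 c b e, t_comm1 c b f]
  ring

lemma F_swap2 (a b c d e f : ℤ) : F a b d c e f = F a b c d e f := by
  unfold F
  rw [z_comm d c, t_comm2 a d c, t_comm2 b d c, t_comm1 d c e, t_comm1 d c f]
  ring

lemma F_swap3 (a b c d e f : ℤ) : F a b c e d f = F a b c d e f := by
  unfold F
  rw [z_comm e d, t_comm2 a e d, t_comm2 b e d, t_comm2 c e d, t_comm1 e d f]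
  ring

lemma F_swap4 (a b c d e f : ℤ) : F a b c d f e = F a b c d e f := by
  unfold F
  rw [z_comm f e, t_comm2 a f e, t_comm2 b f e, t_comm2 c f e, t_comm2 d f e]
  ring

/-- the function `F` on vectors -/
def C (v : Fin 6 → ℤ) : ℤ := F (v 0) (v 1) (v 2) (v 3) (v 4) (v 5)

lemma C_perm (σ : Equiv.Perm (Fin 6)) (v : Fin 6 → ℤ) : C (v ∘ σ) = C v := by
  have hmem : σ ∈ Submonoid.closure (Set.range fun i : Fin 5 => Equiv.swap i.castSucc i.succ) := by
    rw [Equiv.Perm.mclosure_swap_castSucc_succ]; trivial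
  induction hmem using Submonoid.closure_induction generalizing v with
  | mem x hx =>
    obtain ⟨i, rfl⟩ := hx
    fin_cases i
    · exact F_swap0 _ _ _ _ _ _
    · exact F_swap1 _ _ _ _ _ _
    · exact F_swap2 _ _ _ _ _ _
    · exact F_swap3 _ _ _ _ _ _
    · exact F_swap4 _ _ _ _ _ _
  | one => rfl
  | mul x y _ _ hx hy =>
    rw [Equiv.Perm.coe_mul, ← Function.comp_assoc, hy, hx]

/-! ### Summing over relations -/

section sums
variable {ι : Type*} [Fintype ι] (b : ι → ℕ)

lemma sum_cons {I : Type*} [Fintype I] {k : ℕ} (h : (Fin (k + 1) → I) → ℤ) :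
    ∑ x, h x = ∑ a, ∑ y : Fin k → I, h (Fin.cons a y) := by
  rw [← (Fin.consEquiv (fun _ : Fin (k + 1) => I)).sum_comp, Fintype.sum_prod_type]
  rfl

lemma sum_zero {I : Type*} [Fintype I] (h : (Fin 0 → I) → ℤ) :
    ∑ x, h x = h ![] := by
  rw [Fintype.sum_unique]
  congr 1

/-- indicator of zero -/
def dl (a : ℤ) : ℤ := if a = 0 then 1 else 0

lemma card_Rel (m : ℕ) : ((Rel b m).card : ℤ) = ∑ x : Fin m → ι × Bool, dl (∑ i, val b (x i)) := by
  unfold Rel dl
  rw [card_filter]; push_cast; rfl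

lemma N2_eq : ((Rel b 2).card : ℤ) = ∑ p, ∑ q, z (val b p) (val b q) := by
  rw [card_Rel, sum_cons]
  refine sum_congr rfl fun p _ => ?_
  rw [sum_cons]
  refine sum_congr rfl fun q _ => ?_
  rw [sum_zero]
  simp [Fin.sum_univ_succ, z, dl]

lemma N3_eq : ((Rel b 3).card : ℤ) = ∑ p, ∑ q, ∑ r, t (val b p) (val b q) (val b r) := by
  rw [card_Rel, sum_cons]
  refine sum_congr rfl fun p _ => ?_
  rw [sum_cons]
  refine sum_congr rfl fun q _ => ?_
  rw [sum_cons]
  refine sum_congr rfl fun r _ => ?_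
  rw [sum_zero]
  simp [Fin.sum_univ_succ, t, dl, add_assoc]

lemma N4_eq : ((Rel b 4).card : ℤ) = ∑ p, ∑ q, ∑ r, ∑ s,
    dl (val b p + val b q + val b r + val b s) := by
  rw [card_Rel, sum_cons]
  refine sum_congr rfl fun p _ => ?_
  rw [sum_cons]
  refine sum_congr rfl fun q _ => ?_
  rw [sum_cons]
  refine sum_congr rfl fun r _ => ?_
  rw [sum_cons]
  refine sum_congr rfl fun s _ => ?_
  rw [sum_zero]
  simp [Fin.sum_univ_succ, dl, add_assoc]

lemma sum_six {I : Type*} [Fintype I] (g : I → I → I → I → I → I → ℤ) :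
    ∑ x : Fin 6 → I, g (x 0) (x 1) (x 2) (x 3) (x 4) (x 5) =
      ∑ p, ∑ q, ∑ r, ∑ s, ∑ u, ∑ w, g p q r s u w := by
  rw [sum_cons]
  refine sum_congr rfl fun p _ => ?_
  rw [sum_cons]
  refine sum_congr rfl fun q _ => ?_
  rw [sum_cons]
  refine sum_congr rfl fun r _ => ?_
  rw [sum_cons]
  refine sum_congr rfl fun s _ => ?_
  rw [sum_cons]
  refine sum_congr rfl fun u _ => ?_
  rw [sum_cons]
  refine sum_congr rfl fun w _ => ?_
  rw [sum_zero]
  rfl

lemma sum_reindex {I : Type*} [Fintype I] (f : Fin 6 → Fin 6) (hf : Function.Injective f)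
    (h : (Fin 6 → I) → ℤ) : ∑ x, h (x ∘ f) = ∑ x, h x := by
  have hb : Function.Bijective f := Finite.injective_iff_bijective.mp hf
  exact (Equiv.arrowCongr (Equiv.ofBijective f hb).symm (Equiv.refl I)).sum_comp h

lemma rel_sum (g : (Fin 6 → ι × Bool) → ℤ) :
    ∑ x ∈ Rel b 6, g x = ∑ x, dl (∑ i, val b (x i)) * g x := by
  unfold Rel dl
  rw [sum_filter]
  refine sum_congr rfl fun x _ => ?_
  split_ifs <;> simp

lemma rel_reindex (f : Fin 6 → Fin 6) (hf : Function.Injective f) (g : (Fin 6 → ι × Bool) → ℤ) :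
    ∑ x ∈ Rel b 6, g (x ∘ f) = ∑ x ∈ Rel b 6, g x := by
  rw [rel_sum, rel_sum, ← sum_reindex f hf (fun x => dl (∑ i, val b (x i)) * g x)]
  refine sum_congr rfl fun x _ => ?_
  congr 2
  have hb : Function.Bijective f := Finite.injective_iff_bijective.mp hf
  exact ((Equiv.ofBijective f hb).sum_comp (fun i => val b (x i))).symm

lemma tz (f : Fin 6 → Fin 6) (hf : Function.Injective f) :
    ∑ x ∈ Rel b 6, z (val b (x (f 0))) (val b (x (f 1))) =
      ((Rel b 2).card : ℤ) * (Rel b 4).card := by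
  refine (rel_reindex b f hf (fun x => z (val b (x 0)) (val b (x 1)))).trans ?_
  rw [rel_sum]
  have h1 : ∀ x : Fin 6 → ι × Bool, dl (∑ i, val b (x i)) * z (val b (x 0)) (val b (x 1)) =
      (fun p q r s u w => z (val b p) (val b q) *
        dl (val b r + val b s + val b u + val b w)) (x 0) (x 1) (x 2) (x 3) (x 4) (x 5) := by
    intro x
    simp only [Fin.sum_univ_six]
    unfold z dl
    by_cases h : val b (x 0) + val b (x 1) = 0
    · rw [if_pos h]
      have : val b (x 0) + val b (x 1) + val b (x 2) + val b (x 3) + val b (x 4) + val b (x 5) =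
        val b (x 2) + val b (x 3) + val b (x 4) + val b (x 5) := by linarith
      rw [this]; ring
    · rw [if_neg h]; ring
  refine (sum_congr rfl (fun x _ => h1 x)).trans ((sum_six (fun p q r s u w => z (val b p) (val b q) *
        dl (val b r + val b s + val b u + val b w))).trans ?_)
  rw [N2_eq, N4_eq]
  simp only [← mul_sum, ← sum_mul]

lemma tt (f : Fin 6 → Fin 6) (hf : Function.Injective f) :
    ∑ x ∈ Rel b 6, t (val b (x (f 0))) (val b (x (f 1))) (val b (x (f 2))) =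
      ((Rel b 3).card : ℤ) * (Rel b 3).card := by
  refine (rel_reindex b f hf (fun x => t (val b (x 0)) (val b (x 1)) (val b (x 2)))).trans ?_
  rw [rel_sum]
  have h1 : ∀ x : Fin 6 → ι × Bool, dl (∑ i, val b (x i)) * t (val b (x 0)) (val b (x 1)) (val b (x 2)) =
      (fun p q r s u w => t (val b p) (val b q) (val b r) *
        t (val b s) (val b u) (val b w)) (x 0) (x 1) (x 2) (x 3) (x 4) (x 5) := by
    intro x
    simp only [Fin.sum_univ_six]
    unfold t dl
    by_cases h : val b (x 0) + val b (x 1) + val b (x 2) = 0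
    · rw [if_pos h]
      have : val b (x 0) + val b (x 1) + val b (x 2) + val b (x 3) + val b (x 4) + val b (x 5) =
        val b (x 3) + val b (x 4) + val b (x 5) := by linarith
      rw [this]; ring
    · rw [if_neg h]; ring
  refine (sum_congr rfl (fun x _ => h1 x)).trans ((sum_six (fun p q r s u w => t (val b p) (val b q) (val b r) *
        t (val b s) (val b u) (val b w))).trans ?_)
  rw [N3_eq]
  simp only [← mul_sum, ← sum_mul]

lemma tm (f : Fin 6 → Fin 6) (hf : Function.Injective f) :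
    ∑ x ∈ Rel b 6, z (val b (x (f 0))) (val b (x (f 1))) * z (val b (x (f 2))) (val b (x (f 3))) *
      z (val b (x (f 4))) (val b (x (f 5))) =
      ((Rel b 2).card : ℤ) * (Rel b 2).card * (Rel b 2).card := by
  refine (rel_reindex b f hf (fun x => z (val b (x 0)) (val b (x 1)) * z (val b (x 2)) (val b (x 3)) *
      z (val b (x 4)) (val b (x 5)))).trans ?_
  rw [rel_sum]
  have h1 : ∀ x : Fin 6 → ι × Bool, dl (∑ i, val b (x i)) *
      (z (val b (x 0)) (val b (x 1)) * z (val b (x 2)) (val b (x 3)) *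
      z (val b (x 4)) (val b (x 5))) =
      (fun p q r s u w => z (val b p) (val b q) * z (val b r) (val b s) *
        z (val b u) (val b w)) (x 0) (x 1) (x 2) (x 3) (x 4) (x 5) := by
    intro x
    simp only [Fin.sum_univ_six]
    unfold z dl
    by_cases h : val b (x 0) + val b (x 1) = 0
    · by_cases h' : val b (x 2) + val b (x 3) = 0
      · by_cases h'' : val b (x 4) + val b (x 5) = 0
        · rw [if_pos h, if_pos h', if_pos h'', if_pos (by linarith)]; ring
        · rw [if_neg h'']; ring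
      · rw [if_neg h']; ring
    · rw [if_neg h]; ring
  refine (sum_congr rfl (fun x _ => h1 x)).trans ((sum_six (fun p q r s u w => z (val b p) (val b q) * z (val b r) (val b s) *
        z (val b u) (val b w))).trans ?_)
  rw [N2_eq]
  simp only [← mul_sum, ← sum_mul]

/-- the symmetric function sums to (twice `2^6` times) the cumulant -/
lemma sum_C : ∑ x ∈ Rel b 6, C (fun i => val b (x i)) =
    2 * (Rel b 6).card - 30 * (((Rel b 2).card : ℤ) * (Rel b 4).card)
      - 20 * (((Rel b 3).card : ℤ) * (Rel b 3).card)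
      + 60 * (((Rel b 2).card : ℤ) * (Rel b 2).card * (Rel b 2).card) := by
  have hz01 := tz b ![0, 1, 2, 3, 4, 5] (by decide)
  have hz02 := tz b ![0, 2, 1, 3, 4, 5] (by decide)
  have hz03 := tz b ![0, 3, 1, 2, 4, 5] (by decide)
  have hz04 := tz b ![0, 4, 1, 2, 3, 5] (by decide)
  have hz05 := tz b ![0, 5, 1, 2, 3, 4] (by decide)
  have hz12 := tz b ![1, 2, 0, 3, 4, 5] (by decide)
  have hz13 := tz b ![1, 3, 0, 2, 4, 5] (by decide)
  have hz14 := tz b ![1, 4, 0, 2, 3, 5] (by decide)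
  have hz15 := tz b ![1, 5, 0, 2, 3, 4] (by decide)
  have hz23 := tz b ![2, 3, 0, 1, 4, 5] (by decide)
  have hz24 := tz b ![2, 4, 0, 1, 3, 5] (by decide)
  have hz25 := tz b ![2, 5, 0, 1, 3, 4] (by decide)
  have hz34 := tz b ![3, 4, 0, 1, 2, 5] (by decide)
  have hz35 := tz b ![3, 5, 0, 1, 2, 4] (by decide)
  have hz45 := tz b ![4, 5, 0, 1, 2, 3] (by decide)
  have ht012 := tt b ![0, 1, 2, 3, 4, 5] (by decide)
  have ht013 := tt b ![0, 1, 3, 2, 4, 5] (by decide)
  have ht014 := tt b ![0, 1, 4, 2, 3, 5] (by decide)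
  have ht015 := tt b ![0, 1, 5, 2, 3, 4] (by decide)
  have ht023 := tt b ![0, 2, 3, 1, 4, 5] (by decide)
  have ht024 := tt b ![0, 2, 4, 1, 3, 5] (by decide)
  have ht025 := tt b ![0, 2, 5, 1, 3, 4] (by decide)
  have ht034 := tt b ![0, 3, 4, 1, 2, 5] (by decide)
  have ht035 := tt b ![0, 3, 5, 1, 2, 4] (by decide)
  have ht045 := tt b ![0, 4, 5, 1, 2, 3] (by decide)
  have ht123 := tt b ![1, 2, 3, 0, 4, 5] (by decide)
  have ht124 := tt b ![1, 2, 4, 0, 3, 5] (by decide)
  have ht125 := tt b ![1, 2, 5, 0, 3, 4] (by decide)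
  have ht134 := tt b ![1, 3, 4, 0, 2, 5] (by decide)
  have ht135 := tt b ![1, 3, 5, 0, 2, 4] (by decide)
  have ht145 := tt b ![1, 4, 5, 0, 2, 3] (by decide)
  have ht234 := tt b ![2, 3, 4, 0, 1, 5] (by decide)
  have ht235 := tt b ![2, 3, 5, 0, 1, 4] (by decide)
  have ht245 := tt b ![2, 4, 5, 0, 1, 3] (by decide)
  have ht345 := tt b ![3, 4, 5, 0, 1, 2] (by decide)
  have hm0 := tm b ![0, 1, 2, 3, 4, 5] (by decide)
  have hm1 := tm b ![0, 1, 2, 4, 3, 5] (by decide)
  have hm2 := tm b ![0, 1, 2, 5, 3, 4] (by decide)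
  have hm3 := tm b ![0, 2, 1, 3, 4, 5] (by decide)
  have hm4 := tm b ![0, 2, 1, 4, 3, 5] (by decide)
  have hm5 := tm b ![0, 2, 1, 5, 3, 4] (by decide)
  have hm6 := tm b ![0, 3, 1, 2, 4, 5] (by decide)
  have hm7 := tm b ![0, 3, 1, 4, 2, 5] (by decide)
  have hm8 := tm b ![0, 3, 1, 5, 2, 4] (by decide)
  have hm9 := tm b ![0, 4, 1, 2, 3, 5] (by decide)
  have hm10 := tm b ![0, 4, 1, 3, 2, 5] (by decide)
  have hm11 := tm b ![0, 4, 1, 5, 2, 3] (by decide)
  have hm12 := tm b ![0, 5, 1, 2, 3, 4] (by decide)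
  have hm13 := tm b ![0, 5, 1, 3, 2, 4] (by decide)
  have hm14 := tm b ![0, 5, 1, 4, 2, 3] (by decide)
  simp only [Matrix.cons_val] at hz01 hz02 hz03 hz04 hz05 hz12 hz13 hz14 hz15 hz23 hz24 hz25 hz34 hz35 hz45 ht012 ht013 ht014 ht015 ht023 ht024 ht025 ht034 ht035 ht045 ht123 ht124 ht125 ht134 ht135 ht145 ht234 ht235 ht245 ht345 hm0 hm1 hm2 hm3 hm4 hm5 hm6 hm7 hm8 hm9 hm10 hm11 hm12 hm13 hm14
  simp only [C, F, sum_add_distrib, sum_sub_distrib, ← mul_sum, sum_const, nsmul_eq_mul]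
  simp only [hz01, hz02, hz03, hz04, hz05, hz12, hz13, hz14, hz15, hz23, hz24, hz25, hz34, hz35, hz45, ht012, ht013, ht014, ht015, ht023, ht024, ht025, ht034, ht035, ht045, ht123, ht124, ht125, ht134, ht135, ht145, ht234, ht235, ht245, ht345, hm0, hm1, hm2, hm3, hm4, hm5, hm6, hm7, hm8, hm9, hm10, hm11, hm12, hm13, hm14]
  ring

end sums

end Pool.Agent.X119.Kap6
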