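import Mathlib
import Pool.Agent.X119.Kap6

set_option autoImplicit false

/-! The symmetric function is nonnegative away from exceptional relations. -/

namespace Pool.Agent.X119.Kap6b

open Finset Pool.Agent.X119.Kap6

lemma z_eq_one {a b : ℤ} (h : a + b = 0) : z a b = 1 := if_pos h
lemma z_eq_zero {a b : ℤ} (h : a + b ≠ 0) : z a b = 0 := if_neg h
lemma t_eq_one {a b c : ℤ} (h : a + b + c = 0) : t a b c = 1 := if_pos h
lemma t_eq_zero {a b c : ℤ} (h : a + b + c ≠ 0) : t a b c = 0 := if_neg h
lemma z_nonneg (a b : ℤ) : 0 ≤ z a b := by unfold z; split_ifs <;> norm_num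
lemma z_le (a b : ℤ) : z a b ≤ 1 := by unfold z; split_ifs <;> norm_num
lemma t_le (a b c : ℤ) : t a b c ≤ 1 := by unfold t; split_ifs <;> norm_num
lemma z_sq (a b : ℤ) : z a b * z a b = z a b := by unfold z; split_ifs <;> norm_num

lemma F_lower (a b c d e f : ℤ) : -48 ≤ F a b c d e f := by
  unfold F
  have z01 := z_le a b
  have z02 := z_le a c
  have z03 := z_le a d
  have z04 := z_le a e
  have z05 := z_le a f
  have z12 := z_le b c
  have z13 := z_le b d
  have z14 := z_le b e
  have z15 := z_le b f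
  have z23 := z_le c d
  have z24 := z_le c e
  have z25 := z_le c f
  have z34 := z_le d e
  have z35 := z_le d f
  have z45 := z_le e f
  have t012 := t_le a b c
  have t013 := t_le a b d
  have t014 := t_le a b e
  have t015 := t_le a b f
  have t023 := t_le a c d
  have t024 := t_le a c e
  have t025 := t_le a c f
  have t034 := t_le a d e
  have t035 := t_le a d f
  have t045 := t_le a e f
  have t123 := t_le b c d
  have t124 := t_le b c e
  have t125 := t_le b c f
  have t134 := t_le b d e
  have t135 := t_le b d f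
  have t145 := t_le b e f
  have t234 := t_le c d e
  have t235 := t_le c d f
  have t245 := t_le c e f
  have t345 := t_le d e f
  have m0 := mul_nonneg (mul_nonneg (z_nonneg a b) (z_nonneg c d)) (z_nonneg e f)
  have m1 := mul_nonneg (mul_nonneg (z_nonneg a b) (z_nonneg c e)) (z_nonneg d f)
  have m2 := mul_nonneg (mul_nonneg (z_nonneg a b) (z_nonneg c f)) (z_nonneg d e)
  have m3 := mul_nonneg (mul_nonneg (z_nonneg a c) (z_nonneg b d)) (z_nonneg e f)
  have m4 := mul_nonneg (mul_nonneg (z_nonneg a c) (z_nonneg b e)) (z_nonneg d f)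
  have m5 := mul_nonneg (mul_nonneg (z_nonneg a c) (z_nonneg b f)) (z_nonneg d e)
  have m6 := mul_nonneg (mul_nonneg (z_nonneg a d) (z_nonneg b c)) (z_nonneg e f)
  have m7 := mul_nonneg (mul_nonneg (z_nonneg a d) (z_nonneg b e)) (z_nonneg c f)
  have m8 := mul_nonneg (mul_nonneg (z_nonneg a d) (z_nonneg b f)) (z_nonneg c e)
  have m9 := mul_nonneg (mul_nonneg (z_nonneg a e) (z_nonneg b c)) (z_nonneg d f)
  have m10 := mul_nonneg (mul_nonneg (z_nonneg a e) (z_nonneg b d)) (z_nonneg c f)
  have m11 := mul_nonneg (mul_nonneg (z_nonneg a e) (z_nonneg b f)) (z_nonneg c d)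
  have m12 := mul_nonneg (mul_nonneg (z_nonneg a f) (z_nonneg b c)) (z_nonneg d e)
  have m13 := mul_nonneg (mul_nonneg (z_nonneg a f) (z_nonneg b d)) (z_nonneg c e)
  have m14 := mul_nonneg (mul_nonneg (z_nonneg a f) (z_nonneg b e)) (z_nonneg c d)
  linarith

/-- three cancelling pairs -/
lemma F_A (u v w : ℤ) (hu : u ≠ 0) (hv : v ≠ 0) (hw : w ≠ 0) (h1 : u + v + w ≠ 0)
    (h2 : u + v - w ≠ 0) (h3 : u - v + w ≠ 0) (h4 : u - v - w ≠ 0) :
    0 ≤ F u (-u) v (-v) w (-w) := by
  unfold F
  have zz : ∀ x y : ℤ, z (-x) (-y) = z x y := by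
    intro x y; unfold z
    have : (-x + -y = 0) ↔ (x + y = 0) := by constructor <;> intro h <;> linarith
    simp only [this]
  have zz2 : ∀ x y : ℤ, z (-x) y = z x (-y) := by
    intro x y; unfold z
    have : (-x + y = 0) ↔ (x + -y = 0) := by constructor <;> intro h <;> linarith
    simp only [this]
  have z1 : ∀ x : ℤ, z x (-x) = 1 := fun x => z_eq_one (by ring)
  have t012 : t u (-u) v = 0 := t_eq_zero (by intro h; first | exact hu (by linarith) | exact hv (by linarith) | exact hw (by linarith) | exact h1 (by linarith) | exact h2 (by linarith) | exact h3 (by linarith) | exact h4 (by linarith))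
  have t013 : t u (-u) (-v) = 0 := t_eq_zero (by intro h; first | exact hu (by linarith) | exact hv (by linarith) | exact hw (by linarith) | exact h1 (by linarith) | exact h2 (by linarith) | exact h3 (by linarith) | exact h4 (by linarith))
  have t014 : t u (-u) w = 0 := t_eq_zero (by intro h; first | exact hu (by linarith) | exact hv (by linarith) | exact hw (by linarith) | exact h1 (by linarith) | exact h2 (by linarith) | exact h3 (by linarith) | exact h4 (by linarith))
  have t015 : t u (-u) (-w) = 0 := t_eq_zero (by intro h; first | exact hu (by linarith) | exact hv (by linarith) | exact hw (by linarith) | exact h1 (by linarith) | exact h2 (by linarith) | exact h3 (by linarith) | exact h4 (by linarith))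
  have t023 : t u v (-v) = 0 := t_eq_zero (by intro h; first | exact hu (by linarith) | exact hv (by linarith) | exact hw (by linarith) | exact h1 (by linarith) | exact h2 (by linarith) | exact h3 (by linarith) | exact h4 (by linarith))
  have t024 : t u v w = 0 := t_eq_zero (by intro h; first | exact hu (by linarith) | exact hv (by linarith) | exact hw (by linarith) | exact h1 (by linarith) | exact h2 (by linarith) | exact h3 (by linarith) | exact h4 (by linarith))
  have t025 : t u v (-w) = 0 := t_eq_zero (by intro h; first | exact hu (by linarith) | exact hv (by linarith) | exact hw (by linarith) | exact h1 (by linarith) | exact h2 (by linarith) | exact h3 (by linarith) | exact h4 (by linarith))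
  have t034 : t u (-v) w = 0 := t_eq_zero (by intro h; first | exact hu (by linarith) | exact hv (by linarith) | exact hw (by linarith) | exact h1 (by linarith) | exact h2 (by linarith) | exact h3 (by linarith) | exact h4 (by linarith))
  have t035 : t u (-v) (-w) = 0 := t_eq_zero (by intro h; first | exact hu (by linarith) | exact hv (by linarith) | exact hw (by linarith) | exact h1 (by linarith) | exact h2 (by linarith) | exact h3 (by linarith) | exact h4 (by linarith))
  have t045 : t u w (-w) = 0 := t_eq_zero (by intro h; first | exact hu (by linarith) | exact hv (by linarith) | exact hw (by linarith) | exact h1 (by linarith) | exact h2 (by linarith) | exact h3 (by linarith) | exact h4 (by linarith))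
  have t123 : t (-u) v (-v) = 0 := t_eq_zero (by intro h; first | exact hu (by linarith) | exact hv (by linarith) | exact hw (by linarith) | exact h1 (by linarith) | exact h2 (by linarith) | exact h3 (by linarith) | exact h4 (by linarith))
  have t124 : t (-u) v w = 0 := t_eq_zero (by intro h; first | exact hu (by linarith) | exact hv (by linarith) | exact hw (by linarith) | exact h1 (by linarith) | exact h2 (by linarith) | exact h3 (by linarith) | exact h4 (by linarith))
  have t125 : t (-u) v (-w) = 0 := t_eq_zero (by intro h; first | exact hu (by linarith) | exact hv (by linarith) | exact hw (by linarith) | exact h1 (by linarith) | exact h2 (by linarith) | exact h3 (by linarith) | exact h4 (by linarith))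
  have t134 : t (-u) (-v) w = 0 := t_eq_zero (by intro h; first | exact hu (by linarith) | exact hv (by linarith) | exact hw (by linarith) | exact h1 (by linarith) | exact h2 (by linarith) | exact h3 (by linarith) | exact h4 (by linarith))
  have t135 : t (-u) (-v) (-w) = 0 := t_eq_zero (by intro h; first | exact hu (by linarith) | exact hv (by linarith) | exact hw (by linarith) | exact h1 (by linarith) | exact h2 (by linarith) | exact h3 (by linarith) | exact h4 (by linarith))
  have t145 : t (-u) w (-w) = 0 := t_eq_zero (by intro h; first | exact hu (by linarith) | exact hv (by linarith) | exact hw (by linarith) | exact h1 (by linarith) | exact h2 (by linarith) | exact h3 (by linarith) | exact h4 (by linarith))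
  have t234 : t v (-v) w = 0 := t_eq_zero (by intro h; first | exact hu (by linarith) | exact hv (by linarith) | exact hw (by linarith) | exact h1 (by linarith) | exact h2 (by linarith) | exact h3 (by linarith) | exact h4 (by linarith))
  have t235 : t v (-v) (-w) = 0 := t_eq_zero (by intro h; first | exact hu (by linarith) | exact hv (by linarith) | exact hw (by linarith) | exact h1 (by linarith) | exact h2 (by linarith) | exact h3 (by linarith) | exact h4 (by linarith))
  have t245 : t v w (-w) = 0 := t_eq_zero (by intro h; first | exact hu (by linarith) | exact hv (by linarith) | exact hw (by linarith) | exact h1 (by linarith) | exact h2 (by linarith) | exact h3 (by linarith) | exact h4 (by linarith))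
  have t345 : t (-v) w (-w) = 0 := t_eq_zero (by intro h; first | exact hu (by linarith) | exact hv (by linarith) | exact hw (by linarith) | exact h1 (by linarith) | exact h2 (by linarith) | exact h3 (by linarith) | exact h4 (by linarith))
  simp only [t012, t013, t014, t015, t023, t024, t025, t034, t035, t045, t123, t124, t125, t134, t135, t145, t234, t235, t245, t345, zz, zz2, z1, neg_neg, one_mul, mul_one]
  have s1 := z_sq u v
  have s2 := z_sq u (-v)
  have s3 := z_sq u w
  have s4 := z_sq u (-w)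
  have s5 := z_sq v w
  have s6 := z_sq v (-w)
  have n1 := z_nonneg u v
  have n2 := z_nonneg u (-v)
  have n3 := z_nonneg u w
  have n4 := z_nonneg u (-w)
  have n5 := z_nonneg v w
  have n6 := z_nonneg v (-w)
  generalize z u v = A at *
  generalize z u (-v) = B at *
  generalize z u w = A1 at *
  generalize z u (-w) = B1 at *
  generalize z v w = A2 at *
  generalize z v (-w) = B2 at *
  have p1 := mul_nonneg (mul_nonneg n1 n3) n5
  have p2 := mul_nonneg (mul_nonneg n1 n3) n6
  have p3 := mul_nonneg (mul_nonneg n1 n4) n5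
  have p4 := mul_nonneg (mul_nonneg n1 n4) n6
  have p5 := mul_nonneg (mul_nonneg n2 n3) n5
  have p6 := mul_nonneg (mul_nonneg n2 n3) n6
  have p7 := mul_nonneg (mul_nonneg n2 n4) n5
  have p8 := mul_nonneg (mul_nonneg n2 n4) n6
  nlinarith

/-- exactly one cancelling pair and nothing else -/
lemma F_B (a b c d e f : ℤ) (h01 : a + b = 0)
    (h02 : a + c ≠ 0)    (h03 : a + d ≠ 0)    (h04 : a + e ≠ 0)    (h05 : a + f ≠ 0)    (h12 : b + c ≠ 0)    (h13 : b + d ≠ 0)    (h14 : b + e ≠ 0)    (h15 : b + f ≠ 0)    (h23 : c + d ≠ 0)    (h24 : c + e ≠ 0)    (h25 : c + f ≠ 0)    (h34 : d + e ≠ 0)    (h35 : d + f ≠ 0)    (h45 : e + f ≠ 0)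
    (h012 : a + b + c ≠ 0)    (h013 : a + b + d ≠ 0)    (h014 : a + b + e ≠ 0)    (h015 : a + b + f ≠ 0)    (h023 : a + c + d ≠ 0)    (h024 : a + c + e ≠ 0)    (h025 : a + c + f ≠ 0)    (h034 : a + d + e ≠ 0)    (h035 : a + d + f ≠ 0)    (h045 : a + e + f ≠ 0)    (h123 : b + c + d ≠ 0)    (h124 : b + c + e ≠ 0)    (h125 : b + c + f ≠ 0)    (h134 : b + d + e ≠ 0)    (h135 : b + d + f ≠ 0)    (h145 : b + e + f ≠ 0)    (h234 : c + d + e ≠ 0)    (h235 : c + d + f ≠ 0)    (h245 : c + e + f ≠ 0)    (h345 : d + e + f ≠ 0) :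
    0 ≤ F a b c d e f := by
  unfold F
  simp only [z_eq_one h01, z_eq_zero h02, z_eq_zero h03, z_eq_zero h04, z_eq_zero h05, z_eq_zero h12, z_eq_zero h13, z_eq_zero h14, z_eq_zero h15, z_eq_zero h23, z_eq_zero h24, z_eq_zero h25, z_eq_zero h34, z_eq_zero h35, z_eq_zero h45, t_eq_zero h012, t_eq_zero h013, t_eq_zero h014, t_eq_zero h015, t_eq_zero h023, t_eq_zero h024, t_eq_zero h025, t_eq_zero h034, t_eq_zero h035, t_eq_zero h045, t_eq_zero h123, t_eq_zero h124, t_eq_zero h125, t_eq_zero h134, t_eq_zero h135, t_eq_zero h145, t_eq_zero h234, t_eq_zero h235, t_eq_zero h245, t_eq_zero h345]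
  norm_num

/-- exactly one cancelling splitting into triples -/
lemma F_C (a b c d e f : ℤ) 
    (h01 : a + b ≠ 0)    (h02 : a + c ≠ 0)    (h03 : a + d ≠ 0)    (h04 : a + e ≠ 0)    (h05 : a + f ≠ 0)    (h12 : b + c ≠ 0)    (h13 : b + d ≠ 0)    (h14 : b + e ≠ 0)    (h15 : b + f ≠ 0)    (h23 : c + d ≠ 0)    (h24 : c + e ≠ 0)    (h25 : c + f ≠ 0)    (h34 : d + e ≠ 0)    (h35 : d + f ≠ 0)    (h45 : e + f ≠ 0)
    (h013 : a + b + d ≠ 0)    (h014 : a + b + e ≠ 0)    (h015 : a + b + f ≠ 0)    (h023 : a + c + d ≠ 0)    (h024 : a + c + e ≠ 0)    (h025 : a + c + f ≠ 0)    (h034 : a + d + e ≠ 0)    (h035 : a + d + f ≠ 0)    (h045 : a + e + f ≠ 0)    (h123 : b + c + d ≠ 0)    (h124 : b + c + e ≠ 0)    (h125 : b + c + f ≠ 0)    (h134 : b + d + e ≠ 0)    (h135 : b + d + f ≠ 0)    (h145 : b + e + f ≠ 0)    (h234 : c + d + e ≠ 0)    (h235 : c + d + f ≠ 0)    (h245 : c + e + f ≠ 0) :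
    0 ≤ F a b c d e f := by
  have h1 := t_le a b c
  have h2 := t_le d e f
  unfold F
  simp only [z_eq_zero h01, z_eq_zero h02, z_eq_zero h03, z_eq_zero h04, z_eq_zero h05, z_eq_zero h12, z_eq_zero h13, z_eq_zero h14, z_eq_zero h15, z_eq_zero h23, z_eq_zero h24, z_eq_zero h25, z_eq_zero h34, z_eq_zero h35, z_eq_zero h45, t_eq_zero h013, t_eq_zero h014, t_eq_zero h015, t_eq_zero h023, t_eq_zero h024, t_eq_zero h025, t_eq_zero h034, t_eq_zero h035, t_eq_zero h045, t_eq_zero h123, t_eq_zero h124, t_eq_zero h125, t_eq_zero h134, t_eq_zero h135, t_eq_zero h145, t_eq_zero h234, t_eq_zero h235, t_eq_zero h245]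
  linarith

/-- first kind of exceptional relation -/
def EA (v : Fin 6 → ℤ) : Prop :=
  v 0 + v 1 + v 2 = 0 ∧ v 3 + v 4 + v 5 = 0 ∧ (v 5).natAbs = (v 2).natAbs

/-- second kind of exceptional relation -/
def EB (v : Fin 6 → ℤ) : Prop :=
  v 2 + v 3 + v 4 + v 5 = 0 ∧ v 2 + v 3 ≠ 0 ∧ (v 3).natAbs ≤ (v 2).natAbs ∧
    (v 2).natAbs ≤ 3 * (v 3).natAbs ∧
    ((v 0).natAbs = (v 2).natAbs ∨ (v 0).natAbs = (v 3).natAbs ∨ (v 0).natAbs = (v 4).natAbs ∨
      (v 0).natAbs = (v 5).natAbs) ∧
    ((v 1).natAbs = (v 2).natAbs ∨ (v 1).natAbs = (v 3).natAbs ∨ (v 1).natAbs = (v 4).natAbs ∨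
      (v 1).natAbs = (v 5).natAbs)

/-- exceptional vectors -/
def Exc (v : Fin 6 → ℤ) : Prop := ∃ f : Fin 6 → Fin 6, Function.Injective f ∧ (EA (v ∘ f) ∨ EB (v ∘ f))

lemma Exc.of_comp {v : Fin 6 → ℤ} (f : Fin 6 → Fin 6) (hf : Function.Injective f) (h : Exc (v ∘ f)) :
    Exc v := by
  obtain ⟨g, hg, h⟩ := h
  exact ⟨f ∘ g, hf.comp hg, h⟩

lemma C_inj (f : Fin 6 → Fin 6) (hf : Function.Injective f) (v : Fin 6 → ℤ) : C (v ∘ f) = C v :=
  C_perm (Equiv.ofBijective f (Finite.injective_iff_bijective.mp hf)) v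

lemma exA {v : Fin 6 → ℤ} (f : Fin 6 → Fin 6) (hf : Function.Injective f)
    (h1 : v (f 0) + v (f 1) + v (f 2) = 0) (h2 : v (f 3) + v (f 4) + v (f 5) = 0)
    (h3 : (v (f 5)).natAbs = (v (f 2)).natAbs) : Exc v := ⟨f, hf, Or.inl ⟨h1, h2, h3⟩⟩

lemma exB {v : Fin 6 → ℤ} (h1 : v 0 + v 1 = 0) (h2 : v 1 = v 2) (h3 : v 2 + v 3 + v 4 + v 5 = 0)
    (h4 : v 2 + v 3 ≠ 0) (h5 : v 2 + v 4 ≠ 0) (h6 : v 2 + v 5 ≠ 0) : Exc v := by
  have key : ((v 3).natAbs ≤ (v 2).natAbs ∧ (v 2).natAbs ≤ 3 * (v 3).natAbs) ∨
    ((v 4).natAbs ≤ (v 2).natAbs ∧ (v 2).natAbs ≤ 3 * (v 4).natAbs) ∨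
    ((v 5).natAbs ≤ (v 2).natAbs ∧ (v 2).natAbs ≤ 3 * (v 5).natAbs) ∨
    ((v 2).natAbs ≤ (v 3).natAbs ∧ (v 3).natAbs ≤ 3 * (v 2).natAbs) ∨
    ((v 4).natAbs ≤ (v 3).natAbs ∧ (v 3).natAbs ≤ 3 * (v 4).natAbs) ∨
    ((v 5).natAbs ≤ (v 3).natAbs ∧ (v 3).natAbs ≤ 3 * (v 5).natAbs) ∨
    ((v 2).natAbs ≤ (v 4).natAbs ∧ (v 4).natAbs ≤ 3 * (v 2).natAbs) ∨
    ((v 3).natAbs ≤ (v 4).natAbs ∧ (v 4).natAbs ≤ 3 * (v 3).natAbs) ∨
    ((v 5).natAbs ≤ (v 4).natAbs ∧ (v 4).natAbs ≤ 3 * (v 5).natAbs) ∨
    ((v 2).natAbs ≤ (v 5).natAbs ∧ (v 5).natAbs ≤ 3 * (v 2).natAbs) ∨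
    ((v 3).natAbs ≤ (v 5).natAbs ∧ (v 5).natAbs ≤ 3 * (v 3).natAbs) ∨
    ((v 4).natAbs ≤ (v 5).natAbs ∧ (v 5).natAbs ≤ 3 * (v 4).natAbs) := by omega
  rcases key with h | h | h | h | h | h | h | h | h | h | h | h
  · refine ⟨![0, 1, 2, 3, 4, 5], by decide, Or.inr ?_⟩
    simp only [EB, Function.comp_apply, Matrix.cons_val]
    omega
  · refine ⟨![0, 1, 2, 4, 3, 5], by decide, Or.inr ?_⟩
    simp only [EB, Function.comp_apply, Matrix.cons_val]
    omega
  · refine ⟨![0, 1, 2, 5, 3, 4], by decide, Or.inr ?_⟩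
    simp only [EB, Function.comp_apply, Matrix.cons_val]
    omega
  · refine ⟨![0, 1, 3, 2, 4, 5], by decide, Or.inr ?_⟩
    simp only [EB, Function.comp_apply, Matrix.cons_val]
    omega
  · refine ⟨![0, 1, 3, 4, 2, 5], by decide, Or.inr ?_⟩
    simp only [EB, Function.comp_apply, Matrix.cons_val]
    omega
  · refine ⟨![0, 1, 3, 5, 2, 4], by decide, Or.inr ?_⟩
    simp only [EB, Function.comp_apply, Matrix.cons_val]
    omega
  · refine ⟨![0, 1, 4, 2, 3, 5], by decide, Or.inr ?_⟩
    simp only [EB, Function.comp_apply, Matrix.cons_val]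
    omega
  · refine ⟨![0, 1, 4, 3, 2, 5], by decide, Or.inr ?_⟩
    simp only [EB, Function.comp_apply, Matrix.cons_val]
    omega
  · refine ⟨![0, 1, 4, 5, 2, 3], by decide, Or.inr ?_⟩
    simp only [EB, Function.comp_apply, Matrix.cons_val]
    omega
  · refine ⟨![0, 1, 5, 2, 3, 4], by decide, Or.inr ?_⟩
    simp only [EB, Function.comp_apply, Matrix.cons_val]
    omega
  · refine ⟨![0, 1, 5, 3, 2, 4], by decide, Or.inr ?_⟩
    simp only [EB, Function.comp_apply, Matrix.cons_val]
    omega
  · refine ⟨![0, 1, 5, 4, 2, 3], by decide, Or.inr ?_⟩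
    simp only [EB, Function.comp_apply, Matrix.cons_val]
    omega

lemma exB' {v : Fin 6 → ℤ} (f : Fin 6 → Fin 6) (hf : Function.Injective f)
    (h1 : v (f 0) + v (f 1) = 0) (h2 : v (f 1) = v (f 2))
    (h3 : v (f 2) + v (f 3) + v (f 4) + v (f 5) = 0)
    (h4 : v (f 2) + v (f 3) ≠ 0) (h5 : v (f 2) + v (f 4) ≠ 0) (h6 : v (f 2) + v (f 5) ≠ 0) : Exc v :=
  Exc.of_comp f hf (exB (v := v ∘ f) h1 h2 h3 h4 h5 h6)

lemma canon22 (v : Fin 6 → ℤ) (h0 : ∀ i, v i ≠ 0) (h1 : v 0 + v 1 = 0) (h2 : v 2 + v 3 = 0)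
    (h3 : v 4 + v 5 = 0) : 0 ≤ C v ∨ Exc v := by
  by_cases hE : Exc v
  · exact Or.inr hE
  left
  have e1 : v 1 = -v 0 := by linarith
  have e3 : v 3 = -v 2 := by linarith
  have e5 : v 5 = -v 4 := by linarith
  unfold C
  rw [e1, e3, e5]
  apply F_A _ _ _ (h0 0) (h0 2) (h0 4)
  · intro h
    exact hE (exA ![0, 2, 4, 1, 3, 5] (by decide) (by simp only [Matrix.cons_val]; omega) (by simp only [Matrix.cons_val]; omega) (by simp only [Matrix.cons_val]; omega))
  · intro h
    exact hE (exA ![0, 2, 5, 1, 3, 4] (by decide) (by simp only [Matrix.cons_val]; omega) (by simp only [Matrix.cons_val]; omega) (by simp only [Matrix.cons_val]; omega))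
  · intro h
    exact hE (exA ![0, 3, 4, 1, 2, 5] (by decide) (by simp only [Matrix.cons_val]; omega) (by simp only [Matrix.cons_val]; omega) (by simp only [Matrix.cons_val]; omega))
  · intro h
    exact hE (exA ![0, 3, 5, 1, 2, 4] (by decide) (by simp only [Matrix.cons_val]; omega) (by simp only [Matrix.cons_val]; omega) (by simp only [Matrix.cons_val]; omega))

lemma canon2 (v : Fin 6 → ℤ) (h0 : ∀ i, v i ≠ 0) (hs : v 0 + v 1 + v 2 + v 3 + v 4 + v 5 = 0)
    (h01 : v 0 + v 1 = 0) : 0 ≤ C v ∨ Exc v := by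
  by_cases hE : Exc v
  · exact Or.inr hE
  by_cases h23 : v 2 + v 3 = 0
  · exact canon22 v h0 h01 h23 (by linarith)
  by_cases h24 : v 2 + v 4 = 0
  · rcases canon22 (v ∘ ![0, 1, 2, 4, 3, 5]) (fun i => h0 _) h01 h24 (by simp only [Function.comp_apply, Matrix.cons_val]; linarith) with h | h
    · left; rwa [C_inj _ (by decide)] at h
    · exact Or.inr (Exc.of_comp _ (by decide) h)
  by_cases h25 : v 2 + v 5 = 0
  · rcases canon22 (v ∘ ![0, 1, 2, 5, 3, 4]) (fun i => h0 _) h01 h25 (by simp only [Function.comp_apply, Matrix.cons_val]; linarith) with h | h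
    · left; rwa [C_inj _ (by decide)] at h
    · exact Or.inr (Exc.of_comp _ (by decide) h)
  left
  have g0 := h0 0
  have g1 := h0 1
  have g2 := h0 2
  have g3 := h0 3
  have g4 := h0 4
  have g5 := h0 5
  have h02 : v 0 + v 2 ≠ 0 := fun h => hE (exB' ![0, 1, 2, 3, 4, 5] (by decide) (by simp only [Matrix.cons_val]; omega) (by simp only [Matrix.cons_val]; omega) (by simp only [Matrix.cons_val]; omega) (by simp only [Matrix.cons_val]; omega) (by simp only [Matrix.cons_val]; omega) (by simp only [Matrix.cons_val]; omega))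
  have h12 : v 1 + v 2 ≠ 0 := fun h => hE (exB' ![1, 0, 2, 3, 4, 5] (by decide) (by simp only [Matrix.cons_val]; omega) (by simp only [Matrix.cons_val]; omega) (by simp only [Matrix.cons_val]; omega) (by simp only [Matrix.cons_val]; omega) (by simp only [Matrix.cons_val]; omega) (by simp only [Matrix.cons_val]; omega))
  have h03 : v 0 + v 3 ≠ 0 := fun h => hE (exB' ![0, 1, 3, 2, 4, 5] (by decide) (by simp only [Matrix.cons_val]; omega) (by simp only [Matrix.cons_val]; omega) (by simp only [Matrix.cons_val]; omega) (by simp only [Matrix.cons_val]; omega) (by simp only [Matrix.cons_val]; omega) (by simp only [Matrix.cons_val]; omega))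
  have h13 : v 1 + v 3 ≠ 0 := fun h => hE (exB' ![1, 0, 3, 2, 4, 5] (by decide) (by simp only [Matrix.cons_val]; omega) (by simp only [Matrix.cons_val]; omega) (by simp only [Matrix.cons_val]; omega) (by simp only [Matrix.cons_val]; omega) (by simp only [Matrix.cons_val]; omega) (by simp only [Matrix.cons_val]; omega))
  have h04 : v 0 + v 4 ≠ 0 := fun h => hE (exB' ![0, 1, 4, 2, 3, 5] (by decide) (by simp only [Matrix.cons_val]; omega) (by simp only [Matrix.cons_val]; omega) (by simp only [Matrix.cons_val]; omega) (by simp only [Matrix.cons_val]; omega) (by simp only [Matrix.cons_val]; omega) (by simp only [Matrix.cons_val]; omega))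
  have h14 : v 1 + v 4 ≠ 0 := fun h => hE (exB' ![1, 0, 4, 2, 3, 5] (by decide) (by simp only [Matrix.cons_val]; omega) (by simp only [Matrix.cons_val]; omega) (by simp only [Matrix.cons_val]; omega) (by simp only [Matrix.cons_val]; omega) (by simp only [Matrix.cons_val]; omega) (by simp only [Matrix.cons_val]; omega))
  have h05 : v 0 + v 5 ≠ 0 := fun h => hE (exB' ![0, 1, 5, 2, 3, 4] (by decide) (by simp only [Matrix.cons_val]; omega) (by simp only [Matrix.cons_val]; omega) (by simp only [Matrix.cons_val]; omega) (by simp only [Matrix.cons_val]; omega) (by simp only [Matrix.cons_val]; omega) (by simp only [Matrix.cons_val]; omega))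
  have h15 : v 1 + v 5 ≠ 0 := fun h => hE (exB' ![1, 0, 5, 2, 3, 4] (by decide) (by simp only [Matrix.cons_val]; omega) (by simp only [Matrix.cons_val]; omega) (by simp only [Matrix.cons_val]; omega) (by simp only [Matrix.cons_val]; omega) (by simp only [Matrix.cons_val]; omega) (by simp only [Matrix.cons_val]; omega))
  have h023 : v 0 + v 2 + v 3 ≠ 0 := fun h => hE (exA ![2, 3, 0, 4, 5, 1] (by decide) (by simp only [Matrix.cons_val]; omega) (by simp only [Matrix.cons_val]; omega) (by simp only [Matrix.cons_val]; omega))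
  have h123 : v 1 + v 2 + v 3 ≠ 0 := fun h => hE (exA ![2, 3, 1, 4, 5, 0] (by decide) (by simp only [Matrix.cons_val]; omega) (by simp only [Matrix.cons_val]; omega) (by simp only [Matrix.cons_val]; omega))
  have h024 : v 0 + v 2 + v 4 ≠ 0 := fun h => hE (exA ![2, 4, 0, 3, 5, 1] (by decide) (by simp only [Matrix.cons_val]; omega) (by simp only [Matrix.cons_val]; omega) (by simp only [Matrix.cons_val]; omega))
  have h124 : v 1 + v 2 + v 4 ≠ 0 := fun h => hE (exA ![2, 4, 1, 3, 5, 0] (by decide) (by simp only [Matrix.cons_val]; omega) (by simp only [Matrix.cons_val]; omega) (by simp only [Matrix.cons_val]; omega))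
  have h025 : v 0 + v 2 + v 5 ≠ 0 := fun h => hE (exA ![2, 5, 0, 3, 4, 1] (by decide) (by simp only [Matrix.cons_val]; omega) (by simp only [Matrix.cons_val]; omega) (by simp only [Matrix.cons_val]; omega))
  have h125 : v 1 + v 2 + v 5 ≠ 0 := fun h => hE (exA ![2, 5, 1, 3, 4, 0] (by decide) (by simp only [Matrix.cons_val]; omega) (by simp only [Matrix.cons_val]; omega) (by simp only [Matrix.cons_val]; omega))
  have h034 : v 0 + v 3 + v 4 ≠ 0 := fun h => hE (exA ![3, 4, 0, 2, 5, 1] (by decide) (by simp only [Matrix.cons_val]; omega) (by simp only [Matrix.cons_val]; omega) (by simp only [Matrix.cons_val]; omega))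
  have h134 : v 1 + v 3 + v 4 ≠ 0 := fun h => hE (exA ![3, 4, 1, 2, 5, 0] (by decide) (by simp only [Matrix.cons_val]; omega) (by simp only [Matrix.cons_val]; omega) (by simp only [Matrix.cons_val]; omega))
  have h035 : v 0 + v 3 + v 5 ≠ 0 := fun h => hE (exA ![3, 5, 0, 2, 4, 1] (by decide) (by simp only [Matrix.cons_val]; omega) (by simp only [Matrix.cons_val]; omega) (by simp only [Matrix.cons_val]; omega))
  have h135 : v 1 + v 3 + v 5 ≠ 0 := fun h => hE (exA ![3, 5, 1, 2, 4, 0] (by decide) (by simp only [Matrix.cons_val]; omega) (by simp only [Matrix.cons_val]; omega) (by simp only [Matrix.cons_val]; omega))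
  have h045 : v 0 + v 4 + v 5 ≠ 0 := fun h => hE (exA ![4, 5, 0, 2, 3, 1] (by decide) (by simp only [Matrix.cons_val]; omega) (by simp only [Matrix.cons_val]; omega) (by simp only [Matrix.cons_val]; omega))
  have h145 : v 1 + v 4 + v 5 ≠ 0 := fun h => hE (exA ![4, 5, 1, 2, 3, 0] (by decide) (by simp only [Matrix.cons_val]; omega) (by simp only [Matrix.cons_val]; omega) (by simp only [Matrix.cons_val]; omega))
  exact F_B _ _ _ _ _ _ h01 (by omega) (by omega) (by omega) (by omega) (by omega) (by omega) (by omega) (by omega) (by omega) (by omega) (by omega) (by omega) (by omega) (by omega) (by omega) (by omega) (by omega) (by omega) (by omega) (by omega) (by omega) (by omega) (by omega) (by omega) (by omega) (by omega) (by omega) (by omega) (by omega) (by omega) (by omega) (by omega) (by omega) (by omega)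

lemma canon3 (v : Fin 6 → ℤ) (h0 : ∀ i, v i ≠ 0) (hs : v 0 + v 1 + v 2 + v 3 + v 4 + v 5 = 0)
    (hp : ∀ i j, i ≠ j → v i + v j ≠ 0)
    (h012 : v 0 + v 1 + v 2 = 0) : 0 ≤ C v ∨ Exc v := by
  by_cases hE : Exc v
  · exact Or.inr hE
  left
  have h01 := hp 0 1 (by decide)
  have h02 := hp 0 2 (by decide)
  have h03 := hp 0 3 (by decide)
  have h04 := hp 0 4 (by decide)
  have h05 := hp 0 5 (by decide)
  have h12 := hp 1 2 (by decide)
  have h13 := hp 1 3 (by decide)
  have h14 := hp 1 4 (by decide)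
  have h15 := hp 1 5 (by decide)
  have h23 := hp 2 3 (by decide)
  have h24 := hp 2 4 (by decide)
  have h25 := hp 2 5 (by decide)
  have h34 := hp 3 4 (by decide)
  have h35 := hp 3 5 (by decide)
  have h45 := hp 4 5 (by decide)
  have g03 : v 0 ≠ v 3 := fun h => hE (exA ![1, 2, 0, 4, 5, 3] (by decide) (by simp only [Matrix.cons_val]; omega) (by simp only [Matrix.cons_val]; omega) (by simp only [Matrix.cons_val]; omega))
  have g04 : v 0 ≠ v 4 := fun h => hE (exA ![1, 2, 0, 3, 5, 4] (by decide) (by simp only [Matrix.cons_val]; omega) (by simp only [Matrix.cons_val]; omega) (by simp only [Matrix.cons_val]; omega))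
  have g05 : v 0 ≠ v 5 := fun h => hE (exA ![1, 2, 0, 3, 4, 5] (by decide) (by simp only [Matrix.cons_val]; omega) (by simp only [Matrix.cons_val]; omega) (by simp only [Matrix.cons_val]; omega))
  have g13 : v 1 ≠ v 3 := fun h => hE (exA ![0, 2, 1, 4, 5, 3] (by decide) (by simp only [Matrix.cons_val]; omega) (by simp only [Matrix.cons_val]; omega) (by simp only [Matrix.cons_val]; omega))
  have g14 : v 1 ≠ v 4 := fun h => hE (exA ![0, 2, 1, 3, 5, 4] (by decide) (by simp only [Matrix.cons_val]; omega) (by simp only [Matrix.cons_val]; omega) (by simp only [Matrix.cons_val]; omega))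
  have g15 : v 1 ≠ v 5 := fun h => hE (exA ![0, 2, 1, 3, 4, 5] (by decide) (by simp only [Matrix.cons_val]; omega) (by simp only [Matrix.cons_val]; omega) (by simp only [Matrix.cons_val]; omega))
  have g23 : v 2 ≠ v 3 := fun h => hE (exA ![0, 1, 2, 4, 5, 3] (by decide) (by simp only [Matrix.cons_val]; omega) (by simp only [Matrix.cons_val]; omega) (by simp only [Matrix.cons_val]; omega))
  have g24 : v 2 ≠ v 4 := fun h => hE (exA ![0, 1, 2, 3, 5, 4] (by decide) (by simp only [Matrix.cons_val]; omega) (by simp only [Matrix.cons_val]; omega) (by simp only [Matrix.cons_val]; omega))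
  have g25 : v 2 ≠ v 5 := fun h => hE (exA ![0, 1, 2, 3, 4, 5] (by decide) (by simp only [Matrix.cons_val]; omega) (by simp only [Matrix.cons_val]; omega) (by simp only [Matrix.cons_val]; omega))
  exact F_C _ _ _ _ _ _ h01 h02 h03 h04 h05 h12 h13 h14 h15 h23 h24 h25 h34 h35 h45 (by omega) (by omega) (by omega) (by omega) (by omega) (by omega) (by omega) (by omega) (by omega) (by omega) (by omega) (by omega) (by omega) (by omega) (by omega) (by omega) (by omega) (by omega)

theorem main (v : Fin 6 → ℤ) (h0 : ∀ i, v i ≠ 0) (hs : v 0 + v 1 + v 2 + v 3 + v 4 + v 5 = 0) :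
    0 ≤ C v ∨ Exc v := by
  by_cases h01 : v 0 + v 1 = 0
  · rcases canon2 (v ∘ ![0, 1, 2, 3, 4, 5]) (fun i => h0 _) (by simp only [Function.comp_apply, Matrix.cons_val]; linarith) h01 with h | h
    · left; rwa [C_inj _ (by decide)] at h
    · exact Or.inr (Exc.of_comp _ (by decide) h)
  by_cases h02 : v 0 + v 2 = 0
  · rcases canon2 (v ∘ ![0, 2, 1, 3, 4, 5]) (fun i => h0 _) (by simp only [Function.comp_apply, Matrix.cons_val]; linarith) h02 with h | h
    · left; rwa [C_inj _ (by decide)] at h
    · exact Or.inr (Exc.of_comp _ (by decide) h)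
  by_cases h03 : v 0 + v 3 = 0
  · rcases canon2 (v ∘ ![0, 3, 1, 2, 4, 5]) (fun i => h0 _) (by simp only [Function.comp_apply, Matrix.cons_val]; linarith) h03 with h | h
    · left; rwa [C_inj _ (by decide)] at h
    · exact Or.inr (Exc.of_comp _ (by decide) h)
  by_cases h04 : v 0 + v 4 = 0
  · rcases canon2 (v ∘ ![0, 4, 1, 2, 3, 5]) (fun i => h0 _) (by simp only [Function.comp_apply, Matrix.cons_val]; linarith) h04 with h | h
    · left; rwa [C_inj _ (by decide)] at h
    · exact Or.inr (Exc.of_comp _ (by decide) h)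
  by_cases h05 : v 0 + v 5 = 0
  · rcases canon2 (v ∘ ![0, 5, 1, 2, 3, 4]) (fun i => h0 _) (by simp only [Function.comp_apply, Matrix.cons_val]; linarith) h05 with h | h
    · left; rwa [C_inj _ (by decide)] at h
    · exact Or.inr (Exc.of_comp _ (by decide) h)
  by_cases h12 : v 1 + v 2 = 0
  · rcases canon2 (v ∘ ![1, 2, 0, 3, 4, 5]) (fun i => h0 _) (by simp only [Function.comp_apply, Matrix.cons_val]; linarith) h12 with h | h
    · left; rwa [C_inj _ (by decide)] at h
    · exact Or.inr (Exc.of_comp _ (by decide) h)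
  by_cases h13 : v 1 + v 3 = 0
  · rcases canon2 (v ∘ ![1, 3, 0, 2, 4, 5]) (fun i => h0 _) (by simp only [Function.comp_apply, Matrix.cons_val]; linarith) h13 with h | h
    · left; rwa [C_inj _ (by decide)] at h
    · exact Or.inr (Exc.of_comp _ (by decide) h)
  by_cases h14 : v 1 + v 4 = 0
  · rcases canon2 (v ∘ ![1, 4, 0, 2, 3, 5]) (fun i => h0 _) (by simp only [Function.comp_apply, Matrix.cons_val]; linarith) h14 with h | h
    · left; rwa [C_inj _ (by decide)] at h
    · exact Or.inr (Exc.of_comp _ (by decide) h)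
  by_cases h15 : v 1 + v 5 = 0
  · rcases canon2 (v ∘ ![1, 5, 0, 2, 3, 4]) (fun i => h0 _) (by simp only [Function.comp_apply, Matrix.cons_val]; linarith) h15 with h | h
    · left; rwa [C_inj _ (by decide)] at h
    · exact Or.inr (Exc.of_comp _ (by decide) h)
  by_cases h23 : v 2 + v 3 = 0
  · rcases canon2 (v ∘ ![2, 3, 0, 1, 4, 5]) (fun i => h0 _) (by simp only [Function.comp_apply, Matrix.cons_val]; linarith) h23 with h | h
    · left; rwa [C_inj _ (by decide)] at h
    · exact Or.inr (Exc.of_comp _ (by decide) h)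
  by_cases h24 : v 2 + v 4 = 0
  · rcases canon2 (v ∘ ![2, 4, 0, 1, 3, 5]) (fun i => h0 _) (by simp only [Function.comp_apply, Matrix.cons_val]; linarith) h24 with h | h
    · left; rwa [C_inj _ (by decide)] at h
    · exact Or.inr (Exc.of_comp _ (by decide) h)
  by_cases h25 : v 2 + v 5 = 0
  · rcases canon2 (v ∘ ![2, 5, 0, 1, 3, 4]) (fun i => h0 _) (by simp only [Function.comp_apply, Matrix.cons_val]; linarith) h25 with h | h
    · left; rwa [C_inj _ (by decide)] at h
    · exact Or.inr (Exc.of_comp _ (by decide) h)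
  by_cases h34 : v 3 + v 4 = 0
  · rcases canon2 (v ∘ ![3, 4, 0, 1, 2, 5]) (fun i => h0 _) (by simp only [Function.comp_apply, Matrix.cons_val]; linarith) h34 with h | h
    · left; rwa [C_inj _ (by decide)] at h
    · exact Or.inr (Exc.of_comp _ (by decide) h)
  by_cases h35 : v 3 + v 5 = 0
  · rcases canon2 (v ∘ ![3, 5, 0, 1, 2, 4]) (fun i => h0 _) (by simp only [Function.comp_apply, Matrix.cons_val]; linarith) h35 with h | h
    · left; rwa [C_inj _ (by decide)] at h
    · exact Or.inr (Exc.of_comp _ (by decide) h)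
  by_cases h45 : v 4 + v 5 = 0
  · rcases canon2 (v ∘ ![4, 5, 0, 1, 2, 3]) (fun i => h0 _) (by simp only [Function.comp_apply, Matrix.cons_val]; linarith) h45 with h | h
    · left; rwa [C_inj _ (by decide)] at h
    · exact Or.inr (Exc.of_comp _ (by decide) h)
  have hp : ∀ i j, i ≠ j → v i + v j ≠ 0 := by
    intro i j hij
    fin_cases i <;> fin_cases j <;> simp only [Fin.reduceFinMk, Fin.mk_one, Fin.zero_eta, Fin.isValue, ne_eq, not_true_eq_false] at hij ⊢ <;> omega
  by_cases h012 : v 0 + v 1 + v 2 = 0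
  · have hf : Function.Injective (![0, 1, 2, 3, 4, 5] : Fin 6 → Fin 6) := by decide
    rcases canon3 (v ∘ ![0, 1, 2, 3, 4, 5]) (fun i => h0 _) (by simp only [Function.comp_apply, Matrix.cons_val]; linarith) (fun i j hij => hp _ _ (fun h => hij (hf h))) h012 with h | h
    · left; rwa [C_inj _ hf] at h
    · exact Or.inr (Exc.of_comp _ hf h)
  by_cases h013 : v 0 + v 1 + v 3 = 0
  · have hf : Function.Injective (![0, 1, 3, 2, 4, 5] : Fin 6 → Fin 6) := by decide
    rcases canon3 (v ∘ ![0, 1, 3, 2, 4, 5]) (fun i => h0 _) (by simp only [Function.comp_apply, Matrix.cons_val]; linarith) (fun i j hij => hp _ _ (fun h => hij (hf h))) h013 with h | h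
    · left; rwa [C_inj _ hf] at h
    · exact Or.inr (Exc.of_comp _ hf h)
  by_cases h014 : v 0 + v 1 + v 4 = 0
  · have hf : Function.Injective (![0, 1, 4, 2, 3, 5] : Fin 6 → Fin 6) := by decide
    rcases canon3 (v ∘ ![0, 1, 4, 2, 3, 5]) (fun i => h0 _) (by simp only [Function.comp_apply, Matrix.cons_val]; linarith) (fun i j hij => hp _ _ (fun h => hij (hf h))) h014 with h | h
    · left; rwa [C_inj _ hf] at h
    · exact Or.inr (Exc.of_comp _ hf h)
  by_cases h015 : v 0 + v 1 + v 5 = 0
  · have hf : Function.Injective (![0, 1, 5, 2, 3, 4] : Fin 6 → Fin 6) := by decide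
    rcases canon3 (v ∘ ![0, 1, 5, 2, 3, 4]) (fun i => h0 _) (by simp only [Function.comp_apply, Matrix.cons_val]; linarith) (fun i j hij => hp _ _ (fun h => hij (hf h))) h015 with h | h
    · left; rwa [C_inj _ hf] at h
    · exact Or.inr (Exc.of_comp _ hf h)
  by_cases h023 : v 0 + v 2 + v 3 = 0
  · have hf : Function.Injective (![0, 2, 3, 1, 4, 5] : Fin 6 → Fin 6) := by decide
    rcases canon3 (v ∘ ![0, 2, 3, 1, 4, 5]) (fun i => h0 _) (by simp only [Function.comp_apply, Matrix.cons_val]; linarith) (fun i j hij => hp _ _ (fun h => hij (hf h))) h023 with h | h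
    · left; rwa [C_inj _ hf] at h
    · exact Or.inr (Exc.of_comp _ hf h)
  by_cases h024 : v 0 + v 2 + v 4 = 0
  · have hf : Function.Injective (![0, 2, 4, 1, 3, 5] : Fin 6 → Fin 6) := by decide
    rcases canon3 (v ∘ ![0, 2, 4, 1, 3, 5]) (fun i => h0 _) (by simp only [Function.comp_apply, Matrix.cons_val]; linarith) (fun i j hij => hp _ _ (fun h => hij (hf h))) h024 with h | h
    · left; rwa [C_inj _ hf] at h
    · exact Or.inr (Exc.of_comp _ hf h)
  by_cases h025 : v 0 + v 2 + v 5 = 0
  · have hf : Function.Injective (![0, 2, 5, 1, 3, 4] : Fin 6 → Fin 6) := by decide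
    rcases canon3 (v ∘ ![0, 2, 5, 1, 3, 4]) (fun i => h0 _) (by simp only [Function.comp_apply, Matrix.cons_val]; linarith) (fun i j hij => hp _ _ (fun h => hij (hf h))) h025 with h | h
    · left; rwa [C_inj _ hf] at h
    · exact Or.inr (Exc.of_comp _ hf h)
  by_cases h034 : v 0 + v 3 + v 4 = 0
  · have hf : Function.Injective (![0, 3, 4, 1, 2, 5] : Fin 6 → Fin 6) := by decide
    rcases canon3 (v ∘ ![0, 3, 4, 1, 2, 5]) (fun i => h0 _) (by simp only [Function.comp_apply, Matrix.cons_val]; linarith) (fun i j hij => hp _ _ (fun h => hij (hf h))) h034 with h | h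
    · left; rwa [C_inj _ hf] at h
    · exact Or.inr (Exc.of_comp _ hf h)
  by_cases h035 : v 0 + v 3 + v 5 = 0
  · have hf : Function.Injective (![0, 3, 5, 1, 2, 4] : Fin 6 → Fin 6) := by decide
    rcases canon3 (v ∘ ![0, 3, 5, 1, 2, 4]) (fun i => h0 _) (by simp only [Function.comp_apply, Matrix.cons_val]; linarith) (fun i j hij => hp _ _ (fun h => hij (hf h))) h035 with h | h
    · left; rwa [C_inj _ hf] at h
    · exact Or.inr (Exc.of_comp _ hf h)
  by_cases h045 : v 0 + v 4 + v 5 = 0
  · have hf : Function.Injective (![0, 4, 5, 1, 2, 3] : Fin 6 → Fin 6) := by decide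
    rcases canon3 (v ∘ ![0, 4, 5, 1, 2, 3]) (fun i => h0 _) (by simp only [Function.comp_apply, Matrix.cons_val]; linarith) (fun i j hij => hp _ _ (fun h => hij (hf h))) h045 with h | h
    · left; rwa [C_inj _ hf] at h
    · exact Or.inr (Exc.of_comp _ hf h)
  left
  exact F_C _ _ _ _ _ _ h01 h02 h03 h04 h05 h12 h13 h14 h15 h23 h24 h25 h34 h35 h45 (by omega) (by omega) (by omega) (by omega) (by omega) (by omega) (by omega) (by omega) (by omega) (by omega) (by omega) (by omega) (by omega) (by omega) (by omega) (by omega) (by omega) (by omega)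

end Pool.Agent.X119.Kap6b
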