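import Mathlib
import Pool.Agent.X119.Kap6b

set_option autoImplicit false

/-! Lower bound for the sixth cumulant of a sparse sum of cosines. -/

namespace Pool.Agent.X119.Kap6c

open MeasureTheory Finset Pool.Agent.X119.Kap6 Pool.Agent.X119.Kap6b Pool.Agent.X119.Cumul
open Pool.Agent.X119.TrigInt

variable {ι : Type*} [Fintype ι] (b : ι → ℕ)

omit [Fintype ι] in
lemma val_ne (hpos : ∀ k, 0 < b k) (x : ι × Bool) : val b x ≠ 0 := by
  have := hpos x.1
  unfold Kap6.val
  split_ifs <;> omega

lemma kap_C (hpos : ∀ k, 0 < b k) :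
    128 * kap (SS b) 6 = ((∑ x ∈ Rel b 6, C (fun i => val b (x i)) : ℤ) : ℝ) := by
  have h1 : ∫ ω, SS b ω ∂nu = 0 := by
    have := moment b 1
    simp only [pow_one] at this
    rw [this]
    have h2 : Rel b 1 = ∅ := by
      unfold Kap6.Rel
      rw [filter_eq_empty_iff]
      intro x _
      rw [Fin.sum_univ_one]
      exact val_ne b hpos _
    rw [h2]; simp
  rw [kap_six (SS_bdd b) h1, moment, moment, moment, moment, sum_C]
  push_cast
  ring

/-- elements of given absolute value -/
def NB (s : ℕ) : Finset (ι × Bool) := univ.filter fun y => (val b y).natAbs = s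

/-- pairs with given sum -/
def PR (s : ℤ) : Finset ((ι × Bool) × (ι × Bool)) := univ.filter fun p => val b p.1 + val b p.2 = s

/-- elements of comparable absolute value -/
def NR (s : ℕ) : Finset (ι × Bool) :=
  univ.filter fun y => (val b y).natAbs ≤ s ∧ s ≤ 3 * (val b y).natAbs

/-- sparsity -/
structure Sparse (K0 K1 K2 : ℕ) : Prop where
  pos : ∀ k, 0 < b k
  nb : ∀ s, (NB b s).card ≤ K0
  nr : ∀ s, (NR b s).card ≤ K1
  pr : ∀ s, s ≠ 0 → (PR b s).card ≤ K2

open Classical in
/-- exceptional relations of the first kind -/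
noncomputable def sA : Finset (Fin 6 → ι × Bool) := univ.filter fun x => EA (fun i => val b (x i))

open Classical in
/-- exceptional relations of the second kind -/
noncomputable def sB : Finset (Fin 6 → ι × Bool) := univ.filter fun x => EB (fun i => val b (x i))

lemma eta6 {α : Type*} (x : Fin 6 → α) : ![x 0, x 1, x 2, x 3, x 4, x 5] = x := by
  funext i; fin_cases i <;> rfl

lemma card_sA {K0 K1 K2 : ℕ} (hb : Sparse b K0 K1 K2) :
    (sA b).card ≤ (2 * Fintype.card ι) * (K0 * (K2 * K2)) := by
  classical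
  have hsub : sA b ⊆ (univ : Finset (ι × Bool)).biUnion fun c =>
      (NB b (val b c).natAbs).biUnion fun f =>
        ((PR b (-val b c)) ×ˢ (PR b (-val b f))).image
          (fun pq => ![pq.1.1, pq.1.2, c, pq.2.1, pq.2.2, f]) := by
    intro x hx
    unfold sA at hx
    rw [mem_filter] at hx
    obtain ⟨_, h1, h2, h3⟩ := hx
    rw [mem_biUnion]
    refine ⟨x 2, mem_univ _, ?_⟩
    rw [mem_biUnion]
    refine ⟨x 5, by unfold NB; rw [mem_filter]; exact ⟨mem_univ _, h3⟩, ?_⟩
    rw [mem_image]
    refine ⟨((x 0, x 1), (x 3, x 4)), ?_, eta6 x⟩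
    unfold PR
    rw [mem_product, mem_filter, mem_filter]
    refine ⟨⟨mem_univ _, ?_⟩, mem_univ _, ?_⟩ <;> simp only <;> linarith
  refine (card_le_card hsub).trans ?_
  refine (card_biUnion_le_card_mul _ _ (K0 * (K2 * K2)) ?_).trans ?_
  · intro c _
    refine (card_biUnion_le_card_mul _ _ (K2 * K2) ?_).trans (Nat.mul_le_mul_right _ (hb.nb _))
    intro f _
    refine card_image_le.trans ?_
    rw [card_product]
    exact Nat.mul_le_mul (hb.pr _ (neg_ne_zero.mpr (val_ne b hb.pos _)))
      (hb.pr _ (neg_ne_zero.mpr (val_ne b hb.pos _)))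
  · apply Nat.mul_le_mul_right
    rw [card_univ, Fintype.card_prod, Fintype.card_bool, mul_comm]

lemma card_sB {K0 K1 K2 : ℕ} (hb : Sparse b K0 K1 K2) :
    (sB b).card ≤ (2 * Fintype.card ι) * (K1 * (K2 * ((4 * K0) * (4 * K0)))) := by
  classical
  set U : (ι × Bool) → (ι × Bool) → (ι × Bool) × (ι × Bool) → Finset (ι × Bool) := fun c d p =>
    ((NB b (val b c).natAbs ∪ NB b (val b d).natAbs) ∪ NB b (val b p.1).natAbs) ∪
      NB b (val b p.2).natAbs with hU
  have hUcard : ∀ c d p, (U c d p).card ≤ 4 * K0 := by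
    intro c d p
    rw [hU]
    have h1 := card_union_le ((NB b (val b c).natAbs ∪ NB b (val b d).natAbs) ∪
      NB b (val b p.1).natAbs) (NB b (val b p.2).natAbs)
    have h2 := card_union_le (NB b (val b c).natAbs ∪ NB b (val b d).natAbs)
      (NB b (val b p.1).natAbs)
    have h3 := card_union_le (NB b (val b c).natAbs) (NB b (val b d).natAbs)
    have := hb.nb (val b c).natAbs
    have := hb.nb (val b d).natAbs
    have := hb.nb (val b p.1).natAbs
    have := hb.nb (val b p.2).natAbs
    simp only at h1 h2 h3 ⊢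
    omega
  have hsub : sB b ⊆ (univ : Finset (ι × Bool)).biUnion fun c =>
      (NR b (val b c).natAbs).biUnion fun d =>
        (if val b c + val b d = 0 then ∅ else PR b (-(val b c + val b d))).biUnion fun p =>
        ((U c d p) ×ˢ (U c d p)).image
          (fun q => ![q.1, q.2, c, d, p.1, p.2]) := by
    intro x hx
    unfold sB at hx
    rw [mem_filter] at hx
    obtain ⟨_, h1, h2, h3, h4, h5, h6⟩ := hx
    rw [mem_biUnion]
    refine ⟨x 2, mem_univ _, ?_⟩
    rw [mem_biUnion]
    refine ⟨x 3, by unfold NR; rw [mem_filter]; exact ⟨mem_univ _, h3, h4⟩, ?_⟩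
    rw [mem_biUnion]
    refine ⟨(x 4, x 5), ?_, ?_⟩
    · rw [if_neg h2]
      unfold PR
      rw [mem_filter]
      refine ⟨mem_univ _, ?_⟩
      simp only
      linarith
    rw [mem_image]
    refine ⟨(x 0, x 1), ?_, eta6 x⟩
    rw [mem_product, hU]
    unfold NB
    simp only [mem_union, mem_filter, mem_univ, true_and]
    constructor
    · rcases h5 with h | h | h | h <;> simp [h]
    · rcases h6 with h | h | h | h <;> simp [h]
  refine (card_le_card hsub).trans ?_
  refine (card_biUnion_le_card_mul _ _ (K1 * (K2 * ((4 * K0) * (4 * K0)))) ?_).trans ?_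
  · intro c _
    refine (card_biUnion_le_card_mul _ _ (K2 * ((4 * K0) * (4 * K0))) ?_).trans
      (Nat.mul_le_mul_right _ (hb.nr _))
    intro d _
    refine (card_biUnion_le_card_mul _ _ ((4 * K0) * (4 * K0)) ?_).trans
      (Nat.mul_le_mul_right _ ?_)
    · intro p _
      refine card_image_le.trans ?_
      rw [card_product]
      exact Nat.mul_le_mul (hUcard _ _ _) (hUcard _ _ _)
    · split_ifs with h
      · simp
      · exact hb.pr _ (neg_ne_zero.mpr h)
  · apply Nat.mul_le_mul_right
    rw [card_univ, Fintype.card_prod, Fintype.card_bool, mul_comm]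

open Classical in
/-- all exceptional relations -/
noncomputable def sE : Finset (Fin 6 → ι × Bool) := univ.filter fun x => Exc (fun i => val b (x i))

open Classical in
/-- the relations that become exceptional (of one of the two kinds) after reordering by `f` -/
noncomputable def sF (f : Fin 6 → Fin 6) : Finset (Fin 6 → ι × Bool) :=
  univ.filter fun x => x ∘ f ∈ sA b ∪ sB b

open Classical in
lemma mem_sF (x : Fin 6 → ι × Bool) (f : Fin 6 → Fin 6)
    (h : EA ((fun i => val b (x i)) ∘ f) ∨ EB ((fun i => val b (x i)) ∘ f)) : x ∈ sF b f := by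
  unfold sF sA sB
  rw [mem_filter, mem_union, mem_filter, mem_filter]
  refine ⟨mem_univ _, ?_⟩
  rcases h with h | h
  · exact Or.inl ⟨mem_univ _, h⟩
  · exact Or.inr ⟨mem_univ _, h⟩

open Classical in
lemma card_sF (f : Fin 6 → Fin 6) (hf : Function.Injective f) :
    (sF b f).card ≤ (sA b).card + (sB b).card := by
  refine le_trans ?_ (card_union_le (sA b) (sB b))
  apply card_le_card_of_injOn (fun x => x ∘ f)
  · intro x hx
    unfold sF at hx
    simp only [coe_filter, mem_univ, true_and, Set.mem_setOf_eq] at hx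
    exact hx
  · intro x _ y _ hxy
    have hs : Function.Surjective f := Finite.injective_iff_surjective.mp hf
    exact hs.injective_comp_right hxy

open Classical in
/-- the injective maps -/
noncomputable def inj6 : Finset (Fin 6 → Fin 6) := univ.filter Function.Injective

lemma card_inj6 : inj6.card ≤ 46656 := by
  unfold inj6
  refine (card_filter_le _ _).trans ?_
  rw [card_univ, Fintype.card_fun, Fintype.card_fin]
  norm_num

open Classical in
lemma sE_sub : sE b ⊆ inj6.biUnion (sF b) := by
  intro x hx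
  unfold sE at hx
  have hx2 : Exc (fun i => val b (x i)) := (mem_filter.mp hx).2
  unfold Exc at hx2
  rw [mem_biUnion]
  refine hx2.elim fun f hf => ⟨f, ?_, mem_sF b x f hf.2⟩
  unfold inj6
  rw [mem_filter]
  exact ⟨mem_univ _, hf.1⟩

open Classical in
lemma card_sE : (sE b).card ≤ 46656 * ((sA b).card + (sB b).card) := by
  refine (card_le_card (sE_sub b)).trans ?_
  refine (card_biUnion_le_card_mul _ _ ((sA b).card + (sB b).card) ?_).trans
    (Nat.mul_le_mul_right _ card_inj6)
  intro f hf
  unfold inj6 at hf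
  exact card_sF b f (mem_filter.mp hf).2

theorem lower {K0 K1 K2 : ℕ} (hb : Sparse b K0 K1 K2) (W : Finset (Fin 6 → ι × Bool))
    (hW : ∀ x ∈ W, x ∈ Rel b 6 ∧ C (fun i => val b (x i)) = 2) :
    2 * (W.card : ℝ) - 48 * 46656 * (2 * (Fintype.card ι) * (K0 * (K2 * K2)) +
      2 * (Fintype.card ι) * (K1 * (K2 * ((4 * K0) * (4 * K0))))) ≤ 128 * kap (SS b) 6 := by
  classical
  rw [kap_C b hb.pos]
  set g : (Fin 6 → ι × Bool) → ℤ := fun x => C (fun i => val b (x i)) with hg
  have h1 : ∑ x ∈ Rel b 6, ((if x ∈ W then 2 else 0) - (if x ∈ sE b then 48 else 0)) ≤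
      ∑ x ∈ Rel b 6, g x := by
    apply sum_le_sum
    intro x hx
    by_cases hxW : x ∈ W
    · have := (hW x hxW).2
      rw [if_pos hxW]
      simp only [hg]
      rw [this]
      split_ifs <;> norm_num
    · rw [if_neg hxW]
      by_cases hxE : x ∈ sE b
      · rw [if_pos hxE]
        exact F_lower _ _ _ _ _ _
      · rw [if_neg hxE]
        have hs : ∑ i, val b (x i) = 0 := by
          unfold Kap6.Rel at hx
          exact (mem_filter.mp hx).2
        rw [Fin.sum_univ_six] at hs
        rcases main (fun i => val b (x i)) (fun i => val_ne b hb.pos _) hs with h | h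
        · simpa using h
        · exact absurd (by unfold sE; rw [mem_filter]; exact ⟨mem_univ _, h⟩) hxE
  rw [sum_sub_distrib] at h1
  have h2 : (2:ℤ) * W.card ≤ ∑ x ∈ Rel b 6, (if x ∈ W then 2 else 0) := by
    rw [← sum_filter, sum_const, nsmul_eq_mul, mul_comm]
    apply mul_le_mul_of_nonneg_right _ (by norm_num)
    have : W ⊆ (Rel b 6).filter (fun x => x ∈ W) := by
      intro x hx
      rw [mem_filter]
      exact ⟨(hW x hx).1, hx⟩
    exact_mod_cast card_le_card this
  have h3 : ∑ x ∈ Rel b 6, (if x ∈ sE b then 48 else 0) ≤ (48:ℤ) * (sE b).card := by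
    rw [← sum_filter, sum_const, nsmul_eq_mul, mul_comm]
    apply mul_le_mul_of_nonneg_left _ (by norm_num)
    have : (Rel b 6).filter (fun x => x ∈ sE b) ⊆ sE b := by
      intro x hx
      exact (mem_filter.mp hx).2
    exact_mod_cast card_le_card this
  have h4 := card_sE b
  have h5 := card_sA b hb
  have h6 := card_sB b hb
  have h7 : (2:ℤ) * W.card - 48 * (sE b).card ≤ ∑ x ∈ Rel b 6, g x := by linarith
  have h8 : (2:ℝ) * W.card - 48 * (sE b).card ≤ ((∑ x ∈ Rel b 6, g x : ℤ) : ℝ) := by
    exact_mod_cast h7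
  have h4' : ((sE b).card : ℝ) ≤ 46656 * ((sA b).card + (sB b).card) := by exact_mod_cast h4
  have h5' : ((sA b).card : ℝ) ≤ (2 * Fintype.card ι) * (K0 * (K2 * K2)) := by exact_mod_cast h5
  have h6' : ((sB b).card : ℝ) ≤ (2 * Fintype.card ι) * (K1 * (K2 * ((4 * K0) * (4 * K0)))) := by
    exact_mod_cast h6
  linarith

end Pool.Agent.X119.Kap6c
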