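import Pool.Agent.X119.LacDense

set_option autoImplicit false

open MeasureTheory Set Filter Topology

namespace Pool.Agent.X119.LacDense

/-- density points: near almost every point of `s` the set `s` is relatively dense at every scale -/
lemma density (s : Set ℝ) (K : ℝ) (hK : 0 ≤ K) (δ : ℕ → ℝ) (hδ : ∀ j, 0 < δ j)
    (hδ0 : Tendsto δ atTop (𝓝 0)) :
    ∀ᵐ x ∂(volume.restrict s), ∀ᶠ j in atTop, ∀ y ∈ Metric.closedBall x (K * δ j),
      (s ∩ Metric.closedBall y (δ j)).Nonempty := by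
  have h := IsUnifLocDoublingMeasure.ae_tendsto_measure_inter_div (volume : Measure ℝ) s K
  filter_upwards [h] with x hx
  classical
  by_contra hcon
  rw [not_eventually] at hcon
  -- bad centres
  set w : ℕ → ℝ := fun j => if hj : ∃ y ∈ Metric.closedBall x (K * δ j),
      ¬ (s ∩ Metric.closedBall y (δ j)).Nonempty then hj.choose else x with hw
  have hw1 : ∀ j, w j ∈ Metric.closedBall x (K * δ j) := by
    intro j
    rw [hw]; simp only
    split_ifs with hj
    · exact hj.choose_spec.1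
    · exact Metric.mem_closedBall_self (mul_nonneg hK (hδ j).le)
  have hlim := hx w δ (tendsto_nhdsWithin_iff.mpr ⟨hδ0, Eventually.of_forall fun j => hδ j⟩)
    (Eventually.of_forall fun j => by
      have := hw1 j
      rw [Metric.mem_closedBall, dist_comm] at this
      exact this)
  have hev : ∀ᶠ j in atTop, 0 < volume (s ∩ Metric.closedBall (w j) (δ j)) /
      volume (Metric.closedBall (w j) (δ j)) := hlim.eventually (lt_mem_nhds (by norm_num))
  obtain ⟨j, hj1, hj2⟩ := (hcon.and_eventually hev).exists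
  push Not at hj1
  obtain ⟨y, hy1, hy2⟩ := hj1
  have hex : ∃ y ∈ Metric.closedBall x (K * δ j), ¬ (s ∩ Metric.closedBall y (δ j)).Nonempty :=
    ⟨y, hy1, by rw [hy2]; exact Set.not_nonempty_empty⟩
  have hw2 : ¬ (s ∩ Metric.closedBall (w j) (δ j)).Nonempty := by
    rw [hw]; simp only
    rw [dif_pos hex]
    exact hex.choose_spec.2
  rw [Set.not_nonempty_iff_eq_empty] at hw2
  rw [hw2] at hj2
  simp at hj2

section gaps

variable {n : ℕ → ℕ} {q : ℝ}

lemma sum_n_le (hq : 1 < q) (hgap : ∀ k, q * (n k : ℝ) ≤ (n (k + 1) : ℝ)) (m : ℕ) :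
    ∑ k ∈ Finset.range m, (n k : ℝ) ≤ n m / (q - 1) := by
  rw [le_div_iff₀ (by linarith)]
  induction m with
  | zero => simp
  | succ m ih =>
    rw [Finset.sum_range_succ, add_mul]
    have := hgap m
    linarith

lemma S_lip (m : ℕ) (x y : ℝ) :
    |S n m x - S n m y| ≤ (∑ k ∈ Finset.range m, (n k : ℝ)) * |x - y| := by
  unfold S
  rw [← Finset.sum_sub_distrib, Finset.sum_mul]
  refine (Finset.abs_sum_le_sum_abs _ _).trans (Finset.sum_le_sum fun k _ => ?_)
  have h := Real.abs_cos_sub_cos_le (n k * x) (n k * y)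
  rw [← mul_sub, abs_mul, Nat.abs_cast] at h
  exact h

lemma S_succ (m : ℕ) (x : ℝ) : S n (m+1) x = S n m x + Real.cos ((n m : ℝ) * x) := by
  simp [S, Finset.sum_range_succ]

/-- A zero of the cosine in every ball of radius `π / N`. -/
lemma exists_cos_zero (N : ℕ) (hN : 0 < N) (x : ℝ) :
    ∃ y ∈ Metric.closedBall x (Real.pi / N), Real.cos ((N:ℝ) * y) = 0 := by
  have hpi := Real.pi_pos
  have hN' : (0:ℝ) < N := by exact_mod_cast hN
  set j : ℤ := ⌊((N:ℝ) * x - Real.pi / 2) / Real.pi⌋ with hj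
  refine ⟨(Real.pi / 2 + j * Real.pi) / N, ?_, ?_⟩
  · rw [Metric.mem_closedBall, Real.dist_eq]
    have h1 := Int.floor_le (((N:ℝ) * x - Real.pi / 2) / Real.pi)
    have h2 := Int.lt_floor_add_one (((N:ℝ) * x - Real.pi / 2) / Real.pi)
    rw [← hj] at h1 h2
    rw [le_div_iff₀ hpi] at h1
    rw [div_lt_iff₀ hpi] at h2
    have e : (Real.pi / 2 + j * Real.pi) / N - x = (Real.pi / 2 + j * Real.pi - N * x) / N := by
      field_simp
    rw [e, abs_div, abs_of_pos hN']
    apply div_le_div_of_nonneg_right _ hN'.le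
    rw [abs_le]; constructor <;> nlinarith
  · have e : (N:ℝ) * ((Real.pi / 2 + j * Real.pi) / N) = Real.pi / 2 + j * Real.pi := by
      field_simp
    rw [e, Real.cos_add_int_mul_pi]
    simp

lemma same_sign {f : ℝ → ℝ} (hf : Continuous f) (ξ x r : ℝ) (hne : ∀ y ∈ Metric.closedBall x r, f y ≠ ξ)
    (a b : ℝ) (ha : a ∈ Metric.closedBall x r) (hb : b ∈ Metric.closedBall x r) (h : ξ < f a) :
    ξ < f b := by
  by_contra hcon
  push Not at hcon
  have hpre : IsPreconnected (Metric.closedBall x r) := (convex_closedBall x r).isPreconnected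
  have := hpre.intermediate_value hb ha hf.continuousOn (⟨hcon, h.le⟩ : ξ ∈ Set.Icc (f b) (f a))
  obtain ⟨y, hy, hy2⟩ := this
  exact hne y hy hy2

/-- eventually constant sign -/
lemma sign_const (hq : 1 < q) (hn : ∀ k, 0 < n k)
    (hgap : ∀ k, q * (n k : ℝ) ≤ (n (k + 1) : ℝ)) (ξ ε : ℝ) (hε : 0 < ε) (m0 : ℕ) :
    ∀ᵐ x ∂(volume.restrict {x : ℝ | ∀ m, m0 ≤ m → ε ≤ |S n m x - ξ|}),
      ∃ M, (∀ m, M ≤ m → ξ ≤ S n m x) ∨ (∀ m, M ≤ m → S n m x ≤ ξ) := by
  set P : Set ℝ := {x : ℝ | ∀ m, m0 ≤ m → ε ≤ |S n m x - ξ|} with hP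
  have hpi := Real.pi_pos
  have hmono := n_strictMono hq hn hgap
  have hq1 : 0 < q - 1 := by linarith
  -- the small constant
  set θ : ℝ := ε / (2 * (q / (q-1))) with hθ
  have hqq : 0 < q / (q-1) := by positivity
  have hθ0 : 0 < θ := by rw [hθ]; positivity
  have hd := density P (Real.pi / θ) (by positivity) (fun j => θ / n j)
    (fun j => by have : (0:ℝ) < n j := by exact_mod_cast hn j
                 positivity)
    (by
      apply Tendsto.const_div_atTop
      exact tendsto_natCast_atTop_atTop.comp hmono.tendsto_atTop)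
  filter_upwards [hd] with x hx
  rw [eventually_atTop] at hx
  obtain ⟨M0, hM0⟩ := hx
  set M := max M0 m0 with hM
  have hne : ∀ m, M ≤ m → ∀ y ∈ Metric.closedBall x (Real.pi / n m),
      S n m y ≠ ξ ∧ S n (m+1) y ≠ ξ := by
    intro m hm y hy
    have hnm : (0:ℝ) < n m := by exact_mod_cast hn m
    have h1 := hM0 m (le_trans (le_max_left _ _) hm) y (by
      have : Real.pi / θ * (θ / n m) = Real.pi / n m := by field_simp
      rw [this]; exact hy)
    obtain ⟨p, hp1, hp2⟩ := h1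
    rw [Metric.mem_closedBall, Real.dist_eq] at hp2
    have hs := sum_n_le hq hgap m
    have hs0 : 0 ≤ ∑ k ∈ Finset.range m, (n k : ℝ) := Finset.sum_nonneg fun k _ => by positivity
    have hs2 : ∑ k ∈ Finset.range (m+1), (n k : ℝ) ≤ n m * (q / (q-1)) := by
      rw [Finset.sum_range_succ]
      have : (n m : ℝ) * (q / (q-1)) = n m / (q-1) + n m := by field_simp; ring
      linarith
    have hs1 : ∑ k ∈ Finset.range m, (n k : ℝ) ≤ n m * (q / (q-1)) := by
      rw [Finset.sum_range_succ] at hs2; linarith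
    have hclose : ∀ L : ℝ, L ≤ n m * (q / (q-1)) → L * |p - y| ≤ ε / 2 := by
      intro L hL
      calc L * |p - y| ≤ (n m * (q / (q-1))) * (θ / n m) := by
            apply mul_le_mul hL hp2 (abs_nonneg _) (by positivity)
        _ = ε / 2 := by rw [hθ]; field_simp
    have hpm : m0 ≤ m := le_trans (le_max_right _ _) hm
    have hm1 := hp1 m hpm
    have hm2 := hp1 (m+1) (by omega)
    constructor
    · intro heq
      have h2 := (S_lip (n := n) m p y).trans (hclose _ hs1)
      rw [heq] at h2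
      linarith
    · intro heq
      have h2 := (S_lip (n := n) (m+1) p y).trans (hclose _ hs2)
      rw [heq] at h2
      linarith
  have hxmem : ∀ m, x ∈ Metric.closedBall x (Real.pi / n m) := fun m =>
    Metric.mem_closedBall_self (by positivity)
  have hstep : ∀ m, M ≤ m → (ξ < S n m x ↔ ξ < S n (m+1) x) := by
    intro m hm
    obtain ⟨y, hy1, hy2⟩ := exists_cos_zero (n m) (hn m) x
    have e : S n (m+1) y = S n m y := by rw [S_succ, hy2, add_zero]
    have n1 := fun z hz => (hne m hm z hz).1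
    have n2 := fun z hz => (hne m hm z hz).2
    constructor
    · intro h
      have h1 := same_sign (S_cont m) ξ x _ n1 x y (hxmem m) hy1 h
      rw [← e] at h1
      exact same_sign (S_cont (m+1)) ξ x _ n2 y x hy1 (hxmem m) h1
    · intro h
      have h1 := same_sign (S_cont (m+1)) ξ x _ n2 x y (hxmem m) hy1 h
      rw [e] at h1
      exact same_sign (S_cont m) ξ x _ n1 y x hy1 (hxmem m) h1
  refine ⟨M, ?_⟩
  by_cases h : ξ < S n M x
  · left
    intro m hm
    have : ξ < S n m x := by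
      induction m, hm using Nat.le_induction with
      | base => exact h
      | succ m hm ih => exact (hstep m hm).mp ih
    exact this.le
  · right
    intro m hm
    have : ¬ ξ < S n m x := by
      induction m, hm using Nat.le_induction with
      | base => exact h
      | succ m hm ih => exact fun hh => ih ((hstep m hm).mpr hh)
    exact not_lt.mp this

lemma P_meas (ξ ε : ℝ) (m0 : ℕ) : MeasurableSet {x : ℝ | ∀ m, m0 ≤ m → ε ≤ |S n m x - ξ|} := by
  have : {x : ℝ | ∀ m, m0 ≤ m → ε ≤ |S n m x - ξ|} =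
      ⋂ m : ℕ, ⋂ _ : m0 ≤ m, {x : ℝ | ε ≤ |S n m x - ξ|} := by
    ext x; simp
  rw [this]
  refine MeasurableSet.iInter fun m => MeasurableSet.iInter fun _ => ?_
  have hc := S_cont (n := n) m
  exact (isClosed_le continuous_const (by fun_prop)).measurableSet

lemma P_null (hq : 1 < q) (hn : ∀ k, 0 < n k)
    (hgap : ∀ k, q * (n k : ℝ) ≤ (n (k + 1) : ℝ)) (ξ ε : ℝ) (hε : 0 < ε) (m0 : ℕ) :
    mu {x : ℝ | ∀ m, m0 ≤ m → ε ≤ |S n m x - ξ|} = 0 := by
  have h := sign_const hq hn hgap ξ ε hε m0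
  rw [ae_restrict_iff' (P_meas ξ ε m0)] at h
  have hB1 : ∀ M : ℕ, mu {x : ℝ | ∀ m, M ≤ m → ξ ≤ S n m x} = 0 := by
    intro M
    apply null_B hq hn hgap 1 (Or.inl rfl) ξ M
    · have : {x : ℝ | ∀ m, M ≤ m → ξ ≤ S n m x} = ⋂ m : ℕ, ⋂ _ : M ≤ m, {x : ℝ | ξ ≤ S n m x} := by
        ext x; simp
      rw [this]
      refine MeasurableSet.iInter fun m => MeasurableSet.iInter fun _ => ?_
      have hc := S_cont (n := n) m
      exact (isClosed_le continuous_const (by fun_prop)).measurableSet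
    · intro x hx m hm
      rw [one_mul]; exact hx m hm
  have hB2 : ∀ M : ℕ, mu {x : ℝ | ∀ m, M ≤ m → S n m x ≤ ξ} = 0 := by
    intro M
    apply null_B hq hn hgap (-1) (Or.inr rfl) (-ξ) M
    · have : {x : ℝ | ∀ m, M ≤ m → S n m x ≤ ξ} = ⋂ m : ℕ, ⋂ _ : M ≤ m, {x : ℝ | S n m x ≤ ξ} := by
        ext x; simp
      rw [this]
      refine MeasurableSet.iInter fun m => MeasurableSet.iInter fun _ => ?_
      have hc := S_cont (n := n) m
      exact (isClosed_le (by fun_prop) continuous_const).measurableSet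
    · intro x hx m hm
      have := hx m hm
      linarith
  have hmu : ∀ᵐ x ∂mu, x ∈ {x : ℝ | ∀ m, m0 ≤ m → ε ≤ |S n m x - ξ|} →
      ∃ M, (∀ m, M ≤ m → ξ ≤ S n m x) ∨ (∀ m, M ≤ m → S n m x ≤ ξ) :=
    ae_restrict_of_ae h
  have h1 : ∀ᵐ x ∂mu, ∀ M : ℕ, ¬ (∀ m, M ≤ m → ξ ≤ S n m x) := by
    rw [ae_all_iff]
    intro M
    have := hB1 M
    rw [measure_eq_zero_iff_ae_notMem] at this
    exact this
  have h2 : ∀ᵐ x ∂mu, ∀ M : ℕ, ¬ (∀ m, M ≤ m → S n m x ≤ ξ) := by
    rw [ae_all_iff]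
    intro M
    have := hB2 M
    rw [measure_eq_zero_iff_ae_notMem] at this
    exact this
  rw [measure_eq_zero_iff_ae_notMem]
  filter_upwards [hmu, h1, h2] with x hx hx1 hx2 hxP
  obtain ⟨M, hM | hM⟩ := hx hxP
  · exact hx1 M hM
  · exact hx2 M hM

/-- Almost every `x` is good. -/
lemma ae_good (hq : 1 < q) (hn : ∀ k, 0 < n k)
    (hgap : ∀ k, q * (n k : ℝ) ≤ (n (k + 1) : ℝ)) :
    ∀ᵐ x ∂mu, ∀ ξ : ℝ, ∀ ε : ℝ, 0 < ε →
            ∃ᶠ m in Filter.atTop, |S n m x - ξ| < ε := by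
  have h : ∀ᵐ x ∂mu, ∀ ξ : ℚ, ∀ k : ℕ, ∀ m0 : ℕ,
      ¬ (∀ m, m0 ≤ m → 1 / ((k:ℝ) + 1) ≤ |S n m x - ξ|) := by
    rw [ae_all_iff]; intro ξ
    rw [ae_all_iff]; intro k
    rw [ae_all_iff]; intro m0
    have := P_null hq hn hgap ξ (1 / ((k:ℝ) + 1)) (by positivity) m0
    rw [measure_eq_zero_iff_ae_notMem] at this
    exact this
  filter_upwards [h] with x hx ξ ε hε
  obtain ⟨k, hk⟩ := exists_nat_one_div_lt (show (0:ℝ) < ε / 2 by positivity)
  obtain ⟨r, hr1, hr2⟩ := exists_rat_btwn (show ξ < ξ + ε / 2 by linarith)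
  rw [frequently_atTop]
  intro m0
  have := hx r k m0
  push Not at this
  obtain ⟨m, hm, hm2⟩ := this
  refine ⟨m, hm, ?_⟩
  have h3 : |S n m x - r| < ε / 2 := hm2.trans hk
  rw [abs_lt] at h3 ⊢
  constructor <;> linarith

end gaps

end Pool.Agent.X119.LacDense
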