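import Mathlib

/-!
# Congruences between rational numbers modulo powers of a prime

Definitions for statements on congruences between rational numbers, and tools to refute such congruences between explicit
numbers.
-/

set_option autoImplicit false
set_option linter.dupNamespace false

namespace Pool.Agent.X119.Cong

open Finset

/-- `x ≡ y (mod p ^ m)` in the ring of rational numbers whose denominators are prime to `p`: the difference `x - y` is
`p ^ m` times a rational number whose denominator is prime to `p`. -/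
def Cong (p m : ℕ) (x y : ℚ) : Prop := ∃ c : ℚ, p.Coprime c.den ∧ x - y = (p : ℚ) ^ m * c

/-- The binomial coefficient `a (a - 1) ⋯ (a - k + 1) / k!` for a rational number `a`. -/
def binom (a : ℚ) (k : ℕ) : ℚ := (∏ i ∈ range k, (a - i)) / k.factorial

/-- The Legendre symbol of the residue modulo the odd prime `p` of a rational number `r` whose denominator is prime to
`p`. -/
def legQ (r : ℚ) (p : ℕ) : ℤ := jacobiSym r.num p * jacobiSym r.den p

/-- The generalized central trinomial coefficient `T_n(b, c)`, the coefficient of `x ^ n` in `(x ^ 2 + b x + c) ^ n`. -/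
def T (n : ℕ) (b c : ℤ) : ℤ :=
  ∑ j ∈ range (n / 2 + 1), (n.choose (2 * j) : ℤ) * ((2 * j).choose j : ℤ) * b ^ (n - 2 * j) * c ^ j

/-- a form of `T` for computations -/
def T' (n : ℕ) (b c : ℤ) : ℤ := ∑ j ∈ range (n / 2 + 1),
    ((n.descFactorial (2 * j) / (2 * j).factorial : ℕ) : ℤ) *
      (((2 * j).descFactorial j / j.factorial : ℕ) : ℤ) * b ^ (n - 2 * j) * c ^ j

theorem T_eq (n : ℕ) (b c : ℤ) : T n b c = T' n b c := by
  unfold T T'
  refine sum_congr rfl fun j _ => ?_
  rw [Nat.choose_eq_descFactorial_div_factorial, Nat.choose_eq_descFactorial_div_factorial]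

/-- a form of the binomial coefficient for computations -/
def ch (n k : ℕ) : ℕ := n.descFactorial k / k.factorial

theorem ch_eq (n k : ℕ) : n.choose k = ch n k := Nat.choose_eq_descFactorial_div_factorial n k

theorem dvd_num {p m : ℕ} {x y : ℚ} (h : Cong p m x y) : ((p ^ m : ℕ) : ℤ) ∣ (x - y).num := by
  obtain ⟨c, hc, h⟩ := h
  have hc0 : (c.den : ℚ) ≠ 0 := by exact_mod_cast c.den_nz
  have hd0 : ((x - y).den : ℚ) ≠ 0 := by exact_mod_cast (x - y).den_nz
  have h1 : ((x - y).num : ℚ) * c.den = (p : ℚ) ^ m * c.num * (x - y).den := by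
    have e1 : (x - y) = ((x - y).num : ℚ) / (x - y).den := (Rat.num_div_den _).symm
    have e2 : c = (c.num : ℚ) / c.den := (Rat.num_div_den _).symm
    have e3 : ((x - y).num : ℚ) / (x - y).den = (p : ℚ) ^ m * ((c.num : ℚ) / c.den) := by
      rw [← e1, ← e2, h]
    field_simp at e3
    linarith
  have h2 : (x - y).num * (c.den : ℤ) = ((p ^ m : ℕ) : ℤ) * (c.num * (x - y).den) := by
    have h3 : (((x - y).num * (c.den : ℤ) : ℤ) : ℚ) = ((((p ^ m : ℕ) : ℤ) * (c.num * (x - y).den) : ℤ) : ℚ) := by
      push_cast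
      rw [h1]
      ring
    exact_mod_cast h3
  have h4 : IsCoprime ((p ^ m : ℕ) : ℤ) (c.den : ℤ) := by
    rw [Nat.isCoprime_iff_coprime]
    exact Nat.Coprime.pow_left m hc
  exact h4.dvd_of_dvd_mul_right ⟨_, h2⟩

/-- The congruence fails if the numerator of the difference is not divisible by `p ^ m`. -/
theorem not_cong {p m : ℕ} {x y : ℚ} (h : ¬ ((p ^ m : ℕ) : ℤ) ∣ (x - y).num) : ¬ Cong p m x y := fun h' =>
  h (dvd_num h')

/-- A form in which the right-hand side is replaced by an explicit number. -/
theorem not_cong' {p m : ℕ} {x y z : ℚ} (hz : y = z) (h : ¬ ((p ^ m : ℕ) : ℤ) ∣ (x - z).num) : ¬ Cong p m x y := by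
  subst hz
  exact not_cong h

end Pool.Agent.X119.Cong
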