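import Pool.Agent.W123.PP.Win

set_option autoImplicit false

/-!
# The density of the primes around almost all primes of every short interval
-/

namespace Pool.Agent.X119.Dens

open Finset Filter
open Pool.Agent.W123.RP Pool.Agent.W123.GS

/-- the number of primes in `(a, b]` -/
def cnt (a b : ℕ) : ℕ := ((Ioc a b).filter Nat.Prime).card

/-- For all `h` with `C L ≤ h ≤ Y` both intervals `(p, p + h]` and `(p - h, p]` contain between `h / (C L)` and
`C h / L` primes. -/
def Order (C L : ℝ) (Y p : ℕ) : Prop :=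
  ∀ h : ℕ, C * L ≤ h → h ≤ Y →
    (h / (C * L) ≤ cnt p (p + h) ∧ (cnt p (p + h) : ℝ) ≤ C * h / L) ∧
    (h / (C * L) ≤ cnt (p - h) p ∧ (cnt (p - h) p : ℝ) ≤ C * h / L)

/-- Up to `δ` the primes have a constant density in `(p - D, p + D]`. -/
def ConstantDensity (C L δ : ℝ) (p D : ℕ) : Prop :=
  ∃ lam : ℝ, 0 ≤ lam ∧ lam ≤ C ∧ ∀ u v : ℕ, p ≤ u + D → u ≤ v → v ≤ p + D →
    |(cnt u v : ℝ) - lam * ((v : ℝ) - u) / L| ≤ δ * D / L

open Classical in
/-- the number of the dyadic scales `L ≤ 2 ^ j ≤ Y` at which the density is not constant -/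
noncomputable def badScales (C L δ : ℝ) (Y p : ℕ) : ℕ :=
  ((range (Nat.log 2 Y + 1)).filter (fun j => L ≤ (2 : ℝ) ^ j ∧ ¬ ConstantDensity C L δ p (2 ^ j))).card

open Classical in
theorem dens (θ : ℝ) (h0 : 0 < θ) (h1 : θ ≤ 1) (ε : ℝ) (hε : 0 < ε) :
    ∃ C : ℝ, 1 ≤ C ∧ ∀ δ : ℝ, 0 < δ → ∃ B : ℕ, ∀ᶠ X : ℕ in atTop, ∀ Y : ℕ, (X : ℝ) ^ θ ≤ Y → Y ≤ X →
      ∀ L : ℝ, L ≤ Real.log X → Real.log X ≤ 2 * L →
      (((Ioc X (X + Y)).filter (fun p => p.Prime ∧ ¬ (Order C L Y p ∧ badScales C L δ Y p ≤ B))).card : ℝ) ≤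
        ε * Y / L := by
  obtain ⟨c, Lam, hc, hLam, hw⟩ := Pool.Agent.W123.PP.prime_windows θ h0 h1 ε hε
  obtain ⟨C, hC⟩ : ∃ C : ℝ, C = 4 / c + 2 + Lam := ⟨_, rfl⟩
  have hcC : 4 / c ≤ C := by rw [hC]; linarith
  have h4c : 0 < 4 / c := by positivity
  have hC2 : 2 ≤ C := by rw [hC]; linarith
  have hLC : Lam ≤ C := by rw [hC]; linarith
  refine ⟨C, by linarith, fun δ hδ => ?_⟩
  obtain ⟨K, hK⟩ := hw δ hδ
  refine ⟨K + 1, ?_⟩
  have hlogX : Tendsto (fun X : ℕ => Real.log (X : ℝ)) atTop atTop :=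
    Real.tendsto_log_atTop.comp tendsto_natCast_atTop_atTop
  filter_upwards [hK, hlogX.eventually_ge_atTop 2] with X hX hlog Y hXY hYX L hL1 hL2
  have hL0 : 0 < L := by linarith
  have hX0 : 0 < Real.log X := by linarith
  have hC0 : 0 < C := by linarith
  have h3 := hX Y hXY hYX
  have hY0 : (0 : ℝ) ≤ Y := Nat.cast_nonneg _
  refine le_trans ?_ (h3.trans (by gcongr))
  refine Nat.cast_le.2 (card_le_card ?_)
  intro p hp
  rw [mem_filter] at hp ⊢
  obtain ⟨hp1, hpp, hpn⟩ := hp
  refine ⟨hp1, hpp, fun hall => hpn ?_⟩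
  obtain ⟨ha, hb, hbad⟩ := hall
  rw [mem_Ioc] at hp1
  constructor
  · intro h hh hhY
    have hh0 : (0 : ℝ) < h := lt_of_lt_of_le (by positivity) hh
    have hh1 : 1 ≤ h := by exact_mod_cast hh0
    obtain ⟨a1, a2⟩ := ha h hh1 hhY
    have hfl : ⌊Real.log X⌋₊ ≤ h := by
      have e1 : (⌊Real.log X⌋₊ : ℝ) ≤ Real.log X := Nat.floor_le hX0.le
      have e2 : 2 * L ≤ C * L := by gcongr
      have : (⌊Real.log X⌋₊ : ℝ) ≤ h := by linarith
      exact_mod_cast this
    obtain ⟨b1, b2⟩ := hb h hfl hhY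
    -- lower bounds
    have e3 : c / (2 * L) * h ≤ c / Real.log X * h := by gcongr
    have e4 : h / (C * L) ≤ c / (2 * L) * h - 1 := by
      have e5 : 4 / c * L ≤ h := le_trans (by gcongr) hh
      have e6 : (h : ℝ) / (C * L) ≤ c / (4 * L) * h := by
        calc (h : ℝ) / (C * L) ≤ h / (4 / c * L) := by gcongr
          _ = c / (4 * L) * h := by field_simp
      have e7 : 1 ≤ c / (4 * L) * h := by
        calc (1 : ℝ) = c / (4 * L) * (4 / c * L) := by field_simp
          _ ≤ _ := by gcongr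
      have e8 : c / (2 * L) * h = c / (4 * L) * h + c / (4 * L) * h := by field_simp; ring
      linarith
    have e9 : Lam / Real.log X * h ≤ C * h / L := by
      calc Lam / Real.log X * h ≤ C / L * h := by gcongr
        _ = C * h / L := by ring
    have f1 : (cl Nat.Prime p (p + h) : ℝ) ≤ cnt p (p + h) + 1 := by
      have f2 : cl Nat.Prime p (p + h) ≤ cnt p (p + h) + 1 := by
        unfold cl cnt
        have h9 : (Ico p (p + h)).filter Nat.Prime ⊆ insert p ((Ioc p (p + h)).filter Nat.Prime) := by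
          intro m hm
          rw [mem_filter, mem_Ico] at hm
          rw [mem_insert, mem_filter, mem_Ioc]
          rcases Nat.eq_or_lt_of_le hm.1.1 with h10 | h10
          · exact Or.inl h10.symm
          · exact Or.inr ⟨⟨h10, hm.1.2.le⟩, hm.2⟩
        exact (card_le_card h9).trans (card_insert_le _ _)
      exact_mod_cast f2
    have f3 : (cl Nat.Prime (p + 1 - h) (p + 1) : ℝ) ≤ cnt (p - h) p := by
      refine Nat.cast_le.2 ?_
      unfold cl cnt
      apply card_le_card
      intro m hm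
      rw [mem_filter, mem_Ico] at hm
      rw [mem_filter, mem_Ioc]
      exact ⟨⟨by omega, by omega⟩, hm.2⟩
    have g1 : (cnt p (p + h) : ℝ) = co Nat.Prime p (p + h) := by
      unfold cnt co
      congr
    have g2 : (cnt (p - h) p : ℝ) = co Nat.Prime (p - h) p := by
      unfold cnt co
      congr
    refine ⟨⟨by linarith, ?_⟩, ⟨by linarith, ?_⟩⟩
    · rw [g1]
      exact b1.trans e9
    · rw [g2]
      exact b2.trans e9
  · -- the scales
    have hgood : ∀ j, Real.log X ≤ (2 : ℝ) ^ j → Good Nat.Prime 0 Lam δ (Real.log X) p j →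
        ConstantDensity C L δ p (2 ^ j) := by
      rintro j - ⟨lam, l1, l2, l3⟩
      refine ⟨lam * L / Real.log X, by positivity, ?_, ?_⟩
      · rw [div_le_iff₀ hX0]
        calc lam * L ≤ C * Real.log X := by
              apply mul_le_mul (l2.trans hLC) hL1 hL0.le hC0.le
          _ = _ := rfl
      · intro u v hu huv hv
        have h5 := l3 u v hu huv hv
        have h6 : lam * L / Real.log X * ((v : ℝ) - u) / L = lam * ((v : ℝ) - u) / Real.log X := by
          field_simp
        have h7 : (cnt u v : ℝ) = co Nat.Prime u v := by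
          unfold cnt co
          congr
        rw [h6, h7]
        refine h5.trans ?_
        push_cast
        gcongr
    have hsub : (range (Nat.log 2 Y + 1)).filter (fun j => L ≤ (2 : ℝ) ^ j ∧
        ¬ ConstantDensity C L δ p (2 ^ j)) ⊆
        ((range (Nat.log 2 Y + 1)).filter (fun j => Real.log X ≤ (2 : ℝ) ^ j ∧
          ¬ Good Nat.Prime 0 Lam δ (Real.log X) p j)) ∪
        (range (Nat.log 2 Y + 1)).filter (fun j => L ≤ (2 : ℝ) ^ j ∧ (2 : ℝ) ^ j < Real.log X) := by
      intro j hj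
      rw [mem_filter] at hj
      rw [mem_union, mem_filter, mem_filter]
      rcases le_or_gt (Real.log X) ((2 : ℝ) ^ j) with h5 | h5
      · exact Or.inl ⟨hj.1, h5, fun hg => hj.2.2 (hgood j h5 hg)⟩
      · exact Or.inr ⟨hj.1, hj.2.1, h5⟩
    have hone : ((range (Nat.log 2 Y + 1)).filter (fun j => L ≤ (2 : ℝ) ^ j ∧
        (2 : ℝ) ^ j < Real.log X)).card ≤ 1 := by
      rw [card_le_one]
      intro i hi j hj
      rw [mem_filter] at hi hj
      have key : ∀ a b : ℕ, L ≤ (2 : ℝ) ^ a → (2 : ℝ) ^ b < Real.log X → b ≤ a := by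
        intro a b h5 h6
        by_contra hcon
        push Not at hcon
        have h7 : (2 : ℝ) ^ (a + 1) ≤ 2 ^ b := pow_le_pow_right₀ (by norm_num) hcon
        rw [pow_succ] at h7
        linarith
      exact le_antisymm (key j i hj.2.1 hi.2.2) (key i j hi.2.1 hj.2.2)
    unfold badScales
    refine (card_le_card hsub).trans ((card_union_le _ _).trans ?_)
    exact add_le_add hbad hone

end Pool.Agent.X119.Dens
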