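import Pool.Agent.Y816.PD.Inst2

set_option autoImplicit false

/-!
# Tools for the instances of the theorem on almost primes with prescribed digits
-/

namespace Pool.Agent.X119.Dig

open Finset
open Pool.Agent.Y816.PD (NA ND)

open Classical in
lemma nd_mono (b K : ℕ) (A : ℕ → Finset ℕ) {S T : Set ℕ} (h : ∀ n, n ∈ S → n ∈ T) :
    (ND b K A S : ℝ) ≤ ND b K A T := by
  have h1 : ND b K A S ≤ ND b K A T := by
    unfold ND
    apply card_le_card
    intro n hn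
    rw [mem_filter] at hn ⊢
    exact ⟨hn.1, hn.2.1, h n hn.2.2⟩
  exact Nat.cast_le.2 h1

/-- a prime divisor of a prime `N ≥ n` is larger than `n ^ (1 / r)` -/
lemma prime_rough {r n N p : ℕ} (hr : 2 ≤ r) (hn : 2 ≤ n) (hN : N.Prime) (h : n ≤ N)
    (hp : p.Prime) (hd : p ∣ N) : (n : ℝ) ^ (1 / (r : ℝ)) < (p : ℝ) := by
  rw [(Nat.prime_dvd_prime_iff_eq hp hN).1 hd]
  exact Pool.Agent.TH977.PW.rpow_lt_of_le r n N hr hn h

lemma zero_rough {r p : ℕ} (hr : 2 ≤ r) (hp : p.Prime) : ((0 : ℕ) : ℝ) ^ (1 / (r : ℝ)) < (p : ℝ) := by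
  have hr0 : (0 : ℝ) < r := by exact_mod_cast (by omega : 0 < r)
  rw [Nat.cast_zero, Real.zero_rpow (by positivity)]
  exact_mod_cast hp.pos

lemma one_rough {r p : ℕ} (hp : p.Prime) : ((1 : ℕ) : ℝ) ^ (1 / (r : ℝ)) < (p : ℝ) := by
  rw [Nat.cast_one, Real.one_rpow]
  exact_mod_cast hp.one_lt

end Pool.Agent.X119.Dig
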