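import Mathlib

set_option autoImplicit false

open MeasureTheory Set Filter Topology

namespace Pool.Agent.X119.LacDense

/-- For a square summable family, sums over finite sets are small compared with the square
root of the cardinality. -/
lemma sum_small {ι : Type*} (f : ι → ℝ) (hf : Summable fun i => (f i)^2) (δ : ℝ) (hδ : 0 < δ) :
    ∃ C : ℝ, ∀ F : Finset ι, |∑ i ∈ F, f i| ≤ δ * Real.sqrt F.card + C := by
  classical
  obtain ⟨F0, hF0⟩ := summable_iff_vanishing_norm.mp hf (δ^2) (by positivity)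
  refine ⟨∑ i ∈ F0, |f i|, fun F => ?_⟩
  have h1 : ∑ i ∈ F, f i = ∑ i ∈ F \ F0, f i + ∑ i ∈ F ∩ F0, f i := by
    rw [add_comm, Finset.sum_inter_add_sum_sdiff]
  have h2 : |∑ i ∈ F ∩ F0, f i| ≤ ∑ i ∈ F0, |f i| := by
    refine (Finset.abs_sum_le_sum_abs _ _).trans ?_
    exact Finset.sum_le_sum_of_subset_of_nonneg Finset.inter_subset_right
      (fun i _ _ => abs_nonneg _)
  have h3 : |∑ i ∈ F \ F0, f i| ≤ δ * Real.sqrt F.card := by
    have h4 := hF0 (F \ F0) Finset.sdiff_disjoint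
    have h5 : ∑ i ∈ F \ F0, (f i)^2 ≤ δ^2 := by
      have := le_of_lt h4
      rw [Real.norm_eq_abs] at this
      exact (le_abs_self _).trans this
    have h6 : (∑ i ∈ F \ F0, f i)^2 ≤ (F \ F0).card * ∑ i ∈ F \ F0, (f i)^2 :=
      sq_sum_le_card_mul_sum_sq
    have h7 : ((F \ F0).card : ℝ) ≤ F.card := by
      exact_mod_cast Finset.card_le_card Finset.sdiff_subset
    have h8 : (∑ i ∈ F \ F0, f i)^2 ≤ (δ * Real.sqrt F.card)^2 := by
      rw [mul_pow, Real.sq_sqrt (by positivity)]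
      calc (∑ i ∈ F \ F0, f i)^2 ≤ (F \ F0).card * ∑ i ∈ F \ F0, (f i)^2 := h6
        _ ≤ F.card * δ^2 := by
            apply mul_le_mul h7 h5 (Finset.sum_nonneg fun i _ => sq_nonneg _) (by positivity)
        _ = δ^2 * F.card := by ring
    exact abs_le_of_sq_le_sq h8 (by positivity)
  rw [h1]
  calc |∑ i ∈ F \ F0, f i + ∑ i ∈ F ∩ F0, f i| ≤ |∑ i ∈ F \ F0, f i| + |∑ i ∈ F ∩ F0, f i| :=
        abs_add_le _ _
    _ ≤ _ := by linarith

noncomputable section

/-- Lebesgue measure on one period. -/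
def mu : Measure ℝ := volume.restrict (Ioc 0 (2 * Real.pi))

instance : IsFiniteMeasure mu := by unfold mu; infer_instance

lemma integ (f : ℝ → ℝ) (hf : Continuous f) (B : Set ℝ) : Integrable f (mu.restrict B) := by
  have h : Integrable f mu := hf.integrableOn_Ioc (a := 0) (b := 2 * Real.pi)
  exact h.mono_measure Measure.restrict_le_self

lemma integ' (f : ℝ → ℝ) (hf : Continuous f) : Integrable f mu :=
  hf.integrableOn_Ioc (a := 0) (b := 2 * Real.pi)

lemma int_cos_int (k : ℤ) (hk : k ≠ 0) : ∫ x, Real.cos ((k : ℝ) * x) ∂mu = 0 := by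
  have h : ∫ x, Real.cos ((k : ℝ) * x) ∂mu = ∫ x in (0:ℝ)..(2 * Real.pi), Real.cos ((k : ℝ) * x) := by
    rw [intervalIntegral.integral_of_le (by positivity)]; rfl
  rw [h]
  have hk' : (k : ℝ) ≠ 0 := by exact_mod_cast hk
  rw [intervalIntegral.integral_comp_mul_left (fun x => Real.cos x) hk', integral_cos]
  have : Real.sin ((k : ℝ) * (2 * Real.pi)) = 0 := by
    have := Real.sin_int_mul_pi (2 * k)
    rw [← this]; push_cast; ring_nf
  rw [this]; simp

lemma int_one : ∫ _x, (1 : ℝ) ∂mu = 2 * Real.pi := by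
  simp [mu, Measure.real]
  positivity

lemma int_cos_cos (a b : ℕ) (ha : 0 < a) (hb : 0 < b) :
    ∫ x, Real.cos ((a : ℝ) * x) * Real.cos ((b : ℝ) * x) ∂mu = if a = b then Real.pi else 0 := by
  have h : ∀ x : ℝ, Real.cos ((a : ℝ) * x) * Real.cos ((b : ℝ) * x) =
      (1/2) * Real.cos ((((a : ℤ) - b : ℤ) : ℝ) * x) + (1/2) * Real.cos ((((a : ℤ) + b : ℤ) : ℝ) * x) := by
    intro x
    push_cast
    rw [sub_mul, add_mul, Real.cos_sub, Real.cos_add]; ring
  simp_rw [h]
  rw [integral_add ((integ' _ (by fun_prop)).const_mul _) ((integ' _ (by fun_prop)).const_mul _),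
    integral_const_mul, integral_const_mul, int_cos_int ((a : ℤ) + b) (by positivity)]
  split_ifs with hab
  · subst hab
    simp only [sub_self, Int.cast_zero, zero_mul, Real.cos_zero]
    rw [int_one]; ring
  · rw [int_cos_int _ (by omega)]; simp

/-- second moment of a finite sum of cosines -/
lemma second_moment {ι : Type*} (N : ι → ℕ) (hN : ∀ p, 0 < N p) (A : ℕ)
    (hA : ∀ v, ∀ F : Finset ι, (∀ p ∈ F, N p = v) → F.card ≤ A) (F : Finset ι) :
    ∫ x, (∑ p ∈ F, Real.cos ((N p : ℝ) * x))^2 ∂mu ≤ Real.pi * A * F.card := by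
  classical
  have h : ∀ x : ℝ, (∑ p ∈ F, Real.cos ((N p : ℝ) * x))^2 =
      ∑ p ∈ F, ∑ p' ∈ F, Real.cos ((N p : ℝ) * x) * Real.cos ((N p' : ℝ) * x) := by
    intro x
    rw [sq, Finset.sum_mul_sum]
  simp_rw [h]
  rw [integral_finsetSum _ (fun p _ => integ' _ (by fun_prop))]
  have h2 : ∀ p ∈ F, ∫ x, ∑ p' ∈ F, Real.cos ((N p : ℝ) * x) * Real.cos ((N p' : ℝ) * x) ∂mu
      ≤ Real.pi * A := by
    intro p _
    rw [integral_finsetSum _ (fun p _ => integ' _ (by fun_prop))]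
    simp_rw [int_cos_cos _ _ (hN _) (hN _)]
    rw [← Finset.sum_filter, Finset.sum_const, nsmul_eq_mul, mul_comm]
    apply mul_le_mul_of_nonneg_left _ Real.pi_pos.le
    have hc := hA (N p) (F.filter (fun p' => N p = N p'))
      (fun p' hp' => by have := (Finset.mem_filter.mp hp').2; exact this.symm)
    exact_mod_cast hc
  refine (Finset.sum_le_sum h2).trans ?_
  rw [Finset.sum_const, nsmul_eq_mul]
  apply le_of_eq; ring

/-- Fourier cosine coefficients of a set -/
def bc (B : Set ℝ) (N : ℕ) : ℝ := ∫ x in B, Real.cos ((N : ℝ) * x) ∂mu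

lemma bessel (B : Set ℝ) (hB : MeasurableSet B) (F : Finset ℕ) (hF : ∀ N ∈ F, 0 < N) :
    ∑ N ∈ F, (bc B N)^2 ≤ 2 * Real.pi ^ 2 := by
  classical
  set T : ℝ → ℝ := fun x => ∑ N ∈ F, bc B N * Real.cos ((N : ℝ) * x) with hT
  have hTc : Continuous T := by rw [hT]; fun_prop
  have h1 : ∫ x in B, T x ∂mu = ∑ N ∈ F, (bc B N)^2 := by
    rw [hT, integral_finsetSum _ (fun p _ => integ _ (by fun_prop) _)]
    refine Finset.sum_congr rfl fun N _ => ?_
    rw [integral_const_mul, sq]; rfl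
  have h2 : ∫ x, (T x)^2 ∂mu = Real.pi * ∑ N ∈ F, (bc B N)^2 := by
    have h : ∀ x : ℝ, (T x)^2 =
        ∑ p ∈ F, ∑ p' ∈ F, (bc B p * bc B p') * (Real.cos ((p : ℝ) * x) * Real.cos ((p' : ℝ) * x)) := by
      intro x
      rw [hT]; simp only
      rw [sq, Finset.sum_mul_sum]
      refine Finset.sum_congr rfl fun p _ => Finset.sum_congr rfl fun p' _ => by ring
    simp_rw [h]
    rw [integral_finsetSum _ (fun p _ => integ' _ (by fun_prop)), Finset.mul_sum]
    refine Finset.sum_congr rfl fun p hp => ?_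
    rw [integral_finsetSum _ (fun p _ => integ' _ (by fun_prop))]
    rw [Finset.sum_eq_single p]
    · rw [integral_const_mul, int_cos_cos _ _ (hF _ hp) (hF _ hp)]; simp; ring
    · intro p' hp' hne
      rw [integral_const_mul, int_cos_cos _ _ (hF _ hp) (hF _ hp')]; simp [Ne.symm hne]
    · intro h; exact absurd hp h
  -- 0 ≤ ∫ (1_B - T/π)^2
  have h3 : 0 ≤ ∫ x, (B.indicator (fun _ => (1:ℝ)) x - T x / Real.pi)^2 ∂mu :=
    integral_nonneg fun x => sq_nonneg _
  have h4 : ∀ x : ℝ, (B.indicator (fun _ => (1:ℝ)) x - T x / Real.pi)^2 =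
      B.indicator (fun x => 1 - (2 / Real.pi) * T x) x + (1 / Real.pi^2) * (T x)^2 := by
    intro x
    by_cases hx : x ∈ B
    · simp only [Set.indicator_of_mem hx]; field_simp; ring
    · simp only [Set.indicator_of_notMem hx]; field_simp; ring
  simp_rw [h4] at h3
  rw [integral_add, integral_indicator hB, integral_sub, integral_const_mul, integral_const_mul,
    h1, h2] at h3
  · have h5 : ∫ x in B, (1:ℝ) ∂mu ≤ 2 * Real.pi := by
      rw [← int_one]
      apply integral_mono_measure Measure.restrict_le_self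
      · exact Filter.Eventually.of_forall fun x => zero_le_one
      · exact integ' _ continuous_const
    have hpi := Real.pi_pos
    have h6 : 0 ≤ 2 * Real.pi - (1 / Real.pi) * ∑ N ∈ F, (bc B N)^2 := by
      have : (2 / Real.pi) * ∑ N ∈ F, (bc B N)^2 - 1 / Real.pi^2 * (Real.pi * ∑ N ∈ F, (bc B N)^2)
          = (1 / Real.pi) * ∑ N ∈ F, (bc B N)^2 := by
        field_simp; ring
      linarith
    have h7 : (1 / Real.pi) * ∑ N ∈ F, (bc B N)^2 ≤ 2 * Real.pi := by linarith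
    rw [one_div, inv_mul_le_iff₀ hpi] at h7
    linarith [h7, sq Real.pi]
  · exact integ _ continuous_const _
  · exact integ _ (by fun_prop) _
  · exact (integrable_indicator_iff hB).mpr (integ _ (by fun_prop) _)
  · exact integ' _ (by fun_prop)

lemma summable_bc {ι : Type*} (N : ι → ℕ) (hN : ∀ p, 0 < N p) (A : ℕ)
    (hA : ∀ v, ∀ F : Finset ι, (∀ p ∈ F, N p = v) → F.card ≤ A) (B : Set ℝ) (hB : MeasurableSet B) :
    Summable fun p => (bc B (N p))^2 := by
  classical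
  apply summable_of_sum_le (c := A * (2 * Real.pi^2)) (fun p => sq_nonneg _)
  intro F
  rw [Finset.sum_comp (fun v => (bc B v)^2) N]
  calc ∑ b ∈ F.image N, (F.filter (fun a => N a = b)).card • (bc B b)^2
      ≤ ∑ b ∈ F.image N, (A : ℝ) * (bc B b)^2 := by
        apply Finset.sum_le_sum
        intro b _
        rw [nsmul_eq_mul]
        apply mul_le_mul_of_nonneg_right _ (sq_nonneg _)
        exact_mod_cast hA b _ (fun p' hp' => ((Finset.mem_filter.mp hp').2))
    _ = A * ∑ b ∈ F.image N, (bc B b)^2 := by rw [Finset.mul_sum]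
    _ ≤ A * (2 * Real.pi^2) := by
        apply mul_le_mul_of_nonneg_left _ (by positivity)
        apply bessel B hB
        intro v hv
        obtain ⟨p, _, rfl⟩ := Finset.mem_image.mp hv
        exact hN p

section gaps

variable {n : ℕ → ℕ} {q : ℝ}

lemma gap_pow (hq : 1 < q) (hgap : ∀ k, q * (n k : ℝ) ≤ (n (k + 1) : ℝ)) (k d : ℕ) :
    q ^ d * (n k : ℝ) ≤ n (k + d) := by
  induction d with
  | zero => simp
  | succ d ih =>
    have h := hgap (k + d)
    calc q ^ (d+1) * (n k : ℝ) = q * (q ^ d * n k) := by ring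
      _ ≤ q * n (k + d) := by apply mul_le_mul_of_nonneg_left ih (by linarith)
      _ ≤ n (k + d + 1) := h

lemma n_strictMono (hq : 1 < q) (hn : ∀ k, 0 < n k)
    (hgap : ∀ k, q * (n k : ℝ) ≤ (n (k + 1) : ℝ)) : StrictMono n := by
  apply strictMono_nat_of_lt_succ
  intro k
  have h := hgap k
  have h0 : (0:ℝ) < n k := by exact_mod_cast hn k
  have : (n k : ℝ) < n (k+1) := by nlinarith
  exact_mod_cast this

lemma card_window (hq : 1 < q) (hn : ∀ k, 0 < n k)
    (hgap : ∀ k, q * (n k : ℝ) ≤ (n (k + 1) : ℝ)) (R : ℝ) (A : ℕ) (hA : R < q ^ A)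
    (F : Finset ℕ) (hF : ∀ k ∈ F, ∀ l ∈ F, (n l : ℝ) ≤ R * n k) : F.card ≤ A := by
  rcases F.eq_empty_or_nonempty with rfl | hne
  · simp
  set k0 := F.min' hne with hk0
  have hk0F : k0 ∈ F := F.min'_mem hne
  have hsub : F ⊆ Finset.Ico k0 (k0 + A) := by
    intro l hl
    rw [Finset.mem_Ico]
    refine ⟨F.min'_le l hl, ?_⟩
    by_contra hcon
    push Not at hcon
    obtain ⟨d, rfl⟩ := Nat.exists_eq_add_of_le hcon
    have h1 := hF k0 hk0F _ hl
    have h2 := gap_pow hq hgap k0 (A + d)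
    rw [← add_assoc] at h2
    have h3 : q ^ A ≤ q ^ (A + d) := pow_le_pow_right₀ hq.le (by omega)
    have h0 : (0:ℝ) < n k0 := by exact_mod_cast hn k0
    have h4 : q ^ A * (n k0 : ℝ) ≤ R * n k0 :=
      (mul_le_mul_of_nonneg_right h3 h0.le).trans (h2.trans h1)
    have h5 := le_of_mul_le_mul_right h4 h0
    linarith
  have := Finset.card_le_card hsub
  simpa using this

/-- index set for the pairs `j < k` -/
abbrev Pr := Σ k : ℕ, Fin k

/-- the differences -/
def Nm (n : ℕ → ℕ) (p : Pr) : ℕ := n p.1 - n p.2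
/-- the sums -/
def Np (n : ℕ → ℕ) (p : Pr) : ℕ := n p.1 + n p.2

lemma Nm_pos (hq : 1 < q) (hn : ∀ k, 0 < n k)
    (hgap : ∀ k, q * (n k : ℝ) ≤ (n (k + 1) : ℝ)) (p : Pr) : 0 < Nm n p := by
  have := n_strictMono hq hn hgap p.2.2
  unfold Nm; omega

lemma Np_pos (hn : ∀ k, 0 < n k) (p : Pr) : 0 < Np n p := by
  have := hn p.1
  unfold Np; omega

lemma exists_A (hq : 1 < q) : ∃ A : ℕ, 0 < A ∧ q / (q - 1) < q ^ A ∧ 2 < q ^ A := by
  obtain ⟨a, ha⟩ := pow_unbounded_of_one_lt (q / (q-1)) hq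
  obtain ⟨b, hb⟩ := pow_unbounded_of_one_lt 2 hq
  refine ⟨a + b + 1, by omega, ?_, ?_⟩
  · exact ha.trans_le (pow_le_pow_right₀ hq.le (by omega))
  · exact hb.trans_le (pow_le_pow_right₀ hq.le (by omega))

lemma mult_Nm (hq : 1 < q) (hn : ∀ k, 0 < n k)
    (hgap : ∀ k, q * (n k : ℝ) ≤ (n (k + 1) : ℝ)) (A : ℕ) (hA : q / (q-1) < q ^ A) :
    ∀ v, ∀ F : Finset Pr, (∀ p ∈ F, Nm n p = v) → F.card ≤ A := by
  classical
  intro v F hF
  have hmono := n_strictMono hq hn hgap
  have hinj : Set.InjOn (fun p : Pr => p.1) (F : Set Pr) := by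
    rintro ⟨k, j⟩ hp ⟨k', j'⟩ hp' h
    simp only at h
    subst h
    have h1 := hF _ hp
    have h2 := hF _ hp'
    unfold Nm at h1 h2
    simp only at h1 h2
    have h3 := hmono j.2
    have h4 := hmono j'.2
    have h5 : n j = n j' := by omega
    have h6 := hmono.injective h5
    have h7 : j = j' := Fin.ext h6
    rw [h7]
  rw [← Finset.card_image_of_injOn hinj]
  apply card_window hq hn hgap _ A hA
  intro k hk l hl
  obtain ⟨⟨k, j⟩, hp, rfl⟩ := Finset.mem_image.mp hk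
  obtain ⟨⟨l, i⟩, hp', rfl⟩ := Finset.mem_image.mp hl
  simp only
  have h1 := hF _ hp
  have h2 := hF _ hp'
  unfold Nm at h1 h2
  simp only at h1 h2
  have h3 := hmono j.2
  have h4 := hmono i.2
  -- n l - n i = v ≤ n k
  have h5 : n l ≤ n k + n i := by omega
  have h5' : (n l : ℝ) ≤ n k + n i := by exact_mod_cast h5
  have h6 : q * (n i : ℝ) ≤ n l := by
    obtain ⟨d, hd⟩ := Nat.exists_eq_add_of_lt i.2
    have := gap_pow hq hgap i (d + 1)
    rw [← add_assoc] at this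
    have h8 : q ≤ q ^ (d+1) := le_self_pow₀ hq.le (by omega)
    have h0 : (0:ℝ) < n i := by exact_mod_cast hn i
    calc q * (n i : ℝ) ≤ q^(d+1) * n i := mul_le_mul_of_nonneg_right h8 h0.le
      _ ≤ n (i + d + 1) := this
      _ = n l := by rw [← hd]
  rw [div_mul_eq_mul_div, le_div_iff₀ (by linarith)]
  nlinarith

lemma mult_Np (hq : 1 < q) (hn : ∀ k, 0 < n k)
    (hgap : ∀ k, q * (n k : ℝ) ≤ (n (k + 1) : ℝ)) (A : ℕ) (hA : 2 < q ^ A) :
    ∀ v, ∀ F : Finset Pr, (∀ p ∈ F, Np n p = v) → F.card ≤ A := by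
  classical
  intro v F hF
  have hmono := n_strictMono hq hn hgap
  have hinj : Set.InjOn (fun p : Pr => p.1) (F : Set Pr) := by
    rintro ⟨k, j⟩ hp ⟨k', j'⟩ hp' h
    simp only at h
    subst h
    have h1 := hF _ hp
    have h2 := hF _ hp'
    unfold Np at h1 h2
    simp only at h1 h2
    have h5 : n j = n j' := by omega
    have h6 := hmono.injective h5
    have h7 : j = j' := Fin.ext h6
    rw [h7]
  rw [← Finset.card_image_of_injOn hinj]
  apply card_window hq hn hgap _ A hA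
  intro k hk l hl
  obtain ⟨⟨k, j⟩, hp, rfl⟩ := Finset.mem_image.mp hk
  obtain ⟨⟨l, i⟩, hp', rfl⟩ := Finset.mem_image.mp hl
  simp only
  have h1 := hF _ hp
  have h2 := hF _ hp'
  unfold Np at h1 h2
  simp only at h1 h2
  have h3 := hmono j.2
  have h5 : n l ≤ 2 * n k := by omega
  exact_mod_cast h5

/-- the pairs below `m` -/
def Fm (m : ℕ) : Finset Pr := (Finset.range m).sigma (fun _ => Finset.univ)

lemma sum_Fm (m : ℕ) (f : ℕ → ℕ → ℝ) :
    ∑ p ∈ Fm m, f p.1 p.2 = ∑ k ∈ Finset.range m, ∑ j ∈ Finset.range k, f k j := by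
  unfold Fm
  rw [Finset.sum_sigma]
  refine Finset.sum_congr rfl fun k _ => ?_
  simp only
  rw [Finset.sum_range]

lemma card_Fm (m : ℕ) : ((Fm m).card : ℝ) ≤ (m:ℝ)^2 := by
  have h := sum_Fm m (fun _ _ => 1)
  simp only [Finset.sum_const, Finset.card_range, nsmul_eq_mul, mul_one] at h
  rw [h]
  calc ∑ k ∈ Finset.range m, (k:ℝ) ≤ ∑ k ∈ Finset.range m, (m:ℝ) := by
        apply Finset.sum_le_sum
        intro k hk
        exact_mod_cast (Finset.mem_range.mp hk).le
    _ = (m:ℝ)^2 := by simp [sq]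

/-- The partial sums -/
def S (n : ℕ → ℕ) (m : ℕ) (x : ℝ) : ℝ := ∑ k ∈ Finset.range m, Real.cos ((n k : ℝ) * x)

lemma S_cont (m : ℕ) : Continuous (S n m) := by unfold S; fun_prop

lemma S_sq (hq : 1 < q) (hn : ∀ k, 0 < n k)
    (hgap : ∀ k, q * (n k : ℝ) ≤ (n (k + 1) : ℝ)) (m : ℕ) (x : ℝ) :
    (S n m x)^2 = m / 2 + (1/2) * ∑ k ∈ Finset.range m, Real.cos (((2 * n k : ℕ) : ℝ) * x)
      + ∑ p ∈ Fm m, Real.cos ((Nm n p : ℝ) * x) + ∑ p ∈ Fm m, Real.cos ((Np n p : ℝ) * x) := by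
  have hmono := n_strictMono hq hn hgap
  have e1 : ∑ p ∈ Fm m, Real.cos ((Nm n p : ℝ) * x) =
      ∑ k ∈ Finset.range m, ∑ j ∈ Finset.range k, Real.cos (((n k - n j : ℕ) : ℝ) * x) :=
    sum_Fm m (fun k j => Real.cos (((n k - n j : ℕ) : ℝ) * x))
  have e2 : ∑ p ∈ Fm m, Real.cos ((Np n p : ℝ) * x) =
      ∑ k ∈ Finset.range m, ∑ j ∈ Finset.range k, Real.cos (((n k + n j : ℕ) : ℝ) * x) :=
    sum_Fm m (fun k j => Real.cos (((n k + n j : ℕ) : ℝ) * x))
  rw [e1, e2]
  induction m with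
  | zero => simp [S]
  | succ m ih =>
    have e3 : S n (m+1) x = S n m x + Real.cos ((n m : ℝ) * x) := by
      simp [S, Finset.sum_range_succ]
    have ih' := ih (sum_Fm m (fun k j => Real.cos (((n k - n j : ℕ) : ℝ) * x)))
      (sum_Fm m (fun k j => Real.cos (((n k + n j : ℕ) : ℝ) * x)))
    rw [e3, add_sq, ih']
    rw [Finset.sum_range_succ, Finset.sum_range_succ, Finset.sum_range_succ]
    have e4 : 2 * S n m x * Real.cos ((n m : ℝ) * x) =
        ∑ j ∈ Finset.range m, Real.cos (((n m - n j : ℕ) : ℝ) * x) +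
        ∑ j ∈ Finset.range m, Real.cos (((n m + n j : ℕ) : ℝ) * x) := by
      unfold S
      rw [← Finset.sum_add_distrib, Finset.mul_sum, Finset.sum_mul]
      refine Finset.sum_congr rfl fun j hj => ?_
      have := hmono (Finset.mem_range.mp hj)
      rw [Nat.cast_sub this.le, Nat.cast_add, sub_mul, add_mul, Real.cos_sub, Real.cos_add]
      ring
    have e5 : Real.cos ((n m : ℝ) * x)^2 = 1/2 + (1/2) * Real.cos (((2 * n m : ℕ) : ℝ) * x) := by
      rw [Nat.cast_mul, mul_assoc]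
      push_cast
      rw [Real.cos_sq]; ring
    rw [e4, e5]
    push_cast
    ring

lemma mult_two (hmono : StrictMono n) :
    ∀ v, ∀ F : Finset ℕ, (∀ p ∈ F, 2 * n p = v) → F.card ≤ 1 := by
  intro v F hF
  rw [Finset.card_le_one]
  intro a ha b hb
  have h1 := hF a ha
  have h2 := hF b hb
  exact hmono.injective (by omega)

lemma mult_one (hmono : StrictMono n) :
    ∀ v, ∀ F : Finset ℕ, (∀ p ∈ F, n p = v) → F.card ≤ 1 := by
  intro v F hF
  rw [Finset.card_le_one]
  intro a ha b hb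
  have h1 := hF a ha
  have h2 := hF b hb
  exact hmono.injective (by omega)

lemma four_sq (a b c d : ℝ) : (a + b + c + d)^2 ≤ 4 * (a^2 + b^2 + c^2 + d^2) := by
  nlinarith [sq_nonneg (a-b), sq_nonneg (a-c), sq_nonneg (a-d), sq_nonneg (b-c), sq_nonneg (b-d),
    sq_nonneg (c-d)]

lemma fourth_moment (hq : 1 < q) (hn : ∀ k, 0 < n k)
    (hgap : ∀ k, q * (n k : ℝ) ≤ (n (k + 1) : ℝ)) :
    ∃ K : ℝ, 0 < K ∧ ∀ m : ℕ, 1 ≤ m → ∫ x, (S n m x)^4 ∂mu ≤ K * (m:ℝ)^2 := by
  obtain ⟨A, hA0, hA1, hA2⟩ := exists_A hq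
  have hmono := n_strictMono hq hn hgap
  have hpi := Real.pi_pos
  refine ⟨4 * (2 * Real.pi + Real.pi + Real.pi * A + Real.pi * A), by positivity, ?_⟩
  intro m hm
  have hm' : (1:ℝ) ≤ m := by exact_mod_cast hm
  set U1 : ℝ → ℝ := fun x => ∑ k ∈ Finset.range m, Real.cos (((2 * n k : ℕ) : ℝ) * x) with hU1
  set U2 : ℝ → ℝ := fun x => ∑ p ∈ Fm m, Real.cos ((Nm n p : ℝ) * x) with hU2
  set U3 : ℝ → ℝ := fun x => ∑ p ∈ Fm m, Real.cos ((Np n p : ℝ) * x) with hU3
  have c1 : Continuous U1 := by rw [hU1]; fun_prop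
  have c2 : Continuous U2 := by rw [hU2]; fun_prop
  have c3 : Continuous U3 := by rw [hU3]; fun_prop
  have cS := S_cont (n := n) m
  have m1 := second_moment (fun k => 2 * n k) (fun k => by have := hn k; omega) 1
    (mult_two hmono) (Finset.range m)
  have m2 := second_moment (Nm n) (Nm_pos hq hn hgap) A (mult_Nm hq hn hgap A hA1) (Fm m)
  have m3 := second_moment (Np n) (Np_pos hn) A (mult_Np hq hn hgap A hA2) (Fm m)
  have hpt : ∀ x, (S n m x)^4 ≤ 4 * ((m:ℝ)^2 + (U1 x)^2 + (U2 x)^2 + (U3 x)^2) := by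
    intro x
    have h := S_sq hq hn hgap m x
    have h2 : (S n m x)^4 = (m / 2 + (1/2) * U1 x + U2 x + U3 x)^2 := by
      rw [← h]; ring
    rw [h2]
    refine (four_sq _ _ _ _).trans ?_
    have : ((m:ℝ)/2)^2 ≤ (m:ℝ)^2 := by nlinarith
    nlinarith [sq_nonneg (U1 x)]
  have hint : ∫ x, (S n m x)^4 ∂mu ≤ ∫ x, 4 * ((m:ℝ)^2 + (U1 x)^2 + (U2 x)^2 + (U3 x)^2) ∂mu := by
    apply integral_mono
    · exact integ' _ (by fun_prop)
    · exact integ' _ (by fun_prop)
    · exact hpt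
  refine hint.trans ?_
  rw [integral_const_mul, integral_add (integ' _ (by fun_prop)) (integ' _ (by fun_prop)),
    integral_add (integ' _ (by fun_prop)) (integ' _ (by fun_prop)),
    integral_add (integ' _ (by fun_prop)) (integ' _ (by fun_prop))]
  have e0 : ∫ _x, (m:ℝ)^2 ∂mu = (m:ℝ)^2 * (2 * Real.pi) := by
    have := int_one
    have h2 : ∫ _x, (m:ℝ)^2 ∂mu = ∫ _x, (m:ℝ)^2 * 1 ∂mu := by simp
    rw [h2, integral_const_mul, int_one]
  rw [e0]
  have hcard := card_Fm m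
  have k2 : Real.pi * A * ((Fm m).card : ℝ) ≤ Real.pi * A * (m:ℝ)^2 :=
    mul_le_mul_of_nonneg_left hcard (by positivity)
  have k1 : Real.pi * ((1:ℕ):ℝ) * ((Finset.range m).card : ℝ) ≤ Real.pi * (m:ℝ)^2 := by
    simp only [Nat.cast_one, mul_one, Finset.card_range]
    apply mul_le_mul_of_nonneg_left _ hpi.le
    nlinarith
  have e1 : ∫ x, (U1 x)^2 ∂mu ≤ Real.pi * (m:ℝ)^2 := m1.trans k1
  have e2 : ∫ x, (U2 x)^2 ∂mu ≤ Real.pi * A * (m:ℝ)^2 := m2.trans k2
  have e3 : ∫ x, (U3 x)^2 ∂mu ≤ Real.pi * A * (m:ℝ)^2 := m3.trans k2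
  nlinarith

lemma int_S (B : Set ℝ) (m : ℕ) : ∫ x in B, S n m x ∂mu = ∑ k ∈ Finset.range m, bc B (n k) := by
  unfold S
  rw [integral_finsetSum _ (fun p _ => integ _ (by fun_prop) _)]
  rfl

lemma int_S_sq (hq : 1 < q) (hn : ∀ k, 0 < n k)
    (hgap : ∀ k, q * (n k : ℝ) ≤ (n (k + 1) : ℝ)) (B : Set ℝ) (m : ℕ) :
    ∫ x in B, (S n m x)^2 ∂mu = m / 2 * (mu B).toReal
      + (1/2) * ∑ k ∈ Finset.range m, bc B (2 * n k)
      + ∑ p ∈ Fm m, bc B (Nm n p) + ∑ p ∈ Fm m, bc B (Np n p) := by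
  simp_rw [S_sq hq hn hgap m]
  rw [integral_add (integ _ (by fun_prop) _) (integ _ (by fun_prop) _),
    integral_add (integ _ (by fun_prop) _) (integ _ (by fun_prop) _),
    integral_add (integ _ (by fun_prop) _) (integ _ (by fun_prop) _), integral_const_mul,
    integral_finsetSum _ (fun p _ => integ _ (by fun_prop) _),
    integral_finsetSum _ (fun p _ => integ _ (by fun_prop) _),
    integral_finsetSum _ (fun p _ => integ _ (by fun_prop) _)]
  have : ∫ _x in B, (m:ℝ)/2 ∂mu = m / 2 * (mu B).toReal := by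
    rw [setIntegral_const]; simp [Measure.real, mul_comm]
  rw [this]
  rfl

lemma null_B (hq : 1 < q) (hn : ∀ k, 0 < n k)
    (hgap : ∀ k, q * (n k : ℝ) ≤ (n (k + 1) : ℝ)) (σ : ℝ) (hσ : σ = 1 ∨ σ = -1) (ξ : ℝ) (M : ℕ)
    (B : Set ℝ) (hB : MeasurableSet B) (hBM : ∀ x ∈ B, ∀ m, M ≤ m → ξ ≤ σ * S n m x) :
    mu B = 0 := by
  by_contra hne
  set b : ℝ := (mu B).toReal with hb
  have hb0 : 0 < b := ENNReal.toReal_pos hne (measure_ne_top _ _)
  obtain ⟨A, hA0, hA1, hA2⟩ := exists_A hq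
  have hmono := n_strictMono hq hn hgap
  obtain ⟨K, hK0, hK⟩ := fourth_moment hq hn hgap
  set t : ℝ := 16 * K / b + 1 with ht
  have ht1 : 1 < t := by rw [ht]; have : 0 < 16 * K / b := by positivity
                         linarith
  have htb : K / t^2 ≤ b / 16 := by
    rw [div_le_div_iff₀ (by positivity) (by norm_num)]
    have h1 : b * t = 16 * K + b := by rw [ht]; field_simp
    nlinarith
  set δ : ℝ := b / (16 * t) with hδ
  have hδ0 : 0 < δ := by rw [hδ]; positivity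
  obtain ⟨C1, hC1⟩ := sum_small _ (summable_bc n hn 1 (mult_one hmono) B hB) δ hδ0
  obtain ⟨C2, hC2⟩ := sum_small _ (summable_bc (fun k => 2 * n k) (fun k => by have := hn k; omega) 1
    (mult_two hmono) B hB) (b/20) (by positivity)
  obtain ⟨C3, hC3⟩ := sum_small _ (summable_bc (Nm n) (Nm_pos hq hn hgap) A
    (mult_Nm hq hn hgap A hA1) B hB) (b/20) (by positivity)
  obtain ⟨C4, hC4⟩ := sum_small _ (summable_bc (Np n) (Np_pos hn) A
    (mult_Np hq hn hgap A hA2) B hB) (b/20) (by positivity)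
  -- the choice of `m = r^2`
  set D : ℝ := |C2| + |C3| + |C4| + t * (|C1| + 2 * |ξ| * b) with hD
  obtain ⟨r0, hr0⟩ := exists_nat_gt (4 * D / b)
  set r : ℕ := r0 + M + 1 with hr
  have hr1 : (1:ℝ) ≤ r := by exact_mod_cast (by omega : 1 ≤ r)
  have hrD : 4 * D / b < r := hr0.trans (by exact_mod_cast (by omega : r0 < r))
  have hrD' : D < b / 4 * r := by
    rw [div_lt_iff₀ hb0] at hrD; linarith
  set m : ℕ := r^2 with hm
  have hmM : M ≤ m := by rw [hm]; nlinarith
  have hm1 : 1 ≤ m := by rw [hm]; exact Nat.one_le_pow _ _ (by omega)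
  have hmr : (m:ℝ) = (r:ℝ)^2 := by rw [hm]; push_cast; ring
  have hsq : Real.sqrt m = r := by rw [hmr]; exact Real.sqrt_sq (by positivity)
  have hcardF : Real.sqrt (Fm m).card ≤ m := by
    rw [Real.sqrt_le_left (by positivity)]; exact card_Fm m
  have h1 := hC1 (Finset.range m)
  have h2 := hC2 (Finset.range m)
  have h3 := hC3 (Fm m)
  have h4 := hC4 (Fm m)
  rw [Finset.card_range, hsq] at h1 h2
  have h2' : |∑ k ∈ Finset.range m, bc B (2 * n k)| ≤ b/20 * m + |C2| := by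
    refine h2.trans ?_
    have : (r:ℝ) ≤ m := by rw [hmr]; nlinarith
    have := le_abs_self C2
    nlinarith
  have h3' : |∑ p ∈ Fm m, bc B (Nm n p)| ≤ b/20 * m + |C3| := by
    refine h3.trans ?_
    have := le_abs_self C3
    nlinarith
  have h4' : |∑ p ∈ Fm m, bc B (Np n p)| ≤ b/20 * m + |C4| := by
    refine h4.trans ?_
    have := le_abs_self C4
    nlinarith
  have lower := int_S_sq hq hn hgap B m
  rw [← hb] at lower
  have hlow : 3/8 * b * m - (|C2| + |C3| + |C4|) ≤ ∫ x in B, (S n m x)^2 ∂mu := by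
    rw [lower]
    have a2 := neg_abs_le (∑ k ∈ Finset.range m, bc B (2 * n k))
    have a3 := neg_abs_le (∑ p ∈ Fm m, bc B (Nm n p))
    have a4 := neg_abs_le (∑ p ∈ Fm m, bc B (Np n p))
    have := abs_nonneg C2
    linarith
  -- upper bound
  set lam : ℝ := t * r with hlam
  have hlam0 : 0 < lam := by rw [hlam]; positivity
  have hcS := S_cont (n := n) m
  have hup : ∫ x in B, (S n m x)^2 ∂mu ≤
      ∫ x in B, (lam * (σ * S n m x + 2 * |ξ|) + (S n m x)^4 / lam^2) ∂mu := by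
    apply setIntegral_mono_on (integ _ (by fun_prop) _) (integ _ (by fun_prop) _) hB
    intro x hx
    have hs := hBM x hx m hmM
    have habs : |S n m x| ≤ σ * S n m x + 2 * |ξ| := by
      have e : |S n m x| = |σ * S n m x| := by
        rcases hσ with rfl | rfl <;> simp
      rw [e]
      rcases abs_cases (σ * S n m x) with ⟨h, _⟩ | ⟨h, _⟩ <;> rcases abs_cases ξ with ⟨h', _⟩ | ⟨h', _⟩ <;> linarith
    have hkey : (S n m x)^2 ≤ lam * |S n m x| + (S n m x)^4 / lam^2 := by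
      rcases le_or_gt (|S n m x|) lam with h | h
      · have : (S n m x)^2 ≤ lam * |S n m x| := by
          rw [← sq_abs, sq]; exact mul_le_mul_of_nonneg_right h (abs_nonneg _)
        have : 0 ≤ (S n m x)^4 / lam^2 := by positivity
        linarith
      · have : (S n m x)^2 ≤ (S n m x)^4 / lam^2 := by
          rw [le_div_iff₀ (by positivity)]
          have e : lam^2 ≤ (S n m x)^2 := by
            rw [← sq_abs (S n m x)]; exact pow_le_pow_left₀ hlam0.le h.le 2
          nlinarith [sq_nonneg (S n m x)]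
        have : 0 ≤ lam * |S n m x| := by positivity
        linarith
    nlinarith
  have hup2 : ∫ x in B, (lam * (σ * S n m x + 2 * |ξ|) + (S n m x)^4 / lam^2) ∂mu
      ≤ lam * (δ * r + |C1| + 2 * |ξ| * b) + K * (m:ℝ)^2 / lam^2 := by
    rw [integral_add (integ _ (by fun_prop) _) (integ _ (by fun_prop) _), integral_const_mul,
      integral_add (integ _ (by fun_prop) _) (integ _ (by fun_prop) _), integral_const_mul,
      integral_div]
    have e1 : ∫ _x in B, 2 * |ξ| ∂mu = 2 * |ξ| * b := by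
      rw [setIntegral_const]; simp [Measure.real, hb, mul_comm]
    have e2 : ∫ x in B, (S n m x)^4 ∂mu ≤ K * (m:ℝ)^2 := by
      refine le_trans ?_ (hK m hm1)
      apply integral_mono_measure Measure.restrict_le_self
      · exact Filter.Eventually.of_forall fun x => by positivity
      · exact integ' _ (by fun_prop)
    have e3 : σ * ∫ x in B, S n m x ∂mu ≤ δ * r + |C1| := by
      rw [int_S]
      have : |∑ k ∈ Finset.range m, bc B (n k)| ≤ δ * r + |C1| := h1.trans (by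
        have := le_abs_self C1; linarith)
      rcases hσ with rfl | rfl
      · rw [one_mul]; exact (le_abs_self _).trans this
      · have h5 := neg_abs_le (∑ k ∈ Finset.range m, bc B (n k))
        linarith
    rw [e1]
    have e4 : (∫ x in B, (S n m x)^4 ∂mu) / lam^2 ≤ K * (m:ℝ)^2 / lam^2 :=
      div_le_div_of_nonneg_right e2 (by positivity)
    have e5 : lam * (σ * ∫ x in B, S n m x ∂mu + 2 * |ξ| * b) ≤ lam * (δ * r + |C1| + 2 * |ξ| * b) :=
      mul_le_mul_of_nonneg_left (by linarith) hlam0.le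
    linarith
  have e6 : K * (m:ℝ)^2 / lam^2 = K / t^2 * r^2 := by
    rw [hmr, hlam]; field_simp
  have e7 : lam * (δ * r) = b/16 * r^2 := by
    rw [hlam, hδ]; field_simp
  have hfinal := (hlow.trans hup).trans hup2
  rw [e6] at hfinal
  have e8 : K / t^2 * (r:ℝ)^2 ≤ b/16 * r^2 := mul_le_mul_of_nonneg_right htb (by positivity)
  have e9 : lam * (δ * r + |C1| + 2 * |ξ| * b) = b/16 * r^2 + r * (t * (|C1| + 2 * |ξ| * b)) := by
    rw [show lam * (δ * r + |C1| + 2 * |ξ| * b) = lam * (δ * r) + lam * (|C1| + 2 * |ξ| * b) by ring,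
      e7, hlam]; ring
  rw [e9, hmr] at hfinal
  -- (1/4) b r^2 ≤ |C2|+|C3|+|C4| + r * (...)
  have hnn : 0 ≤ |C2| + |C3| + |C4| := by positivity
  have e10 : b / 4 * (r:ℝ)^2 ≤ r * D := by
    rw [hD]
    nlinarith
  have e11 : b / 4 * (r:ℝ) ≤ D := by
    have : b / 4 * (r:ℝ) * r ≤ D * r := by nlinarith
    exact le_of_mul_le_mul_right this (by linarith)
  linarith

end gaps

end

end Pool.Agent.X119.LacDense
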