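import Pool.Agent.X10.ML.Dense
import Pool.Agent.X10.ML.FComp

set_option autoImplicit false

/-!
# Mills sequences in sets which meet all very short intervals: with constants

Wrappers of `Pool.Agent.X10.ML.mills_dense` (helper10) for properties which depend on a constant `κ`, on a
parameter (for instance a prescribed sequence) and on the index `n`.
-/

namespace Pool.Agent.X119.Mil

open Filter Pool.Agent.X10.ML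

lemma small_exp {c s : ℝ} (hc : 1 < c) (hs0 : 0 < s) (hs1 : s < 1) :
    0 < eta c s / (2 * c) ∧ eta c s / (2 * c) ≤ 1 / 2 := by
  have h0 := eta_pos hc hs1
  have h1 := eta_le hc hs0 hs1
  have hc0 : 0 < c := by linarith
  refine ⟨by positivity, ?_⟩
  rw [div_le_iff₀ (by positivity)]
  linarith

/-- Sets `P κ σ n` that meet all intervals of length `X ^ a` for suitable `κ = κ(a)`. -/
theorem mills {S : Type} (c : ℝ) (hc : 1 < c) (Cond : ℝ → S → Prop) (P : ℝ → S → ℕ → ℕ → Prop)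
    (hP : ∀ a : ℝ, 0 < a → a ≤ 1 / 2 → ∃ κ : ℝ, 0 < κ ∧ ∀ σ : S, Cond κ σ →
      ∀ ϑ : ℝ, 1 < ϑ → ∃ n₁ : ℕ, ∀ n : ℕ, n₁ ≤ n → ∀ X : ℝ, ϑ ^ (c ^ n) ≤ X → ∀ z : ℕ,
        X ≤ z → (z : ℝ) ≤ 3 * X → ∃ m, P κ σ n m ∧ z < m ∧ (m : ℝ) ≤ z + X ^ a) :
    ∀ s : ℝ, s < 1 → ∃ κ : ℝ, 0 < κ ∧ ∀ σ : S, Cond κ σ →
      ∀ U : Set ℝ, IsOpen U → (U ∩ Set.Ioi 1).Nonempty →
      ENNReal.ofReal s ≤ dimH {θ : ℝ | θ ∈ U ∧ 1 < θ ∧ ∃ N : ℕ, ∀ n : ℕ, N ≤ n →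
        P κ σ n ⌊θ ^ (c ^ n)⌋₊} := by
  intro s hs
  rcases le_or_gt s 0 with h0 | h0
  · refine ⟨1, one_pos, fun σ _ U _ _ => ?_⟩
    rw [ENNReal.ofReal_of_nonpos h0]
    exact zero_le
  · obtain ⟨ha0, ha1⟩ := small_exp hc h0 hs
    obtain ⟨κ, hκ, h⟩ := hP _ ha0 ha1
    refine ⟨κ, hκ, fun σ hσ U hU hne => ?_⟩
    exact mills_dense c s hc h0 hs (fun n => {m | P κ σ n m}) (fun ϑ hϑ => h σ hσ ϑ hϑ) U hU hne

/-- The constant depends on `θ`: dimension one. -/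
theorem mills_one {S : Type} (c : ℝ) (hc : 1 < c) (Cond : S → Prop) (P : ℝ → S → ℕ → ℕ → Prop)
    (hP : ∀ a : ℝ, 0 < a → a ≤ 1 / 2 → ∃ κ : ℝ, 0 < κ ∧ ∀ σ : S, Cond σ →
      ∀ ϑ : ℝ, 1 < ϑ → ∃ n₁ : ℕ, ∀ n : ℕ, n₁ ≤ n → ∀ X : ℝ, ϑ ^ (c ^ n) ≤ X → ∀ z : ℕ,
        X ≤ z → (z : ℝ) ≤ 3 * X → ∃ m, P κ σ n m ∧ z < m ∧ (m : ℝ) ≤ z + X ^ a)
    (σ : S) (hσ : Cond σ) (U : Set ℝ) (hU : IsOpen U) (hne : (U ∩ Set.Ioi 1).Nonempty) :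
    dimH {θ : ℝ | θ ∈ U ∧ 1 < θ ∧ ∃ κ : ℝ, 0 < κ ∧ ∃ N : ℕ, ∀ n : ℕ, N ≤ n →
      P κ σ n ⌊θ ^ (c ^ n)⌋₊} = 1 := by
  apply dim_eq_one
  intro s hs0 hs1
  obtain ⟨κ, hκ, h⟩ := mills c hc (fun _ => Cond) P hP s hs1
  refine (h σ hσ U hU hne).trans (dimH_mono ?_)
  rintro θ ⟨t1, t2, t3⟩
  exact ⟨t1, t2, κ, hκ, t3⟩

lemma tendsto_pow (c ϑ : ℝ) (hc : 1 < c) (hϑ : 1 < ϑ) :
    Tendsto (fun n : ℕ => ϑ ^ (c ^ n)) atTop atTop := by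
  have t1 : Tendsto (fun N : ℕ => c ^ N) atTop atTop := tendsto_pow_atTop_atTop_of_one_lt hc
  have e1 : Tendsto (fun y : ℝ => ϑ ^ y) atTop atTop := by
    have := Real.tendsto_exp_atTop.comp (tendsto_id.const_mul_atTop (Real.log_pos hϑ))
    refine this.congr fun y => ?_
    simp only [Function.comp, id]
    rw [Real.rpow_def_of_pos (by linarith)]
  exact e1.comp t1

/-- Version without parameters: a property `P κ m`, large `X`. -/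
theorem mills_const (c : ℝ) (hc : 1 < c) (P : ℝ → ℕ → Prop)
    (hP : ∀ a : ℝ, 0 < a → a ≤ 1 / 2 → ∃ κ : ℝ, 0 < κ ∧ ∃ X₀ : ℝ, ∀ X : ℝ, X₀ ≤ X → ∀ z : ℕ,
        X ≤ z → (z : ℝ) ≤ 3 * X → ∃ m, P κ m ∧ z < m ∧ (m : ℝ) ≤ z + X ^ a) :
    (∀ s : ℝ, s < 1 → ∃ κ : ℝ, 0 < κ ∧ ∀ U : Set ℝ, IsOpen U → (U ∩ Set.Ioi 1).Nonempty →
      ENNReal.ofReal s ≤ dimH {θ : ℝ | θ ∈ U ∧ 1 < θ ∧ ∃ N : ℕ, ∀ n : ℕ, N ≤ n →
        P κ ⌊θ ^ (c ^ n)⌋₊}) ∧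
    ∀ U : Set ℝ, IsOpen U → (U ∩ Set.Ioi 1).Nonempty →
      dimH {θ : ℝ | θ ∈ U ∧ 1 < θ ∧ ∃ κ : ℝ, 0 < κ ∧ ∃ N : ℕ, ∀ n : ℕ, N ≤ n →
        P κ ⌊θ ^ (c ^ n)⌋₊} = 1 := by
  have hP' : ∀ a : ℝ, 0 < a → a ≤ 1 / 2 → ∃ κ : ℝ, 0 < κ ∧ ∀ _ : Unit, True →
      ∀ ϑ : ℝ, 1 < ϑ → ∃ n₁ : ℕ, ∀ n : ℕ, n₁ ≤ n → ∀ X : ℝ, ϑ ^ (c ^ n) ≤ X → ∀ z : ℕ,
        X ≤ z → (z : ℝ) ≤ 3 * X → ∃ m, P κ m ∧ z < m ∧ (m : ℝ) ≤ z + X ^ a := by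
    intro a ha ha1
    obtain ⟨κ, hκ, X₀, h⟩ := hP a ha ha1
    refine ⟨κ, hκ, fun _ _ ϑ hϑ => ?_⟩
    obtain ⟨n₁, hn₁⟩ := eventually_atTop.1 ((tendsto_pow c ϑ hc hϑ).eventually_ge_atTop X₀)
    exact ⟨n₁, fun n hn X hX z hz1 hz2 => h X ((hn₁ n hn).trans hX) z hz1 hz2⟩
  constructor
  · intro s hs
    obtain ⟨κ, hκ, h⟩ := mills (S := Unit) c hc (fun _ _ => True) (fun κ _ _ m => P κ m) hP' s hs
    exact ⟨κ, hκ, fun U hU hne => h () trivial U hU hne⟩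
  · intro U hU hne
    exact mills_one (S := Unit) c hc (fun _ => True) (fun κ _ _ m => P κ m) hP' () trivial U hU hne

/-- the record size -/
noncomputable def rec (x : ℝ) : ℝ :=
  Real.log x * (Real.log (Real.log x)) ^ 2 * Real.log (Real.log (Real.log (Real.log x))) /
    (Real.log (Real.log (Real.log x))) ^ 2

/-- comparison of the record sizes at `X ^ a` and at `m`, and of the logarithms -/
lemma scale (a : ℝ) (ha : 0 < a) (ha1 : a ≤ 1 / 2) : ∃ X₀ : ℝ, 4 ≤ X₀ ∧ ∀ X : ℝ, X₀ ≤ X → ∀ m : ℝ, X ≤ m →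
    m ≤ 4 * X → X ^ a ≤ X ∧ a / 2 * Real.log m ≤ Real.log (X ^ a) ∧ Real.log (X ^ a) ≤ Real.log m ∧
    a / 2 / 8 * rec m ≤ rec (X ^ a) ∧ 0 < rec (X ^ a) := by
  obtain ⟨L₀, hL₀⟩ := Fr_comp (a / 2) (by linarith)
  obtain ⟨X₁, hX₁⟩ := eventually_atTop.1 (Real.tendsto_log_atTop.eventually_ge_atTop L₀)
  refine ⟨max X₁ 4, le_max_right _ _, fun X hX m hm1 hm2 => ?_⟩
  have hX4 : 4 ≤ X := (le_max_right _ _).trans hX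
  have hX0 : 0 < X := by linarith
  have hmX : m ≤ X * X := by nlinarith
  have hlogX : 0 < Real.log X := Real.log_pos (by linarith)
  have hL : Real.log X ≤ Real.log m := Real.log_le_log hX0 hm1
  have hL2 : Real.log m ≤ 2 * Real.log X := by
    have e1 : Real.log m ≤ Real.log (X * X) := Real.log_le_log (by linarith) hmX
    rw [Real.log_mul hX0.ne' hX0.ne'] at e1
    linarith
  have hla : Real.log (X ^ a) = a * Real.log X := Real.log_rpow hX0 a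
  have h1 : a / 2 * Real.log m ≤ Real.log (X ^ a) := by rw [hla]; nlinarith
  have h2 : Real.log (X ^ a) ≤ Real.log m := by rw [hla]; nlinarith
  have h3 := hL₀ (Real.log m) (Real.log (X ^ a))
    ((hX₁ X ((le_max_left _ _).trans hX)).trans hL) h1 h2
  refine ⟨?_, h1, h2, h3.1, h3.2⟩
  have := Real.rpow_le_rpow_of_exponent_le (by linarith : 1 ≤ X) (by linarith : a ≤ 1)
  simpa using this

end Pool.Agent.X119.Mil
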