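import Pool.Agent.X10.ML.Dense

set_option autoImplicit false

/-!
# Mills-type theorem for a decreasing sequence of properties
-/

namespace Pool.Agent.X119.Mil

open Finset Filter Pool.Agent.X10.ML

lemma slow_tendsto (c : ℝ) (hc : 1 < c) :
    Tendsto (fun n : ℕ => (1 + 1 / ((n : ℝ) + 1)) ^ (c ^ n)) atTop atTop := by
  have h1 : ∀ n : ℕ, Real.exp (c ^ n / (2 * ((n : ℝ) + 1))) ≤ (1 + 1 / ((n : ℝ) + 1)) ^ (c ^ n) := by
    intro n
    have hn : (0 : ℝ) < (n : ℝ) + 1 := by positivity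
    have hb : (0 : ℝ) < 1 + 1 / ((n : ℝ) + 1) := by positivity
    rw [Real.rpow_def_of_pos hb]
    apply Real.exp_le_exp.2
    have h2 : 1 / (2 * ((n : ℝ) + 1)) ≤ Real.log (1 + 1 / ((n : ℝ) + 1)) := by
      have e1 := Real.one_sub_inv_le_log_of_pos hb
      refine le_trans ?_ e1
      have e2 : 1 - (1 + 1 / ((n : ℝ) + 1))⁻¹ = 1 / ((n : ℝ) + 2) := by
        field_simp
        ring
      rw [e2]
      apply one_div_le_one_div_of_le (by positivity)
      have : (0 : ℝ) ≤ n := Nat.cast_nonneg n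
      linarith
    have hcn : 0 < c ^ n := by positivity
    calc c ^ n / (2 * ((n : ℝ) + 1)) = c ^ n * (1 / (2 * ((n : ℝ) + 1))) := by ring
      _ ≤ c ^ n * Real.log (1 + 1 / ((n : ℝ) + 1)) := mul_le_mul_of_nonneg_left h2 hcn.le
      _ = _ := mul_comm _ _
  refine tendsto_atTop_mono h1 (Real.tendsto_exp_atTop.comp ?_)
  -- `c ^ n / (2 (n + 1)) → ∞`
  have h3 : Tendsto (fun n : ℕ => (n : ℝ) ^ 1 / c ^ n) atTop (nhds 0) :=
    tendsto_pow_const_div_const_pow_of_one_lt 1 hc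
  have h4 : Tendsto (fun n : ℕ => 2 * ((n : ℝ) + 1) / c ^ n) atTop (nhds 0) := by
    have h5 : Tendsto (fun n : ℕ => 1 / c ^ n) atTop (nhds 0) := by
      have := tendsto_inv_atTop_zero.comp (tendsto_pow_atTop_atTop_of_one_lt hc)
      refine this.congr fun n => ?_
      simp only [Function.comp, one_div]
    have h6 := (h3.add h5).const_mul 2
    rw [add_zero, mul_zero] at h6
    refine h6.congr fun n => ?_
    rw [pow_one]
    ring
  have h7 : Tendsto (fun n : ℕ => (2 * ((n : ℝ) + 1) / c ^ n)⁻¹) atTop atTop := by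
    apply Tendsto.inv_tendsto_nhdsGT_zero
    rw [tendsto_nhdsWithin_iff]
    refine ⟨h4, Eventually.of_forall fun n => ?_⟩
    have : 0 < c ^ n := by positivity
    exact Set.mem_Ioi.2 (by positivity)
  refine h7.congr fun n => ?_
  rw [inv_div]

/-- **Mills-type theorem for a decreasing sequence of properties.** -/
theorem mills_all (c : ℝ) (hc : 1 < c) (P : ℕ → ℕ → Prop) (hmono : ∀ j y, P (j + 1) y → P j y)
    (hP : ∀ j : ℕ, ∀ η : ℝ, 0 < η → ∃ x₀ : ℝ, ∀ x : ℕ, x₀ ≤ x → ∃ T : Finset ℕ,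
      (∀ y ∈ T, P j y ∧ (x : ℝ) ^ c ≤ y ∧ (y : ℝ) ≤ (x : ℝ) ^ c + (x : ℝ) ^ (c - 1)) ∧
      (x : ℝ) ^ (c - 1 - η) ≤ T.card)
    (U : Set ℝ) (hU : IsOpen U) (hne : (U ∩ Set.Ioi 1).Nonempty) :
    dimH {θ : ℝ | θ ∈ U ∧ 1 < θ ∧ ∀ j : ℕ, ∃ N : ℕ, ∀ n : ℕ, N ≤ n → P j ⌊θ ^ (c ^ n)⌋₊} = 1 := by
  classical
  apply dim_eq_one
  intro s hs0 hs1
  have hη := eta_pos hc hs1
  choose f hf using fun j => hP j (eta c s) hη
  have hanti : ∀ (i j : ℕ), i ≤ j → ∀ y, P j y → P i y := by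
    intro i j hij
    induction hij with
    | refl => exact fun y h => h
    | step _ ih => exact fun y h => ih y (hmono _ y h)
  obtain ⟨J, hJ⟩ : ∃ J : ℕ → ℕ, J = fun n : ℕ => Nat.findGreatest
      (fun j : ℕ => f j ≤ (1 + 1 / ((n : ℝ) + 1)) ^ (c ^ n)) n := ⟨_, rfl⟩
  have hJlarge : ∀ j : ℕ, ∀ᶠ n : ℕ in atTop, j ≤ J n := by
    intro j
    filter_upwards [(slow_tendsto c hc).eventually_ge_atTop (f j), eventually_ge_atTop j] with n h1 h2
    rw [hJ]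
    exact Nat.le_findGreatest h2 h1
  have hJf : ∀ᶠ n : ℕ in atTop, f (J n) ≤ (1 + 1 / ((n : ℝ) + 1)) ^ (c ^ n) := by
    filter_upwards [(slow_tendsto c hc).eventually_ge_atTop (f 0)] with n h1
    rw [hJ]
    exact Nat.findGreatest_spec (P := fun j : ℕ => f j ≤ (1 + 1 / ((n : ℝ) + 1)) ^ (c ^ n)) (Nat.zero_le n) h1
  obtain ⟨n₀, hn₀⟩ := eventually_atTop.1 hJf
  have key := mills_gen c s hc hs0 hs1 (fun n => {y | P (J (n - 1)) y}) (by
    intro ϑ hϑ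
    obtain ⟨n₁, hn₁⟩ := exists_nat_gt (1 / (ϑ - 1))
    refine ⟨max n₀ n₁, fun n hn x hx => ?_⟩
    have h1 := hn₀ n ((le_max_left _ _).trans hn)
    have h2 : (1 + 1 / ((n : ℝ) + 1)) ^ (c ^ n) ≤ ϑ ^ (c ^ n) := by
      have hn0 : (0 : ℝ) ≤ n := Nat.cast_nonneg n
      apply Real.rpow_le_rpow (by positivity) _ (by positivity)
      have h3 : (n₁ : ℝ) ≤ n := by exact_mod_cast (le_max_right _ _).trans hn
      have h4 : 1 / ((n : ℝ) + 1) ≤ ϑ - 1 := by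
        rw [div_le_iff₀ (by positivity)]
        rw [div_lt_iff₀ (by linarith)] at hn₁
        nlinarith
      linarith
    exact hf (J n) x (h1.trans (h2.trans hx))) U hU hne
  refine key.trans (dimH_mono ?_)
  rintro θ ⟨t1, t2, N, t3⟩
  refine ⟨t1, t2, fun j => ?_⟩
  obtain ⟨n₂, hn₂⟩ := eventually_atTop.1 (hJlarge j)
  refine ⟨max N (n₂ + 1), fun n hn => ?_⟩
  have h1 := t3 n ((le_max_left _ _).trans hn)
  have h2 : n₂ + 1 ≤ n := (le_max_right _ _).trans hn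
  exact hanti j (J (n - 1)) (hn₂ (n - 1) (by omega)) _ h1

end Pool.Agent.X119.Mil
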