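import Mathlib

set_option autoImplicit false

/-!
# Squarefree integers `≡ 1` modulo `4` in short intervals
-/

namespace Pool.Agent.X119.Mil

open Finset Filter

/-- a set of integers of one residue class in an interval -/
lemma sep_card (S : Finset ℕ) (a b m : ℕ) (hS : ∀ n ∈ S, a ≤ n ∧ n ≤ b)
    (hd : ∀ n ∈ S, ∀ n' ∈ S, n ≡ n' [MOD m]) : S.card ≤ (b - a) / m + 1 := by
  classical
  have h1 : S.card ≤ (range ((b - a) / m + 1)).card := by
    apply card_le_card_of_injOn (fun n => (n - a) / m)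
    · intro n hn
      have hn' : n ∈ S := hn
      obtain ⟨h1, h2⟩ := hS n hn'
      simp only [coe_range, Set.mem_Iio]
      have : (n - a) / m ≤ (b - a) / m := Nat.div_le_div_right (by omega)
      omega
    · intro n hn n' hn' hnn
      have h1 := hS n hn
      have h2 := hS n' hn'
      have h3 : n - a ≡ n' - a [MOD m] := by
        have h4 := hd n hn n' hn'
        have h5 : (n - a) + a ≡ (n' - a) + a [MOD m] := by
          rwa [Nat.sub_add_cancel h1.1, Nat.sub_add_cancel h2.1]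
        exact Nat.ModEq.add_right_cancel' a h5
      have h6 : n - a = n' - a := by
        have e1 := Nat.div_add_mod (n - a) m
        have e2 := Nat.div_add_mod (n' - a) m
        have e3 : (n - a) / m = (n' - a) / m := hnn
        have e4 : (n - a) % m = (n' - a) % m := h3
        rw [← e1, ← e2, e3, e4]
      omega
  rwa [card_range] at h1

lemma sum_bound (K : ℕ) : ∑ k ∈ range K, (1 : ℝ) / (2 * ((k : ℝ) + 1) + 1) ^ 2 ≤ 1 / 4 - 1 / (4 * ((K : ℝ) + 1)) := by
  induction K with
  | zero => norm_num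
  | succ K ih =>
    rw [sum_range_succ]
    have h1 : (1 : ℝ) / (2 * ((K : ℝ) + 1) + 1) ^ 2 ≤ 1 / (4 * ((K : ℝ) + 1)) - 1 / (4 * ((K : ℝ) + 1 + 1)) := by
      have hK : (0 : ℝ) ≤ K := Nat.cast_nonneg K
      rw [div_sub_div _ _ (by positivity) (by positivity), div_le_div_iff₀ (by positivity) (by positivity)]
      ring_nf
      nlinarith
    push_cast
    linarith

/-- **Squarefree integers `≡ 1` modulo `4` in an interval.** -/
theorem sqf_count (a b : ℕ) (ha : 1 ≤ a) (hab : a ≤ b) :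
    3 / 16 * ((b : ℝ) - a) - 2 - Real.sqrt b ≤
      (((Icc a b).filter (fun n => n % 4 = 1 ∧ Squarefree n)).card : ℝ) := by
  classical
  obtain ⟨K, hK⟩ : ∃ K : ℕ, K = Nat.sqrt b := ⟨_, rfl⟩
  have hKb : (K : ℝ) ≤ Real.sqrt b := by
    rw [hK]
    exact Real.nat_sqrt_le_real_sqrt
  obtain ⟨A, hA⟩ : ∃ A : Finset ℕ, A = (Icc a b).filter (fun n => n % 4 = 1) := ⟨_, rfl⟩
  obtain ⟨B, hB⟩ : ∃ B : ℕ → Finset ℕ, B = fun k => (Icc a b).filter
    (fun n => n % 4 = 1 ∧ (2 * (k + 1) + 1) ^ 2 ∣ n) := ⟨_, rfl⟩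
  -- the class
  have hAc : ((b : ℝ) - a) / 4 - 1 ≤ (A.card : ℝ) := by
    obtain ⟨a', ha1, ha2, ha3⟩ : ∃ a' : ℕ, a ≤ a' ∧ a' ≤ a + 3 ∧ a' % 4 = 1 :=
      ⟨a + (5 - a % 4) % 4, by omega, by omega, by omega⟩
    have h1 : (b - a) / 4 ≤ A.card := by
      have h2 : (range ((b - a) / 4)).card ≤ A.card := by
        apply card_le_card_of_injOn (fun j => a' + 4 * j)
        · intro j hj
          have hj' : j < (b - a) / 4 := by simpa using hj
          have h40 : 4 * ((b - a) / 4) ≤ b - a := Nat.mul_div_le _ _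
          have g1 : a ≤ a' + 4 * j := by omega
          have g2 : a' + 4 * j ≤ b := by omega
          have g3 : (a' + 4 * j) % 4 = 1 := by omega
          show a' + 4 * j ∈ ((A : Finset ℕ) : Set ℕ)
          rw [mem_coe, hA, mem_filter, mem_Icc]
          exact ⟨⟨g1, g2⟩, g3⟩
        · intro j _ j' _ h
          have : a' + 4 * j = a' + 4 * j' := h
          omega
      rwa [card_range] at h2
    have h3 : (b - a) < 4 * ((b - a) / 4) + 4 := by omega
    have h4 : ((b - a : ℕ) : ℝ) < 4 * (((b - a) / 4 : ℕ) : ℝ) + 4 := by exact_mod_cast h3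
    rw [Nat.cast_sub hab] at h4
    have h5 : (((b - a) / 4 : ℕ) : ℝ) ≤ A.card := by exact_mod_cast h1
    linarith
  have hBc : ∀ k, ((B k).card : ℝ) ≤ ((b : ℝ) - a) / 4 * (1 / (2 * ((k : ℝ) + 1) + 1) ^ 2) + 1 := by
    intro k
    have h1 : (B k).card ≤ (b - a) / (4 * (2 * (k + 1) + 1) ^ 2) + 1 := by
      apply sep_card _ a b _
      · intro n hn
        rw [hB] at hn
        simp only [mem_filter, mem_Icc] at hn
        exact hn.1
      · intro n hn n' hn'
        rw [hB] at hn hn'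
        simp only [mem_filter, mem_Icc] at hn hn'
        have hcop : Nat.Coprime 4 ((2 * (k + 1) + 1) ^ 2) := by
          apply Nat.Coprime.pow_right
          rw [show (4 : ℕ) = 2 ^ 2 by norm_num]
          apply Nat.Coprime.pow_left
          rw [Nat.coprime_two_left]
          exact ⟨k + 1, rfl⟩
        rw [← Nat.modEq_and_modEq_iff_modEq_mul hcop]
        refine ⟨?_, ?_⟩
        · show n % 4 = n' % 4
          omega
        · exact ((Nat.modEq_zero_iff_dvd).2 hn.2.2).trans ((Nat.modEq_zero_iff_dvd).2 hn'.2.2).symm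
    have h2 : (((b - a) / (4 * (2 * (k + 1) + 1) ^ 2) : ℕ) : ℝ) ≤
        ((b - a : ℕ) : ℝ) / ((4 * (2 * (k + 1) + 1) ^ 2 : ℕ) : ℝ) := Nat.cast_div_le
    have h3 : ((B k).card : ℝ) ≤ (((b - a) / (4 * (2 * (k + 1) + 1) ^ 2) : ℕ) : ℝ) + 1 := by exact_mod_cast h1
    refine h3.trans ?_
    rw [Nat.cast_sub hab] at h2
    push_cast at h2
    have h4 : ((b : ℝ) - a) / (4 * (2 * ((k : ℝ) + 1) + 1) ^ 2) =
        ((b : ℝ) - a) / 4 * (1 / (2 * ((k : ℝ) + 1) + 1) ^ 2) := by
      rw [div_mul_div_comm, mul_one]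
    rw [h4] at h2
    push_cast
    linarith
  -- the union
  have hsub : A ⊆ ((Icc a b).filter (fun n => n % 4 = 1 ∧ Squarefree n)) ∪ (range K).biUnion B := by
    intro n hn
    rw [hA, mem_filter, mem_Icc] at hn
    rw [mem_union]
    by_cases hsq : Squarefree n
    · left
      rw [mem_filter, mem_Icc]
      exact ⟨hn.1, hn.2, hsq⟩
    · right
      rw [Nat.squarefree_iff_prime_squarefree] at hsq
      push Not at hsq
      obtain ⟨p, hp, hpd⟩ := hsq
      have hp2 : p ≠ 2 := by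
        rintro rfl
        obtain ⟨m, hm⟩ := hpd
        omega
      obtain ⟨m, hm⟩ := hp.odd_of_ne_two hp2
      have hm0 : m ≠ 0 := by
        rintro rfl
        exact hp.one_lt.ne' (by omega)
      rw [mem_biUnion]
      refine ⟨m - 1, ?_, ?_⟩
      · rw [mem_range, hK]
        have h1 : p * p ≤ b := (Nat.le_of_dvd (by omega) hpd).trans hn.1.2
        have h2 : p ≤ Nat.sqrt b := Nat.le_sqrt.2 h1
        omega
      · rw [hB]
        simp only [mem_filter, mem_Icc]
        refine ⟨hn.1, hn.2, ?_⟩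
        have h3 : 2 * (m - 1 + 1) + 1 = p := by omega
        rw [h3, pow_two]
        exact hpd
  have hcard : (A.card : ℝ) ≤ (((Icc a b).filter (fun n => n % 4 = 1 ∧ Squarefree n)).card : ℝ) +
      ∑ k ∈ range K, ((B k).card : ℝ) := by
    have h1 := card_le_card hsub
    have h2 := card_union_le ((Icc a b).filter (fun n => n % 4 = 1 ∧ Squarefree n)) ((range K).biUnion B)
    have h3 := card_biUnion_le (s := range K) (t := B)
    have h4 : A.card ≤ ((Icc a b).filter (fun n => n % 4 = 1 ∧ Squarefree n)).card +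
      ∑ k ∈ range K, (B k).card := by omega
    exact_mod_cast h4
  have hsum : ∑ k ∈ range K, ((B k).card : ℝ) ≤ ((b : ℝ) - a) / 4 * (1 / 4) + K := by
    calc ∑ k ∈ range K, ((B k).card : ℝ)
        ≤ ∑ k ∈ range K, (((b : ℝ) - a) / 4 * (1 / (2 * ((k : ℝ) + 1) + 1) ^ 2) + 1) :=
          sum_le_sum fun k _ => hBc k
      _ = ((b : ℝ) - a) / 4 * (∑ k ∈ range K, (1 : ℝ) / (2 * ((k : ℝ) + 1) + 1) ^ 2) + K := by
          rw [sum_add_distrib, ← mul_sum, sum_const, card_range, nsmul_eq_mul, mul_one]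
      _ ≤ _ := by
          have h1 := sum_bound K
          have h2 : (0 : ℝ) ≤ 1 / (4 * ((K : ℝ) + 1)) := by positivity
          have h3 : (a : ℝ) ≤ b := by exact_mod_cast hab
          have h4 : 0 ≤ ((b : ℝ) - a) / 4 := by linarith
          have := mul_le_mul_of_nonneg_left (h1.trans (by linarith : _ ≤ (1 : ℝ) / 4)) h4
          linarith
  linarith

end Pool.Agent.X119.Mil
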