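import Pool.Agent.X119.MilAll
import Pool.Agent.X119.MilSqf
import Pool.Agent.Y159.QS.Fin

set_option autoImplicit false

/-!
# Class groups of the quadratic fields of discriminants `y` and `-4 y` for `y = ⌊θ ^ (c ^ n)⌋`
-/

namespace Pool.Agent.X119.Mil

open NumberField Finset Filter

/-- `|Cl(K)[l]| ≤ B` for all quadratic fields `K` of discriminant `D` -/
def CB (l : ℕ) (B : ℝ) (D : ℤ) : Prop :=
  ∀ (K : Type) [Field K] [NumberField K], Module.finrank ℚ K = 2 → NumberField.discr K = D →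
    (Nat.card {c : ClassGroup (𝓞 K) // c ^ l = 1} : ℝ) ≤ B

/-- a bundled number field -/
structure Fl where
  K : Type
  [f : Field K]
  [n : NumberField K]

/-- the conditions on the field -/
def FlP (l : ℕ) (B : ℝ) (D : ℤ) (K : Type) [Field K] [NumberField K] : Prop :=
  Module.finrank ℚ K = 2 ∧ NumberField.discr K = D ∧
    B < (Nat.card {c : ClassGroup (𝓞 K) // c ^ l = 1} : ℝ)

lemma CB_mono {l : ℕ} {B B' : ℝ} {D : ℤ} (h : B ≤ B') (hB : CB l B D) : CB l B' D :=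
  fun K _ _ h1 h2 => (hB K h1 h2).trans h

lemma bad_sum (l : ℕ) (hl : 1 ≤ l) (ε : ℝ) (hε : 0 < ε) : ∃ C : ℝ, 0 < C ∧ ∀ X H : ℝ, 1 ≤ H → H ≤ X →
    (H * √X) ^ (3 / ((l : ℝ) + 1)) ≤ H → ∀ B : ℝ, 0 ≤ B → ∀ S : Finset ℤ,
    (∀ D ∈ S, (X ≤ |(D : ℝ)| ∧ |(D : ℝ)| ≤ X + H) ∧ ¬ CB l B D) →
    (S.card : ℝ) * B ≤ C * X ^ ε * H * (√X / (H * √X) ^ (1 / ((l : ℝ) + 1))) := by
  classical
  obtain ⟨C, hC, h⟩ := Pool.Agent.Y159.QS.short' l 1 hl le_rfl ε hε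
  refine ⟨C, hC, fun X H hH hHX hcond B hB S hS => ?_⟩
  have hex : ∀ D : ℤ, ∃ F : Fl, D ∈ S → @FlP l B D F.K F.f F.n := by
    intro D
    by_cases hD : D ∈ S
    · obtain ⟨_, h2⟩ := hS D hD
      unfold CB at h2
      push Not at h2
      obtain ⟨K, i1, i2, h3, h4, h5⟩ := h2
      exact ⟨⟨K⟩, fun _ => ⟨h3, h4, h5⟩⟩
    · exact ⟨⟨ℚ⟩, fun h => absurd h hD⟩
  choose F hF using hex
  let i1 : ∀ D, Field ((fun D => (F D).K) D) := fun D => (F D).f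
  let i2 : ∀ D, NumberField ((fun D => (F D).K) D) := fun D => (F D).n
  have key := h X H hH hHX (by simpa using hcond) S (fun D => (F D).K)
    (fun D hD => ⟨(hS D hD).1, (hF D hD).1, (hF D hD).2.1⟩)
  have h1 : (S.card : ℝ) * B ≤ ∑ D ∈ S, (Nat.card {c : ClassGroup (𝓞 ((fun D => (F D).K) D)) // c ^ l = 1} : ℝ) ^ 1 := by
    rw [← nsmul_eq_mul]
    apply card_nsmul_le_sum
    intro D hD
    rw [pow_one]
    exact (hF D hD).2.2.le
  refine h1.trans (key.trans (le_of_eq ?_))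
  simp

/-- the exponent -/
noncomputable def ex (c : ℝ) (l : ℕ) : ℝ := 1 / 2 - (3 / 2 - 1 / c) / ((l : ℝ) + 1)

lemma ex_nonneg {c : ℝ} (hc : 2 < c) {l : ℕ} (hl : 5 ≤ l) : 0 ≤ ex c l := by
  have hl' : (5 : ℝ) ≤ l := by exact_mod_cast hl
  have h1 : (3 / 2 - 1 / c) / ((l : ℝ) + 1) ≤ 1 / 2 := by
    rw [div_le_iff₀ (by linarith)]
    have : 0 < 1 / c := by positivity
    linarith
  unfold ex
  linarith

lemma bad_card (l : ℕ) (hl : 5 ≤ l) (c : ℝ) (hc : 2 < c) (δ : ℝ) (hδ : 0 < δ) (hδ1 : δ ≤ 1) :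
    ∃ C : ℝ, 0 < C ∧ ∀ x : ℕ, 1 ≤ x → ∀ S : Finset ℕ,
      (∀ y ∈ S, (x : ℝ) ^ c ≤ y ∧ (y : ℝ) ≤ (x : ℝ) ^ c + (x : ℝ) ^ (c - 1) ∧
        (¬ CB l ((y : ℝ) ^ (ex c l + δ)) (y : ℤ) ∨ ¬ CB l ((y : ℝ) ^ (ex c l + δ)) (-4 * (y : ℤ)))) →
      (S.card : ℝ) ≤ C * (x : ℝ) ^ (c - 1 - c * δ / 2) := by
  classical
  obtain ⟨C, hC, h⟩ := bad_sum l (by omega) (δ / 2) (by linarith)
  refine ⟨33 * C, by positivity, fun x hx S hS => ?_⟩
  have hx1 : (1 : ℝ) ≤ x := by exact_mod_cast hx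
  have hx0 : (0 : ℝ) < x := by linarith
  have hc0 : 0 < c := by linarith
  have hl' : (5 : ℝ) ≤ l := by exact_mod_cast hl
  have hl1 : (0 : ℝ) < (l : ℝ) + 1 := by linarith
  obtain ⟨X, hX⟩ : ∃ X : ℝ, X = (x : ℝ) ^ c := ⟨_, rfl⟩
  obtain ⟨H, hH⟩ : ∃ H : ℝ, H = (x : ℝ) ^ (c - 1) := ⟨_, rfl⟩
  have hX0 : 0 < X := by rw [hX]; positivity
  have hX1 : 1 ≤ X := by rw [hX]; exact Real.one_le_rpow hx1 hc0.le
  have hH1 : 1 ≤ H := by rw [hH]; exact Real.one_le_rpow hx1 (by linarith)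
  have hHX : H ≤ X := by rw [hH, hX]; exact Real.rpow_le_rpow_of_exponent_le hx1 (by linarith)
  have hsq : √X = (x : ℝ) ^ (c / 2) := by
    rw [Real.sqrt_eq_rpow, hX, ← Real.rpow_mul hx0.le]
    congr 1
    ring
  have hHs : H * √X = (x : ℝ) ^ (3 * c / 2 - 1) := by
    rw [hsq, hH, ← Real.rpow_add hx0]
    congr 1
    ring
  have h3l : 3 / ((l : ℝ) + 1) ≤ 1 / 2 := by
    rw [div_le_div_iff₀ hl1 (by norm_num)]
    linarith
  have hcond : (H * √X) ^ (3 / ((l : ℝ) + 1)) ≤ H := by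
    rw [hHs, hH, ← Real.rpow_mul hx0.le]
    apply Real.rpow_le_rpow_of_exponent_le hx1
    have h1 : (3 * c / 2 - 1) * (3 / ((l : ℝ) + 1)) ≤ (3 * c / 2 - 1) * (1 / 2) :=
      mul_le_mul_of_nonneg_left h3l (by linarith)
    linarith
  have hexp : √X / (H * √X) ^ (1 / ((l : ℝ) + 1)) = (x : ℝ) ^ (c * ex c l) := by
    rw [hHs, hsq, ← Real.rpow_mul hx0.le, ← Real.rpow_sub hx0]
    congr 1
    unfold ex
    field_simp
  obtain ⟨B, hB⟩ : ∃ B : ℝ, B = X ^ (ex c l + δ) := ⟨_, rfl⟩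
  have hB0 : 0 < B := by rw [hB]; positivity
  have he := ex_nonneg hc hl
  have hBx : B = (x : ℝ) ^ (c * ex c l) * (x : ℝ) ^ (c * δ) := by
    rw [hB, hX, ← Real.rpow_mul hx0.le, ← Real.rpow_add hx0]
    congr 1
    ring
  have hXε : X ^ (δ / 2) = (x : ℝ) ^ (c * δ / 2) := by
    rw [hX, ← Real.rpow_mul hx0.le]
    congr 1
    ring
  have hyB : ∀ y ∈ S, B ≤ (y : ℝ) ^ (ex c l + δ) := by
    intro y hy
    rw [hB]
    apply Real.rpow_le_rpow hX0.le _ (by linarith)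
    rw [hX]
    exact (hS y hy).1
  -- the bound of the right side
  have hfinal : ∀ N : ℝ, 0 ≤ N → N * B ≤ 32 * (C * X ^ (δ / 2) * H * (√X / (H * √X) ^ (1 / ((l : ℝ) + 1)))) →
      N ≤ 32 * C * (x : ℝ) ^ (c - 1 - c * δ / 2) := by
    intro N hN hNB
    rw [hexp, hXε, hH, hBx] at hNB
    have p1 : 0 < (x : ℝ) ^ (c * ex c l) := by positivity
    have p2 : 0 < (x : ℝ) ^ (c * δ) := by positivity
    have e1 : (x : ℝ) ^ (c * δ / 2) * (x : ℝ) ^ (c - 1) = (x : ℝ) ^ (c - 1 - c * δ / 2) * (x : ℝ) ^ (c * δ) := by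
      rw [← Real.rpow_add hx0, ← Real.rpow_add hx0]
      congr 1
      ring
    have e2 : N * ((x : ℝ) ^ (c * ex c l) * (x : ℝ) ^ (c * δ)) ≤
        (32 * C * (x : ℝ) ^ (c - 1 - c * δ / 2)) * ((x : ℝ) ^ (c * ex c l) * (x : ℝ) ^ (c * δ)) := by
      refine hNB.trans (le_of_eq ?_)
      calc 32 * (C * (x : ℝ) ^ (c * δ / 2) * (x : ℝ) ^ (c - 1) * (x : ℝ) ^ (c * ex c l))
          = 32 * C * ((x : ℝ) ^ (c * δ / 2) * (x : ℝ) ^ (c - 1)) * (x : ℝ) ^ (c * ex c l) := by ring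
        _ = _ := by rw [e1]; ring
    exact le_of_mul_le_mul_right e2 (by positivity)
  obtain ⟨S₁, hS₁⟩ : ∃ S₁ : Finset ℕ, S₁ = S.filter (fun y : ℕ => ¬ CB l ((y : ℝ) ^ (ex c l + δ)) (y : ℤ)) := ⟨_, rfl⟩
  obtain ⟨S₂, hS₂⟩ : ∃ S₂ : Finset ℕ, S₂ = S.filter (fun y : ℕ => ¬ CB l ((y : ℝ) ^ (ex c l + δ)) (-4 * (y : ℤ))) :=
    ⟨_, rfl⟩
  have hun : S.card ≤ S₁.card + S₂.card := by
    have : S ⊆ S₁ ∪ S₂ := by
      intro y hy
      rw [mem_union, hS₁, hS₂, mem_filter, mem_filter]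
      rcases (hS y hy).2.2 with h' | h'
      · exact Or.inl ⟨hy, h'⟩
      · exact Or.inr ⟨hy, h'⟩
    exact (card_le_card this).trans (card_union_le _ _)
  -- discriminants `y`
  have h1 : (S₁.card : ℝ) * B ≤ C * X ^ (δ / 2) * H * (√X / (H * √X) ^ (1 / ((l : ℝ) + 1))) := by
    have hc1 : (S₁.image (fun y : ℕ => (y : ℤ))).card = S₁.card :=
      card_image_of_injective _ Nat.cast_injective
    rw [← hc1]
    apply h X H hH1 hHX hcond B hB0.le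
    intro D hD
    rw [mem_image] at hD
    obtain ⟨y, hy, rfl⟩ := hD
    rw [hS₁, mem_filter] at hy
    obtain ⟨g1, g2, -⟩ := hS y hy.1
    have hy0 : (0 : ℝ) ≤ y := Nat.cast_nonneg y
    refine ⟨?_, fun hcon => hy.2 (CB_mono (hyB y hy.1) hcon)⟩
    rw [Int.cast_natCast, abs_of_nonneg hy0, hX, hH]
    exact ⟨g1, g2⟩
  -- discriminants `-4 y`
  have h2 : (S₂.card : ℝ) * B ≤ 32 * (C * X ^ (δ / 2) * H * (√X / (H * √X) ^ (1 / ((l : ℝ) + 1)))) := by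
    have hc2 : (S₂.image (fun y : ℕ => -4 * (y : ℤ))).card = S₂.card := by
      apply card_image_of_injective
      intro a b hab
      have : -4 * (a : ℤ) = -4 * (b : ℤ) := hab
      omega
    have hs4 : √(4 * X) = 2 * √X := by
      rw [Real.sqrt_mul (by norm_num), show (4 : ℝ) = 2 ^ 2 by norm_num, Real.sqrt_sq (by norm_num)]
    have hHs0 : 0 < H * √X := by rw [hHs]; positivity
    have hcond4 : ((4 * H) * √(4 * X)) ^ (3 / ((l : ℝ) + 1)) ≤ 4 * H := by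
      have e1 : (4 * H) * √(4 * X) = 8 * (H * √X) := by rw [hs4]; ring
      rw [e1, Real.mul_rpow (by norm_num) hHs0.le]
      have e2 : (8 : ℝ) ^ (3 / ((l : ℝ) + 1)) ≤ 4 := by
        calc (8 : ℝ) ^ (3 / ((l : ℝ) + 1)) ≤ (8 : ℝ) ^ ((1 : ℝ) / 2) :=
              Real.rpow_le_rpow_of_exponent_le (by norm_num) h3l
          _ ≤ 4 := by
              rw [← Real.sqrt_eq_rpow]
              rw [Real.sqrt_le_left (by norm_num)]
              norm_num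
      exact mul_le_mul e2 hcond (by positivity) (by norm_num)
    have key := h (4 * X) (4 * H) (by linarith) (by linarith) hcond4 B hB0.le
      (S₂.image (fun y : ℕ => -4 * (y : ℤ))) (by
        intro D hD
        rw [mem_image] at hD
        obtain ⟨y, hy, rfl⟩ := hD
        rw [hS₂, mem_filter] at hy
        obtain ⟨g1, g2, -⟩ := hS y hy.1
        have hy0 : (0 : ℝ) ≤ y := Nat.cast_nonneg y
        refine ⟨?_, fun hcon => hy.2 (CB_mono (hyB y hy.1) hcon)⟩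
        have : |((-4 * (y : ℤ) : ℤ) : ℝ)| = 4 * y := by
          push_cast
          rw [abs_mul, abs_of_nonneg hy0]
          norm_num
        rw [this, hX, hH]
        constructor <;> linarith)
    rw [hc2] at key
    refine key.trans ?_
    have e1 : (4 * X) ^ (δ / 2) ≤ 4 * X ^ (δ / 2) := by
      rw [Real.mul_rpow (by norm_num) hX0.le]
      have : (4 : ℝ) ^ (δ / 2) ≤ 4 := by
        have := Real.rpow_le_rpow_of_exponent_le (by norm_num : (1 : ℝ) ≤ 4) (by linarith : δ / 2 ≤ 1)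
        simpa using this
      exact mul_le_mul_of_nonneg_right this (by positivity)
    have e2 : √(4 * X) / ((4 * H) * √(4 * X)) ^ (1 / ((l : ℝ) + 1)) ≤
        2 * (√X / (H * √X) ^ (1 / ((l : ℝ) + 1))) := by
      rw [hs4, show (4 * H) * (2 * √X) = 8 * (H * √X) by ring, ← mul_div_assoc]
      apply div_le_div_of_nonneg_left (by positivity) (by positivity)
      apply Real.rpow_le_rpow hHs0.le (by linarith) (by positivity)
    have p0 : 0 ≤ √X / (H * √X) ^ (1 / ((l : ℝ) + 1)) := by positivity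
    calc C * (4 * X) ^ (δ / 2) * (4 * H) * (√(4 * X) / ((4 * H) * √(4 * X)) ^ (1 / ((l : ℝ) + 1)))
        ≤ C * (4 * X ^ (δ / 2)) * (4 * H) * (2 * (√X / (H * √X) ^ (1 / ((l : ℝ) + 1)))) := by
          gcongr
      _ = _ := by ring
  have h1' : (S₁.card : ℝ) ≤ C * (x : ℝ) ^ (c - 1 - c * δ / 2) := by
    have h32 : (32 * (S₁.card : ℝ)) ≤ 32 * C * (x : ℝ) ^ (c - 1 - c * δ / 2) := by
      apply hfinal _ (by positivity)
      linarith
    linarith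
  have h2' := hfinal S₂.card (by positivity) h2
  have hunr : (S.card : ℝ) ≤ S₁.card + S₂.card := by exact_mod_cast hun
  linarith

/-- the property of the integer `y` -/
def ClP (c : ℝ) (j y : ℕ) : Prop :=
  Squarefree y ∧ y % 4 = 1 ∧ ∀ l : ℕ, 5 ≤ l → l ≤ j → CB l ((y : ℝ) ^ (ex c l + 1 / ((j : ℝ) + 1))) (y : ℤ) ∧
    CB l ((y : ℝ) ^ (ex c l + 1 / ((j : ℝ) + 1))) (-4 * (y : ℤ))

lemma ClP_mono (c : ℝ) (j y : ℕ) (h : ClP c (j + 1) y) : ClP c j y := by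
  obtain ⟨h1, h2, h3⟩ := h
  have hy : (1 : ℝ) ≤ y := by
    have : 1 ≤ y := by omega
    exact_mod_cast this
  refine ⟨h1, h2, fun l hl hlj => ?_⟩
  obtain ⟨g1, g2⟩ := h3 l hl (by omega)
  have hle : (y : ℝ) ^ (ex c l + 1 / (((j + 1 : ℕ) : ℝ) + 1)) ≤ (y : ℝ) ^ (ex c l + 1 / ((j : ℝ) + 1)) := by
    apply Real.rpow_le_rpow_of_exponent_le hy
    have : 1 / (((j + 1 : ℕ) : ℝ) + 1) ≤ 1 / ((j : ℝ) + 1) := by
      apply one_div_le_one_div_of_le (by positivity)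
      push_cast
      linarith
    linarith
  exact ⟨CB_mono hle g1, CB_mono hle g2⟩

lemma ev_pow2 {u v : ℝ} (K : ℝ) (h : u < v) : ∀ᶠ x : ℝ in atTop, K * x ^ u ≤ x ^ v := by
  filter_upwards [(tendsto_rpow_atTop (by linarith : 0 < v - u)).eventually_ge_atTop K,
    eventually_gt_atTop 0] with x hx hx0
  have : x ^ v = x ^ (v - u) * x ^ u := by rw [← Real.rpow_add hx0]; congr 1; ring
  rw [this]
  exact mul_le_mul_of_nonneg_right hx (by positivity)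

lemma cl_count (c : ℝ) (hc : 2 < c) (j : ℕ) (η : ℝ) (hη : 0 < η) : ∃ x₀ : ℝ, ∀ x : ℕ, x₀ ≤ x →
    ∃ T : Finset ℕ, (∀ y ∈ T, ClP c j y ∧ (x : ℝ) ^ c ≤ y ∧ (y : ℝ) ≤ (x : ℝ) ^ c + (x : ℝ) ^ (c - 1)) ∧
      (x : ℝ) ^ (c - 1 - η) ≤ T.card := by
  classical
  obtain ⟨δ, hδ⟩ : ∃ δ : ℝ, δ = 1 / ((j : ℝ) + 1) := ⟨_, rfl⟩
  have hδ0 : 0 < δ := by rw [hδ]; positivity
  have hδ1 : δ ≤ 1 := by
    rw [hδ, div_le_one (by positivity)]
    have : (0 : ℝ) ≤ j := Nat.cast_nonneg j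
    linarith
  have hc0 : 0 < c := by linarith
  have hbad : ∀ l : ℕ, ∃ C : ℝ, 0 < C ∧ (5 ≤ l → ∀ x : ℕ, 1 ≤ x → ∀ S : Finset ℕ,
      (∀ y ∈ S, (x : ℝ) ^ c ≤ y ∧ (y : ℝ) ≤ (x : ℝ) ^ c + (x : ℝ) ^ (c - 1) ∧
        (¬ CB l ((y : ℝ) ^ (ex c l + δ)) (y : ℤ) ∨ ¬ CB l ((y : ℝ) ^ (ex c l + δ)) (-4 * (y : ℤ)))) →
      (S.card : ℝ) ≤ C * (x : ℝ) ^ (c - 1 - c * δ / 2)) := by
    intro l
    by_cases hl : 5 ≤ l
    · obtain ⟨C, hC, h⟩ := bad_card l hl c hc δ hδ0 hδ1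
      exact ⟨C, hC, fun _ => h⟩
    · exact ⟨1, one_pos, fun h => absurd h hl⟩
  choose C hC hbad using hbad
  obtain ⟨K, hK⟩ : ∃ K : ℝ, K = ∑ l ∈ range (j + 1), C l := ⟨_, rfl⟩
  have hK0 : 0 ≤ K := by rw [hK]; exact sum_nonneg fun l _ => (hC l).le
  have hev : ∀ᶠ x : ℝ in atTop, 1 ≤ x ∧ 64 * x ^ (c / 2) ≤ x ^ (c - 1) ∧ 128 * x ^ (0 : ℝ) ≤ x ^ (c - 1) ∧
      (32 * K) * x ^ (c - 1 - c * δ / 2) ≤ x ^ (c - 1) ∧ 16 * x ^ (c - 1 - η) ≤ x ^ (c - 1) := by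
    have hcδ : 0 < c * δ := by positivity
    filter_upwards [eventually_ge_atTop 1, ev_pow2 64 (by linarith : c / 2 < c - 1),
      ev_pow2 128 (by linarith : (0 : ℝ) < c - 1),
      ev_pow2 (32 * K) (by linarith : c - 1 - c * δ / 2 < c - 1),
      ev_pow2 16 (by linarith : c - 1 - η < c - 1)] with x a1 a2 a3 a4 a5
    exact ⟨a1, a2, a3, a4, a5⟩
  obtain ⟨x₀, hx₀⟩ := eventually_atTop.1 hev
  refine ⟨x₀, fun x hx => ?_⟩
  obtain ⟨a1, a2, a3, a4, a5⟩ := hx₀ x hx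
  rw [Real.rpow_zero, mul_one] at a3
  have hx1 : 1 ≤ x := by exact_mod_cast a1
  have hx0 : (0 : ℝ) < x := by linarith
  obtain ⟨X, hX⟩ : ∃ X : ℝ, X = (x : ℝ) ^ c := ⟨_, rfl⟩
  obtain ⟨H, hH⟩ : ∃ H : ℝ, H = (x : ℝ) ^ (c - 1) := ⟨_, rfl⟩
  rw [← hH] at a2 a3 a4 a5
  have hX1 : 1 ≤ X := by rw [hX]; exact Real.one_le_rpow a1 hc0.le
  have hHX : H ≤ X := by rw [hH, hX]; exact Real.rpow_le_rpow_of_exponent_le a1 (by linarith)
  obtain ⟨a, ha⟩ : ∃ a : ℕ, a = ⌈X⌉₊ := ⟨_, rfl⟩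
  obtain ⟨b, hb⟩ : ∃ b : ℕ, b = ⌊X + H⌋₊ := ⟨_, rfl⟩
  have haX : X ≤ a := by rw [ha]; exact Nat.le_ceil X
  have haX2 : (a : ℝ) < X + 1 := by rw [ha]; exact Nat.ceil_lt_add_one (by linarith)
  have hbX : (b : ℝ) ≤ X + H := by rw [hb]; exact Nat.floor_le (by linarith)
  have hbX2 : X + H < b + 1 := by rw [hb]; exact Nat.lt_floor_add_one _
  have ha1 : 1 ≤ a := by
    have : (1 : ℝ) ≤ a := by linarith
    exact_mod_cast this
  have hab : a ≤ b := by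
    have : (a : ℝ) < b + 1 := by linarith
    have h' : a < b + 1 := by exact_mod_cast this
    omega
  have hcnt := sqf_count a b ha1 hab
  have hsqb : Real.sqrt b ≤ 2 * (x : ℝ) ^ (c / 2) := by
    rw [Real.sqrt_le_left (by positivity)]
    have e1 : (2 * (x : ℝ) ^ (c / 2)) ^ 2 = 4 * X := by
      rw [mul_pow, ← Real.rpow_natCast ((x : ℝ) ^ (c / 2)) 2, ← Real.rpow_mul hx0.le, hX]
      norm_num
    rw [e1]
    linarith
  obtain ⟨A, hA⟩ : ∃ A : Finset ℕ, A = (Icc a b).filter (fun n => n % 4 = 1 ∧ Squarefree n) := ⟨_, rfl⟩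
  rw [← hA] at hcnt
  have hAH : H / 8 ≤ (A.card : ℝ) := by
    have : H - 2 ≤ (b : ℝ) - a := by linarith
    linarith
  obtain ⟨B, hB⟩ : ∃ B : ℕ → Finset ℕ, B = fun l => A.filter (fun y : ℕ =>
    5 ≤ l ∧ (¬ CB l ((y : ℝ) ^ (ex c l + δ)) (y : ℤ) ∨ ¬ CB l ((y : ℝ) ^ (ex c l + δ)) (-4 * (y : ℤ)))) :=
    ⟨_, rfl⟩
  have hAmem : ∀ y ∈ A, X ≤ y ∧ (y : ℝ) ≤ X + H ∧ y % 4 = 1 ∧ Squarefree y := by
    intro y hy
    rw [hA, mem_filter, mem_Icc] at hy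
    obtain ⟨⟨y1, y2⟩, y3, y4⟩ := hy
    have z1 : (a : ℝ) ≤ y := by exact_mod_cast y1
    have z2 : (y : ℝ) ≤ b := by exact_mod_cast y2
    exact ⟨by linarith, by linarith, y3, y4⟩
  have hBc : ∀ l, ((B l).card : ℝ) ≤ C l * (x : ℝ) ^ (c - 1 - c * δ / 2) := by
    intro l
    by_cases hl : 5 ≤ l
    · apply hbad l hl x hx1
      intro y hy
      rw [hB] at hy
      simp only [mem_filter] at hy
      obtain ⟨g1, g2, -, -⟩ := hAmem y hy.1
      rw [hX] at g1 g2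
      rw [hH] at g2
      exact ⟨g1, g2, hy.2.2⟩
    · have : B l = ∅ := by
        rw [hB]
        apply filter_eq_empty_iff.2
        intro y _ hcon
        exact hl hcon.1
      rw [this, card_empty, Nat.cast_zero]
      have := hC l
      positivity
  obtain ⟨T, hT⟩ : ∃ T : Finset ℕ, T = A \ (range (j + 1)).biUnion B := ⟨_, rfl⟩
  have hTc : (A.card : ℝ) ≤ T.card + K * (x : ℝ) ^ (c - 1 - c * δ / 2) := by
    have e1 : A ⊆ T ∪ (range (j + 1)).biUnion B := by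
      intro y hy
      rw [hT, mem_union, Finset.mem_sdiff]
      by_cases h : y ∈ (range (j + 1)).biUnion B
      · exact Or.inr h
      · exact Or.inl ⟨hy, h⟩
    have e2 := (card_le_card e1).trans (card_union_le _ _)
    have e3 := card_biUnion_le (s := range (j + 1)) (t := B)
    have e4 : A.card ≤ T.card + ∑ l ∈ range (j + 1), (B l).card := by omega
    have e5 : (A.card : ℝ) ≤ T.card + ∑ l ∈ range (j + 1), ((B l).card : ℝ) := by exact_mod_cast e4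
    refine e5.trans ?_
    rw [hK, sum_mul]
    have := sum_le_sum (s := range (j + 1)) fun l _ => hBc l
    linarith
  refine ⟨T, fun y hy => ?_, ?_⟩
  · rw [hT, Finset.mem_sdiff] at hy
    obtain ⟨g1, g2, g3, g4⟩ := hAmem y hy.1
    rw [hX] at g1 g2
    rw [hH] at g2
    refine ⟨⟨g4, g3, fun l hl hlj => ?_⟩, g1, g2⟩
    by_contra hcon
    apply hy.2
    rw [mem_biUnion]
    refine ⟨l, mem_range.2 (by omega), ?_⟩
    rw [hB]
    simp only [mem_filter]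
    refine ⟨hy.1, hl, ?_⟩
    rw [← hδ] at hcon
    tauto
  · have e1 : K * (x : ℝ) ^ (c - 1 - c * δ / 2) ≤ H / 32 := by linarith
    linarith

/-- **Small torsion in the class groups of the quadratic fields along doubly exponential sequences.** -/
theorem cl_main (c : ℝ) (hc : 2 < c) (U : Set ℝ) (hU : IsOpen U) (hne : (U ∩ Set.Ioi 1).Nonempty) :
    dimH {θ : ℝ | θ ∈ U ∧ 1 < θ ∧ ∀ j : ℕ, ∃ N : ℕ, ∀ n : ℕ, N ≤ n → ClP c j ⌊θ ^ (c ^ n)⌋₊} = 1 :=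
  mills_all c (by linarith) (ClP c) (ClP_mono c) (fun j η hη => cl_count c hc j η hη) U hU hne

end Pool.Agent.X119.Mil
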