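import Pool.Agent.X119.MilInt
import Pool.Agent.Y859.SI.Fin

set_option autoImplicit false

/-!
# Mills-type theorem for almost prime congruent numbers in prescribed residue classes
-/

namespace Pool.Agent.X119.Mil

open Filter

/-- the almost prime congruent numbers of a class -/
def Sp (R M k : ℕ) : Set ℕ :=
  {y : ℕ | Squarefree y ∧ y ≡ k [MOD 8 * M] ∧ Pool.Agent.Y859.SI.Cong y ∧
    ∃ m, y = Nat.gcd k M * m ∧ Pool.Agent.Y859.SI.Few R (y : ℝ) m}

theorem cong (c s : ℝ) (hc : 3 < c) (hs0 : 0 < s) (hs : s * (7 * c + 12) * (c - 1) < 5 * c - 12) :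
    ∃ R : ℕ, 1 ≤ R ∧ ∀ M k : ℕ → ℕ, (∀ n, 0 < M n) →
      (∀ ε : ℝ, 0 < ε → ∀ᶠ n : ℕ in atTop, (M n : ℝ) ≤ Real.exp (ε * c ^ n)) → (∀ n, Squarefree (k n)) →
      ∀ U : Set ℝ, IsOpen U → (U ∩ Set.Ioi 1).Nonempty →
      ENNReal.ofReal s ≤ dimH {θ : ℝ | θ ∈ U ∧ 1 < θ ∧ ∃ N : ℕ, ∀ n : ℕ, N ≤ n →
        ⌊θ ^ (c ^ n)⌋₊ ∈ Sp R (M n) (k n)} := by
  have hc0 : 0 < c := by linarith
  have hc1 : 0 < c - 1 := by linarith
  obtain ⟨gap, hgap⟩ : ∃ gap : ℝ, gap = (5 * c - 12 - s * (7 * c + 12) * (c - 1)) / 12 := ⟨_, rfl⟩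
  have hgap0 : 0 < gap := by rw [hgap]; linarith
  obtain ⟨D, hD⟩ : ∃ D : ℝ, D = c * (1 + s * (c - 1)) := ⟨_, rfl⟩
  have hD0 : 0 < D := by rw [hD]; positivity
  have h13 : 0 < 1 / 3 - 1 / c := by
    have : 1 / c < 1 / 3 := one_div_lt_one_div_of_lt (by norm_num) hc
    linarith
  obtain ⟨δ, hδ⟩ : ∃ δ : ℝ, δ = min (1 / 24) (min ((1 / 3 - 1 / c) / 2) (gap / (2 * D))) := ⟨_, rfl⟩
  have hδ0 : 0 < δ := by
    rw [hδ]
    exact lt_min (by norm_num) (lt_min (by linarith) (by positivity))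
  have hδ1 : δ ≤ 1 / 24 := by rw [hδ]; exact min_le_left _ _
  have hδ2 : δ ≤ (1 / 3 - 1 / c) / 2 := by rw [hδ]; exact (min_le_right _ _).trans (min_le_left _ _)
  have hδ3 : δ * D < gap := by
    have : δ ≤ gap / (2 * D) := by rw [hδ]; exact (min_le_right _ _).trans (min_le_right _ _)
    rw [le_div_iff₀ (by positivity)] at this
    linarith
  obtain ⟨θ, hθ⟩ : ∃ θ : ℝ, θ = 2 / 3 + δ := ⟨_, rfl⟩
  obtain ⟨R, hR, X₀, h⟩ := Pool.Agent.Y859.SI.main θ (by rw [hθ]; linarith) (by rw [hθ]; linarith)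
  refine ⟨2 * R, by omega, fun M k hM hMε hk U hU hne => ?_⟩
  apply mills_int c θ (1 / 12) s (by linarith) (by rw [hθ]; linarith) (by rw [hθ]; linarith) (by norm_num)
    (by rw [hθ]; linarith) hs0 ?_ (fun n => Sp (2 * R) (M n) (k n)) ?_ U hU hne
  · rw [hθ]
    have e1 : s * (1 + c * (2 / 3 + δ) - c * (1 / 12)) * (c - 1) - (c - 1 - c * (2 / 3 + δ) + c * (1 / 12)) =
        δ * (c * (1 + s * (c - 1))) - (5 * c - 12 - s * (7 * c + 12) * (c - 1)) / 12 := by ring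
    rw [← hD, ← hgap] at e1
    linarith
  · intro ϑ hϑ
    have hlϑ : 0 < Real.log ϑ := Real.log_pos hϑ
    obtain ⟨n₁, hn₁⟩ := eventually_atTop.1 (hMε (Real.log ϑ * ((θ - 2 / 3) / 14))
      (by rw [hθ]; have : 0 < (2 / 3 + δ - 2 / 3) / 14 := by linarith
          positivity))
    obtain ⟨n₂, hn₂⟩ := eventually_atTop.1
      ((tendsto_pow' c ϑ (by linarith) hϑ).eventually_ge_atTop (max X₀ 2))
    refine ⟨max n₁ n₂, fun n hn X hX => ?_⟩
    have hXX : max X₀ 2 ≤ X := (hn₂ n ((le_max_right _ _).trans hn)).trans hX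
    have hX0 : X₀ ≤ X := (le_max_left _ _).trans hXX
    have hX2 : 2 ≤ X := (le_max_right _ _).trans hXX
    have hMX : (M n : ℝ) ≤ X ^ ((θ - 2 / 3) / 14) := by
      refine (hn₁ n ((le_max_left _ _).trans hn)).trans ?_
      have e1 : Real.exp (Real.log ϑ * ((θ - 2 / 3) / 14) * c ^ n) = (ϑ ^ (c ^ n)) ^ ((θ - 2 / 3) / 14) := by
        rw [← Real.rpow_mul (by linarith), Real.rpow_def_of_pos (by linarith)]
        congr 1
        ring
      rw [e1]
      apply Real.rpow_le_rpow (Real.rpow_nonneg (by linarith) _) hX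
      rw [hθ]
      linarith
    refine (h X hX0 (M n) (hM n) hMX (k n) (hk n)).trans ?_
    have hfin : {y : ℕ | X ≤ y ∧ (y : ℝ) ≤ X + X ^ θ ∧ y ∈ Sp (2 * R) (M n) (k n)}.Finite := by
      apply (Set.finite_Iic ⌊X + X ^ θ⌋₊).subset
      intro y hy
      exact Nat.le_floor hy.2.1
    have hsub : {y : ℕ | X ≤ y ∧ (y : ℝ) ≤ X + X ^ θ ∧ Squarefree y ∧
        y ≡ k n [MOD 8 * M n] ∧ Pool.Agent.Y859.SI.Cong y ∧
        ∃ m, y = Nat.gcd (k n) (M n) * m ∧ Pool.Agent.Y859.SI.Few R X m} ⊆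
        {y : ℕ | X ≤ y ∧ (y : ℝ) ≤ X + X ^ θ ∧ y ∈ Sp (2 * R) (M n) (k n)} := by
      rintro y ⟨h1, h2, h3, h4, h5, m, h6, h7, h8⟩
      refine ⟨h1, h2, h3, h4, h5, m, h6, by omega, fun p hp hp2 hd => ?_⟩
      have hθ1 : θ ≤ 1 := by rw [hθ]; linarith
      have hXθ : X ^ θ ≤ X := by
        have := Real.rpow_le_rpow_of_exponent_le (by linarith : 1 ≤ X) hθ1
        simpa using this
      have hy2 : (y : ℝ) ≤ X ^ (2 : ℝ) := by
        rw [Real.rpow_two]
        nlinarith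
      have hR0 : (0 : ℝ) < R := by exact_mod_cast hR
      refine lt_of_le_of_lt ?_ (h8 p hp hp2 hd)
      calc (y : ℝ) ^ (1 / ((2 * R : ℕ) : ℝ)) ≤ (X ^ (2 : ℝ)) ^ (1 / ((2 * R : ℕ) : ℝ)) :=
            Real.rpow_le_rpow (Nat.cast_nonneg y) hy2 (by positivity)
        _ = X ^ (1 / (R : ℝ)) := by
            rw [← Real.rpow_mul (by linarith)]
            congr 1
            push_cast
            field_simp
    exact_mod_cast Set.ncard_le_ncard hsub hfin

/-- two definitions of congruent numbers (copied from the starting result `MP_8efaaa_nt.AlmostPrimeIntervals`) -/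
lemma congruent_of (n : ℕ) (h : Pool.Agent.Y859.SI.Cong n) : ∃ x y z t : ℕ, 0 < x ∧ 0 < y ∧ 0 < z ∧ 0 < t ∧
    x ^ 2 + n * y ^ 2 = z ^ 2 ∧ x ^ 2 = n * y ^ 2 + t ^ 2 := by
  obtain ⟨a, b, c, ha, hb, hc, h1, h2⟩ := h
  -- common denominator
  obtain ⟨A, B, C, D, hA, hB, hC, hD, eA, eB, eC⟩ : ∃ A B C D : ℕ, 0 < A ∧ 0 < B ∧ 0 < C ∧
      0 < D ∧ a = (A : ℚ) / D ∧ b = (B : ℚ) / D ∧ c = (C : ℚ) / D := by
    have na : (0 : ℤ) < a.num := Rat.num_pos.2 ha
    have nb : (0 : ℤ) < b.num := Rat.num_pos.2 hb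
    have nc : (0 : ℤ) < c.num := Rat.num_pos.2 hc
    have ea : ((a.num.natAbs : ℕ) : ℚ) = a.num := by
      rw [Nat.cast_natAbs, abs_of_pos na]
    have eb : ((b.num.natAbs : ℕ) : ℚ) = b.num := by
      rw [Nat.cast_natAbs, abs_of_pos nb]
    have ec : ((c.num.natAbs : ℕ) : ℚ) = c.num := by
      rw [Nat.cast_natAbs, abs_of_pos nc]
    have da : (a.den : ℚ) ≠ 0 := by exact_mod_cast a.den_nz
    have db : (b.den : ℚ) ≠ 0 := by exact_mod_cast b.den_nz
    have dc : (c.den : ℚ) ≠ 0 := by exact_mod_cast c.den_nz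
    have qa := Rat.num_div_den a
    have qb := Rat.num_div_den b
    have qc := Rat.num_div_den c
    refine ⟨a.num.natAbs * (b.den * c.den), b.num.natAbs * (a.den * c.den),
      c.num.natAbs * (a.den * b.den), a.den * b.den * c.den, ?_, ?_, ?_, ?_, ?_, ?_, ?_⟩
    · have := a.pos; have := b.pos; have := c.pos
      have : 0 < a.num.natAbs := by omega
      positivity
    · have := a.pos; have := b.pos; have := c.pos
      have : 0 < b.num.natAbs := by omega
      positivity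
    · have := a.pos; have := b.pos; have := c.pos
      have : 0 < c.num.natAbs := by omega
      positivity
    · have := a.pos; have := b.pos; have := c.pos
      positivity
    · push_cast
      rw [ea]
      nth_rewrite 1 [← qa]
      field_simp
    · push_cast
      rw [eb]
      nth_rewrite 1 [← qb]
      field_simp
    · push_cast
      rw [ec]
      nth_rewrite 1 [← qc]
      field_simp
  have hDq : (D : ℚ) ≠ 0 := by positivity
  rw [eA, eB, eC] at h1
  rw [eA, eB] at h2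
  have g1 : A ^ 2 + B ^ 2 = C ^ 2 := by
    have : (A : ℚ) ^ 2 + (B : ℚ) ^ 2 = (C : ℚ) ^ 2 := by
      field_simp at h1
      exact h1
    exact_mod_cast this
  have g2 : 2 * n * D ^ 2 = A * B := by
    have : 2 * (n : ℚ) * (D : ℚ) ^ 2 = A * B := by
      field_simp at h2
      linarith
    exact_mod_cast this
  have hne : A ≠ B := by
    intro hAB
    rw [hAB] at g1
    have g3 : (2 : ℕ) * B ^ 2 = C ^ 2 := by omega
    have h4 : Irrational (Real.sqrt 2) := irrational_sqrt_two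
    apply h4
    refine ⟨(C : ℚ) / B, ?_⟩
    have hB' : (B : ℝ) ≠ 0 := by positivity
    push_cast
    symm
    rw [Real.sqrt_eq_iff_mul_self_eq (by norm_num) (by positivity)]
    have : (2 : ℝ) * (B : ℝ) ^ 2 = (C : ℝ) ^ 2 := by exact_mod_cast g3
    field_simp
    linarith
  rcases lt_or_gt_of_ne hne with hlt | hlt
  · obtain ⟨s, rfl⟩ := Nat.exists_eq_add_of_lt hlt
    refine ⟨C, 2 * D, 2 * A + s + 1, s + 1, hC, by positivity, by positivity, by positivity, ?_, ?_⟩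
    · nlinarith
    · nlinarith
  · obtain ⟨s, rfl⟩ := Nat.exists_eq_add_of_lt hlt
    refine ⟨C, 2 * D, 2 * B + s + 1, s + 1, hC, by positivity, by positivity, by positivity, ?_, ?_⟩
    · nlinarith
    · nlinarith


/-- the limit of the bounds for the dimension -/
lemma dim_ge {x : ENNReal} {D : ℝ} (hD : 0 < D) (h : ∀ s : ℝ, 0 < s → s < D → ENNReal.ofReal s ≤ x) :
    ENNReal.ofReal D ≤ x := by
  by_contra hcon
  push Not at hcon
  have hx : x ≠ ⊤ := (lt_top_of_lt hcon).ne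
  have h1 : x.toReal < D := by
    have := (ENNReal.toReal_lt_toReal hx ENNReal.ofReal_ne_top).2 hcon
    rwa [ENNReal.toReal_ofReal hD.le] at this
  have h0 : 0 ≤ x.toReal := ENNReal.toReal_nonneg
  have h2 := h ((x.toReal + D) / 2) (by linarith) (by linarith)
  have h3 : (x.toReal + D) / 2 ≤ x.toReal := by
    have := (ENNReal.toReal_le_toReal ENNReal.ofReal_ne_top hx).2 h2
    rwa [ENNReal.toReal_ofReal (by linarith)] at this
  linarith

end Pool.Agent.X119.Mil
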