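import Pool.Agent.X119.MilTrA
import Pool.Agent.Y916.Al.WinP

set_option autoImplicit false

/-!
# At most `j + 1` numbers of a short window are exceptional
-/

namespace Pool.Agent.X119.MilTr

open Module

lemma adm_nat {d H : ℕ} (hd : 1 ≤ d) {t y : ℕ} (h1 : t < y) (h2 : y ≤ t + H) :
    Pool.Agent.Y916.Ari.Adm d H ((y : ℂ) - t) := by
  refine ⟨Polynomial.X - Polynomial.C ((y : ℤ) - t), Polynomial.X_sub_C_ne_zero _, ?_, fun j => ?_, ?_⟩
  · rw [Polynomial.natDegree_X_sub_C]
    omega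
  · rw [Polynomial.coeff_sub, Polynomial.coeff_X, Polynomial.coeff_C]
    have h4 : (1 : ℤ) ≤ H := by
      have : 1 ≤ H := by omega
      exact_mod_cast this
    split_ifs with h5 h6 h6
    · omega
    · rw [sub_zero, abs_one]
      exact h4
    · rw [zero_sub, abs_neg, abs_of_nonneg (by
        have : (t : ℤ) < y := by exact_mod_cast h1
        omega)]
      have : (y : ℤ) ≤ t + H := by exact_mod_cast h2
      omega
    · rw [sub_zero, abs_zero]
      omega
  · rw [map_sub, Polynomial.aeval_X, Polynomial.aeval_C]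
    simp

lemma ht_nat {t : ℕ} (ht : 1 ≤ t) : Pool.Agent.Y916.Al.Ht 1 1 (t : ℂ) := by
  have hnorm : ‖(t : ℂ)‖ = t := Complex.norm_natCast t
  refine ⟨Polynomial.X - Polynomial.C (t : ℤ), Polynomial.X_sub_C_ne_zero _, ?_, fun j => ?_, ?_⟩
  · rw [Polynomial.natDegree_X_sub_C]
  · rw [hnorm, pow_one, Polynomial.coeff_sub, Polynomial.coeff_X, Polynomial.coeff_C]
    have h1 : (1 : ℝ) ≤ t := by exact_mod_cast ht
    split_ifs with h2 h3 h3
    · omega
    · simpa using h1
    · simp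
    · simp
  · rw [map_sub, Polynomial.aeval_X, Polynomial.aeval_C]
    simp

lemma log_repr {t y : ℕ} (ht : 0 < t) (hy : 0 < y) :
    ((Real.log y : ℝ) : ℂ) - Complex.log (1 + ((y : ℂ) - t) / t) = ((Real.log t : ℝ) : ℂ) := by
  have hNR : (0 : ℝ) < t := by exact_mod_cast ht
  have h1 : (0 : ℝ) < y := by exact_mod_cast hy
  have hNC : (t : ℂ) ≠ 0 := by exact_mod_cast ht.ne'
  have h2 : (1 : ℂ) + ((y : ℂ) - t) / t = (((y : ℝ) / t : ℝ) : ℂ) := by
    push_cast
    field_simp
    ring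
  rw [h2, ← Complex.ofReal_log (div_pos h1 hNR).le, Real.log_div h1.ne' hNR.ne']
  push_cast
  ring

theorem win : Win := by
  classical
  intro j
  choose E hE1 hE using fun τ : ℕ => Pool.Agent.Y916.Al.windowP 1 (j + 1) (2 * j) τ 1 1 1 1
  refine ⟨∑ τ ∈ Finset.range (j + 2), E τ, fun H t hN Z hZ => ?_⟩
  have hEle : E (Z.card + 1) ≤ ∑ τ ∈ Finset.range (j + 2), E τ :=
    Finset.single_le_sum (f := E) (fun _ _ => Nat.zero_le _) (Finset.mem_range.2 (by omega))
  have hN' : (H + 2) ^ E (Z.card + 1) ≤ t := (Nat.pow_le_pow_right (by omega) hEle).trans hN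
  have hN1 : 1 ≤ t := (Nat.one_le_pow _ _ (by omega)).trans hN
  have hnorm : ‖(t : ℂ)‖ = t := Complex.norm_natCast t
  obtain ⟨S, hS, h⟩ := hE (Z.card + 1) H (t : ℂ) (by
    rw [hnorm]
    exact_mod_cast hN') (ht_nat hN1) (Option Z)
    (fun o => o.elim ((Real.log t : ℝ) : ℂ) (fun z => (z : ℂ))) Finset.univ
    (by rw [Finset.card_univ, Fintype.card_option, Fintype.card_coe]) (Pool.Agent.Y916.Om.Dom.univ _)
  set S' : Finset ℕ := (Finset.Ioc t (t + H)).filter fun n => ((n : ℂ) - t) ∈ S with hS'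
  refine ⟨S', ?_, ?_⟩
  · refine le_trans ?_ (hS.trans (by omega))
    refine Finset.card_le_card_of_injOn (fun n => (n : ℂ) - t) (fun n hn => ?_) (fun a _ b _ hab => ?_)
    · have h1 := Finset.mem_coe.1 hn
      rw [hS', Finset.mem_filter] at h1
      exact h1.2
    · have h1 : (a : ℂ) = b := sub_left_injective hab
      exact_mod_cast h1
  rintro y hty hyH hyS ⟨K, hK, hKj, f, hf0, hfd, hfc, hfy⟩
  -- representations of the coefficients
  have hrep : ∀ i, ∃ p : MvPolynomial Z K, p.totalDegree ≤ j ∧ MvPolynomial.aeval (fun z : Z => (z : ℂ)) p = f.coeff i := by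
    intro i
    obtain ⟨p, hp, hpe⟩ := pow_repr Z j (hfc i)
    rw [SetLike.mem_coe, MvPolynomial.mem_restrictTotalDegree] at hp
    exact ⟨p, hp, hpe⟩
  choose p hpd hpe using hrep
  set P : MvPolynomial (Option Z ⊕ Fin 1) K := ∑ i ∈ Finset.range (j + 1),
    MvPolynomial.rename (fun z : Z => (Sum.inl (some z) : Option Z ⊕ Fin 1)) (p i) * MvPolynomial.X (Sum.inr 0) ^ i with hP
  have hPd : P.totalDegree ≤ 2 * j := by
    rw [hP]
    refine MvPolynomial.totalDegree_finsetSum_le fun i hi => ?_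
    rw [Finset.mem_range] at hi
    refine (MvPolynomial.totalDegree_mul _ _).trans ?_
    have e1 := MvPolynomial.totalDegree_rename_le (fun z : Z => (Sum.inl (some z) : Option Z ⊕ Fin 1)) (p i)
    have e2 := MvPolynomial.totalDegree_X_pow (R := K) (Sum.inr 0 : Option Z ⊕ Fin 1) i
    have e3 := hpd i
    omega
  have hev : MvPolynomial.aeval (Sum.elim (fun o : Option Z => o.elim ((Real.log t : ℝ) : ℂ) (fun z => (z : ℂ)))
      (fun _ : Fin 1 => ((Real.log y : ℝ) : ℂ))) P = 0 := by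
    rw [hP, map_sum, ← hfy, Polynomial.eval_eq_sum_range' (n := j + 1) (by omega)]
    refine Finset.sum_congr rfl fun i _ => ?_
    rw [map_mul, map_pow, MvPolynomial.aeval_X, MvPolynomial.aeval_rename, ← hpe i]
    rfl
  have hbeta : ∀ i : Fin 1, ((y : ℂ) - t) ∉ S ∧ ((y : ℂ) - t) ≠ 0 ∧ Pool.Agent.Y916.Ari.Adm (j + 1) H ((y : ℂ) - t) := by
    intro _
    refine ⟨fun h4 => hyS ?_, ?_, adm_nat (by omega) hty hyH⟩
    · rw [hS', Finset.mem_filter, Finset.mem_Ioc]
      exact ⟨⟨hty, hyH⟩, h4⟩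
    · rw [sub_ne_zero]
      exact_mod_cast hty.ne'
  have h1 := h (fun _ => (y : ℂ) - t) (Function.injective_of_subsingleton _) hbeta K hK (by omega)
    (fun _ => ((Real.log y : ℝ) : ℂ)) (fun _ => ⟨1, one_ne_zero, by
      have e := log_repr hN1 (show 0 < y by omega)
      rw [OneMemClass.coe_one, one_mul, e]
      exact Submodule.subset_span (Or.inr ⟨none, rfl⟩)⟩) P hPd hev
  -- back to one variable
  have h2 := congrArg (MvPolynomial.aeval (fun _ : Fin 1 => (Polynomial.X : Polynomial ℂ))) h1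
  rw [map_zero, hP, map_sum, map_sum] at h2
  apply hf0
  rw [← h2, f.as_sum_range' (j + 1) (by omega)]
  refine Finset.sum_congr rfl fun i _ => ?_
  rw [map_mul, map_mul, map_pow, map_pow, MvPolynomial.aeval_X, Sum.elim_inr, MvPolynomial.aeval_X, MvPolynomial.aeval_rename]
  have e3 : MvPolynomial.aeval (R := K) ((Sum.elim (fun j : Option Z => (MvPolynomial.C (j.elim ((Real.log t : ℝ) : ℂ) (fun z => (z : ℂ))) :
      MvPolynomial (Fin 1) ℂ)) MvPolynomial.X) ∘ fun z : Z => (Sum.inl (some z) : Option Z ⊕ Fin 1)) (p i) =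
      MvPolynomial.C (f.coeff i) := by
    have e4 : ((Sum.elim (fun j : Option Z => (MvPolynomial.C (j.elim ((Real.log t : ℝ) : ℂ) (fun z => (z : ℂ))) :
      MvPolynomial (Fin 1) ℂ)) MvPolynomial.X) ∘ fun z : Z => (Sum.inl (some z) : Option Z ⊕ Fin 1)) =
      fun z : Z => MvPolynomial.C (z : ℂ) := by
      funext z
      rfl
    rw [e4, ← hpe i]
    have e5 := MvPolynomial.aeval_algebraMap_apply (R := K) (A := ℂ) (MvPolynomial (Fin 1) ℂ) (fun z : Z => (z : ℂ)) (p i)
    exact e5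
  rw [e3, MvPolynomial.aeval_C, Polynomial.algebraMap_eq, Polynomial.C_mul_X_pow_eq_monomial]

end Pool.Agent.X119.MilTr
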