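import Pool.Agent.X119.MilTrF
import Pool.Agent.X119.MilTrB
import Pool.Agent.Y916.Af.Trd

set_option autoImplicit false

/-!
# Elliptic logarithms, quasi-logarithms and logarithms of the numbers of a window
-/

open scoped PeriodPair

namespace Pool.Agent.X119.MilEll

open Module Pool.Agent.X119.MilTr

/-- The Weierstrass zeta function `ζ(z) = ∑ (1/(z-l) + 1/l + z/l²)`, the sum over the lattice (the summand of `l = 0` is
`1/z`, since `1/0 = 0` in Lean). -/
noncomputable def zeta (L : PeriodPair) (z : ℂ) : ℂ := ∑' l : L.lattice, (1 / (z - l) + 1 / l + z / l ^ 2)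

/-- The periods `ω₁`, `ω₂`, the half quasi-periods `ζ(ω₁/2)`, `ζ(ω₂/2)`, and `2πi`. -/
noncomputable def periods (L : PeriodPair) : Fin 5 → ℂ :=
  ![L.ω₁, L.ω₂, zeta L (L.ω₁ / 2), zeta L (L.ω₂ / 2), 2 * Real.pi * Complex.I]

/-- the statement about windows which is used -/
def EllWin (L : PeriodPair) : Prop := ∀ r m A d δ τ : ℕ,
    ∃ E : ℕ, ∀ (H : ℕ) (ξ : ℂ), ((H : ℝ) + 2) ^ E ≤ ‖ξ‖ →
      (∃ p : Polynomial ℤ, p ≠ 0 ∧ p.natDegree ≤ m ∧ (∀ j, |(p.coeff j : ℝ)| ≤ ‖ξ‖ ^ A) ∧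
        Polynomial.aeval ξ p = 0) →
      ∀ w : Fin τ → ℂ, ∃ S : Finset ℕ,
      (S.card : Cardinal) ≤ τ + 1 + Algebra.trdeg ℚ (IntermediateField.adjoin ℚ (Set.range (periods L))) ∧
      ∀ n : Fin r → ℕ, Function.Injective n → (∀ i, 1 ≤ n i ∧ n i ≤ H ∧ n i ∉ S) →
      ∀ p l : Fin r → ℂ, (∀ i, p i ∉ L.lattice ∧ ℘[L] (p i) = ξ + n i ∧ Complex.exp (l i) = ξ + n i) →
      ∀ K : IntermediateField ℚ ℂ, FiniteDimensional ℚ K → Module.finrank ℚ K ≤ d →
      ∀ P : MvPolynomial ((Fin τ ⊕ Fin 5) ⊕ Fin r × Fin 3) K, P.totalDegree ≤ δ →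
        MvPolynomial.aeval (Sum.elim (Sum.elim w (periods L))
          fun x => (![p x.1, zeta L (p x.1), l x.1] : Fin 3 → ℂ) x.2) P = 0 →
        MvPolynomial.aeval (Sum.elim (fun j => MvPolynomial.C (Sum.elim w (periods L) j)) MvPolynomial.X) P
          = (0 : MvPolynomial (Fin r × Fin 3) ℂ)

/-- the values at `n`: the elliptic logarithm, the quasi-logarithm and the logarithm -/
noncomputable def vals (L : PeriodPair) (p : ℕ → ℂ) (n : ℕ) : Fin 3 → ℂ :=
  ![p n, zeta L (p n), ((Real.log n : ℝ) : ℂ)]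

theorem winK_ell (L : PeriodPair) (hL : EllWin L) (p : ℕ → ℂ) (hp : ∀ n, 1 ≤ n → p n ∉ L.lattice ∧ ℘[L] (p n) = n) :
    WinK (vals L p) := by
  classical
  intro j
  obtain ⟨E, hE⟩ := hL 1 1 1 (j + 1) (2 * j) j
  refine ⟨E, j + 6, fun H t hN Z hZ => ?_⟩
  have hN1 : 1 ≤ t := (Nat.one_le_pow _ _ (by omega)).trans hN
  have hnorm : ‖(t : ℂ)‖ = t := Complex.norm_natCast t
  -- the given numbers
  set w : Fin j → ℂ := fun i => if h : (i : ℕ) < Z.card then ((Z.equivFin.symm ⟨i, h⟩ : Z) : ℂ) else 0 with hw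
  have hwZ : ∀ z ∈ Z, ∃ i, w i = z := by
    intro z hz
    refine ⟨⟨Z.equivFin ⟨z, hz⟩, (Fin.is_lt _).trans_le hZ⟩, ?_⟩
    simp only [hw, Fin.is_lt, dif_pos, Fin.eta, Equiv.symm_apply_apply]
  obtain ⟨S, hS, h⟩ := hE H (t : ℂ) (by
    rw [hnorm]
    exact_mod_cast hN) (ht_nat hN1) w
  have hS' : S.card ≤ j + 6 := by
    have h1 := Pool.Agent.Y916.Af.trdeg_le_of_closure (X := Set.range (periods L)) (Finset.univ.image (periods L)) (by
      refine (Matroid.subset_closure _ _ ?_).trans (Matroid.closure_subset_closure _ ?_)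
      · intro x _
        exact Set.mem_univ x
      · intro x hx
        obtain ⟨i, rfl⟩ := hx
        exact_mod_cast Finset.mem_image_of_mem _ (Finset.mem_univ i))
    have h2 : (Finset.univ.image (periods L)).card ≤ 5 :=
      Finset.card_image_le.trans (by rw [Finset.card_univ, Fintype.card_fin])
    have h3 : (S.card : Cardinal) ≤ ((j + 1 + 5 : ℕ) : Cardinal) := by
      refine hS.trans ?_
      push_cast
      refine add_le_add le_rfl (h1.trans ?_)
      exact_mod_cast h2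
    have h4 : S.card ≤ j + 1 + 5 := by exact_mod_cast h3
    omega
  refine ⟨S.image fun n => t + n, Finset.card_image_le.trans hS', ?_⟩
  rintro y hty hyH hyS a ⟨K, hK, hKj, f, hf0, hfd, hfc, hfy⟩
  set Z' : Finset ℂ := Z ∪ (Finset.univ.filter (· < a)).image (vals L p y) with hZ'
  have hy1 : 1 ≤ y := by omega
  have hyt : ((t : ℂ) + ((y - t : ℕ) : ℂ)) = y := by
    rw [Nat.cast_sub hty.le]
    ring
  -- representations of the coefficients
  have hrep : ∀ i, ∃ p : MvPolynomial Z' K, p.totalDegree ≤ j ∧ MvPolynomial.aeval (fun z : Z' => (z : ℂ)) p = f.coeff i := by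
    intro i
    obtain ⟨p, hp, hpe⟩ := pow_repr Z' j (hfc i)
    rw [SetLike.mem_coe, MvPolynomial.mem_restrictTotalDegree] at hp
    exact ⟨p, hp, hpe⟩
  choose q hqd hqe using hrep
  -- the variables
  set val : ((Fin j ⊕ Fin 5) ⊕ Fin 1 × Fin 3) → ℂ := Sum.elim (Sum.elim w (periods L)) (fun x => vals L p y x.2) with hval
  have hg : ∀ z : Z', ∃ v : ((Fin j ⊕ Fin 5) ⊕ Fin 1 × Fin 3), val v = z ∧ ∀ x, v = Sum.inr x → x.2 < a := by
    rintro ⟨z, hz⟩
    rw [hZ', Finset.mem_union, Finset.mem_image] at hz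
    rcases hz with hz | ⟨b, hb, rfl⟩
    · obtain ⟨i, hi⟩ := hwZ z hz
      exact ⟨Sum.inl (Sum.inl i), hi, fun x hx => absurd hx (by simp)⟩
    · refine ⟨Sum.inr (0, b), rfl, fun x hx => ?_⟩
      rw [Finset.mem_filter] at hb
      have : x = (0, b) := (Sum.inr_injective hx).symm
      rw [this]
      exact hb.2
  choose g hg1 hg2 using hg
  set P : MvPolynomial ((Fin j ⊕ Fin 5) ⊕ Fin 1 × Fin 3) K := ∑ i ∈ Finset.range (j + 1),
    MvPolynomial.rename g (q i) * MvPolynomial.X (Sum.inr (0, a)) ^ i with hP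
  have hPd : P.totalDegree ≤ 2 * j := by
    rw [hP]
    refine MvPolynomial.totalDegree_finsetSum_le fun i hi => ?_
    rw [Finset.mem_range] at hi
    refine (MvPolynomial.totalDegree_mul _ _).trans ?_
    have e1 := MvPolynomial.totalDegree_rename_le g (q i)
    have e2 := MvPolynomial.totalDegree_X_pow (R := K) (Sum.inr (0, a) : (Fin j ⊕ Fin 5) ⊕ Fin 1 × Fin 3) i
    have e3 := hqd i
    omega
  have hgval : val ∘ g = fun z : Z' => (z : ℂ) := funext fun z => hg1 z
  have hev : MvPolynomial.aeval val P = 0 := by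
    rw [hP, map_sum, ← hfy, Polynomial.eval_eq_sum_range' (n := j + 1) (by omega)]
    refine Finset.sum_congr rfl fun i _ => ?_
    rw [map_mul, map_pow, MvPolynomial.aeval_X, MvPolynomial.aeval_rename, hgval, ← hqe i]
    rfl
  have h1 := h (fun _ => y - t) (Function.injective_of_subsingleton _) (fun _ => ⟨by omega, by omega, fun hmem =>
      hyS (Finset.mem_image.2 ⟨y - t, hmem, by omega⟩)⟩) (fun _ => p y) (fun _ => ((Real.log y : ℝ) : ℂ))
    (fun _ => ⟨(hp y hy1).1, by rw [hyt]; exact (hp y hy1).2, by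
      rw [hyt, ← Complex.ofReal_exp, Real.exp_log (by exact_mod_cast hy1)]
      simp⟩) K hK (by omega) P hPd hev
  -- back to one variable
  set φ : MvPolynomial (Fin 1 × Fin 3) ℂ →ₐ[ℂ] Polynomial ℂ := MvPolynomial.aeval fun x : Fin 1 × Fin 3 =>
    if x.2 < a then Polynomial.C (vals L p y x.2) else Polynomial.X with hφ
  have h2 := congrArg φ h1
  rw [map_zero, hP, map_sum, map_sum] at h2
  apply hf0
  rw [← h2, f.as_sum_range' (j + 1) (by omega)]
  refine Finset.sum_congr rfl fun i _ => ?_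
  rw [map_mul, map_mul, map_pow, map_pow, MvPolynomial.aeval_X, Sum.elim_inr]
  have e1 : φ (MvPolynomial.X (0, a)) = Polynomial.X := by
    rw [hφ, MvPolynomial.aeval_X, if_neg (lt_irrefl _)]
  rw [e1, MvPolynomial.aeval_rename]
  have e3 : φ (MvPolynomial.aeval (R := K) ((Sum.elim (fun j => MvPolynomial.C (Sum.elim w (periods L) j)) MvPolynomial.X) ∘ g)
      (q i)) = Polynomial.C (f.coeff i) := by
    have e4 := MvPolynomial.comp_aeval_apply (R := K) (f := (Sum.elim (fun j => MvPolynomial.C (Sum.elim w (periods L) j))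
        MvPolynomial.X : _ → MvPolynomial (Fin 1 × Fin 3) ℂ) ∘ g) (φ.restrictScalars K) (q i)
    have e5 : (fun z => (φ.restrictScalars K) (((Sum.elim (fun j => MvPolynomial.C (Sum.elim w (periods L) j))
        MvPolynomial.X : _ → MvPolynomial (Fin 1 × Fin 3) ℂ) ∘ g) z)) = fun z : Z' => algebraMap ℂ (Polynomial ℂ) (z : ℂ) := by
      funext z
      rw [Function.comp_apply, AlgHom.restrictScalars_apply, ← hg1 z]
      rcases hgz : g z with v | x
      · rw [Sum.elim_inl, hφ, MvPolynomial.aeval_C]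
        rfl
      · rw [Sum.elim_inr, hφ, MvPolynomial.aeval_X, if_pos (hg2 z x hgz)]
        rfl
    rw [e5] at e4
    rw [← hqe i]
    refine e4.trans ?_
    exact MvPolynomial.aeval_algebraMap_apply (R := K) (A := ℂ) (Polynomial ℂ) (fun z : Z' => (z : ℂ)) (q i)
  rw [e3, Polynomial.C_mul_X_pow_eq_monomial]

end Pool.Agent.X119.MilEll
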