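import Pool.Agent.X119.Mil
import Pool.Agent.X119.MilAll
import Pool.Agent.X10.ML.Main2

set_option autoImplicit false

/-!
# Mills-type theorem with history

The property of the new number may depend on all the earlier numbers of the sequence.
-/

namespace Pool.Agent.X119.Mil

open Finset Filter Pool.Agent.X10.ML

/-- the ancestors of `y` -/
noncomputable def anc (c : ℝ) : ℕ → ℕ → ℕ
  | 0, y => y
  | j + 1, y => ⌊((anc c j y : ℕ) : ℝ) ^ (1 / c)⌋₊

lemma anc_step {c : ℝ} (hc : 1 < c) {x y : ℕ} (h1 : (x : ℝ) ^ c ≤ y) (h2 : (y : ℝ) + 1 < ((x : ℝ) + 1) ^ c) :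
    ⌊(y : ℝ) ^ (1 / c)⌋₊ = x := by
  have hc0 : 0 < c := by linarith
  have hx0 : (0 : ℝ) ≤ x := Nat.cast_nonneg x
  have hy0 : (0 : ℝ) ≤ y := Nat.cast_nonneg y
  rw [Nat.floor_eq_iff (by positivity)]
  constructor
  · have := Real.rpow_le_rpow (by positivity) h1 (by positivity : 0 ≤ 1 / c)
    rwa [← Real.rpow_mul hx0, mul_one_div_cancel hc0.ne', Real.rpow_one] at this
  · have := Real.rpow_lt_rpow hy0 (by linarith : (y : ℝ) < ((x : ℝ) + 1) ^ c) (by positivity : 0 < 1 / c)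
    rwa [← Real.rpow_mul (by positivity), mul_one_div_cancel hc0.ne', Real.rpow_one] at this

lemma anc_eq {c : ℝ} (hc : 1 < c) (a : ℕ → ℕ) (N : ℕ)
    (h : ∀ n, N ≤ n → ((a n : ℕ) : ℝ) ^ c ≤ a (n + 1) ∧ ((a (n + 1) : ℕ) : ℝ) + 1 < ((a n : ℝ) + 1) ^ c)
    (m : ℕ) : ∀ k : ℕ, N ≤ k → anc c m (a (k + m)) = a k := by
  induction m with
  | zero => intro k _; rfl
  | succ m ih =>
    intro k hk
    have e1 : anc c (m + 1) (a (k + (m + 1))) = ⌊((anc c m (a (k + (m + 1))) : ℕ) : ℝ) ^ (1 / c)⌋₊ := rfl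
    have e2 : anc c m (a (k + (m + 1))) = a (k + 1) := by
      have := ih (k + 1) (by omega)
      rwa [show k + 1 + m = k + (m + 1) by omega] at this
    rw [e1, e2]
    exact anc_step hc (h k hk).1 (h k hk).2

/-- **Mills-type theorem with history.** The property `P j S y` of the new number `y` may depend on the finite set
`S` of the earlier numbers. -/
theorem mills_hist (c : ℝ) (hc : 1 < c) (P : ℕ → Finset ℕ → ℕ → Prop)
    (hmono : ∀ j S y, P (j + 1) S y → P j S y) (hsub : ∀ j S S' y, S ⊆ S' → P j S' y → P j S y)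
    (hP : ∀ j : ℕ, ∀ η : ℝ, 0 < η → ∃ x₀ : ℝ, ∀ x : ℕ, x₀ ≤ x → ∀ S : Finset ℕ,
      (S.card : ℝ) ≤ Real.log x → ∃ T : Finset ℕ,
      (∀ y ∈ T, P j S y ∧ (x : ℝ) ^ c ≤ y ∧ (y : ℝ) ≤ (x : ℝ) ^ c + (x : ℝ) ^ (c - 1)) ∧
      (x : ℝ) ^ (c - 1 - η) ≤ T.card)
    (U : Set ℝ) (hU : IsOpen U) (hne : (U ∩ Set.Ioi 1).Nonempty) :
    dimH {θ : ℝ | θ ∈ U ∧ 1 < θ ∧ ∃ N₀ : ℕ, ∀ j : ℕ, ∃ N : ℕ, N₀ ≤ N ∧ ∀ n : ℕ, N ≤ n →
      P j ((Finset.Ico N₀ n).image fun k => ⌊θ ^ (c ^ k)⌋₊) ⌊θ ^ (c ^ n)⌋₊} = 1 := by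
  classical
  apply dim_eq_one
  intro s hs0 hs1
  have hc0 : 0 < c := by linarith
  have hη := eta_pos hc hs1
  choose f hf using fun j => hP j (eta c s) hη
  have hanti : ∀ (i j : ℕ), i ≤ j → ∀ S y, P j S y → P i S y := by
    intro i j hij
    induction hij with
    | refl => exact fun S y h => h
    | step _ ih => exact fun S y h => ih S y (hmono _ S y h)
  obtain ⟨J, hJ⟩ : ∃ J : ℕ → ℕ, J = fun n : ℕ => Nat.findGreatest
      (fun j : ℕ => f j ≤ (1 + 1 / ((n : ℝ) + 1)) ^ (c ^ n)) n := ⟨_, rfl⟩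
  have hJlarge : ∀ j : ℕ, ∀ᶠ n : ℕ in atTop, j ≤ J n := by
    intro j
    filter_upwards [(slow_tendsto c hc).eventually_ge_atTop (f j), eventually_ge_atTop j] with n h1 h2
    rw [hJ]
    exact Nat.le_findGreatest h2 h1
  have hJf : ∀ᶠ n : ℕ in atTop, f (J n) ≤ (1 + 1 / ((n : ℝ) + 1)) ^ (c ^ n) := by
    filter_upwards [(slow_tendsto c hc).eventually_ge_atTop (f 0)] with n h1
    rw [hJ]
    exact Nat.findGreatest_spec (P := fun j : ℕ => f j ≤ (1 + 1 / ((n : ℝ) + 1)) ^ (c ^ n)) (Nat.zero_le n) h1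
  obtain ⟨n₀, hn₀⟩ := eventually_atTop.1 hJf
  have key := mills_rel c s hc hs0 hs1 (fun n x y => ((x : ℝ) ^ c ≤ y ∧ (y : ℝ) + 1 < ((x : ℝ) + 1) ^ c) ∧
      P (J n) ((range (n + 1)).image fun j => anc c j x) y) (by
    intro ϑ hϑ
    have hlϑ : 0 < Real.log ϑ := Real.log_pos hϑ
    obtain ⟨n₁, hn₁⟩ := exists_nat_gt (1 / (ϑ - 1))
    -- the number of the ancestors
    have ev1 : ∀ᶠ n : ℕ in atTop, (n : ℝ) + 1 ≤ c ^ n * Real.log ϑ := by
      have h3 : Tendsto (fun n : ℕ => (n : ℝ) ^ 1 / c ^ n) atTop (nhds 0) :=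
        tendsto_pow_const_div_const_pow_of_one_lt 1 hc
      have h5 : Tendsto (fun n : ℕ => 1 / c ^ n) atTop (nhds 0) := by
        have := tendsto_inv_atTop_zero.comp (tendsto_pow_atTop_atTop_of_one_lt hc)
        refine this.congr fun n => ?_
        simp only [Function.comp, one_div]
      have h6 := h3.add h5
      rw [add_zero] at h6
      filter_upwards [h6.eventually (gt_mem_nhds hlϑ)] with n hn
      have hcn : 0 < c ^ n := by positivity
      have : ((n : ℝ) ^ 1 / c ^ n + 1 / c ^ n) * c ^ n < Real.log ϑ * c ^ n :=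
        mul_lt_mul_of_pos_right hn hcn
      have e : ((n : ℝ) ^ 1 / c ^ n + 1 / c ^ n) * c ^ n = n + 1 := by
        field_simp
      rw [e] at this
      linarith
    -- the end of the interval
    have ev2 : ∀ᶠ x : ℝ in atTop, 1 ≤ x ∧ 1 < (c - 1) * x ^ (c - 1) := by
      filter_upwards [eventually_ge_atTop 1,
        (tendsto_rpow_atTop (by linarith : 0 < c - 1)).eventually_gt_atTop (1 / (c - 1))] with x b1 b2
      refine ⟨b1, ?_⟩
      rw [div_lt_iff₀ (by linarith)] at b2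
      linarith
    obtain ⟨x₁, hx₁⟩ := eventually_atTop.1 ev2
    obtain ⟨n₂, hn₂⟩ := eventually_atTop.1 (ev1.and ((tendsto_pow c ϑ hc hϑ).eventually_ge_atTop x₁))
    refine ⟨max (max n₀ n₁) n₂, fun n hn x hx => ?_⟩
    have h1 := hn₀ n (((le_max_left _ _).trans (le_max_left _ _)).trans hn)
    have h2 : (1 + 1 / ((n : ℝ) + 1)) ^ (c ^ n) ≤ ϑ ^ (c ^ n) := by
      have hn0 : (0 : ℝ) ≤ n := Nat.cast_nonneg n
      apply Real.rpow_le_rpow (by positivity) _ (by positivity)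
      have h3 : (n₁ : ℝ) ≤ n := by exact_mod_cast ((le_max_right _ _).trans (le_max_left _ _)).trans hn
      have h4 : 1 / ((n : ℝ) + 1) ≤ ϑ - 1 := by
        rw [div_le_iff₀ (by positivity)]
        rw [div_lt_iff₀ (by linarith)] at hn₁
        nlinarith
      linarith
    obtain ⟨g1, g2⟩ := hn₂ n ((le_max_right _ _).trans hn)
    obtain ⟨b1, b2⟩ := hx₁ x (g2.trans hx)
    have hx0 : (0 : ℝ) < x := by linarith
    have hcard : ((((range (n + 1)).image fun j => anc c j x).card : ℕ) : ℝ) ≤ Real.log x := by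
      have e1 : (((range (n + 1)).image fun j => anc c j x).card : ℝ) ≤ n + 1 := by
        have := Finset.card_image_le (s := range (n + 1)) (f := fun j => anc c j x)
        rw [card_range] at this
        exact_mod_cast this
      have e2 : c ^ n * Real.log ϑ ≤ Real.log x := by
        have := Real.log_le_log (Real.rpow_pos_of_pos (by linarith) _) hx
        rwa [Real.log_rpow (by linarith)] at this
      linarith
    obtain ⟨T, hT1, hT2⟩ := hf (J n) x (h1.trans (h2.trans hx)) _ hcard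
    have hend : (x : ℝ) ^ c + (x : ℝ) ^ (c - 1) + 1 < ((x : ℝ) + 1) ^ c := by
      have h3 : 1 + c * (1 / (x : ℝ)) ≤ (1 + 1 / (x : ℝ)) ^ c :=
        one_add_mul_self_le_rpow_one_add (by have : 0 < 1 / (x : ℝ) := by positivity
                                             linarith) hc.le
      have h4 : ((x : ℝ) + 1) ^ c = (x : ℝ) ^ c * (1 + 1 / (x : ℝ)) ^ c := by
        rw [← Real.mul_rpow hx0.le (by positivity)]
        congr 1
        field_simp
      have h5 : (x : ℝ) ^ c * (1 + c * (1 / (x : ℝ))) = (x : ℝ) ^ c + c * (x : ℝ) ^ (c - 1) := by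
        rw [Real.rpow_sub_one hx0.ne']
        ring
      have h6 := mul_le_mul_of_nonneg_left h3 (by positivity : 0 ≤ (x : ℝ) ^ c)
      rw [h5] at h6
      rw [h4]
      linarith
    refine ⟨T, fun y hy => ?_, hT2⟩
    obtain ⟨y1, y2, y3⟩ := hT1 y hy
    have y4 : (y : ℝ) + 1 < ((x : ℝ) + 1) ^ c := by linarith
    exact ⟨⟨⟨y2, y4⟩, y1⟩, y2, y4⟩) U hU hne
  refine key.trans (dimH_mono ?_)
  rintro θ ⟨t1, t2, N, t3⟩
  refine ⟨t1, t2, N, fun j => ?_⟩
  obtain ⟨n₂, hn₂⟩ := eventually_atTop.1 (hJlarge j)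
  refine ⟨max N n₂ + 1, (le_max_left _ _).trans (Nat.le_succ _), fun n hn => ?_⟩
  obtain ⟨k, rfl⟩ : ∃ k, n = k + 1 := ⟨n - 1, by omega⟩
  have hk : max N n₂ ≤ k := by omega
  have hkN : N ≤ k := (le_max_left _ _).trans hk
  have hkn : n₂ ≤ k := (le_max_right _ _).trans hk
  have h1 := (t3 k hkN).2
  refine hanti j (J k) (hn₂ k hkn) _ _ (hsub _ _ _ _ ?_ h1)
  intro z hz
  rw [mem_image] at hz ⊢
  obtain ⟨i, hi, rfl⟩ := hz
  rw [mem_Ico] at hi
  refine ⟨k - i, by rw [mem_range]; omega, ?_⟩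
  have h2 := anc_eq hc (fun n => ⌊θ ^ (c ^ n)⌋₊) N (fun n hn => (t3 n hn).1) (k - i) i hi.1
  simp only [show i + (k - i) = k by omega] at h2
  exact h2

end Pool.Agent.X119.Mil
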