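import Pool.Agent.X119.MilLow

set_option autoImplicit false

/-!
# Mills-type theorem for sets with many elements in short intervals
-/

namespace Pool.Agent.X119.Mil

open Finset Filter Pool.Agent.X10.ML

lemma tendsto_pow' (c ϑ : ℝ) (hc : 1 < c) (hϑ : 1 < ϑ) :
    Tendsto (fun n : ℕ => ϑ ^ (c ^ n)) atTop atTop := by
  have t1 : Tendsto (fun N : ℕ => c ^ N) atTop atTop := tendsto_pow_atTop_atTop_of_one_lt hc
  have e1 : Tendsto (fun y : ℝ => ϑ ^ y) atTop atTop := by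
    have := Real.tendsto_exp_atTop.comp (tendsto_id.const_mul_atTop (Real.log_pos hϑ))
    refine this.congr fun y => ?_
    simp only [Function.comp, id]
    rw [Real.rpow_def_of_pos (by linarith)]
  exact e1.comp t1

/-- many short intervals in a longer one -/
lemma pack (P : ℕ → Prop) (θ β Y L : ℝ) (hθ0 : 0 < θ) (hθ1 : θ ≤ 1) (hβ : 0 ≤ β) (hY : 1 ≤ Y)
    (hL : 6 * Y ^ θ ≤ L) (hLY : L ≤ Y)
    (h : ∀ X : ℝ, Y ≤ X → X ≤ 2 * Y →
      X ^ β ≤ ({n : ℕ | X ≤ n ∧ (n : ℝ) ≤ X + X ^ θ ∧ P n}.ncard : ℝ)) :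
    ∃ T : Finset ℕ, (∀ y ∈ T, P y ∧ Y ≤ y ∧ (y : ℝ) ≤ Y + L) ∧ L / (6 * Y ^ θ) * Y ^ β ≤ T.card := by
  classical
  have hY0 : 0 < Y := by linarith
  obtain ⟨g, hg⟩ : ∃ g : ℝ, g = 3 * Y ^ θ := ⟨_, rfl⟩
  have hg0 : 0 < g := by rw [hg]; positivity
  obtain ⟨k, hk⟩ : ∃ k : ℕ, k = ⌊L / g⌋₊ := ⟨_, rfl⟩
  obtain ⟨pt, hpt⟩ : ∃ pt : ℕ → ℝ, pt = fun i : ℕ => Y + (i : ℝ) * g := ⟨_, rfl⟩
  have hLg : 2 ≤ L / g := by
    rw [le_div_iff₀ hg0, hg]
    linarith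
  have hkL : (k : ℝ) * g ≤ L := by
    have : (k : ℝ) ≤ L / g := by rw [hk]; exact Nat.floor_le (by linarith)
    rwa [le_div_iff₀ hg0] at this
  have hklow : L / (6 * Y ^ θ) ≤ k := by
    have e1 : L / g < k + 1 := by rw [hk]; exact Nat.lt_floor_add_one _
    have e2 : L / (6 * Y ^ θ) = L / g / 2 := by rw [hg]; field_simp; ring
    rw [e2]
    linarith
  have hpt1 : ∀ i, i < k → Y ≤ pt i ∧ pt i ≤ 2 * Y ∧ pt i + (pt i) ^ θ < pt (i + 1) ∧ pt (i + 1) ≤ Y + L := by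
    intro i hi
    have hi0 : (0 : ℝ) ≤ i := Nat.cast_nonneg i
    have hik : ((i : ℝ) + 1) ≤ k := by exact_mod_cast hi
    have e1 : ((i : ℝ) + 1) * g ≤ k * g := mul_le_mul_of_nonneg_right hik hg0.le
    have e2 : Y ≤ pt i := by
      rw [hpt]
      have := mul_nonneg hi0 hg0.le
      simp only
      linarith
    have e3 : pt i ≤ 2 * Y := by
      rw [hpt]
      simp only
      nlinarith
    have e4 : (pt i) ^ θ ≤ 2 * Y ^ θ := by
      have f1 : (pt i) ^ θ ≤ (2 * Y) ^ θ := Real.rpow_le_rpow (by linarith) e3 hθ0.le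
      rw [Real.mul_rpow (by norm_num) hY0.le] at f1
      have f2 : (2 : ℝ) ^ θ ≤ 2 := by
        have := Real.rpow_le_rpow_of_exponent_le (by norm_num : (1 : ℝ) ≤ 2) hθ1
        simpa using this
      have f3 : 0 < Y ^ θ := by positivity
      nlinarith
    refine ⟨e2, e3, ?_, ?_⟩
    · have f3 : 0 < Y ^ θ := by positivity
      have f4 : pt (i + 1) = pt i + g := by
        rw [hpt]
        simp only
        push_cast
        ring
      rw [f4, hg]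
      linarith
    · rw [hpt]
      simp only
      push_cast
      linarith
  have hmono : ∀ i j : ℕ, i ≤ j → pt i ≤ pt j := by
    intro i j hij
    rw [hpt]
    simp only
    have : (i : ℝ) ≤ j := by exact_mod_cast hij
    nlinarith
  obtain ⟨S, hS⟩ : ∃ S : ℕ → Set ℕ, S = fun i => {n : ℕ | pt i ≤ n ∧ (n : ℝ) ≤ pt i + (pt i) ^ θ ∧ P n} :=
    ⟨_, rfl⟩
  have hfin : ∀ i, (S i).Finite := by
    intro i
    apply (Set.finite_Iic ⌊pt i + (pt i) ^ θ⌋₊).subset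
    intro n hn
    rw [hS] at hn
    exact Nat.le_floor hn.2.1
  refine ⟨(range k).biUnion (fun i => (hfin i).toFinset), ?_, ?_⟩
  · intro y hy
    rw [mem_biUnion] at hy
    obtain ⟨i, hi, hyi⟩ := hy
    rw [mem_range] at hi
    rw [Set.Finite.mem_toFinset, hS] at hyi
    obtain ⟨y1, y2, y3⟩ := hyi
    obtain ⟨p1, p2, p3, p4⟩ := hpt1 i hi
    exact ⟨y3, p1.trans y1, by linarith⟩
  · rw [card_biUnion]
    · have e1 : ∀ i ∈ range k, Y ^ β ≤ ((hfin i).toFinset.card : ℝ) := by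
        intro i hi
        rw [mem_range] at hi
        obtain ⟨p1, p2, p3, p4⟩ := hpt1 i hi
        have f1 := h (pt i) p1 p2
        have f2 : ({n : ℕ | pt i ≤ n ∧ (n : ℝ) ≤ pt i + (pt i) ^ θ ∧ P n}.ncard : ℝ) =
            ((hfin i).toFinset.card : ℝ) := by
          rw [← Set.ncard_eq_toFinset_card (S i) (hfin i), hS]
        rw [f2] at f1
        exact (Real.rpow_le_rpow hY0.le p1 hβ).trans f1
      push_cast
      calc L / (6 * Y ^ θ) * Y ^ β ≤ k * Y ^ β := mul_le_mul_of_nonneg_right hklow (by positivity)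
        _ = ∑ i ∈ range k, Y ^ β := by rw [sum_const, card_range, nsmul_eq_mul]
        _ ≤ _ := sum_le_sum e1
    · intro i hi j hj hij
      rw [mem_coe, mem_range] at hi hj
      rw [Function.onFun, disjoint_left]
      intro y hy1 hy2
      rw [Set.Finite.mem_toFinset, hS] at hy1 hy2
      rcases lt_or_gt_of_ne hij with hlt | hlt
      · obtain ⟨p1, p2, p3, p4⟩ := hpt1 i hi
        have := hmono (i + 1) j hlt
        have a1 := hy1.2.1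
        have a2 := hy2.1
        linarith
      · obtain ⟨p1, p2, p3, p4⟩ := hpt1 j hj
        have := hmono (j + 1) i hlt
        have a1 := hy1.1
        have a2 := hy2.2.1
        linarith

/-- **Mills-type theorem for sets with at least `X ^ β` elements in the intervals `[X, X + X ^ θ]`.** -/
theorem mills_int (c θ β s : ℝ) (hc : 1 < c) (hθ0 : 0 < θ) (hθ : θ < 1 - 1 / c) (hβ0 : 0 ≤ β) (hβ : β ≤ θ)
    (hs0 : 0 < s) (hs : s * (1 + c * θ - c * β) * (c - 1) < c - 1 - c * θ + c * β) (G : ℕ → Set ℕ)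
    (hG : ∀ ϑ : ℝ, 1 < ϑ → ∃ n₁ : ℕ, ∀ n : ℕ, n₁ ≤ n → ∀ X : ℝ, ϑ ^ (c ^ n) ≤ X →
      X ^ β ≤ ({y : ℕ | X ≤ y ∧ (y : ℝ) ≤ X + X ^ θ ∧ y ∈ G n}.ncard : ℝ))
    (U : Set ℝ) (hU : IsOpen U) (hne : (U ∩ Set.Ioi 1).Nonempty) :
    ENNReal.ofReal s ≤ dimH {θ : ℝ | θ ∈ U ∧ 1 < θ ∧ ∃ N : ℕ, ∀ n : ℕ, N ≤ n →
      ⌊θ ^ (c ^ n)⌋₊ ∈ G n} := by
  have hc0 : 0 < c := by linarith
  have hc1 : 0 < c - 1 := by linarith
  have hθ1 : θ ≤ 1 := by
    have : 0 < 1 / c := by positivity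
    linarith
  have hcθ : c * θ < c - 1 := by
    have := mul_lt_mul_of_pos_left hθ hc0
    have e : c * (1 - 1 / c) = c - 1 := by field_simp
    linarith
  obtain ⟨κ₀, hκ₀⟩ : ∃ κ₀ : ℝ, κ₀ = c - 1 - c * θ + c * β := ⟨_, rfl⟩
  have hκ₀0 : 0 < κ₀ := by
    rw [hκ₀]
    have := mul_nonneg hc0.le hβ0
    linarith
  have hκ₀1 : κ₀ ≤ c - 1 := by
    rw [hκ₀]
    nlinarith
  have hs' : s * (c - κ₀) * (c - 1) < κ₀ := by
    have : c - κ₀ = 1 + c * θ - c * β := by rw [hκ₀]; ring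
    rw [this, hκ₀]
    exact hs
  obtain ⟨D, hD⟩ : ∃ D : ℝ, D = 1 + s * (c - 1) := ⟨_, rfl⟩
  have hD0 : 0 < D := by rw [hD]; positivity
  obtain ⟨κs, hκs⟩ : ∃ κs : ℝ, κs = s * c * (c - 1) / D := ⟨_, rfl⟩
  have hκs0 : 0 < κs := by rw [hκs]; positivity
  have hκsD : κs * D = s * c * (c - 1) := by rw [hκs]; field_simp
  have hκsκ : κs < κ₀ := by
    have : κs * D < κ₀ * D := by
      rw [hκsD, hD]
      nlinarith
    exact lt_of_mul_lt_mul_right this hD0.le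
  obtain ⟨κ, hκ⟩ : ∃ κ : ℝ, κ = (κs + κ₀) / 2 := ⟨_, rfl⟩
  have hκ0 : 0 < κ := by rw [hκ]; linarith
  have hκlt : κ < κ₀ := by rw [hκ]; linarith
  have hκgt : κs < κ := by rw [hκ]; linarith
  have hsκ : s * (c - κ) * (c - 1) < κ := by
    have : κs * D < κ * D := mul_lt_mul_of_pos_right hκgt hD0
    rw [hκsD, hD] at this
    nlinarith
  refine mills_low c κ s hc hκ0 (by linarith) hs0 hsκ G ?_ U hU hne
  intro ϑ hϑ
  obtain ⟨n₁, hn₁⟩ := hG ϑ hϑ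
  have t1 : ∀ᶠ x : ℝ in atTop, 1 ≤ x ∧ 6 * x ^ (c * θ) ≤ x ^ (c - 1) ∧ 6 * x ^ κ ≤ x ^ κ₀ := by
    have a1 := (tendsto_rpow_atTop (by linarith : 0 < c - 1 - c * θ)).eventually_ge_atTop 6
    have a2 := (tendsto_rpow_atTop (by linarith : 0 < κ₀ - κ)).eventually_ge_atTop 6
    filter_upwards [eventually_ge_atTop 1, a1, a2] with x x1 x2 x3
    have hx0 : 0 < x := by linarith
    refine ⟨x1, ?_, ?_⟩
    · have : x ^ (c - 1) = x ^ (c - 1 - c * θ) * x ^ (c * θ) := by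
        rw [← Real.rpow_add hx0]; congr 1; ring
      rw [this]
      exact mul_le_mul_of_nonneg_right x2 (by positivity)
    · have : x ^ κ₀ = x ^ (κ₀ - κ) * x ^ κ := by
        rw [← Real.rpow_add hx0]; congr 1; ring
      rw [this]
      exact mul_le_mul_of_nonneg_right x3 (by positivity)
  obtain ⟨x₁, hx₁⟩ := eventually_atTop.1 t1
  obtain ⟨n₂, hn₂⟩ := eventually_atTop.1 ((tendsto_pow' c ϑ hc hϑ).eventually_ge_atTop x₁)
  refine ⟨max n₁ n₂, fun n hn x hx => ?_⟩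
  obtain ⟨x1, x2, x3⟩ := hx₁ x ((hn₂ n ((le_max_right _ _).trans hn)).trans hx)
  have hx0 : (0 : ℝ) < x := by linarith
  have hϑ0 : (0 : ℝ) ≤ ϑ ^ (c ^ n) := Real.rpow_nonneg (by linarith) _
  have hYlow : ϑ ^ (c ^ (n + 1)) ≤ (x : ℝ) ^ c := by
    rw [pow_succ, Real.rpow_mul (by linarith)]
    exact Real.rpow_le_rpow hϑ0 hx hc0.le
  have hY1 : 1 ≤ (x : ℝ) ^ c := Real.one_le_rpow x1 hc0.le
  have hYθ : ((x : ℝ) ^ c) ^ θ = (x : ℝ) ^ (c * θ) := by rw [← Real.rpow_mul hx0.le]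
  have hYβ : ((x : ℝ) ^ c) ^ β = (x : ℝ) ^ (c * β) := by rw [← Real.rpow_mul hx0.le]
  obtain ⟨T, hT1, hT2⟩ := pack (fun y => y ∈ G (n + 1)) θ β ((x : ℝ) ^ c) ((x : ℝ) ^ (c - 1)) hθ0 hθ1 hβ0 hY1
    (by rw [hYθ]; exact x2) (Real.rpow_le_rpow_of_exponent_le x1 (by linarith))
    (fun X hX _ => hn₁ (n + 1) (by have := (le_max_left n₁ n₂).trans hn; omega) X (hYlow.trans hX))
  refine ⟨T, hT1, le_trans ?_ hT2⟩
  rw [hYθ, hYβ]
  have e1 : (x : ℝ) ^ (c - 1) / (6 * (x : ℝ) ^ (c * θ)) * (x : ℝ) ^ (c * β) = (x : ℝ) ^ κ₀ / 6 := by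
    have : (x : ℝ) ^ (c - 1) * (x : ℝ) ^ (c * β) = (x : ℝ) ^ κ₀ * (x : ℝ) ^ (c * θ) := by
      rw [← Real.rpow_add hx0, ← Real.rpow_add hx0, hκ₀]
      congr 1
      ring
    field_simp
    linarith
  rw [e1]
  linarith

end Pool.Agent.X119.Mil
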