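import Pool.Agent.X10.ML.Main

set_option autoImplicit false

/-!
# Mills-type theorem for sparse sets

The theorem `Pool.Agent.X10.ML.mills_gen` (helper10) with a power saving number `x ^ κ` of children: the dimension
is at least `s` if `s (c - κ) (c - 1) < κ`. The proofs are adapted from `X10/ML/Core.lean` and `X10/ML/Main.lean`.
-/

namespace Pool.Agent.X119.Mil

open Finset Filter Pool.Agent.X10.ML

lemma weights2 (c κ s : ℝ) (hc : 1 < c) (hκ0 : 0 < κ) (hκ1 : κ ≤ c - 1) (hs0 : 0 < s)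
    (hs : s * (c - κ) * (c - 1) < κ) :
    ∃ X₀ : ℝ, ∀ x : ℝ, X₀ ≤ x → ∃ c₀ : ℝ, 0 < c₀ ∧ ∀ m : ℕ → ℕ,
      (∀ n, x ^ (c ^ n * κ) / 4 ≤ m n) → ∀ n : ℕ,
        c₀ ≤ (∏ i ∈ range n, (m i : ℝ)) *
          ((m n : ℝ) * (1 / (c ^ (n + 1) * (x + 1) ^ (c ^ (n + 1))))) ^ s := by
  have hc1 : 0 < c - 1 := by linarith
  have hs1 : s < 1 := by
    by_contra h
    push Not at h
    have h1 : κ ≤ (c - κ) * (c - 1) := by nlinarith
    have h2 : (c - κ) * (c - 1) ≤ s * (c - κ) * (c - 1) := by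
      have : 0 ≤ (c - κ) * (c - 1) := mul_nonneg (by linarith) hc1.le
      nlinarith
    linarith
  obtain ⟨g, hg⟩ : ∃ g, g = (κ / (c - 1) - s * (c - κ)) / 2 := ⟨_, rfl⟩
  have hg0 : 0 < g := by
    rw [hg]
    have : s * (c - κ) < κ / (c - 1) := by rw [lt_div_iff₀ hc1]; exact hs
    linarith
  obtain ⟨δ, hδ⟩ : ∃ δ, δ = g / (s * c) := ⟨_, rfl⟩
  have hδ0 : 0 < δ := by rw [hδ]; positivity
  have hcδ : s * (c * δ) = g := by rw [hδ]; field_simp
  obtain ⟨A₀, hA₀⟩ : ∃ A₀ : ℝ, A₀ = max 1 (max (1 / δ) ((Real.log 4 + Real.log c) / (g * (c - 1)))) :=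
    ⟨_, rfl⟩
  refine ⟨Real.exp A₀, fun x hx => ?_⟩
  have hx0 : 0 < x := (Real.exp_pos _).trans_le hx
  obtain ⟨A, hA⟩ : ∃ A, A = Real.log x := ⟨_, rfl⟩
  have hAA : A₀ ≤ A := by rw [hA, Real.le_log_iff_exp_le hx0]; exact hx
  have hA1 : 1 ≤ A := (by rw [hA₀]; exact le_max_left _ _ : (1:ℝ) ≤ A₀).trans hAA
  have hAδ : 1 ≤ δ * A := by
    have : 1 / δ ≤ A := (by rw [hA₀]; exact (le_max_left _ _).trans (le_max_right _ _) : 1 / δ ≤ A₀).trans hAA
    rw [div_le_iff₀ hδ0] at this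
    linarith
  have hAg : Real.log 4 + Real.log c ≤ A * g * (c - 1) := by
    have : (Real.log 4 + Real.log c) / (g * (c - 1)) ≤ A :=
      (by rw [hA₀]; exact (le_max_right _ _).trans (le_max_right _ _) :
        (Real.log 4 + Real.log c) / (g * (c - 1)) ≤ A₀).trans hAA
    rw [div_le_iff₀ (by positivity)] at this
    linarith
  have hx1 : 1 ≤ x := by
    have : (1 : ℝ) ≤ Real.exp A₀ := Real.one_le_exp (by rw [hA₀]; exact le_trans zero_le_one (le_max_left _ _))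
    linarith
  have hlog1 : Real.log (x + 1) ≤ (1 + δ) * A := by
    have e1 : Real.log (x + 1) ≤ Real.log (2 * x) := Real.log_le_log (by linarith) (by linarith)
    rw [Real.log_mul (by norm_num) hx0.ne', ← hA] at e1
    have e2 : Real.log 2 ≤ 1 := by linarith [Real.log_two_lt_d9]
    linarith
  have hlc : 0 ≤ Real.log c := Real.log_nonneg hc.le
  refine ⟨Real.exp (-(A * κ / (c - 1)) - Real.log 4 - Real.log c), Real.exp_pos _, ?_⟩
  intro m hm n
  have hmpos : ∀ i, (0 : ℝ) < m i := fun i => lt_of_lt_of_le (by positivity) (hm i)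
  have hmlog : ∀ i, A * (c ^ i * κ) - Real.log 4 ≤ Real.log (m i) := by
    intro i
    have e1 := Real.log_le_log (by positivity) (hm i)
    rw [Real.log_div (by positivity) (by norm_num), Real.log_rpow hx0, ← hA] at e1
    linarith
  have hprodlog : A * (κ * ((c ^ n - 1) / (c - 1))) - n * Real.log 4 ≤
      Real.log (∏ i ∈ range n, (m i : ℝ)) := by
    rw [Real.log_prod (fun i _ => (hmpos i).ne')]
    have e1 : ∑ i ∈ range n, (A * (c ^ i * κ) - Real.log 4) =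
        A * (κ * ((c ^ n - 1) / (c - 1))) - n * Real.log 4 := by
      rw [sum_sub_distrib, sum_const, card_range, nsmul_eq_mul, ← mul_sum, ← sum_mul,
        geom_sum_eq hc.ne']
      ring
    rw [← e1]
    exact sum_le_sum fun i _ => hmlog i
  obtain ⟨C, hC⟩ : ∃ C : ℝ, C = c ^ (n + 1) := ⟨_, rfl⟩
  have hC0 : 0 < C := by rw [hC]; positivity
  have hlast : A * (c ^ n * κ) - Real.log 4 - (n + 1) * Real.log c - C * ((1 + δ) * A) ≤
      Real.log ((m n : ℝ) * (1 / (C * (x + 1) ^ C))) := by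
    rw [Real.log_mul (hmpos n).ne' (by positivity), one_div, Real.log_inv,
      Real.log_mul hC0.ne' (by positivity), Real.log_rpow (by positivity)]
    have e1 : Real.log C = (n + 1) * Real.log c := by
      rw [hC, Real.log_pow]; push_cast; ring
    rw [e1]
    have e2 : C * Real.log (x + 1) ≤ C * ((1 + δ) * A) := mul_le_mul_of_nonneg_left hlog1 hC0.le
    have e3 := hmlog n
    linarith
  have hPpos : (0 : ℝ) < ∏ i ∈ range n, (m i : ℝ) := prod_pos fun i _ => hmpos i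
  have hQpos : 0 < (m n : ℝ) * (1 / (C * (x + 1) ^ C)) := by
    have := hmpos n
    positivity
  rw [← hC, ← Real.le_log_iff_exp_le (by positivity), Real.log_mul hPpos.ne' (by positivity),
    Real.log_rpow hQpos]
  have hs' := mul_le_mul_of_nonneg_left hlast hs0.le
  obtain ⟨K, hK⟩ : ∃ K : ℝ, K = c ^ n := ⟨_, rfl⟩
  have hCK : C = c * K := by rw [hC, hK, pow_succ]; ring
  have hK1 : 1 + n * (c - 1) ≤ K := by
    rw [hK]
    have := one_add_mul_le_pow (a := c - 1) (by linarith) n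
    simpa [add_sub_cancel] using this
  rw [← hK] at hprodlog hs'
  rw [hCK] at hs'
  have hn0 : (0 : ℝ) ≤ n := Nat.cast_nonneg n
  have hl4 : 0 ≤ Real.log 4 := Real.log_nonneg (by norm_num)
  -- collect
  have f1 : A * (κ * ((K - 1) / (c - 1))) = A * K * (κ / (c - 1)) - A * κ / (c - 1) := by
    field_simp
  have f2 : κ / (c - 1) = 2 * g + s * (c - κ) := by rw [hg]; ring
  have f3 : s * (A * (K * κ) - Real.log 4 - (n + 1) * Real.log c - c * K * ((1 + δ) * A)) =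
      - (A * K * (s * (c - κ))) - A * K * (s * (c * δ)) - s * (Real.log 4 + (n + 1) * Real.log c) := by
    ring
  have f5 : s * (Real.log 4 + (n + 1) * Real.log c) ≤ Real.log 4 + (n + 1) * Real.log c := by
    have : 0 ≤ Real.log 4 + (n + 1) * Real.log c := by positivity
    nlinarith
  have f6 : A * g * (n * (c - 1)) ≤ A * g * K :=
    mul_le_mul_of_nonneg_left (by linarith) (by positivity)
  have f7 : n * (Real.log 4 + Real.log c) ≤ n * (A * g * (c - 1)) :=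
    mul_le_mul_of_nonneg_left hAg hn0
  rw [f1, f2] at hprodlog
  rw [f3, hcδ, ← hCK] at hs'
  have f8 : A * K * (2 * g + s * (c - κ)) - A * K * (s * (c - κ)) - A * K * g = A * g * K := by ring
  have f9 : n * (A * g * (c - 1)) = A * g * (n * (c - 1)) := by ring
  linarith

/-- **Mills-type theorem for sparse sets.** If, for every `ϑ > 1` and all large `n`, each interval
`[x ^ c, x ^ c + x ^ (c - 1)]` with `x ≥ ϑ ^ (c ^ n)` contains at least `x ^ κ` elements of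
`G (n + 1)`, then the `θ > 1` such that the integer part of `θ ^ (c ^ n)` is in `G n` for all large
`n` form, in each open set that meets `(1, ∞)`, a set of dimension at least `s`, if
`s (c - κ) (c - 1) < κ`. -/
theorem mills_low (c κ s : ℝ) (hc : 1 < c) (hκ0 : 0 < κ) (hκ1 : κ ≤ c - 1) (hs0 : 0 < s)
    (hs : s * (c - κ) * (c - 1) < κ) (G : ℕ → Set ℕ)
    (hG : ∀ ϑ : ℝ, 1 < ϑ → ∃ n₁ : ℕ, ∀ n : ℕ, n₁ ≤ n → ∀ x : ℕ, ϑ ^ (c ^ n) ≤ x → ∃ T : Finset ℕ,
      (∀ y ∈ T, y ∈ G (n + 1) ∧ (x : ℝ) ^ c ≤ y ∧ (y : ℝ) ≤ (x : ℝ) ^ c + (x : ℝ) ^ (c - 1)) ∧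
      (x : ℝ) ^ κ ≤ T.card)
    (U : Set ℝ) (hU : IsOpen U) (hne : (U ∩ Set.Ioi 1).Nonempty) :
    ENNReal.ofReal s ≤ dimH {θ : ℝ | θ ∈ U ∧ 1 < θ ∧ ∃ N : ℕ, ∀ n : ℕ, N ≤ n →
      ⌊θ ^ (c ^ n)⌋₊ ∈ G n} := by
  classical
  have hc1 : 0 < c - 1 := by linarith
  have hs1 : s < 1 := by
    by_contra h
    push Not at h
    have h1 : κ ≤ (c - κ) * (c - 1) := by nlinarith
    have h2 : (c - κ) * (c - 1) ≤ s * (c - κ) * (c - 1) := by
      have : 0 ≤ (c - κ) * (c - 1) := mul_nonneg (by linarith) hc1.le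
      nlinarith
    linarith
  obtain ⟨θ₁, hθU, hθ1⟩ := hne
  rw [Set.mem_Ioi] at hθ1
  obtain ⟨r, hr0, hr⟩ := Metric.isOpen_iff.1 hU θ₁ hθU
  obtain ⟨r', hr'⟩ : ∃ r', r' = min r (θ₁ - 1) / 2 := ⟨_, rfl⟩
  have hr'0 : 0 < r' := by
    rw [hr']
    have : 0 < min r (θ₁ - 1) := lt_min hr0 (by linarith)
    linarith
  have hr'r : r' < r := by
    have : min r (θ₁ - 1) ≤ r := min_le_left _ _
    linarith
  have hr'1 : r' < θ₁ - 1 := by
    have : min r (θ₁ - 1) ≤ θ₁ - 1 := min_le_right _ _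
    linarith
  obtain ⟨n₁, hG⟩ := hG (θ₁ - r') (by linarith)
  obtain ⟨X₀, hX₀⟩ := weights2 c κ s hc hκ0 hκ1 hs0 hs
  -- choice of the level
  have t1 : Tendsto (fun N : ℕ => c ^ N) atTop atTop := tendsto_pow_atTop_atTop_of_one_lt hc
  have t2 : Tendsto (fun N : ℕ => ((⌊θ₁ ^ (c ^ N)⌋₊ : ℕ) : ℝ)) atTop atTop := by
    have e1 : Tendsto (fun y : ℝ => θ₁ ^ y) atTop atTop := by
      have := Real.tendsto_exp_atTop.comp (tendsto_id.const_mul_atTop (Real.log_pos hθ1))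
      refine this.congr fun y => ?_
      simp only [Function.comp, id]
      rw [Real.rpow_def_of_pos (by linarith)]
    exact (tendsto_natCast_atTop_atTop (R := ℝ)).comp (tendsto_nat_floor_atTop.comp (e1.comp t1))
  have t3 : ∀ᶠ x : ℝ in atTop, X₀ ≤ x ∧ 1 ≤ x ∧ 1 < (c - 1) * x ^ (c - 1) ∧
      4 ≤ x ^ κ := by
    have a1 := (tendsto_rpow_atTop (by linarith : 0 < c - 1)).const_mul_atTop (by linarith : 0 < c - 1)
    filter_upwards [eventually_ge_atTop X₀, eventually_ge_atTop 1,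
      a1.eventually_gt_atTop 1, (tendsto_rpow_atTop hκ0).eventually_ge_atTop 4] with x a c' d e
    exact ⟨a, c', d, e⟩
  obtain ⟨N, ⟨b1, b3, b4, b5⟩, hNn, hNr⟩ := ((t2.eventually t3).and
    ((eventually_ge_atTop n₁).and (t1.eventually_ge_atTop (1 / r')))).exists
  obtain ⟨x₀, hx₀⟩ : ∃ x₀ : ℕ, x₀ = ⌊θ₁ ^ (c ^ N)⌋₊ := ⟨_, rfl⟩
  rw [← hx₀] at b1 b3 b4 b5
  obtain ⟨C, hC⟩ : ∃ C : ℝ, C = c ^ N := ⟨_, rfl⟩
  rw [← hC] at hx₀ hNr
  have hC1 : 1 ≤ C := by rw [hC]; exact one_le_pow₀ hc.le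
  have hC0 : 0 < C := by linarith
  have hCr : 1 ≤ C * r' := by
    rw [div_le_iff₀ hr'0] at hNr
    exact hNr
  have hx₀1 : 1 ≤ x₀ := by exact_mod_cast b3
  have hx₀low : (θ₁ - r') ^ C ≤ x₀ := by
    have e1 := add_pow_one (a := θ₁ - r') (r := r') (C := C) (by linarith) hr'0 hC1 hCr
    rw [sub_add_cancel] at e1
    have e2 : θ₁ ^ C < x₀ + 1 := by rw [hx₀]; exact Nat.lt_floor_add_one _
    linarith
  obtain ⟨c₀, hc₀, hw⟩ := hX₀ x₀ b1
  -- the numbers of children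
  obtain ⟨m, hm⟩ : ∃ m : ℕ → ℕ, m = fun n => ⌊(x₀ : ℝ) ^ (c ^ n * κ) / 2⌋₊ := ⟨_, rfl⟩
  have hbase : ∀ n : ℕ, 4 ≤ (x₀ : ℝ) ^ (c ^ n * κ) := by
    intro n
    refine b5.trans (Real.rpow_le_rpow_of_exponent_le b3 ?_)
    have : 1 ≤ c ^ n := one_le_pow₀ hc.le
    nlinarith
  have hm2 : ∀ n, 2 ≤ m n := by
    intro n
    rw [hm]
    apply Nat.le_floor
    have := hbase n
    push_cast
    linarith
  have hmlow : ∀ n, (x₀ : ℝ) ^ (c ^ n * κ) / 4 ≤ m n := by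
    intro n
    have h1 := hbase n
    have h2 : (x₀ : ℝ) ^ (c ^ n * κ) / 2 < m n + 1 := by
      rw [hm]; exact Nat.lt_floor_add_one _
    linarith
  have hmup : ∀ n, 2 * (m n : ℝ) ≤ (x₀ : ℝ) ^ (c ^ n * κ) := by
    intro n
    have h2 : (m n : ℝ) ≤ (x₀ : ℝ) ^ (c ^ n * κ) / 2 := by
      rw [hm]; exact Nat.floor_le (by positivity)
    linarith
  -- the children
  have hch : ∀ n x : ℕ, ∃ f : ℕ → ℕ, (x₀ : ℝ) ^ (c ^ n) ≤ x →
      (∀ j < m n, f j ∈ G (N + (n + 1)) ∧ (x : ℝ) ^ c ≤ f j ∧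
        (f j : ℝ) ≤ (x : ℝ) ^ c + (x : ℝ) ^ (c - 1)) ∧
      ∀ j j', j < j' → j' < m n → f j + 2 * (j' - j) ≤ f j' := by
    intro n x
    by_cases hx : (x₀ : ℝ) ^ (c ^ n) ≤ x
    · have hxx : (θ₁ - r') ^ (c ^ (N + n)) ≤ x := by
        refine le_trans ?_ hx
        rw [pow_add, Real.rpow_mul (by linarith), ← hC]
        exact Real.rpow_le_rpow (Real.rpow_nonneg (by linarith) _) hx₀low (by positivity)
      obtain ⟨T, hT1, hT2⟩ := hG (N + n) (by omega) x hxx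
      have h2m : 2 * m n ≤ T.card := by
        have e1 : 2 * (m n : ℝ) ≤ T.card := by
          refine (hmup n).trans (le_trans ?_ hT2)
          rw [Real.rpow_mul (by positivity)]
          exact Real.rpow_le_rpow (by positivity) hx hκ0.le
        exact_mod_cast e1
      obtain ⟨f, hf1, hf2⟩ := exists_spaced T (m n) h2m
      exact ⟨f, fun _ => ⟨fun j hj => hT1 _ (hf1 j hj), hf2⟩⟩
    · exact ⟨fun _ => 0, fun h => absurd h hx⟩
  choose ch hch' using hch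
  obtain ⟨pt, hpt1, hpt2⟩ := tree c hc (fun n => G (N + n)) m x₀ hx₀1 b4 ch
    (fun n x hx j hj => (hch' n x hx).1 j hj) (fun n x hx => (hch' n x hx).2)
  have hdim := dimH_cantor m hm2 s hs0 hs1.le
    (fun n => 1 / (c ^ (n + 1) * ((x₀ : ℝ) + 1) ^ (c ^ (n + 1)))) (fun n => by positivity) c₀ hc₀
    (fun n => hw m hmlow n) pt hpt2
  refine hdim.trans ?_
  -- transfer
  obtain ⟨W, hW⟩ : ∃ W : Set ℝ, W = {θ : ℝ | θ ∈ U ∧ 1 < θ ∧ ∃ N : ℕ, ∀ n : ℕ, N ≤ n →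
      ⌊θ ^ (c ^ n)⌋₊ ∈ G n} := ⟨_, rfl⟩
  rw [← hW]
  have hF : ContDiffOn ℝ 1 (fun θ : ℝ => θ ^ C) (Set.Ioi 0) := by
    intro θ hθ
    exact (Real.contDiffAt_rpow_const_of_ne (ne_of_gt hθ)).contDiffWithinAt
  have hle : dimH ((fun θ : ℝ => θ ^ C) '' W) ≤ dimH W := by
    apply hF.dimH_image_le (convex_Ioi 0)
    intro θ hθ
    rw [hW] at hθ
    exact lt_trans one_pos hθ.2.1
  refine le_trans (dimH_mono ?_) hle
  rintro _ ⟨d, rfl⟩
  obtain ⟨g1, g2, g3⟩ := hpt1 d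
  have hv0 : 0 < pt d := by linarith
  have hθC : (pt d ^ (1 / C)) ^ C = pt d := by
    rw [← Real.rpow_mul hv0.le, one_div_mul_cancel hC0.ne', Real.rpow_one]
  refine ⟨pt d ^ (1 / C), ?_, hθC⟩
  have hx₀le : (x₀ : ℝ) ≤ θ₁ ^ C := by rw [hx₀]; exact Nat.floor_le (by positivity)
  have hx₀lt : θ₁ ^ C < x₀ + 1 := by rw [hx₀]; exact Nat.lt_floor_add_one _
  have hθ0 : 0 ≤ pt d ^ (1 / C) := Real.rpow_nonneg hv0.le _
  have k1 : θ₁ - r' ≤ pt d ^ (1 / C) := by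
    have e1 := add_pow_one (a := θ₁ - r') (r := r') (C := C) (by linarith) hr'0 hC1 hCr
    rw [sub_add_cancel] at e1
    have e2 : (θ₁ - r') ^ C ≤ pt d := by linarith
    by_contra hcon
    push Not at hcon
    have e3 := Real.rpow_lt_rpow hθ0 hcon hC0
    rw [hθC] at e3
    linarith
  have k2 : pt d ^ (1 / C) ≤ θ₁ + r' := by
    have e1 := add_pow_one (a := θ₁) (r := r') (C := C) (by linarith) hr'0 hC1 hCr
    have e2 : pt d ≤ (θ₁ + r') ^ C := by linarith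
    by_contra hcon
    push Not at hcon
    have e3 := Real.rpow_lt_rpow (by linarith) hcon hC0
    rw [hθC] at e3
    linarith
  rw [hW]
  refine ⟨hr ?_, by linarith, N + 1, fun n hn => ?_⟩
  · rw [Metric.mem_ball, Real.dist_eq, abs_lt]
    constructor <;> linarith
  · obtain ⟨k, rfl⟩ : ∃ k, n = N + k := ⟨n - N, by omega⟩
    have e1 : (pt d ^ (1 / C)) ^ (c ^ (N + k)) = pt d ^ (c ^ k) := by
      rw [pow_add, Real.rpow_mul hθ0, ← hC, hθC]
    rw [e1]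
    exact g3 k (by omega)

end Pool.Agent.X119.Mil
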