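import Pool.Agent.X119.MilR
import Pool.Agent.X37.RD.Rec

set_option autoImplicit false

/-!
# Patterns of almost primes at all the numbers `⌊θ ^ (c ^ n)⌋`

The input is the theorem `Pool.Agent.X37.RD.record_ap` (helper37).
-/

namespace Pool.Agent.X119.Mil

open Filter

/-- for every prime `p` the elements of `T` miss a residue class modulo `p` -/
def Adm (T : Finset ℕ) : Prop := ∀ p : ℕ, p.Prime → ∃ a : ℕ, ∀ t ∈ T, ¬ p ∣ a + t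

/-- If `T` is contained in `[0, κ R(m)]`, then the `m + t` with `t ∈ T` have no prime factor `≤ m ^ κ`, and all the other
`m + s` with `s ≤ κ R(m)` have a prime factor `≤ log m`. -/
def Pat (κ : ℝ) (T : Finset ℕ) (m : ℕ) : Prop :=
  (∀ t ∈ T, (t : ℝ) ≤ κ * rankin m) →
    (∀ t ∈ T, ∀ p : ℕ, p.Prime → p ∣ m + t → (m : ℝ) ^ κ < p) ∧
    ∀ s : ℕ, (s : ℝ) ≤ κ * rankin m → s ∉ T → ∃ p : ℕ, p.Prime ∧ (p : ℝ) ≤ Real.log m ∧ p ∣ m + s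

lemma small {κ b t u : ℝ} (h0 : 0 < κ) (h1 : κ ≤ b) (h2 : b * t ≤ u) (h3 : 0 < u) : κ * t ≤ u := by
  rcases le_or_gt 0 t with h | h
  · exact (mul_le_mul_of_nonneg_right h1 h).trans h2
  · have : κ * t < 0 := mul_neg_of_pos_of_neg h0 h
    linarith

lemma Pat_mono {κ κ' : ℝ} (h0 : 0 < κ') (h : κ' ≤ κ) {T : Finset ℕ} {m : ℕ} (hm : 1 ≤ m) (hP : Pat κ T m) :
    Pat κ' T m := by
  have key : ∀ t : ℕ, (t : ℝ) ≤ κ' * rankin m → (t : ℝ) ≤ κ * rankin m := by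
    intro t ht
    rcases le_or_gt 0 (rankin m) with hr | hr
    · exact ht.trans (mul_le_mul_of_nonneg_right h hr)
    · have h1 : κ' * rankin m < 0 := mul_neg_of_pos_of_neg h0 hr
      have h2 : (0 : ℝ) ≤ t := Nat.cast_nonneg t
      linarith
  intro hT
  obtain ⟨h1, h2⟩ := hP (fun t ht => key t (hT t ht))
  refine ⟨fun t ht p hp hd => lt_of_le_of_lt ?_ (h1 t ht p hp hd), fun s hs hsT => h2 s (key s hs) hsT⟩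
  exact Real.rpow_le_rpow_of_exponent_le (by exact_mod_cast hm) h

lemma core (k : ℕ) (hk : 1 ≤ k) (c : ℝ) (hc : 1 < c) (a : ℝ) (ha : 0 < a) (ha1 : a ≤ 1 / 2) :
    ∃ κ : ℝ, 0 < κ ∧ ∀ ϑ : ℝ, 1 < ϑ → ∃ n₁ : ℕ, ∀ n : ℕ, n₁ ≤ n → ∀ X : ℝ, ϑ ^ (c ^ n) ≤ X → ∀ z : ℕ,
        X ≤ z → (z : ℝ) ≤ 3 * X → ∀ T : Finset ℕ, T.card = k → Adm T →
        ∃ m, Pat κ T m ∧ z < m ∧ (m : ℝ) ≤ z + X ^ a := by
  obtain ⟨E, hE⟩ : ∃ E : ℕ, E = ⌈4 / a⌉₊ := ⟨_, rfl⟩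
  obtain ⟨c₁, hc₁, r, hr, hev⟩ := Pool.Agent.X37.RD.record_ap k E hk
  obtain ⟨N₀, hN₀⟩ := eventually_atTop.1 hev
  obtain ⟨X₁, hX₁4, hX₁⟩ := scaleR a ha ha1
  obtain ⟨X₂, hX₂⟩ := eventually_atTop.1 ((tendsto_rpow_atTop ha).eventually_ge_atTop ((N₀ : ℝ) + 1))
  have hr0 : (0 : ℝ) < r := by exact_mod_cast (by omega : 0 < r)
  refine ⟨min (c₁ * (a / 4 / 4)) (a / 4 / r), lt_min (by positivity) (by positivity), fun ϑ hϑ => ?_⟩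
  obtain ⟨κ, hκ⟩ : ∃ κ : ℝ, κ = min (c₁ * (a / 4 / 4)) (a / 4 / r) := ⟨_, rfl⟩
  have hκ0 : 0 < κ := by rw [hκ]; exact lt_min (by positivity) (by positivity)
  have hκ1 : κ ≤ c₁ * (a / 4 / 4) := by rw [hκ]; exact min_le_left _ _
  have hκ2 : κ ≤ a / 4 / r := by rw [hκ]; exact min_le_right _ _
  rw [← hκ]
  obtain ⟨n₁, hn₁⟩ := eventually_atTop.1 ((tendsto_pow c ϑ hc hϑ).eventually_ge_atTop (max X₁ X₂))
  refine ⟨n₁, fun n hn X hX z hz1 hz2 T hTc hTa => ?_⟩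
  have hXX : max X₁ X₂ ≤ X := (hn₁ n hn).trans hX
  have hX1 : X₁ ≤ X := (le_max_left _ _).trans hXX
  have hX4 : 4 ≤ X := hX₁4.trans hX1
  have hX0 : 0 < X := by linarith
  have hNb : (N₀ : ℝ) + 1 ≤ X ^ a := hX₂ X ((le_max_right _ _).trans hXX)
  obtain ⟨N, hN⟩ : ∃ N : ℕ, N = ⌊X ^ a⌋₊ := ⟨_, rfl⟩
  have hNN : N₀ ≤ N := by
    rw [hN]
    apply Nat.le_floor
    linarith
  have hNle : (N : ℝ) ≤ X ^ a := by rw [hN]; exact Nat.floor_le (by positivity)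
  have hXa : X ^ a ≤ X := by
    have := Real.rpow_le_rpow_of_exponent_le (by linarith : 1 ≤ X) (by linarith : a ≤ 1)
    simpa using this
  -- z is at most N ^ E
  obtain ⟨z1, z2, -, -, -⟩ := hX₁ X hX1 z hz1 (by linarith)
  rw [← hN] at z1 z2
  have hN1 : (1 : ℝ) ≤ N := by exact_mod_cast (by omega : 1 ≤ N)
  have hzE : z ≤ N ^ E := by
    have hz0 : (0 : ℝ) ≤ z := Nat.cast_nonneg z
    have e1 : (z : ℝ) = ((z : ℝ) ^ (a / 4)) ^ (4 / a) := by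
      rw [← Real.rpow_mul hz0, show a / 4 * (4 / a) = 1 by field_simp, Real.rpow_one]
    have e2 : ((z : ℝ) ^ (a / 4)) ^ (4 / a) ≤ (N : ℝ) ^ (4 / a) :=
      Real.rpow_le_rpow (by positivity) z2 (by positivity)
    have e3 : (N : ℝ) ^ (4 / a) ≤ (N : ℝ) ^ (E : ℝ) :=
      Real.rpow_le_rpow_of_exponent_le hN1 (by rw [hE]; exact Nat.le_ceil _)
    rw [Real.rpow_natCast] at e3
    have : (z : ℝ) ≤ (N : ℝ) ^ E := by linarith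
    exact_mod_cast this
  have key : ∀ m : ℕ, z < m → (m : ℝ) ≤ z + X ^ a → κ * rankin m ≤ c₁ * Pool.Agent.X37.RD.RR N ∧
      (m : ℝ) ^ (a / 4) ≤ (N : ℝ) ∧ Real.log (N : ℝ) ≤ Real.log m := by
    intro m hm1 hm2
    have hm1r : (z : ℝ) < m := by exact_mod_cast hm1
    obtain ⟨-, y2, y3, y4, y5⟩ := hX₁ X hX1 m (by linarith) (by linarith)
    rw [← hN] at y2 y3 y4 y5
    refine ⟨?_, y2, y3⟩
    refine small hκ0 hκ1 ?_ (mul_pos hc₁ y5)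
    rw [mul_assoc]
    exact mul_le_mul_of_nonneg_left y4 hc₁.le
  have hXa1 : 1 ≤ X ^ a := by
    have : (0 : ℝ) ≤ N₀ := Nat.cast_nonneg _
    linarith
  by_cases hcond : ∀ t ∈ T, (t : ℝ) ≤ c₁ * Pool.Agent.X37.RD.RR N
  · have h := hN₀ N hNN z hzE T hTc hTa hcond
    have hpos : (0 : ℝ) < (N : ℝ) ^ (4 / 5 : ℝ) := by positivity
    obtain ⟨m, ⟨m1, m2⟩, m3, m4⟩ : ({n' : ℕ | (z < n' ∧ n' ≤ z + N) ∧
      (∀ t ∈ T, (∀ p : ℕ, p.Prime → p ∣ n' + t → N < p ^ r) ∧ (n' + t).primeFactorsList.length ≤ r) ∧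
      ∀ s : ℕ, (s : ℝ) ≤ c₁ * Pool.Agent.X37.RD.RR N → s ∉ T →
        ∃ p : ℕ, p.Prime ∧ (p : ℝ) ≤ Real.log N ∧ p ∣ n' + s}).Nonempty := by
      apply Set.nonempty_of_ncard_ne_zero
      intro h0
      rw [h0, Nat.cast_zero] at h
      linarith
    have hmz : (m : ℝ) ≤ z + X ^ a := by
      have : (m : ℝ) ≤ z + N := by exact_mod_cast m2
      linarith
    obtain ⟨k1, k2, k3⟩ := key m m1 hmz
    have hm0 : (1 : ℝ) ≤ m := by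
      have : (z : ℝ) < m := by exact_mod_cast m1
      linarith
    refine ⟨m, fun _ => ⟨fun t ht p hp hpd => ?_, fun s' hs hsT => ?_⟩, m1, hmz⟩
    · have e1 : (N : ℝ) < (p : ℝ) ^ r := by exact_mod_cast (m3 t ht).1 p hp hpd
      have hp0 : (0 : ℝ) ≤ p := Nat.cast_nonneg p
      have e2 : (m : ℝ) ^ κ ≤ ((m : ℝ) ^ (a / 4)) ^ (1 / (r : ℝ)) := by
        rw [← Real.rpow_mul (by linarith)]
        apply Real.rpow_le_rpow_of_exponent_le hm0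
        rw [mul_one_div]
        exact hκ2
      have e3 : ((m : ℝ) ^ (a / 4)) ^ (1 / (r : ℝ)) ≤ (N : ℝ) ^ (1 / (r : ℝ)) :=
        Real.rpow_le_rpow (by positivity) k2 (by positivity)
      have e4 : (N : ℝ) ^ (1 / (r : ℝ)) < ((p : ℝ) ^ r) ^ (1 / (r : ℝ)) :=
        Real.rpow_lt_rpow (by positivity) e1 (by positivity)
      have e5 : ((p : ℝ) ^ r) ^ (1 / (r : ℝ)) = p := by
        rw [← Real.rpow_natCast, ← Real.rpow_mul hp0, mul_one_div_cancel hr0.ne', Real.rpow_one]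
      rw [e5] at e4
      linarith
    · obtain ⟨p, p1, p2, p3⟩ := m4 s' (hs.trans k1) hsT
      exact ⟨p, p1, p2.trans k3, p3⟩
  · push Not at hcond
    obtain ⟨t, ht, ht2⟩ := hcond
    have hz' : ((z + 1 : ℕ) : ℝ) ≤ z + X ^ a := by push_cast; linarith
    refine ⟨z + 1, fun hall => ?_, by omega, hz'⟩
    exfalso
    have := hall t ht
    have := (key (z + 1) (by omega) hz').1
    linarith

/-- All cardinalities `1 ≤ k ≤ K` at once. -/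
lemma coreK (K : ℕ) (c : ℝ) (hc : 1 < c) (a : ℝ) (ha : 0 < a) (ha1 : a ≤ 1 / 2) :
    ∃ κ : ℝ, 0 < κ ∧ ∀ ϑ : ℝ, 1 < ϑ → ∃ n₁ : ℕ, ∀ n : ℕ, n₁ ≤ n → ∀ X : ℝ, ϑ ^ (c ^ n) ≤ X → ∀ z : ℕ,
        X ≤ z → (z : ℝ) ≤ 3 * X → ∀ T : Finset ℕ, 1 ≤ T.card → T.card ≤ K → Adm T →
        ∃ m, Pat κ T m ∧ z < m ∧ (m : ℝ) ≤ z + X ^ a := by
  induction K with
  | zero =>
    refine ⟨1, one_pos, fun ϑ _ => ⟨0, fun n _ X _ z _ _ T h1 h2 _ => ?_⟩⟩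
    omega
  | succ K ih =>
    obtain ⟨κ₁, hκ₁, h1⟩ := ih
    obtain ⟨κ₂, hκ₂, h2⟩ := core (K + 1) (by omega) c hc a ha ha1
    refine ⟨min κ₁ κ₂, lt_min hκ₁ hκ₂, fun ϑ hϑ => ?_⟩
    obtain ⟨n₁, hn₁⟩ := h1 ϑ hϑ
    obtain ⟨n₂, hn₂⟩ := h2 ϑ hϑ
    refine ⟨max n₁ n₂, fun n hn X hX z hz1 hz2 T hT1 hTK hTa => ?_⟩
    rcases Nat.lt_or_ge K T.card with hlt | hge
    · obtain ⟨m, m1, m2, m3⟩ := hn₂ n ((le_max_right _ _).trans hn) X hX z hz1 hz2 T (by omega) hTa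
      exact ⟨m, Pat_mono (lt_min hκ₁ hκ₂) (min_le_right _ _) (by omega) m1, m2, m3⟩
    · obtain ⟨m, m1, m2, m3⟩ := hn₁ n ((le_max_left _ _).trans hn) X hX z hz1 hz2 T hT1 hge hTa
      exact ⟨m, Pat_mono (lt_min hκ₁ hκ₂) (min_le_left _ _) (by omega) m1, m2, m3⟩

/-- **Patterns at all the numbers of a sequence.** -/
theorem patterns (K : ℕ) (c : ℝ) (hc : 1 < c) :
    (∀ s : ℝ, s < 1 → ∃ κ : ℝ, 0 < κ ∧ ∀ T : ℕ → Finset ℕ,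
      (∀ n, 1 ≤ (T n).card ∧ (T n).card ≤ K ∧ Adm (T n)) →
      ∀ U : Set ℝ, IsOpen U → (U ∩ Set.Ioi 1).Nonempty →
      ENNReal.ofReal s ≤ dimH {θ : ℝ | θ ∈ U ∧ 1 < θ ∧ ∃ N : ℕ, ∀ n : ℕ, N ≤ n →
        Pat κ (T n) ⌊θ ^ (c ^ n)⌋₊}) ∧
    ∀ T : ℕ → Finset ℕ, (∀ n, 1 ≤ (T n).card ∧ (T n).card ≤ K ∧ Adm (T n)) →
      ∀ U : Set ℝ, IsOpen U → (U ∩ Set.Ioi 1).Nonempty →
      dimH {θ : ℝ | θ ∈ U ∧ 1 < θ ∧ ∃ κ : ℝ, 0 < κ ∧ ∃ N : ℕ, ∀ n : ℕ, N ≤ n →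
        Pat κ (T n) ⌊θ ^ (c ^ n)⌋₊} = 1 := by
  have hcore : ∀ a : ℝ, 0 < a → a ≤ 1 / 2 → ∃ κ : ℝ, 0 < κ ∧ ∀ T : ℕ → Finset ℕ,
      (∀ n, 1 ≤ (T n).card ∧ (T n).card ≤ K ∧ Adm (T n)) →
      ∀ ϑ : ℝ, 1 < ϑ → ∃ n₁ : ℕ, ∀ n : ℕ, n₁ ≤ n → ∀ X : ℝ, ϑ ^ (c ^ n) ≤ X → ∀ z : ℕ,
        X ≤ z → (z : ℝ) ≤ 3 * X → ∃ m, Pat κ (T n) m ∧ z < m ∧ (m : ℝ) ≤ z + X ^ a := by
    intro a ha ha1
    obtain ⟨κ, hκ, h⟩ := coreK K c hc a ha ha1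
    refine ⟨κ, hκ, fun T hT ϑ hϑ => ?_⟩
    obtain ⟨n₁, hn₁⟩ := h ϑ hϑ
    exact ⟨n₁, fun n hn X hX z hz1 hz2 => hn₁ n hn X hX z hz1 hz2 (T n) (hT n).1 (hT n).2.1 (hT n).2.2⟩
  constructor
  · exact mills (S := ℕ → Finset ℕ) c hc (fun _ T => ∀ n, 1 ≤ (T n).card ∧ (T n).card ≤ K ∧ Adm (T n))
      (fun κ T n m => Pat κ (T n) m) hcore
  · intro T hT U hU hne
    exact mills_one (S := ℕ → Finset ℕ) c hc (fun T => ∀ n, 1 ≤ (T n).card ∧ (T n).card ≤ K ∧ Adm (T n))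
      (fun κ T n m => Pat κ (T n) m) hcore T hT U hU hne

end Pool.Agent.X119.Mil
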