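import Pool.Agent.X119.Mil

set_option autoImplicit false

/-!
# Rankin's function at powers

Adapted from `Pool.Agent.X10.ML.Fr_comp` (helper10).
-/

namespace Pool.Agent.X119.Mil

open Filter

/-- `L log L log₃ L / (log₂ L) ^ 2` -/
noncomputable def Rk (L : ℝ) : ℝ :=
  L * Real.log L * Real.log (Real.log (Real.log L)) / Real.log (Real.log L) ^ 2

lemma Rk_comp (a : ℝ) (ha : 0 < a) : ∃ L₀ : ℝ, ∀ L L' : ℝ, L₀ ≤ L → a * L ≤ L' → L' ≤ L →
    a / 4 * Rk L ≤ Rk L' ∧ 0 < Rk L' := by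
  have h1 : ∀ᶠ L : ℝ in atTop, 2 * |Real.log a| ≤ Real.log L ∧ 4 ≤ Real.log (Real.log L) ∧
      4 ≤ Real.log (Real.log (Real.log L)) ∧ 1 ≤ L ∧ 4 ≤ Real.log L := by
    filter_upwards [Real.tendsto_log_atTop.eventually_ge_atTop (2 * |Real.log a|),
      (Real.tendsto_log_atTop.comp Real.tendsto_log_atTop).eventually_ge_atTop 4,
      (Real.tendsto_log_atTop.comp (Real.tendsto_log_atTop.comp
        Real.tendsto_log_atTop)).eventually_ge_atTop 4, eventually_ge_atTop 1,
      Real.tendsto_log_atTop.eventually_ge_atTop 4] with L p1 p2 p3 p4 p5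
    exact ⟨p1, p2, p3, p4, p5⟩
  obtain ⟨L₀, hL₀⟩ := eventually_atTop.1 h1
  refine ⟨L₀, fun L L' hL hL1 hL2 => ?_⟩
  obtain ⟨p1, p2, p3, p4, p5⟩ := hL₀ L hL
  have hL0 : 0 < L := by linarith
  have hL'0 : 0 < L' := lt_of_lt_of_le (by positivity) hL1
  -- the logarithms
  have q1 : Real.log L / 2 ≤ Real.log L' := by
    have e1 : Real.log (a * L) ≤ Real.log L' := Real.log_le_log (by positivity) hL1
    rw [Real.log_mul ha.ne' hL0.ne'] at e1
    have := neg_abs_le (Real.log a)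
    linarith
  have q1' : Real.log L' ≤ Real.log L := Real.log_le_log hL'0 hL2
  have hl2 : Real.log 2 ≤ 1 := by linarith [Real.log_two_lt_d9]
  have q2 : Real.log (Real.log L) / 2 ≤ Real.log (Real.log L') := by
    have e1 : Real.log (Real.log L / 2) ≤ Real.log (Real.log L') := Real.log_le_log (by linarith) q1
    rw [Real.log_div (by linarith) (by norm_num)] at e1
    linarith
  have q2' : Real.log (Real.log L') ≤ Real.log (Real.log L) := Real.log_le_log (by linarith) q1'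
  have q3 : Real.log (Real.log (Real.log L)) / 2 ≤ Real.log (Real.log (Real.log L')) := by
    have e1 : Real.log (Real.log (Real.log L) / 2) ≤ Real.log (Real.log (Real.log L')) :=
      Real.log_le_log (by linarith) q2
    rw [Real.log_div (by linarith) (by norm_num)] at e1
    linarith
  have e0 : 0 < Real.log (Real.log L') := by linarith
  have hnum : 0 < L' * Real.log L' * Real.log (Real.log (Real.log L')) := by
    have : 0 < Real.log L' := by linarith
    have : 0 < Real.log (Real.log (Real.log L')) := by linarith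
    positivity
  refine ⟨?_, by unfold Rk; positivity⟩
  unfold Rk
  have e1 : a / 4 * (L * Real.log L * Real.log (Real.log (Real.log L))) ≤
      L' * Real.log L' * Real.log (Real.log (Real.log L')) := by
    calc a / 4 * (L * Real.log L * Real.log (Real.log (Real.log L)))
        = (a * L) * (Real.log L / 2) * (Real.log (Real.log (Real.log L)) / 2) := by ring
      _ ≤ L' * Real.log L' * Real.log (Real.log (Real.log L')) := by
        have g1 : 0 ≤ Real.log L / 2 := by linarith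
        have g2 : 0 ≤ Real.log (Real.log (Real.log L)) / 2 := by linarith
        have g3 : 0 ≤ L' * Real.log L' := mul_nonneg hL'0.le (by linarith)
        gcongr
  calc a / 4 * (L * Real.log L * Real.log (Real.log (Real.log L)) / Real.log (Real.log L) ^ 2)
      = (a / 4 * (L * Real.log L * Real.log (Real.log (Real.log L)))) /
        Real.log (Real.log L) ^ 2 := by ring
    _ ≤ (L' * Real.log L' * Real.log (Real.log (Real.log L'))) / Real.log (Real.log L) ^ 2 :=
        div_le_div_of_nonneg_right e1 (by positivity)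
    _ ≤ (L' * Real.log L' * Real.log (Real.log (Real.log L'))) / Real.log (Real.log L') ^ 2 :=
        div_le_div_of_nonneg_left hnum.le (by positivity) (by gcongr)

/-- Rankin's function -/
noncomputable def rankin (x : ℝ) : ℝ :=
  Real.log x * Real.log (Real.log x) * Real.log (Real.log (Real.log (Real.log x))) /
    (Real.log (Real.log (Real.log x))) ^ 2

/-- The integer `N = ⌊X ^ a⌋` compared with `m ∈ [X, 4 X]`. -/
lemma scaleR (a : ℝ) (ha : 0 < a) (ha1 : a ≤ 1 / 2) : ∃ X₀ : ℝ, 4 ≤ X₀ ∧ ∀ X : ℝ, X₀ ≤ X → ∀ m : ℝ, X ≤ m →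
    m ≤ 4 * X → 2 ≤ ⌊X ^ a⌋₊ ∧ m ^ (a / 4) ≤ (⌊X ^ a⌋₊ : ℝ) ∧ Real.log (⌊X ^ a⌋₊ : ℝ) ≤ Real.log m ∧
    a / 4 / 4 * rankin m ≤ rankin (⌊X ^ a⌋₊ : ℝ) ∧ 0 < rankin (⌊X ^ a⌋₊ : ℝ) := by
  obtain ⟨L₀, hL₀⟩ := Rk_comp (a / 4) (by linarith)
  obtain ⟨X₁, hX₁⟩ := eventually_atTop.1 (Real.tendsto_log_atTop.eventually_ge_atTop L₀)
  obtain ⟨X₂, hX₂⟩ := eventually_atTop.1 ((tendsto_rpow_atTop (by linarith : 0 < a / 2)).eventually_ge_atTop 4)
  refine ⟨max X₁ (max X₂ 4), (le_max_right _ _).trans (le_max_right _ _), fun X hX m hm1 hm2 => ?_⟩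
  have hX4 : 4 ≤ X := ((le_max_right _ _).trans (le_max_right _ _)).trans hX
  have hX0 : 0 < X := by linarith
  have hmX : m ≤ X * X := by nlinarith
  have hlogX : 0 < Real.log X := Real.log_pos (by linarith)
  have hL : Real.log X ≤ Real.log m := Real.log_le_log hX0 hm1
  have hL2 : Real.log m ≤ 2 * Real.log X := by
    have e1 : Real.log m ≤ Real.log (X * X) := Real.log_le_log (by linarith) hmX
    rw [Real.log_mul hX0.ne' hX0.ne'] at e1
    linarith
  have h4 : 4 ≤ X ^ (a / 2) := hX₂ X (((le_max_left _ _).trans (le_max_right _ _)).trans hX)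
  have hsq : X ^ a = X ^ (a / 2) * X ^ (a / 2) := by
    rw [← Real.rpow_add hX0]
    congr 1
    ring
  have hbig : 4 * X ^ (a / 2) ≤ X ^ a := by rw [hsq]; nlinarith
  have hfl : X ^ a < (⌊X ^ a⌋₊ : ℝ) + 1 := Nat.lt_floor_add_one _
  have hfl2 : (⌊X ^ a⌋₊ : ℝ) ≤ X ^ a := Nat.floor_le (by positivity)
  have hN : X ^ (a / 2) ≤ (⌊X ^ a⌋₊ : ℝ) := by linarith
  have hN2 : 2 ≤ ⌊X ^ a⌋₊ := by
    have : (2 : ℝ) ≤ (⌊X ^ a⌋₊ : ℝ) := by linarith
    exact_mod_cast this
  have hN0 : (0 : ℝ) < (⌊X ^ a⌋₊ : ℝ) := by linarith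
  have hXa : X ^ a ≤ X := by
    have := Real.rpow_le_rpow_of_exponent_le (by linarith : 1 ≤ X) (by linarith : a ≤ 1)
    simpa using this
  have hla : Real.log (X ^ (a / 2)) = a / 2 * Real.log X := Real.log_rpow hX0 _
  have h1 : a / 4 * Real.log m ≤ Real.log (⌊X ^ a⌋₊ : ℝ) := by
    have e1 : Real.log (X ^ (a / 2)) ≤ Real.log (⌊X ^ a⌋₊ : ℝ) := Real.log_le_log (by positivity) hN
    rw [hla] at e1
    nlinarith
  have h2 : Real.log (⌊X ^ a⌋₊ : ℝ) ≤ Real.log m := Real.log_le_log hN0 (by linarith)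
  have h3 := hL₀ (Real.log m) (Real.log (⌊X ^ a⌋₊ : ℝ))
    ((hX₁ X ((le_max_left _ _).trans hX)).trans hL) h1 h2
  refine ⟨hN2, ?_, h2, h3.1, h3.2⟩
  have hm0 : 0 < m := by linarith
  rw [← Real.log_le_log_iff (by positivity) hN0, Real.log_rpow hm0]
  exact h1

end Pool.Agent.X119.Mil
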