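import Pool.Agent.X119.MilTrC

set_option autoImplicit false

/-!
# Mills-type sequences avoiding relations with few exceptions up to `X`
-/

namespace Pool.Agent.X119.Mil

open Finset Filter

lemma log_pow_le (m : ℕ) (ε : ℝ) (hε : 0 < ε) : ∃ C : ℝ, 0 < C ∧ ∀ x : ℝ, 1 ≤ x → ∀ s : ℝ, 0 ≤ s → s ≤ Real.log x →
    (s + 1) ^ m ≤ C * x ^ ε := by
  have hm1 : (0 : ℝ) < (m : ℝ) + 1 := by positivity
  set δ : ℝ := ε / ((m : ℝ) + 1) with hδ
  have hδ0 : 0 < δ := by positivity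
  refine ⟨(1 / δ + 1) ^ m, by positivity, fun x hx s hs0 hs => ?_⟩
  have hxp : 0 < x := by linarith
  have e1 := Real.log_le_rpow_div hxp.le hδ0
  have e2 : (1 : ℝ) ≤ x ^ δ := Real.one_le_rpow hx hδ0.le
  have e3 : x ^ δ / δ = 1 / δ * x ^ δ := by ring
  rw [e3] at e1
  have e4 : s + 1 ≤ (1 / δ + 1) * x ^ δ := by linarith
  calc (s + 1) ^ m ≤ ((1 / δ + 1) * x ^ δ) ^ m := pow_le_pow_left₀ (by linarith) e4 m
    _ = (1 / δ + 1) ^ m * x ^ (δ * m) := by rw [mul_pow, ← Real.rpow_mul_natCast hxp.le]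
    _ ≤ (1 / δ + 1) ^ m * x ^ ε := by
      refine mul_le_mul_of_nonneg_left (Real.rpow_le_rpow_of_exponent_le hx ?_) (by positivity)
      have : δ * m ≤ δ * ((m : ℝ) + 1) := mul_le_mul_of_nonneg_left (by linarith) hδ0.le
      rw [hδ, div_mul_cancel₀ _ hm1.ne'] at this
      exact this

/-- **Mills-type sequences without bad relations, from bounds for the number of exceptions up to `X`.** -/
theorem mills_sparse (c γ : ℝ) (hc : 1 < c) (hγ : 1 < c * γ) (m : ℕ) (A : ℕ → Prop) (R : ℕ → Finset ℕ → ℕ → Prop)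
    (hA : ∀ η : ℝ, 0 < η → ∃ x₀ : ℝ, ∀ x : ℕ, x₀ ≤ x → ∃ T : Finset ℕ,
      (∀ y ∈ T, A y ∧ (x : ℝ) ^ c ≤ y ∧ (y : ℝ) ≤ (x : ℝ) ^ c + (x : ℝ) ^ (c - 1)) ∧
      (x : ℝ) ^ (c - 1 - η) ≤ T.card)
    (hR : ∀ i : ℕ, ∃ C X₀ : ℝ, 0 ≤ C ∧ ∀ X : ℝ, X₀ ≤ X → ∀ S' : Finset ℕ, S'.card ≤ m → ∀ T : Finset ℕ,
      (∀ y ∈ T, A y ∧ X ≤ y ∧ (y : ℝ) ≤ 2 * X ∧ R i S' y) → (T.card : ℝ) ≤ C * X ^ (1 - γ))
    (U : Set ℝ) (hU : IsOpen U) (hne : (U ∩ Set.Ioi 1).Nonempty) :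
    dimH {θ : ℝ | θ ∈ U ∧ 1 < θ ∧ ∃ N₀ : ℕ, (∀ n : ℕ, N₀ ≤ n → A ⌊θ ^ (c ^ n)⌋₊) ∧ ∀ i : ℕ, ∃ N : ℕ, N₀ ≤ N ∧
      ∀ n : ℕ, N ≤ n → ∀ S' : Finset ℕ, S' ⊆ ((Finset.Ico N₀ n).image fun k => ⌊θ ^ (c ^ k)⌋₊) → S'.card ≤ m →
      ¬ R i S' ⌊θ ^ (c ^ n)⌋₊} = 1 := by
  classical
  have hc0 : 0 < c := by linarith
  choose C X₀ hC0 hC using hR
  have key := mills_hist c hc (fun j S y => A y ∧ ∀ i : ℕ, i ≤ j → ∀ S' : Finset ℕ, S' ⊆ S → S'.card ≤ m → ¬ R i S' y)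
    (fun j S y h => ⟨h.1, fun i hi => h.2 i (by omega)⟩)
    (fun j S S' y hSS h => ⟨h.1, fun i hi S'' h1 h2 => h.2 i hi S'' (h1.trans hSS) h2⟩) (by
      intro j η hη
      obtain ⟨ε, hε⟩ : ∃ ε, ε = c * γ - 1 := ⟨_, rfl⟩
      have hε0 : 0 < ε := by linarith
      obtain ⟨K, hK0, hK⟩ := log_pow_le m (ε / 2) (by positivity)
      obtain ⟨B, hB⟩ : ∃ B : ℝ, B = (∑ i ∈ range (j + 1), C i) * (((m : ℝ) + 1) * K) := ⟨_, rfl⟩
      have hB0 : 0 ≤ B := by
        rw [hB]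
        exact mul_nonneg (sum_nonneg fun i _ => hC0 i) (by positivity)
      obtain ⟨η', hη'⟩ : ∃ η', η' = min (η / 2) (ε / 4) := ⟨_, rfl⟩
      have hη'0 : 0 < η' := by rw [hη']; exact lt_min (by positivity) (by positivity)
      obtain ⟨x₂, h2⟩ := hA η' hη'0
      have ev : ∀ᶠ X : ℝ in atTop, 2 ≤ X ^ (η / 2) ∧ 2 * B ≤ X ^ (ε / 4) ∧
          ∀ i ∈ range (j + 1), X₀ i ≤ X ^ c := by
        have t1 := (tendsto_rpow_atTop (by positivity : 0 < η / 2)).eventually_ge_atTop 2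
        have t2 := (tendsto_rpow_atTop (by positivity : 0 < ε / 4)).eventually_ge_atTop (2 * B)
        have t3 : ∀ᶠ X : ℝ in atTop, ∀ i ∈ range (j + 1), X₀ i ≤ X ^ c :=
          (eventually_all_finset _).2 fun i _ => (tendsto_rpow_atTop hc0).eventually_ge_atTop (X₀ i)
        filter_upwards [t1, t2, t3] with X a1 a2 a3
        exact ⟨a1, a2, a3⟩
      obtain ⟨x₃, h3⟩ := eventually_atTop.1 (ev.and (eventually_ge_atTop (1 : ℝ)))
      refine ⟨max x₂ x₃, fun x hx S hS => ?_⟩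
      obtain ⟨T, hT1, hT2⟩ := h2 x ((le_max_left _ _).trans hx)
      obtain ⟨⟨h4, h5, h6⟩, hx1⟩ := h3 x ((le_max_right _ _).trans hx)
      have hxp : (0 : ℝ) < x := by linarith
      set F : Finset (Finset ℕ) := (range (m + 1)).biUnion fun i => S.powersetCard i with hF
      set Bd : Finset ℕ := (range (j + 1)).biUnion fun i => F.biUnion fun S' => T.filter fun y => R i S' y with hBd
      have hFmem : ∀ S' : Finset ℕ, S' ⊆ S → S'.card ≤ m → S' ∈ F := by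
        intro S' h7 h8
        rw [hF, mem_biUnion]
        exact ⟨S'.card, mem_range.2 (by omega), mem_powersetCard.2 ⟨h7, rfl⟩⟩
      have hFcard : ∀ S' ∈ F, S'.card ≤ m := by
        intro S' h7
        rw [hF, mem_biUnion] at h7
        obtain ⟨i, hi, h8⟩ := h7
        rw [mem_range] at hi
        rw [(mem_powersetCard.1 h8).2]
        omega
      refine ⟨T \ Bd, fun y hy => ?_, ?_⟩
      · rw [Finset.mem_sdiff] at hy
        obtain ⟨a1, a2, a3⟩ := hT1 y hy.1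
        refine ⟨⟨a1, fun i hi S' h7 h8 h9 => hy.2 ?_⟩, a2, a3⟩
        rw [hBd, mem_biUnion]
        refine ⟨i, mem_range.2 (by omega), mem_biUnion.2 ⟨S', hFmem S' h7 h8, mem_filter.2 ⟨hy.1, h9⟩⟩⟩
      · -- the number of the bad numbers
        have e0 : (x : ℝ) ^ (c - 1) ≤ (x : ℝ) ^ c := Real.rpow_le_rpow_of_exponent_le hx1 (by linarith)
        have e1 : ∀ i ∈ range (j + 1), ∀ S' ∈ F, ((T.filter fun y => R i S' y).card : ℝ) ≤
            C i * (x : ℝ) ^ (c - 1 - ε) := by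
          intro i hi S' hS'
          have := hC i ((x : ℝ) ^ c) (h6 i hi) S' (hFcard S' hS') (T.filter fun y => R i S' y) (by
            intro y hy
            rw [mem_filter] at hy
            obtain ⟨a1, a2, a3⟩ := hT1 y hy.1
            exact ⟨a1, a2, by linarith, hy.2⟩)
          rwa [← Real.rpow_mul hxp.le, show c * (1 - γ) = c - 1 - ε by rw [hε]; ring] at this
        have e2 : (Bd.card : ℝ) ≤ B * ((x : ℝ) ^ (ε / 2) * (x : ℝ) ^ (c - 1 - ε)) := by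
          have f1 : (Bd.card : ℝ) ≤ ∑ i ∈ range (j + 1), ∑ S' ∈ F, ((T.filter fun y => R i S' y).card : ℝ) := by
            have : Bd.card ≤ ∑ i ∈ range (j + 1), ∑ S' ∈ F, (T.filter fun y => R i S' y).card :=
              card_biUnion_le.trans (sum_le_sum fun i _ => card_biUnion_le)
            exact_mod_cast this
          have f2 : ∑ i ∈ range (j + 1), ∑ S' ∈ F, ((T.filter fun y => R i S' y).card : ℝ) ≤
              ∑ i ∈ range (j + 1), (F.card : ℝ) * (C i * (x : ℝ) ^ (c - 1 - ε)) := by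
            refine sum_le_sum fun i hi => ?_
            rw [← nsmul_eq_mul]
            exact sum_le_card_nsmul _ _ _ fun S' hS' => e1 i hi S' hS'
          have f3 : (F.card : ℝ) ≤ ((m : ℝ) + 1) * (K * (x : ℝ) ^ (ε / 2)) := by
            refine (subsets_card S m).trans (mul_le_mul_of_nonneg_left ?_ (by positivity))
            exact hK x hx1 _ (Nat.cast_nonneg _) hS
          refine f1.trans (f2.trans ?_)
          rw [← mul_sum, ← sum_mul, hB]
          have f4 : 0 ≤ (∑ i ∈ range (j + 1), C i) * (x : ℝ) ^ (c - 1 - ε) :=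
            mul_nonneg (sum_nonneg fun i _ => hC0 i) (by positivity)
          calc (F.card : ℝ) * ((∑ i ∈ range (j + 1), C i) * (x : ℝ) ^ (c - 1 - ε)) ≤
              (((m : ℝ) + 1) * (K * (x : ℝ) ^ (ε / 2))) * ((∑ i ∈ range (j + 1), C i) * (x : ℝ) ^ (c - 1 - ε)) :=
                mul_le_mul_of_nonneg_right f3 f4
            _ = _ := by ring
        have e3 : (Bd.card : ℝ) ≤ 1 / 2 * (x : ℝ) ^ (c - 1 - ε / 4) := by
          have g1 : (x : ℝ) ^ (c - 1 - ε / 4) = (x : ℝ) ^ (ε / 4) * ((x : ℝ) ^ (ε / 2) * (x : ℝ) ^ (c - 1 - ε)) := by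
            rw [← Real.rpow_add hxp, ← Real.rpow_add hxp]; congr 1; ring
          rw [g1]
          have g2 : 0 ≤ (x : ℝ) ^ (ε / 2) * (x : ℝ) ^ (c - 1 - ε) := by positivity
          nlinarith
        have e4 : (T.card : ℝ) - Bd.card ≤ (T \ Bd).card := by
          have := Finset.le_card_sdiff Bd T
          have e : T.card ≤ (T \ Bd).card + Bd.card := by omega
          have e' : (T.card : ℝ) ≤ (T \ Bd).card + Bd.card := by exact_mod_cast e
          linarith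
        have e5 : (x : ℝ) ^ (c - 1 - ε / 4) ≤ (x : ℝ) ^ (c - 1 - η') :=
          Real.rpow_le_rpow_of_exponent_le hx1 (by rw [hη']; linarith [min_le_right (η / 2) (ε / 4)])
        have e6 : (x : ℝ) ^ (c - 1 - η / 2) ≤ (x : ℝ) ^ (c - 1 - η') :=
          Real.rpow_le_rpow_of_exponent_le hx1 (by rw [hη']; linarith [min_le_left (η / 2) (ε / 4)])
        have e7 : (x : ℝ) ^ (c - 1 - η / 2) = (x : ℝ) ^ (η / 2) * (x : ℝ) ^ (c - 1 - η) := by
          rw [← Real.rpow_add hxp]; congr 1; ring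
        have e8 : 0 < (x : ℝ) ^ (c - 1 - η) := by positivity
        nlinarith) U hU hne
  rw [← key]
  congr 1
  ext θ
  simp only [Set.mem_ofPred_eq]
  constructor
  · rintro ⟨h1, h2, N₀, h3, h4⟩
    refine ⟨h1, h2, N₀, fun j => ?_⟩
    choose N hN h5 using h4
    refine ⟨(range (j + 1)).sup N + N₀, by omega, fun n hn => ⟨h3 n (by omega), fun i hi S' h6 h7 => ?_⟩⟩
    have h8 : N i ≤ (range (j + 1)).sup N := le_sup (f := N) (mem_range.2 (by omega))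
    exact h5 i n (by omega) S' h6 h7
  · rintro ⟨h1, h2, N₀, h3⟩
    obtain ⟨N₁, hN₁, h4⟩ := h3 0
    refine ⟨h1, h2, N₁, fun n hn => (h4 n hn).1, fun i => ?_⟩
    obtain ⟨N, hN, h5⟩ := h3 i
    refine ⟨max N N₁, le_max_right _ _, fun n hn S' h6 h7 => (h5 n (by omega)).2 i le_rfl S' (h6.trans ?_) h7⟩
    exact image_subset_image (Ico_subset_Ico hN₁ le_rfl)

end Pool.Agent.X119.Mil
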