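import Mathlib

set_option autoImplicit false

/-!
# Bounded degree independence, one number at a time
-/

namespace Pool.Agent.X119.MilTr

open Module

/-- the elements of the `j`-th power of the space spanned by `1` and `Z` are values of polynomials of degree `≤ j` -/
lemma pow_repr {K : Type*} [Field K] [Algebra K ℂ] (Z : Finset ℂ) (j : ℕ) :
    (Submodule.span K (insert 1 (Z : Set ℂ))) ^ j ≤
      (MvPolynomial.restrictTotalDegree Z K j).map
        (MvPolynomial.aeval (fun z : Z => (z : ℂ)) : MvPolynomial Z K →ₐ[K] ℂ).toLinearMap := by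
  have h1 : Submodule.span K (insert 1 (Z : Set ℂ)) ≤
      (MvPolynomial.restrictTotalDegree Z K 1).map
        (MvPolynomial.aeval (fun z : Z => (z : ℂ)) : MvPolynomial Z K →ₐ[K] ℂ).toLinearMap := by
    rw [Submodule.span_le]
    intro x hx
    rcases hx with rfl | hx
    · refine ⟨1, ?_, by simp⟩
      rw [SetLike.mem_coe, MvPolynomial.mem_restrictTotalDegree, MvPolynomial.totalDegree_one]
      omega
    · refine ⟨MvPolynomial.X ⟨x, hx⟩, ?_, by simp⟩
      rw [SetLike.mem_coe, MvPolynomial.mem_restrictTotalDegree]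
      exact (MvPolynomial.totalDegree_X _).le
  induction j with
  | zero =>
    intro x hx
    rw [pow_zero, Submodule.mem_one] at hx
    obtain ⟨a, rfl⟩ := hx
    refine ⟨MvPolynomial.C a, ?_, by simp⟩
    rw [SetLike.mem_coe, MvPolynomial.mem_restrictTotalDegree, MvPolynomial.totalDegree_C]
  | succ j ih =>
    rw [pow_succ]
    refine Submodule.mul_le.2 fun m hm n hn => ?_
    obtain ⟨p, hp, rfl⟩ := ih hm
    obtain ⟨r, hr, rfl⟩ := h1 hn
    rw [SetLike.mem_coe, MvPolynomial.mem_restrictTotalDegree] at hp hr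
    refine ⟨p * r, ?_, by simp⟩
    rw [SetLike.mem_coe, MvPolynomial.mem_restrictTotalDegree]
    exact (MvPolynomial.totalDegree_mul _ _).trans (by omega)

/-- `y` is a root of a nonzero polynomial of degree at most `j` whose coefficients are polynomials of degree at most `j`
in the elements of `Z` over a number field of degree at most `j` -/
def Root (j : ℕ) (Z : Finset ℂ) (y : ℂ) : Prop :=
  ∃ K : IntermediateField ℚ ℂ, FiniteDimensional ℚ K ∧ finrank ℚ K ≤ j ∧ ∃ f : Polynomial ℂ, f ≠ 0 ∧
    f.natDegree ≤ j ∧ (∀ i, f.coeff i ∈ (Submodule.span K (insert 1 (Z : Set ℂ))) ^ j) ∧ f.eval y = 0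

lemma pow_mono {K : Type*} [Field K] [Algebra K ℂ] {Z Z' : Set ℂ} (h : Z ⊆ Z') {i j : ℕ} (hij : i ≤ j) :
    (Submodule.span K (insert 1 Z)) ^ i ≤ (Submodule.span K (insert 1 Z')) ^ j := by
  have h1 : (1 : Submodule K ℂ) ≤ Submodule.span K (insert 1 Z') := by
    rw [Submodule.one_le]
    exact Submodule.subset_span (Set.mem_insert _ _)
  calc (Submodule.span K (insert 1 Z)) ^ i ≤ (Submodule.span K (insert 1 Z')) ^ i :=
        pow_le_pow_left' (Submodule.span_mono (Set.insert_subset_insert h)) i
    _ ≤ (Submodule.span K (insert 1 Z')) ^ j := pow_le_pow_right' h1 hij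

lemma Root.mono {j j' : ℕ} {Z Z' : Finset ℂ} {y : ℂ} (hj : j ≤ j') (hZ : Z ⊆ Z') (h : Root j Z y) : Root j' Z' y := by
  obtain ⟨K, h1, h2, f, h3, h4, h5, h6⟩ := h
  exact ⟨K, h1, h2.trans hj, f, h3, h4.trans hj,
    fun i => pow_mono (by exact_mod_cast hZ) hj (h5 i), h6⟩

/-- the conclusion of the window theorem -/
def Win : Prop := ∀ j : ℕ, ∃ E : ℕ, ∀ H t : ℕ, (H + 2) ^ E ≤ t → ∀ Z : Finset ℂ, Z.card ≤ j → ∃ B : Finset ℕ,
  B.card ≤ j + 1 ∧ ∀ y : ℕ, t < y → y ≤ t + H → y ∉ B → ¬ Root j Z ((Real.log y : ℝ) : ℂ)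

/-- from numbers which are added one after the other to all together -/
lemma all_together (q D m : ℕ) (w : ℕ → ℂ) (l : ℕ → ℂ) (N : ℕ)
    (h : ∀ n, N ≤ n → ∀ Z : Finset ℂ, Z.card ≤ q + m + D + 1 →
      (∀ z ∈ Z, (∃ i, i < q + m + D + 1 ∧ z = w i) ∨ ∃ k, N ≤ k ∧ k < n ∧ z = l k) → ¬ Root (q + m + D + 1) Z (l n))
    (K : IntermediateField ℚ ℂ) (hK : FiniteDimensional ℚ K) (hKD : finrank ℚ K ≤ D) (r : ℕ) (hr : r ≤ m)
    (k : Fin r → ℕ) (hk : StrictAnti k) (hkN : ∀ i, N ≤ k i) (P : MvPolynomial (Fin r) ℂ) (hP0 : P ≠ 0)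
    (hPD : P.totalDegree ≤ D) (hPc : ∀ s, P.coeff s ∈ Submodule.span K (w '' Set.Iio q)) :
    MvPolynomial.eval (fun i => l (k i)) P ≠ 0 := by
  classical
  induction r with
  | zero =>
    intro h0
    apply hP0
    have e := MvPolynomial.eq_C_of_isEmpty P
    rw [e, MvPolynomial.eval_C] at h0
    rw [e, h0, map_zero]
  | succ r ih =>
    set F := MvPolynomial.finSuccEquiv ℂ r P with hF
    have hF0 : F ≠ 0 := by
      rw [hF]
      intro h0
      exact hP0 ((MvPolynomial.finSuccEquiv ℂ r).injective (by rw [h0, map_zero]))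
    obtain ⟨i₀, hi₀⟩ : ∃ i, F.coeff i ≠ 0 := by
      by_contra hcon
      push Not at hcon
      exact hF0 (Polynomial.ext fun i => by rw [hcon i, Polynomial.coeff_zero])
    have hdeg : ∀ i, (F.coeff i).totalDegree ≤ D := by
      intro i
      by_cases hi : F.coeff i = 0
      · rw [hi, MvPolynomial.totalDegree_zero]; omega
      · have := MvPolynomial.totalDegree_coeff_finSuccEquiv_add_le P i hi
        rw [← hF] at this
        omega
    have hcoef : ∀ i s, (F.coeff i).coeff s ∈ Submodule.span K (w '' Set.Iio q) := by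
      intro i s
      rw [hF, MvPolynomial.finSuccEquiv_coeff_coeff]
      exact hPc _
    set k' : Fin r → ℕ := fun i => k i.succ with hk'
    have hk'a : StrictAnti k' := fun a b hab => hk (Fin.succ_lt_succ_iff.2 hab)
    have h1 : MvPolynomial.eval (fun i => l (k' i)) (F.coeff i₀) ≠ 0 :=
      ih (by omega) k' hk'a (fun i => hkN _) (F.coeff i₀) hi₀ (hdeg i₀) (hcoef i₀)
    set f : Polynomial ℂ := F.map (MvPolynomial.eval (fun i => l (k' i))) with hf
    have hf0 : f ≠ 0 := by
      intro h0
      apply h1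
      have : f.coeff i₀ = 0 := by rw [h0, Polynomial.coeff_zero]
      rwa [hf, Polynomial.coeff_map] at this
    have hfd : f.natDegree ≤ D := by
      rw [hf]
      refine (Polynomial.natDegree_map_le).trans ?_
      rw [hF, MvPolynomial.natDegree_finSuccEquiv]
      exact (MvPolynomial.degreeOf_le_totalDegree P 0).trans hPD
    -- the constants
    set Z : Finset ℂ := ((Finset.range q).image w) ∪ (Finset.univ.image fun i => l (k' i)) with hZ
    have hZc : Z.card ≤ q + m + D + 1 := by
      have e1 := Finset.card_union_le ((Finset.range q).image w) (Finset.univ.image fun i => l (k' i))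
      have e2 := Finset.card_image_le (s := Finset.range q) (f := w)
      have e3 := Finset.card_image_le (s := (Finset.univ : Finset (Fin r))) (f := fun i => l (k' i))
      rw [Finset.card_range] at e2
      rw [Finset.card_univ, Fintype.card_fin] at e3
      rw [hZ]
      omega
    have hZm : ∀ z ∈ Z, (∃ i, i < q + m + D + 1 ∧ z = w i) ∨ ∃ p, N ≤ p ∧ p < k 0 ∧ z = l p := by
      intro z hz
      rw [hZ, Finset.mem_union, Finset.mem_image, Finset.mem_image] at hz
      rcases hz with ⟨i, hi, rfl⟩ | ⟨i, -, rfl⟩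
      · exact Or.inl ⟨i, by rw [Finset.mem_range] at hi; omega, rfl⟩
      · exact Or.inr ⟨k' i, hkN _, hk (Fin.succ_pos i), rfl⟩
    have hfc : ∀ i, f.coeff i ∈ (Submodule.span K (insert 1 (Z : Set ℂ))) ^ (q + m + D + 1) := by
      intro i
      rw [hf, Polynomial.coeff_map, MvPolynomial.eval_eq']
      refine Submodule.sum_mem _ fun s hs => ?_
      have e1 : (F.coeff i).coeff s ∈ (Submodule.span K (insert 1 (Z : Set ℂ))) ^ 1 := by
        rw [pow_one]
        refine Submodule.span_mono ?_ (hcoef i s)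
        rintro _ ⟨a, ha, rfl⟩
        refine Set.mem_insert_of_mem _ ?_
        rw [Finset.mem_coe, hZ, Finset.mem_union, Finset.mem_image]
        exact Or.inl ⟨a, Finset.mem_range.2 ha, rfl⟩
      have e2 : ∏ a, l (k' a) ^ s a ∈ (Submodule.span K (insert 1 (Z : Set ℂ))) ^ (∑ a, s a) := by
        have key : ∀ A : Finset (Fin r), ∏ a ∈ A, l (k' a) ^ s a ∈
            (Submodule.span K (insert 1 (Z : Set ℂ))) ^ (∑ a ∈ A, s a) := by
          intro A
          induction A using Finset.induction_on with
          | empty =>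
            rw [Finset.prod_empty, Finset.sum_empty, pow_zero]
            exact Submodule.one_le.1 le_rfl
          | insert a A ha ihA =>
            rw [Finset.prod_insert ha, Finset.sum_insert ha, pow_add]
            refine Submodule.mul_mem_mul (Submodule.pow_mem_pow _ (Submodule.subset_span
              (Set.mem_insert_of_mem _ ?_)) _) ihA
            rw [Finset.mem_coe, hZ, Finset.mem_union, Finset.mem_image, Finset.mem_image]
            exact Or.inr ⟨a, Finset.mem_univ _, rfl⟩
        exact key _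
      have e3 : ∑ a, s a ≤ D := by
        refine le_trans ?_ (hdeg i)
        have := MvPolynomial.le_totalDegree hs
        rwa [Finsupp.sum_fintype _ _ (fun _ => rfl)] at this
      have e4 := Submodule.mul_mem_mul e1 e2
      rw [← pow_add] at e4
      exact pow_mono (Set.Subset.refl _) (by omega) e4
    have h2 : MvPolynomial.eval (fun i => l (k i)) P = f.eval (l (k 0)) := by
      have e : (fun i => l (k i)) = Fin.cons (l (k 0)) (fun i => l (k' i)) := by
        funext i
        refine Fin.cases ?_ (fun i => ?_) i <;> simp [hk']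
      rw [e, MvPolynomial.eval_eq_eval_mv_eval']
    intro h0
    rw [h2] at h0
    exact h (k 0) (hkN 0) Z hZc hZm ⟨K, hK, by omega, f, hf0, by omega, hfc, h0⟩

end Pool.Agent.X119.MilTr
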