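import Pool.Agent.X119.MilTrD

set_option autoImplicit false

/-!
# Several values for each number of the sequence
-/

namespace Pool.Agent.X119.MilTr

open Module Pool.Agent.X119.Mil

/-- from numbers which are added one after the other to all together -/
lemma free_of_steps (w : ℕ → ℂ) (l : ℕ → ℂ)
    (h : ∀ J : ℕ, ∃ N : ℕ, ∀ n, N ≤ n → ∀ Z : Finset ℂ, Z.card ≤ J →
      (∀ z ∈ Z, (∃ i, i < J ∧ z = w i) ∨ ∃ k, N ≤ k ∧ k < n ∧ z = l k) → ¬ Root J Z (l n)) : Free w l := by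
  classical
  intro q m D
  obtain ⟨N, h1⟩ := h (q + m + D + 1)
  refine ⟨N, fun K hK hKD k hk hkN P hP hPD hPc => ?_⟩
  set σ : Equiv.Perm (Fin m) := Tuple.sort (fun i => OrderDual.toDual (k i)) with hσ
  have hσm : Monotone ((fun i => OrderDual.toDual (k i)) ∘ σ) := Tuple.monotone_sort _
  have hanti : StrictAnti fun i => k (σ i) := by
    intro a b hab
    have h2 : k (σ b) ≤ k (σ a) := hσm hab.le
    refine lt_of_le_of_ne h2 fun h3 => ?_
    exact hab.ne' (σ.injective (hk h3))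
  set P' : MvPolynomial (Fin m) ℂ := MvPolynomial.rename σ.symm P with hP'
  have key := all_together q D m w l N h1
    K hK hKD m le_rfl (fun i => k (σ i)) hanti (fun i => hkN _) P' (by
      intro h0
      exact hP ((MvPolynomial.rename_injective _ σ.symm.injective) (by rw [map_zero]; exact h0)))
    ((MvPolynomial.totalDegree_rename_le _ _).trans hPD) (by
      intro s
      have e : s = Finsupp.mapDomain σ.symm (Finsupp.mapDomain σ s) := by
        rw [← Finsupp.mapDomain_comp]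
        simp
      rw [e, hP', MvPolynomial.coeff_rename_mapDomain _ σ.symm.injective]
      exact hPc _)
  rw [hP', MvPolynomial.eval_rename] at key
  have e : (fun i => l (k (σ i))) ∘ σ.symm = fun i => l (k i) := by
    funext i
    simp
  rw [e] at key
  exact key

variable {κ : ℕ}

/-- all the values in one sequence -/
def flat (hκ : 0 < κ) (X : ℕ → Fin κ → ℂ) (n : ℕ) : ℂ := X (n / κ) ⟨n % κ, Nat.mod_lt _ hκ⟩

lemma flat_apply (hκ : 0 < κ) (X : ℕ → Fin κ → ℂ) (n : ℕ) (a : Fin κ) : flat hκ X (κ * n + a) = X n a := by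
  unfold flat
  have h1 : (κ * n + a) / κ = n := by
    rw [Nat.mul_add_div hκ, Nat.div_eq_of_lt a.2, add_zero]
  have h2 : (κ * n + a) % κ = a := by
    rw [Nat.mul_add_mod, Nat.mod_eq_of_lt a.2]
  have h3 : (⟨(κ * n + a) % κ, Nat.mod_lt _ hκ⟩ : Fin κ) = a := Fin.ext h2
  rw [h3, h1]

/-- no relations of bounded degree between a bounded number of the tuples `X k`, `k` large -/
def FreeK (w : ℕ → ℂ) (X : ℕ → Fin κ → ℂ) : Prop :=
  ∀ q m D : ℕ, ∃ N : ℕ, ∀ K : IntermediateField ℚ ℂ, FiniteDimensional ℚ K → finrank ℚ K ≤ D →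
    ∀ k : Fin m → ℕ, Function.Injective k → (∀ i, N ≤ k i) →
    ∀ P : MvPolynomial (Fin m × Fin κ) ℂ, P ≠ 0 → P.totalDegree ≤ D →
      (∀ s, P.coeff s ∈ Submodule.span K (w '' Set.Iio q)) → MvPolynomial.eval (fun x => X (k x.1) x.2) P ≠ 0

lemma freeK_of_flat (hκ : 0 < κ) (w : ℕ → ℂ) (X : ℕ → Fin κ → ℂ) (h : Free w (flat hκ X)) : FreeK w X := by
  classical
  intro q m D
  obtain ⟨N, hN⟩ := h q (m * κ) D
  refine ⟨N, fun K hK hKD k hk hkN P hP hPD hPc => ?_⟩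
  set e : Fin m × Fin κ ≃ Fin (m * κ) := finProdFinEquiv with he
  have key := hN K hK hKD (fun i => κ * k (e.symm i).1 + (e.symm i).2) (by
      intro i i' hii
      have hii' : κ * k (e.symm i).1 + (e.symm i).2 = κ * k (e.symm i').1 + (e.symm i').2 := hii
      have h1 : k (e.symm i).1 = k (e.symm i').1 := by
        have e1 := congrArg (· / κ) hii'
        simp only [Nat.mul_add_div hκ, Nat.div_eq_of_lt (Fin.is_lt _), add_zero] at e1
        exact e1
      have h2 : (e.symm i).2 = (e.symm i').2 := by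
        have e1 := congrArg (· % κ) hii'
        simp only [Nat.mul_add_mod, Nat.mod_eq_of_lt (Fin.is_lt _)] at e1
        exact Fin.ext e1
      have h3 : (e.symm i).1 = (e.symm i').1 := hk h1
      exact e.symm.injective (Prod.ext h3 h2))
    (fun i => (hkN _).trans ((Nat.le_mul_of_pos_left _ hκ).trans (Nat.le_add_right _ _)))
    (MvPolynomial.rename e P) (by
      intro h0
      exact hP ((MvPolynomial.rename_injective _ e.injective) (by rw [map_zero]; exact h0)))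
    ((MvPolynomial.totalDegree_rename_le _ _).trans hPD) (by
      intro s
      have e1 : s = Finsupp.mapDomain e (Finsupp.mapDomain e.symm s) := by
        rw [← Finsupp.mapDomain_comp]
        simp
      rw [e1, MvPolynomial.coeff_rename_mapDomain _ e.injective]
      exact hPc _)
  rw [MvPolynomial.eval_rename] at key
  have e2 : (fun i => flat hκ X (κ * k (e.symm i).1 + (e.symm i).2)) ∘ e = fun x => X (k x.1) x.2 := by
    funext x
    rw [Function.comp_apply, Equiv.symm_apply_apply, flat_apply]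
  rw [e2] at key
  exact key

/-- the given numbers and the values at the numbers of `S'` -/
noncomputable def Zof (w : ℕ → ℂ) (x : ℕ → Fin κ → ℂ) (j : ℕ) (S' : Finset ℕ) : Finset ℂ :=
  (Finset.range j).image w ∪ S'.biUnion fun s => Finset.univ.image (x s)

lemma Zof_card (w : ℕ → ℂ) (x : ℕ → Fin κ → ℂ) (j : ℕ) (S' : Finset ℕ) (hS : S'.card ≤ j) :
    (Zof w x j S').card ≤ j + j * κ := by
  classical
  unfold Zof
  refine (Finset.card_union_le _ _).trans (Nat.add_le_add ?_ ?_)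
  · exact Finset.card_image_le.trans (by rw [Finset.card_range])
  · refine (Finset.card_biUnion_le_card_mul _ _ κ fun s _ => ?_).trans (Nat.mul_le_mul_right _ hS)
    exact Finset.card_image_le.trans (by rw [Finset.card_univ, Fintype.card_fin])

/-- a bad relation of the values at `y` to the values at the numbers of `S'` -/
def RelK (w : ℕ → ℂ) (x : ℕ → Fin κ → ℂ) (j : ℕ) (S' : Finset ℕ) (y : ℕ) : Prop :=
  ∃ a : Fin κ, Root j (Zof w x j S' ∪ (Finset.univ.filter (· < a)).image (x y)) (x y a)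

lemma RelK.mono (w : ℕ → ℂ) (x : ℕ → Fin κ → ℂ) (j : ℕ) (S' : Finset ℕ) (y : ℕ) (h : RelK w x j S' y) :
    RelK w x (j + 1) S' y := by
  obtain ⟨a, h⟩ := h
  refine ⟨a, Root.mono (by omega) (Finset.union_subset_union_left ?_) h⟩
  exact Finset.union_subset_union_left (Finset.image_subset_image (Finset.range_subset_range.2 (by omega)))

/-- the statement about windows -/
def WinK (x : ℕ → Fin κ → ℂ) : Prop := ∀ j : ℕ, ∃ E B : ℕ, ∀ H t : ℕ, (H + 2) ^ E ≤ t → ∀ Z : Finset ℂ,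
  Z.card ≤ j → ∃ Bd : Finset ℕ, Bd.card ≤ B ∧ ∀ y : ℕ, t < y → y ≤ t + H → y ∉ Bd →
    ∀ a : Fin κ, ¬ Root j (Z ∪ (Finset.univ.filter (· < a)).image (x y)) (x y a)

lemma RelK.win (w : ℕ → ℂ) (x : ℕ → Fin κ → ℂ) (hW : WinK x) (j : ℕ) : ∃ E B : ℕ, ∀ H t : ℕ, (H + 2) ^ E ≤ t →
    ∀ S' : Finset ℕ, S'.card ≤ j → ∃ Bd : Finset ℕ, Bd.card ≤ B ∧ ∀ y : ℕ, t < y → y ≤ t + H → y ∉ Bd →
      ¬ RelK w x j S' y := by
  obtain ⟨E, B, hE⟩ := hW (j + j * κ)
  refine ⟨E, B, fun H t ht S' hS' => ?_⟩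
  obtain ⟨Bd, h1, h2⟩ := hE H t ht (Zof w x j S') (Zof_card w x j S' hS')
  refine ⟨Bd, h1, fun y hy1 hy2 hy3 h => ?_⟩
  obtain ⟨a, ha⟩ := h
  exact h2 y hy1 hy2 hy3 a (Root.mono (Nat.le_add_right _ _) (Finset.Subset.refl _) ha)

lemma freeK_of (hκ : 0 < κ) (w : ℕ → ℂ) (x : ℕ → Fin κ → ℂ) (a : ℕ → ℕ) (N₀ : ℕ)
    (h : ∀ j : ℕ, ∃ N : ℕ, N₀ ≤ N ∧ ∀ n : ℕ, N ≤ n → ∀ S' : Finset ℕ,
      S' ⊆ ((Finset.Ico N₀ n).image a) → S'.card ≤ j → ¬ RelK w x j S' (a n)) :
    FreeK w fun n => x (a n) := by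
  classical
  apply freeK_of_flat hκ
  apply free_of_steps
  intro J
  obtain ⟨N, hN, h1⟩ := h J
  refine ⟨κ * N, fun n' hn' Z hZ hZm hroot => ?_⟩
  set n : ℕ := n' / κ with hn
  have hNn : N ≤ n := by rw [hn, Nat.le_div_iff_mul_le hκ, mul_comm]; exact hn'
  set r : Fin κ := ⟨n' % κ, Nat.mod_lt _ hκ⟩ with hr
  have hex : ∀ z : ℂ, ∃ s : ℕ, (z ∈ Z → (¬ ∃ i, i < J ∧ z = w i) → (¬ ∃ b : Fin κ, b < r ∧ z = x (a n) b) →
      (s ∈ (Finset.Ico N₀ n).image a ∧ ∃ b, z = x s b)) := by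
    intro z
    by_cases hz : z ∈ Z
    · rcases hZm z hz with h3 | ⟨p, hp1, hp2, hp3⟩
      · exact ⟨0, fun _ h4 => absurd h3 h4⟩
      · refine ⟨a (p / κ), fun _ _ h5 => ?_⟩
        have hp4 : z = x (a (p / κ)) ⟨p % κ, Nat.mod_lt _ hκ⟩ := hp3
        have hp5 : p / κ ≤ n := Nat.div_le_div_right hp2.le
        rcases hp5.lt_or_eq with hp6 | hp6
        · refine ⟨Finset.mem_image_of_mem a (Finset.mem_Ico.2 ⟨?_, hp6⟩), _, hp4⟩
          refine hN.trans ?_
          rw [Nat.le_div_iff_mul_le hκ, mul_comm]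
          exact hp1
        · exfalso
          refine h5 ⟨⟨p % κ, Nat.mod_lt _ hκ⟩, ?_, ?_⟩
          · rw [Fin.lt_def]
            change p % κ < n' % κ
            have e1 := Nat.div_add_mod p κ
            have e2 := Nat.div_add_mod n' κ
            rw [hp6] at e1
            rw [← hn] at e2
            omega
          · rw [hp4, hp6]
    · exact ⟨0, fun h => absurd h hz⟩
  choose g hg using hex
  set S' : Finset ℕ := (Z.filter fun z => (¬ ∃ i, i < J ∧ z = w i) ∧ ¬ ∃ b : Fin κ, b < r ∧ z = x (a n) b).image g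
    with hS'
  refine h1 n hNn S' ?_ ?_ ⟨r, Root.mono le_rfl ?_ hroot⟩
  · intro s hs
    rw [hS', Finset.mem_image] at hs
    obtain ⟨z, hz, rfl⟩ := hs
    rw [Finset.mem_filter] at hz
    exact (hg z hz.1 hz.2.1 hz.2.2).1
  · exact (Finset.card_image_le.trans (Finset.card_filter_le _ _)).trans hZ
  · intro z hz
    rw [Finset.mem_union, Zof, Finset.mem_union]
    by_cases h3 : ∃ i, i < J ∧ z = w i
    · obtain ⟨i, hi, rfl⟩ := h3
      exact Or.inl (Or.inl (Finset.mem_image_of_mem w (Finset.mem_range.2 hi)))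
    by_cases h4 : ∃ b : Fin κ, b < r ∧ z = x (a n) b
    · obtain ⟨b, hb, rfl⟩ := h4
      exact Or.inr (Finset.mem_image_of_mem _ (Finset.mem_filter.2 ⟨Finset.mem_univ _, hb⟩))
    · refine Or.inl (Or.inr ?_)
      obtain ⟨b, hb⟩ := (hg z hz h3 h4).2
      rw [Finset.mem_biUnion]
      refine ⟨g z, Finset.mem_image_of_mem g (Finset.mem_filter.2 ⟨hz, h3, h4⟩), ?_⟩
      exact Finset.mem_image.2 ⟨b, Finset.mem_univ _, hb.symm⟩

theorem mills_values (hκ : 0 < κ) (x : ℕ → Fin κ → ℂ) (hW : WinK x) (c : ℝ) (hc : 1 < c) (A : ℕ → Prop)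
    (hA : ∀ η : ℝ, 0 < η → ∃ x₀ : ℝ, ∀ x : ℕ, x₀ ≤ x → ∃ T : Finset ℕ,
      (∀ y ∈ T, A y ∧ (x : ℝ) ^ c ≤ y ∧ (y : ℝ) ≤ (x : ℝ) ^ c + (x : ℝ) ^ (c - 1)) ∧
      (x : ℝ) ^ (c - 1 - η) ≤ T.card) (w : ℕ → ℂ)
    (U : Set ℝ) (hU : IsOpen U) (hne : (U ∩ Set.Ioi 1).Nonempty) :
    dimH {θ : ℝ | θ ∈ U ∧ 1 < θ ∧ (∃ N₀ : ℕ, ∀ n : ℕ, N₀ ≤ n → A ⌊θ ^ (c ^ n)⌋₊) ∧
      FreeK w fun n => x ⌊θ ^ (c ^ n)⌋₊} = 1 := by
  have key := mills_indep c hc A (RelK w x) hA (RelK.mono w x) (RelK.win w x hW) U hU hne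
  apply le_antisymm
  · refine (dimH_mono (Set.subset_univ _)).trans ?_
    rw [Real.dimH_univ]
  · rw [← key]
    apply dimH_mono
    rintro θ ⟨h1, h2, N₀, h3, h4⟩
    exact ⟨h1, h2, ⟨N₀, h3⟩, freeK_of hκ w x (fun n => ⌊θ ^ (c ^ n)⌋₊) N₀ h4⟩

end Pool.Agent.X119.MilTr
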