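import Pool.Agent.X119.MilPat

set_option autoImplicit false

/-!
# Windows with the maximal number of almost primes at all the numbers `⌊θ ^ (c ^ n)⌋`

The lemmas on extremal sets are adapted from `Pool.Agent.X26.SV.Uns` (helper26).
-/

namespace Pool.Agent.X119.Mil

open Finset Filter

open Classical in
/-- the `t ∈ (0, k]` for which `m + t` has no prime factor `p ≤ k` -/
noncomputable def uns (m k : ℕ) : Finset ℕ :=
  (Ioc 0 k).filter (fun t => ∀ p : ℕ, p.Prime → p ≤ k → ¬ p ∣ m + t)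

/-- `T` is the set of the unsifted positions of an interval with the maximal number of unsifted positions -/
def Ext (k : ℕ) (T : Finset ℕ) : Prop := (∃ m : ℕ, uns m k = T) ∧ ∀ m : ℕ, (uns m k).card ≤ T.card

open Classical in
/-- the `t ∈ (0, k]` for which all prime factors of `m + t` are larger than `m ^ κ` -/
noncomputable def rgh (κ : ℝ) (k m : ℕ) : Finset ℕ :=
  (Ioc 0 k).filter (fun t => ∀ p : ℕ, p.Prime → p ∣ m + t → (m : ℝ) ^ κ < p)

theorem uns_card_le (m k : ℕ) : (uns m k).card ≤ k := by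
  classical
  unfold uns
  refine (card_filter_le _ _).trans ?_
  rw [Nat.card_Ioc]
  omega

theorem exists_ext (k : ℕ) : ∃ T, Ext k T := by
  obtain ⟨m, hm⟩ : ∃ m : ℕ, ∀ m', (uns m' k).card ≤ (uns m k).card := by
    have h1 : (Set.range fun m => (uns m k).card).Nonempty := ⟨(uns 0 k).card, 0, rfl⟩
    have h2 : BddAbove (Set.range fun m => (uns m k).card) :=
      ⟨k, by rintro _ ⟨m, rfl⟩; exact uns_card_le m k⟩
    obtain ⟨m, hm⟩ := Nat.sSup_mem h1 h2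
    refine ⟨m, fun m' => ?_⟩
    change (uns m k).card = _ at hm
    rw [hm]
    exact le_csSup h2 ⟨m', rfl⟩
  exact ⟨uns m k, ⟨m, rfl⟩, fun m' => hm m'⟩

theorem ext_sub {k : ℕ} {T : Finset ℕ} (hT : Ext k T) : T ⊆ Ioc 0 k := by
  classical
  obtain ⟨⟨m, rfl⟩, _⟩ := hT
  unfold uns
  exact filter_subset _ _

theorem ext_card {k : ℕ} {T : Finset ℕ} (hk : 1 ≤ k) (hT : Ext k T) : 1 ≤ T.card ∧ T.card ≤ k := by
  classical
  constructor
  · refine le_trans ?_ (hT.2 0)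
    rw [Nat.one_le_iff_ne_zero, card_ne_zero]
    refine ⟨1, ?_⟩
    unfold uns
    rw [mem_filter, mem_Ioc]
    refine ⟨⟨one_pos, hk⟩, fun p hp _ hd => ?_⟩
    rw [zero_add] at hd
    exact hp.one_lt.ne' (Nat.dvd_one.1 hd)
  · have h1 := card_le_card (ext_sub hT)
    rw [Nat.card_Ioc] at h1
    omega

theorem ext_adm {k : ℕ} {T : Finset ℕ} (hT : Ext k T) : Adm T := by
  classical
  have hsub := ext_sub hT
  obtain ⟨⟨m, hm⟩, _⟩ := hT
  intro q hq
  by_cases hqk : q ≤ k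
  · refine ⟨m, fun t ht => ?_⟩
    rw [← hm] at ht
    unfold uns at ht
    rw [mem_filter] at ht
    exact ht.2 q hq hqk
  · push Not at hqk
    by_contra hcon
    push Not at hcon
    choose t ht1 ht2 using hcon
    have hinj : Set.InjOn t (range q : Finset ℕ) := by
      intro a ha b hb hab
      have ha' : a < q := by simpa using ha
      have hb' : b < q := by simpa using hb
      have h1 := ht2 a
      have h2 := ht2 b
      rw [hab] at h1
      have h3 : a ≡ b [MOD q] := by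
        have e1 : a + t b ≡ 0 [MOD q] := (Nat.modEq_zero_iff_dvd).2 h1
        have e2 : b + t b ≡ 0 [MOD q] := (Nat.modEq_zero_iff_dvd).2 h2
        exact Nat.ModEq.add_right_cancel' (t b) (e1.trans e2.symm)
      exact Nat.ModEq.eq_of_lt_of_lt h3 ha' hb'
    have h4 : (range q).card ≤ T.card := card_le_card_of_injOn t (fun a _ => ht1 a) hinj
    have h5 := card_le_card hsub
    rw [Nat.card_Ioc] at h5
    rw [card_range] at h4
    omega

/-- Rankin's function is large. -/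
lemma rank_large : ∀ᶠ m : ℝ in atTop, Real.log m ≤ rankin m := by
  have h1 : ∀ᶠ L : ℝ in atTop, 1 ≤ L ∧ 1 ≤ Real.log (Real.log L) ∧ 1 ≤ Real.log (Real.log (Real.log L)) ∧
      (Real.log (Real.log L)) ^ 2 ≤ Real.log L := by
    have e1 : ∀ᶠ y : ℝ in atTop, (Real.log y) ^ 2 ≤ y := by
      have := (Real.isLittleO_pow_log_id_atTop (n := 2)).bound (zero_lt_one' ℝ)
      filter_upwards [this, eventually_ge_atTop 0] with y hy hy0
      simpa [abs_of_nonneg hy0] using hy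
    filter_upwards [eventually_ge_atTop 1,
      (Real.tendsto_log_atTop.comp Real.tendsto_log_atTop).eventually_ge_atTop 1,
      (Real.tendsto_log_atTop.comp (Real.tendsto_log_atTop.comp
        Real.tendsto_log_atTop)).eventually_ge_atTop 1, Real.tendsto_log_atTop.eventually e1] with L p1 p2 p3 p4
    exact ⟨p1, p2, p3, p4⟩
  filter_upwards [Real.tendsto_log_atTop.eventually h1] with m hm
  obtain ⟨p1, p2, p3, p4⟩ := hm
  unfold rankin
  rw [le_div_iff₀ (by positivity)]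
  have q1 : 0 ≤ Real.log m * Real.log (Real.log m) := by
    have : 0 ≤ Real.log (Real.log m) := le_trans (by positivity) p4
    positivity
  calc Real.log m * Real.log (Real.log (Real.log m)) ^ 2 ≤ Real.log m * Real.log (Real.log m) :=
        mul_le_mul_of_nonneg_left p4 (by linarith)
    _ = Real.log m * Real.log (Real.log m) * 1 := by ring
    _ ≤ _ := mul_le_mul_of_nonneg_left p3 q1

lemma ev_good (κ : ℝ) (hκ : 0 < κ) (K : ℕ) : ∀ᶠ m : ℝ in atTop, (K : ℝ) ≤ κ * rankin m ∧ Real.log m < m ^ κ := by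
  have e1 : ∀ᶠ m : ℝ in atTop, Real.log m < m ^ κ := by
    have := (isLittleO_log_rpow_atTop hκ).bound (by norm_num : (0 : ℝ) < 1 / 2)
    filter_upwards [this, eventually_ge_atTop 1] with m hm hm1
    have h0 : 0 < m ^ κ := by positivity
    rw [Real.norm_of_nonneg h0.le] at hm
    have := le_abs_self (Real.log m)
    rw [← Real.norm_eq_abs] at this
    linarith
  filter_upwards [rank_large, e1, Real.tendsto_log_atTop.eventually_ge_atTop (K / κ)] with m h1 h2 h3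
  refine ⟨?_, h2⟩
  rw [div_le_iff₀ hκ] at h3
  nlinarith

lemma rgh_of_pat {κ : ℝ} {k K m : ℕ} {T : Finset ℕ} (hkK : k ≤ K) (hT : Ext k T)
    (h1 : (K : ℝ) ≤ κ * rankin m) (h2 : Real.log m < (m : ℝ) ^ κ) (hP : Pat κ T m) : rgh κ k m = T := by
  classical
  have hsub := ext_sub hT
  have hle : ∀ t ∈ Ioc 0 k, (t : ℝ) ≤ κ * rankin m := by
    intro t ht
    rw [mem_Ioc] at ht
    have : (t : ℝ) ≤ K := by exact_mod_cast ht.2.trans hkK
    linarith
  obtain ⟨g1, g2⟩ := hP (fun t ht => hle t (hsub ht))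
  ext t
  unfold rgh
  rw [mem_filter]
  constructor
  · rintro ⟨t1, t2⟩
    by_contra hcon
    obtain ⟨p, hp, hpl, hd⟩ := g2 t (hle t t1) hcon
    have := t2 p hp hd
    linarith
  · intro ht
    exact ⟨hsub ht, g1 t ht⟩

/-- the integer parts tend to infinity -/
lemma floor_tendsto (c θ : ℝ) (hc : 1 < c) (hθ : 1 < θ) :
    Tendsto (fun n : ℕ => ((⌊θ ^ (c ^ n)⌋₊ : ℕ) : ℝ)) atTop atTop :=
  (tendsto_natCast_atTop_atTop (R := ℝ)).comp (tendsto_nat_floor_atTop.comp (tendsto_pow c θ hc hθ))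

/-- **Windows with the maximal number of almost primes.** -/
theorem windows (K : ℕ) (c : ℝ) (hc : 1 < c) :
    (∀ s : ℝ, s < 1 → ∃ κ : ℝ, 0 < κ ∧ ∀ (k : ℕ → ℕ) (T : ℕ → Finset ℕ),
      (∀ n, 1 ≤ k n ∧ k n ≤ K ∧ Ext (k n) (T n)) →
      ∀ U : Set ℝ, IsOpen U → (U ∩ Set.Ioi 1).Nonempty →
      ENNReal.ofReal s ≤ dimH {θ : ℝ | θ ∈ U ∧ 1 < θ ∧ ∃ N : ℕ, ∀ n : ℕ, N ≤ n →
        rgh κ (k n) ⌊θ ^ (c ^ n)⌋₊ = T n}) ∧
    ∀ (k : ℕ → ℕ) (T : ℕ → Finset ℕ), (∀ n, 1 ≤ k n ∧ k n ≤ K ∧ Ext (k n) (T n)) →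
      ∀ U : Set ℝ, IsOpen U → (U ∩ Set.Ioi 1).Nonempty →
      dimH {θ : ℝ | θ ∈ U ∧ 1 < θ ∧ ∃ κ : ℝ, 0 < κ ∧ ∃ N : ℕ, ∀ n : ℕ, N ≤ n →
        rgh κ (k n) ⌊θ ^ (c ^ n)⌋₊ = T n} = 1 := by
  obtain ⟨h1, h2⟩ := patterns K c hc
  have hcond : ∀ (k : ℕ → ℕ) (T : ℕ → Finset ℕ), (∀ n, 1 ≤ k n ∧ k n ≤ K ∧ Ext (k n) (T n)) →
      ∀ n, 1 ≤ (T n).card ∧ (T n).card ≤ K ∧ Adm (T n) := by
    intro k T h n
    obtain ⟨a1, a2, a3⟩ := h n
    obtain ⟨b1, b2⟩ := ext_card a1 a3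
    exact ⟨b1, b2.trans a2, ext_adm a3⟩
  have key : ∀ (k : ℕ → ℕ) (T : ℕ → Finset ℕ), (∀ n, 1 ≤ k n ∧ k n ≤ K ∧ Ext (k n) (T n)) →
      ∀ κ : ℝ, 0 < κ → ∀ θ : ℝ, 1 < θ → (∃ N : ℕ, ∀ n : ℕ, N ≤ n → Pat κ (T n) ⌊θ ^ (c ^ n)⌋₊) →
      ∃ N : ℕ, ∀ n : ℕ, N ≤ n → rgh κ (k n) ⌊θ ^ (c ^ n)⌋₊ = T n := by
    intro k T h κ hκ θ hθ hN
    obtain ⟨N, hN⟩ := hN
    obtain ⟨N₁, hN₁⟩ := eventually_atTop.1 ((floor_tendsto c θ hc hθ).eventually (ev_good κ hκ K))
    refine ⟨max N N₁, fun n hn => ?_⟩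
    obtain ⟨g1, g2⟩ := hN₁ n ((le_max_right _ _).trans hn)
    exact rgh_of_pat (h n).2.1 (h n).2.2 g1 g2 (hN n ((le_max_left _ _).trans hn))
  constructor
  · intro s hs
    obtain ⟨κ, hκ, h⟩ := h1 s hs
    refine ⟨κ, hκ, fun k T hT U hU hne => ?_⟩
    refine (h T (hcond k T hT) U hU hne).trans (dimH_mono ?_)
    rintro θ ⟨t1, t2, t3⟩
    exact ⟨t1, t2, key k T hT κ hκ θ t2 t3⟩
  · intro k T hT U hU hne
    apply le_antisymm
    · refine (dimH_mono (Set.subset_univ _)).trans ?_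
      rw [Real.dimH_univ]
    · rw [← h2 T (hcond k T hT) U hU hne]
      apply dimH_mono
      rintro θ ⟨t1, t2, κ, hκ, t3⟩
      exact ⟨t1, t2, κ, hκ, key k T hT κ hκ θ t2 t3⟩

end Pool.Agent.X119.Mil
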