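import Pool.Agent.TH299.RunsZeta
import Pool.Agent.H370R2.DirGood
import Pool.Agent.X10.ML.Zeros

set_option autoImplicit false

/-! # Mills sequences close to runs of simple zeros of several L-functions (helper119) -/

namespace Pool.Agent.X119.MilZ

open Finset Filter Complex
open Pool.Agent.X10.ML (Ordinates mills_zeros)

/-- the points `t` which start a run of `m + 1` simple zeros of `F` on the critical line, of total
length at most `B / log t`, such that there are no other zeros of `F` in the strip, on or off the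
critical line, with ordinate in the interval spanned by the run -/
def PureF (F : ℂ → ℂ) (m : ℕ) (B : ℝ) : Set ℝ :=
  {t : ℝ | ∃ u : Fin (m + 1) → ℝ, StrictMono u ∧ u 0 = t ∧
    (∀ j, F (1 / 2 + I * u j) = 0 ∧ analyticOrderNatAt F (1 / 2 + I * u j) = 1) ∧
    (∀ s : ℂ, F s = 0 → 0 < s.re → s.re < 1 → u 0 ≤ s.im → s.im ≤ u (Fin.last m) →
      ∃ j, s = 1 / 2 + I * u j) ∧ u (Fin.last m) - u 0 ≤ B / Real.log t}

/-- the same, where the other zeros may have the ordinates of the zeros of the run -/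
def RunF (F : ℂ → ℂ) (m : ℕ) (B : ℝ) : Set ℝ :=
  {t : ℝ | ∃ u : Fin (m + 1) → ℝ, StrictMono u ∧ u 0 = t ∧
    (∀ j, F (1 / 2 + I * u j) = 0 ∧ analyticOrderNatAt F (1 / 2 + I * u j) = 1) ∧
    (∀ s : ℂ, F s = 0 → 0 < s.re → s.re < 1 → u 0 ≤ s.im → s.im ≤ u (Fin.last m) →
      ∃ j, s.im = u j) ∧ u (Fin.last m) - u 0 ≤ B / Real.log t}

lemma pureF_ordinates (F : ℂ → ℂ) (m : ℕ) (B : ℝ) : Ordinates F (PureF F m B) := by
  rintro t ⟨u, h1, h2, h3, -, -⟩
  have h4 := (h3 0).1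
  rw [h2] at h4
  exact ⟨1 / 2 + I * t, by simp, by simp; norm_num, by simp, h4⟩

lemma runF_ordinates (F : ℂ → ℂ) (m : ℕ) (B : ℝ) : Ordinates F (RunF F m B) := by
  rintro t ⟨u, h1, h2, h3, -, -⟩
  have h4 := (h3 0).1
  rw [h2] at h4
  exact ⟨1 / 2 + I * t, by simp, by simp; norm_num, by simp, h4⟩

lemma count_aux {F : ℂ → ℂ} (hF : H370.GoodL F) (m : ℕ) (h w : ℝ) (h0 : 0 < h) (h1 : h ≤ 1)
    (hm : 0 < w) (S : ℝ → Set ℝ) (hSord : ∀ B, Ordinates F (S B))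
    (R : ℝ → ℝ → ℝ → Set ℝ)
    (hRS : ∀ L a b t : ℝ, ∀ B : ℝ, t ∈ R L a b → L ≤ B / Real.log t → t ∈ S B)
    (hRab : ∀ L a b t : ℝ, t ∈ R L a b → a < t ∧ t ≤ b)
    (hcnt : ∃ T0 : ℝ, 1 ≤ T0 ∧ ∀ T : ℝ, T0 ≤ T → ∀ H : ℝ, T ^ h ≤ H → H ≤ T → ∀ A : ℝ, 0 < A →
      (w - m / A - w / 4) * (H370.NN F T (T + H) : ℝ) ≤
        ((R (A * H / H370.NN F T (T + H)) T (T + H)).ncard : ℝ)) :
    ∃ B : ℝ, ∃ κ T₀ : ℝ, 0 < κ ∧ ∀ T H : ℝ, T₀ ≤ T → T ^ h ≤ H → H ≤ T →
      κ * (H * Real.log T) ≤ ((S B ∩ Set.Ioc T (T + H)).ncard : ℝ) := by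
  obtain ⟨A, hA⟩ : ∃ A : ℝ, A = 4 * (m + 1) / w := ⟨_, rfl⟩
  have hA0 : 0 < A := by rw [hA]; positivity
  have hmA : m / A ≤ w / 4 := by
    rw [div_le_iff₀ hA0, hA]
    have : w / 4 * (4 * (m + 1) / w) = m + 1 := by field_simp
    rw [this]; linarith
  obtain ⟨T1, -, hT1⟩ := hcnt
  obtain ⟨C, hC, hcs⟩ := H295SI.countShort F hF
  have ev : ∀ᶠ T : ℝ in atTop, T1 ≤ T ∧ 10 ≤ T ∧ 3 ≤ T ^ h ∧ 16 * C * Real.pi ≤ Real.log T ∧
      16 * C * Real.pi * Real.log T ≤ T ^ h := by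
    have lg := (isLittleO_log_rpow_atTop h0).def (c := 1 / (16 * C * Real.pi)) (by positivity)
    filter_upwards [eventually_ge_atTop T1, eventually_ge_atTop 10,
      (tendsto_rpow_atTop h0).eventually_ge_atTop 3,
      Real.tendsto_log_atTop.eventually_ge_atTop (16 * C * Real.pi), lg] with T e1 e2 e3 e4 e5
    refine ⟨e1, e2, e3, e4, ?_⟩
    rw [Real.norm_of_nonneg (Real.log_nonneg (by linarith)), Real.norm_of_nonneg (by positivity)] at e5
    calc 16 * C * Real.pi * Real.log T ≤ 16 * C * Real.pi * (1 / (16 * C * Real.pi) * T ^ h) :=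
          mul_le_mul_of_nonneg_left e5 (by positivity)
      _ = T ^ h := by field_simp
  obtain ⟨T₀, hT₀⟩ := eventually_atTop.1 ev
  have hpi := Real.pi_pos
  refine ⟨A * (8 * Real.pi), w / 2 * (1 / (4 * Real.pi)), T₀, by positivity, fun T H hT hTH hHT => ?_⟩
  obtain ⟨e1, e2, e3, e4, e5⟩ := hT₀ T hT
  have hlog : 0 < Real.log T := Real.log_pos (by linarith)
  have hH3 : 3 ≤ H := e3.trans hTH
  have hH0 : 0 < H := by linarith
  -- the number of zeros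
  have hN : H * Real.log T / (4 * Real.pi) ≤ (H370.NN F T (T + H) : ℝ) := by
    have h2 := (hcs T e2 H hH3 hHT T (T + H) le_rfl (by linarith) (by linarith) le_rfl).1
    have h3 := (abs_le.1 h2).1
    have h4 : C * (H + Real.log T ^ 2) ≤ H * Real.log T / (8 * Real.pi) + H * Real.log T / (8 * Real.pi) := by
      have h5 : C * H ≤ H * Real.log T / (8 * Real.pi) := by
        rw [le_div_iff₀ (by positivity)]
        have := mul_le_mul_of_nonneg_left e4 hH0.le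
        nlinarith
      have h6 : C * Real.log T ^ 2 ≤ H * Real.log T / (8 * Real.pi) := by
        rw [le_div_iff₀ (by positivity)]
        have h7 : 16 * C * Real.pi * Real.log T ≤ H := e5.trans hTH
        have := mul_le_mul_of_nonneg_right h7 hlog.le
        nlinarith
      linarith
    have h5 : H * Real.log T / (2 * Real.pi) = H * Real.log T / (4 * Real.pi) +
        (H * Real.log T / (8 * Real.pi) + H * Real.log T / (8 * Real.pi)) := by
      field_simp; ring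
    linarith
  have hNpos : (0 : ℝ) < H370.NN F T (T + H) := lt_of_lt_of_le (by positivity) hN
  have hcount := hT1 T e1 H hTH hHT A hA0
  have hsub : R (A * H / H370.NN F T (T + H)) T (T + H) ⊆ S (A * (8 * Real.pi)) ∩
      Set.Ioc T (T + H) := by
    intro t ht
    obtain ⟨htT, htH⟩ := hRab _ _ _ _ ht
    refine ⟨hRS _ _ _ _ _ ht ?_, htT, htH⟩
    have hlt : Real.log t ≤ 2 * Real.log T := by
      have : Real.log t ≤ Real.log (T * T) := Real.log_le_log (by linarith) (by nlinarith)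
      rwa [Real.log_mul (by linarith) (by linarith), ← two_mul] at this
    have hlt0 : 0 < Real.log t := Real.log_pos (by linarith)
    rw [div_le_div_iff₀ hNpos hlt0]
    have h6 : H * Real.log t ≤ 8 * Real.pi * H370.NN F T (T + H) := by
      rw [div_le_iff₀ (by positivity)] at hN
      calc H * Real.log t ≤ H * (2 * Real.log T) := mul_le_mul_of_nonneg_left hlt hH0.le
        _ = 2 * (H * Real.log T) := by ring
        _ ≤ 2 * (H370.NN F T (T + H) * (4 * Real.pi)) := by linarith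
        _ = _ := by ring
    calc A * H * Real.log t = A * (H * Real.log t) := by ring
      _ ≤ A * (8 * Real.pi * H370.NN F T (T + H)) := mul_le_mul_of_nonneg_left h6 hA0.le
      _ = _ := by ring
  have hfin : (S (A * (8 * Real.pi)) ∩ Set.Ioc T (T + H)).Finite := by
    have hz := H370.zset_finite hF T (T + H) (by linarith)
    refine (hz.image Complex.im).subset ?_
    rintro t ⟨ht, ht1, ht2⟩
    obtain ⟨s, s1, s2, s3, s4⟩ := hSord _ t ht
    exact ⟨s, ⟨s1, s2, by rw [s3]; exact ht1, by rw [s3]; exact ht2, s4⟩, s3⟩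
  have h7 : ((R (A * H / H370.NN F T (T + H)) T (T + H)).ncard : ℝ) ≤
      ((S (A * (8 * Real.pi)) ∩ Set.Ioc T (T + H)).ncard : ℝ) := by
    exact_mod_cast Set.ncard_le_ncard hsub hfin
  refine le_trans ?_ (hcount.trans h7)
  calc w / 2 * (1 / (4 * Real.pi)) * (H * Real.log T) = w / 2 * (H * Real.log T / (4 * Real.pi)) := by
        ring
    _ ≤ w / 2 * H370.NN F T (T + H) := mul_le_mul_of_nonneg_left hN (by positivity)
    _ ≤ (w - m / A - w / 4) * H370.NN F T (T + H) :=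
        mul_le_mul_of_nonneg_right (by linarith) hNpos.le

/-- the number of the starting points of pure runs -/
lemma pure_count {F : ℂ → ℂ} (hF : H370.GoodL F) (m : ℕ) (h : ℝ) (h0 : 0 < h) (h1 : h ≤ 1)
    (hm : 0 < 2 - H295SI.cc h - (m + 1) * ((H295SI.cc h - 1) / 2)) :
    ∃ B : ℝ, ∃ κ T₀ : ℝ, 0 < κ ∧ ∀ T H : ℝ, T₀ ≤ T → T ^ h ≤ H → H ≤ T →
      κ * (H * Real.log T) ≤ ((PureF F m B ∩ Set.Ioc T (T + H)).ncard : ℝ) := by
  refine count_aux hF m h _ h0 h1 hm (fun B => PureF F m B) (fun B => pureF_ordinates F m B)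
    (fun L a b => {t : ℝ | Pool.Agent.TH299.RunsL.RunB F m L a b t}) ?_ ?_ ?_
  · rintro L a b t B ⟨u, u1, u2, u3, u4, u5, u6, u7⟩ hL
    exact ⟨u, u1, u2, u5, u6, u7.trans hL⟩
  · rintro L a b t ⟨u, u1, u2, u3, u4, u5, u6, u7⟩
    have u8 : u 0 ≤ u (Fin.last m) := u1.monotone (Fin.zero_le _)
    rw [← u2]
    exact ⟨u3, u8.trans u4⟩
  · obtain ⟨T0, hT1, hT⟩ := Pool.Agent.TH299.RunsL.runs_short hF h0 h1 m
      (ε := (2 - H295SI.cc h - (m + 1) * ((H295SI.cc h - 1) / 2)) / 4) (by linarith)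
    exact ⟨T0, hT1, fun T hTT H hH1 hH2 A hA => (hT T hTT H hH1 hH2 A hA).2⟩

/-- the number of the starting points of runs -/
lemma run_count {F : ℂ → ℂ} (hF : H370.GoodL F) (m : ℕ) (h : ℝ) (h0 : 0 < h) (h1 : h ≤ 1)
    (hm : 0 < 2 - H295SI.cc h - m * ((H295SI.cc h - 1) / 2)) :
    ∃ B : ℝ, ∃ κ T₀ : ℝ, 0 < κ ∧ ∀ T H : ℝ, T₀ ≤ T → T ^ h ≤ H → H ≤ T →
      κ * (H * Real.log T) ≤ ((RunF F m B ∩ Set.Ioc T (T + H)).ncard : ℝ) := by
  refine count_aux hF m h _ h0 h1 hm (fun B => RunF F m B) (fun B => runF_ordinates F m B)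
    (fun L a b => {t : ℝ | Pool.Agent.TH299.RunsL.RunA F m L a b t}) ?_ ?_ ?_
  · rintro L a b t B ⟨u, u1, u2, u3, u4, u5, u6, u7⟩ hL
    exact ⟨u, u1, u2, u5, u6, u7.trans hL⟩
  · rintro L a b t ⟨u, u1, u2, u3, u4, u5, u6, u7⟩
    have u8 : u 0 ≤ u (Fin.last m) := u1.monotone (Fin.zero_le _)
    rw [← u2]
    exact ⟨u3, u8.trans u4⟩
  · obtain ⟨T0, hT1, hT⟩ := Pool.Agent.TH299.RunsL.runs_short hF h0 h1 m
      (ε := (2 - H295SI.cc h - m * ((H295SI.cc h - 1) / 2)) / 4) (by linarith)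
    exact ⟨T0, hT1, fun T hTT H hH1 hH2 A hA => (hT T hTT H hH1 hH2 A hA).1⟩

/-- **Mills sequences in prescribed order close to runs of simple zeros of several functions.** -/
theorem mills_runs_family {J : Type} [Finite J] (F : J → ℂ → ℂ) (hF : ∀ j, H370.GoodL (F j))
    (m : J → ℕ) (h q : ℝ) (h0 : 0 < h) (hq : 1 < q) (hh : h < 1 - 1 / q) :
    ((∀ j, 0 < 2 - H295SI.cc h - (m j + 1) * ((H295SI.cc h - 1) / 2)) → ∃ B : J → ℝ,
      ∀ (σ : ℕ → J) (δ : ℕ → ℝ), (∀ n, 0 < δ n) →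
      (∀ ε : ℝ, 0 < ε → ∀ᶠ n : ℕ in atTop, Real.exp (-(ε * q ^ n)) ≤ δ n) →
      ∀ U : Set ℝ, IsOpen U → (U ∩ Set.Ioi 1).Nonempty →
      dimH {θ : ℝ | θ ∈ U ∧ 1 < θ ∧ ∃ N : ℕ, ∀ n : ℕ, N ≤ n →
        ∃ a ∈ PureF (F (σ n)) (m (σ n)) (B (σ n)), |θ ^ (q ^ n) - a| ≤ δ n} = 1) ∧
    ((∀ j, 0 < 2 - H295SI.cc h - m j * ((H295SI.cc h - 1) / 2)) → ∃ B : J → ℝ,
      ∀ (σ : ℕ → J) (δ : ℕ → ℝ), (∀ n, 0 < δ n) →
      (∀ ε : ℝ, 0 < ε → ∀ᶠ n : ℕ in atTop, Real.exp (-(ε * q ^ n)) ≤ δ n) →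
      ∀ U : Set ℝ, IsOpen U → (U ∩ Set.Ioi 1).Nonempty →
      dimH {θ : ℝ | θ ∈ U ∧ 1 < θ ∧ ∃ N : ℕ, ∀ n : ℕ, N ≤ n →
        ∃ a ∈ RunF (F (σ n)) (m (σ n)) (B (σ n)), |θ ^ (q ^ n) - a| ≤ δ n} = 1) := by
  have h1 : h ≤ 1 := by
    have : 0 < 1 / q := by positivity
    linarith
  constructor
  · intro hm
    choose B hB using fun j => pure_count (hF j) (m j) h h0 h1 (hm j)
    refine ⟨B, fun σ δ hδ0 hδ U hU hne => ?_⟩
    exact mills_zeros F hF (fun j => PureF (F j) (m j) (B j)) (fun j => pureF_ordinates _ _ _)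
      q h hq h0 hh hB δ hδ0 hδ σ U hU hne
  · intro hm
    choose B hB using fun j => run_count (hF j) (m j) h h0 h1 (hm j)
    refine ⟨B, fun σ δ hδ0 hδ U hU hne => ?_⟩
    exact mills_zeros F hF (fun j => RunF (F j) (m j) (B j)) (fun j => runF_ordinates _ _ _)
      q h hq h0 hh hB δ hδ0 hδ σ U hU hne

end Pool.Agent.X119.MilZ
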