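import Pool.Agent.W123.PP.Win

set_option autoImplicit false

/-!
# The distances from almost all primes of every short interval to all following and preceding primes
-/

namespace Pool.Agent.X119.PWin

open Finset Filter
open Pool.Agent.W123.RP Pool.Agent.W123.GS

/-- `p` is a nice prime: for all `k ≥ 1` every interval `(p, p + H]` and every interval `[p - H, p)` with
`C k log X ≤ H ≤ Y` contains at least `k` primes, and every such interval with `C H < k log X` contains fewer than
`k` primes. -/
def Nice (C : ℝ) (X Y p : ℕ) : Prop :=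
  ∀ k H : ℕ, 1 ≤ k → H ≤ Y →
    (C * k * Real.log X ≤ H → k ≤ ((Ioc p (p + H)).filter Nat.Prime).card ∧
      k ≤ ((Ico (p - H) p).filter Nat.Prime).card) ∧
    (C * H < k * Real.log X → ((Ioc p (p + H)).filter Nat.Prime).card < k ∧
      ((Ico (p - H) p).filter Nat.Prime).card < k)

open Classical in
/-- **All distances from almost all primes.** -/
theorem steps (θ : ℝ) (h0 : 0 < θ) (h1 : θ ≤ 1) (ε : ℝ) (hε : 0 < ε) :
    ∃ C : ℝ, 1 ≤ C ∧ ∀ᶠ X : ℕ in atTop, ∀ Y : ℕ, (X : ℝ) ^ θ ≤ Y → Y ≤ X →
      (((Ioc X (X + Y)).filter (fun p => p.Prime ∧ ¬ Nice C X Y p)).card : ℝ) ≤ ε * Y / Real.log X := by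
  obtain ⟨c, Lam, hc, hLam, hw⟩ := Pool.Agent.W123.PP.prime_windows θ h0 h1 (ε / 2) (by positivity)
  obtain ⟨K, hK⟩ := hw 1 one_pos
  obtain ⟨C1, hC1, u0, hcl⟩ := Pool.Agent.W123.PP.few_close θ h0
  -- the minimal distance is `η log X`
  obtain ⟨η, hη⟩ : ∃ η : ℝ, η = min 1 (ε / (8 * C1)) := ⟨_, rfl⟩
  have hC10 : 0 < C1 := by linarith
  have hη0 : 0 < η := by rw [hη]; exact lt_min one_pos (by positivity)
  have hη1 : η ≤ 1 := by rw [hη]; exact min_le_left _ _
  have hη2 : η * C1 ≤ ε / 8 := by
    have : η ≤ ε / (8 * C1) := by rw [hη]; exact min_le_right _ _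
    calc η * C1 ≤ ε / (8 * C1) * C1 := by gcongr
      _ = ε / 8 := by field_simp
  obtain ⟨C, hC⟩ : ∃ C : ℝ, C = 3 / c + 1 + (Lam + 1) * (2 / η) + Lam := ⟨_, rfl⟩
  have hC2 : 1 ≤ C := by
    rw [hC]
    have : 0 ≤ 3 / c := by positivity
    have : 0 ≤ (Lam + 1) * (2 / η) := by positivity
    linarith
  refine ⟨C, hC2, ?_⟩
  have hXr : Tendsto (fun X : ℕ => (X : ℝ)) atTop atTop := tendsto_natCast_atTop_atTop
  have hpow : Tendsto (fun X : ℕ => (X : ℝ) ^ θ) atTop atTop := (tendsto_rpow_atTop h0).comp hXr
  have hlogX : Tendsto (fun X : ℕ => Real.log (X : ℝ)) atTop atTop := Real.tendsto_log_atTop.comp hXr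
  have hlo : ∀ᶠ X : ℕ in atTop, Real.log X ≤ (ε / 8) / (ε / 8 + 1) * (X : ℝ) ^ (θ / 2) := by
    have h2 := (isLittleO_log_rpow_atTop (show 0 < θ / 2 by positivity)).comp_tendsto hXr
    have h3 := h2.def (c := (ε / 8) / (ε / 8 + 1)) (by positivity)
    filter_upwards [h3, eventually_ge_atTop 1] with X hX h1X
    simp only [Function.comp] at hX
    have h4 : 0 ≤ (X : ℝ) ^ (θ / 2) := by positivity
    rw [Real.norm_of_nonneg (Real.log_natCast_nonneg X), Real.norm_of_nonneg h4] at hX
    exact hX
  filter_upwards [hK, hpow.eventually_ge_atTop (u0 : ℝ), hlogX.eventually_ge_atTop (2 / η + 2), hlo,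
    eventually_ge_atTop 3] with X hX hu hlog hlo hX3 Y hXY hYX
  have hX1 := hX Y hXY hYX
  have hX3r : (3 : ℝ) ≤ X := by exact_mod_cast hX3
  have hL0 : 0 < Real.log X := by
    have : 0 < 2 / η := by positivity
    linarith
  have h2η : 2 / η ≤ Real.log X := by linarith
  have h2ηL : 2 ≤ η * Real.log X := by
    rw [div_le_iff₀ hη0] at h2η
    linarith
  have hY0 : (0 : ℝ) < Y := lt_of_lt_of_le (by positivity) hXY
  have huY : u0 ≤ Y := by exact_mod_cast hu.trans hXY
  -- log ^ 2 is small
  have hsq : Real.log X ^ 2 ≤ (ε / 8) * Y := by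
    have hs : 0 < ε / 8 := by positivity
    have hfr : (ε / 8) / (ε / 8 + 1) ≤ 1 := by rw [div_le_one (by positivity)]; linarith
    have hfr2 : (ε / 8) / (ε / 8 + 1) ≤ ε / 8 := by
      rw [div_le_iff₀ (by positivity)]
      nlinarith
    have hfr0 : 0 ≤ (ε / 8) / (ε / 8 + 1) := by positivity
    have hp : (X : ℝ) ^ (θ / 2) * (X : ℝ) ^ (θ / 2) = (X : ℝ) ^ θ := by
      rw [← Real.rpow_add (by linarith)]
      congr 1
      ring
    have hp0 : 0 ≤ (X : ℝ) ^ (θ / 2) := by positivity
    calc Real.log X ^ 2 = Real.log X * Real.log X := sq _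
      _ ≤ ((ε / 8) / (ε / 8 + 1) * (X : ℝ) ^ (θ / 2)) * ((ε / 8) / (ε / 8 + 1) * (X : ℝ) ^ (θ / 2)) := by
          gcongr
      _ = ((ε / 8) / (ε / 8 + 1) * ((ε / 8) / (ε / 8 + 1))) * ((X : ℝ) ^ (θ / 2) * (X : ℝ) ^ (θ / 2)) := by ring
      _ ≤ (ε / 8) * Y := by
          rw [hp]
          have : (ε / 8) / (ε / 8 + 1) * ((ε / 8) / (ε / 8 + 1)) ≤ (ε / 8) * 1 :=
            mul_le_mul hfr2 hfr hfr0 (by positivity)
          rw [mul_one] at this
          gcongr
  have hLY : Real.log X ≤ Y := by
    by_contra hcon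
    push Not at hcon
    have h5 : (1 : ℝ) ≤ Real.log X := by
      have : 0 < 2 / η := by positivity
      linarith
    have h6 : Real.log X ≤ (X : ℝ) ^ (θ / 2) := by
      refine hlo.trans ?_
      have hfr : (ε / 8) / (ε / 8 + 1) ≤ 1 := by rw [div_le_one (by positivity)]; linarith
      calc _ ≤ 1 * (X : ℝ) ^ (θ / 2) := by gcongr
        _ = _ := one_mul _
    have h7 : (X : ℝ) ^ (θ / 2) ≤ (X : ℝ) ^ θ := Real.rpow_le_rpow_of_exponent_le (by linarith) (by linarith)
    linarith
  obtain ⟨T, hT⟩ : ∃ T : ℕ, T = ⌊η * Real.log X⌋₊ := ⟨_, rfl⟩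
  have hT1 : (T : ℝ) ≤ η * Real.log X := by rw [hT]; exact Nat.floor_le (by positivity)
  have hT2 : η * Real.log X < T + 1 := by rw [hT]; exact Nat.lt_floor_add_one _
  have hTY : T ≤ Y := by
    have : (T : ℝ) ≤ Y := by
      calc (T : ℝ) ≤ η * Real.log X := hT1
        _ ≤ 1 * Real.log X := by gcongr
        _ ≤ Y := by linarith
    exact_mod_cast this
  have hX2 := hcl X Y T hX3 hXY huY hTY
  -- the exceptions are among the two exceptional sets
  have hsub : (Ioc X (X + Y)).filter (fun p => p.Prime ∧ ¬ Nice C X Y p) ⊆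
      (Ioc X (X + Y)).filter (fun p => p.Prime ∧ ¬ (
        (∀ H : ℕ, 1 ≤ H → H ≤ Y →
          c / Real.log X * H ≤ cl Nat.Prime p (p + H) ∧
          c / Real.log X * H ≤ cl Nat.Prime (p + 1 - H) (p + 1)) ∧
        (∀ H : ℕ, ⌊Real.log X⌋₊ ≤ H → H ≤ Y →
          (co Nat.Prime p (p + H) : ℝ) ≤ Lam / Real.log X * H ∧
          (co Nat.Prime (p - H) p : ℝ) ≤ Lam / Real.log X * H) ∧
        ((range (Nat.log 2 Y + 1)).filter (fun j => Real.log X ≤ (2 : ℝ) ^ j ∧
          ¬ Good Nat.Prime 0 Lam 1 (Real.log X) p j)).card ≤ K)) ∪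
      (Ioc X (X + Y)).filter (fun p => p.Prime ∧ ∃ h : ℕ, 1 ≤ h ∧ h ≤ T ∧
         ((p + h).Prime ∨ (h ≤ p ∧ (p - h).Prime))) := by
    intro p hp
    rw [mem_filter] at hp
    obtain ⟨hp1, hpp, hpn⟩ := hp
    rw [mem_union, mem_filter, mem_filter]
    by_contra hcon
    rw [not_or] at hcon
    obtain ⟨hA, hB⟩ := hcon
    have hA' : (∀ H : ℕ, 1 ≤ H → H ≤ Y →
          c / Real.log X * H ≤ cl Nat.Prime p (p + H) ∧
          c / Real.log X * H ≤ cl Nat.Prime (p + 1 - H) (p + 1)) ∧
        (∀ H : ℕ, ⌊Real.log X⌋₊ ≤ H → H ≤ Y →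
          (co Nat.Prime p (p + H) : ℝ) ≤ Lam / Real.log X * H ∧
          (co Nat.Prime (p - H) p : ℝ) ≤ Lam / Real.log X * H) ∧
        ((range (Nat.log 2 Y + 1)).filter (fun j => Real.log X ≤ (2 : ℝ) ^ j ∧
          ¬ Good Nat.Prime 0 Lam 1 (Real.log X) p j)).card ≤ K := by
      by_contra h
      exact hA ⟨hp1, hpp, h⟩
    have hB' : ∀ h : ℕ, 1 ≤ h → h ≤ T → ¬ (p + h).Prime ∧ ¬ (h ≤ p ∧ (p - h).Prime) := by
      intro h hh1 hh2
      constructor
      · intro h3
        exact hB ⟨hp1, hpp, h, hh1, hh2, Or.inl h3⟩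
      · intro h3
        exact hB ⟨hp1, hpp, h, hh1, hh2, Or.inr h3⟩
    apply hpn
    obtain ⟨hlow, hup, -⟩ := hA'
    rw [mem_Ioc] at hp1
    intro k H hk hH
    have hkr : (1 : ℝ) ≤ k := by exact_mod_cast hk
    constructor
    · intro hCH
      -- the lower bound
      have hH1 : 1 ≤ H := by
        have : (0 : ℝ) < H := lt_of_lt_of_le (by positivity) hCH
        exact_mod_cast this
      obtain ⟨l1, l2⟩ := hlow H hH1 hH
      have hk2 : (k : ℝ) + 2 ≤ c / Real.log X * H := by
        have h5 : 3 / c ≤ C := by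
          rw [hC]
          have : 0 ≤ (Lam + 1) * (2 / η) := by positivity
          linarith
        have h6 : 3 / c * k * Real.log X ≤ H := by
          refine le_trans ?_ hCH
          gcongr
        calc (k : ℝ) + 2 ≤ 3 * k := by linarith
          _ = c / Real.log X * (3 / c * k * Real.log X) := by field_simp
          _ ≤ c / Real.log X * H := by gcongr
      constructor
      · -- forward
        have h7 : (cl Nat.Prime p (p + H) : ℝ) ≤ ((Ioc p (p + H)).filter Nat.Prime).card + 1 := by
          have h8 : cl Nat.Prime p (p + H) ≤ ((Ioc p (p + H)).filter Nat.Prime).card + 1 := by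
            unfold cl
            have h9 : (Ico p (p + H)).filter Nat.Prime ⊆ insert p ((Ioc p (p + H)).filter Nat.Prime) := by
              intro m hm
              rw [mem_filter, mem_Ico] at hm
              rw [mem_insert, mem_filter, mem_Ioc]
              rcases Nat.eq_or_lt_of_le hm.1.1 with h10 | h10
              · exact Or.inl h10.symm
              · exact Or.inr ⟨⟨h10, hm.1.2.le⟩, hm.2⟩
            exact (card_le_card h9).trans (card_insert_le _ _)
          exact_mod_cast h8
        have h8 : (k : ℝ) ≤ ((Ioc p (p + H)).filter Nat.Prime).card := by linarith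
        exact_mod_cast h8
      · have h7 : (cl Nat.Prime (p + 1 - H) (p + 1) : ℝ) ≤ ((Ico (p - H) p).filter Nat.Prime).card + 1 := by
          have h8 : cl Nat.Prime (p + 1 - H) (p + 1) ≤ ((Ico (p - H) p).filter Nat.Prime).card + 1 := by
            unfold cl
            have h9 : (Ico (p + 1 - H) (p + 1)).filter Nat.Prime ⊆
                insert p ((Ico (p - H) p).filter Nat.Prime) := by
              intro m hm
              rw [mem_filter, mem_Ico] at hm
              rw [mem_insert, mem_filter, mem_Ico]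
              rcases Nat.eq_or_lt_of_le (Nat.lt_succ_iff.1 hm.1.2) with h10 | h10
              · exact Or.inl h10
              · exact Or.inr ⟨⟨by omega, h10⟩, hm.2⟩
            exact (card_le_card h9).trans (card_insert_le _ _)
          exact_mod_cast h8
        have h8 : (k : ℝ) ≤ ((Ico (p - H) p).filter Nat.Prime).card := by linarith
        exact_mod_cast h8
    · intro hCH
      -- the upper bound
      have key : ∀ S : Finset ℕ, (∀ m ∈ S, m.Prime ∧ ((p < m ∧ m ≤ p + H) ∨ (m < p ∧ p ≤ m + H))) →
          ((⌊Real.log X⌋₊ ≤ H → (S.card : ℝ) ≤ Lam / Real.log X * H)) →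
          (H < ⌊Real.log X⌋₊ → (S.card : ℝ) ≤ Lam) → S.card < k := by
        intro S hS hS1 hS2
        by_cases hHT : H ≤ T
        · -- no prime at all
          have h5 : S = ∅ := by
            rw [eq_empty_iff_forall_notMem]
            intro m hm
            obtain ⟨h6, h7 | h7⟩ := hS m hm
            · have h8 := (hB' (m - p) (by omega) (by omega)).1
              rw [show p + (m - p) = m by omega] at h8
              exact h8 h6
            · have h8 := (hB' (p - m) (by omega) (by omega)).2
              apply h8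
              rw [show p - (p - m) = m by omega]
              exact ⟨by omega, h6⟩
          rw [h5, card_empty]
          exact hk
        · push Not at hHT
          have hHη : η * Real.log X ≤ 2 * H := by
            have h5 : (T : ℝ) + 1 ≤ H := by exact_mod_cast hHT
            have h6 : (0 : ℝ) ≤ H := Nat.cast_nonneg _
            linarith
          have hCexp : C * H = (3 / c + 1) * H + (Lam + 1) * (2 / η * H) + Lam * H := by
            rw [hC]; ring
          have hH0 : (0 : ℝ) ≤ H := Nat.cast_nonneg _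
          have e1 : 0 ≤ (3 / c + 1) * (H : ℝ) := by positivity
          have e3 : 0 ≤ Lam * (H : ℝ) := by positivity
          have h8 : Real.log X ≤ 2 / η * H := by
            rw [div_mul_eq_mul_div, le_div_iff₀ hη0]
            linarith
          by_cases hHL : ⌊Real.log X⌋₊ ≤ H
          · have h5 := hS1 hHL
            have h6 : (S.card : ℝ) * Real.log X ≤ Lam * H := by
              calc (S.card : ℝ) * Real.log X ≤ (Lam / Real.log X * H) * Real.log X := by gcongr
                _ = Lam * H := by field_simp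
            have e2 : 0 < (Lam + 1) * (2 / η * (H : ℝ)) := by
              have : 0 < 2 / η * (H : ℝ) := lt_of_lt_of_le hL0 h8
              positivity
            have h7 : (S.card : ℝ) * Real.log X < k * Real.log X := by linarith
            have h9 := lt_of_mul_lt_mul_right h7 hL0.le
            exact_mod_cast h9
          · push Not at hHL
            have h5 := hS2 hHL
            have h7 : (Lam + 1) * Real.log X ≤ (Lam + 1) * (2 / η * H) := by gcongr
            have h9 : (S.card : ℝ) * Real.log X < k * Real.log X := by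
              have h10 : (S.card : ℝ) * Real.log X ≤ Lam * Real.log X := by gcongr
              have h11 : (Lam + 1) * Real.log X = Lam * Real.log X + Real.log X := by ring
              linarith
            have h10 := lt_of_mul_lt_mul_right h9 hL0.le
            exact_mod_cast h10
      have hfl : (⌊Real.log X⌋₊ : ℝ) ≤ Real.log X := Nat.floor_le hL0.le
      have hflY : ⌊Real.log X⌋₊ ≤ Y := by
        have : (⌊Real.log X⌋₊ : ℝ) ≤ Y := hfl.trans hLY
        exact_mod_cast this
      have hLam : Lam / Real.log X * (⌊Real.log X⌋₊ : ℝ) ≤ Lam := by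
        calc Lam / Real.log X * (⌊Real.log X⌋₊ : ℝ) ≤ Lam / Real.log X * Real.log X := by gcongr
          _ = Lam := by field_simp
      have hback : ∀ G : ℕ, 1 ≤ G → ((Ico (p - G) p).filter Nat.Prime).card ≤ co Nat.Prime (p - G) p := by
        intro G hG
        unfold co
        have h9 : (Ico (p - G) p).filter Nat.Prime ⊆
            insert (p - G) (((Ioc (p - G) p).filter Nat.Prime).erase p) := by
          intro m hm
          rw [mem_filter, mem_Ico] at hm
          rw [mem_insert, mem_erase, mem_filter, mem_Ioc]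
          rcases Nat.eq_or_lt_of_le hm.1.1 with h10 | h10
          · exact Or.inl h10.symm
          · exact Or.inr ⟨by omega, ⟨h10, hm.1.2.le⟩, hm.2⟩
        have h10 : p ∈ (Ioc (p - G) p).filter Nat.Prime := by
          rw [mem_filter, mem_Ioc]
          exact ⟨⟨by have := hpp.pos; omega, le_rfl⟩, hpp⟩
        have h11 := (card_le_card h9).trans (card_insert_le _ _)
        rw [card_erase_of_mem h10] at h11
        have h12 : 1 ≤ ((Ioc (p - G) p).filter Nat.Prime).card := card_pos.2 ⟨p, h10⟩
        omega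
      constructor
      · apply key ((Ioc p (p + H)).filter Nat.Prime)
        · intro m hm
          rw [mem_filter, mem_Ioc] at hm
          exact ⟨hm.2, Or.inl hm.1⟩
        · intro hHL
          exact (hup H hHL hH).1
        · intro hHL
          refine le_trans ?_ (((hup _ le_rfl hflY).1).trans hLam)
          refine Nat.cast_le.2 ?_
          unfold co
          apply card_le_card
          apply filter_subset_filter
          exact Ioc_subset_Ioc_right (by omega)
      · apply key ((Ico (p - H) p).filter Nat.Prime)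
        · intro m hm
          rw [mem_filter, mem_Ico] at hm
          exact ⟨hm.2, Or.inr ⟨hm.1.2, by omega⟩⟩
        · intro hHL
          rcases Nat.eq_zero_or_pos H with rfl | hH1
          · simp
          · exact le_trans (Nat.cast_le.2 (hback H hH1)) (hup H hHL hH).2
        · intro hHL
          refine le_trans (Nat.cast_le.2 ?_) (((hup _ le_rfl hflY).2).trans hLam)
          refine le_trans ?_ (hback _ (by omega))
          apply card_le_card
          apply filter_subset_filter
          exact Ico_subset_Ico_left (by omega)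
  have hcard : (((Ioc X (X + Y)).filter (fun p => p.Prime ∧ ¬ Nice C X Y p)).card : ℝ) ≤
      ε / 2 * Y / Real.log X + (C1 * Y * T / Real.log X ^ 2 + T) := by
    have h5 := (card_le_card hsub).trans (card_union_le _ _)
    have h6 : (((Ioc X (X + Y)).filter (fun p => p.Prime ∧ ¬ Nice C X Y p)).card : ℝ) ≤ _ :=
      Nat.cast_le.2 h5
    rw [Nat.cast_add] at h6
    exact h6.trans (add_le_add hX1 hX2)
  refine hcard.trans ?_
  have h5 : C1 * Y * T / Real.log X ^ 2 ≤ ε / 8 * Y / Real.log X := by
    rw [div_le_div_iff₀ (by positivity) hL0]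
    calc C1 * Y * T * Real.log X ≤ C1 * Y * (η * Real.log X) * Real.log X := by gcongr
      _ = (η * C1) * Y * Real.log X ^ 2 := by ring
      _ ≤ (ε / 8) * Y * Real.log X ^ 2 := by gcongr
      _ = _ := by ring
  have h6 : (T : ℝ) ≤ ε / 8 * Y / Real.log X := by
    rw [le_div_iff₀ hL0]
    calc (T : ℝ) * Real.log X ≤ (η * Real.log X) * Real.log X := by gcongr
      _ ≤ (1 * Real.log X) * Real.log X := by gcongr
      _ = Real.log X ^ 2 := by ring
      _ ≤ ε / 8 * Y := hsq
  have h7 : 0 ≤ ε * Y / Real.log X := by positivity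
  have h8 : ε / 2 * Y / Real.log X + (ε / 8 * Y / Real.log X + ε / 8 * Y / Real.log X) =
      3 / 4 * (ε * Y / Real.log X) := by ring
  linarith

end Pool.Agent.X119.PWin
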