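import Pool.Agent.X119.Steps
import Pool.Agent.Cov.PNT

set_option autoImplicit false

/-!
# The next prime is at most `7 / 5` times the prime
-/

namespace Pool.Agent.X119.Pnt

open Finset Filter Topology
open Pool.Agent.X119.Steps

lemma next_le : ∀ᶠ p : ℕ in atTop, ∀ j : ℕ, pr j = p → (pr (j + 1) : ℝ) ≤ 7 / 5 * p := by
  have h1 := Pool.Agent.Cov.PNT.pi_tendsto
  have h2 := h1.eventually (Icc_mem_nhds (show (19 / 20 : ℝ) < 1 by norm_num) (show (1 : ℝ) < 21 / 20 by norm_num))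
  obtain ⟨u₀, hu₀⟩ := eventually_atTop.1 h2
  have hlog : Tendsto (fun X : ℕ => Real.log (X : ℝ)) atTop atTop :=
    Real.tendsto_log_atTop.comp tendsto_natCast_atTop_atTop
  filter_upwards [hlog.eventually_ge_atTop (max 10 (10 * Real.log (7 / 5))), eventually_ge_atTop 3,
    eventually_ge_atTop ⌈u₀⌉₊] with p hl hp3 hpu j hj
  have hl1 : 10 ≤ Real.log p := (le_max_left _ _).trans hl
  have hl2 : 10 * Real.log (7 / 5) ≤ Real.log p := (le_max_right _ _).trans hl
  have hpr : (3 : ℝ) ≤ p := by exact_mod_cast hp3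
  have hpu' : u₀ ≤ p := (Nat.le_ceil _).trans (by exact_mod_cast hpu)
  have hl0 : 0 < Real.log p := by linarith
  have hly : Real.log (7 / 5 * p) = Real.log (7 / 5) + Real.log p := Real.log_mul (by norm_num) (by linarith)
  have hl75 : 0 < Real.log (7 / 5) := Real.log_pos (by norm_num)
  obtain ⟨-, a2⟩ := hu₀ p hpu'
  obtain ⟨b1, -⟩ := hu₀ (7 / 5 * p) (by linarith)
  rw [Nat.floor_natCast, div_le_iff₀ (by linarith)] at a2
  rw [le_div_iff₀ (by linarith), hly] at b1
  -- `π(p) < π(7 p / 5)`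
  have hlt : Nat.primeCounting p < Nat.primeCounting ⌊7 / 5 * (p : ℝ)⌋₊ := by
    by_contra hcon
    push Not at hcon
    have hcr : (Nat.primeCounting ⌊7 / 5 * (p : ℝ)⌋₊ : ℝ) ≤ Nat.primeCounting p := by exact_mod_cast hcon
    have h3 : 19 / 20 * (7 / 5 * (p : ℝ)) ≤ Nat.primeCounting p * (11 / 10 * Real.log p) := by
      refine b1.trans ?_
      apply mul_le_mul hcr _ (by positivity) (by positivity)
      linarith
    nlinarith
  unfold Nat.primeCounting Nat.primeCounting' at hlt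
  rw [← hj, count_pr_succ, hj] at hlt
  have h5 : pr (j + 1) < ⌊7 / 5 * (p : ℝ)⌋₊ + 1 := Nat.nth_lt_of_lt_count hlt
  have h6 : pr (j + 1) ≤ ⌊7 / 5 * (p : ℝ)⌋₊ := by omega
  have h7 : (pr (j + 1) : ℝ) ≤ ⌊7 / 5 * (p : ℝ)⌋₊ := by exact_mod_cast h6
  exact h7.trans (Nat.floor_le (by positivity))

end Pool.Agent.X119.Pnt
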