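import Pool.Agent.X119.Steps
import Pool.Agent.X119.Dens

set_option autoImplicit false

/-!
# Second differences of the sequence of the primes
-/

namespace Pool.Agent.X119.Second

open Finset Filter
open Pool.Agent.X119.Steps Pool.Agent.X119.Dens

lemma cnt_pr (n k : ℕ) : cnt (pr n) (pr (n + k)) = k := by
  have hle : pr n ≤ pr (n + k) := Nat.nth_monotone Nat.infinite_setOfPred_prime (Nat.le_add_right n k)
  have h1 := count_add (pr n + 1) (pr (n + k) - pr n)
  rw [show pr n + 1 + (pr (n + k) - pr n) = pr (n + k) + 1 by omega, count_pr_succ, count_pr_succ] at h1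
  unfold cnt
  have h2 : Ioc (pr n) (pr (n + k)) = Ico (pr n + 1) (pr (n + k) + 1) := by
    ext m
    rw [mem_Ioc, mem_Ico]
    omega
  rw [h2]
  omega

open Classical in
/-- the number of the `i` with `C 2 ^ i log X ≤ Y` such that the distances from the `n`-th prime to the primes
`2 ^ i` steps after and before it differ by more than `δ 2 ^ i log X` -/
noncomputable def unbalanced (C δ : ℝ) (X Y n : ℕ) : ℕ :=
  ((range (Nat.log 2 Y + 1)).filter (fun i => C * 2 ^ i * Real.log X ≤ Y ∧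
    ¬ |(pr (n + 2 ^ i) : ℝ) - 2 * pr n + pr (n - 2 ^ i)| ≤ δ * 2 ^ i * Real.log X)).card

lemma sec_core {Cd L δ' lam k gp gm D δ : ℝ} (hCd : 1 ≤ Cd) (hL : 0 < L) (hk : 1 ≤ k)
    (hδ0 : 0 < δ') (hδ1 : 8 * Cd ^ 2 * δ' ≤ δ) (hδ2 : 4 * Cd * δ' ≤ 1)
    (hD : D ≤ 2 * Cd * k * L) (hgp : gp ≤ Cd * k * L) (hlam : 0 ≤ lam)
    (h1 : |k - lam * gp / L| ≤ δ' * D / L) (h2 : |k - lam * gm / L| ≤ δ' * D / L) :
    |gp - gm| ≤ δ * k * L := by
  have hCd0 : 0 < Cd := by linarith
  have hk0 : 0 < k := by linarith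
  have e1 : δ' * D / L ≤ 2 * Cd * δ' * k := by
    rw [div_le_iff₀ hL]
    calc δ' * D ≤ δ' * (2 * Cd * k * L) := by gcongr
      _ = _ := by ring
  have a1 := abs_le.1 (h1.trans e1)
  have a2 := abs_le.1 (h2.trans e1)
  -- lower bound for the density
  have e2 : lam * gp / L ≤ lam * Cd * k := by
    rw [div_le_iff₀ hL]
    calc lam * gp ≤ lam * (Cd * k * L) := by gcongr
      _ = _ := by ring
  have e3 : 1 ≤ 2 * Cd * lam := by
    have h5 : k - lam * Cd * k ≤ 2 * Cd * δ' * k := by linarith [a1.2]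
    have h6 : (1 - lam * Cd) * k ≤ (2 * Cd * δ') * k := by linarith
    have h7 := le_of_mul_le_mul_right h6 hk0
    nlinarith
  have hlam0 : 0 < lam := by
    by_contra hcon
    have : lam = 0 := le_antisymm (not_lt.1 hcon) hlam
    rw [this] at e3
    linarith
  have e4 : |lam * (gp - gm)| ≤ 4 * Cd * δ' * k * L := by
    have h5 : lam * (gp - gm) = (lam * gp / L - lam * gm / L) * L := by field_simp
    rw [h5, abs_mul, abs_of_pos hL]
    apply mul_le_mul_of_nonneg_right _ hL.le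
    rw [abs_le]
    constructor <;> linarith [a1.1, a1.2, a2.1, a2.2]
  rw [abs_mul, abs_of_pos hlam0] at e4
  have hkL : 0 < k * L := by positivity
  calc |gp - gm| = 1 * |gp - gm| := (one_mul _).symm
    _ ≤ (2 * Cd * lam) * |gp - gm| := by gcongr
    _ = 2 * Cd * (lam * |gp - gm|) := by ring
    _ ≤ 2 * Cd * (4 * Cd * δ' * k * L) := by gcongr
    _ = (8 * Cd ^ 2 * δ') * (k * L) := by ring
    _ ≤ δ * (k * L) := by gcongr
    _ = δ * k * L := by ring

open Classical in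
/-- **Second differences at almost all primes.** -/
theorem second (θ : ℝ) (h0 : 0 < θ) (h1 : θ ≤ 1) (ε : ℝ) (hε : 0 < ε) :
    ∃ C : ℝ, 1 ≤ C ∧ ∀ δ : ℝ, 0 < δ → ∃ B : ℕ, ∀ᶠ X : ℕ in atTop, ∀ Y : ℕ, (X : ℝ) ^ θ ≤ Y → Y ≤ X →
      ({n : ℕ | X < pr n ∧ pr n ≤ X + Y ∧ ¬ (Dist C X Y n ∧ unbalanced C δ X Y n ≤ B)}.ncard : ℝ) ≤
        ε * Y / Real.log X := by
  obtain ⟨Cd, hCd, hdist⟩ := dist θ h0 h1 (ε / 2) (by positivity)
  obtain ⟨Cn, hCn, hdens⟩ := dens θ h0 h1 (ε / 2) (by positivity)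
  have hCd0 : 0 < Cd := by linarith
  refine ⟨2 * Cd, by linarith, fun δ hδ => ?_⟩
  obtain ⟨δ', hδ'⟩ : ∃ δ' : ℝ, δ' = min (δ / (8 * Cd ^ 2)) (1 / (4 * Cd)) := ⟨_, rfl⟩
  have hd0 : 0 < δ' := by rw [hδ']; exact lt_min (by positivity) (by positivity)
  have hd1 : 8 * Cd ^ 2 * δ' ≤ δ := by
    calc 8 * Cd ^ 2 * δ' ≤ 8 * Cd ^ 2 * (δ / (8 * Cd ^ 2)) := by
          apply mul_le_mul_of_nonneg_left _ (by positivity)
          rw [hδ']
          exact min_le_left _ _
      _ = δ := by field_simp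
  have hd2 : 4 * Cd * δ' ≤ 1 := by
    calc 4 * Cd * δ' ≤ 4 * Cd * (1 / (4 * Cd)) := by
          apply mul_le_mul_of_nonneg_left _ (by positivity)
          rw [hδ']
          exact min_le_right _ _
      _ = 1 := by field_simp
  obtain ⟨B, hB⟩ := hdens δ' hd0
  refine ⟨B, ?_⟩
  have hlogX : Tendsto (fun X : ℕ => Real.log (X : ℝ)) atTop atTop :=
    Real.tendsto_log_atTop.comp tendsto_natCast_atTop_atTop
  filter_upwards [hdist, hB, hlogX.eventually_ge_atTop 1] with X hX1 hX2 hlog Y hXY hYX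
  have g1 := hX1 Y hXY hYX
  have g2 := hX2 Y hXY hYX (Real.log X) le_rfl (by linarith)
  have hL0 : 0 < Real.log X := by linarith
  -- the implication
  have key : ∀ n, X < pr n → Dist Cd X Y n → badScales Cn (Real.log X) δ' Y (pr n) ≤ B →
      Dist (2 * Cd) X Y n ∧ unbalanced (2 * Cd) δ X Y n ≤ B := by
    intro n hn hD hbad
    constructor
    · intro k hk hkY
      have hkr : (1 : ℝ) ≤ k := by exact_mod_cast hk
      have hkL : 0 < k * Real.log X := by positivity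
      have hckL : 0 < Cd * k * Real.log X := by positivity
      obtain ⟨⟨a1, a2⟩, a3, a4, a5⟩ := hD k hk (by
        refine le_trans ?_ hkY
        nlinarith)
      have e1 : k * Real.log X / (2 * Cd) ≤ k * Real.log X / Cd := by
        apply div_le_div_of_nonneg_left hkL.le hCd0 (by linarith)
      have e2 : Cd * k * Real.log X ≤ 2 * Cd * k * Real.log X := by nlinarith
      exact ⟨⟨e1.trans a1, a2.trans e2⟩, a3, e1.trans a4, a5.trans e2⟩
    · refine le_trans ?_ hbad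
      obtain ⟨a0, ha1, ha2⟩ := exists_nat_pow_near (x := Cd * Real.log X) (y := 2) (by nlinarith) (by norm_num)
      unfold unbalanced badScales
      apply card_le_card_of_injOn (fun i => i + (a0 + 1))
      · intro i hi
        rw [mem_coe, mem_filter, mem_range] at hi
        obtain ⟨-, hi1, hi2⟩ := hi
        have hk1 : (1 : ℝ) ≤ 2 ^ i := one_le_pow₀ (by norm_num)
        have hk1' : 1 ≤ 2 ^ i := Nat.one_le_two_pow
        have hDeq : (2 : ℝ) ^ (i + (a0 + 1)) = 2 ^ i * 2 ^ (a0 + 1) := pow_add _ _ _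
        have hDup : (2 : ℝ) ^ (i + (a0 + 1)) ≤ 2 * Cd * 2 ^ i * Real.log X := by
          rw [hDeq, pow_succ]
          calc (2 : ℝ) ^ i * (2 ^ a0 * 2) ≤ 2 ^ i * ((Cd * Real.log X) * 2) := by gcongr
            _ = _ := by ring
        have hDlow : Cd * 2 ^ i * Real.log X ≤ (2 : ℝ) ^ (i + (a0 + 1)) := by
          rw [hDeq]
          calc Cd * 2 ^ i * Real.log X = 2 ^ i * (Cd * Real.log X) := by ring
            _ ≤ 2 ^ i * 2 ^ (a0 + 1) := by gcongr
        have hDY : 2 ^ (i + (a0 + 1)) ≤ Y := by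
          have : (2 : ℝ) ^ (i + (a0 + 1)) ≤ Y := hDup.trans hi1
          exact_mod_cast this
        obtain ⟨⟨a1, a2⟩, a3, a4, a5⟩ := hD (2 ^ i) hk1' (by
          push_cast
          refine le_trans ?_ hi1
          nlinarith [mul_pos (mul_pos hCd0 (lt_of_lt_of_le one_pos hk1)) hL0])
        push_cast at a1 a2 a4 a5
        rw [mem_coe, mem_filter, mem_range]
        refine ⟨?_, ?_, ?_⟩
        · exact Nat.lt_succ_of_le (Nat.le_log_of_pow_le (by norm_num) hDY)
        · refine le_trans ?_ hDlow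
          have h5 : 1 ≤ Cd * 2 ^ i := by nlinarith
          nlinarith
        · rintro ⟨lam, l1, -, l3⟩
          apply hi2
          have hpow : ((2 ^ (i + (a0 + 1)) : ℕ) : ℝ) = (2 : ℝ) ^ (i + (a0 + 1)) := by push_cast; rfl
          have hmono1 : pr n ≤ pr (n + 2 ^ i) :=
            Nat.nth_monotone Nat.infinite_setOfPred_prime (Nat.le_add_right _ _)
          have hmono2 : pr (n - 2 ^ i) ≤ pr n :=
            Nat.nth_monotone Nat.infinite_setOfPred_prime (Nat.sub_le _ _)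
          have hup : pr (n + 2 ^ i) ≤ pr n + 2 ^ (i + (a0 + 1)) := by
            have h6 : (pr (n + 2 ^ i) : ℝ) ≤ pr n + ((2 ^ (i + (a0 + 1)) : ℕ) : ℝ) := by
              rw [hpow]
              linarith
            exact_mod_cast h6
          have hdn : pr n ≤ pr (n - 2 ^ i) + 2 ^ (i + (a0 + 1)) := by
            have h6 : (pr n : ℝ) ≤ pr (n - 2 ^ i) + ((2 ^ (i + (a0 + 1)) : ℕ) : ℝ) := by
              rw [hpow]
              linarith
            exact_mod_cast h6
          have b1 := l3 (pr n) (pr (n + 2 ^ i)) (Nat.le_add_right _ _) hmono1 hup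
          have b2 := l3 (pr (n - 2 ^ i)) (pr n) hdn hmono2 (Nat.le_add_right _ _)
          rw [cnt_pr] at b1
          have hc2 : cnt (pr (n - 2 ^ i)) (pr n) = 2 ^ i := by
            have := cnt_pr (n - 2 ^ i) (2 ^ i)
            rwa [Nat.sub_add_cancel a3] at this
          rw [hc2] at b2
          rw [hpow] at b1 b2
          push_cast at b1 b2
          have h7 := sec_core (k := (2 : ℝ) ^ i) (gp := (pr (n + 2 ^ i) : ℝ) - pr n)
            (gm := (pr n : ℝ) - pr (n - 2 ^ i)) hCd hL0 hk1 hd0 hd1 hd2 hDup a2 l1 b1 b2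
          have e5 : (pr (n + 2 ^ i) : ℝ) - 2 * pr n + pr (n - 2 ^ i) =
              ((pr (n + 2 ^ i) : ℝ) - pr n) - ((pr n : ℝ) - pr (n - 2 ^ i)) := by ring
          rw [e5]
          exact h7
      · intro i _ j _ hij
        simpa using hij
  -- the exceptional sets
  have hfin : ∀ s : Set ℕ, (∀ n ∈ s, pr n ≤ X + Y) → s.Finite := by
    intro s hs
    apply (Set.finite_Iic (X + Y)).subset
    intro n hn
    have : n ≤ pr n := by
      have h1 := count_pr n
      have h2 := Nat.count_le (p := Nat.Prime) (n := pr n)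
      omega
    exact this.trans (hs n hn)
  obtain ⟨S1, hS1⟩ : ∃ S1 : Set ℕ, S1 = {n : ℕ | X < pr n ∧ pr n ≤ X + Y ∧ ¬ Dist Cd X Y n} := ⟨_, rfl⟩
  obtain ⟨S2, hS2⟩ : ∃ S2 : Set ℕ, S2 = {n : ℕ | X < pr n ∧ pr n ≤ X + Y ∧
    ¬ (badScales Cn (Real.log X) δ' Y (pr n) ≤ B)} := ⟨_, rfl⟩
  have hsub : {n : ℕ | X < pr n ∧ pr n ≤ X + Y ∧ ¬ (Dist (2 * Cd) X Y n ∧
      unbalanced (2 * Cd) δ X Y n ≤ B)} ⊆ S1 ∪ S2 := by
    rintro n ⟨n1, n2, n3⟩
    by_contra hcon
    rw [Set.mem_union, not_or, hS1, hS2] at hcon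
    apply n3
    apply key n n1
    · by_contra h5
      exact hcon.1 ⟨n1, n2, h5⟩
    · by_contra h5
      exact hcon.2 ⟨n1, n2, h5⟩
  have hf1 : S1.Finite := hfin _ (by rw [hS1]; exact fun n hn => hn.2.1)
  have hf2 : S2.Finite := hfin _ (by rw [hS2]; exact fun n hn => hn.2.1)
  have hcard := (Set.ncard_le_ncard hsub (hf1.union hf2)).trans (Set.ncard_union_le _ _)
  have hc1 : (S1.ncard : ℝ) ≤ ε / 2 * Y / Real.log X := by
    rw [hS1]
    exact g1
  have hc2 : (S2.ncard : ℝ) ≤ ε / 2 * Y / Real.log X := by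
    refine le_trans (Nat.cast_le.2 ?_) g2
    rw [← Set.ncard_coe_finset]
    apply Set.ncard_le_ncard_of_injOn pr
    · rw [hS2]
      rintro n ⟨n1, n2, n3⟩
      rw [mem_coe, mem_filter, mem_Ioc]
      exact ⟨⟨n1, n2⟩, pr_prime n, fun hN => n3 hN.2⟩
    · exact pr_inj.injOn
  calc (({n : ℕ | X < pr n ∧ pr n ≤ X + Y ∧ ¬ (Dist (2 * Cd) X Y n ∧
      unbalanced (2 * Cd) δ X Y n ≤ B)}.ncard : ℕ) : ℝ) ≤ ((S1.ncard + S2.ncard : ℕ) : ℝ) :=
        Nat.cast_le.2 hcard
    _ = (S1.ncard : ℝ) + S2.ncard := by push_cast; rfl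
    _ ≤ ε / 2 * Y / Real.log X + ε / 2 * Y / Real.log X := add_le_add hc1 hc2
    _ = ε * Y / Real.log X := by ring

end Pool.Agent.X119.Second
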