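import Pool.Agent.X119.PWin

set_option autoImplicit false

/-!
# The distances from almost all primes to all following and preceding primes, in terms of the `n`-th prime
-/

namespace Pool.Agent.X119.Steps

open Finset Filter
open Pool.Agent.X119.PWin

/-- the primes in increasing order, `pr 0 = 2` -/
noncomputable def pr (n : ℕ) : ℕ := Nat.nth Nat.Prime n

lemma pr_prime (n : ℕ) : (pr n).Prime := Nat.prime_nth_prime n

lemma count_pr (n : ℕ) : Nat.count Nat.Prime (pr n) = n :=
  Nat.count_nth_of_infinite Nat.infinite_setOfPred_prime n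

lemma pr_inj : Function.Injective pr := Nat.nth_injective Nat.infinite_setOfPred_prime

lemma count_pr_succ (n : ℕ) : Nat.count Nat.Prime (pr n + 1) = n + 1 := by
  rw [Nat.count_succ, count_pr, if_pos (pr_prime n)]

lemma count_add (a H : ℕ) : Nat.count Nat.Prime (a + H) =
    Nat.count Nat.Prime a + ((Ico a (a + H)).filter Nat.Prime).card := by
  rw [Nat.count_eq_card_filter_range, Nat.count_eq_card_filter_range, ← card_union_of_disjoint]
  · congr 1
    ext m
    simp only [mem_filter, mem_range, mem_union, mem_Ico]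
    constructor
    · rintro ⟨h1, h2⟩
      rcases Nat.lt_or_ge m a with h3 | h3
      · exact Or.inl ⟨h3, h2⟩
      · exact Or.inr ⟨⟨h3, h1⟩, h2⟩
    · rintro (⟨h1, h2⟩ | ⟨⟨h1, h3⟩, h2⟩)
      · exact ⟨by omega, h2⟩
      · exact ⟨h3, h2⟩
  · rw [disjoint_left]
    intro m h1 h2
    rw [mem_filter, mem_range] at h1
    rw [mem_filter, mem_Ico] at h2
    omega

lemma Ioc_eq (a H : ℕ) : Ioc a (a + H) = Ico (a + 1) (a + 1 + H) := by
  ext m
  rw [mem_Ioc, mem_Ico]
  omega

lemma fwd_le {n k H : ℕ} (h : k ≤ ((Ioc (pr n) (pr n + H)).filter Nat.Prime).card) :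
    pr (n + k) ≤ pr n + H := by
  have h1 : n + k < Nat.count Nat.Prime (pr n + 1 + H) := by
    rw [count_add, count_pr_succ, ← Ioc_eq]
    omega
  have h2 : pr (n + k) < pr n + 1 + H := Nat.nth_lt_of_lt_count h1
  omega

lemma fwd_lt {n k H : ℕ} (h : ((Ioc (pr n) (pr n + H)).filter Nat.Prime).card < k) :
    pr n + H < pr (n + k) := by
  have h1 : Nat.count Nat.Prime (pr n + 1 + H) ≤ n + k := by
    rw [count_add, count_pr_succ, ← Ioc_eq]
    omega
  have h2 : pr n + 1 + H ≤ pr (n + k) := (Nat.count_le_iff_le_nth Nat.infinite_setOfPred_prime).1 h1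
  omega

lemma bwd_count {n H : ℕ} (hH : H ≤ pr n) : Nat.count Nat.Prime (pr n - H) +
    ((Ico (pr n - H) (pr n)).filter Nat.Prime).card = n := by
  have h1 := count_add (pr n - H) H
  rw [Nat.sub_add_cancel hH, count_pr] at h1
  omega

lemma bwd_le {n k H : ℕ} (h : k ≤ ((Ico (pr n - H) (pr n)).filter Nat.Prime).card) :
    k ≤ n ∧ pr n ≤ pr (n - k) + H := by
  rcases Nat.lt_or_ge (pr n) H with hH | hH
  · have h0 : pr n - H = 0 := by omega
    rw [h0] at h
    have h1 : ((Ico 0 (pr n)).filter Nat.Prime).card = n := by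
      have := count_add 0 (pr n)
      rw [zero_add, count_pr, Nat.count_zero, zero_add] at this
      exact this.symm
    exact ⟨by omega, by omega⟩
  · have h1 := bwd_count hH
    refine ⟨by omega, ?_⟩
    have h2 : Nat.count Nat.Prime (pr n - H) ≤ n - k := by omega
    have h3 : pr n - H ≤ pr (n - k) := (Nat.count_le_iff_le_nth Nat.infinite_setOfPred_prime).1 h2
    omega

lemma bwd_lt {n k H : ℕ} (hkn : k ≤ n) (h : ((Ico (pr n - H) (pr n)).filter Nat.Prime).card < k) :
    pr (n - k) + H < pr n := by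
  rcases Nat.lt_or_ge (pr n) H with hH | hH
  · have h0 : pr n - H = 0 := by omega
    rw [h0] at h
    have h1 : ((Ico 0 (pr n)).filter Nat.Prime).card = n := by
      have := count_add 0 (pr n)
      rw [zero_add, count_pr, Nat.count_zero, zero_add] at this
      exact this.symm
    omega
  · have h1 := bwd_count hH
    have h2 : n - k < Nat.count Nat.Prime (pr n - H) := by omega
    have h3 : pr (n - k) < pr n - H := Nat.nth_lt_of_lt_count h2
    omega

/-- For all `k ≥ 1` with `C k log X ≤ Y` the distances of the `n`-th prime to the `k`-th prime after and to the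
`k`-th prime before it lie between `k log X / C` and `C k log X`. -/
def Dist (C : ℝ) (X Y n : ℕ) : Prop :=
  ∀ k : ℕ, 1 ≤ k → C * k * Real.log X ≤ Y →
    (k * Real.log X / C ≤ (pr (n + k) : ℝ) - pr n ∧ (pr (n + k) : ℝ) - pr n ≤ C * k * Real.log X) ∧
    k ≤ n ∧ (k * Real.log X / C ≤ (pr n : ℝ) - pr (n - k) ∧ (pr n : ℝ) - pr (n - k) ≤ C * k * Real.log X)

lemma dist_of_nice {C : ℝ} (hC : 1 ≤ C) {X Y n : ℕ} (hX : 1 ≤ Real.log X) (h : Nice C X Y (pr n)) :
    Dist (C + 1) X Y n := by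
  intro k hk hkY
  have hkr : (1 : ℝ) ≤ k := by exact_mod_cast hk
  have hL0 : 0 < Real.log X := by linarith
  have hkL : 1 ≤ k * Real.log X := by nlinarith
  have hC0 : 0 < C := by linarith
  -- the upper length
  obtain ⟨H, hH⟩ : ∃ H : ℕ, H = ⌈C * k * Real.log X⌉₊ := ⟨_, rfl⟩
  have hH1 : C * k * Real.log X ≤ H := by rw [hH]; exact Nat.le_ceil _
  have hH2 : (H : ℝ) < C * k * Real.log X + 1 := by rw [hH]; exact Nat.ceil_lt_add_one (by positivity)
  have hH3 : (H : ℝ) ≤ (C + 1) * k * Real.log X := by nlinarith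
  have hHY : H ≤ Y := by
    have : (H : ℝ) ≤ Y := hH3.trans hkY
    exact_mod_cast this
  obtain ⟨u1, u2⟩ := (h k H hk hHY).1 hH1
  have f1 := fwd_le u1
  obtain ⟨hkn, f2⟩ := bwd_le u2
  -- the lower length
  obtain ⟨G, hG⟩ : ∃ G : ℕ, G = ⌈k * Real.log X / C⌉₊ - 1 := ⟨_, rfl⟩
  have hpos : 0 < k * Real.log X / C := by positivity
  have hceil : 1 ≤ ⌈k * Real.log X / C⌉₊ := Nat.one_le_ceil_iff.2 hpos
  have hG1 : (G : ℝ) + 1 = ⌈k * Real.log X / C⌉₊ := by
    have : G + 1 = ⌈k * Real.log X / C⌉₊ := by omega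
    exact_mod_cast this
  have hG2 : (G : ℝ) < k * Real.log X / C := by
    have := Nat.ceil_lt_add_one hpos.le
    linarith
  have hG3 : k * Real.log X / C ≤ G + 1 := by rw [hG1]; exact Nat.le_ceil _
  have hG4 : C * G < k * Real.log X := by
    rw [lt_div_iff₀ hC0] at hG2
    linarith
  have hGY : G ≤ Y := by
    have h5 : (G : ℝ) ≤ H := by
      have h6 : k * Real.log X / C ≤ C * k * Real.log X := by
        rw [div_le_iff₀ hC0]
        nlinarith [mul_pos (lt_of_lt_of_le one_pos hkr) hL0, mul_self_nonneg C, mul_le_mul hC hC (by norm_num) hC0.le]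
      linarith
    have h6 : G ≤ H := by exact_mod_cast h5
    omega
  obtain ⟨l1, l2⟩ := (h k G hk hGY).2 hG4
  have f3 := fwd_lt l1
  have f4 := bwd_lt hkn l2
  have hcomp : k * Real.log X / (C + 1) ≤ k * Real.log X / C := by
    apply div_le_div_of_nonneg_left (by positivity) hC0 (by linarith)
  have f1r : (pr (n + k) : ℝ) ≤ pr n + H := by exact_mod_cast f1
  have f2r : (pr n : ℝ) ≤ pr (n - k) + H := by exact_mod_cast f2
  have f3r : (pr n : ℝ) + G + 1 ≤ pr (n + k) := by exact_mod_cast f3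
  have f4r : (pr (n - k) : ℝ) + G + 1 ≤ pr n := by exact_mod_cast f4
  exact ⟨⟨by linarith, by linarith⟩, hkn, by linarith, by linarith⟩

open Classical in
/-- **All distances from almost all primes.** -/
theorem dist (θ : ℝ) (h0 : 0 < θ) (h1 : θ ≤ 1) (ε : ℝ) (hε : 0 < ε) :
    ∃ C : ℝ, 1 ≤ C ∧ ∀ᶠ X : ℕ in atTop, ∀ Y : ℕ, (X : ℝ) ^ θ ≤ Y → Y ≤ X →
      ({n : ℕ | X < pr n ∧ pr n ≤ X + Y ∧ ¬ Dist C X Y n}.ncard : ℝ) ≤ ε * Y / Real.log X := by
  obtain ⟨C, hC, h⟩ := steps θ h0 h1 ε hε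
  refine ⟨C + 1, by linarith, ?_⟩
  have hlogX : Tendsto (fun X : ℕ => Real.log (X : ℝ)) atTop atTop :=
    Real.tendsto_log_atTop.comp tendsto_natCast_atTop_atTop
  filter_upwards [h, hlogX.eventually_ge_atTop 1] with X hX hlog Y hXY hYX
  refine le_trans (Nat.cast_le.2 ?_) (hX Y hXY hYX)
  rw [← Set.ncard_coe_finset]
  apply Set.ncard_le_ncard_of_injOn pr
  · rintro n ⟨n1, n2, n3⟩
    rw [mem_coe, mem_filter, mem_Ioc]
    exact ⟨⟨n1, n2⟩, pr_prime n, fun hN => n3 (dist_of_nice hC hlog hN)⟩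
  · exact pr_inj.injOn

end Pool.Agent.X119.Steps
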