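import Pool.Agent.TH464.PW.Main
import Pool.Agent.TH464.PW.Quad

set_option autoImplicit false

/-!
# Windows around a positive proportion of the integers of every short interval: general form

`P r X` is the property of the integers which are counted, `k` the number of the polynomials.
-/

namespace Pool.Agent.X119.Win

open Polynomial Finset Filter
open Pool.Agent.W123.RU.Poly

open Classical in
/-- the number of the `m` in `(a, b]` with the property `P` -/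
noncomputable def cnt (P : ℕ → Prop) (a b : ℕ) : ℕ := ((Finset.Ioc a b).filter (fun m => P m)).card

/-- Every interval `(a, b]` with `a ≤ n ≤ b` and `K log ^ k X ≤ b - a ≤ Y` contains between
`c₁ (b - a) / log ^ k X` and `c₂ (b - a) / log ^ k X` integers with the property `P`. -/
def Order (P : ℕ → Prop) (k : ℕ) (c₁ c₂ K : ℝ) (X Y n : ℕ) : Prop :=
  ∀ a b : ℕ, a ≤ n → n ≤ b → K * Real.log X ^ k ≤ (b : ℝ) - a → (b : ℝ) - a ≤ Y →
    c₁ * ((b : ℝ) - a) / Real.log X ^ k ≤ cnt P a b ∧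
      (cnt P a b : ℝ) ≤ c₂ * ((b : ℝ) - a) / Real.log X ^ k

/-- The integers with the property `P` have the constant density `lam / log ^ k X`, `c₁ ≤ lam ≤ c₂`, up to
`δ` in all subintervals of `[n - D, n + D]`. -/
def ConstantDensity (P : ℕ → Prop) (k : ℕ) (c₁ c₂ δ : ℝ) (X n D : ℕ) : Prop :=
  ∃ lam : ℝ, c₁ ≤ lam ∧ lam ≤ c₂ ∧ ∀ u v : ℕ, n ≤ u + D → u ≤ v → v ≤ n + D →
    |(cnt P u v : ℝ) - lam * ((v : ℝ) - u) / Real.log X ^ k| ≤ δ * D / Real.log X ^ k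

open Classical in
/-- the number of the dyadic scales `log ^ k X ≤ 2 ^ j ≤ Y` at which the density is not constant -/
noncomputable def badScales (P : ℕ → Prop) (k : ℕ) (c₁ c₂ δ : ℝ) (X Y n : ℕ) : ℕ :=
  ((range (Nat.log 2 Y + 1)).filter (fun j => Real.log X ^ k ≤ (2 : ℝ) ^ j ∧
    ¬ ConstantDensity P k c₁ c₂ δ X n (2 ^ j))).card

open Classical in
/-- **General form.** -/
theorem windows {ι : Type} [Fintype ι] [Nonempty ι] (f : ι → ℤ[X]) (hf : Sys f)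
    (P : ℕ → ℕ → ℕ → Prop)
    (hP : ∀ r X m, P r X m ↔ Pool.Agent.TH464.PW.Almost f r ((X : ℝ) ^ (1 / (r : ℝ))) m)
    (k : ℕ) (hk : Fintype.card ι = k) (θ : ℝ) (hθ : 0 < θ) (hθ1 : θ ≤ 1) :
    ∃ (r : ℕ) (c₁ c₂ K κ : ℝ), 0 < c₁ ∧ 0 < c₂ ∧ 0 < K ∧ 0 < κ ∧ ∀ δ : ℝ, 0 < δ → ∃ B : ℕ,
      ∀ᶠ X : ℕ in atTop, ∀ Y : ℕ, (X : ℝ) ^ θ ≤ Y → Y ≤ X →
        κ * Y ≤ (((Finset.Ioc X (X + Y)).filter (fun n =>
          Order (P r X) k c₁ c₂ K X Y n ∧ badScales (P r X) k c₁ c₂ δ X Y n ≤ B)).card : ℝ) := by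
  subst hk
  obtain ⟨r, c₁, c₂, K, κ, h1, h2, h3, h4, h⟩ := Pool.Agent.TH464.PW.main_pos f hf θ hθ hθ1
  refine ⟨r, c₁, c₂, K, κ, h1, h2, h3, h4, fun δ hδ => ?_⟩
  obtain ⟨B, hB⟩ := h δ hδ
  refine ⟨B, ?_⟩
  filter_upwards [hB] with X hX Y hXY hYX
  have e0 : P r X = fun m => Pool.Agent.TH464.PW.Almost f r ((X : ℝ) ^ (1 / (r : ℝ))) m :=
    funext fun m => propext (hP r X m)
  have e1 : ∀ a b, cnt (P r X) a b = Pool.Agent.TH464.PW.Nc f r X a b := by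
    intro a b
    rw [e0]
    rfl
  have e2 : ∀ n, Order (P r X) (Fintype.card ι) c₁ c₂ K X Y n ↔
      Pool.Agent.TH464.PW.Reg f r c₁ c₂ K X Y n := by
    intro n
    unfold Order Pool.Agent.TH464.PW.Reg
    simp only [e1]
  have e3 : ∀ n, badScales (P r X) (Fintype.card ι) c₁ c₂ δ X Y n =
      Pool.Agent.TH464.PW.bad f r c₁ c₂ δ X Y n := by
    intro n
    unfold badScales Pool.Agent.TH464.PW.bad ConstantDensity Pool.Agent.TH464.PW.ConstD
    simp only [e1]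
  have h5 := hX Y hXY hYX
  refine h5.trans (le_of_eq ?_)
  congr 2
  refine Finset.filter_congr fun n _ => ?_
  rw [e2, e3]

/-- one quadratic polynomial -/
lemma sys_quad (a b c : ℤ) (ha : 0 < a)
    (hg : ∀ p : ℕ, p.Prime → ¬ ((p : ℤ) ∣ a ∧ (p : ℤ) ∣ b ∧ (p : ℤ) ∣ c))
    (hD : ¬ IsSquare (b ^ 2 - 4 * a * c))
    (hadm : ∀ p : ℕ, p.Prime → ∃ m : ℕ, ¬ (p : ℤ) ∣ a * (m : ℤ) ^ 2 + b * m + c) :
    Sys (fun _ : Fin 1 => Pool.Agent.TH464.PW.quad a b c) where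
  irr := fun _ => Pool.Agent.TH464.PW.quad_irr a b c ha.ne' hg hD
  deg := fun _ => by rw [Pool.Agent.TH464.PW.quad_deg a b c ha.ne']; norm_num
  lead := fun _ => by rw [Pool.Agent.TH464.PW.quad_lead a b c ha.ne']; exact ha
  inj := fun _ _ _ => Subsingleton.elim _ _
  adm := fun p hp => by
    obtain ⟨m, h2⟩ := hadm p hp
    refine ⟨m, fun _ => ?_⟩
    rw [Pool.Agent.TH464.PW.quad_eval]
    exact h2

/-- the property for one quadratic polynomial -/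
lemma almost_quad (a b c : ℤ) (r X m : ℕ) :
    ((a * (m : ℤ) ^ 2 + b * m + c).natAbs.primeFactorsList.length ≤ r ∧
      ∀ p : ℕ, p.Prime → (p : ℤ) ∣ a * (m : ℤ) ^ 2 + b * m + c → (X : ℝ) ^ (1 / (r : ℝ)) < (p : ℝ)) ↔
    Pool.Agent.TH464.PW.Almost (fun _ : Fin 1 => Pool.Agent.TH464.PW.quad a b c) r
      ((X : ℝ) ^ (1 / (r : ℝ))) m := by
  unfold Pool.Agent.TH464.PW.Almost
  simp only [Pool.Agent.TH464.PW.quad_eval]
  exact ⟨fun h _ => h, fun h => h 0⟩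

end Pool.Agent.X119.Win
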