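import Pool.Agent.X119.Win
import Pool.Agent.TH977.PW.Inst

set_option autoImplicit false

/-!
# Windows for systems of polynomials with values in the natural numbers
-/

namespace Pool.Agent.X119.WinLin

open Polynomial Finset Filter
open Pool.Agent.W123.RU.Poly Pool.Agent.X119.Win Pool.Agent.W182.PW

/-- all values `v i m` have at most `r` prime factors, all of them larger than `X ^ (1 / r)` -/
def AP {ι : Type} (v : ι → ℕ → ℕ) (r X m : ℕ) : Prop :=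
  ∀ i, (v i m).primeFactorsList.length ≤ r ∧
    ∀ p : ℕ, p.Prime → p ∣ v i m → (X : ℝ) ^ (1 / (r : ℝ)) < (p : ℝ)

lemma cnt_congr {P Q : ℕ → Prop} (h : ∀ m, 1 ≤ m → (P m ↔ Q m)) (a b : ℕ) : cnt P a b = cnt Q a b := by
  classical
  unfold cnt
  apply congrArg Finset.card
  ext m
  simp only [mem_filter, mem_Ioc]
  constructor
  · rintro ⟨h1, h2⟩
    exact ⟨h1, (h m (by omega)).1 h2⟩
  · rintro ⟨h1, h2⟩
    exact ⟨h1, (h m (by omega)).2 h2⟩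

lemma order_congr {P Q : ℕ → Prop} (h : ∀ m, 1 ≤ m → (P m ↔ Q m)) (k : ℕ) (c₁ c₂ K : ℝ) (X Y n : ℕ) :
    Order P k c₁ c₂ K X Y n ↔ Order Q k c₁ c₂ K X Y n := by
  unfold Order
  simp only [cnt_congr h]

lemma dens_congr {P Q : ℕ → Prop} (h : ∀ m, 1 ≤ m → (P m ↔ Q m)) (k : ℕ) (c₁ c₂ δ : ℝ) (X n D : ℕ) :
    ConstantDensity P k c₁ c₂ δ X n D ↔ ConstantDensity Q k c₁ c₂ δ X n D := by
  unfold ConstantDensity
  simp only [cnt_congr h]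

lemma bad_congr {P Q : ℕ → Prop} (h : ∀ m, 1 ≤ m → (P m ↔ Q m)) (k : ℕ) (c₁ c₂ δ : ℝ) (X Y n : ℕ) :
    badScales P k c₁ c₂ δ X Y n = badScales Q k c₁ c₂ δ X Y n := by
  classical
  unfold badScales
  apply congrArg Finset.card
  ext j
  simp only [mem_filter, mem_range, dens_congr h]

open Classical in
theorem val_windows {ι : Type} [Fintype ι] [Nonempty ι] (f : ι → ℤ[X]) (hf : Sys f) (v : ι → ℕ → ℕ)
    (hv : ∀ i m, 1 ≤ m → ((v i m : ℕ) : ℤ) = (f i).eval (m : ℤ))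
    (P : ℕ → ℕ → ℕ → Prop) (hP : ∀ r X m, 1 ≤ m → (P r X m ↔ AP v r X m))
    (k : ℕ) (hk : Fintype.card ι = k) (θ : ℝ) (hθ : 0 < θ) (hθ1 : θ ≤ 1) :
    ∃ (r : ℕ) (c₁ c₂ K κ : ℝ), 0 < c₁ ∧ 0 < c₂ ∧ 0 < K ∧ 0 < κ ∧ ∀ δ : ℝ, 0 < δ → ∃ B : ℕ,
      ∀ᶠ X : ℕ in atTop, ∀ Y : ℕ, (X : ℝ) ^ θ ≤ Y → Y ≤ X →
        κ * Y ≤ (((Finset.Ioc X (X + Y)).filter (fun n =>
          Order (P r X) k c₁ c₂ K X Y n ∧ badScales (P r X) k c₁ c₂ δ X Y n ≤ B)).card : ℝ) := by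
  obtain ⟨r, c₁, c₂, K, κ, h1, h2, h3, h4, h⟩ := windows f hf
    (fun r X m => Pool.Agent.TH464.PW.Almost f r ((X : ℝ) ^ (1 / (r : ℝ))) m)
    (fun r X m => Iff.rfl) k hk θ hθ hθ1
  refine ⟨r, c₁, c₂, K, κ, h1, h2, h3, h4, fun δ hδ => ?_⟩
  obtain ⟨B, hB⟩ := h δ hδ
  refine ⟨B, ?_⟩
  filter_upwards [hB] with X hX Y hXY hYX
  refine (hX Y hXY hYX).trans (le_of_eq ?_)
  have hiff : ∀ m, 1 ≤ m → (P r X m ↔ Pool.Agent.TH464.PW.Almost f r ((X : ℝ) ^ (1 / (r : ℝ))) m) := by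
    intro m hm
    rw [hP r X m hm]
    unfold AP Pool.Agent.TH464.PW.Almost
    refine forall_congr' fun i => ?_
    rw [← hv i m hm, Int.natAbs_natCast]
    simp only [Int.natCast_dvd_natCast]
  congr 2
  refine Finset.filter_congr fun n _ => ?_
  rw [order_congr hiff, bad_congr hiff]

open Classical in
/-- linear forms -/
theorem lin_windows {ι : Type} [Fintype ι] [Nonempty ι] (v : ι → ℕ → ℕ) (a : ι → ℕ) (b : ι → ℤ)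
    (ha : ∀ i, 0 < a i) (hab : ∀ i, IsCoprime (a i : ℤ) (b i))
    (hinj : ∀ i j, a i = a j → b i = b j → i = j)
    (hadm : ∀ p : ℕ, p.Prime → ∃ m : ℕ, ∀ i, ¬ (p : ℤ) ∣ (a i : ℤ) * m + b i)
    (hv : ∀ i m, 1 ≤ m → ((v i m : ℕ) : ℤ) = (a i : ℤ) * m + b i)
    (P : ℕ → ℕ → ℕ → Prop) (hP : ∀ r X m, 1 ≤ m → (P r X m ↔ AP v r X m))
    (k : ℕ) (hk : Fintype.card ι = k) (θ : ℝ) (hθ : 0 < θ) (hθ1 : θ ≤ 1) :
    ∃ (r : ℕ) (c₁ c₂ K κ : ℝ), 0 < c₁ ∧ 0 < c₂ ∧ 0 < K ∧ 0 < κ ∧ ∀ δ : ℝ, 0 < δ → ∃ B : ℕ,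
      ∀ᶠ X : ℕ in atTop, ∀ Y : ℕ, (X : ℝ) ^ θ ≤ Y → Y ≤ X →
        κ * Y ≤ (((Finset.Ioc X (X + Y)).filter (fun n =>
          Order (P r X) k c₁ c₂ K X Y n ∧ badScales (P r X) k c₁ c₂ δ X Y n ≤ B)).card : ℝ) :=
  val_windows (fun i => lin (a i) (b i))
    (Pool.Agent.TH977.PW.sys_lin a b ha hab hinj hadm) v
    (fun i m hm => by rw [lin_eval]; exact hv i m hm) P hP k hk θ hθ hθ1

end Pool.Agent.X119.WinLin
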