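import Pool.Agent.X119.WinLin

set_option autoImplicit false

/-!
# Windows for tuples, and in the intervals between consecutive powers
-/

namespace Pool.Agent.X119.WinTup

open Finset Filter
open Pool.Agent.X119.Win

/-- all `m + h`, `h ∈ H`, have at most `r` prime factors, all of them larger than `X ^ (1 / r)` -/
def AT (H : Finset ℕ) (r X m : ℕ) : Prop :=
  ∀ h ∈ H, (m + h).primeFactorsList.length ≤ r ∧
    ∀ p : ℕ, p.Prime → p ∣ m + h → (X : ℝ) ^ (1 / (r : ℝ)) < (p : ℝ)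

open Classical in
theorem tuple_windows (H : Finset ℕ) (hH : H.Nonempty)
    (hadm : ∀ p : ℕ, p.Prime → ∃ m : ℕ, ∀ h ∈ H, ¬ p ∣ m + h)
    (k : ℕ) (hk : H.card = k) (θ : ℝ) (hθ : 0 < θ) (hθ1 : θ ≤ 1) :
    ∃ (r : ℕ) (c₁ c₂ K κ : ℝ), 0 < c₁ ∧ 0 < c₂ ∧ 0 < K ∧ 0 < κ ∧ ∀ δ : ℝ, 0 < δ → ∃ B : ℕ,
      ∀ᶠ X : ℕ in atTop, ∀ Y : ℕ, (X : ℝ) ^ θ ≤ Y → Y ≤ X →
        κ * Y ≤ (((Finset.Ioc X (X + Y)).filter (fun n =>
          Order (AT H r X) k c₁ c₂ K X Y n ∧ badScales (AT H r X) k c₁ c₂ δ X Y n ≤ B)).card : ℝ) := by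
  obtain ⟨h0, hh0⟩ := hH
  have : Nonempty {h // h ∈ H} := ⟨⟨h0, hh0⟩⟩
  exact Pool.Agent.X119.WinLin.lin_windows (ι := {h // h ∈ H}) (fun i m => m + i) (fun _ => 1)
    (fun i => ((i : ℕ) : ℤ)) (fun _ => one_pos) (fun i => ⟨1, 0, by push_cast; ring⟩)
    (fun i j _ h => Subtype.ext (by exact_mod_cast h))
    (fun p hp => by
      obtain ⟨m, hm⟩ := hadm p hp
      refine ⟨m, fun i hd => hm i i.2 ?_⟩
      have e : ((1 : ℕ) : ℤ) * (m : ℤ) + ((i : ℕ) : ℤ) = ((m + i : ℕ) : ℤ) := by push_cast; ring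
      rw [e] at hd
      exact_mod_cast hd)
    (fun i m _ => by push_cast; ring)
    (fun r X m => AT H r X m)
    (fun r X m _ => by
      unfold AT Pool.Agent.X119.WinLin.AP
      exact ⟨fun h i => h i i.2, fun h j hj => h ⟨j, hj⟩⟩)
    k (by rw [Fintype.card_coe, hk]) θ hθ hθ1

open Classical in
/-- from short intervals to the intervals between consecutive powers -/
theorem pow_windows (s : ℕ) (hs : 2 ≤ s) (k : ℕ) (P : ℕ → ℕ → ℕ → Prop)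
    (h : ∃ (r : ℕ) (c₁ c₂ K κ : ℝ), 0 < c₁ ∧ 0 < c₂ ∧ 0 < K ∧ 0 < κ ∧ ∀ δ : ℝ, 0 < δ → ∃ B : ℕ,
      ∀ᶠ X : ℕ in atTop, ∀ Y : ℕ, (X : ℝ) ^ (1 / 2 : ℝ) ≤ Y → Y ≤ X →
        κ * Y ≤ (((Finset.Ioc X (X + Y)).filter (fun n =>
          Order (P r X) k c₁ c₂ K X Y n ∧ badScales (P r X) k c₁ c₂ δ X Y n ≤ B)).card : ℝ)) :
    ∃ (r : ℕ) (c₁ c₂ K κ : ℝ), 0 < c₁ ∧ 0 < c₂ ∧ 0 < K ∧ 0 < κ ∧ ∀ δ : ℝ, 0 < δ → ∃ B : ℕ,
      ∀ᶠ N : ℕ in atTop,
        κ * (((N + 1) ^ s - N ^ s : ℕ) : ℝ) ≤ (((Finset.Ioc (N ^ s) ((N + 1) ^ s)).filter (fun n =>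
          Order (P r (N ^ s)) k c₁ c₂ K (N ^ s) ((N + 1) ^ s - N ^ s) n ∧
          badScales (P r (N ^ s)) k c₁ c₂ δ (N ^ s) ((N + 1) ^ s - N ^ s) n ≤ B)).card : ℝ) := by
  obtain ⟨r, c₁, c₂, K, κ, h1, h2, h3, h4, h⟩ := h
  refine ⟨r, c₁, c₂, K, κ, h1, h2, h3, h4, fun δ hδ => ?_⟩
  obtain ⟨B, hB⟩ := h δ hδ
  refine ⟨B, ?_⟩
  obtain ⟨X₀, hX₀⟩ := eventually_atTop.1 hB
  filter_upwards [eventually_ge_atTop (max (max X₀ 1) (2 * s))] with N hN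
  have hN0 : X₀ ≤ N := (le_max_left _ _).trans ((le_max_left _ _).trans hN)
  have hN1 : 1 ≤ N := (le_max_right _ _).trans ((le_max_left _ _).trans hN)
  have hN2 : 2 * s ≤ N := (le_max_right _ _).trans hN
  have hs1 : 1 ≤ s := by omega
  have hle : N ^ s ≤ (N + 1) ^ s := Nat.pow_le_pow_left (Nat.le_succ _) s
  have hNr : (1 : ℝ) ≤ N := by exact_mod_cast hN1
  have hX : X₀ ≤ N ^ s := hN0.trans (Nat.le_self_pow (by omega) N)
  -- `N ^ (s - 1) ≤ Y`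
  have hYlow : N ^ (s - 1) ≤ (N + 1) ^ s - N ^ s := by
    apply Nat.le_sub_of_add_le
    obtain ⟨t, rfl⟩ : ∃ t, s = t + 1 := ⟨s - 1, by omega⟩
    rw [Nat.add_sub_cancel]
    calc N ^ t + N ^ (t + 1) = N ^ t * (N + 1) := by ring
      _ ≤ (N + 1) ^ t * (N + 1) := Nat.mul_le_mul_right _ (Nat.pow_le_pow_left (Nat.le_succ _) t)
      _ = (N + 1) ^ (t + 1) := by ring
  have hYup : (N + 1) ^ s - N ^ s ≤ N ^ s := by
    have h5 : (N + 1) ^ s ≤ 2 * N ^ s := by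
      have hNpos : (0 : ℝ) < N := by linarith
      have h6 : (((N + 1 : ℕ) : ℝ) / N) ^ s ≤ 2 := by
        have e1 : ((N + 1 : ℕ) : ℝ) / N = 1 + 1 / N := by
          push_cast
          field_simp
        rw [e1]
        have e2 : (1 : ℝ) + 1 / N ≤ Real.exp (1 / N) := by
          have := Real.add_one_le_exp (1 / (N : ℝ))
          linarith
        calc (1 + 1 / (N : ℝ)) ^ s ≤ Real.exp (1 / N) ^ s := by gcongr
          _ = Real.exp (s * (1 / N)) := by rw [← Real.exp_nat_mul]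
          _ ≤ Real.exp (1 / 2) := by
              apply Real.exp_le_exp.2
              have : (2 : ℝ) * s ≤ N := by exact_mod_cast hN2
              rw [mul_one_div, div_le_div_iff₀ hNpos (by norm_num)]
              linarith
          _ ≤ 2 := by
              have h7 := Real.exp_one_lt_d9
              have h8 : Real.exp (1 / 2) * Real.exp (1 / 2) = Real.exp 1 := by
                rw [← Real.exp_add]
                norm_num
              nlinarith [Real.exp_pos (1 / 2 : ℝ)]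
      rw [div_pow, div_le_iff₀ (by positivity)] at h6
      exact_mod_cast h6
    omega
  have hpow : ((N ^ s : ℕ) : ℝ) ^ (1 / 2 : ℝ) ≤ (((N + 1) ^ s - N ^ s : ℕ) : ℝ) := by
    calc ((N ^ s : ℕ) : ℝ) ^ (1 / 2 : ℝ) = (N : ℝ) ^ ((s : ℝ) * (1 / 2)) := by
          push_cast
          rw [← Real.rpow_natCast, ← Real.rpow_mul (by linarith)]
      _ ≤ (N : ℝ) ^ ((s - 1 : ℕ) : ℝ) := by
          apply Real.rpow_le_rpow_of_exponent_le hNr
          rw [Nat.cast_sub hs1]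
          have : (2 : ℝ) ≤ s := by exact_mod_cast hs
          push_cast
          linarith
      _ = ((N ^ (s - 1) : ℕ) : ℝ) := by rw [Real.rpow_natCast]; push_cast; rfl
      _ ≤ _ := by exact_mod_cast hYlow
  have h5 := hX₀ (N ^ s) hX ((N + 1) ^ s - N ^ s) hpow hYup
  rwa [show N ^ s + ((N + 1) ^ s - N ^ s) = (N + 1) ^ s by omega] at h5

end Pool.Agent.X119.WinTup
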